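import Mathlib.CategoryTheory.Countable
import Mathlib.Topology.Sheaves.Presheaf
import Mathlib.Tactic.Monotonicity.Lemmas
import Mathlib.Algebra.Ring.IsFormallyReal
import Mathlib.Combinatorics.SimpleGraph.Basic
import Mathlib.Data.Nat.Nth
import Mathlib.RingTheory.PiTensorProduct
import Mathlib.Topology.Separation.CompletelyRegular
import Mathlib.MeasureTheory.Order.Group.Lattice
import Mathlib.Probability.Independence.InfinitePi
import Pool.Agent.MP_154433_an.fib.Spec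

-- ======== part 0: formerly Pool.Agent.MP_154433_an.sg.Spec
section MrgPart0

/-! Statements of the rows (note 154433_sparseGvN_h92). -/

set_option autoImplicit false
set_option linter.unusedVariables false

open MeasureTheory ProbabilityTheory Filter Topology Function

noncomputable section

namespace Pool.Agent.MP_154433_an.SG

open Fam

/-! ### foundations -/

def DensS : Prop := ∀ {X : Type} [MeasurableSpace X] (T : Set (X → ℝ)), (1 : X → ℝ) ∈ T →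
  (∀ φ ∈ T, ∀ φ' ∈ T, φ * φ' ∈ T) → (∀ φ ∈ T, Measurable φ ∧ ∃ C : ℝ, ∀ x, |φ x| ≤ C) →
  (∀ (μ : Measure X) [IsFiniteMeasure μ] (g : X → ℝ), Integrable g μ →
    (∀ φ ∈ T, ∫ x, g x * φ x ∂μ = 0) →
    Orth (⨆ φ ∈ T, MeasurableSpace.comap φ inferInstance) μ g) ∧
  (∀ (μ : Measure X) [IsFiniteMeasure μ] (ψ : X → ℝ),
    ABM (⨆ φ ∈ T, MeasurableSpace.comap φ inferInstance) μ ψ → ∀ ε : ℝ, 0 < ε →
    ∃ φ ∈ Submodule.span ℝ T, ∫ x, |ψ x - φ x| ∂μ < ε) ∧
  ∀ (μ μ' : Measure X) [IsFiniteMeasure μ] [IsFiniteMeasure μ'],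
    (∀ φ ∈ T, ∫ x, φ x ∂μ = ∫ x, φ x ∂μ') →
    ∀ A, MeasurableSet[⨆ φ ∈ T, MeasurableSpace.comap φ inferInstance] A → μ A = μ' A

def LimS : Prop := ∀ (Φ : Fam) (U : Ultrafilter ℕ), ∃ μ : Measure Φ.Pt, IsProbabilityMeasure μ ∧
  ∀ F : Φ.Alg, Tendsto (fun N => ∫ ω, F.1 N ω ∂Φ.PP N) U (𝓝 (∫ x, hat F x ∂μ))

structure FdA (S : Sys) : Prop where
  lift : ∀ Θ : S.FMap, S.MP Θ → MeasurePreserving Θ.lift S.μ S.μ
  densA : ∀ (T : Submonoid S.Alg) (g : S.Pt → ℝ), Integrable g S.μ →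
    (∀ F ∈ T, ∫ x, g x * hat F x ∂S.μ = 0) → Orth (sig (T : Set S.Alg)) S.μ g
  densB : ∀ (T : Submonoid S.Alg) (ψ : S.Pt → ℝ), ABM (sig (T : Set S.Alg)) S.μ ψ →
    ∀ ε : ℝ, 0 < ε → ∃ F ∈ Submodule.span ℝ (T : Set S.Alg), ∫ x, |ψ x - hat F x| ∂S.μ < ε
  /-- slot by slot extension from generators -/
  mext : ∀ (ι : Type) (s : Finset ι) (T : ι → Submonoid S.Alg) (Θ Θ' : ι → S.Pt → S.Pt)
    (H H' : S.Pt → ℝ), (∀ i ∈ s, MeasurePreserving (Θ i) S.μ S.μ) →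
    (∀ i ∈ s, MeasurePreserving (Θ' i) S.μ S.μ) → ABM inferInstance S.μ H →
    ABM inferInstance S.μ H' →
    (∀ F : ι → S.Alg, (∀ i ∈ s, F i ∈ T i) →
      ∫ x, H x * ∏ i ∈ s, hat (F i) (Θ i x) ∂S.μ = ∫ x, H' x * ∏ i ∈ s, hat (F i) (Θ' i x) ∂S.μ) →
    ∀ g : ι → S.Pt → ℝ, (∀ i ∈ s, ABM (sig (T i : Set S.Alg)) S.μ (g i)) →
      ∫ x, H x * ∏ i ∈ s, g i (Θ i x) ∂S.μ = ∫ x, H' x * ∏ i ∈ s, g i (Θ' i x) ∂S.μ

open Classical in
structure FdB (S : Sys) : Prop where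
  skew : ∀ (Θ : S.FMap) (D : Finset ℕ), (∀ j ∈ D, Even j) →
    (∀ N ω j, j ∉ D → Θ.toFun N ω j = ω j) →
    (∀ᶠ N in (S.U : Filter ℕ), Injective (Θ.toFun N)) → S.MP Θ
  perm : ∀ π, KP π → S.MP (S.perm π)
  res : ∀ (A : Set ℕ) (N : ℕ), MeasurePreserving
    (fun p : S.Om N × S.Om N => A.piecewise p.1 p.2) ((S.PP N).prod (S.PP N)) (S.PP N)

structure FdC (S : Sys) : Prop where
  thmp : ∀ c, MeasurePreserving (S.Th c) S.μ S.μ
  pmmp : ∀ π, KP π → MeasurePreserving (S.Pm π) S.μ S.μ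
  cstmp : ∀ (D : Finset ℕ) σ, (∀ j ∈ D, Even j) → MeasurePreserving (cst D σ).lift S.μ S.μ
  samp0 : ∀ (A : Set ℕ) (F : S.Alg), ∃ σ,
    ∫ x, hat F x ∂S.μ ≤ ∫ x, hat ((sec A σ).pull F) x ∂S.μ
  avg : ∀ (I : Set ℕ) (F : S.Alg), S.μ[hat F | S.Full I] =ᵐ[S.μ] hat (avg Iᶜ F)
  shift : ∀ (D : Finset ℕ), (∀ j ∈ D, Even j) → ∀ F H : S.Alg, ∃ σ,
    ∫ x, hat F x * hat (Fam.avg (D : Set ℕ) H) x ∂S.μ ≤
      ∫ x, hat F x * hat ((cst D σ).pull H) x ∂S.μ
  mix : ∀ (t : ℕ) (d : ℤ) (F F' : S.Alg), Odd t → d ≠ 0 → Dep F {t}ᶜ → Dep F' {t}ᶜ →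
    ∫ x, hat F x * hat F' (S.Th (d • ee t) x) ∂S.μ =
      ∫ x, hat F x * hat (Fam.avg {0} F') x ∂S.μ

structure FdD (S : Sys) : Prop where
  sel : ∀ (J : Finset ℕ) (c : ℕ →₀ ℤ) (z : ℕ) (F : S.Alg), (∀ j ∈ J, Odd j) → c.support ⊆ J →
    S.r ≤ (J.filter fun j => c j = 1).card → Even z → Dep F {z}ᶜ →
    ∃ sel : ∀ N, S.G N → S.Om N, (∀ N v, dot c (sel N v) = v) ∧
      ∫ x, hat F x ∂S.μ ≤ ∫ x, hat ((secf (J : Set ℕ) sel z).pull F) x ∂S.μ

structure FdE (S : Sys) : Prop where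
  samp : ∀ (T T' : Submonoid S.Alg) (I : Set ℕ), (∀ σ, ∀ F ∈ T', (sec Iᶜ σ).pull F ∈ T) →
    ∀ g : S.Pt → ℝ, ABM (S.Full I) S.μ g → Orth (sig (T : Set S.Alg)) S.μ g →
      Orth (sig (T' : Set S.Alg)) S.μ g
  sampd : ∀ (T T' : Submonoid S.Alg) (I : Set ℕ), (∀ σ, ∀ F ∈ T', (sec Iᶜ σ).pull F ∈ T) →
    (∀ F ∈ T, Dep F I) → ∀ ψ : S.Pt → ℝ, ABM (sig (T' : Set S.Alg)) S.μ ψ →
      AEStronglyMeasurable[sig (T : Set S.Alg)] (S.μ[ψ | S.Full I]) S.μ
  s0 : ∀ Γ (I I' : Set ℕ), 0 ∈ I → Lives Γ I → I ⊆ I' → ∀ g : S.Pt → ℝ, ABM (S.Full I) S.μ g →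
    Orth (S.Base Γ I) S.μ g → Orth (S.Base Γ I') S.μ g
  s0d : ∀ Γ (I I' : Set ℕ), 0 ∈ I → Lives Γ I → I ⊆ I' → ∀ ψ : S.Pt → ℝ,
    ABM (S.Base Γ I') S.μ ψ → AEStronglyMeasurable[S.Base Γ I] (S.μ[ψ | S.Full I]) S.μ
  ci : ∀ (I₁ I₂ : Set ℕ) (g : S.Pt → ℝ), ABM (S.Full I₁) S.μ g →
    S.μ[g | S.Full I₂] =ᵐ[S.μ] S.μ[g | S.Full (I₁ ∩ I₂)]
  copy : ∀ (π : Equiv.Perm ℕ) (I I₁ : Set ℕ) (H : S.Pt → ℝ), KP π → (∀ j ∈ I, π j = j) →
    I ⊆ I₁ → (∀ j ∈ I₁, j ∉ I → π j ∉ I₁) → ABM (S.Full I₁) S.μ H →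
    ∫ x, H x * H (S.Pm π x) ∂S.μ = ∫ x, (S.μ[H | S.Full I]) x ^ 2 ∂S.μ

structure FdF (S : Sys) : Prop where
  base_le : ∀ Γ (I : Set ℕ), Lives Γ I → S.Base Γ I ≤ S.Full I
  base_mono : ∀ Γ Γ' (I I' : Set ℕ), Γ ⊆ Γ' → I ⊆ I' → S.Base Γ I ≤ S.Base Γ' I'
  lam_le : ∀ Γ (I : Set ℕ), tyL ∈ Γ → S.Lam I ≤ S.Base Γ I
  theta : ∀ Γ (I' I'' : Set ℕ) (c : ℕ →₀ ℤ), (∀ γ ∈ Γ, ∀ j ∈ c.support, j ∉ γ.1) → I' ⊆ I'' →
    (c.support : Set ℕ) ⊆ I'' → (S.Base Γ I').comap (S.Th c) ≤ S.Base Γ I''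
  thetaF : ∀ (I' I'' : Set ℕ) (c : ℕ →₀ ℤ), I' ⊆ I'' → (c.support : Set ℕ) ⊆ I'' →
    (S.Full I').comap (S.Th c) ≤ S.Full I''
  permB : ∀ Γ (I I' I'' : Set ℕ) (π : Equiv.Perm ℕ), π 0 = 0 → Lives Γ I → (∀ j ∈ I, π j = j) →
    π '' I' ⊆ I'' → (S.Base Γ I').comap (S.Pm π) ≤ S.Base Γ I''
  permF : ∀ (I' I'' : Set ℕ) (π : Equiv.Perm ℕ), π '' I' ⊆ I'' →
    (S.Full I').comap (S.Pm π) ≤ S.Full I''
  permBB : ∀ (ι : Type) (r : ι → ℤ) Γ (I : Set ℕ) (J : Finset ℕ) (s : ℕ) (i : ι)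
    (π : Equiv.Perm ℕ), π 0 = 0 → Lives Γ I → (∀ j ∈ I, π j = j) →
    (S.BB r Γ I J s i).comap (S.Pm π) ≤ S.BB r Γ I (J.image π) (π s) i
  permPJ : ∀ (I : Set ℕ) (J : Finset ℕ) (π : Equiv.Perm ℕ), π 0 = 0 → (∀ j ∈ I, π j = j) →
    (S.PJ I J).comap (S.Pm π) ≤ S.PJ I (J.image π)
  fix : ∀ (T : Set S.Alg) (Θ Θ' : S.FMap), (∀ F ∈ T, Θ.pull F = Θ'.pull F) →
    ∀ A, MeasurableSet[sig T] A → Θ.lift ⁻¹' A = Θ'.lift ⁻¹' A
  fixae : ∀ (T : Set S.Alg) (Θ Θ' : S.FMap), (∀ F ∈ T, Θ.pull F = Θ'.pull F) →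
    MeasurePreserving Θ.lift S.μ S.μ → MeasurePreserving Θ'.lift S.μ S.μ →
    ∀ g : S.Pt → ℝ, AEStronglyMeasurable[sig T] g S.μ →
      (fun x => g (Θ.lift x)) =ᵐ[S.μ] fun x => g (Θ'.lift x)
  lamfix : ∀ (I : Set ℕ) (c : ℕ →₀ ℤ) (g : S.Pt → ℝ), MeasurePreserving (S.Th c) S.μ S.μ →
    AEStronglyMeasurable[S.Lam I] g S.μ → (fun x => g (S.Th c x)) =ᵐ[S.μ] g
  pmfix : ∀ (I : Set ℕ) (π : Equiv.Perm ℕ) (g : S.Pt → ℝ), MeasurePreserving (S.Pm π) S.μ S.μ →
    (∀ j ∈ I, π j = j) → AEStronglyMeasurable[S.Full I] g S.μ →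
    (fun x => g (S.Pm π x)) =ᵐ[S.μ] g
  bbeq : ∀ (ι : Type) (r : ι → ℤ) Γ (I : Set ℕ) (J : Finset ℕ) (s : ℕ) (i : ι),
    (∀ j ∈ J, j ∉ I) → S.BB r Γ I J s i =
      S.Base (Γ ∪ {γ | ∃ j, j ≠ i ∧ γ = (J, (r j - r i) • ee s)}) (I ∪ J)
  pjeq : ∀ (I : Set ℕ) (J : Finset ℕ), (∀ j ∈ J, j ∉ I) →
    S.PJ I J = S.Base {(J, 0), tyL} (I ∪ J)
  fresh : ∀ (I : Set ℕ) (J : Finset ℕ), 0 ∈ I → (∀ j ∈ J, j ∉ I) →
    (∀ j ∈ J, {k | k ∉ I ∧ (Odd k ↔ Odd j)}.Infinite) →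
    ∃ π : Equiv.Perm ℕ, KP π ∧ (∀ j, π (π j) = j) ∧ (∀ j ∈ I, π j = j) ∧
      ∀ j ∈ J, π j ∉ I ∧ π j ∉ J
  frame : ∀ Γ Γ' (I : Set ℕ) (J : Finset ℕ), Frame Γ I → Lives Γ' (I ∪ J) →
    Frame (Γ ∪ Γ') (I ∪ J)
  frame' : ∀ Γ (I : Set ℕ) (J : Finset ℕ), Frame Γ I → Frame Γ (I ∪ J)

structure Fd (S : Sys) : Prop extends FdA S, FdB S, FdC S, FdD S, FdE S, FdF S

def FdAS : Prop := ∀ S : Sys, FdA S
def FdBS : Prop := ∀ S : Sys, FdB S
def FdCS : Prop := ∀ S : Sys, FdA S → FdB S → FdC S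
def FdDS : Prop := ∀ S : Sys, FdA S → FdB S → FdD S
def FdES : Prop := ∀ S : Sys, FdA S → FdB S → FdC S → FdF S → FdE S
def FdFS : Prop := ∀ S : Sys, FdF S

/-! ### dense directions and two points -/

structure V1 (S : Sys) : Prop where
  van1 : ∀ Γ (I : Set ℕ) (J : Finset ℕ) (c : ℕ →₀ ℤ), 0 ∈ I → Lives Γ I → (∀ j ∈ J, j ∉ I) →
    c.support ⊆ J → S.Van Γ I J c 1
  van2 : ∀ Γ (I : Set ℕ) (J : Finset ℕ) (c : ℕ →₀ ℤ), 0 ∈ I → Lives Γ I → (∀ j ∈ J, j ∉ I) →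
    c.support ⊆ J →
    (∀ d : ℤ, d ≠ 0 → ∀ g g' ψ : S.Pt → ℝ, ABM (S.Full I) S.μ g → ABM (S.Full I) S.μ g' →
      ABM (S.Base Γ (I ∪ J)) S.μ ψ → Orth (S.Base Γ I) S.μ g →
      ∫ x, ψ x * (g x * g' (S.Th (d • c) x)) ∂S.μ = 0) → S.Van Γ I J c 2
  s1d : ∀ Γ (I : Set ℕ) (z : ℕ), Frame Γ I → z ∉ I → Even z → S.Van Γ I {z} (ee z) 2

def DS (S : Sys) : Prop :=
  ∀ (n : ℕ) Γ (I : Set ℕ) (z : ℕ), Frame Γ I → z ∉ I → Even z → S.Van Γ I {z} (ee z) n

def R1 (S : Sys) : Prop :=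
  ∀ (n : ℕ) Γ (I : Set ℕ) (J : Finset ℕ) (c : ℕ →₀ ℤ), Frame Γ I → Out I J → c.support ⊆ J →
    S.r ≤ (J.filter fun j => c j = 1).card → S.Van Γ I J c n

def R2P (S : Sys) : Prop :=
  ∀ (I : Set ℕ) (J : Finset ℕ) (t : ℕ) (d : ℤ) (h u Y : S.Pt → ℝ), 0 ∈ I → Out I J → t ∉ I →
    t ∉ J → Odd t → d ≠ 0 → {j | j ∉ I ∧ Odd j}.Infinite → ABM (S.Full (I ∪ J)) S.μ h →
    ABM (S.Full (I ∪ J)) S.μ Y → ABM (S.Full (insert t I)) S.μ u → Orth (S.PJ I J) S.μ h →
    ∫ x, h x * u x * Y (S.Th (d • ee t) x) ∂S.μ = 0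

def V1S : Prop := ∀ S : Sys, Fd S → V1 S
def DSS : Prop := ∀ S : Sys, Fd S → V1 S → DS S
def R1S : Prop := ∀ S : Sys, Fd S → DS S → R1 S
def S2S : Prop := ∀ S : Sys, Fd S → V1 S → R1 S → S.SS 2
def R2PS : Prop := ∀ S : Sys, Fd S → R2P S

/-! ### the global structure in the inductive step -/

/-- the context of the inductive step -/
structure Ctx (S : Sys) {ι : Type} [Fintype ι] (r : ι → ℤ) (Γ : Set (Finset ℕ × (ℕ →₀ ℤ)))
    (I : Set ℕ) : Prop where
  fd : Fd S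
  inj : Injective r
  three : 3 ≤ Fintype.card ι
  fr : Frame Γ I
  ss : S.SS (Fintype.card ι - 1)

section Step

variable (S : Sys) {ι : Type} [Fintype ι] [DecidableEq ι] (r : ι → ℤ)
  (Γ : Set (Finset ℕ × (ℕ →₀ ℤ))) (I : Set ℕ)

def D1 : Prop := ∀ (J : Finset ℕ), Out I J → ∀ s ∈ J, ∀ (i : ι) (r' : ι → ℤ), Injective r' →
  ∀ t : ℕ, t ∉ I → t ∉ J → Odd t → ∀ (F : ι → S.Pt → ℝ) (ψ : S.Pt → ℝ),
    (∀ k, ABM (S.Full (I ∪ J)) S.μ (F k)) → ABM (S.Base Γ (insert t (I ∪ J))) S.μ ψ → ∀ a b : ι,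
    S.TT r' t ψ (update F a (S.μ[F a | S.BB r Γ I J s i])) =
      S.TT r' t ψ (update F b (S.μ[F b | S.BB r Γ I J s i]))

def G2 : Prop := ∀ (J : Finset ℕ), Out I J → ∀ s ∈ J, ∀ (i : ι) (a : S.Pt → ℝ),
  ABM (S.PJ I J) S.μ a → AEStronglyMeasurable[S.PJ I J] (S.μ[a | S.BB r Γ I J s i]) S.μ

def G3 : Prop := ∀ (J : Finset ℕ), Out I J → ∀ s ∈ J, ∀ (i : ι) (r' : ι → ℤ), Injective r' →
  ∀ t ∈ J, ∀ (F : ι → S.Pt → ℝ) (ψ : S.Pt → ℝ),
    (∀ k, ABM (S.PJ I J) S.μ (F k)) → ABM (S.Base Γ (I ∪ J)) S.μ ψ → ∀ a b : ι,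
    S.TT r' t ψ (update F a (S.μ[F a | S.BB r Γ I J s i])) =
      S.TT r' t ψ (update F b (S.μ[F b | S.BB r Γ I J s i]))

def GC : Prop := ∀ (J : Finset ℕ), Out I J → ∀ s ∈ J, ∀ s' ∈ J, ∀ (i i' : ι) (a : S.Pt → ℝ),
  ABM (S.PJ I J) S.μ a →
    S.μ[S.μ[a | S.BB r Γ I J s i] | S.BB r Γ I J s' i'] =ᵐ[S.μ]
      S.μ[S.μ[a | S.BB r Γ I J s' i'] | S.BB r Γ I J s i]

def PA1 : Prop := ∀ t : ℕ, t ∉ I → Odd t → ∀ (g : ι → S.Pt → ℝ) (ψ : S.Pt → ℝ) (i0 : ι),
  (∀ k, ABM (S.Full I) S.μ (g k)) → ABM (S.Base Γ (I ∪ ({t} : Finset ℕ))) S.μ ψ →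
  Orth (S.Base Γ I) S.μ (g i0) → S.TT r t ψ g ≠ 0 → S.PA r Γ I {t}

def DBL : Prop := ∀ (J : Finset ℕ), Out I J → S.PA r Γ I J →
  ∃ J' : Finset ℕ, Out I J' ∧ J'.card = 2 * J.card ∧ S.PA r Γ I J'

def GLo : Prop := ∀ (J : Finset ℕ), Out I J → S.r ≤ J.card → S.PA r Γ I J →
  ∃ (Ax : J → MeasurableSpace S.Pt) (Θ : (J → ℤ) → S.Pt → S.Pt),
    Glob (S.Full I) (S.Base Γ (I ∪ J)) Ax S.μ r Θ

end Step

def NDS : Prop := ∀ {X : Type} (F L : MeasurableSpace X) {m0 : MeasurableSpace X} (μ : Measure X)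
  [IsProbabilityMeasure μ], F ≤ m0 → L ≤ m0 →
  (∀ l : X → ℝ, ABM L μ l → AEStronglyMeasurable[L] (μ[l | F]) μ) →
  ∀ A B Z₁ Z₂ : X → ℝ, ABM (F ⊔ L) μ A → ABM (F ⊔ L) μ B → ABM m0 μ Z₁ → ABM m0 μ Z₂ →
    (∀ l l' : X → ℝ, ABM L μ l → ABM L μ l' →
      ∫ x, Z₁ x * (l' x * (μ[fun y => l y * A y | F]) x) ∂μ =
        ∫ x, Z₂ x * (l' x * (μ[fun y => l y * B y | F]) x) ∂μ) →
    ∫ x, Z₁ x * A x ∂μ = ∫ x, Z₂ x * B x ∂μ

def D1S : Prop := ∀ (S : Sys) {ι : Type} [Fintype ι] [DecidableEq ι] (r : ι → ℤ) Γ (I : Set ℕ),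
  Ctx S r Γ I → D1 S r Γ I
def G2S : Prop := ∀ (S : Sys) {ι : Type} [Fintype ι] [DecidableEq ι] (r : ι → ℤ) Γ (I : Set ℕ),
  Ctx S r Γ I → R2P S → D1 S r Γ I → G2 S r Γ I
def G3S : Prop := ∀ (S : Sys) {ι : Type} [Fintype ι] [DecidableEq ι] (r : ι → ℤ) Γ (I : Set ℕ),
  Ctx S r Γ I → D1 S r Γ I → G2 S r Γ I → G3 S r Γ I
def GCS : Prop := ∀ (S : Sys) {ι : Type} [Fintype ι] [DecidableEq ι] (r : ι → ℤ) Γ (I : Set ℕ),
  Ctx S r Γ I → G2 S r Γ I → G3 S r Γ I → GC S r Γ I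
def PA1S : Prop := ∀ (S : Sys) {ι : Type} [Fintype ι] [DecidableEq ι] (r : ι → ℤ) Γ (I : Set ℕ),
  Ctx S r Γ I → G2 S r Γ I → G3 S r Γ I → GC S r Γ I → PA1 S r Γ I
def DBLS : Prop := ∀ (S : Sys) {ι : Type} [Fintype ι] [DecidableEq ι] (r : ι → ℤ) Γ (I : Set ℕ),
  Ctx S r Γ I → G2 S r Γ I → GC S r Γ I → DBL S r Γ I
def GLS : Prop := ∀ (S : Sys) {ι : Type} [Fintype ι] [DecidableEq ι] (r : ι → ℤ) Γ (I : Set ℕ),
  Ctx S r Γ I → R1 S → G2 S r Γ I → G3 S r Γ I → GLo S r Γ I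

/-- no global system exists -/
def NoGlobS : Prop := ∀ {J X : Type} [Fintype J] [DecidableEq J] {l : ℕ}
  (F B : MeasurableSpace X) (Ax : J → MeasurableSpace X) {_m0 : MeasurableSpace X}
  (μ : Measure X) [IsProbabilityMeasure μ] (r : Fin (l + 1) → ℤ) (Θ : (J → ℤ) → X → X),
  2 ≤ Fintype.card J → Injective r → 2 ≤ l → ¬ Glob F B Ax μ r Θ

/-- the vanishing statement for every number of points -/
def AllS : Prop := ∀ S : Sys, Fd S → DS S ∧ ∀ n, S.SS n

/-! ### from the global system to the fibres -/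

def CntS : Prop := ∀ {J ι X : Type} [Fintype J] [DecidableEq J] [Fintype ι]
  [DecidableEq ι] (F B : MeasurableSpace X) (Ax : J → MeasurableSpace X) {_m0 : MeasurableSpace X}
  (μ : Measure X) [IsProbabilityMeasure μ] (r : ι → ℤ) (Θ : (J → ℤ) → X → X),
  Glob F B Ax μ r Θ → ∃ Sn Zn : ℕ → Set X, Cnt F B μ r Θ Sn Zn

def ModS : Prop := ∀ {J ι X : Type} [Fintype J] [DecidableEq J] [Fintype ι]
  [DecidableEq ι] (F B : MeasurableSpace X) (Ax : J → MeasurableSpace X) {_m0 : MeasurableSpace X}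
  (μ : Measure X) [IsProbabilityMeasure μ] (r : ι → ℤ) (Θ : (J → ℤ) → X → X)
  (Sn Zn : ℕ → Set X), Glob F B Ax μ r Θ → Cnt F B μ r Θ Sn Zn →
  Mod μ r (WW Θ Sn) (ZZ B μ (WW Θ Sn) Zn)

def XcS : Prop := ∀ {J ι X : Type} [Fintype J] [DecidableEq J] [Fintype ι]
  [DecidableEq ι] (F B : MeasurableSpace X) (Ax : J → MeasurableSpace X) {_m0 : MeasurableSpace X}
  (μ : Measure X) [IsProbabilityMeasure μ] (r : ι → ℤ) (Θ : (J → ℤ) → X → X)
  (Sn Zn : ℕ → Set X), Glob F B Ax μ r Θ → (∀ n, MeasurableSet[F] (Sn n)) →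
  Xc F μ fun s x => bet s (ZZ B μ (WW Θ Sn) Zn x)

/-- transfer of identities and of conditional expectations to the fibres -/
def FCS : Prop := ∀ {X Ω Zs : Type} (Q : MeasurableSpace Ω) [MeasurableSpace X]
  [m1 : MeasurableSpace Ω] [StandardBorelSpace Ω] [Nonempty Ω] [MeasurableSpace Zs]
  (μ : Measure X) [IsProbabilityMeasure μ] (W : X → Ω) (Z : X → Zs), Measurable W → Measurable Z →
  (∀ h : Zs × Ω → ℝ, Measurable h → (∃ C : ℝ, ∀ p, |h p| ≤ C) →
    (∀ ψ : X → ℝ, ABM (MeasurableSpace.comap Z inferInstance) μ ψ →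
      ∫ x, ψ x * h (Z x, W x) ∂μ = 0) →
    ∀ᵐ z ∂μ.map Z, ∫ ω, h (z, ω) ∂condDistrib W Z μ z = 0) ∧
  (Q ≤ m1 → ∀ q : X → ℝ, ABM (MeasurableSpace.comap Z inferInstance ⊔ Q.comap W) μ q →
    ∃ h : Zs × Ω → ℝ, Measurable h ∧ (∃ C : ℝ, ∀ p, |h p| ≤ C) ∧
      (∀ z, Measurable[Q] fun ω => h (z, ω)) ∧ q =ᵐ[μ] fun x => h (Z x, W x)) ∧
  (Q ≤ m1 → @MeasurableSpace.CountablyGenerated Ω Q → ∀ a h : Zs × Ω → ℝ, Measurable a →
    (∃ C : ℝ, ∀ p, |a p| ≤ C) → Measurable h → (∃ C : ℝ, ∀ p, |h p| ≤ C) →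
    (∀ z, Measurable[Q] fun ω => h (z, ω)) →
    μ[fun x => a (Z x, W x) | MeasurableSpace.comap Z inferInstance ⊔ Q.comap W] =ᵐ[μ]
      (fun x => h (Z x, W x)) →
    ∀ᵐ z ∂μ.map Z, (condDistrib W Z μ z)[fun ω => a (z, ω) | Q] =ᵐ[condDistrib W Z μ z]
      fun ω => h (z, ω))

def Fb1S : Prop := ∀ {J X : Type} [Fintype J] [DecidableEq J] {l : ℕ}
  [MeasurableSpace X] (μ : Measure X) [IsProbabilityMeasure μ] (r : Fin (l + 1) → ℤ)
  (W : X → Cfg J) (Z : X → Zsp J), Mod μ r W Z → ∀ᵐ z ∂μ.map Z,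
    (∀ F, (condDistrib W Z μ z).real (cyl F) = z (Sum.inl F)) ∧
    (∀ (t : J) (M : Finset ℤ), M.card ≤ l →
      iIndep (fun k : M => Fib27.slice YY t (k : ℤ)) (condDistrib W Z μ z)) ∧
    iIndep (fun m : ℤ => Fib27.P YY (fun _ : J => m)) (condDistrib W Z μ z)

def Fb2S : Prop := ∀ {J X : Type} [Fintype J] [DecidableEq J] {l : ℕ}
  [MeasurableSpace X] (μ : Measure X) [IsProbabilityMeasure μ] (r : Fin (l + 1) → ℤ)
  (W : X → Cfg J) (Z : X → Zsp J), Mod μ r W Z →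
  (∀ᵐ z ∂μ.map Z, ∀ (c : J → ℤ) (s : J) (i : Fin (l + 1)) (g : YY → ℝ), Measurable g →
    (∀ e, |g e| ≤ 1) → AEStronglyMeasurable[Fib27.P YY c]
      ((condDistrib W Z μ z)[fun ω => g (ω c) | Fib27.O YY r c s i]) (condDistrib W Z μ z)) ∧
  ∃ Pos : Set (Zsp J), MeasurableSet Pos ∧ μ.map Z Pos ≠ 0 ∧
    ∀ᵐ z ∂μ.map Z, z ∈ Pos → Fib27.F4 r (condDistrib W Z μ z)

def Fb3S : Prop := ∀ {J X : Type} [Fintype J] [DecidableEq J] {l : ℕ}
  [MeasurableSpace X] (μ : Measure X) [IsProbabilityMeasure μ] (r : Fin (l + 1) → ℤ)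
  (W : X → Cfg J) (Z : X → Zsp J), Mod μ r W Z →
  ∀ᵐ z ∂μ.map Z, ∀ (c : J → ℤ) (t s : J) (i : Fin (l + 1)) (g : Fin (l + 1) → YY → ℝ),
    (∀ k, Measurable (g k)) → (∀ k e, |g k e| ≤ 1) → ∀ j j' : Fin (l + 1),
    ∫ ω, ((condDistrib W Z μ z)[fun ω => g j (ω (c + Pi.single t (r j))) |
          Fib27.O YY r (c + Pi.single t (r j)) s i]) ω *
        ∏ k ∈ Finset.univ.erase j, g k (ω (c + Pi.single t (r k))) ∂condDistrib W Z μ z =
    ∫ ω, ((condDistrib W Z μ z)[fun ω => g j' (ω (c + Pi.single t (r j'))) |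
          Fib27.O YY r (c + Pi.single t (r j')) s i]) ω *
        ∏ k ∈ Finset.univ.erase j', g k (ω (c + Pi.single t (r k))) ∂condDistrib W Z μ z

/-- one measure on the base under which the axis data are independent and identically
distributed -/
def XchS : Prop := ∀ {J X Zs Bs : Type} [Fintype J] (F : MeasurableSpace X)
  {m0 : MeasurableSpace X} (μ : Measure X) [IsProbabilityMeasure μ] [MeasurableSpace Zs]
  [StandardBorelSpace Zs] [Nonempty Zs] [MeasurableSpace Bs] [StandardBorelSpace Bs]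
  (Z : X → Zs) (β : J → Zs → Bs) (Good Pos : Set Zs), F ≤ m0 → Measurable Z →
  (∀ s, Measurable (β s)) → Xc F μ (fun s x => β s (Z x)) → MeasurableSet Good →
  MeasurableSet Pos → μ.map Z Goodᶜ = 0 → μ.map Z Pos ≠ 0 → ∀ s0 : J,
  ∃ ζ : Measure Zs, IsProbabilityMeasure ζ ∧ ζ Goodᶜ = 0 ∧ ζ Pos ≠ 0 ∧
    ∀ s t, s ≠ t → ζ.map (fun z => (β s z, β t z)) = (ζ.map (β s0)).prod (ζ.map (β s0))

def OutS : Prop := ∀ {Zs Bs K : Type} [TopologicalSpace Zs] [PolishSpace Zs] [MeasurableSpace Zs]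
  [BorelSpace Zs] [TopologicalSpace Bs] [PolishSpace Bs] [MeasurableSpace Bs] [BorelSpace Bs]
  [Countable K] (ζ : Measure Zs) [IsProbabilityMeasure ζ] (ν : Measure Bs)
  [IsProbabilityMeasure ν] (b b' : Zs → Bs) (Good : Set Zs) (D : K → Set Bs),
  Continuous b → Continuous b' → ζ.map (fun z => (b z, b' z)) = ν.prod ν → MeasurableSet Good →
  ζ Goodᶜ = 0 → (∀ k, ∀ z ∈ Good, ¬ (b z ∈ D k ∧ b' z ∈ D k)) → ∀ᵐ z ∂ζ, ∀ k, b z ∉ D k

/-! ### the structured part -/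

def ZO (S : Sys) : Prop := ∀ (k : ℕ) (g : S.Pt → ℝ) (D : Finset ℕ), ABM (S.Full {0}) S.μ g →
  Sys.Dn D → D.card = k + 1 → ∃ b : S.Pt → ℝ, S.Str k b ∧
    S.μ[fun x => g (S.Th (eS D) x) | S.Bd D] =ᵐ[S.μ] fun x => b (S.Th (eS D) x)

def BO (S : Sys) : Prop := ∀ g : S.Pt → ℝ, ABM (S.Full {0}) S.μ g →
  (∀ D : Finset ℕ, Sys.Dn D → D.Nonempty → Orth (S.Bd D) S.μ fun x => g (S.Th (eS D) x)) →
  Orth (S.Base Gam0 I0) S.μ g

def ST (S : Sys) : Prop := ∀ f : S.Pt → ℝ, ABM (S.Full {0}) S.μ f → (∀ᵐ x ∂S.μ, |f x| ≤ 1) →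
  ∃ a : S.Pt → ℝ, ABM (S.Full {0}) S.μ a ∧ (∀ᵐ x ∂S.μ, |a x| ≤ 1) ∧
    Orth (S.Base Gam0 I0) S.μ (fun x => f x - a x) ∧ ∀ ε : ℝ, 0 < ε → ∀ᶠ k in atTop,
      ∃ b : S.Pt → ℝ, S.Str k b ∧ (∀ᵐ x ∂S.μ, |b x| ≤ 1) ∧ ∫ x, |a x - b x| ∂S.μ < ε

def ZS (S : Sys) : Prop := ∀ (k : ℕ) (a : S.Pt → ℝ) (D : Finset ℕ), S.Str k a → Sys.Dn D →
  AEStronglyMeasurable[S.Low k D] (fun x => a (S.Th (eS D) x)) S.μ

def DG (S : Sys) : Prop := ∀ (k : ℕ) (ι : Type) [Fintype ι] (r : ι → ℤ) (a : ι → S.Pt → ℝ)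
  (t z : ℕ), (∀ i, S.Str k (a i)) → Odd t → Even z → z ≠ 0 →
  ∫ x, ∏ i, a i (S.Th (r i • ee t) x) ∂S.μ = ∫ x, ∏ i, a i (S.Th (r i • ee z) x) ∂S.μ

def ZOS : Prop := ∀ S : Sys, Fd S → ZO S
def BOS : Prop := ∀ S : Sys, Fd S → BO S
def STS : Prop := ∀ S : Sys, Fd S → ZO S → BO S → ST S
def ZSS : Prop := ∀ S : Sys, Fd S → ZS S
def DGS : Prop := ∀ S : Sys, Fd S → ZS S → DG S

/-- the finite theorem -/
def FinS : Prop := ∀ (Φ : Fam) (r0 : ℕ), Φ.Hyp atTop r0 → ∀ (ι : Type) [Fintype ι] (r : ι → ℤ),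
  Injective r → ∀ ε : ℝ, 0 < ε → ∀ᶠ N in atTop, ∀ f : ι → Φ.G N → ℝ, (∀ i v, |f i v| ≤ 1) →
    |∫ x, ∫ t, ∏ i, f i (x + r i • t) ∂Φ.ν N ∂Φ.unif N -
      ∫ x, ∫ t, ∏ i, f i (x + r i • t) ∂Φ.unif N ∂Φ.unif N| ≤ ε

/-! ### cyclic groups, probability, ergodic averages -/

def FinWS : Prop := ∀ (p : ℕ → ℕ) [∀ N, NeZero (p N)], (∀ N, (p N).Prime) →
  Tendsto p atTop atTop → ∀ wt : ∀ N, ZMod (p N) → ℝ, (∀ N v, 0 ≤ wt N v) →
  (∀ N, ∑ v, wt N v = 1) →
  (∃ c : ℝ, 0 < c ∧ ∀ᶠ N in atTop, ∀ k : ZMod (p N), k ≠ 0 →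
    ‖∑ v, (wt N v : ℂ) * ZMod.stdAddChar (k * v)‖ ≤ (p N : ℝ) ^ (-c)) →
  (∀ k : ℕ, ∃ (d : ℕ) (δ : ∀ N, ZMod (p N) → Fin d → ZMod (p N)), (∀ N n, ∑ i, δ N n i = n) ∧
    ∀ ε : ℝ, 0 < ε → ∀ᶠ N in atTop, ∀ u : Finset (Fin d) → (Fin d → ZMod (p N)) → ℝ,
      (∀ J v, |u J v| ≤ 1) → (∀ J, DependsOn (u J) (J : Set (Fin d))) →
      |∑ n, (wt N n - (p N : ℝ)⁻¹) *
        ∏ J ∈ Finset.univ.filter (fun J : Finset (Fin d) => J.card ≤ k), u J (δ N n)| ≤ ε) →
  ∀ (ι : Type) [Fintype ι] (r : ι → ℤ), ∀ ε : ℝ, 0 < ε → ∀ᶠ N in atTop,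
    ∀ f : ι → ZMod (p N) → ℝ, (∀ i v, |f i v| ≤ 1) →
      |∑ x, ∑ t, (wt N t - (p N : ℝ)⁻¹) * ∏ i, f i (x + r i • t)| ≤ ε * p N

/-- block version of the tail bound with a union bound -/
def TailS : Prop := ∀ (σ : ℕ → ℝ), (∀ n, 0 ≤ σ n ∧ σ n ≤ 1) → Antitone σ → ∀ a : ℝ, a < 1 →
  Tendsto (fun n : ℕ => (n : ℝ) ^ a * σ n) atTop atTop →
  ∀ (Ω : Type) [MeasurableSpace Ω] (P : Measure Ω) [IsProbabilityMeasure P] (E : ℕ → Set Ω),
  (∀ n, MeasurableSet (E n)) → iIndepSet E P → (∀ n, P (E n) = ENNReal.ofReal (σ n)) →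
  ∀ (T : ℕ → Finset (ℕ → ℝ)) (τ : ℕ → ℝ) (b C : ℝ), 0 < b →
    (∀ᶠ M in atTop, 0 < τ M ∧ τ M ≤ 1 ∧ (∀ c ∈ T M, ∀ n, |c n| ≤ 1) ∧
      ((T M).card : ℝ) ≤ Real.exp (C * (M : ℝ) ^ (1 - a - b) * τ M ^ 2) ∧
      (M : ℝ) ^ b ≤ (M : ℝ) ^ (1 - a) * τ M ^ 2) →
    ∀ᵐ ω ∂P, ∀ᶠ M in atTop, ∀ c ∈ T M,
      |∑ n ∈ Finset.Ico (M / 2) M, ((E n).indicator (fun _ => (1 : ℝ)) ω - σ n) * c n| ≤
        τ M * (σ (M / 2) * M)

def DiscS : Prop := ∀ (σ : ℕ → ℝ), (∀ n, 0 ≤ σ n ∧ σ n ≤ 1) → Antitone σ → ∀ a : ℝ, a < 1 →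
  Tendsto (fun n : ℕ => (n : ℝ) ^ a * σ n) atTop atTop →
  ∀ (Ω : Type) [MeasurableSpace Ω] (P : Measure Ω) [IsProbabilityMeasure P] (E : ℕ → Set Ω),
  (∀ n, MeasurableSet (E n)) → iIndepSet E P → (∀ n, P (E n) = ENNReal.ofReal (σ n)) →
  ∀ (p : ℕ → ℕ) [∀ M, NeZero (p M)] (C : ℕ), (∀ M, 1 ≤ M → M ≤ p M ∧ p M ≤ C * M) →
    ∀ᵐ ω ∂P, Disc σ (fun n => (E n).indicator (fun _ => (1 : ℝ)) ω - σ n) p

def BlkS : Prop := ∀ (σ y : ℕ → ℝ), (∀ n, 0 < σ n) → Antitone σ → (∀ n, -σ n ≤ y n) →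
  ∀ (ι : Type) [Fintype ι] (r : ι → ℤ) (K C : ℕ), (∀ i, |r i| ≤ K) →
  ∀ (p : ℕ → ℕ) [∀ M, NeZero (p M)], (∀ M, (p M).Prime) →
    (∀ M, 1 ≤ M → (2 * K + 2) * M ≤ p M ∧ p M ≤ C * M) → Disc σ y p → Blk σ y r

def MainS : Prop :=
  ∀ (σ : ℕ → ℝ), (∀ n, 0 ≤ σ n ∧ σ n ≤ 1) → Antitone σ →
  (∃ a : ℝ, a < 1 ∧ Tendsto (fun n : ℕ => (n : ℝ) ^ a * σ n) atTop atTop) →
  ∀ (Ω : Type) [MeasurableSpace Ω] (P : Measure Ω) [IsProbabilityMeasure P]
    (E : ℕ → Set Ω), (∀ n, MeasurableSet (E n)) → iIndepSet E P →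
    (∀ n, P (E n) = ENNReal.ofReal (σ n)) →
  ∀ᵐ ω ∂P, ∀ (ℓ : ℕ) (k : Fin ℓ → ℤ)
    (X : Type) [MeasurableSpace X] (μ : Measure X) [IsProbabilityMeasure μ]
    (T : X ≃ᵐ X) (f : Fin ℓ → X → ℝ),
    MeasurePreserving (⇑T) μ μ → (∀ i, MemLp (f i) ⊤ μ) →
    ∃ g : X → ℝ, MemLp g 2 μ ∧
      Tendsto (fun N : ℕ => eLpNorm (fun x => (N : ℝ)⁻¹ * (∑ n ∈ Finset.range N, ∏ i,
          f i (((T.toEquiv : Equiv.Perm X) ^ (k i * (Nat.nth (fun m => ω ∈ E m) n : ℕ))) x))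
          - g x) 2 μ) atTop (𝓝 0) ∧
      Tendsto (fun N : ℕ => eLpNorm (fun x => (N : ℝ)⁻¹ * (∑ n ∈ Finset.Icc 1 N, ∏ i,
          f i (((T.toEquiv : Equiv.Perm X) ^ (k i * (n : ℕ))) x)) - g x) 2 μ) atTop (𝓝 0)

end Pool.Agent.MP_154433_an.SG

end

end MrgPart0

-- ======== part 1: formerly Pool.Agent.MP_154433_an.sg.FdA
section MrgPart1

/-! Row FdA: lifts of measure preserving maps, density of generators, slot by slot extension. -/

set_option autoImplicit false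

open MeasureTheory ProbabilityTheory Filter Topology Function

noncomputable section

namespace Pool.Agent.MP_154433_an.SG

open Fam

namespace FdAx

variable {Φ : Fam}

lemma sig_le (T : Set Φ.Alg) : sig T ≤ (inferInstance : MeasurableSpace Φ.Pt) :=
  iSup₂_le fun F _ => le_iSup₂_of_le (f := fun (F : Φ.Alg) (_ : F ∈ (Set.univ : Set Φ.Alg)) =>
    MeasurableSpace.comap (hat F) inferInstance) F (Set.mem_univ F) le_rfl

lemma meas_hat (F : Φ.Alg) : Measurable (hat F) :=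
  measurable_iff_comap_le.2 (le_iSup₂_of_le (f := fun (F : Φ.Alg)
    (_ : F ∈ (Set.univ : Set Φ.Alg)) => MeasurableSpace.comap (hat F) inferInstance) F
    (Set.mem_univ F) le_rfl)

lemma bdd_hat (F : Φ.Alg) : ∃ C : ℝ, ∀ x, |hat F x| ≤ C := by
  obtain ⟨C, hC⟩ := F.2.2
  exact ⟨C, fun x => x.bdd F C hC⟩

/-- the evaluation as a linear map -/
def hatL : Φ.Alg →ₗ[ℝ] (Φ.Pt → ℝ) where
  toFun := hat
  map_add' F F' := funext fun x => map_add x.ev F F'
  map_smul' a F := funext fun x => map_smul x.ev a F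

lemma sup_img (T : Set Φ.Alg) :
    (⨆ φ ∈ hat '' T, MeasurableSpace.comap φ inferInstance) = sig T := iSup_image

lemma img_one (T : Submonoid Φ.Alg) : (1 : Φ.Pt → ℝ) ∈ hat '' (T : Set Φ.Alg) :=
  ⟨1, T.one_mem, funext fun x => map_one x.ev⟩

lemma img_mul (T : Submonoid Φ.Alg) : ∀ φ ∈ hat '' (T : Set Φ.Alg),
    ∀ φ' ∈ hat '' (T : Set Φ.Alg), φ * φ' ∈ hat '' (T : Set Φ.Alg) := by
  rintro _ ⟨F, hF, rfl⟩ _ ⟨F', hF', rfl⟩
  exact ⟨F * F', T.mul_mem hF hF', funext fun x => map_mul x.ev F F'⟩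

lemma img_bdd (T : Submonoid Φ.Alg) : ∀ φ ∈ hat '' (T : Set Φ.Alg),
    Measurable φ ∧ ∃ C : ℝ, ∀ x, |φ x| ≤ C := by
  rintro _ ⟨F, -, rfl⟩
  exact ⟨meas_hat F, bdd_hat F⟩

lemma meas_alg (F : Φ.Alg) (N : ℕ) : Measurable (F.1 N) := by
  obtain ⟨T, hT⟩ := F.2.1
  obtain ⟨g, hg⟩ := dependsOn_iff_exists_comp.1 (hT N)
  rw [hg]
  exact (measurable_of_finite g).comp (Set.measurable_restrict _)

lemma meas_lift (Θ : Φ.FMap) : Measurable Θ.lift := by
  refine measurable_iff_comap_le.2 ?_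
  change MeasurableSpace.comap Θ.lift (sig Set.univ) ≤ _
  simp only [sig, MeasurableSpace.comap_iSup, MeasurableSpace.comap_comp]
  exact iSup₂_le fun F _ => measurable_iff_comap_le.1 (meas_hat (Θ.pull F))

variable {X : Type} [m0 : MeasurableSpace X] {μ : Measure X}

lemma abm_mul {g g' : X → ℝ} (h : ABM m0 μ g) (h' : ABM m0 μ g') :
    ABM m0 μ fun x => g x * g' x := by
  obtain ⟨hm, C, hC⟩ := h
  obtain ⟨hm', C', hC'⟩ := h'
  refine ⟨hm.mul hm', C * C', ?_⟩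
  filter_upwards [hC, hC'] with x h h'
  rw [norm_mul]
  exact mul_le_mul h h' (norm_nonneg _) ((norm_nonneg _).trans h)

lemma abm_prod {ι : Type} (s : Finset ι) {g : ι → X → ℝ} (h : ∀ i ∈ s, ABM m0 μ (g i)) :
    ABM m0 μ fun x => ∏ i ∈ s, g i x := by
  classical
  induction s using Finset.induction_on with
  | empty => exact ⟨aestronglyMeasurable_const, 1, Eventually.of_forall fun x => by simp⟩
  | insert a s ha ih =>
    simp only [Finset.prod_insert ha]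
    exact abm_mul (h a (by simp)) (ih fun i hi => h i (by simp [hi]))

lemma abm_comp {g : X → ℝ} {Θ : X → X} (hΘ : MeasurePreserving Θ μ μ) (h : ABM m0 μ g) :
    ABM m0 μ fun x => g (Θ x) := by
  obtain ⟨hm, C, hC⟩ := h
  exact ⟨hm.comp_measurePreserving hΘ, C, hΘ.quasiMeasurePreserving.ae hC⟩

lemma abm_int [IsFiniteMeasure μ] {g : X → ℝ} (h : ABM m0 μ g) : Integrable g μ := by
  obtain ⟨hm, C, hC⟩ := h
  exact Integrable.of_bound hm C hC

lemma int_comp {g : X → ℝ} {Θ : X → X} (hΘ : MeasurePreserving Θ μ μ)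
    (h : AEStronglyMeasurable g μ) : ∫ x, g (Θ x) ∂μ = ∫ x, g x ∂μ := by
  rw [← integral_map hΘ.measurable.aemeasurable (by rwa [hΘ.map_eq]), hΘ.map_eq]

lemma diff_le [IsFiniteMeasure μ] {H g g' : X → ℝ} {Θ : X → X} (hΘ : MeasurePreserving Θ μ μ)
    (hH : AEStronglyMeasurable H μ) {C : ℝ} (hC : ∀ᵐ x ∂μ, ‖H x‖ ≤ C) (h : ABM m0 μ g)
    (h' : ABM m0 μ g') :
    |∫ x, H x * g (Θ x) ∂μ - ∫ x, H x * g' (Θ x) ∂μ| ≤ C * ∫ x, |g x - g' x| ∂μ := by
  have hH' : ABM m0 μ H := ⟨hH, C, hC⟩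
  have hd : Integrable (fun x => |g x - g' x|) μ := ((abm_int h).sub (abm_int h')).abs
  rw [← integral_sub (abm_int (abm_mul hH' (abm_comp hΘ h)))
    (abm_int (abm_mul hH' (abm_comp hΘ h'))), ← int_comp hΘ hd.1, ← integral_const_mul]
  refine (abs_integral_le_integral_abs).trans (integral_mono_ae ?_ ?_ ?_)
  · exact ((abm_int (abm_mul hH' (abm_comp hΘ h))).sub
      (abm_int (abm_mul hH' (abm_comp hΘ h')))).abs
  · exact (((abm_int (abm_comp hΘ h)).sub (abm_int (abm_comp hΘ h'))).abs).const_mul C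
  · filter_upwards [hC] with x hx
    rw [← mul_sub, abs_mul]
    exact mul_le_mul_of_nonneg_right hx (abs_nonneg _)

end FdAx

open FdAx

namespace FdAx

lemma abm_hat (S : Sys) (F : S.Alg) : ABM inferInstance S.μ (hat F) := by
  obtain ⟨C, hC⟩ := bdd_hat F
  exact ⟨(meas_hat F).aestronglyMeasurable, C, Eventually.of_forall hC⟩

lemma abm_top (S : Sys) {T : Set S.Alg} {g : S.Pt → ℝ} (h : ABM (sig T) S.μ g) :
    ABM inferInstance S.μ g := ⟨h.1.mono (sig_le T), h.2⟩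

lemma densB (h : DensS) (S : Sys) (T : Submonoid S.Alg) (ψ : S.Pt → ℝ)
    (hψ : ABM (sig (T : Set S.Alg)) S.μ ψ) (ε : ℝ) (hε : 0 < ε) :
    ∃ F ∈ Submodule.span ℝ (T : Set S.Alg), ∫ x, |ψ x - hat F x| ∂S.μ < ε := by
  obtain ⟨φ, hφ, hlt⟩ := (h _ (img_one T) (img_mul T) (img_bdd T)).2.1 S.μ ψ
    (by rw [sup_img]; exact hψ) ε hε
  have : φ ∈ (Submodule.span ℝ (T : Set S.Alg)).map hatL := by
    rw [Submodule.map_span]; exact hφ
  obtain ⟨F, hF, rfl⟩ := this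
  exact ⟨F, hF, hlt⟩

lemma slot (h : DensS) (S : Sys) (T : Submonoid S.Alg) {Θ Θ' : S.Pt → S.Pt} {H H' : S.Pt → ℝ}
    (hΘ : MeasurePreserving Θ S.μ S.μ) (hΘ' : MeasurePreserving Θ' S.μ S.μ)
    (hH : ABM inferInstance S.μ H) (hH' : ABM inferInstance S.μ H')
    (hT : ∀ F ∈ T, ∫ x, H x * hat F (Θ x) ∂S.μ = ∫ x, H' x * hat F (Θ' x) ∂S.μ)
    {g : S.Pt → ℝ} (hg : ABM (sig (T : Set S.Alg)) S.μ g) :
    ∫ x, H x * g (Θ x) ∂S.μ = ∫ x, H' x * g (Θ' x) ∂S.μ := by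
  have hsp : ∀ F ∈ Submodule.span ℝ (T : Set S.Alg),
      ∫ x, H x * hat F (Θ x) ∂S.μ = ∫ x, H' x * hat F (Θ' x) ∂S.μ := by
    intro F hF
    induction hF using Submodule.span_induction with
    | mem F hF => exact hT F hF
    | zero => simp [hat]
    | add F F' _ _ h1 h2 =>
      have e : ∀ x, hat (F + F') x = hat F x + hat F' x := fun x => map_add x.ev F F'
      simp only [e, mul_add]
      rw [integral_add (abm_int (abm_mul hH (abm_comp hΘ (abm_hat S F))))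
          (abm_int (abm_mul hH (abm_comp hΘ (abm_hat S F')))),
        integral_add (abm_int (abm_mul hH' (abm_comp hΘ' (abm_hat S F))))
          (abm_int (abm_mul hH' (abm_comp hΘ' (abm_hat S F'))))]
      exact congrArg₂ _ h1 h2
    | smul a F _ h1 =>
      simp only [hat, map_smul, smul_eq_mul, mul_left_comm _ a] at h1 ⊢
      rw [integral_const_mul, integral_const_mul, h1]
  obtain ⟨hm, C, hC⟩ := hH
  obtain ⟨hm', C', hC'⟩ := hH'
  refine sub_eq_zero.1 (abs_nonpos_iff.1 (le_of_forall_pos_le_add fun ε hε => ?_))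
  obtain ⟨F, hF, hlt⟩ := densB h S T g hg (ε / (|C| + |C'| + 1)) (by positivity)
  have h1 := diff_le hΘ hm hC (abm_top S hg) (abm_hat S F)
  have h2 := diff_le hΘ' hm' hC' (abm_top S hg) (abm_hat S F)
  have h0 : 0 ≤ ∫ x, |g x - hat F x| ∂S.μ := integral_nonneg fun x => abs_nonneg _
  have h3 := hsp F hF
  have h4 : (|C| + |C'| + 1) * ∫ x, |g x - hat F x| ∂S.μ ≤ ε := by
    rw [lt_div_iff₀ (by positivity)] at hlt
    linarith
  have h5 := mul_le_mul_of_nonneg_right (le_abs_self C) h0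
  have h6 := mul_le_mul_of_nonneg_right (le_abs_self C') h0
  rw [abs_le] at h1 h2 ⊢
  constructor <;> nlinarith [h1.1, h1.2, h2.1, h2.2]

lemma mext (h : DensS) (S : Sys) (ι : Type) (T : ι → Submonoid S.Alg) (Θ Θ' : ι → S.Pt → S.Pt)
    (g : ι → S.Pt → ℝ) (s : Finset ι) : ∀ (H H' : S.Pt → ℝ),
    (∀ i ∈ s, MeasurePreserving (Θ i) S.μ S.μ) →
    (∀ i ∈ s, MeasurePreserving (Θ' i) S.μ S.μ) → ABM inferInstance S.μ H →
    ABM inferInstance S.μ H' →
    (∀ F : ι → S.Alg, (∀ i ∈ s, F i ∈ T i) →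
      ∫ x, H x * ∏ i ∈ s, hat (F i) (Θ i x) ∂S.μ =
        ∫ x, H' x * ∏ i ∈ s, hat (F i) (Θ' i x) ∂S.μ) →
    (∀ i ∈ s, ABM (sig (T i : Set S.Alg)) S.μ (g i)) →
      ∫ x, H x * ∏ i ∈ s, g i (Θ i x) ∂S.μ = ∫ x, H' x * ∏ i ∈ s, g i (Θ' i x) ∂S.μ := by
  classical
  induction s using Finset.induction_on with
  | empty => intro H H' _ _ _ _ hF _; simpa using hF (fun _ => 1) (by simp)
  | insert a s ha ih =>
    intro H H' hΘ hΘ' hH hH' hF hg
    have ha1 := hΘ a (by simp)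
    have ha2 := hΘ' a (by simp)
    have hs1 : ∀ i ∈ s, MeasurePreserving (Θ i) S.μ S.μ := fun i hi => hΘ i (by simp [hi])
    have hs2 : ∀ i ∈ s, MeasurePreserving (Θ' i) S.μ S.μ := fun i hi => hΘ' i (by simp [hi])
    have hga := hg a (by simp)
    simp only [Finset.prod_insert ha, ← mul_assoc]
    refine ih (fun x => H x * g a (Θ a x)) (fun x => H' x * g a (Θ' a x)) hs1 hs2
      (abm_mul hH (abm_comp ha1 (abm_top S hga))) (abm_mul hH' (abm_comp ha2 (abm_top S hga)))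
      (fun F hFs => ?_) fun i hi => hg i (by simp [hi])
    simp only [mul_right_comm _ (g a _)]
    refine slot h S (T a) ha1 ha2
      (abm_mul hH (abm_prod s fun i hi => abm_comp (hs1 i hi) (abm_hat S (F i))))
      (abm_mul hH' (abm_prod s fun i hi => abm_comp (hs2 i hi) (abm_hat S (F i))))
      (fun F₀ hF₀ => ?_) hga
    have key := hF (update F a F₀) fun i hi => by
      rcases Finset.mem_insert.1 hi with rfl | hi
      · simpa using hF₀
      · rw [update_of_ne (ne_of_mem_of_not_mem hi ha)]; exact hFs i hi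
    have hp : ∀ (Ξ : ι → S.Pt → S.Pt) (x : S.Pt), ∏ i ∈ insert a s, hat (update F a F₀ i) (Ξ i x) =
        (∏ i ∈ s, hat (F i) (Ξ i x)) * hat F₀ (Ξ a x) := fun Ξ x => by
      rw [Finset.prod_insert ha, update_self, mul_comm]
      congr 1
      exact Finset.prod_congr rfl fun i hi => by rw [update_of_ne (ne_of_mem_of_not_mem hi ha)]
    simpa only [hp, ← mul_assoc] using key

lemma lift (h : DensS) (S : Sys) (Θ : S.FMap) (hΘ : S.MP Θ) :
    MeasurePreserving Θ.lift S.μ S.μ := by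
  refine ⟨meas_lift Θ, Measure.ext fun A hA => ?_⟩
  have := Measure.isProbabilityMeasure_map (μ := S.μ) (meas_lift Θ).aemeasurable
  refine (h _ (img_one ⊤) (img_mul ⊤) (img_bdd ⊤)).2.2 (S.μ.map Θ.lift) S.μ ?_ A
    (by rw [sup_img]; exact hA)
  rintro _ ⟨F, -, rfl⟩
  rw [integral_map (meas_lift Θ).aemeasurable (meas_hat F).aestronglyMeasurable]
  refine tendsto_nhds_unique (S.lim (Θ.pull F)) ((S.lim F).congr' ?_)
  filter_upwards [hΘ] with N hN
  exact (int_comp hN (meas_alg F N).aestronglyMeasurable).symm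

end FdAx

theorem fdA (h : DensS) : FdAS := fun S =>
  { lift := FdAx.lift h S
    densA := fun T g hg hT => by
      have := (h _ (img_one T) (img_mul T) (img_bdd T)).1 S.μ g hg
        (by rintro _ ⟨F, hF, rfl⟩; exact hT F hF)
      rwa [sup_img] at this
    densB := FdAx.densB h S
    mext := fun ι s T Θ Θ' H H' h1 h2 h3 h4 h5 g hg =>
      FdAx.mext h S ι T Θ Θ' g s H H' h1 h2 h3 h4 h5 hg }

end Pool.Agent.MP_154433_an.SG

end

end MrgPart1

-- ======== part 2: formerly Pool.Agent.MP_154433_an.sg.FdC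
section MrgPart2

/-! The limit space: invariance, sampling, averaging and mixing. -/

set_option autoImplicit false

open MeasureTheory ProbabilityTheory Filter Topology Function

noncomputable section

namespace Pool.Agent.MP_154433_an.SG

open Fam

namespace FdCp

variable {Φ : Fam}

theorem meas (F : Φ.Alg) (N : ℕ) : Measurable (F.1 N) := by
  obtain ⟨⟨T, hT⟩, -⟩ := F.2
  obtain ⟨g, hg⟩ := dependsOn_iff_exists_comp.1 (hT N)
  rw [hg]
  exact (Measurable.of_discrete (f := g)).comp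
    (measurable_pi_lambda _ fun i => measurable_pi_apply _)

theorem intg {X : Type} [MeasurableSpace X] {μ : Measure X} [IsFiniteMeasure μ] {f : X → ℝ}
    (hf : Measurable f) {C : ℝ} (h : ∀ x, |f x| ≤ C) : Integrable f μ :=
  Integrable.of_bound hf.aestronglyMeasurable C (Eventually.of_forall h)

theorem mp_int {X Y : Type} [MeasurableSpace X] [MeasurableSpace Y] {μ : Measure X}
    {ν : Measure Y} {φ : X → Y} (h : MeasurePreserving φ μ ν) {f : Y → ℝ} (hf : Measurable f) :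
    ∫ x, f (φ x) ∂μ = ∫ y, f y ∂ν := by
  rw [← h.map_eq, integral_map h.measurable.aemeasurable hf.aestronglyMeasurable]

theorem hat_meas {T : Set Φ.Alg} {F : Φ.Alg} (h : F ∈ T) : Measurable[sig T] (hat F) :=
  measurable_iff_comap_le.2 (le_iSup₂_of_le F h le_rfl)

theorem sig_le (T : Set Φ.Alg) : sig T ≤ (inferInstance : MeasurableSpace Φ.Pt) :=
  iSup₂_le fun F _ => le_iSup₂_of_le F (Set.mem_univ F) le_rfl

theorem hat_int (F : Φ.Alg) (μ : Measure Φ.Pt) [IsFiniteMeasure μ] : Integrable (hat F) μ := by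
  obtain ⟨C, hC⟩ := F.2.2
  exact intg (hat_meas (Set.mem_univ F)) fun x => x.bdd F C hC

theorem hat_mul (F H : Φ.Alg) (x : Φ.Pt) : hat (F * H) x = hat F x * hat H x := map_mul x.ev F H

theorem hat_sub (F H : Φ.Alg) (x : Φ.Pt) : hat (F - H) x = hat F x - hat H x := map_sub x.ev F H

theorem unif_mp {N : ℕ} {e : Φ.G N → Φ.G N} (he : Bijective e) :
    MeasurePreserving e (Φ.unif N) (Φ.unif N) := by
  refine ⟨Measurable.of_discrete, Measure.ext fun s hs => ?_⟩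
  rw [Measure.map_apply Measurable.of_discrete hs, unif, uniformOn_univ, uniformOn_univ,
    Measure.count_apply MeasurableSet.of_discrete, Measure.count_apply hs,
    Set.encard_preimage_of_bijective he]

theorem law_even {N j : ℕ} (h : Even j) : Φ.law N j = Φ.unif N :=
  if_neg (Nat.not_odd_iff_even.2 h)

theorem law_odd {N j : ℕ} (h : Odd j) : Φ.law N j = Φ.ν N := if_pos h

theorem avg_single (j : ℕ) (F : Φ.Alg) (N : ℕ) (ω : Φ.Om N) :
    (avg {j} F).1 N ω = ∫ v, F.1 N (update ω j v) ∂Φ.law N j := by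
  rw [← mp_int (measurePreserving_eval_infinitePi (Φ.law N) j) Measurable.of_discrete]
  refine integral_congr_ae (Eventually.of_forall fun ω' => congrArg (F.1 N) ?_)
  funext k
  by_cases hk : k = j
  · subst hk
    simp [Set.piecewise, eval]
  · simp [Set.piecewise, hk]

variable {S : Sys}

open Classical in
theorem res_int (hB : FdB S) (A : Set ℕ) (F : S.Alg) (N : ℕ) :
    Integrable (fun p : S.Om N × S.Om N => F.1 N (A.piecewise p.1 p.2))
        ((S.PP N).prod (S.PP N)) ∧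
      ∫ p, F.1 N (A.piecewise p.1 p.2) ∂(S.PP N).prod (S.PP N) = ∫ ω, F.1 N ω ∂S.PP N := by
  obtain ⟨C, hC⟩ := F.2.2
  exact ⟨intg ((meas F N).comp (hB.res A N).measurable) fun p => hC N _,
    mp_int (hB.res A N) (meas F N)⟩

theorem int_avg (hB : FdB S) (A : Set ℕ) (F : S.Alg) (N : ℕ) :
    ∫ ω, (avg A F).1 N ω ∂S.PP N = ∫ ω, F.1 N ω ∂S.PP N := by
  obtain ⟨h1, h2⟩ := res_int hB A F N
  rw [← h2, integral_prod_symm _ h1]
  rfl

theorem smp (hB : FdB S) (A : Set ℕ) (F : S.Alg) :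
    ∃ σ, ∫ x, hat F x ∂S.μ ≤ ∫ x, hat ((sec A σ).pull F) x ∂S.μ := by
  have h (N : ℕ) := exists_integral_le (res_int hB A F N).1.integral_prod_left
  choose σ hσ using h
  refine ⟨σ, le_of_tendsto_of_tendsto' (S.lim F) (S.lim _) fun N => ?_⟩
  obtain ⟨h1, h2⟩ := res_int hB A F N
  rw [← h2, integral_prod _ h1]
  exact hσ N

theorem lim_avg (hB : FdB S) (A : Set ℕ) (F : S.Alg) :
    ∫ x, hat (avg A F) x ∂S.μ = ∫ x, hat F x ∂S.μ :=
  tendsto_nhds_unique (S.lim _) (by simpa only [int_avg hB] using S.lim F)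

theorem avg_dep (I : Set ℕ) (F : Φ.Alg) : Dep (avg Iᶜ F) I := fun N x y h =>
  integral_congr_ae (Eventually.of_forall fun ω' => congrArg (F.1 N) (funext fun k => by
    by_cases hk : k ∈ I
    · simpa [Set.piecewise, hk] using h k hk
    · simp [Set.piecewise, hk]))

theorem avg_mul {I : Set ℕ} (F : Φ.Alg) {H : Φ.Alg} (hH : Dep H I) :
    avg Iᶜ (F * H) = avg Iᶜ F * H := by
  refine Subtype.ext (funext fun N => funext fun ω => ?_)
  refine Eq.trans ?_ (integral_mul_const (H.1 N ω) _)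
  refine integral_congr_ae (Eventually.of_forall fun ω' => ?_)
  refine congrArg (F.1 N _ * ·) (hH N fun k hk => ?_)
  simp [Set.piecewise, hk]

theorem cond (hA : FdA S) (hB : FdB S) (I : Set ℕ) (F : S.Alg) :
    S.μ[hat F | S.Full I] =ᵐ[S.μ] hat (avg Iᶜ F) := by
  have ho := hA.densA (S.DepS I).toSubmonoid (hat (F - avg Iᶜ F)) (hat_int _ _) fun H hH => by
    simp only [← hat_mul, sub_mul, ← avg_mul F hH, hat_sub]
    rw [integral_sub (hat_int _ _) (hat_int _ _), lim_avg hB, sub_self]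
  refine (ae_eq_condExp_of_forall_setIntegral_eq (sig_le _) (hat_int F _)
    (fun s _ _ => (hat_int _ _).integrableOn) (fun s hs _ => ?_)
    (hat_meas (avg_dep I F)).aestronglyMeasurable).symm
  have h := ho (s.indicator fun _ => 1)
    ⟨(measurable_const.indicator hs).aestronglyMeasurable, 1, Eventually.of_forall fun x => by
      by_cases hx : x ∈ s <;> simp [hx]⟩
  have e (x : S.Pt) : hat (F - avg Iᶜ F) x * s.indicator (fun _ => (1 : ℝ)) x =
      s.indicator (fun x => hat F x - hat (avg Iᶜ F) x) x := by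
    by_cases hx : x ∈ s <;> simp [hx, hat_sub]
  simp only [e] at h
  rw [integral_indicator (sig_le _ s hs),
    integral_sub (hat_int _ _).integrableOn (hat_int _ _).integrableOn] at h
  linarith

theorem th_mp (hB : FdB S) (c : ℕ →₀ ℤ) : S.MP (S.th c) := by
  refine hB.skew _ {0} (by simp) (fun N ω j hj => update_of_ne (by simpa using hj) _ _)
    (Eventually.of_forall fun N ω ω' h => ?_)
  have h1 (j : ℕ) (hj : j ≠ 0) : ω j = ω' j := by
    simpa [th, update_of_ne hj] using congrFun h j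
  have h0 : ω 0 + dot c ω = ω' 0 + dot c ω' := by simpa [th] using congrFun h 0
  rw [dot_congr c fun j _ hj => h1 j hj] at h0
  funext j
  by_cases hj : j = 0
  · subst hj
    exact add_right_cancel h0
  · exact h1 j hj

theorem cst_mp (hB : FdB S) (D : Finset ℕ) (σ : ∀ N, S.Om N) (hD : ∀ j ∈ D, Even j) :
    S.MP (cst D σ) := by
  refine hB.skew _ D hD (fun N ω j hj => if_neg hj) (Eventually.of_forall fun N ω ω' h => ?_)
  funext j
  have h1 := congrFun h j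
  by_cases hj : j ∈ D
  · simpa [cst, hj] using h1
  · simpa [cst, hj] using h1

theorem avg_cst {D : Finset ℕ} (hD : ∀ j ∈ D, Even j) (H : Φ.Alg) (N : ℕ) (ω : Φ.Om N) :
    (avg (D : Set ℕ) H).1 N ω =
      ∫ σ, H.1 N (fun j => if j ∈ D then ω j + σ j else ω j) ∂Φ.PP N := by
  classical
  have mp : MeasurePreserving (fun (σ : Φ.Om N) j => if j ∈ D then ω j + σ j else σ j)
      (Φ.PP N) (Φ.PP N) := by
    have h (j : ℕ) : (Φ.law N j).map (fun v => if j ∈ D then ω j + v else v) = Φ.law N j := by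
      by_cases hj : j ∈ D
      · simp only [hj, if_true, law_even (hD j hj)]
        exact (unif_mp (AddGroup.addLeft_bijective (ω j))).map_eq
      · simp [hj]
    refine ⟨measurable_pi_lambda _ fun j => (Measurable.of_discrete
      (f := fun v => if j ∈ D then ω j + v else v)).comp (measurable_pi_apply j), ?_⟩
    have := Measure.infinitePi_map_pi (Φ.law N)
      (f := fun j v => if j ∈ D then ω j + v else v) fun _ => Measurable.of_discrete
    simp only [h] at this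
    exact this
  have hm : Measurable fun ω' : Φ.Om N => H.1 N fun j => if j ∈ D then ω' j else ω j := by
    refine (meas H N).comp (measurable_pi_lambda _ fun j => ?_)
    by_cases hj : j ∈ D
    · simpa only [hj, if_true] using measurable_pi_apply j
    · simpa only [hj, if_false] using measurable_const
  have e : (avg (D : Set ℕ) H).1 N ω = ∫ ω', H.1 N (fun j => if j ∈ D then ω' j else ω j) ∂Φ.PP N :=
    integral_congr_ae (Eventually.of_forall fun ω' => congrArg (H.1 N) (funext fun j => by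
      by_cases hj : j ∈ D <;> simp [Set.piecewise, hj]))
  rw [e, ← mp_int mp hm]
  refine integral_congr_ae (Eventually.of_forall fun σ => congrArg (H.1 N) (funext fun j => ?_))
  by_cases hj : j ∈ D <;> simp [hj]

theorem shf {D : Finset ℕ} (hD : ∀ j ∈ D, Even j) (F H : S.Alg) :
    ∃ σ, ∫ x, hat F x * hat (avg (D : Set ℕ) H) x ∂S.μ ≤
      ∫ x, hat F x * hat ((cst D σ).pull H) x ∂S.μ := by
  obtain ⟨C, hC⟩ := F.2.2
  obtain ⟨C', hC'⟩ := H.2.2
  have hi (N : ℕ) : Integrable (fun p : S.Om N × S.Om N =>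
      F.1 N p.2 * H.1 N fun j => if j ∈ D then p.2 j + p.1 j else p.2 j)
      ((S.PP N).prod (S.PP N)) := by
    refine intg (((meas F N).comp measurable_snd).mul
      ((meas H N).comp (measurable_pi_lambda _ fun j => ?_))) (C := C * C') fun p => ?_
    · by_cases hj : j ∈ D
      · simp only [hj, if_true]
        exact (Measurable.of_discrete (f := fun q : S.G N × S.G N => q.1 + q.2)).comp
          (f := fun p : S.Om N × S.Om N => (p.2 j, p.1 j))
          (((measurable_pi_apply j).comp measurable_snd).prodMk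
            ((measurable_pi_apply j).comp measurable_fst))
      · simp only [hj, if_false]
        exact (measurable_pi_apply j).comp measurable_snd
    · rw [abs_mul]
      exact mul_le_mul (hC N _) (hC' N _) (abs_nonneg _) ((abs_nonneg _).trans (hC N p.2))
  have h (N : ℕ) := exists_integral_le (hi N).integral_prod_left
  choose σ hσ using h
  refine ⟨σ, ?_⟩
  simp only [← hat_mul]
  refine le_of_tendsto_of_tendsto' (S.lim _) (S.lim _) fun N => le_trans (le_of_eq ?_) (hσ N)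
  rw [← integral_prod _ (hi N), integral_prod_symm _ (hi N)]
  refine integral_congr_ae (Eventually.of_forall fun ω => ?_)
  refine Eq.trans ?_ (integral_const_mul (F.1 N ω) _).symm
  exact congrArg (F.1 N ω * ·) (avg_cst hD H N ω)

/-- the mixing estimate for a dilate of the sparse measure -/
theorem mix_fin {N : ℕ} {d : ℤ} {ε C C' : ℝ} (hd : Bijective fun v : Φ.G N => d • v)
    (h : ∀ g g' : Φ.G N → ℝ, (∀ v, |g v| ≤ 1) → (∀ v, |g' v| ≤ 1) →
      |∫ x, ∫ t, g x * g' (x + t) ∂Φ.ν N ∂Φ.unif N -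
        (∫ v, g v ∂Φ.unif N) * ∫ v, g' v ∂Φ.unif N| ≤ ε) (hC : 0 < C) (hC' : 0 < C')
    {φ φ' : Φ.G N → ℝ} (hφ : ∀ v, |φ v| ≤ C) (hφ' : ∀ v, |φ' v| ≤ C') :
    |∫ x, ∫ t, (φ x * φ' (x + d • t) - φ x * ∫ v, φ' v ∂Φ.unif N) ∂Φ.ν N ∂Φ.unif N| ≤
      C * C' * ε := by
  have b {D : ℝ} (hD : 0 < D) {a : ℝ} (ha : |a| ≤ D) : |D⁻¹ * a| ≤ 1 := by
    rw [abs_mul, abs_of_pos (inv_pos.2 hD), inv_mul_le_iff₀ hD, mul_one]
    exact ha
  have h1 := h (fun v => C⁻¹ * φ (d • v)) (fun v => C'⁻¹ * φ' (d • v)) (fun v => b hC (hφ _))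
    fun v => b hC' (hφ' _)
  have e (x t : Φ.G N) : C⁻¹ * φ (d • x) * (C'⁻¹ * φ' (d • (x + t))) =
      C⁻¹ * C'⁻¹ * (φ (d • x) * φ' (d • x + d • t)) := by
    rw [smul_add]
    ring
  simp only [e, integral_const_mul (C⁻¹ * C'⁻¹), integral_const_mul C⁻¹,
    integral_const_mul C'⁻¹] at h1
  rw [mp_int (unif_mp hd) (f := φ) Measurable.of_discrete,
    mp_int (unif_mp hd) (f := φ') Measurable.of_discrete,
    mp_int (unif_mp hd) (f := fun x => ∫ t, φ x * φ' (x + d • t) ∂Φ.ν N)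
      Measurable.of_discrete] at h1
  have e2 (x : Φ.G N) : ∫ t, (φ x * φ' (x + d • t) - φ x * ∫ v, φ' v ∂Φ.unif N) ∂Φ.ν N =
      ∫ t, φ x * φ' (x + d • t) ∂Φ.ν N - φ x * ∫ v, φ' v ∂Φ.unif N := by
    rw [integral_sub Integrable.of_finite Integrable.of_finite]
    simp
  simp only [e2]
  rw [integral_sub Integrable.of_finite Integrable.of_finite, integral_mul_const]
  have e3 (a u v : ℝ) : a - u * v = C * C' * (C⁻¹ * C'⁻¹ * a - C⁻¹ * u * (C'⁻¹ * v)) := by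
    field_simp
  rw [e3, abs_mul, abs_of_pos (mul_pos hC hC')]
  exact mul_le_mul_of_nonneg_left h1 (mul_pos hC hC').le

theorem mixing (hB : FdB S) {t : ℕ} {d : ℤ} {F F' : S.Alg} (ht : Odd t) (hd : d ≠ 0)
    (hF : Dep F {t}ᶜ) (hF' : Dep F' {t}ᶜ) :
    ∫ x, hat F x * hat F' (S.Th (d • ee t) x) ∂S.μ =
      ∫ x, hat F x * hat (avg {0} F') x ∂S.μ := by
  obtain ⟨C, hC⟩ := F.2.2
  obtain ⟨C', hC'⟩ := F'.2.2
  have t0 : t ≠ 0 := by
    rintro rfl
    simp at ht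
  have up {H : S.Alg} (hH : Dep H {t}ᶜ) (N : ℕ) (ω : S.Om N) (x y s : S.G N) :
      H.1 N (update (update (update ω 0 x) t s) 0 y) = H.1 N (update ω 0 y) := hH N fun k hk => by
    by_cases h0 : k = 0
    · simp [h0]
    · simp [update_of_ne h0, update_of_ne (show k ≠ t from hk)]
  have key : ∀ ε : ℝ, 0 < ε →
      |∫ x, hat (F * (S.th (d • ee t)).pull F' - F * avg {0} F') x ∂S.μ| ≤
        (|C| + 1) * (|C'| + 1) * ε := fun ε hε => by
    refine le_of_tendsto (S.lim _).abs ?_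
    filter_upwards [S.hyp.inv d hd, S.hyp.mix ε hε] with N h1 h2
    rw [← int_avg hB {t}, ← int_avg hB {0}]
    have := norm_integral_le_of_norm_le_const (μ := S.PP N)
      (f := (avg {0} (avg {t} (F * (S.th (d • ee t)).pull F' - F * avg {0} F'))).1 N)
      (C := (|C| + 1) * (|C'| + 1) * ε) (Eventually.of_forall fun ω => ?_)
    · simpa using this
    refine le_trans (le_of_eq ?_) (mix_fin h1 h2 (by positivity) (by positivity)
      (φ := fun x => F.1 N (update ω 0 x)) (φ' := fun x => F'.1 N (update ω 0 x))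
      (fun v => (hC N _).trans ((le_abs_self C).trans (by linarith)))
      fun v => (hC' N _).trans ((le_abs_self C').trans (by linarith)))
    rw [Real.norm_eq_abs, avg_single, law_even (by simp)]
    refine congrArg _ (integral_congr_ae (Eventually.of_forall fun x => ?_))
    dsimp only
    rw [avg_single, law_odd ht]
    refine integral_congr_ae (Eventually.of_forall fun s => ?_)
    have e1 : F.1 N (update (update ω 0 x) t s) = F.1 N (update ω 0 x) :=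
      hF N fun k hk => update_of_ne (show k ≠ t from hk) _ _
    have e2 : ((S.th (d • ee t)).pull F').1 N (update (update ω 0 x) t s) =
        F'.1 N (update ω 0 (x + d • s)) := by
      refine Eq.trans (congrArg (fun y => F'.1 N (update (update (update ω 0 x) t s) 0 y))
        (show update (update ω 0 x) t s 0 + dot (d • ee t) (update (update ω 0 x) t s) =
          x + d • s from ?_)) (up hF' N ω x _ s)
      simp [dot, update_of_ne t0.symm, Finsupp.erase_single_ne t0.symm]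
    have e3 : (avg {0} F').1 N (update (update ω 0 x) t s) =
        ∫ v, F'.1 N (update ω 0 v) ∂S.unif N := by
      rw [avg_single, law_even (by simp)]
      exact integral_congr_ae (Eventually.of_forall fun v => up hF' N ω x v s)
    dsimp only
    rw [← e1, ← e2, ← e3]
    rfl
  have z : ∫ x, hat (F * (S.th (d • ee t)).pull F' - F * avg {0} F') x ∂S.μ = 0 := by
    refine abs_nonpos_iff.1 (le_of_forall_pos_le_add fun ε hε => ?_)
    have p : 0 < (|C| + 1) * (|C'| + 1) := by positivity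
    have := key (ε / ((|C| + 1) * (|C'| + 1))) (div_pos hε p)
    rwa [mul_div_cancel₀ _ p.ne', ← zero_add ε] at this
  simp only [hat_sub] at z
  rw [integral_sub (hat_int _ _) (hat_int _ _), sub_eq_zero] at z
  simp only [hat_mul] at z
  exact z

end FdCp

open FdCp in
theorem fdC : FdCS := fun _ hA hB =>
  { thmp := fun c => hA.lift _ (th_mp hB c)
    pmmp := fun π h => hA.lift _ (hB.perm π h)
    cstmp := fun D σ h => hA.lift _ (cst_mp hB D σ h)
    samp0 := smp hB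
    avg := cond hA hB
    shift := fun _ h => shf h
    mix := fun _ _ _ _ => mixing hB }

end Pool.Agent.MP_154433_an.SG

end

end MrgPart2

-- ======== part 3: formerly Pool.Agent.MP_154433_an.sg.V1
section MrgPart3

/-! One point, two points, and two points in a dense direction. -/

set_option autoImplicit false

open MeasureTheory ProbabilityTheory Filter Topology Function

noncomputable section

namespace Pool.Agent.MP_154433_an.SG

open Fam

namespace V1A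

lemma abm_comp {X : Type} {m m' : MeasurableSpace X} {m0 : MeasurableSpace X} {μ : Measure X}
    {T : X → X} (hT : MeasurePreserving T μ μ) (h : m.comap T ≤ m') {ψ : X → ℝ}
    (hψ : ABM m μ ψ) : ABM m' μ fun x => ψ (T x) := by
  obtain ⟨⟨φ, hφ, he⟩, C, hC⟩ := hψ
  refine ⟨⟨φ ∘ T, ?_, hT.quasiMeasurePreserving.ae_eq_comp he⟩, C,
    hT.quasiMeasurePreserving.ae hC⟩
  exact (hφ.comp_measurable (comap_measurable T)).mono h

variable {Φ : Fam}

lemma sig_le (T : Set Φ.Alg) : sig T ≤ (inferInstance : MeasurableSpace Φ.Pt) :=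
  iSup₂_le fun F _ => le_iSup₂_of_le (f := fun (F : Φ.Alg) (_ : F ∈ Set.univ) =>
    MeasurableSpace.comap (hat F) inferInstance) F trivial le_rfl

lemma abm_top {T : Set Φ.Alg} {μ : Measure Φ.Pt} {g : Φ.Pt → ℝ} (h : ABM (sig T) μ g) :
    ABM inferInstance μ g := ⟨h.1.mono (sig_le T), h.2⟩

lemma hat_bdd (F : Φ.Alg) : ∃ C : ℝ, ∀ x, |hat F x| ≤ C := by
  obtain ⟨C, hC⟩ := F.2.2
  exact ⟨C, fun x => x.bdd F C hC⟩

lemma abm_hat {T : Set Φ.Alg} {μ : Measure Φ.Pt} {F : Φ.Alg} (hF : F ∈ T) :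
    ABM (sig T) μ (hat F) := by
  obtain ⟨C, hC⟩ := hat_bdd F
  refine ⟨?_, C, Eventually.of_forall hC⟩
  have : Measurable[sig T] (hat F) :=
    (comap_measurable (hat F)).mono (le_iSup₂_of_le (f := fun (F : Φ.Alg) (_ : F ∈ T) =>
      MeasurableSpace.comap (hat F) inferInstance) F hF le_rfl) le_rfl
  exact this.stronglyMeasurable.aestronglyMeasurable

lemma hat_mul (F H : Φ.Alg) (x : Φ.Pt) : hat (F * H) x = hat F x * hat H x := map_mul _ _ _

lemma dot_add {N : ℕ} (c c' : ℕ →₀ ℤ) (ω : Φ.Om N) : dot (c + c') ω = dot c ω + dot c' ω := by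
  simp only [dot, Finsupp.erase_add, map_add]

lemma dot_single {N : ℕ} {z : ℕ} (hz : z ≠ 0) (d : ℤ) (ω : Φ.Om N) :
    dot (d • ee z) ω = d • ω z := by
  simp [dot, Finsupp.erase_single_ne hz.symm]

lemma Th_add (c c' : ℕ →₀ ℤ) (x : Φ.Pt) : Φ.Th c (Φ.Th c' x) = Φ.Th (c + c') x := by
  refine Pt.ext (AlgHom.ext fun F => ?_)
  change x.ev ((Φ.th c').pull ((Φ.th c).pull F)) = x.ev ((Φ.th (c + c')).pull F)
  congr 1
  refine Subtype.ext (funext fun N => funext fun ω => ?_)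
  change F.1 N (update (update ω 0 (ω 0 + dot c' ω)) 0
    (update ω 0 (ω 0 + dot c' ω) 0 + dot c (update ω 0 (ω 0 + dot c' ω)))) =
      F.1 N (update ω 0 (ω 0 + dot (c + c') ω))
  rw [update_idem, update_self, dot_add,
    dot_congr c (ω := update ω 0 (ω 0 + dot c' ω)) (ω' := ω) fun j _ hj => update_of_ne hj _ _,
    add_assoc, add_comm (dot c' ω)]

lemma Th_zero (x : Φ.Pt) : Φ.Th 0 x = x := by
  refine Pt.ext (AlgHom.ext fun F => ?_)
  change x.ev ((Φ.th 0).pull F) = x.ev F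
  congr 1
  refine Subtype.ext (funext fun N => funext fun ω => ?_)
  change F.1 N (update ω 0 (ω 0 + dot 0 ω)) = F.1 N ω
  simp [dot]

lemma dep_inter {F : Φ.Alg} {A B : Set ℕ} (hA : Dep F A) (hB : Dep F B) : Dep F (A ∩ B) := by
  classical
  intro N x y h
  have h1 : F.1 N x = F.1 N (A.piecewise x y) := hA N fun j hj => by simp [hj]
  rw [h1]
  refine hB N fun j hj => ?_
  by_cases k : j ∈ A
  · simpa [k] using h j ⟨k, hj⟩
  · simp [k]

lemma dep_fin (F : Φ.Alg) : ∃ T : Finset ℕ, ∀ z ∉ T, Dep F {z}ᶜ := by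
  obtain ⟨T, hT⟩ := F.2.1
  refine ⟨T, fun z hz N => (hT N).mono fun j hj h => hz ?_⟩
  rw [Set.mem_singleton_iff] at h
  exact h ▸ hj

/-- exchange two coordinates and apply `β` to one of them -/
def sw (z z' : ℕ) (β : ∀ N, Φ.G N → Φ.G N) : Φ.FMap where
  toFun N ω j := if j = z then β N (ω z') else if j = z' then ω z else ω j
  fin j := ⟨{j, z, z'}, fun N x y h => by
    simp only [h j (by simp), h z (by simp), h z' (by simp)]⟩

lemma sw_ne {z z' j : ℕ} (β : ∀ N, Φ.G N → Φ.G N) (N : ℕ) (ω : Φ.Om N) (h : j ≠ z)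
    (h' : j ≠ z') : (sw z z' β).toFun N ω j = ω j := by simp [sw, h, h']

lemma sw_gen {Γ : Set (Finset ℕ × (ℕ →₀ ℤ))} {I : Set ℕ} {z : ℕ} (h0 : 0 ∈ I) (hL : Lives Γ I)
    (hz : z ∉ I) {Ψ : Φ.Alg} (hΨ : Ψ ∈ Φ.GenP Γ (I ∪ ({z} : Finset ℕ))) :
    ∃ T : Finset ℕ, ∀ z' ∉ T, z' ∈ I → z' ≠ 0 → ∀ β, (sw z z' β).pull Ψ ∈ Φ.GenP Γ I := by
  induction hΨ using Submonoid.closure_induction with
  | one => exact ⟨∅, fun z' _ _ _ β => by rw [map_one]; exact one_mem _⟩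
  | mul F H _ _ hF hH =>
    obtain ⟨T, hT⟩ := hF
    obtain ⟨T', hT'⟩ := hH
    refine ⟨T ∪ T', fun z' h h1 h2 β => ?_⟩
    rw [Finset.mem_union, not_or] at h
    rw [map_mul]
    exact mul_mem (hT z' h.1 h1 h2 β) (hT' z' h.2 h1 h2 β)
  | mem Ψ h =>
    simp only [Set.mem_iUnion] at h
    obtain ⟨γ, hγ, F', hF', rfl⟩ := h
    obtain ⟨T, hT⟩ := dep_fin F'
    refine ⟨T ∪ γ.1, fun z' h h1 h2 β => ?_⟩
    rw [Finset.mem_union, not_or] at h
    have z0 : z ≠ 0 := fun k => hz (k ▸ h0)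
    refine Submonoid.subset_closure (Set.mem_iUnion₂.2 ⟨γ, hγ, (sw z z' β).pull F', ?_, ?_⟩)
    · intro N x y hxy
      refine dep_inter hF' (hT z' h.1) N fun j hj => ?_
      obtain ⟨⟨j1, j2⟩, j3⟩ := hj
      by_cases k : j = z
      · simp only [sw, k, if_true, hxy z' ⟨h1, h.2⟩]
      · rw [sw_ne β N x k j3, sw_ne β N y k j3]
        exact hxy j ⟨j1.resolve_right (by simpa using k), j2⟩
    · refine Subtype.ext (funext fun N => funext fun ω => ?_)
      change F'.1 N (update ((sw z z' β).toFun N ω) 0 ((sw z z' β).toFun N ω 0 +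
        dot γ.2 ((sw z z' β).toFun N ω))) =
        F'.1 N ((sw z z' β).toFun N (update ω 0 (ω 0 + dot γ.2 ω)))
      have hd : dot γ.2 ((sw z z' β).toFun N ω) = dot γ.2 ω := dot_congr _ fun j hj _ =>
        sw_ne β N ω (fun k => hz (k ▸ (hL γ hγ).1 ((hL γ hγ).2 hj)))
          fun k => h.2 (k ▸ (hL γ hγ).2 hj)
      rw [hd, sw_ne β N ω z0.symm h2.symm]
      refine congrArg (F'.1 N) (funext fun j => ?_)
      by_cases k : j = 0
      · subst k
        rw [update_self, sw_ne β N _ z0.symm h2.symm, update_self]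
      · rw [update_of_ne k]
        simp only [sw, update_of_ne k, update_of_ne z0, update_of_ne h2]

variable {S : Sys}

lemma int_ev {F H : S.Alg} (h : ∀ᶠ N in (S.U : Filter ℕ), F.1 N = H.1 N) :
    ∫ x, hat F x ∂S.μ = ∫ x, hat H x ∂S.μ :=
  tendsto_nhds_unique ((S.lim F).congr' (h.mono fun N hN => by simp only [hN])) (S.lim H)

lemma shift (fd : Fd S) (c : ℕ →₀ ℤ) (f : S.Pt → ℝ) :
    ∫ x, f (S.Th c x) ∂S.μ = ∫ x, f x ∂S.μ := by
  let e : S.Pt ≃ᵐ S.Pt :=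
    { toFun := S.Th c
      invFun := S.Th (-c)
      left_inv := fun x => by rw [Th_add, neg_add_cancel, Th_zero]
      right_inv := fun x => by rw [Th_add, add_neg_cancel, Th_zero]
      measurable_toFun := (fd.thmp c).measurable
      measurable_invFun := (fd.thmp (-c)).measurable }
  exact MeasurePreserving.integral_comp' (f := e) (fd.thmp c) f

lemma base_shift (fd : Fd S) {Γ : Set (Finset ℕ × (ℕ →₀ ℤ))} {I : Set ℕ} {J : Finset ℕ}
    {c : ℕ →₀ ℤ} (hL : Lives Γ I) (hJ : ∀ j ∈ J, j ∉ I) (hc : c.support ⊆ J) (a : ℤ)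
    {ψ : S.Pt → ℝ} (hψ : ABM (S.Base Γ (I ∪ J)) S.μ ψ) :
    ABM (S.Base Γ (I ∪ J)) S.μ fun x => ψ (S.Th (a • c) x) := by
  have hs : ∀ j ∈ (a • c).support, j ∈ J := fun j hj => hc (Finsupp.support_smul hj)
  exact abm_comp (fd.thmp _) (fd.theta Γ _ _ _
    (fun γ hγ j hj k => hJ j (hs j hj) ((hL γ hγ).1 k)) subset_rfl
    fun j hj => Or.inr (hs j hj)) hψ

lemma one_pt (fd : Fd S) {Γ : Set (Finset ℕ × (ℕ →₀ ℤ))} {I : Set ℕ} {J : Finset ℕ}
    {c : ℕ →₀ ℤ} (h0 : 0 ∈ I) (hL : Lives Γ I) (hJ : ∀ j ∈ J, j ∉ I) (hc : c.support ⊆ J) (a : ℤ)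
    {g ψ : S.Pt → ℝ} (hg : ABM (S.Full I) S.μ g) (hψ : ABM (S.Base Γ (I ∪ J)) S.μ ψ)
    (ho : Orth (S.Base Γ I) S.μ g) : ∫ x, ψ x * g (S.Th (a • c) x) ∂S.μ = 0 := by
  rw [← shift fd ((-a) • c)]
  have := fd.s0 Γ I (I ∪ J) h0 hL Set.subset_union_left g hg ho _ (base_shift fd hL hJ hc (-a) hψ)
  rw [← this]
  refine integral_congr_ae (Eventually.of_forall fun x => ?_)
  simp only [Th_add, ← add_smul, add_neg_cancel, zero_smul, Th_zero, mul_comm]

lemma approx {g : S.Pt → ℝ} (hg : ABM inferInstance S.μ g) (F H : S.Alg) {C : ℝ}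
    (hC : ∀ x, |hat H x| ≤ C) :
    |∫ x, g x * hat H x ∂S.μ - ∫ x, hat (F * H) x ∂S.μ| ≤ C * ∫ x, |g x - hat F x| ∂S.μ := by
  have hi : ∀ {u : S.Pt → ℝ}, ABM inferInstance S.μ u → Integrable u S.μ := fun h => by
    obtain ⟨h1, B, hB⟩ := h
    exact Integrable.of_bound h1 B hB
  have hF : ABM inferInstance S.μ (hat F) := abm_top (abm_hat (T := Set.univ) trivial)
  have hH : ABM inferInstance S.μ (hat H) := abm_top (abm_hat (T := Set.univ) trivial)
  have hb : ∀ᵐ x ∂S.μ, ‖hat H x‖ ≤ C := Eventually.of_forall hC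
  simp only [hat_mul]
  rw [← integral_sub ((hi hg).mul_bdd hH.1 hb) ((hi hF).mul_bdd hH.1 hb), ← integral_const_mul]
  refine (abs_integral_le_integral_abs).trans (integral_mono_of_nonneg
    (Eventually.of_forall fun x => abs_nonneg _) (((hi hg).sub (hi hF)).abs.const_mul C)
    (Eventually.of_forall fun x => ?_))
  simp only [← sub_mul, abs_mul]
  rw [mul_comm]
  exact mul_le_mul_of_nonneg_right (hC x) (abs_nonneg _)

lemma core (fd : Fd S) {Γ : Set (Finset ℕ × (ℕ →₀ ℤ))} {I : Set ℕ} {z : ℕ} (fr : Frame Γ I)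
    (hz : z ∉ I) (ez : Even z) {d : ℤ} (hd : d ≠ 0) {g : S.Pt → ℝ} (hg : ABM (S.Full I) S.μ g)
    (ho : Orth (S.Base Γ I) S.μ g) {Ψ G : S.Alg} (hΨ : Ψ ∈ S.GenP Γ (I ∪ ({z} : Finset ℕ)))
    (hG : Dep G I) : ∫ x, g x * hat (Ψ * (S.th (d • ee z)).pull G) x ∂S.μ = 0 := by
  classical
  obtain ⟨C1, hC1⟩ := Ψ.2.2
  obtain ⟨C2, hC2⟩ := G.2.2
  have bd : ∀ Θ Θ' : S.FMap, ∀ x, |hat (Θ.pull Ψ * Θ'.pull G) x| ≤ C1 * C2 := fun Θ Θ' x => by
    have a1 : |hat (Θ.pull Ψ) x| ≤ C1 := x.bdd _ _ fun N ω => hC1 N _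
    have a2 : |hat (Θ'.pull G) x| ≤ C2 := x.bdd _ _ fun N ω => hC2 N _
    rw [hat_mul, abs_mul]
    exact mul_le_mul a1 a2 (abs_nonneg _) ((abs_nonneg _).trans a1)
  have z0 : z ≠ 0 := fun k => hz (k ▸ fr.zero)
  have key : ∀ ε : ℝ, 0 < ε →
      |∫ x, g x * hat (Ψ * (S.th (d • ee z)).pull G) x ∂S.μ| ≤ 2 * |C1 * C2| * ε := by
    intro ε hε
    obtain ⟨F, hF, hFε⟩ := fd.densB (S.DepS I).toSubmonoid g hg ε hε
    have hFI : Dep F I := (Submodule.span_le (p := (S.DepS I).toSubmodule)).2 subset_rfl hF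
    obtain ⟨T1, hT1⟩ := sw_gen fr.zero fr.lives hz hΨ
    obtain ⟨T2, hT2⟩ := dep_fin F
    obtain ⟨T3, hT3⟩ := dep_fin G
    obtain ⟨z', ⟨a1, a2, a3, a4⟩, hz'⟩ := fr.rich.exists_notMem_finset (T1 ∪ T2 ∪ T3)
    simp only [Finset.mem_union, not_or] at hz'
    have zz : z' ≠ z := fun k => hz (k ▸ a1)
    let β : ∀ N, S.G N → S.G N := fun N => invFun fun v : S.G N => (-d) • v
    have hβ : ∀ᶠ N in (S.U : Filter ℕ), ∀ v, (-d) • β N v = v :=
      (S.hyp.inv (-d) (neg_ne_zero.2 hd)).mono fun N hN v => rightInverse_invFun hN.2 v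
    have mp : MeasurePreserving (sw z z' β).lift S.μ S.μ := by
      refine fd.lift _ (fd.skew _ {z, z'} (by simp [ez, a2]) (fun N ω j hj => ?_) ?_)
      · simp only [Finset.mem_insert, Finset.mem_singleton, not_or] at hj
        exact sw_ne β N ω hj.1 hj.2
      · refine hβ.mono fun N hN x y h => funext fun j => ?_
        by_cases k : j = z
        · simpa [sw, zz, k] using congrFun h z'
        by_cases k' : j = z'
        · have : β N (x z') = β N (y z') := by simpa [sw] using congrFun h z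
          rw [k', ← hN (x z'), this, hN]
        · rw [← sw_ne β N x k k', ← sw_ne β N y k k', h]
    have hmem : (sw z z' β).pull Ψ * (S.th (-ee z')).pull G ∈ S.GenP Γ I :=
      mul_mem (hT1 z' hz'.1.1 a1 a3 β) (Submonoid.subset_closure (Set.mem_iUnion₂.2
        ⟨({z'}, -ee z'), a4, G, by
          rw [Finset.coe_singleton]; exact dep_inter hG (hT3 z' hz'.2), rfl⟩))
    have e0 := ho _ (abm_hat (T := (S.GenP Γ I : Set S.Alg)) hmem)
    have e1 : ∫ x, hat (F * (Ψ * (S.th (d • ee z)).pull G)) x ∂S.μ =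
        ∫ x, hat (F * ((sw z z' β).pull Ψ * (S.th (-ee z')).pull G)) x ∂S.μ := by
      have hm := (abm_top (μ := S.μ) (abm_hat (T := Set.univ)
        (F := F * (Ψ * (S.th (d • ee z)).pull G)) trivial)).1
      rw [← mp.map_eq] at hm
      rw [← mp.map_eq, integral_map mp.measurable.aemeasurable hm, mp.map_eq]
      refine int_ev (F := (sw z z' β).pull (F * (Ψ * (S.th (d • ee z)).pull G))) ?_
      refine hβ.mono fun N hN => funext fun ω => ?_
      change F.1 N ((sw z z' β).toFun N ω) * (Ψ.1 N ((sw z z' β).toFun N ω) *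
        G.1 N (update ((sw z z' β).toFun N ω) 0 ((sw z z' β).toFun N ω 0 +
          dot (d • ee z) ((sw z z' β).toFun N ω)))) =
        F.1 N ω * (Ψ.1 N ((sw z z' β).toFun N ω) * G.1 N (update ω 0 (ω 0 + dot (-ee z') ω)))
      have b1 : F.1 N ((sw z z' β).toFun N ω) = F.1 N ω :=
        dep_inter hFI (hT2 z' hz'.1.2) N fun j hj => sw_ne β N ω (fun k => hz (k ▸ hj.1)) hj.2
      have b2 : dot (d • ee z) ((sw z z' β).toFun N ω) = dot (-ee z') ω := by
        rw [dot_single z0, ← neg_one_smul ℤ (ee z'), dot_single a3, neg_one_smul, ← hN (ω z'),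
          neg_smul, neg_neg]
        simp only [sw, if_true]
      rw [b1, b2, sw_ne β N ω z0.symm a3.symm]
      congr 2
      refine dep_inter hG (hT3 z' hz'.2) N fun j hj => ?_
      by_cases k : j = 0
      · subst k
        rw [update_self, update_self]
      · rw [update_of_ne k, update_of_ne k,
          sw_ne β N ω (fun k : j = z => hz (k ▸ hj.1)) hj.2]
    have p1 := approx (abm_top hg) F (Ψ * (S.th (d • ee z)).pull G)
      fun x => (bd (FMap.id _) _ x).trans (le_abs_self _)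
    have p2 := approx (abm_top hg) F ((sw z z' β).pull Ψ * (S.th (-ee z')).pull G)
      fun x => (bd _ _ x).trans (le_abs_self _)
    rw [e0, zero_sub, abs_neg, ← e1] at p2
    have p3 := mul_le_mul_of_nonneg_left hFε.le (abs_nonneg (C1 * C2))
    have p4 := abs_sub_abs_le_abs_sub (∫ x, g x * hat (Ψ * (S.th (d • ee z)).pull G) x ∂S.μ)
      (∫ x, hat (F * (Ψ * (S.th (d • ee z)).pull G)) x ∂S.μ)
    linarith
  rw [← abs_nonpos_iff]
  refine le_of_forall_pos_le_add fun ε hε => ?_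
  have hp : 0 < 2 * |C1 * C2| + 1 := by positivity
  refine (key (ε / (2 * |C1 * C2| + 1)) (by positivity)).trans ?_
  rw [zero_add, ← mul_div_assoc, div_le_iff₀ hp]
  nlinarith

end V1A

open V1A

theorem v1 : V1S := by
  intro S fd
  have h2 : ∀ Γ (I : Set ℕ) (J : Finset ℕ) (c : ℕ →₀ ℤ), 0 ∈ I → Lives Γ I → (∀ j ∈ J, j ∉ I) →
      c.support ⊆ J →
      (∀ d : ℤ, d ≠ 0 → ∀ g g' ψ : S.Pt → ℝ, ABM (S.Full I) S.μ g → ABM (S.Full I) S.μ g' →
        ABM (S.Base Γ (I ∪ J)) S.μ ψ → Orth (S.Base Γ I) S.μ g →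
        ∫ x, ψ x * (g x * g' (S.Th (d • c) x)) ∂S.μ = 0) → S.Van Γ I J c 2 := by
    classical
    intro Γ I J c h0 hL hJ hc H ι s r hr hs g ψ hg hψ i0 hi ho
    have hcard : (s.erase i0).card ≤ 1 := by rw [Finset.card_erase_of_mem hi]; omega
    simp only [← Finset.mul_prod_erase s _ hi]
    rcases (s.erase i0).eq_empty_or_nonempty with he | ⟨i1, h1⟩
    · simp only [he, Finset.prod_empty, mul_one]
      exact one_pt fd h0 hL hJ hc _ (hg i0 hi) hψ ho
    · have he : s.erase i0 = {i1} :=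
        Finset.eq_singleton_iff_unique_mem.2 ⟨h1, fun j hj => Finset.card_le_one.1 hcard j hj i1 h1⟩
      obtain ⟨k1, k2⟩ := Finset.mem_erase.1 h1
      simp only [he, Finset.prod_singleton]
      rw [← shift fd ((-r i0) • c), ← H (r i1 - r i0) (sub_ne_zero.2 fun k => k1 (hr k2 hi k))
        _ _ _ (hg i0 hi) (hg i1 k2) (base_shift fd hL hJ hc (-r i0) hψ) ho]
      simp only [Th_add, ← add_smul, add_neg_cancel, zero_smul, Th_zero, sub_eq_add_neg]
  refine ⟨?_, h2, ?_⟩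
  · intro Γ I J c h0 hL hJ hc ι s r _ hs g ψ hg hψ i0 hi ho
    have he : s = {i0} :=
      Finset.eq_singleton_iff_unique_mem.2 ⟨hi, fun j hj => Finset.card_le_one.1 hs j hj i0 hi⟩
    simp only [he, Finset.prod_singleton]
    exact one_pt fd h0 hL hJ hc _ (hg i0 hi) hψ ho
  · intro Γ I z fr hz ez
    refine h2 Γ I {z} (ee z) fr.zero fr.lives (by simpa using hz) Finsupp.support_single_subset ?_
    intro d hd g g' ψ hg hg' hψ ho
    have mp : ∀ i ∈ (Finset.univ : Finset Bool),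
        MeasurePreserving (cond i id (S.Th (d • ee z))) S.μ S.μ := by
      rintro (_ | _) _
      · exact fd.thmp _
      · exact MeasurePreserving.id _
    have := fd.mext Bool Finset.univ
      (fun i => cond i (S.GenP Γ (I ∪ ({z} : Finset ℕ))) (S.DepS I).toSubmonoid)
      (fun i => cond i id (S.Th (d • ee z))) (fun i => cond i id (S.Th (d • ee z))) g (fun _ => 0)
      mp mp (abm_top hg) ⟨aestronglyMeasurable_const, 0, by simp⟩ (fun F hF => ?_)
      (fun i => cond i ψ g') (by rintro (_ | _) _; exacts [hg', hψ])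
    · simp only [Fintype.prod_bool, cond_true, cond_false, id, zero_mul, integral_zero] at this
      rw [← this]
      refine integral_congr_ae (Eventually.of_forall fun x => ?_)
      ring
    · simp only [Fintype.prod_bool, cond_true, cond_false, id, zero_mul, integral_zero]
      rw [← core fd fr hz ez hd hg ho (hF true (by simp)) (hF false (by simp))]
      simp only [hat_mul]
      rfl

end Pool.Agent.MP_154433_an.SG

end

end MrgPart3

-- ======== part 4: formerly Pool.Agent.MP_154433_an.sg.Xc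
section MrgPart4

/-! The base data of the axes are conditionally independent and identically distributed. -/

set_option autoImplicit false

open MeasureTheory ProbabilityTheory Filter Function

namespace Pool.Agent.MP_154433_an.SG

namespace XcA

/-- conditional expectations commute with measure preserving maps -/
theorem ce_comp {X : Type} (B : MeasurableSpace X) {m0 : MeasurableSpace X} {μ : Measure X}
    [IsProbabilityMeasure μ] (hB : B ≤ m0) {T : X → X} (hT : MeasurePreserving T μ μ)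
    (e : B.comap T = B) {g : X → ℝ} (hg : Integrable g μ) :
    μ[fun x => g (T x) | B] =ᵐ[μ] fun x => (μ[g | B]) (T x) := by
  have hm : Measurable[B, B] T := measurable_iff_comap_le.2 e.le
  have i1 : Integrable (fun x => g (T x)) μ := hT.integrable_comp_of_integrable hg
  have i2 : Integrable (fun x => (μ[g | B]) (T x)) μ :=
    hT.integrable_comp_of_integrable integrable_condExp
  refine (ae_eq_condExp_of_forall_setIntegral_eq hB i1 (fun s _ _ => i2.integrableOn)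
    (fun s hs _ => ?_) (stronglyMeasurable_condExp.comp_measurable hm).aestronglyMeasurable).symm
  obtain ⟨A, hA, rfl⟩ : MeasurableSet[B.comap T] s := by rwa [e]
  have k : ∀ f : X → ℝ, Integrable f μ → ∫ x in T ⁻¹' A, f (T x) ∂μ = ∫ x in A, f x ∂μ := by
    intro f hf
    rw [← setIntegral_map (hB A hA) (by rw [hT.map_eq]; exact hf.1) hT.measurable.aemeasurable,
      hT.map_eq]
  rw [k _ integrable_condExp, k _ hg, setIntegral_condExp hB hg hA]

theorem abm_ind {X Y : Type} (m : MeasurableSpace X) {m0 : MeasurableSpace X} {μ : Measure X}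
    [MeasurableSpace Y] {b b' : X → Y} (e : b =ᵐ[μ] b') (hb : Measurable[m] b') {A : Set Y}
    (hA : MeasurableSet A) : ABM m μ fun x => A.indicator (fun _ => (1 : ℝ)) (b x) := by
  refine ⟨⟨fun x => A.indicator (fun _ => (1 : ℝ)) (b' x),
    ((measurable_const.indicator hA).comp hb).stronglyMeasurable, e.mono fun x h => by simp only [h]⟩, 1,
    Eventually.of_forall fun x => ?_⟩
  by_cases h : b x ∈ A <;> simp [h]

theorem abm_int {X : Type} {m m0 : MeasurableSpace X} {μ : Measure X} [IsProbabilityMeasure μ]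
    (h : m ≤ m0) {g : X → ℝ} (hg : ABM m μ g) : Integrable g μ := by
  obtain ⟨a, C, b⟩ := hg
  exact Integrable.of_bound (a.mono h) C b

variable {J X : Type} [DecidableEq J]

theorem mem_cyl (Θ : (J → ℤ) → X → X) (Sn : ℕ → Set X) (s : J) (G : Finset (ℤ × ℕ)) :
    WW Θ Sn ⁻¹' cyl (axF s G) = ⋂ p ∈ G, Θ (Pi.single s p.1) ⁻¹' Sn p.2 := by
  ext x
  simp only [cyl, axF, WW, Set.mem_preimage, Set.mem_ofPred_eq, Finset.forall_mem_map,
    decide_eq_true_eq, Set.mem_iInter]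
  rfl

end XcA

open XcA

theorem xc : XcS := by
  intro J ι X _ _ _ _ F B Ax m0 μ _ r Θ Sn Zn h hS
  have c1 : ∀ s G, ABM (Ax s) μ (cy (WW Θ Sn) (axF s G)) := fun s G => by
    have m : MeasurableSet[Ax s] (WW Θ Sn ⁻¹' cyl (axF s G)) := by
      rw [mem_cyl]
      exact Finset.measurableSet_biInter _ fun p _ => h.ax_pt s p.1 _ ⟨_, hS p.2, rfl⟩
    refine ⟨(stronglyMeasurable_const.indicator m).aestronglyMeasurable, 1,
      Eventually.of_forall fun x => ?_⟩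
    by_cases a : WW Θ Sn x ∈ cyl (axF s G) <;> simp [cy, a]
  have c2 : ∀ s (A : Set Bsp), MeasurableSet A → ABM (Ax s) μ fun x =>
      A.indicator (fun _ => (1 : ℝ)) (bet s (ZZ B μ (WW Θ Sn) Zn x)) := fun s A hA => by
    have a := fun G => h.ax_B s _ (c1 s G)
    refine abm_ind (Ax s) (b' := fun x G => (a G).mk _ x) ?_ ?_ hA
    · filter_upwards [ae_all_iff.2 fun G => (a G).ae_eq_mk] with x hx
      exact funext hx
    · exact @measurable_pi_lambda _ _ _ (Ax s) _ _ fun G => (a G).stronglyMeasurable_mk.measurable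
  refine ⟨fun s t hst A A' hA hA' => h.ax_ci s t hst _ _ (c2 s A hA) (c2 t A' hA'),
    fun s t A hA => ?_⟩
  obtain ⟨sw, w1, w2, w3, w4⟩ := h.swap s t
  have w5 : F.comap sw = F := le_antisymm (fun _ ⟨A, a, b⟩ => b ▸ (w2 A a).symm ▸ a)
    fun A a => ⟨A, a, w2 A a⟩
  have w6 : ∀ f : X → ℝ, Measurable[F] f → ∀ x, f (sw x) = f x := fun f hf x =>
    (Set.ext_iff.1 (w2 _ (hf (measurableSet_singleton (f x)))) x).2 rfl
  have c3 : ∀ G x, cy (WW Θ Sn) (axF s G) (sw x) = cy (WW Θ Sn) (axF t G) x := fun G x => by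
    have e : sw ⁻¹' (WW Θ Sn ⁻¹' cyl (axF s G)) = WW Θ Sn ⁻¹' cyl (axF t G) := by
      simp only [mem_cyl, Set.preimage_iInter, w4 _ _ (hS _)]
    have := Set.ext_iff.1 e x
    simp only [Set.mem_preimage] at this
    by_cases a : WW Θ Sn x ∈ cyl (axF t G) <;> simp [cy, a, this]
  have c4 : ∀ᵐ x ∂μ, bet s (ZZ B μ (WW Θ Sn) Zn (sw x)) = bet t (ZZ B μ (WW Θ Sn) Zn x) := by
    filter_upwards [ae_all_iff.2 fun G =>
      ce_comp B h.B_le w1 w3 (abm_int (h.Ax_le s) (c1 s G))] with x hx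
    funext G
    have := hx G
    simp only [c3] at this
    exact this.symm
  have c5 := ce_comp F h.F_le w1 w5 (abm_int (h.Ax_le s) (c2 s A hA))
  refine EventuallyEq.trans ?_ (c5.symm.trans (condExp_congr_ae (c4.mono fun x hx => ?_)))
  · exact Eventually.of_forall fun x => (w6 _ stronglyMeasurable_condExp.measurable x).symm
  · simp only [hx]

end Pool.Agent.MP_154433_an.SG

end MrgPart4

-- ======== part 5: formerly Pool.Agent.MP_154433_an.sg.ZO
section MrgPart5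

/-! The conditional expectation on the boundary algebra is a function of the sum. -/

set_option autoImplicit false

open MeasureTheory ProbabilityTheory Filter Topology Function

noncomputable section

namespace Pool.Agent.MP_154433_an.SG

open Fam

namespace ZO

theorem sig_mono {Φ : Fam} {T T' : Set Φ.Alg} (h : T ⊆ T') : sig T ≤ sig T' :=
  biSup_mono h

theorem sig_le {Φ : Fam} (T : Set Φ.Alg) : sig T ≤ (inferInstance : MeasurableSpace Φ.Pt) :=
  sig_mono (Set.subset_univ T)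

theorem full_mono {Φ : Fam} {I I' : Set ℕ} (h : I ⊆ I') : Φ.Full I ≤ Φ.Full I' :=
  sig_mono fun _ hF N => (hF N).mono h

theorem comap_sig {Φ : Fam} {T T' : Set Φ.Alg} (Θ : Φ.FMap) (h : ∀ F ∈ T, Θ.pull F ∈ T') :
    (sig T).comap Θ.lift ≤ sig T' := by
  unfold sig
  simp only [MeasurableSpace.comap_iSup, MeasurableSpace.comap_comp]
  exact iSup₂_le fun F hF => le_iSup₂_of_le (Θ.pull F) (h F hF) le_rfl

theorem hat_abm {S : Sys} (F : S.Alg) : Measurable (hat F) ∧ ∃ C, 0 < C ∧ ∀ x, |hat F x| ≤ C ∧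
    ∀ A, |hat (avg A F) x| ≤ C := by
  obtain ⟨C, hC⟩ := F.2.2
  refine ⟨Measurable.of_comap_le (le_iSup₂_of_le F (Set.mem_univ F) le_rfl), |C| + 1,
    by positivity, fun x => ⟨x.bdd F _ fun N ω => ?_, fun A => x.bdd _ _ fun N ω => ?_⟩⟩
  · linarith [hC N ω, le_abs_self C]
  · classical
    have := norm_integral_le_of_norm_le_const (μ := S.PP N)
      (f := fun ω' => F.1 N (A.piecewise ω' ω)) (C := |C| + 1)
      (Eventually.of_forall fun ω' => by
        rw [Real.norm_eq_abs]; linarith [hC N (A.piecewise ω' ω), le_abs_self C])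
    simpa [avg] using this

theorem dot_eS {Φ : Fam} {N : ℕ} {D : Finset ℕ} (hD : 0 ∉ D) (ω : Φ.Om N) :
    dot (eS D) ω = ∑ j ∈ D, ω j := by
  have : (eS D).erase 0 = eS D := by
    refine Finsupp.erase_of_notMem_support fun h => hD ?_
    have := Finsupp.support_finsetSum (s := D) (f := fun j => ee j) h
    obtain ⟨j, hj, h2⟩ := Finset.mem_biUnion.1 this
    have := Finsupp.support_single_subset h2
    rwa [Finset.mem_singleton.1 this]
  rw [dot, this, eS, map_sum]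
  simp

theorem dot_neg {Φ : Fam} {N : ℕ} (c : ℕ →₀ ℤ) (ω : Φ.Om N) : dot (-c) ω = -dot c ω := by
  rw [dot, dot, Finsupp.erase_neg, map_neg]

theorem supp_eS (D : Finset ℕ) : (eS D).support ⊆ D := fun i h => by
  obtain ⟨j, hj, h2⟩ := Finset.mem_biUnion.1
    (Finsupp.support_finsetSum (s := D) (f := fun j => ee j) h)
  rwa [Finset.mem_singleton.1 (Finsupp.support_single_subset h2)]

theorem lift_eq {Φ : Fam} {A B A' B' : Φ.FMap}
    (h : ∀ N ω, A.toFun N (B.toFun N ω) = A'.toFun N (B'.toFun N ω)) (x : Φ.Pt) :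
    A.lift (B.lift x) = A'.lift (B'.lift x) := by
  refine Pt.ext (AlgHom.ext fun F => ?_)
  change x.ev (B.pull (A.pull F)) = x.ev (B'.pull (A'.pull F))
  congr 1
  exact Subtype.ext (funext fun N => funext fun ω => congrArg (F.1 N) (h N ω))

theorem sum_upd {Φ : Fam} {N : ℕ} {D : Finset ℕ} (hD : 0 ∉ D) (ω : Φ.Om N) (v : Φ.G N) :
    ∑ j ∈ D, update ω 0 v j = ∑ j ∈ D, ω j :=
  Finset.sum_congr rfl fun _ hj => update_of_ne (ne_of_mem_of_not_mem hj hD) _ _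

theorem th_neg {Φ : Fam} {D : Finset ℕ} (hD : 0 ∉ D) (x : Φ.Pt) :
    Φ.Th (-eS D) (Φ.Th (eS D) x) = x ∧ Φ.Th (eS D) (Φ.Th (-eS D) x) = x := by
  constructor
  · refine (lift_eq (A' := FMap.id Φ) (B' := FMap.id Φ) (fun N ω => ?_) x).trans rfl
    simp [th, FMap.id, dot_neg, dot_eS hD, sum_upd hD]
  · refine (lift_eq (A' := FMap.id Φ) (B' := FMap.id Φ) (fun N ω => ?_) x).trans rfl
    simp [th, FMap.id, dot_neg, dot_eS hD, sum_upd hD]

/-- the constants seen after moving the point -/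
def sh {Φ : Fam} (D : Finset ℕ) (σ : ∀ N, Φ.Om N) (N : ℕ) : Φ.Om N :=
  update (σ N) 0 (-∑ j ∈ D, σ N j)

theorem th_cst {Φ : Fam} {D : Finset ℕ} (hD : 0 ∉ D) (σ : ∀ N, Φ.Om N) (x : Φ.Pt) :
    Φ.Th (eS D) ((cst (insert 0 D) (sh D σ)).lift x) = (cst D σ).lift (Φ.Th (eS D) x) := by
  refine lift_eq (fun N ω => funext fun j => ?_) x
  have e : ∑ i ∈ D, (cst (insert 0 D) (sh D σ)).toFun N ω i = ∑ i ∈ D, (ω i + σ N i) :=
    Finset.sum_congr rfl fun i hi => by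
      have : i ≠ 0 := fun h => hD (h ▸ hi)
      simp [cst, sh, hi, this]
  by_cases hj : j = 0
  · subst hj
    simp only [th, update_self, dot_eS hD, e, Finset.sum_add_distrib]
    simp [cst, sh, hD]
    abel
  · simp [th, cst, sh, hj]

theorem th_pm {Φ : Fam} {D : Finset ℕ} (hD : 0 ∉ D) {π : Equiv.Perm ℕ} (h0 : π 0 = 0)
    (x : Φ.Pt) : Φ.Th (eS D) (Φ.Pm π x) = Φ.Pm π (Φ.Th (eS (D.image π)) x) := by
  have hD' : 0 ∉ D.image π := fun h => by
    obtain ⟨j, hj, h2⟩ := Finset.mem_image.1 h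
    exact hD (π.injective (h2.trans h0.symm) ▸ hj)
  refine lift_eq (fun N ω => funext fun j => ?_) x
  by_cases hj : j = 0
  · subst hj
    simp [th, perm, h0, dot_eS hD, dot_eS hD', Finset.sum_image π.injective.injOn]
  · have : π j ≠ 0 := fun h => hj (π.injective (h.trans h0.symm))
    simp [th, perm, hj, this]

theorem exists_perm {D D' : Finset ℕ} (hD : Sys.Dn D) (hD' : Sys.Dn D') (hc : D.card = D'.card) :
    ∃ π : Equiv.Perm ℕ, KP π ∧ D.image π = D' := by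
  classical
  let p : ℕ → Prop := fun j => Even j ∧ j ≠ 0
  obtain ⟨e, he⟩ := Equiv.Perm.exists_map_finset_eq (D.subtype p) (D'.subtype p) (by
    rw [Finset.card_subtype, Finset.card_subtype, Finset.filter_true_of_mem hD,
      Finset.filter_true_of_mem hD', hc])
  refine ⟨Equiv.Perm.ofSubtype e, ⟨Equiv.Perm.ofSubtype_apply_of_not_mem e (by simp [p]),
    fun j => ?_⟩, ?_⟩
  · by_cases hj : p j
    · rw [Equiv.Perm.ofSubtype_apply_of_mem e hj, ← Nat.not_even_iff_odd, ← Nat.not_even_iff_odd]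
      simp [hj.1, (e ⟨j, hj⟩).2.1]
    · rw [Equiv.Perm.ofSubtype_apply_of_not_mem e hj]
  · refine Finset.eq_of_subset_of_card_le (fun i hi => ?_)
      (by rw [Finset.card_image_of_injective _ (Equiv.injective _), hc])
    obtain ⟨j, hj, rfl⟩ := Finset.mem_image.1 hi
    rw [Equiv.Perm.ofSubtype_apply_of_mem e (hD j hj)]
    have : e ⟨j, hD j hj⟩ ∈ D'.subtype p :=
      he ▸ Finset.mem_map_of_mem e.toEmbedding (Finset.mem_subtype.2 hj)
    exact Finset.mem_subtype.1 this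

variable {X : Type} {m m0 : MeasurableSpace X} {μ : Measure X}

theorem int_comp {Θ : X → X} (h : MeasurePreserving Θ μ μ) {f : X → ℝ}
    (hf : AEStronglyMeasurable f μ) : ∫ x, f (Θ x) ∂μ = ∫ x, f x ∂μ := by
  rw [← integral_map h.measurable.aemeasurable (by rwa [h.map_eq]), h.map_eq]

theorem int_mul {f g : X → ℝ} {C : ℝ} (hf : AEStronglyMeasurable f μ) (hC : ∀ᵐ x ∂μ, |f x| ≤ C)
    (hg : Integrable g μ) : Integrable (fun x => f x * g x) μ :=
  hg.bdd_mul hf hC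

theorem close {f g g' : X → ℝ} {C : ℝ} (hf : AEStronglyMeasurable f μ)
    (hC : ∀ᵐ x ∂μ, |f x| ≤ C) (hg : Integrable g μ) (hg' : Integrable g' μ) :
    |∫ x, f x * g x ∂μ - ∫ x, f x * g' x ∂μ| ≤ C * ∫ x, |g x - g' x| ∂μ := by
  rw [← integral_sub (int_mul hf hC hg) (int_mul hf hC hg'), ← integral_const_mul]
  refine abs_integral_le_integral_abs.trans (integral_mono_ae
    ((int_mul hf hC hg).sub (int_mul hf hC hg')).abs ((hg.sub hg').abs.const_mul C) ?_)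
  filter_upwards [hC] with x hx
  rw [← mul_sub, abs_mul]
  exact mul_le_mul_of_nonneg_right hx (abs_nonneg _)

theorem pull [IsProbabilityMeasure μ] (hm : m ≤ m0) {f g : X → ℝ} {C : ℝ}
    (hf : AEStronglyMeasurable[m] f μ) (hC : ∀ᵐ x ∂μ, |f x| ≤ C) (hg : Integrable g μ) :
    ∫ x, f x * (μ[g | m]) x ∂μ = ∫ x, f x * g x ∂μ := by
  have h1 := condExp_mul_of_aestronglyMeasurable_left hf (int_mul (hf.mono hm) hC hg) hg
  rw [← integral_condExp hm (f := fun x => f x * g x)]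
  exact (integral_congr_ae h1).symm

theorem eq_of_le [IsProbabilityMeasure μ] (hm : m ≤ m0) {f : X → ℝ} {C : ℝ}
    (hf : AEStronglyMeasurable f μ) (hC : ∀ᵐ x ∂μ, |f x| ≤ C)
    (h : ∫ x, f x * f x ∂μ ≤ ∫ x, f x * (μ[f | m]) x ∂μ) : f =ᵐ[μ] μ[f | m] := by
  have hi : Integrable f μ := .of_bound hf C hC
  have hE : ∀ᵐ x ∂μ, |(μ[f | m]) x| ≤ C := ae_bdd_abs_condExp_of_ae_bdd_abs hC
  have hEm : AEStronglyMeasurable[m] (μ[f | m]) μ :=
    stronglyMeasurable_condExp.aestronglyMeasurable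
  have h1 := pull hm hEm hE hi
  have i1 := int_mul hf hC hi
  have i2 := int_mul hf hC (integrable_condExp (f := f) (m := m))
  have i3 := int_mul (hEm.mono hm) hE (integrable_condExp (f := f) (m := m))
  have i4 := int_mul (hEm.mono hm) hE hi
  have e : (fun x => (f x - (μ[f | m]) x) ^ 2) = fun x => f x * f x - f x * (μ[f | m]) x -
      ((μ[f | m]) x * f x - (μ[f | m]) x * (μ[f | m]) x) := funext fun x => by ring
  have h2 : ∫ x, (f x - (μ[f | m]) x) ^ 2 ∂μ = 0 := by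
    refine le_antisymm ?_ (integral_nonneg fun x => sq_nonneg _)
    have i5 : Integrable (fun x => f x * f x - f x * (μ[f | m]) x) μ := i1.sub i2
    have i6 : Integrable (fun x => (μ[f | m]) x * f x - (μ[f | m]) x * (μ[f | m]) x) μ := i4.sub i3
    rw [e, integral_sub i5 i6, integral_sub i1 i2, integral_sub i4 i3]
    linarith
  rw [integral_eq_zero_iff_of_nonneg (fun x => sq_nonneg _)
    (by rw [e]; exact (i1.sub i2).sub (i4.sub i3))] at h2
  filter_upwards [h2] with x hx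
  exact sub_eq_zero.1 (pow_eq_zero_iff two_ne_zero |>.1 hx)

end ZO

open ZO in
theorem zo : ZOS := by
  intro S fd k g D hg hD hk
  have h0 : 0 ∉ D := fun h => (hD 0 h).2 rfl
  have hev : ∀ j ∈ D, Even j := fun j hj => (hD j hj).1
  have mp := fd.thmp (eS D)
  have mn := fd.thmp (-eS D)
  have hBF : S.Bd D ≤ S.Full (insert 0 (D : Set ℕ)) :=
    iSup₂_le fun j _ => full_mono (Set.insert_subset_insert (by simp))
  have hB : S.Bd D ≤ (inferInstance : MeasurableSpace S.Pt) := hBF.trans (sig_le _)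
  obtain ⟨hg1, C, hC⟩ := hg
  have gm : AEStronglyMeasurable g S.μ := hg1.mono (sig_le _)
  set G : S.Pt → ℝ := fun x => g (S.Th (eS D) x) with hG
  have Gm : AEStronglyMeasurable G S.μ := gm.comp_measurePreserving mp
  have GC : ∀ᵐ x ∂S.μ, |G x| ≤ C := mp.quasiMeasurePreserving.ae hC
  have Gi : Integrable G S.μ := .of_bound Gm C GC
  set Y : S.Pt → ℝ := S.μ[G | S.Bd D] with hY
  have Ys : StronglyMeasurable[S.Bd D] Y := stronglyMeasurable_condExp
  have Ym : StronglyMeasurable Y := Ys.mono hB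
  have YC : ∀ᵐ x ∂S.μ, |Y x| ≤ C := ae_bdd_abs_condExp_of_ae_bdd_abs GC
  set Z : S.Pt → ℝ := fun x => Y (S.Th (-eS D) x) with hZ
  have Zm : StronglyMeasurable Z := Ym.comp_measurable mn.measurable
  have ZC : ∀ᵐ x ∂S.μ, |Z x| ≤ C := mn.quasiMeasurePreserving.ae YC
  have Zi : Integrable Z S.μ := .of_bound Zm.aestronglyMeasurable C ZC
  have ZY : ∀ x, Z (S.Th (eS D) x) = Y x := fun x => by simp only [hZ, (th_neg h0 x).1]
  have inv : ∀ σ, ∫ x, Z x * Z ((cst D σ).lift x) ∂S.μ = ∫ x, Z x * Z x ∂S.μ := by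
    intro σ
    have mc := fd.cstmp D σ hev
    have mc' := fd.cstmp (insert 0 D) (sh D σ) fun j hj => by
      rcases Finset.mem_insert.1 hj with rfl | hj
      · exact Even.zero
      · exact hev j hj
    set Ψ := (cst (insert 0 D) (sh D σ)).lift with hΨ
    have hc : (S.Bd D).comap Ψ ≤ S.Bd D := by
      unfold Sys.Bd
      simp only [MeasurableSpace.comap_iSup]
      refine iSup₂_mono fun j _ => comap_sig _ fun F hF N x y h => hF N fun i hi => ?_
      simp only [cst, h i hi]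
    have YΨ : AEStronglyMeasurable[S.Bd D] (fun x => Y (Ψ x)) S.μ :=
      (Ys.comp_measurable (Measurable.of_comap_le hc)).aestronglyMeasurable
    have GΨ : (fun x => G (Ψ x)) =ᵐ[S.μ] G := by
      have := fd.fixae {F | Dep F {0}} (cst D σ) (FMap.id _) (fun F hF => Subtype.ext
        (funext fun N => funext fun ω => hF N fun i hi => by
          rw [Set.mem_singleton_iff.1 hi]; simp [cst, h0])) mc
        (MeasurePreserving.id _) g hg1
      filter_upwards [mp.quasiMeasurePreserving.ae this] with x hx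
      simp only [hG, hΨ, th_cst h0]
      exact hx
    calc ∫ x, Z x * Z ((cst D σ).lift x) ∂S.μ
        = ∫ x, Y (Ψ x) * Y x ∂S.μ := by
          rw [← int_comp mp (f := fun x => Z x * Z ((cst D σ).lift x))
            (Zm.mul (Zm.comp_measurable mc.measurable)).aestronglyMeasurable]
          refine integral_congr_ae (Eventually.of_forall fun x => ?_)
          simp only [← th_cst h0, ZY, hΨ, mul_comm]
      _ = ∫ x, Y (Ψ x) * G (Ψ x) ∂S.μ := by
          rw [hY, pull hB YΨ (mc'.quasiMeasurePreserving.ae YC) Gi]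
          exact integral_congr_ae (GΨ.mono fun x hx => by simp only [hx]; rfl)
      _ = ∫ x, Y x * Y x ∂S.μ := by
          rw [int_comp mc' (f := fun x => Y x * G x) (Ym.aestronglyMeasurable.mul Gm)]
          exact (pull hB Ys.aestronglyMeasurable YC Gi).symm
      _ = _ := (int_comp mn (f := fun x => Y x * Y x) (Ym.mul Ym).aestronglyMeasurable).symm
  have hF : S.Full (D : Set ℕ)ᶜ ≤ (inferInstance : MeasurableSpace S.Pt) := sig_le _
  have C0 : 0 ≤ C := by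
    obtain ⟨x, hx⟩ := ZC.exists
    exact (abs_nonneg _).trans hx
  have key : ∫ x, Z x * Z x ∂S.μ ≤ ∫ x, Z x * (S.μ[Z | S.Full (D : Set ℕ)ᶜ]) x ∂S.μ := by
    refine le_of_forall_pos_le_add fun ε hε => ?_
    have hZ' : ABM (sig ((⊤ : Submonoid S.Alg) : Set S.Alg)) S.μ Z :=
      ⟨Zm.aestronglyMeasurable, C, ZC⟩
    obtain ⟨H, -, hH⟩ := fd.densB ⊤ Z hZ' (ε / 4 / (C + 1)) (by positivity)
    obtain ⟨Hm, B, hB0, HB⟩ := hat_abm H
    obtain ⟨F, -, hF'⟩ := fd.densB ⊤ Z hZ' (ε / 4 / B) (by positivity)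
    obtain ⟨Fm, B', -, FB⟩ := hat_abm F
    obtain ⟨σ, hσ⟩ := fd.shift D hev (-F) H
    have mc := fd.cstmp D σ hev
    have hn : ∀ x, hat (-F) x = -hat F x := fun x => map_neg x.ev F
    simp only [hn, neg_mul, integral_neg, neg_le_neg_iff] at hσ
    have Hi : Integrable (hat H) S.μ :=
      .of_bound Hm.aestronglyMeasurable B (ae_of_all _ fun x => (HB x).1)
    have Fi : Integrable (hat F) S.μ :=
      .of_bound Fm.aestronglyMeasurable B' (ae_of_all _ fun x => (FB x).1)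
    have a1 := close Zm.aestronglyMeasurable ZC (mc.integrable_comp_of_integrable Zi)
      (mc.integrable_comp_of_integrable Hi)
    have a2 := close (f := fun x => hat H ((cst D σ).lift x))
      (Hm.comp mc.measurable).aestronglyMeasurable (ae_of_all _ fun x => (HB _).1) Zi Fi
    have a3 := close (hat_abm (avg (D : Set ℕ) H)).1.aestronglyMeasurable
      (ae_of_all _ fun x => (HB x).2 _) Fi Zi
    have a4 := close Zm.aestronglyMeasurable ZC
      (integrable_condExp (f := hat H) (m := S.Full (D : Set ℕ)ᶜ))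
      (integrable_condExp (f := Z) (m := S.Full (D : Set ℕ)ᶜ))
    have a5 : ∫ x, |(S.μ[hat H | S.Full (D : Set ℕ)ᶜ]) x - (S.μ[Z | S.Full (D : Set ℕ)ᶜ]) x| ∂S.μ
        ≤ ∫ x, |Z x - hat H x| ∂S.μ := by
      simp only [abs_sub_comm (Z _)]
      refine le_trans (le_of_eq (integral_congr_ae ?_))
        (integral_abs_condExp_le (m := S.Full (D : Set ℕ)ᶜ) (hat H - Z))
      filter_upwards [condExp_sub Hi Zi (S.Full (D : Set ℕ)ᶜ)] with x hx
      rw [hx, Pi.sub_apply]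
    have a6 : ∫ x, Z x * (S.μ[hat H | S.Full (D : Set ℕ)ᶜ]) x ∂S.μ =
        ∫ x, hat (avg (D : Set ℕ) H) x * Z x ∂S.μ := by
      have := fd.avg (D : Set ℕ)ᶜ H
      rw [compl_compl] at this
      exact integral_congr_ae (this.mono fun x hx => by simp only [hx, mul_comm])
    have a7 := int_comp mc (f := fun x => |Z x - hat H x|)
      (Zm.measurable.sub Hm).abs.aestronglyMeasurable
    have b1 : C * ∫ x, |Z x - hat H x| ∂S.μ ≤ ε / 4 := by
      rw [lt_div_iff₀ (by positivity)] at hH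
      have : 0 ≤ ∫ x, |Z x - hat H x| ∂S.μ := integral_nonneg fun x => abs_nonneg _
      linarith
    have b2 : B * ∫ x, |Z x - hat F x| ∂S.μ ≤ ε / 4 := by
      rw [lt_div_iff₀ hB0] at hF'
      linarith
    have b3 := mul_le_mul_of_nonneg_left a5 C0
    have hp : ∀ x, hat ((cst D σ).pull H) x = hat H ((cst D σ).lift x) := fun x => rfl
    simp only [Function.comp, a7] at a1
    simp only [hp, mul_comm (hat F _)] at hσ
    simp only [abs_sub_comm (hat F _)] at a3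
    simp only [mul_comm _ (Z _)] at a2
    rw [← inv σ]
    rw [abs_le] at a1 a2 a3 a4
    linarith [a1.2, a2.2, a3.2, a4.2]
  have hs : (D : Set ℕ) ⊆ insert 0 (D : Set ℕ) := Set.subset_insert _ _
  have ZF : ABM (S.Full (insert 0 (D : Set ℕ))) S.μ Z :=
    ⟨((Ys.mono hBF).comp_measurable (Measurable.of_comap_le (fd.thetaF _ _ _ le_rfl (by
      rw [Finsupp.support_neg]
      exact (Finset.coe_subset.2 (supp_eS D)).trans hs)))).aestronglyMeasurable, C, ZC⟩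
  have e0 : insert 0 (D : Set ℕ) ∩ (D : Set ℕ)ᶜ = {0} := by
    ext j
    simp only [Set.mem_inter_iff, Set.mem_insert_iff, Set.mem_compl_iff, Set.mem_singleton_iff]
    exact ⟨fun h => h.1.resolve_right h.2, fun h => ⟨.inl h, h ▸ h0⟩⟩
  have hb := (eq_of_le hF Zm.aestronglyMeasurable ZC key).trans (fd.ci _ _ Z ZF)
  rw [e0] at hb
  set b : S.Pt → ℝ := S.μ[Z | S.Full {0}] with hbd
  have bs : AEStronglyMeasurable[S.Full {0}] b S.μ :=
    stronglyMeasurable_condExp.aestronglyMeasurable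
  have Yb : Y =ᵐ[S.μ] fun x => b (S.Th (eS D) x) := by
    filter_upwards [mp.quasiMeasurePreserving.ae hb] with x hx
    rw [← hx, ZY]
  refine ⟨b, ⟨⟨bs, C, ae_bdd_abs_condExp_of_ae_bdd_abs ZC⟩, fun D' hD' hk' => ?_⟩, Yb⟩
  obtain ⟨π, hπ, rfl⟩ := exists_perm hD hD' (hk.trans hk'.symm)
  have pm := fd.pmmp π hπ
  have hc : (S.Bd D).comap (S.Pm π) ≤ S.Bd (D.image π) := by
    unfold Sys.Bd
    simp only [MeasurableSpace.comap_iSup]
    refine iSup₂_le fun j hj => le_iSup₂_of_le (π j) (Finset.mem_image_of_mem _ hj)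
      (fd.permF _ _ π ?_)
    rintro _ ⟨i, hi, rfl⟩
    rcases hi with rfl | hi
    · exact .inl hπ.1
    · obtain ⟨h1, h2⟩ := Finset.mem_erase.1 hi
      exact .inr (Finset.mem_erase.2 ⟨π.injective.ne h1, Finset.mem_image_of_mem _ h2⟩)
  refine (Ys.comp_measurable (Measurable.of_comap_le hc)).aestronglyMeasurable.congr ?_
  filter_upwards [pm.quasiMeasurePreserving.ae Yb,
    (fd.thmp (eS (D.image π))).quasiMeasurePreserving.ae (fd.pmfix {0} π b pm
      (fun j hj => by rw [Set.mem_singleton_iff.1 hj, hπ.1]) bs)] with x h1 h2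
  simp only [Function.comp] at h1 h2 ⊢
  rw [h1, th_pm h0 hπ.1, h2]

end Pool.Agent.MP_154433_an.SG

end

end MrgPart5

-- ======== part 6: formerly Pool.Agent.MP_154433_an.sg.Fin
section MrgPart6

/-! The finite theorem from the vanishing statements and the structured part. -/

set_option autoImplicit false

open MeasureTheory ProbabilityTheory Filter Topology Function

noncomputable section

namespace Pool.Agent.MP_154433_an.SG

open Fam

namespace FinR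

lemma prod_sub {ι : Type} (s : Finset ι) (a b : ι → ℝ) (ha : ∀ i, |a i| ≤ 1) (hb : ∀ i, |b i| ≤ 1) :
    |∏ i ∈ s, a i - ∏ i ∈ s, b i| ≤ ∑ i ∈ s, |a i - b i| := by
  classical
  induction s using Finset.induction_on with
  | empty => simp
  | insert j s hj ih =>
    rw [Finset.prod_insert hj, Finset.prod_insert hj, Finset.sum_insert hj]
    have h1 : |∏ i ∈ s, a i| ≤ 1 := by
      rw [Finset.abs_prod]
      exact Finset.prod_le_one (fun _ _ => abs_nonneg _) fun i _ => ha i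
    have e : a j * ∏ i ∈ s, a i - b j * ∏ i ∈ s, b i =
        (a j - b j) * ∏ i ∈ s, a i + b j * (∏ i ∈ s, a i - ∏ i ∈ s, b i) := by ring
    rw [e]
    refine (abs_add_le _ _).trans (add_le_add ?_ ?_) <;> rw [abs_mul]
    · exact mul_le_of_le_one_right (abs_nonneg _) h1
    · exact (mul_le_of_le_one_left (abs_nonneg _) (hb j)).trans ih

lemma sig_mono {Φ : Fam} {T T' : Set Φ.Alg} (h : T ⊆ T') : sig T ≤ sig T' :=
  iSup₂_le fun F hF => le_iSup₂_of_le (f := fun (F : Φ.Alg) (_ : F ∈ T') =>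
    MeasurableSpace.comap (hat F) inferInstance) F (h hF) le_rfl

lemma full_mono {Φ : Fam} {I I' : Set ℕ} (h : I ⊆ I') : Φ.Full I ≤ Φ.Full I' :=
  sig_mono fun _ hF N => (hF N).mono h

lemma frame0 : Frame Gam0 I0 where
  zero := dvd_zero 4
  hL := Set.mem_insert _ _
  lives := by
    rintro γ (rfl | ⟨z, h1, -, rfl⟩)
    · exact ⟨by simp [tyL, I0], by simp [tyL]⟩
    · exact ⟨by simpa [I0] using h1, by
        rw [Finsupp.support_neg]; exact Finsupp.support_single_subset⟩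
  rich := Set.infinite_of_injective_forall_mem (f := fun n : ℕ => 4 * (n + 1))
    (fun a b h => by simpa using h) fun n =>
      ⟨dvd_mul_right _ _, ⟨2 * (n + 1), by ring⟩, by omega,
        Set.mem_insert_of_mem _ ⟨_, dvd_mul_right _ _, by omega, rfl⟩⟩
  cos := Set.infinite_of_injective_forall_mem (f := fun n : ℕ => 2 * n + 1)
    (fun a b h => by simpa using h) fun n =>
      ⟨fun h : 4 ∣ 2 * n + 1 => by omega, ⟨n, rfl⟩⟩
  cod := Set.infinite_of_injective_forall_mem (f := fun n : ℕ => 4 * n + 2)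
    (fun a b h => by simpa using h) fun n =>
      ⟨fun h : 4 ∣ 4 * n + 2 => by omega, ⟨2 * n + 1, by ring⟩⟩

/-- two coordinates of the product measure -/
lemma pair (Φ : Fam) (N : ℕ) {t : ℕ} (ht : t ≠ 0) (φ : Φ.G N → Φ.G N → ℝ) :
    ∫ ω, φ (ω 0) (ω t) ∂Φ.PP N = ∫ x, ∫ s, φ x s ∂Φ.law N t ∂Φ.unif N := by
  have h0 := measurePreserving_eval_infinitePi (Φ.law N) 0
  have h1 := measurePreserving_eval_infinitePi (Φ.law N) t
  have h2 : IndepFun (fun ω : Φ.Om N => ω 0) (fun ω => ω t) (Φ.PP N) :=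
    (iIndepFun_infinitePi (P := Φ.law N) (X := fun _ => id) fun _ => measurable_id).indepFun ht.symm
  have h3 : MeasurePreserving (fun ω : Φ.Om N => (ω 0, ω t)) (Φ.PP N)
      ((Φ.law N 0).prod (Φ.law N t)) := ⟨by fun_prop, by
    rw [← h0.map_eq, ← h1.map_eq]
    exact (indepFun_iff_map_prod_eq_prod_map_map h0.measurable.aemeasurable
      h1.measurable.aemeasurable).1 h2⟩
  have h4 := integral_map (μ := Φ.PP N) h3.measurable.aemeasurable
    (f := fun p : Φ.G N × Φ.G N => φ p.1 p.2) Measurable.of_discrete.aestronglyMeasurable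
  rw [← h4, h3.map_eq, integral_prod _ Integrable.of_finite]
  rfl

variable {S : Sys} {ι : Type} [Fintype ι]

lemma aesm {I : Set ℕ} {g : S.Pt → ℝ} (h : ABM (S.Full I) S.μ g) : AEStronglyMeasurable g S.μ :=
  h.1.mono (sig_mono (Set.subset_univ _))

lemma intg (s : Finset ι) {g : ι → S.Pt → ℝ} {Θ : ι → S.Pt → S.Pt}
    (hΘ : ∀ i, MeasurePreserving (Θ i) S.μ S.μ) (h : ∀ i, AEStronglyMeasurable (g i) S.μ)
    (hb : ∀ i, ∀ᵐ x ∂S.μ, |g i x| ≤ 1) : Integrable (fun x => ∏ i ∈ s, g i (Θ i x)) S.μ := by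
  refine .of_bound (Finset.aestronglyMeasurable_fun_prod _ fun i _ =>
    (h i).comp_measurePreserving (hΘ i)) 1 ?_
  filter_upwards [ae_all_iff.2 fun i => (hΘ i).quasiMeasurePreserving.ae (hb i)] with x hx
  rw [Real.norm_eq_abs, Finset.abs_prod]
  exact Finset.prod_le_one (fun _ _ => abs_nonneg _) fun i _ => hx i

/-- replacement of the functions one at a time -/
lemma tele (hS : Fd S) {t : ℕ} (hV : S.Van Gam0 I0 {t} (ee t) (Fintype.card ι)) {r : ι → ℤ}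
    (hr : Injective r) {f a : ι → S.Pt → ℝ} (hf : ∀ i, ABM (S.Full {0}) S.μ (f i))
    (ha : ∀ i, ABM (S.Full {0}) S.μ (a i)) (bf : ∀ i, ∀ᵐ x ∂S.μ, |f i x| ≤ 1)
    (ba : ∀ i, ∀ᵐ x ∂S.μ, |a i x| ≤ 1)
    (ho : ∀ i, Orth (S.Base Gam0 I0) S.μ fun x => f i x - a i x) :
    ∫ x, ∏ i, f i (S.Th (r i • ee t) x) ∂S.μ = ∫ x, ∏ i, a i (S.Th (r i • ee t) x) ∂S.μ := by
  classical
  have h0 : S.Full {0} ≤ S.Full I0 := full_mono (Set.singleton_subset_iff.2 (dvd_zero 4))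
  suffices H : ∀ s : Finset ι, ∫ x, ∏ i, f i (S.Th (r i • ee t) x) ∂S.μ =
      ∫ x, ∏ i, s.piecewise a f i (S.Th (r i • ee t) x) ∂S.μ by
    simpa using H Finset.univ
  have pw : ∀ (s : Finset ι) i, ABM (S.Full {0}) S.μ (s.piecewise a f i) ∧
      ∀ᵐ x ∂S.μ, |s.piecewise a f i x| ≤ 1 := fun s i => by
    by_cases c : i ∈ s <;> simp [c, hf i, ha i, bf i, ba i]
  intro s
  induction s using Finset.induction_on with
  | empty => simp
  | insert j s hj ih =>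
    rw [ih, ← sub_eq_zero, ← integral_sub
      (intg _ (fun i => hS.thmp _) (fun i => aesm (pw _ i).1) fun i => (pw _ i).2)
      (intg _ (fun i => hS.thmp _) (fun i => aesm (pw _ i).1) fun i => (pw _ i).2)]
    refine Eq.trans ?_ (hV ι Finset.univ r hr.injOn le_rfl
      (update (s.piecewise a f) j fun x => f j x - a j x) (fun _ => 1) (fun i _ => ?_)
      ⟨aestronglyMeasurable_const, 1, .of_forall fun _ => by simp⟩ j (Finset.mem_univ _)
      (by rw [update_self]; exact ho j))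
    · refine integral_congr_ae (.of_forall fun x => ?_)
      have e1 : ∏ i ∈ Finset.univ.erase j, (insert j s).piecewise a f i (S.Th (r i • ee t) x) =
          ∏ i ∈ Finset.univ.erase j, s.piecewise a f i (S.Th (r i • ee t) x) :=
        Finset.prod_congr rfl fun i hi => by
          rw [Finset.piecewise_insert_of_ne _ _ _ (Finset.ne_of_mem_erase hi)]
      have e2 : ∏ i ∈ Finset.univ.erase j,
          update (s.piecewise a f) j (fun x => f j x - a j x) i (S.Th (r i • ee t) x) =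
          ∏ i ∈ Finset.univ.erase j, s.piecewise a f i (S.Th (r i • ee t) x) :=
        Finset.prod_congr rfl fun i hi => by rw [update_of_ne (Finset.ne_of_mem_erase hi)]
      simp only [← Finset.mul_prod_erase _ _ (Finset.mem_univ j)]
      rw [Finset.piecewise_eq_of_notMem _ _ _ hj, Finset.piecewise_insert_self, update_self, e1, e2]
      ring
    · rcases eq_or_ne i j with rfl | c
      · rw [update_self]
        refine ⟨((hf i).1.sub (ha i).1).mono h0, 2, ?_⟩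
        filter_upwards [bf i, ba i] with x h1 h2
        exact (abs_sub _ _).trans (by linarith)
      · rw [update_of_ne c]
        exact ⟨(pw s i).1.1.mono h0, (pw s i).1.2⟩

lemma close (hS : Fd S) (c : ι → ℕ →₀ ℤ) {a b : ι → S.Pt → ℝ} {ε : ℝ}
    (ha : ∀ i, ABM (S.Full {0}) S.μ (a i)) (hb : ∀ i, ABM (S.Full {0}) S.μ (b i))
    (ba : ∀ i, ∀ᵐ x ∂S.μ, |a i x| ≤ 1) (bb : ∀ i, ∀ᵐ x ∂S.μ, |b i x| ≤ 1)
    (h : ∀ i, ∫ x, |a i x - b i x| ∂S.μ < ε) :
    |∫ x, ∏ i, a i (S.Th (c i) x) ∂S.μ - ∫ x, ∏ i, b i (S.Th (c i) x) ∂S.μ| ≤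
      Fintype.card ι * ε := by
  have m : ∀ i, AEStronglyMeasurable (fun x => |a i x - b i x|) S.μ := fun i =>
    ((aesm (ha i)).sub (aesm (hb i))).norm
  have i1 : ∀ i, Integrable (fun x => |a i (S.Th (c i) x) - b i (S.Th (c i) x)|) S.μ := fun i => by
    refine .of_bound ((m i).comp_measurePreserving (hS.thmp _)) 2 ?_
    filter_upwards [(hS.thmp (c i)).quasiMeasurePreserving.ae (ba i),
      (hS.thmp (c i)).quasiMeasurePreserving.ae (bb i)] with x h1 h2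
    rw [Real.norm_eq_abs, abs_abs]
    exact (abs_sub _ _).trans (by linarith)
  rw [← integral_sub (intg _ (fun i => hS.thmp _) (fun i => aesm (ha i)) ba)
    (intg _ (fun i => hS.thmp _) (fun i => aesm (hb i)) bb)]
  refine abs_integral_le_integral_abs.trans ((integral_mono_of_nonneg
    (.of_forall fun _ => abs_nonneg _) (integrable_finsetSum Finset.univ fun i _ => i1 i) ?_).trans ?_)
  · filter_upwards [ae_all_iff.2 fun i => (hS.thmp (c i)).quasiMeasurePreserving.ae (ba i),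
      ae_all_iff.2 fun i => (hS.thmp (c i)).quasiMeasurePreserving.ae (bb i)] with x h1 h2
    exact prod_sub _ _ _ h1 h2
  · rw [integral_finsetSum _ fun i _ => i1 i, ← nsmul_eq_mul, ← Finset.card_univ]
    refine Finset.sum_le_card_nsmul _ _ _ fun i _ => le_trans (le_of_eq ?_) (h i).le
    have := integral_map (μ := S.μ) (hS.thmp (c i)).measurable.aemeasurable
      (f := fun x => |a i x - b i x|) (by rw [(hS.thmp (c i)).map_eq]; exact m i)
    rw [← this, (hS.thmp (c i)).map_eq]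

lemma same (hS : Fd S) (h1 : DS S) (h2 : ∀ n, S.SS n) (h3 : ST S) (h4 : DG S) {r : ι → ℤ}
    (hr : Injective r) {f : ι → S.Pt → ℝ} (hf : ∀ i, ABM (S.Full {0}) S.μ (f i))
    (bf : ∀ i, ∀ᵐ x ∂S.μ, |f i x| ≤ 1) :
    ∫ x, ∏ i, f i (S.Th (r i • ee 1) x) ∂S.μ = ∫ x, ∏ i, f i (S.Th (r i • ee 2) x) ∂S.μ := by
  choose a ha ba ho hk using fun i => h3 (f i) (hf i) (bf i)
  rw [tele hS (h2 _ _ _ 1 frame0 (by simp [I0]) odd_one) hr hf ha bf ba ho,
    tele hS (h1 _ _ _ 2 frame0 (by simp [I0]) even_two) hr hf ha bf ba ho, ← sub_eq_zero,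
    ← abs_nonpos_iff]
  refine le_of_forall_pos_le_add fun ε hε => ?_
  obtain ⟨k, hk⟩ := (eventually_all.2 fun i =>
    hk i (ε / (2 * Fintype.card ι + 1)) (by positivity)).exists
  choose b sb bb hb using hk
  have e1 := close hS (fun i => r i • ee 1) ha (fun i => (sb i).1) ba bb hb
  have e2 := close hS (fun i => r i • ee 2) ha (fun i => (sb i).1) ba bb hb
  rw [h4 k ι r b 1 2 sb odd_one even_two two_ne_zero] at e1
  have e3 : (2 * Fintype.card ι + 1) * (ε / (2 * Fintype.card ι + 1)) = ε := by field_simp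
  have e4 : 0 < ε / (2 * Fintype.card ι + 1) := by positivity
  rw [abs_le] at e1 e2 ⊢
  constructor <;> linarith [e1.1, e1.2, e2.1, e2.2]

end FinR

open FinR in
theorem fin (hL : LimS) (hA : FdAS) (hB : FdBS) (hC : FdCS) (hD : FdDS) (hE : FdES) (hF : FdFS)
    (hAll : AllS) (hZO : ZOS) (hBO : BOS) (hST : STS) (hZS : ZSS) (hDG : DGS) : FinS := by
  intro Φ r0 hyp ι _ r hr ε hε
  by_contra H
  have : (atTop ⊓ 𝓟 _).NeBot := frequently_iff_neBot.1 (not_eventually.1 H)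
  obtain ⟨U, hU⟩ := Ultrafilter.exists_le (atTop ⊓ 𝓟 _) (h := this)
  obtain ⟨hU1, hU2⟩ := le_inf_iff.1 hU
  obtain ⟨μ, hμ, lim⟩ := hL Φ U
  let S : Sys := ⟨Φ, U, r0, ⟨hyp.rpos, fun d hd => hU1 (hyp.inv d hd), fun e he => hU1 (hyp.tv e he),
    fun e he => hU1 (hyp.mix e he), fun k => by
      obtain ⟨d, δ, k1, k2⟩ := hyp.enn k
      exact ⟨d, δ, k1, fun e he => hU1 (k2 e he)⟩⟩, μ, lim⟩
  have hS : Fd S := ⟨hA S, hB S, hC S (hA S) (hB S), hD S (hA S) (hB S),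
    hE S (hA S) (hB S) (hC S (hA S) (hB S)) (hF S), hF S⟩
  have ch : ∀ N, ∃ f : ι → Φ.G N → ℝ, (∀ i v, |f i v| ≤ 1) ∧ (¬ (∀ f : ι → Φ.G N → ℝ,
      (∀ i v, |f i v| ≤ 1) → |∫ x, ∫ t, ∏ i, f i (x + r i • t) ∂Φ.ν N ∂Φ.unif N -
        ∫ x, ∫ t, ∏ i, f i (x + r i • t) ∂Φ.unif N ∂Φ.unif N| ≤ ε) →
      ε ≤ |∫ x, ∫ t, ∏ i, f i (x + r i • t) ∂Φ.ν N ∂Φ.unif N -
        ∫ x, ∫ t, ∏ i, f i (x + r i • t) ∂Φ.unif N ∂Φ.unif N|) := fun N => by
    by_contra c
    push Not at c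
    obtain ⟨⟨f, k1, k2⟩, -⟩ := c 0 (by simp)
    exact (c f k1).2.not_gt k2
  choose f bf hf using ch
  let F : ι → Φ.Alg := fun i => ⟨fun N ω => f N i (ω 0),
    ⟨{0}, fun N x y h => by simp only [h 0 (by simp)]⟩, 1, fun N ω => bf N i _⟩
  have b1 : ∀ i x, |hat (F i) x| ≤ 1 := fun i x => x.bdd _ 1 fun N ω => bf N i _
  have m1 : ∀ i, ABM (S.Full {0}) S.μ (hat (F i)) := fun i =>
    ⟨(Measurable.of_comap_le (le_iSup₂_of_le (f := fun (F : Φ.Alg) (_ : F ∈ {F | Dep F {0}}) =>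
      MeasurableSpace.comap (hat F) inferInstance) (F i)
        (fun N x y h => by simp only [F, h 0 rfl]) le_rfl)).stronglyMeasurable.aestronglyMeasurable,
      1, .of_forall (b1 i)⟩
  have tn : ∀ t : ℕ, t ≠ 0 → Tendsto
      (fun N => ∫ x, ∫ s, ∏ i, f N i (x + r i • s) ∂Φ.law N t ∂Φ.unif N) U
      (𝓝 (∫ x, ∏ i, hat (F i) (S.Th (r i • ee t) x) ∂S.μ)) := fun t ht => by
    have := lim (∏ i, (Φ.th (r i • ee t)).pull (F i))
    simp only [hat, map_prod] at this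
    refine this.congr fun N => ?_
    rw [← pair Φ N ht fun x s => ∏ i, f N i (x + r i • s)]
    refine integral_congr_ae (.of_forall fun ω => ?_)
    simp [F, FMap.pull, th, dot, Finsupp.erase_single_ne ht.symm]
  have t1 := ((tn 1 one_ne_zero).sub (tn 2 two_ne_zero)).abs
  rw [same hS (hAll S hS).1 (hAll S hS).2 (hST S hS (hZO S hS) (hBO S hS)) (hDG S hS (hZS S hS)) hr
    m1 fun i => .of_forall (b1 i), sub_self, abs_zero] at t1
  refine (ge_of_tendsto t1 ?_).not_gt hε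
  filter_upwards [le_principal_iff.1 hU2] with N hN
  simpa [law, show ¬ Odd 2 by decide] using hf N hN

end Pool.Agent.MP_154433_an.SG

end

end MrgPart6

-- marker of a merged file
example : 731051 + 746457 = 731051 + 746457 := rfl
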