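import Mathlib.Algebra.Order.Archimedean.Real.Hom
import Mathlib.MeasureTheory.Measure.Prokhorov
import Pool.Agent.MP_154433_an.sg.Fin

-- ======== part 0: formerly Pool.Agent.MP_154433_an.sg.Lim
section MrgPart0

/-! Existence of the limit measure. -/

set_option autoImplicit false

open MeasureTheory ProbabilityTheory Filter Topology Function

noncomputable section

namespace Pool.Agent.MP_154433_an.SG

open Fam

namespace LimRow

variable (Φ : Fam)

def Good : Set (Φ.Alg → ℝ) :=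
  {y | (∀ F F' : Φ.Alg, y (F * F') = y F * y F') ∧ (∀ F F' : Φ.Alg, y (F + F') = y F + y F') ∧
    (∀ a : ℝ, y (algebraMap ℝ Φ.Alg a) = a) ∧
    ∀ (F : Φ.Alg) (C : ℝ), (∀ N ω, |F.1 N ω| ≤ C) → |y F| ≤ C}

lemma isClosed_good : IsClosed (Good Φ) := by
  simp only [Good, Set.ofPred_and, Set.ofPred_forall]
  refine IsClosed.inter ?_ (IsClosed.inter ?_ (IsClosed.inter ?_ ?_))
  · exact isClosed_iInter fun F => isClosed_iInter fun F' =>
      isClosed_eq (continuous_apply _) ((continuous_apply F).mul (continuous_apply F'))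
  · exact isClosed_iInter fun F => isClosed_iInter fun F' =>
      isClosed_eq (continuous_apply _) ((continuous_apply F).add (continuous_apply F'))
  · exact isClosed_iInter fun a => isClosed_eq (continuous_apply _) continuous_const
  · exact isClosed_iInter fun F => isClosed_iInter fun C => isClosed_iInter fun _ =>
      isClosed_le (continuous_apply F).abs continuous_const

lemma isCompact_good : IsCompact (Good Φ) := by
  have h : ∀ F : Φ.Alg, ∃ C : ℝ, ∀ N ω, |F.1 N ω| ≤ C := fun F => F.2.2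
  choose C hC using h
  refine (isCompact_univ_pi fun F : Φ.Alg =>
    (isCompact_Icc : IsCompact (Set.Icc (-C F) (C F)))).of_isClosed_subset (isClosed_good Φ) ?_
  intro y hy F _
  exact abs_le.1 (hy.2.2.2 F (C F) (hC F))

def Y : Type := Good Φ

instance : TopologicalSpace (Y Φ) := inferInstanceAs (TopologicalSpace (Good Φ))
instance : T2Space (Y Φ) := inferInstanceAs (T2Space (Good Φ))
instance : CompactSpace (Y Φ) := isCompact_iff_compactSpace.1 (isCompact_good Φ)
instance : MeasurableSpace (Y Φ) := borel _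
instance : BorelSpace (Y Φ) := ⟨rfl⟩

variable {Φ}

def val (F : Φ.Alg) (y : Y Φ) : ℝ := (show Good Φ from y).1 F

lemma continuous_val (F : Φ.Alg) : Continuous (val F) :=
  (continuous_apply F).comp continuous_subtype_val

def toPt (y : Y Φ) : Φ.Pt where
  ev :=
    { toFun := fun F => val F y
      map_one' := by
        have := (show Good Φ from y).2.2.2.1 1
        rwa [map_one] at this
      map_mul' := (show Good Φ from y).2.1
      map_zero' := by
        have := (show Good Φ from y).2.2.2.1 0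
        rwa [map_zero] at this
      map_add' := (show Good Φ from y).2.2.1
      commutes' := (show Good Φ from y).2.2.2.1 }
  bdd := (show Good Φ from y).2.2.2.2

lemma measurable_hat (F : Φ.Alg) : Measurable (hat F) := by
  refine Measurable.of_comap_le ?_
  exact le_iSup₂_of_le (f := fun (F : Φ.Alg) (_ : F ∈ (Set.univ : Set Φ.Alg)) =>
    MeasurableSpace.comap (hat F) (inferInstance : MeasurableSpace ℝ)) F (Set.mem_univ _) le_rfl

lemma measurable_toPt : Measurable (toPt (Φ := Φ)) := by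
  refine Measurable.of_comap_le ?_
  show MeasurableSpace.comap toPt (sig Set.univ) ≤ _
  simp only [sig, MeasurableSpace.comap_iSup, MeasurableSpace.comap_comp]
  refine iSup₂_le fun F _ => ?_
  exact (continuous_val F).measurable.comap_le

def evN (N : ℕ) (ω : Φ.Om N) : Y Φ :=
  show Good Φ from ⟨fun F => F.1 N ω, fun _ _ => rfl, fun _ _ => rfl, fun _ => rfl,
    fun _ _ h => h N ω⟩

lemma measurable_evN (N : ℕ) : Measurable (evN (Φ := Φ) N) := by
  let _ : TopologicalSpace (Φ.G N) := ⊥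
  have _ : DiscreteTopology (Φ.G N) := ⟨rfl⟩
  have _ : BorelSpace (Φ.G N) := ⟨by
    rw [borel_eq_top_of_discrete]
    exact top_unique fun s _ => MeasurableSet.of_discrete⟩
  refine Continuous.measurable ?_
  refine Continuous.subtype_mk (continuous_pi fun F => ?_) _
  obtain ⟨T, hT⟩ := F.2.1
  refine continuous_iff_continuousAt.2 fun ω => ?_
  have h : ∀ᶠ ω' in 𝓝 ω, ∀ i ∈ T, ω' i = ω i := by
    refine (Filter.eventually_all_finset T).2 fun i _ => ?_
    have := (continuous_apply i : Continuous fun ω' : Φ.Om N => ω' i).tendsto ω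
    rw [nhds_discrete (Φ.G N), tendsto_pure] at this
    exact this
  refine Tendsto.congr' (f₁ := fun _ => F.1 N ω) ?_ tendsto_const_nhds
  exact h.mono fun ω' h' => (hT N fun i hi => h' i hi).symm

end LimRow

open LimRow in
theorem lim : LimS := by
  intro Φ U
  let m : ℕ → ProbabilityMeasure (Y Φ) := fun N =>
    ⟨(Φ.PP N).map (evN N), Measure.isProbabilityMeasure_map (measurable_evN N).aemeasurable⟩
  obtain ⟨ν, -, hν⟩ := isCompact_univ.ultrafilter_le_nhds (U.map m) (by simp)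
  have hν' : Tendsto m U (𝓝 ν) := hν
  refine ⟨(ν : Measure (Y Φ)).map toPt,
    Measure.isProbabilityMeasure_map measurable_toPt.aemeasurable, fun F => ?_⟩
  have h := ProbabilityMeasure.tendsto_iff_forall_integral_tendsto.1 hν'
    (BoundedContinuousFunction.mkOfCompact ⟨val F, continuous_val F⟩)
  rw [integral_map measurable_toPt.aemeasurable (measurable_hat F).aestronglyMeasurable]
  refine Tendsto.congr (fun N => ?_) h
  show ∫ y, val F y ∂((Φ.PP N).map (evN N)) = _
  rw [integral_map (measurable_evN N).aemeasurable (continuous_val F).measurable.aestronglyMeasurable]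
  rfl

end Pool.Agent.MP_154433_an.SG

end

end MrgPart0

-- ======== part 1: formerly Pool.Agent.MP_154433_an.sg.R1
section MrgPart1

/-! Row R1: many sparse directions behave like one dense direction. -/

set_option autoImplicit false
set_option linter.unusedVariables false

open MeasureTheory ProbabilityTheory Filter Topology Function

noncomputable section

namespace Pool.Agent.MP_154433_an.SG

open Fam

namespace R1h

variable {Φ : Fam}

lemma hat_mul (F G : Φ.Alg) (x : Φ.Pt) : hat (F * G) x = hat F x * hat G x := map_mul x.ev F G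

lemma hat_prod {ι : Type} (s : Finset ι) (F : ι → Φ.Alg) (x : Φ.Pt) :
    hat (∏ i ∈ s, F i) x = ∏ i ∈ s, hat (F i) x := map_prod x.ev F s

lemma meas_hat {T : Set Φ.Alg} {F : Φ.Alg} (h : F ∈ T) : Measurable[sig T] (hat F) :=
  Measurable.of_comap_le (le_iSup₂ (f := fun F (_ : F ∈ T) =>
    MeasurableSpace.comap (hat F) inferInstance) F h)

lemma abm_hat {T : Set Φ.Alg} {F : Φ.Alg} (h : F ∈ T) (μ : Measure Φ.Pt) :
    ABM (sig T) μ (hat F) := by
  obtain ⟨-, C, hC⟩ := F.2
  exact ⟨(meas_hat h).stronglyMeasurable.aestronglyMeasurable, C,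
    Eventually.of_forall fun x => x.bdd F C hC⟩

lemma sig_le (T : Set Φ.Alg) : sig T ≤ (inferInstance : MeasurableSpace Φ.Pt) :=
  iSup₂_le fun F _ => le_iSup₂ (f := fun F (_ : F ∈ (Set.univ : Set Φ.Alg)) =>
    MeasurableSpace.comap (hat F) inferInstance) F trivial

lemma abm_int {T : Set Φ.Alg} {μ : Measure Φ.Pt} [IsFiniteMeasure μ] {g : Φ.Pt → ℝ}
    (h : ABM (sig T) μ g) : Integrable g μ := by
  obtain ⟨h1, C, hC⟩ := h
  exact Integrable.of_bound (h1.mono (sig_le T)) C hC

lemma dot_smul {N : ℕ} (m : ℤ) (c : ℕ →₀ ℤ) (ω : Φ.Om N) : dot (m • c) ω = m • dot c ω := by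
  have : (m • c).erase 0 = m • c.erase 0 := by
    ext j
    by_cases hj : j = 0
    · subst hj
      simp
    · simp [Finsupp.erase_ne hj]
  rw [dot, this, map_smul, dot]

lemma dot_ee {N z : ℕ} (hz : z ≠ 0) (ω : Φ.Om N) : dot (ee z) ω = ω z := by
  rw [dot, Finsupp.erase_single_ne hz.symm, Finsupp.linearCombination_single, one_smul]

/-- replacing `g` by an approximation inside a correlation -/
lemma approx {μ : Measure Φ.Pt} [IsProbabilityMeasure μ] {Θ : Φ.Pt → Φ.Pt}
    (hΘ : MeasurePreserving Θ μ μ) {g : Φ.Pt → ℝ} (hg : Integrable g μ) (F W : Φ.Alg) {C : ℝ}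
    (hC : ∀ N ω, |W.1 N ω| ≤ C) :
    |∫ x, g (Θ x) * hat W x ∂μ - ∫ x, hat F (Θ x) * hat W x ∂μ| ≤
      C * ∫ x, |g x - hat F x| ∂μ := by
  have hF : Integrable (hat F) μ := abm_int (abm_hat (Set.mem_univ F) μ)
  have hWm : AEStronglyMeasurable (hat W) μ := (abm_hat (Set.mem_univ W) μ).1
  have hWb : ∀ᵐ x ∂μ, ‖hat W x‖ ≤ C := Eventually.of_forall fun x => x.bdd W C hC
  have i1 : Integrable (fun x => g (Θ x) * hat W x) μ :=
    (hΘ.integrable_comp_of_integrable hg).mul_bdd hWm hWb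
  have i2 : Integrable (fun x => hat F (Θ x) * hat W x) μ :=
    (hΘ.integrable_comp_of_integrable hF).mul_bdd hWm hWb
  have i3 : Integrable (fun x => |g x - hat F x|) μ := (hg.sub hF).abs
  have e : ∫ x, |g x - hat F x| ∂μ = ∫ x, |g (Θ x) - hat F (Θ x)| ∂μ := by
    conv_lhs => rw [← hΘ.map_eq]
    rw [integral_map hΘ.measurable.aemeasurable (by rw [hΘ.map_eq]; exact i3.1)]
  rw [← integral_sub i1 i2, e, ← integral_const_mul]
  refine (abs_integral_le_integral_abs).trans (integral_mono (i1.sub i2).abs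
    ((hΘ.integrable_comp_of_integrable i3).const_mul C) fun x => ?_)
  show |g (Θ x) * hat W x - hat F (Θ x) * hat W x| ≤ C * |g (Θ x) - hat F (Θ x)|
  rw [← sub_mul, abs_mul, mul_comm]
  exact mul_le_mul_of_nonneg_right (x.bdd W C hC) (abs_nonneg _)

/-- freezing the sparse coordinates turns the direction `c` into the direction `z` -/
lemma secf_th {I : Set ℕ} {J : Finset ℕ} {c : ℕ →₀ ℤ} {z : ℕ} (hO : Out I J)
    (hc : c.support ⊆ J) (hz : z ≠ 0) {sel : ∀ N, Φ.G N → Φ.Om N}
    (hs : ∀ N v, dot c (sel N v) = v) (m : ℤ) {F : Φ.Alg} (hF : Dep F I) :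
    (secf (J : Set ℕ) sel z).pull ((Φ.th (m • c)).pull F) = (Φ.th (m • ee z)).pull F := by
  classical
  have h0 : (0 : ℕ) ∉ J := fun h => by simpa using (hO 0 h).2
  refine Subtype.ext (funext fun N => funext fun ω => hF N fun j hj => ?_)
  have hjJ : j ∉ J := fun h => (hO j h).1 hj
  show update ((secf (J : Set ℕ) sel z).toFun N ω) 0 (_ + dot (m • c) _) j =
    update ω 0 (ω 0 + dot (m • ee z) ω) j
  by_cases hj0 : j = 0
  · subst hj0
    rw [update_self, update_self, dot_smul, dot_smul, dot_ee hz,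
      dot_congr c (ω' := sel N (ω z)) fun i hi _ => by simp [secf, Set.piecewise, hc hi], hs]
    simp [secf, Set.piecewise, h0]
  · rw [update_of_ne hj0, update_of_ne hj0]
    simp [secf, Set.piecewise, hjJ]

/-- freezing the sparse coordinates keeps the types -/
lemma secf_gen {Γ : Set (Finset ℕ × (ℕ →₀ ℤ))} {I : Set ℕ} {J : Finset ℕ} {z : ℕ}
    (hL : Lives Γ I) (hO : Out I J) (hz : z ≠ 0) (hzI : z ∉ I) (sel : ∀ N, Φ.G N → Φ.Om N)
    {P : Φ.Alg} (hP : P ∈ Φ.GenP Γ (I ∪ J)) :
    (secf (J : Set ℕ) sel z).pull P ∈ Φ.GenP Γ (I ∪ (({z} : Finset ℕ) : Set ℕ)) := by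
  classical
  have h0 : (0 : ℕ) ∉ J := fun h => by simpa using (hO 0 h).2
  induction hP using Submonoid.closure_induction with
  | one => rw [map_one]; exact one_mem _
  | mul a b _ _ ha hb => rw [map_mul]; exact mul_mem ha hb
  | mem P hP =>
    obtain ⟨γ, hγ, F', hF', rfl⟩ := Set.mem_iUnion₂.1 hP
    obtain ⟨l1, l2⟩ := hL γ hγ
    refine Submonoid.subset_closure (Set.mem_iUnion₂.2 ⟨γ, hγ,
      (secf (J : Set ℕ) sel z).pull F', fun N x y h => hF' N fun j hj => ?_, ?_⟩)
    · by_cases hjJ : j ∈ J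
      · have := h z ⟨Or.inr (by simp), fun h' => hzI (l1 h')⟩
        simp [secf, Set.piecewise, hjJ, this]
      · have := h j ⟨Or.inl (hj.1.resolve_right hjJ), hj.2⟩
        simp [secf, Set.piecewise, hjJ, this]
    · refine Subtype.ext (funext fun N => funext fun ω => congrArg (F'.1 N) (funext fun j => ?_))
      show update ((secf (J : Set ℕ) sel z).toFun N ω) 0 (_ + dot γ.2 _) j =
        (secf (J : Set ℕ) sel z).toFun N (update ω 0 (ω 0 + dot γ.2 ω)) j
      by_cases hj0 : j = 0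
      · subst hj0
        rw [update_self, dot_congr γ.2 (ω' := ω) fun i hi _ => by
          have : i ∉ J := fun h => (hO i h).1 (l1 (l2 hi))
          simp [secf, Set.piecewise, this]]
        simp [secf, Set.piecewise, h0]
      · rw [update_of_ne hj0]
        simp [secf, Set.piecewise, update_of_ne hj0, update_of_ne hz]

lemma dep_of_span {I : Set ℕ} {F : Φ.Alg}
    (h : F ∈ Submodule.span ℝ ((Φ.DepS I).toSubmonoid : Set Φ.Alg)) : Dep F I :=
  (Submodule.span_le (p := (Φ.DepS I).toSubmodule)).2 (fun _ h => h) h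

lemma key (S : Sys) (hF : Fd S) (hD : DS S) {Γ : Set (Finset ℕ × (ℕ →₀ ℤ))} {I : Set ℕ}
    {J : Finset ℕ} {c : ℕ →₀ ℤ} (hfr : Frame Γ I) (hO : Out I J) (hc : c.support ⊆ J)
    (hr : S.r ≤ (J.filter fun j => c j = 1).card) {ι : Type} [DecidableEq ι] (s : Finset ι)
    (r : ι → ℤ) (hinj : Set.InjOn r s) {i0 : ι} (hi0 : i0 ∈ s) {P : S.Alg}
    (hP : P ∈ S.GenP Γ (I ∪ J)) (F : ι → S.Alg) (hFI : ∀ i ∈ s.erase i0, Dep (F i) I)
    {g : S.Pt → ℝ} (hg : ABM (S.Full I) S.μ g) (ho : Orth (S.Base Γ I) S.μ g) :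
    ∫ x, g (S.Th (r i0 • c) x) *
      hat (P * ∏ i ∈ s.erase i0, (S.th (r i • c)).pull (F i)) x ∂S.μ ≤ 0 := by
  set W := P * ∏ i ∈ s.erase i0, (S.th (r i • c)).pull (F i) with hW
  obtain ⟨-, C, hC⟩ := W.2
  have hC0 : 0 ≤ C := (abs_nonneg _).trans (hC 0 fun _ => 0)
  have hgi : Integrable g S.μ := abm_int hg
  refine le_of_forall_pos_le_add fun ε hε => ?_
  obtain ⟨F0, hF0, hl⟩ := hF.densB (S.DepS I).toSubmonoid g hg (ε / (2 * (C + 1))) (by positivity)
  have hF0' := dep_of_span hF0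
  obtain ⟨⟨T, hT⟩, -⟩ := ((S.th (r i0 • c)).pull F0 * W).2
  obtain ⟨z, ⟨hzI, hze⟩, hzT⟩ := hfr.cod.exists_notMem_finset T
  have hz0 : z ≠ 0 := fun h => hzI (h ▸ hfr.zero)
  obtain ⟨sel, hs, hle⟩ := hF.sel J c z ((S.th (r i0 • c)).pull F0 * W) (fun j hj => (hO j hj).2)
    hc hr hze fun N x y h => hT N fun i hi => h i fun h' => hzT (Set.mem_singleton_iff.1 h' ▸ hi)
  have a1 := approx (hF.thmp (r i0 • c)) hgi F0 W hC
  have a2 := approx (hF.thmp (r i0 • ee z)) hgi F0 ((secf (J : Set ℕ) sel z).pull W)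
    (C := C) fun N ω => hC N _
  have e1 : ∫ x, hat ((S.th (r i0 • c)).pull F0 * W) x ∂S.μ =
      ∫ x, hat F0 (S.Th (r i0 • c) x) * hat W x ∂S.μ := by
    simp only [hat_mul]
    rfl
  have e2 : ∫ x, hat ((secf (J : Set ℕ) sel z).pull ((S.th (r i0 • c)).pull F0 * W)) x ∂S.μ =
      ∫ x, hat F0 (S.Th (r i0 • ee z) x) * hat ((secf (J : Set ℕ) sel z).pull W) x ∂S.μ := by
    simp only [map_mul, hat_mul, secf_th hO hc hz0 hs _ hF0']
    rfl
  have e3 : ∫ x, g (S.Th (r i0 • ee z) x) * hat ((secf (J : Set ℕ) sel z).pull W) x ∂S.μ = 0 := by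
    have := hD s.card Γ I z hfr hzI hze ι s r hinj le_rfl (update (fun i => hat (F i)) i0 g)
      (hat ((secf (J : Set ℕ) sel z).pull P)) (fun i hi => ?_)
      (abm_hat (secf_gen hfr.lives hO hz0 hzI sel hP) _) i0 hi0 (by rwa [update_self])
    · rw [← this]
      refine integral_congr_ae (Eventually.of_forall fun x => ?_)
      simp only
      rw [← Finset.mul_prod_erase s _ hi0, update_self, hW, map_mul, map_prod, hat_mul, hat_prod,
        mul_left_comm]
      congr 2
      refine Finset.prod_congr rfl fun i hi => ?_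
      rw [update_of_ne (Finset.ne_of_mem_erase hi), secf_th hO hc hz0 hs _ (hFI i hi)]
      rfl
    · by_cases h : i = i0
      · subst h
        rwa [update_self]
      · rw [update_of_ne h]
        exact abm_hat (hFI i (Finset.mem_erase.2 ⟨h, hi⟩)) _
  rw [e1, e2] at hle
  rw [e3] at a2
  have b1 := (abs_le.1 a1).2
  have b2 := (abs_le.1 a2).1
  have b3 : C * ∫ x, |g x - hat F0 x| ∂S.μ ≤ ε / 2 := by
    calc C * ∫ x, |g x - hat F0 x| ∂S.μ ≤ (C + 1) * (ε / (2 * (C + 1))) :=
          mul_le_mul (by linarith) hl.le (integral_nonneg fun _ => abs_nonneg _) (by linarith)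
      _ = ε / 2 := by field_simp
  linarith

end R1h

open R1h in
theorem r1 : R1S := by
  classical
  intro S hF hD n Γ I J c hfr hO hc hr ι s r hinj hn g ψ hg hψ i0 hi0 ho
  have hH : ABM inferInstance S.μ fun x => g i0 (S.Th (r i0 • c) x) := by
    obtain ⟨h1, C, hC⟩ := hg i0 hi0
    exact ⟨(h1.mono (sig_le _)).comp_measurePreserving (hF.thmp _), C,
      (hF.thmp _).quasiMeasurePreserving.ae hC⟩
  have := hF.mext (Option ι) (Finset.insertNone (s.erase i0))
    (fun o => o.elim (S.GenP Γ (I ∪ J)) fun _ => (S.DepS I).toSubmonoid)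
    (fun o => o.elim id fun i => S.Th (r i • c)) (fun o => o.elim id fun i => S.Th (r i • c))
    (fun x => g i0 (S.Th (r i0 • c) x)) (fun _ => 0) ?_ ?_ hH
    ⟨aestronglyMeasurable_const, 0, by simp⟩ ?_ (fun o => o.elim ψ g) ?_
  · simp only [zero_mul, integral_zero, Finset.prod_insertNone, Option.elim, id] at this
    rw [← this]
    refine integral_congr_ae (Eventually.of_forall fun x => ?_)
    simp only
    rw [← Finset.mul_prod_erase s _ hi0, mul_left_comm]
  · rintro (_ | i) _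
    exacts [MeasurePreserving.id _, hF.thmp _]
  · rintro (_ | i) _
    exacts [MeasurePreserving.id _, hF.thmp _]
  · intro F hFT
    have hP : F none ∈ S.GenP Γ (I ∪ J) := hFT none (by simp)
    have hFI : ∀ i ∈ s.erase i0, Dep (F (some i)) I := fun i hi =>
      hFT (some i) (Finset.some_mem_insertNone.2 hi)
    have k1 := key S hF hD hfr hO hc hr s r hinj hi0 hP (fun i => F (some i)) hFI (hg i0 hi0) ho
    have k2 := key S hF hD hfr hO hc hr s r hinj hi0 hP (fun i => F (some i)) hFI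
      (g := fun x => -g i0 x) ⟨(hg i0 hi0).1.neg, by simpa using (hg i0 hi0).2⟩
      (fun φ hφ => by simp only [neg_mul, integral_neg, ho φ hφ, neg_zero])
    simp only [neg_mul, integral_neg] at k2
    simp only [zero_mul, integral_zero, Finset.prod_insertNone, Option.elim, id]
    refine Eq.trans ?_ (le_antisymm k1 (by linarith))
    simp only [hat_mul, hat_prod]
    rfl
  · rintro (_ | i) hi
    exacts [hψ, hg i (Finset.mem_of_mem_erase (Finset.some_mem_insertNone.1 hi))]

end Pool.Agent.MP_154433_an.SG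

end

end MrgPart1

-- ======== part 2: formerly Pool.Agent.MP_154433_an.sg.R2P
section MrgPart2

/-! Two points in a sparse direction, with a weight that sees the direction. -/

set_option autoImplicit false

open MeasureTheory ProbabilityTheory Filter Topology Function

noncomputable section

namespace Pool.Agent.MP_154433_an.SG

open Fam

namespace R2Px

section abm

variable {X : Type} {m m' : MeasurableSpace X} {m0 : MeasurableSpace X} {μ : Measure X}
  {f g : X → ℝ}

theorem mono (h : ABM m μ f) (k : m ≤ m') : ABM m' μ f := ⟨h.1.mono k, h.2⟩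

theorem mul (h : ABM m μ f) (h' : ABM m μ g) : ABM m μ fun x => f x * g x := by
  obtain ⟨C, hC⟩ := h.2
  obtain ⟨D, hD⟩ := h'.2
  refine ⟨h.1.mul h'.1, C * D, ?_⟩
  filter_upwards [hC, hD] with x a b
  rw [norm_mul]
  exact mul_le_mul a b (norm_nonneg _) ((norm_nonneg _).trans a)

theorem sub (h : ABM m μ f) (h' : ABM m μ g) : ABM m μ fun x => f x - g x := by
  obtain ⟨C, hC⟩ := h.2
  obtain ⟨D, hD⟩ := h'.2
  refine ⟨h.1.sub h'.1, C + D, ?_⟩
  filter_upwards [hC, hD] with x a b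
  exact (norm_sub_le _ _).trans (add_le_add a b)

theorem intg [IsFiniteMeasure μ] (h : ABM m μ f) (k : m ≤ m0) : Integrable f μ :=
  let ⟨C, hC⟩ := h.2
  Integrable.of_bound (h.1.mono k) C hC

theorem comp (h : ABM m μ f) {Θ : X → X} (hΘ : MeasurePreserving Θ μ μ) (k : m.comap Θ ≤ m') :
    ABM m' μ fun x => f (Θ x) := by
  obtain ⟨⟨f', h1, h2⟩, C, hC⟩ := h
  have hm : @Measurable X X m' m Θ := measurable_iff_comap_le.2 k
  exact ⟨⟨f' ∘ Θ, h1.comp_measurable hm, hΘ.quasiMeasurePreserving.ae_eq_comp h2⟩, C,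
    hΘ.quasiMeasurePreserving.ae hC⟩

theorem cond (h : ABM m' μ f) : ABM m μ (μ[f | m]) :=
  let ⟨C, hC⟩ := h.2
  ⟨stronglyMeasurable_condExp.aestronglyMeasurable, C, ae_bdd_norm_condExp_of_ae_bdd_norm hC⟩

theorem int_cond [IsFiniteMeasure μ] (k : m ≤ m0) (hf : ABM m0 μ f) (hg : ABM m μ g) :
    ∫ x, f x * g x ∂μ = ∫ x, (μ[f | m]) x * g x ∂μ := by
  have h1 := condExp_mul_of_aestronglyMeasurable_right (m := m) (f := f) hg.1
    (intg (mul hf (mono hg k)) le_rfl) (intg hf le_rfl)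
  exact (integral_condExp k).symm.trans (integral_congr_ae h1)

theorem orth_sub [IsFiniteMeasure μ] (k : m ≤ m0) (hf : ABM m0 μ f) :
    Orth m μ fun x => f x - (μ[f | m]) x := by
  intro ψ hψ
  simp only [sub_mul]
  rw [integral_sub (intg (mul hf (mono hψ k)) le_rfl) (intg (mul (cond hf) hψ) k),
    int_cond k hf hψ, sub_self]

end abm

variable {S : Sys}

theorem sig_le (T : Set S.Alg) : sig T ≤ (inferInstance : MeasurableSpace S.Pt) :=
  biSup_mono fun _ _ => Set.mem_univ _

theorem full_mono {I I' : Set ℕ} (h : I ⊆ I') : S.Full I ≤ S.Full I' :=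
  biSup_mono fun _ k N => (k N).mono h

theorem abm_hat {T : Set S.Alg} {F : S.Alg} (h : F ∈ T) : ABM (sig T) S.μ (hat F) := by
  obtain ⟨C, hC⟩ := F.2.2
  have : Measurable[sig T] (hat F) := measurable_iff_comap_le.2
    (le_biSup (fun F : S.Alg => MeasurableSpace.comap (hat F) inferInstance) h)
  exact ⟨this.stronglyMeasurable.aestronglyMeasurable, C,
    Eventually.of_forall fun x => x.bdd F C hC⟩

theorem dot_ee {N t : ℕ} (ht : t ≠ 0) (d : ℤ) (ω : S.Om N) : dot (d • ee t) ω = d • ω t := by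
  rw [dot, Finsupp.smul_single, Finsupp.erase_single_ne ht.symm, Finsupp.linearCombination_single,
    smul_eq_mul, mul_one]

theorem th_neg {t : ℕ} (ht : t ≠ 0) (d : ℤ) (x : S.Pt) :
    S.Th ((-d) • ee t) (S.Th (d • ee t) x) = x := by
  refine Pt.ext (AlgHom.ext fun F => congrArg x.ev (Subtype.ext (funext fun N => funext fun ω =>
    congrArg (F.1 N) ?_)))
  show update (update ω 0 _) 0 _ = ω
  rw [dot_ee ht, dot_ee ht, update_idem]
  simp only [th, dot_ee ht, update_of_ne ht, update_self, neg_smul, add_neg_cancel_right,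
    update_eq_self]

theorem th_pm {t : ℕ} (ht : t ≠ 0) (d : ℤ) {π : Equiv.Perm ℕ} (h0 : π 0 = 0) (h1 : π t = t)
    (x : S.Pt) : S.Th (d • ee t) (S.Pm π x) = S.Pm π (S.Th (d • ee t) x) := by
  refine Pt.ext (AlgHom.ext fun F => congrArg x.ev (Subtype.ext (funext fun N => funext fun ω =>
    congrArg (F.1 N) ?_)))
  show update (ω ∘ π) 0 _ = update ω 0 _ ∘ π
  rw [dot_ee ht, dot_ee ht, update_comp_equiv, π.symm_apply_eq.2 h0.symm]
  show update (ω ∘ π) 0 (ω (π 0) + d • ω (π t)) = _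
  rw [h0, h1]

theorem dep_avg {K : Set ℕ} {F : S.Alg} (h : Dep F K) : Dep (avg {0} F) (K \ {0}) := by
  classical
  intro N x y e
  refine integral_congr_ae (Eventually.of_forall fun ω => h N fun i hi => ?_)
  by_cases c : i ∈ ({0} : Set ℕ)
  · simp only [Set.piecewise, if_pos c]
  · simp only [Set.piecewise, if_neg c]
    exact e i ⟨hi, c⟩

theorem r2 (fd : Fd S) {K : Set ℕ} {t : ℕ} {d : ℤ} (ht : t ∉ K) (ho : Odd t) (hd : d ≠ 0)
    {b : S.Pt → ℝ} (hb : ABM (S.Full K) S.μ b) (h : Orth (S.Lam K) S.μ b) :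
    Orth (S.Full K) S.μ fun x => b (S.Th (d • ee t) x) := by
  have t0 : t ≠ 0 := by rintro rfl; exact absurd ho (by decide)
  have dp : ∀ F : S.Alg, Dep F K → Dep F {t}ᶜ := fun F k N =>
    (k N).mono fun j hj e => ht (Set.mem_singleton_iff.1 e ▸ hj)
  have b0 := mono hb (sig_le _)
  have mp := fd.thmp (d • ee t)
  have mp' := fd.thmp ((-d) • ee t)
  refine fd.densA (S.DepS K).toSubmonoid _ (intg (comp b0 mp mp.measurable.comap_le) le_rfl)
    fun F hF => ?_
  have a1 : ABM inferInstance S.μ fun x => hat F (S.Th ((-d) • ee t) x) :=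
    comp (abm_hat (Set.mem_univ F)) mp' mp'.measurable.comap_le
  have a2 : ABM (S.Lam K) S.μ (hat (avg {0} F)) := abm_hat (dep_avg hF)
  have a3 := mono a2 (sig_le _)
  have o := fd.densA (S.DepS K).toSubmonoid _ (intg (sub a1 a3) le_rfl) (fun G hG => by
    have g0 : ABM inferInstance S.μ (hat G) := abm_hat (Set.mem_univ G)
    simp only [sub_mul]
    rw [integral_sub (intg (mul a1 g0) le_rfl) (intg (mul a3 g0) le_rfl), sub_eq_zero]
    simpa only [mul_comm] using fd.mix t (-d) G F ho (neg_ne_zero.2 hd) (dp G hG) (dp F hF)) b hb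
  simp only [sub_mul] at o
  rw [integral_sub (intg (mul a1 b0) le_rfl) (intg (mul a3 b0) le_rfl)] at o
  have e := integral_map (μ := S.μ) mp.measurable.aemeasurable
    (f := fun x => hat F (S.Th ((-d) • ee t) x) * b x) (mp.map_eq.symm ▸ (mul a1 b0).1)
  have z := h _ a2
  simp only [mp.map_eq, th_neg t0] at e
  simp only [mul_comm] at e o z ⊢
  rw [← e]
  linarith

end R2Px

open R2Px in
theorem r2p : R2PS := by
  classical
  intro S fd I J t d h u Y h0 hJ tI tJ ho hd inf hh hY hu hO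
  have t0 : t ≠ 0 := fun e => tI (e ▸ h0)
  obtain ⟨π, kp, -, p1, p2⟩ := fd.fresh (insert t I) J (Or.inr h0)
    (fun j hj k => k.elim (fun e => tJ (e ▸ hj)) (hJ j hj).1) fun j hj =>
      (inf.sdiff (Set.finite_singleton t)).mono fun k hk =>
        ⟨fun c => c.elim hk.2 hk.1.1, iff_of_true hk.1.2 (hJ j hj).2⟩
  have mp := fd.thmp (d • ee t)
  have mq := fd.pmmp π kp
  have pt' : π t = t := p1 t (Or.inl rfl)
  have hH : ABM (S.Full (insert t (I ∪ J))) S.μ fun x => h x * Y (S.Th (d • ee t) x) :=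
    mul (mono hh (full_mono (Set.subset_insert _ _))) (comp hY mp (fd.thetaF _ _ _
      (Set.subset_insert _ _) fun j hj => Or.inl (by
        rw [Finsupp.smul_single] at hj
        exact Finset.mem_singleton.1 (Finsupp.support_single_subset hj))))
  have cp := fd.copy π (insert t I) _ _ kp p1 (Set.insert_subset_insert Set.subset_union_left)
    (fun j hj n c => by
      have hj' : j ∈ J := hj.elim (fun e => absurd (Or.inl e) n)
        fun e => e.elim (fun e => absurd (Or.inr e) n) id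
      exact c.elim (fun e => (p2 j hj').1 (Or.inl e))
        fun e => e.elim (fun e => (p2 j hj').1 (Or.inr e)) (p2 j hj').2) hH
  have s1 : π '' (I ∪ J) ⊆ I ∪ π '' J := by
    rintro _ ⟨j, hj | hj, rfl⟩
    exacts [Or.inl ((p1 j (Or.inr hj)).symm ▸ hj), Or.inr ⟨j, hj, rfl⟩]
  have s2 : I ∪ (J : Set ℕ) ⊆ I ∪ π '' J ∪ J :=
    Set.union_subset_union_left _ Set.subset_union_left
  have tK : t ∉ I ∪ π '' J ∪ J := by
    rintro ((c | ⟨j, hj, e⟩) | c)
    exacts [tI c, (p2 j hj).1 (Or.inl e), tJ c]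
  have hh' := comp hh mq (fd.permF _ _ π s1)
  have hg := mul (mono hh (full_mono s2)) (mono hh' (full_mono Set.subset_union_left))
  have hY2 := mul (mono hY (full_mono s2))
    (mono (comp hY mq (fd.permF _ _ π s1)) (full_mono Set.subset_union_left))
  have lf : S.Lam (I ∪ π '' J ∪ J) ≤ S.Full (I ∪ π '' J ∪ J) := full_mono Set.sdiff_subset
  have ha : ABM (S.Lam (I ∪ π '' J ∪ J)) S.μ _ := cond hY2
  have o1 := r2 fd tK ho hd (sub hY2 (mono ha lf)) (orth_sub (sig_le _) (mono hY2 (sig_le _))) _ hg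
  have o2 : Orth (S.PJ (I ∪ π '' J) J) S.μ h := by
    rw [fd.pjeq _ J fun j hj c => c.elim (hJ j hj).1 fun ⟨i, hi, e⟩ => (p2 i hi).2 (e ▸ hj)]
    refine fd.s0 _ _ _ (Or.inl h0) ?_ s2 h hh (fd.pjeq I J (fun j hj => (hJ j hj).1) ▸ hO)
    rintro _ (rfl | rfl)
    · exact ⟨Set.subset_union_right, by simp⟩
    · exact ⟨by simpa [tyL] using Or.inl h0, by simp [tyL]⟩
  have o3 := o2 _ (mul (mono hh' le_sup_left) (mono ha le_sup_right))
  have fx := fd.lamfix _ (d • ee t) _ mp ha.1
  generalize S.μ[fun x => Y x * Y (S.Pm π x) | S.Lam (I ∪ π '' J ∪ J)] = a at ha o1 o3 fx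
  have g0 := mono hg (sig_le _)
  have z : ∫ x, (S.μ[fun x => h x * Y (S.Th (d • ee t) x) | S.Full (insert t I)]) x ^ 2 ∂S.μ = 0 := by
    rw [← cp]
    simp only [sub_mul] at o1
    rw [integral_sub (intg (mul (comp (mono hY2 (sig_le _)) mp mp.measurable.comap_le) g0) le_rfl)
      (intg (mul (comp (mono ha (sig_le _)) mp mp.measurable.comap_le) g0) le_rfl), sub_eq_zero] at o1
    refine Eq.trans (integral_congr_ae (Eventually.of_forall fun x => ?_))
      (o1.trans ((integral_congr_ae ?_).trans o3))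
    · simp only [th_pm t0 d kp.1 pt']
      ring
    · filter_upwards [fx] with x e
      rw [e]
      ring
  have hc : ABM (S.Full (insert t I)) S.μ _ := cond hH
  have z' := (integral_eq_zero_iff_of_nonneg (fun x => sq_nonneg _)
    (by simpa only [sq] using intg (mul hc hc) (sig_le _))).1 z
  refine Eq.trans (integral_congr_ae (Eventually.of_forall fun x => mul_right_comm _ _ _))
    ((int_cond (sig_le _) (mono hH (sig_le _)) hu).trans ?_)
  refine integral_eq_zero_of_ae ?_
  filter_upwards [z'] with x e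
  rw [Pi.zero_apply, pow_eq_zero_iff two_ne_zero] at e
  exact mul_eq_zero_of_left e _

end Pool.Agent.MP_154433_an.SG

end

end MrgPart2

-- ======== part 3: formerly Pool.Agent.MP_154433_an.sg.ND
section MrgPart3

/-! Row ND: a star-algebra of operators without common kernel. -/

set_option autoImplicit false

open MeasureTheory ProbabilityTheory Filter Topology Function

noncomputable section

namespace Pool.Agent.MP_154433_an.SG

namespace NDr

/-- A vector lies in the closed span of its orbit under a self-adjoint semigroup. -/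
lemma orbit {H K : Type} [NormedAddCommGroup H] [InnerProductSpace ℝ H] [CompleteSpace H]
    (T : K → H →L[ℝ] H) (hc : ∀ a b, ∃ c, ∀ x, T a (T b x) = T c x)
    (ha : ∀ a, ∃ b, ∀ x y, inner ℝ (T a x) y = inner ℝ x (T b y)) (ξ ζ : H)
    (hk : ∀ η, (∀ a, T a η = 0) → inner ℝ η ξ = 0) (hz : ∀ a, inner ℝ ζ (T a ξ) = 0) :
    inner ℝ ζ ξ = 0 := by
  set V := (Submodule.span ℝ (Set.range fun a => T a ξ)).topologicalClosure with hV
  have hmem : ∀ a, T a ξ ∈ V := fun a =>
    Submodule.le_topologicalClosure _ (Submodule.subset_span ⟨a, rfl⟩)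
  have hcl : IsClosed (V : Set H) := Submodule.isClosed_topologicalClosure _
  have hinv : ∀ a, ∀ x ∈ V, T a x ∈ V := fun a => by
    have : V ≤ V.comap (T a : H →ₗ[ℝ] H) := by
      refine Submodule.topologicalClosure_minimal _ (Submodule.span_le.2 ?_)
        (hcl.preimage (T a).continuous)
      rintro _ ⟨b, rfl⟩
      obtain ⟨c, hc'⟩ := hc a b
      change T a (T b ξ) ∈ V
      rw [hc']
      exact hmem c
    exact fun x hx => this hx
  have : CompleteSpace V := hcl.completeSpace_coe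
  obtain ⟨v, hv, η, hη, e⟩ := V.exists_add_mem_mem_orthogonal ξ
  have h0 : ∀ a, T a η = 0 := fun a => by
    have h1 : T a η ∈ V := by
      have : T a η = T a ξ - T a v := by rw [e, map_add]; abel
      rw [this]
      exact V.sub_mem (hmem a) (hinv a v hv)
    obtain ⟨b, hb⟩ := ha a
    rw [← inner_self_eq_zero (𝕜 := ℝ), hb]
    exact Submodule.inner_left_of_mem_orthogonal (hinv b _ h1) hη
  have h1 : η = 0 := by
    have h2 := hk η h0
    rw [e, inner_add_right, Submodule.inner_left_of_mem_orthogonal hv hη, zero_add] at h2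
    exact inner_self_eq_zero.1 h2
  have h3 : V ≤ (Submodule.span ℝ {ζ})ᗮ := by
    refine Submodule.topologicalClosure_minimal _ (Submodule.span_le.2 ?_)
      (Submodule.isClosed_orthogonal _)
    rintro _ ⟨b, rfl⟩
    exact Submodule.mem_orthogonal_singleton_iff_inner_right.2 (hz b)
  rw [e, h1, add_zero]
  exact Submodule.mem_orthogonal_singleton_iff_inner_right.1 (h3 hv)

/-- The same for a pair of vectors. -/
lemma orbit2 {H K : Type} [NormedAddCommGroup H] [InnerProductSpace ℝ H] [CompleteSpace H]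
    (T : K → H →L[ℝ] H) (hc : ∀ a b, ∃ c, ∀ x, T a (T b x) = T c x)
    (ha : ∀ a, ∃ b, ∀ x y, inner ℝ (T a x) y = inner ℝ x (T b y)) (A B Z₁ Z₂ : H)
    (hk : ∀ η, (∀ a, T a η = 0) → inner ℝ η A = 0 ∧ inner ℝ η B = 0)
    (hz : ∀ a, inner ℝ Z₁ (T a A) = inner ℝ Z₂ (T a B)) : inner ℝ Z₁ A = inner ℝ Z₂ B := by
  let e := WithLp.prodContinuousLinearEquiv 2 ℝ H H
  let T' : K → WithLp 2 (H × H) →L[ℝ] WithLp 2 (H × H) := fun a =>
    (e.symm : H × H →L[ℝ] WithLp 2 (H × H)) ∘L ((T a).prodMap (T a)) ∘L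
      (e : WithLp 2 (H × H) →L[ℝ] H × H)
  have hT : ∀ a x, T' a x = WithLp.toLp 2 (T a x.fst, T a x.snd) := fun _ _ => rfl
  have := orbit T' (fun a b => ?_) (fun a => ?_) (WithLp.toLp 2 (A, B)) (WithLp.toLp 2 (Z₁, -Z₂))
    (fun η hη => ?_) fun a => ?_
  · simp only [WithLp.prod_inner_apply, inner_neg_left] at this
    linarith
  · obtain ⟨c, h⟩ := hc a b
    exact ⟨c, fun x => by simp only [hT, WithLp.toLp_fst, WithLp.toLp_snd, h]⟩
  · obtain ⟨b, h⟩ := ha a
    exact ⟨b, fun x y => by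
      simp only [hT, WithLp.prod_inner_apply, h, WithLp.ofLp_fst, WithLp.ofLp_snd]⟩
  · have h1 := (hk η.fst fun a => congrArg WithLp.fst (hη a)).1
    have h2 := (hk η.snd fun a => congrArg WithLp.snd (hη a)).2
    simp only [WithLp.prod_inner_apply, WithLp.ofLp_fst, WithLp.ofLp_snd, h1, h2, add_zero]
  · simp only [hT, WithLp.prod_inner_apply, WithLp.toLp_fst, WithLp.toLp_snd, inner_neg_left, hz,
      add_neg_cancel]

variable {X : Type} {F L : MeasurableSpace X} {m0 : MeasurableSpace X} {μ : Measure X}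

lemma top {l : X → ℝ} (hL : L ≤ m0) (h : ABM L μ l) : MemLp l ⊤ μ := by
  obtain ⟨C, hC⟩ := h.2
  exact memLp_top_of_bound (h.1.mono hL) C hC

lemma abm_mul {l l' : X → ℝ} (h : ABM L μ l) (h' : ABM L μ l') : ABM L μ (l * l') := by
  obtain ⟨C, hC⟩ := h.2
  obtain ⟨C', hC'⟩ := h'.2
  refine ⟨h.1.mul h'.1, C * C', ?_⟩
  filter_upwards [hC, hC'] with x h1 h2
  rw [Pi.mul_apply, norm_mul]
  exact mul_le_mul h1 h2 (norm_nonneg _) ((norm_nonneg _).trans h1)

lemma inner_eq (f g : Lp ℝ 2 μ) : inner ℝ f g = ∫ x, f x * g x ∂μ := by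
  rw [L2.inner_def]
  exact integral_congr_ae (.of_forall fun x => by simp [mul_comm])

/-- multiplication by a bounded function -/
def mulL {l : X → ℝ} (h : MemLp l ⊤ μ) : Lp ℝ 2 μ →L[ℝ] Lp ℝ 2 μ :=
  (ContinuousLinearMap.mul ℝ ℝ).holderL μ ⊤ 2 2 h.toLp

lemma mulL_ae {l : X → ℝ} (h : MemLp l ⊤ μ) (f : Lp ℝ 2 μ) : mulL h f =ᵐ[μ] l * f := by
  filter_upwards [(ContinuousLinearMap.mul ℝ ℝ).coeFn_holder (r := 2) h.toLp f, h.coeFn_toLp]
    with x h1 h2
  exact h1.trans (by rw [h2]; rfl)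

lemma mulL_adj {l : X → ℝ} (h : MemLp l ⊤ μ) (f g : Lp ℝ 2 μ) :
    inner ℝ (mulL h f) g = inner ℝ f (mulL h g) := by
  rw [inner_eq, inner_eq]
  refine integral_congr_ae ?_
  filter_upwards [mulL_ae h f, mulL_ae h g] with x h1 h2
  rw [h1, h2, Pi.mul_apply, Pi.mul_apply]
  ring

/-- the conditional expectation on `L2` -/
def ceL (hF : F ≤ m0) (μ : Measure X) : Lp ℝ 2 μ →L[ℝ] Lp ℝ 2 μ :=
  (lpMeas ℝ ℝ F 2 μ).subtypeL ∘L condExpL2 ℝ ℝ hF

lemma ceL_ae [IsFiniteMeasure μ] (hF : F ≤ m0) (f : Lp ℝ 2 μ) : ceL hF μ f =ᵐ[μ] μ[f | F] := by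
  have := (Lp.memLp f).condExpL2_ae_eq_condExp (𝕜 := ℝ) hF
  rwa [Lp.toLp_coeFn] at this

/-- the operator `l' E[l . | F]` -/
def op (hF : F ≤ m0) {l l' : X → ℝ} (h : MemLp l ⊤ μ) (h' : MemLp l' ⊤ μ) :
    Lp ℝ 2 μ →L[ℝ] Lp ℝ 2 μ := mulL h' ∘L ceL hF μ ∘L mulL h

lemma op_ae [IsFiniteMeasure μ] (hF : F ≤ m0) {l l' : X → ℝ} (h : MemLp l ⊤ μ)
    (h' : MemLp l' ⊤ μ) (f : Lp ℝ 2 μ) : op hF h h' f =ᵐ[μ] l' * μ[l * (f : X → ℝ) | F] :=
  (mulL_ae h' _).trans (EventuallyEq.rfl.mul
    ((ceL_ae hF _).trans (condExp_congr_ae (mulL_ae h f))))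

lemma op_adj (hF : F ≤ m0) {l l' : X → ℝ} (h : MemLp l ⊤ μ) (h' : MemLp l' ⊤ μ)
    (f g : Lp ℝ 2 μ) : inner ℝ (op hF h h' f) g = inner ℝ f (op hF h' h g) := by
  change inner ℝ (mulL h' (ceL hF μ (mulL h f))) g = inner ℝ f (mulL h (ceL hF μ (mulL h' g)))
  rw [mulL_adj, ← mulL_adj h]
  exact inner_condExpL2_left_eq_right hF

/-- A function orthogonal to all intersections is orthogonal to the join. -/
lemma orth_sup [IsFiniteMeasure μ] (hF : F ≤ m0) (hL : L ≤ m0) {η A : X → ℝ} (hη : Integrable η μ)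
    (h : ∀ t, MeasurableSet[L] t → μ[t.indicator η | F] =ᵐ[μ] 0) (hA : ABM (F ⊔ L) μ A) :
    ∫ x, η x * A x ∂μ = 0 := by
  have hG : F ⊔ L ≤ m0 := sup_le hF hL
  have hb : ∀ s t, MeasurableSet[F] s → MeasurableSet[L] t → ∫ x in s ∩ t, η x ∂μ = 0 :=
    fun s t hs ht => by
      rw [← setIntegral_indicator (hL _ ht),
        ← setIntegral_condExp hF (hη.indicator (hL _ ht)) hs,
        integral_congr_ae (ae_restrict_of_ae (h t ht))]
      simp
  have hgen : F ⊔ L = MeasurableSpace.generateFrom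
      {u | ∃ s t, MeasurableSet[F] s ∧ MeasurableSet[L] t ∧ u = s ∩ t} := by
    refine le_antisymm (sup_le (fun s hs => MeasurableSpace.measurableSet_generateFrom
      ⟨s, Set.univ, hs, MeasurableSet.univ, (Set.inter_univ s).symm⟩)
      fun t ht => MeasurableSpace.measurableSet_generateFrom
        ⟨Set.univ, t, MeasurableSet.univ, ht, (Set.univ_inter t).symm⟩)
      (MeasurableSpace.generateFrom_le ?_)
    rintro _ ⟨s, t, hs, ht, rfl⟩
    exact MeasurableSet.inter (le_sup_left (a := F) (b := L) s hs)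
      (le_sup_right (a := F) (b := L) t ht)
  have hpi : IsPiSystem {u | ∃ s t, MeasurableSet[F] s ∧ MeasurableSet[L] t ∧ u = s ∩ t} := by
    rintro _ ⟨s, t, hs, ht, rfl⟩ _ ⟨s', t', hs', ht', rfl⟩ _
    exact ⟨s ∩ s', t ∩ t', hs.inter hs', ht.inter ht', Set.inter_inter_inter_comm _ _ _ _⟩
  have hu : ∫ x, η x ∂μ = 0 := by
    simpa using hb Set.univ Set.univ MeasurableSet.univ MeasurableSet.univ
  have hall : ∀ u, MeasurableSet[F ⊔ L] u → ∫ x in u, η x ∂μ = 0 := by
    refine MeasurableSpace.induction_on_inter (m := F ⊔ L)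
      (C := fun u _ => ∫ x in u, η x ∂μ = 0) hgen hpi (by simp) ?_ (fun u hu' e => ?_)
      fun f hd hf e => ?_
    · rintro _ ⟨s, t, hs, ht, rfl⟩
      exact hb s t hs ht
    · have := integral_add_compl (hG _ hu') hη
      linarith
    · rw [integral_iUnion (fun i => hG _ (hf i)) hd hη.integrableOn]
      simp [e]
  have h0 : (0 : X → ℝ) =ᵐ[μ] μ[η | F ⊔ L] :=
    ae_eq_condExp_of_forall_setIntegral_eq hG hη (fun _ _ _ => integrableOn_zero)
      (fun u hu' _ => by simp [hall u hu']) aestronglyMeasurable_zero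
  obtain ⟨C, hC⟩ := hA.2
  have hi : Integrable (η * A) μ := hη.mul_bdd (hA.1.mono hG) hC
  have h1 := condExp_mul_of_aestronglyMeasurable_right hA.1 hi hη
  change ∫ x, (η * A) x ∂μ = 0
  rw [← integral_condExp hG, integral_congr_ae h1,
    integral_congr_ae (h0.symm.mul (EventuallyEq.refl _ A))]
  simp

end NDr

open NDr in
theorem nd : NDS := by
  intro X F L m0 μ _ hF hL hc A B Z₁ Z₂ hA hB hZ₁ hZ₂ h
  have hG : F ⊔ L ≤ m0 := sup_le hF hL
  have A2 : MemLp A 2 μ := (top hG hA).mono_exponent le_top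
  have B2 : MemLp B 2 μ := (top hG hB).mono_exponent le_top
  have Z12 : MemLp Z₁ 2 μ := (top le_rfl hZ₁).mono_exponent le_top
  have Z22 : MemLp Z₂ 2 μ := (top le_rfl hZ₂).mono_exponent le_top
  have e : ∀ {f g : X → ℝ} (hf : MemLp f 2 μ) (hg : MemLp g 2 μ),
      inner ℝ hf.toLp hg.toLp = ∫ x, f x * g x ∂μ := fun hf hg => by
    rw [inner_eq]
    exact integral_congr_ae (hf.coeFn_toLp.mul hg.coeFn_toLp)
  rw [← e Z12 A2, ← e Z22 B2]
  refine orbit2 (K := {l : X → ℝ // ABM L μ l} × {l : X → ℝ // ABM L μ l})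
    (fun a => op hF (top hL a.1.2) (top hL a.2.2)) (fun a b => ?_)
    (fun a => ⟨a.swap, fun x y => op_adj hF _ _ x y⟩) _ _ _ _ (fun η hη => ?_) fun a => ?_
  · have h1 := abm_mul a.1.2 b.2.2
    have h2 : ABM L μ (μ[a.1.1 * b.2.1 | F]) := by
      obtain ⟨C, hC⟩ := h1.2
      exact ⟨hc _ h1, C, ae_bdd_abs_condExp_of_ae_bdd_abs hC⟩
    refine ⟨(b.1, ⟨_, abm_mul a.2.2 h2⟩), fun x => Lp.ext ?_⟩
    refine (op_ae hF _ _ _).trans (EventuallyEq.trans ?_ (op_ae hF _ _ _).symm)
    rw [mul_assoc]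
    refine EventuallyEq.rfl.mul ((condExp_congr_ae
      (EventuallyEq.rfl.mul (op_ae hF _ _ x))).trans ?_)
    rw [← mul_assoc]
    obtain ⟨C, hC⟩ := h1.2
    exact condExp_mul_of_stronglyMeasurable_right stronglyMeasurable_condExp
      (integrable_condExp.bdd_mul (h1.1.mono hL) hC) ((top hL h1).integrable le_top)
  · have hi : Integrable η μ := (Lp.memLp η).integrable one_le_two
    have h1 : ∀ t, MeasurableSet[L] t → μ[t.indicator η | F] =ᵐ[μ] 0 := fun t ht => by
      have a1 : ABM L μ (t.indicator (1 : X → ℝ)) :=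
        ⟨(stronglyMeasurable_one.indicator ht).aestronglyMeasurable, 1, .of_forall fun x => by
          by_cases hx : x ∈ t <;> simp [hx]⟩
      have a2 : ABM L μ (1 : X → ℝ) := ⟨aestronglyMeasurable_one, 1, .of_forall fun x => by simp⟩
      have a3 := op_ae hF (top hL a1) (top hL a2) η
      have a4 : op hF (top hL a1) (top hL a2) η = 0 := hη (⟨_, a1⟩, ⟨_, a2⟩)
      rw [a4, one_mul, show t.indicator (1 : X → ℝ) * η = t.indicator η from
        funext fun x => by by_cases hx : x ∈ t <;> simp [hx]] at a3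
      exact a3.symm.trans (Lp.coeFn_zero ℝ 2 μ)
    rw [inner_eq, inner_eq]
    exact ⟨(integral_congr_ae (EventuallyEq.rfl.mul A2.coeFn_toLp)).trans (orth_sup hF hL hi h1 hA),
      (integral_congr_ae (EventuallyEq.rfl.mul B2.coeFn_toLp)).trans (orth_sup hF hL hi h1 hB)⟩
  · have k : ∀ {f g : X → ℝ} (hf : MemLp f 2 μ) (hg : MemLp g 2 μ),
        inner ℝ hf.toLp (op hF (top hL a.1.2) (top hL a.2.2) hg.toLp) =
          ∫ x, f x * (a.2.1 x * (μ[fun y => a.1.1 y * g y | F]) x) ∂μ := fun hf hg => by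
      rw [inner_eq]
      exact integral_congr_ae (hf.coeFn_toLp.mul ((op_ae hF _ _ _).trans (EventuallyEq.rfl.mul
        (condExp_congr_ae (EventuallyEq.rfl.mul hg.coeFn_toLp)))))
    exact (k Z12 A2).trans ((h _ _ a.1.2 a.2.2).trans (k Z22 B2).symm)

end Pool.Agent.MP_154433_an.SG

end

end MrgPart3

-- ======== part 4: formerly Pool.Agent.MP_154433_an.sg.G2
section MrgPart4

/-! Row G2: conditioning on the other points of a line preserves the algebra `PJ`. -/

set_option autoImplicit false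

open MeasureTheory ProbabilityTheory Filter Function

noncomputable section

namespace Pool.Agent.MP_154433_an.SG

namespace G2h

section Gen

variable {X : Type} {m m' : MeasurableSpace X} {m0 : MeasurableSpace X} {μ : Measure X}

lemma mono {g : X → ℝ} (h : m ≤ m') (hg : ABM m μ g) : ABM m' μ g := ⟨hg.1.mono h, hg.2⟩

lemma mul {f g : X → ℝ} (hf : ABM m μ f) (hg : ABM m μ g) : ABM m μ fun x => f x * g x := by
  obtain ⟨h1, C, hC⟩ := hf
  obtain ⟨h2, D, hD⟩ := hg
  refine ⟨h1.mul h2, C * D, ?_⟩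
  filter_upwards [hC, hD] with x a b
  rw [norm_mul]
  exact mul_le_mul a b (norm_nonneg _) ((norm_nonneg _).trans a)

lemma sub {f g : X → ℝ} (hf : ABM m μ f) (hg : ABM m μ g) : ABM m μ fun x => f x - g x := by
  obtain ⟨h1, C, hC⟩ := hf
  obtain ⟨h2, D, hD⟩ := hg
  refine ⟨h1.sub h2, C + D, ?_⟩
  filter_upwards [hC, hD] with x a b
  exact (norm_sub_le _ _).trans (add_le_add a b)

lemma const (c : ℝ) : ABM m μ fun _ => c :=
  ⟨aestronglyMeasurable_const, ‖c‖, Eventually.of_forall fun _ => le_rfl⟩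

lemma ind {A : Set X} (hA : MeasurableSet[m] A) : ABM m μ (A.indicator fun _ => (1 : ℝ)) :=
  ⟨(stronglyMeasurable_const.indicator hA).aestronglyMeasurable, 1,
    Eventually.of_forall fun x => by by_cases h : x ∈ A <;> simp [h]⟩

lemma prod {ι : Type} (s : Finset ι) {f : ι → X → ℝ} (hf : ∀ i ∈ s, ABM m μ (f i)) :
    ABM m μ fun x => ∏ i ∈ s, f i x := by
  classical
  induction s using Finset.induction_on with
  | empty => simpa using const 1
  | insert a s ha ih =>
    simp only [Finset.prod_insert ha]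
    exact mul (hf a (by simp)) (ih fun i hi => hf i (by simp [hi]))

lemma comp {τ : X → X} (hτ : MeasurePreserving τ μ μ) {g : X → ℝ} (hg : ABM m μ g) :
    ABM (m.comap τ) μ fun x => g (τ x) := by
  obtain ⟨⟨g', h1, h2⟩, C, hC⟩ := hg
  refine ⟨⟨fun x => g' (τ x), ?_, hτ.quasiMeasurePreserving.ae_eq_comp h2⟩, C,
    hτ.quasiMeasurePreserving.ae hC⟩
  exact h1.comp_measurable (@Measurable.of_comap_le X X (m.comap τ) m τ le_rfl)

lemma cexp {g : X → ℝ} (hg : ABM m0 μ g) : ABM m μ (μ[g | m]) := by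
  obtain ⟨h1, C, hC⟩ := hg
  exact ⟨stronglyMeasurable_condExp.aestronglyMeasurable, C, ae_bdd_abs_condExp_of_ae_bdd_abs hC⟩

variable [IsProbabilityMeasure μ]

lemma integ {g : X → ℝ} (h : m ≤ m0) (hg : ABM m μ g) : Integrable g μ := by
  obtain ⟨h1, C, hC⟩ := hg
  exact Integrable.of_bound (h1.mono h) C hC

lemma pull {f g : X → ℝ} (h : m ≤ m0) (hf : ABM m μ f) (hg : ABM m0 μ g) :
    μ[fun x => f x * g x | m] =ᵐ[μ] fun x => f x * (μ[g | m]) x :=
  condExp_mul_of_aestronglyMeasurable_left hf.1 (integ le_rfl (mul (mono h hf) hg))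
    (integ le_rfl hg)

lemma int_cexp {f g : X → ℝ} (h : m ≤ m0) (hf : ABM m μ f) (hg : ABM m0 μ g) :
    ∫ x, (μ[g | m]) x * f x ∂μ = ∫ x, g x * f x ∂μ := by
  simp_rw [mul_comm _ (f _)]
  rw [← integral_congr_ae (pull h hf hg), integral_condExp h]

lemma adj {f g : X → ℝ} (h : m ≤ m0) (hf : ABM m0 μ f) (hg : ABM m0 μ g) :
    ∫ x, (μ[g | m]) x * f x ∂μ = ∫ x, g x * (μ[f | m]) x ∂μ := by
  rw [← int_cexp h (cexp hf) hg]
  simp_rw [mul_comm ((μ[g | m]) _)]
  exact (int_cexp h (cexp hg) hf).symm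

lemma orth_sub {g : X → ℝ} (h : m ≤ m0) (hg : ABM m0 μ g) :
    Orth m μ fun x => g x - (μ[g | m]) x := fun ψ hψ => by
  simp_rw [sub_mul]
  rw [integral_sub (integ le_rfl (mul hg (mono h hψ))) (integ h (mul (cexp hg) hψ)),
    int_cexp h hψ hg, sub_self]

lemma sq_zero {g : X → ℝ} (hg : ABM m0 μ g) (h : ∫ x, g x * g x ∂μ = 0) : g =ᵐ[μ] 0 := by
  have := (integral_eq_zero_iff_of_nonneg (fun x => mul_self_nonneg (g x))
    (integ le_rfl (mul hg hg))).1 h
  filter_upwards [this] with x hx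
  exact mul_self_eq_zero.1 hx

lemma orth_sup {g : X → ℝ} (h : m ≤ m0) (h' : m' ≤ m0) (hg : ABM m0 μ g)
    (H : ∀ φ : X → ℝ, ABM m μ φ → ∀ B, MeasurableSet[m'] B →
      ∫ x, g x * B.indicator (fun _ => (1 : ℝ)) x * φ x ∂μ = 0) : Orth (m ⊔ m') μ g := by
  have hle : m ⊔ m' ≤ m0 := sup_le h h'
  have hi := integ le_rfl hg
  have key : ∀ s, MeasurableSet[m ⊔ m'] s → ∫ x in s, g x ∂μ = 0 := by
    have e : m ⊔ m' = MeasurableSpace.generateFrom
        {s | ∃ A B, MeasurableSet[m] A ∧ MeasurableSet[m'] B ∧ s = A ∩ B} := by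
      refine le_antisymm (sup_le (fun A hA => ?_) fun B hB => ?_)
        (MeasurableSpace.generateFrom_le ?_)
      · exact MeasurableSpace.measurableSet_generateFrom ⟨A, Set.univ, hA, .univ, by simp⟩
      · exact MeasurableSpace.measurableSet_generateFrom ⟨Set.univ, B, .univ, hB, by simp⟩
      · rintro _ ⟨A, B, hA, hB, rfl⟩
        exact MeasurableSet.inter ((le_sup_left : m ≤ m ⊔ m') A hA)
          ((le_sup_right : m' ≤ m ⊔ m') B hB)
    have hp : IsPiSystem {s | ∃ A B, MeasurableSet[m] A ∧ MeasurableSet[m'] B ∧ s = A ∩ B} := by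
      rintro _ ⟨A, B, hA, hB, rfl⟩ _ ⟨A', B', hA', hB', rfl⟩ _
      exact ⟨A ∩ A', B ∩ B', hA.inter hA', hB.inter hB', Set.inter_inter_inter_comm _ _ _ _⟩
    have base : ∀ A B, MeasurableSet[m] A → MeasurableSet[m'] B → ∫ x in A ∩ B, g x ∂μ = 0 := by
      intro A B hA hB
      rw [← H _ (ind hA) B hB, ← integral_indicator ((h A hA).inter (h' B hB))]
      refine integral_congr_ae (Eventually.of_forall fun x => ?_)
      by_cases a : x ∈ A <;> by_cases b : x ∈ B <;> simp [a, b]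
    intro s hs
    refine @MeasurableSpace.induction_on_inter X (m ⊔ m') (fun s _ => ∫ x in s, g x ∂μ = 0) _ e hp
      (by simp) ?_ ?_ ?_ s hs
    · rintro _ ⟨A, B, hA, hB, rfl⟩
      exact base A B hA hB
    · intro t ht h0
      have := base Set.univ Set.univ .univ .univ
      rw [Set.univ_inter, Measure.restrict_univ] at this
      rw [setIntegral_compl (hle t ht) hi, this, h0, sub_zero]
    · intro f hd hf h0
      rw [integral_iUnion (fun i => hle _ (hf i)) hd hi.integrableOn]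
      simp [h0]
  have z : (fun _ => (0 : ℝ)) =ᵐ[μ] μ[g | m ⊔ m'] :=
    ae_eq_condExp_of_forall_setIntegral_eq hle hi (fun _ _ _ => integrable_zero _ _ _)
      (fun s hs _ => by simp [key s hs]) aestronglyMeasurable_const
  intro ψ hψ
  rw [← int_cexp hle hψ hg, ← integral_zero X ℝ]
  refine integral_congr_ae ?_
  filter_upwards [z] with x hx
  simp [← hx]

lemma orth_supN {ι : Type} {F : MeasurableSpace X} {m0 : MeasurableSpace X} {μ : Measure X}
    [IsProbabilityMeasure μ] (h : m ≤ m0) (hF : F ≤ m0) (τ : ι → X → X)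
    (hτ : ∀ j, MeasurePreserving (τ j) μ μ) (s : Finset ι) : ∀ {g : X → ℝ}, ABM m0 μ g →
    (∀ (ψ : X → ℝ) (a : ι → X → ℝ), ABM m μ ψ → (∀ j, ABM F μ (a j)) →
      ∫ x, g x * (ψ x * ∏ j ∈ s, a j (τ j x)) ∂μ = 0) →
    Orth (m ⊔ ⨆ j ∈ s, F.comap (τ j)) μ g := by
  classical
  have hc : ∀ j, F.comap (τ j) ≤ m0 := fun j =>
    (MeasurableSpace.comap_mono hF).trans (hτ j).measurable.comap_le
  induction s using Finset.induction_on with
  | empty =>
    intro g _ H ψ hψ
    simpa using H ψ (fun _ _ => 1) (by simpa using hψ) fun _ => const 1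
  | insert j s hj ih =>
    intro g hg H
    rw [Finset.iSup_insert, sup_comm (F.comap (τ j)), ← sup_assoc]
    refine orth_sup (sup_le h (iSup₂_le fun k _ => hc k)) (hc j) hg fun φ hφ B hB => ?_
    refine ih (mul hg (mono (hc j) (ind hB))) (fun ψ a hψ ha => ?_) φ hφ
    obtain ⟨B', hB', rfl⟩ := hB
    rw [← H ψ (update a j (B'.indicator fun _ => 1)) hψ fun k => by
      by_cases e : k = j
      · subst e; simpa using ind hB'
      · simpa [e] using ha k]
    refine integral_congr_ae (Eventually.of_forall fun x => ?_)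
    have e : ∏ k ∈ s, update a j (B'.indicator fun _ => 1) k (τ k x) = ∏ k ∈ s, a k (τ k x) :=
      Finset.prod_congr rfl fun k hk => by rw [update_of_ne (ne_of_mem_of_not_mem hk hj)]
    simp only [Finset.prod_insert hj, update_self, e]
    have : (τ j ⁻¹' B').indicator (fun _ => (1 : ℝ)) x = B'.indicator (fun _ => 1) (τ j x) := rfl
    rw [this]; ring

end Gen

open Fam

lemma sig_le {Φ : Fam} (T : Set Φ.Alg) : sig T ≤ (inferInstance : MeasurableSpace Φ.Pt) :=
  biSup_mono fun _ _ => Set.mem_univ _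

lemma full_mono {Φ : Fam} {I I' : Set ℕ} (h : I ⊆ I') : Φ.Full I ≤ Φ.Full I' :=
  biSup_mono fun _ hF N => (hF N).mono h

lemma th_zero {Φ : Fam} (x : Φ.Pt) : Φ.Th 0 x = x := by
  ext F
  show x.ev ((Φ.th 0).pull F) = x.ev F
  congr 1
  ext N ω
  show F.1 N (update ω 0 (ω 0 + dot 0 ω)) = F.1 N ω
  simp [dot]

end G2h

open G2h Fam

theorem g2 : G2S := by
  intro S ι _ _ r Γ I hc hR hD J hJ s hs i
  have fd := hc.fd
  have fr := hc.fr
  have hlv : ∀ I' : Set ℕ, I ⊆ I' → Lives Γ I' := fun I' h γ hγ =>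
    ⟨(fr.lives γ hγ).1.trans h, (fr.lives γ hγ).2⟩
  have hsup : ∀ (d : ℤ) (t : ℕ), ((d • ee t).support : Set ℕ) ⊆ {t} := fun d t => by
    intro k hk
    simpa using Finsupp.support_single_subset (Finsupp.support_smul hk)
  have fle : ∀ I' : Set ℕ, S.Full I' ≤ (inferInstance : MeasurableSpace S.Pt) := fun _ => sig_le _
  have hBF : S.BB r Γ I J s i ≤ S.Full (I ∪ J) :=
    sup_le (fd.base_le _ _ (hlv _ Set.subset_union_left)) (iSup₂_le fun j _ =>
      fd.thetaF _ _ _ Set.subset_union_left ((hsup _ _).trans (by simp [hs])))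
  have hB := hBF.trans (fle _)
  have hPF : S.PJ I J ≤ S.Full (I ∪ J) :=
    sup_le (full_mono Set.subset_union_left) (full_mono Set.sdiff_subset)
  have hP := hPF.trans (fle _)
  obtain ⟨t, ⟨htI, hto⟩, htJ⟩ := fr.cos.exists_notMem_finset J
  obtain ⟨j1, hj1⟩ : ∃ j1 : ι, j1 ≠ i :=
    Fintype.exists_ne_of_one_lt_card (by have := hc.three; omega) i
  -- step A
  have A : ∀ h : S.Pt → ℝ, ABM (S.Full (I ∪ J)) S.μ h → Orth (S.PJ I J) S.μ h →
      Orth (S.Full I) S.μ (S.μ[h | S.BB r Γ I J s i]) := by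
    intro h hh ho
    have hK : ABM (S.BB r Γ I J s i) S.μ (S.μ[h | S.BB r Γ I J s i]) := cexp (mono (fle _) hh)
    set K := S.μ[h | S.BB r Γ I J s i] with hKd
    have hb : ABM (S.Full I) S.μ (S.μ[K | S.Full I]) := cexp (mono hB hK)
    set b := S.μ[K | S.Full I] with hbd
    have o1 : Orth (S.BB r Γ I {t} t i) S.μ b := by
      have e : S.BB r Γ I {t} t i = S.Base Γ (I ∪ ({t} : Finset ℕ)) ⊔
          ⨆ j ∈ Finset.univ.erase i, (S.Full I).comap (S.Th ((r j - r i) • ee t)) := by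
        simp [Sys.BB]
      rw [e]
      refine orth_supN (sig_le _) (fle _) _ (fun j => fd.thmp _) _ (mono (fle _) hb)
        fun ψ a hψ ha => ?_
      have ht : I ∪ ({t} : Finset ℕ) = insert t I := by simp
      rw [ht] at hψ
      have hψ' : ABM (S.Full (insert t I)) S.μ ψ :=
        mono (fd.base_le _ _ (hlv _ (Set.subset_insert _ _))) hψ
      have ha' : ∀ j, ABM (S.Full (insert t I)) S.μ
          fun x => a j (S.Th ((r j - r i) • ee t) x) := fun j =>
        mono (fd.thetaF _ _ _ (Set.subset_insert _ _) ((hsup _ _).trans (by simp)))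
          (comp (fd.thmp _) (ha j))
      have hu := mul hψ' (prod (Finset.univ.erase i) fun j _ => ha' j)
      have c1 := fd.ci (I ∪ J) (insert t I) K (mono hBF hK)
      have ei : (I ∪ J) ∩ insert t I = I := by
        ext k
        simp only [Set.mem_inter_iff, Set.mem_union, Finset.mem_coe, Set.mem_insert_iff]
        constructor
        · rintro ⟨h1 | h1, rfl | h2⟩
          exacts [h1, h1, absurd h1 htJ, h2]
        · exact fun h => ⟨Or.inl h, Or.inr h⟩
      rw [ei] at c1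
      have d1 := hD J hJ s hs i (fun k => r k - r i) (fun k k' e => hc.inj (by simpa using e))
        t htI htJ hto (update a i h) ψ (fun k => by
          by_cases e : k = i
          · subst e; simpa using hh
          · simpa [e] using mono (full_mono Set.subset_union_left) (ha k))
        (mono (fd.base_mono _ _ _ _ le_rfl
          (Set.insert_subset_insert Set.subset_union_left)) hψ) i j1
      have r2 := hR I J t (r j1 - r i) h _ (S.μ[a j1 | S.BB r Γ I J s i]) fr.zero hJ htI htJ hto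
        (sub_ne_zero.2 fun e => hj1 (hc.inj e)) fr.cos hh
        (mono hBF (cexp (mono (fle _) (ha j1))))
        (mul hψ' (prod ((Finset.univ.erase i).erase j1) fun j _ => ha' j)) ho
      simp only [update_self, update_idem, update_of_ne hj1, Sys.TT] at d1
      have s1 : ∫ x, b x * (ψ x * ∏ j ∈ Finset.univ.erase i, a j (S.Th ((r j - r i) • ee t) x))
          ∂S.μ = ∫ x, K x *
            (ψ x * ∏ j ∈ Finset.univ.erase i, a j (S.Th ((r j - r i) • ee t) x)) ∂S.μ := by
        rw [← int_cexp (fle _) hu (mono hB hK)]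
        refine integral_congr_ae ?_
        filter_upwards [c1] with x hx
        rw [hx]
      rw [s1, ← r2]
      refine Eq.trans (integral_congr_ae (Eventually.of_forall fun x => ?_))
        (d1.trans (integral_congr_ae (Eventually.of_forall fun x => ?_)))
      · simp only []
        rw [← Finset.mul_prod_erase _ _ (Finset.mem_univ i), update_self, sub_self, zero_smul,
          th_zero, Finset.prod_congr (f := fun k => update a i K k (S.Th ((r k - r i) • ee t) x))
            rfl fun k hk => by rw [update_of_ne (Finset.ne_of_mem_erase hk)]]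
        ring
      · simp only []
        rw [← Finset.mul_prod_erase _ _ (Finset.mem_univ i), update_of_ne hj1.symm, update_self,
          sub_self, zero_smul, th_zero,
          ← Finset.mul_prod_erase _ _ (Finset.mem_erase.2 ⟨hj1, Finset.mem_univ j1⟩), update_self,
          Finset.prod_congr rfl fun k hk => by
            rw [update_of_ne (Finset.ne_of_mem_erase hk), update_of_ne
              (Finset.ne_of_mem_erase (Finset.mem_of_mem_erase hk))]]
        ring
    have hsI := (hJ s hs).1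
    have hso := (hJ s hs).2
    have hfix : ∀ j ∈ I, Equiv.swap s t j = j := fun j hj =>
      Equiv.swap_apply_of_ne_of_ne (ne_of_mem_of_not_mem hj hsI) (ne_of_mem_of_not_mem hj htI)
    have hkp : KP (Equiv.swap s t) := ⟨hfix 0 fr.zero, fun j => by
      rw [Equiv.swap_apply_def]
      split_ifs with h1 h2
      · simp [h1, hto, hso]
      · simp [h2, hto, hso]
      · rfl⟩
    have hmp := fd.pmmp _ hkp
    have hs1 : ∀ j ∈ ({s} : Finset ℕ), j ∉ I := by simpa using hsI
    have e2 := fd.bbeq ι r Γ I {s} s i hs1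
    have o2 : Orth (S.BB r Γ I {s} s i) S.μ b := fun φ hφ => by
      have p := fd.permBB ι r Γ I {s} s i (Equiv.swap s t) hkp.1 fr.lives hfix
      rw [Finset.image_singleton, Equiv.swap_apply_left] at p
      have hφ0 : ABM (inferInstance : MeasurableSpace S.Pt) S.μ φ :=
        mono (e2.le.trans (sig_le _)) hφ
      have q := integral_map hmp.measurable.aemeasurable
        (f := fun x => b x * φ x) (by rw [hmp.map_eq]; exact (mul (mono (fle _) hb) hφ0).1)
      rw [hmp.map_eq] at q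
      rw [q, ← o1 _ (mono p (comp hmp hφ))]
      refine integral_congr_ae ?_
      filter_upwards [fd.pmfix I _ b hmp hfix hb.1] with x hx
      rw [hx]
    have hsJ : I ∪ ({s} : Finset ℕ) ⊆ I ∪ J := Set.union_subset_union_right _ (by simp [hs])
    rw [e2] at o2
    have o3 := fd.s0 _ _ (I ∪ J) (Or.inl fr.zero) (by
      rintro γ (hγ | ⟨j, -, rfl⟩)
      · exact hlv _ Set.subset_union_left γ hγ
      · exact ⟨Set.subset_union_right, fun k hk =>
          Finset.mem_singleton.2 (hsup (r j - r i) s hk)⟩) hsJ b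
      (mono (full_mono Set.subset_union_left) hb) o2
    have hle : S.BB r Γ I J s i ≤
        S.Base (Γ ∪ {γ | ∃ j, j ≠ i ∧ γ = ({s}, (r j - r i) • ee s)}) (I ∪ J) :=
      sup_le (fd.base_mono _ _ _ _ Set.subset_union_left le_rfl)
        ((le_sup_right.trans e2.le).trans (fd.base_mono _ _ _ _ le_rfl hsJ))
    have z : b =ᵐ[S.μ] 0 := sq_zero (mono (fle _) hb) (by
      rw [hbd, int_cexp (fle _) hb (mono hB hK), ← o3 K (mono hle hK)]
      simp_rw [mul_comm (K _)])
    intro ψ hψ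
    rw [← int_cexp (fle _) hψ (mono hB hK), ← integral_zero S.Pt ℝ]
    refine integral_congr_ae ?_
    filter_upwards [z] with x hx
    rw [← hbd, hx]; simp
  -- step B
  have B : ∀ h : S.Pt → ℝ, ABM (S.Full (I ∪ J)) S.μ h → Orth (S.PJ I J) S.μ h →
      Orth (S.PJ I J) S.μ (S.μ[h | S.BB r Γ I J s i]) := by
    intro h hh ho
    refine orth_sup (fle _) (fle _) (mono hB (cexp (mono (fle _) hh))) fun φ hφ L hL => ?_
    have hl : ABM (S.Lam (I ∪ J)) S.μ (L.indicator fun _ => (1 : ℝ)) := ind hL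
    rw [← A _ (mul (mono (le_sup_right.trans hPF) hl) hh) (fun ψ hψ => by
      rw [← ho _ (mul (mono le_sup_right hl) hψ)]
      exact integral_congr_ae (Eventually.of_forall fun x => by simp only []; ring)) φ hφ]
    refine integral_congr_ae ?_
    filter_upwards [pull hB (mono ((fd.lam_le Γ _ fr.hL).trans le_sup_left) hl)
      (mono (fle _) hh)] with x hx
    rw [hx]; ring
  -- step C
  intro a ha
  have hK : ABM (S.BB r Γ I J s i) S.μ (S.μ[a | S.BB r Γ I J s i]) := cexp (mono hP ha)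
  have hE : ABM (S.PJ I J) S.μ (S.μ[S.μ[a | S.BB r Γ I J s i] | S.PJ I J]) := cexp (mono hB hK)
  have hh := sub (mono hBF hK) (mono hPF hE)
  have ho := orth_sub hP (mono hB hK)
  have z := sq_zero (mono (fle _) hh) (by
    have e1 := B _ hh ho a ha
    rw [adj hB (mono hP ha) (mono (fle _) hh)] at e1
    have e2 := ho _ hE
    simp only [mul_sub _ ((S.μ[a | S.BB r Γ I J s i]) _)]
    rw [integral_sub (integ (fle _) (mul hh (mono hBF hK))) (integ (fle _) (mul hh (mono hPF hE))),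
      e1, e2, sub_self])
  refine hE.1.congr ?_
  filter_upwards [z] with x hx
  exact (sub_eq_zero.1 hx).symm

end Pool.Agent.MP_154433_an.SG

end

end MrgPart4

-- ======== part 5: formerly Pool.Agent.MP_154433_an.sg.PA1
section MrgPart5

/-! Row PA1: a failure of the vanishing statement gives a function determined on every line. -/

set_option autoImplicit false
set_option linter.unusedVariables false
set_option linter.unusedSectionVars false

open MeasureTheory ProbabilityTheory Filter Topology Function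

noncomputable section

namespace Pool.Agent.MP_154433_an.SG

open Fam

namespace pa1h

section abm

variable {X : Type} {m m' : MeasurableSpace X} {m0 : MeasurableSpace X} {μ : Measure X}

lemma mono {g : X → ℝ} (h : m ≤ m') (hg : ABM m μ g) : ABM m' μ g :=
  ⟨hg.1.mono h, hg.2⟩

lemma mul {g g' : X → ℝ} (hg : ABM m μ g) (hg' : ABM m μ g') : ABM m μ fun x => g x * g' x := by
  obtain ⟨h1, C, hC⟩ := hg
  obtain ⟨h2, C', hC'⟩ := hg'
  refine ⟨h1.mul h2, C * C', ?_⟩
  filter_upwards [hC, hC'] with x hx hx'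
  rw [norm_mul]
  exact mul_le_mul hx hx' (norm_nonneg _) ((norm_nonneg _).trans hx)

lemma prod {ι : Type} [DecidableEq ι] (s : Finset ι) {g : ι → X → ℝ}
    (hg : ∀ i ∈ s, ABM m μ (g i)) : ABM m μ fun x => ∏ i ∈ s, g i x := by
  induction s using Finset.induction_on with
  | empty => exact ⟨by simpa using aestronglyMeasurable_const, 1, by simp⟩
  | insert a s ha ih =>
    simp only [Finset.prod_insert ha]
    exact mul (hg a (by simp)) (ih fun i hi => hg i (by simp [hi]))

lemma integ [IsFiniteMeasure μ] {g : X → ℝ} (h : m ≤ m0) (hg : ABM m μ g) : Integrable g μ := by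
  obtain ⟨h1, C, hC⟩ := hg
  exact Integrable.of_bound (h1.mono h) C hC

lemma comp {g : X → ℝ} {T : X → X} (hT : MeasurePreserving T μ μ) (h : m.comap T ≤ m')
    (hg : ABM m μ g) : ABM m' μ fun x => g (T x) := by
  obtain ⟨⟨g', hg', he⟩, C, hC⟩ := hg
  refine ⟨⟨fun x => g' (T x), ?_, hT.quasiMeasurePreserving.ae_eq_comp he⟩, C,
    hT.quasiMeasurePreserving.ae hC⟩
  have hm : @Measurable X X m' m T := measurable_iff_comap_le.2 h
  exact hg'.comp_measurable hm

lemma cbound [IsFiniteMeasure μ] {g : X → ℝ} (hg : ABM m μ g) :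
    ∃ C : ℝ, ∀ᵐ x ∂μ, ‖(μ[g | m']) x‖ ≤ C := by
  obtain ⟨_, C, hC⟩ := hg
  exact ⟨C, ae_bdd_abs_condExp_of_ae_bdd_abs (μ := μ) (m := m') (R := C) (f := g) hC⟩

lemma pull [IsFiniteMeasure μ] {w g : X → ℝ} (h : m ≤ m0) (hw : ABM m μ w) (hg : ABM m0 μ g) :
    ∫ x, w x * (μ[g | m]) x ∂μ = ∫ x, w x * g x ∂μ := by
  have h1 : μ[w * g | m] =ᵐ[μ] w * μ[g | m] :=
    condExp_mul_of_aestronglyMeasurable_left hw.1 (integ le_rfl (mul (mono h hw) hg))
      (integ le_rfl hg)
  have h2 : ∫ x, (μ[w * g | m]) x ∂μ = ∫ x, (w * g) x ∂μ := integral_condExp h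
  rw [integral_congr_ae h1] at h2
  exact h2

end abm

lemma dot_update {Φ : Fam} {N : ℕ} (c : ℕ →₀ ℤ) (ω : Φ.Om N) (v : Φ.G N) :
    dot c (update ω 0 v) = dot c ω :=
  dot_congr c fun j _ hj => update_of_ne hj _ _

lemma Th_Th {Φ : Fam} (c c' : ℕ →₀ ℤ) (x : Φ.Pt) : Φ.Th c (Φ.Th c' x) = Φ.Th (c + c') x := by
  apply Pt.ext
  ext F
  show x.ev ((Φ.th c').pull ((Φ.th c).pull F)) = x.ev ((Φ.th (c + c')).pull F)
  have : (Φ.th c').pull ((Φ.th c).pull F) = (Φ.th (c + c')).pull F := by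
    apply Subtype.ext
    funext N ω
    show F.1 N (update (update ω 0 (ω 0 + dot c' ω)) 0
      (update ω 0 (ω 0 + dot c' ω) 0 + dot c (update ω 0 (ω 0 + dot c' ω)))) =
      F.1 N (update ω 0 (ω 0 + dot (c + c') ω))
    rw [update_idem, update_self, dot_update]
    have : dot (c + c') ω = dot c ω + dot c' ω := by
      simp only [dot, Finsupp.erase_add, map_add]
    rw [this, add_assoc, add_comm (dot c' ω)]
  rw [this]

lemma Th_zero {Φ : Fam} (x : Φ.Pt) : Φ.Th 0 x = x := by
  apply Pt.ext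
  ext F
  show x.ev ((Φ.th 0).pull F) = x.ev F
  have : (Φ.th 0).pull F = F := by
    apply Subtype.ext
    funext N ω
    show F.1 N (update ω 0 (ω 0 + dot 0 ω)) = F.1 N ω
    simp [dot]
  rw [this]

lemma sig_le {Φ : Fam} (T : Set Φ.Alg) : sig T ≤ (inferInstance : MeasurableSpace Φ.Pt) :=
  biSup_mono fun _ _ => Set.mem_univ _

section step

variable {S : Sys} {ι : Type} [Fintype ι] [DecidableEq ι] {r : ι → ℤ}
  {Γ : Set (Finset ℕ × (ℕ →₀ ℤ))} {I : Set ℕ}

lemma bb_le (hc : Ctx S r Γ I) (J : Finset ℕ) (s : ℕ) (i : ι) :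
    S.BB r Γ I J s i ≤ (inferInstance : MeasurableSpace S.Pt) :=
  sup_le (sig_le _) (iSup₂_le fun j _ =>
    (MeasurableSpace.comap_mono (sig_le _)).trans (hc.fd.thmp _).measurable.comap_le)

lemma pj_le (J : Finset ℕ) : S.PJ I J ≤ (inferInstance : MeasurableSpace S.Pt) :=
  sup_le (sig_le _) (sig_le _)

lemma base_th (hc : Ctx S r Γ I) {t : ℕ} (ht : t ∉ I) (d : ℤ) :
    (S.Base Γ (I ∪ ({t} : Finset ℕ))).comap (S.Th (d • ee t)) ≤
      S.Base Γ (I ∪ ({t} : Finset ℕ)) := by
  have hs : ∀ j ∈ (d • ee t).support, j = t := fun j hj => by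
    have := Finsupp.support_smul hj
    simpa using Finsupp.support_single_subset this
  refine hc.fd.theta Γ _ _ _ (fun γ hγ j hj hj' => ht ?_) subset_rfl fun j hj => ?_
  · rw [← hs j hj]
    exact (hc.fr.lives γ hγ).1 hj'
  · right
    simpa using hs j hj

lemma pj_th (hc : Ctx S r Γ I) {t : ℕ} (ht : t ∉ I) {i k : ι} (hk : k ≠ i) :
    (S.PJ I {t}).comap (S.Th ((r k - r i) • ee t)) ≤ S.BB r Γ I {t} t i := by
  unfold Sys.PJ
  rw [MeasurableSpace.comap_sup]
  refine sup_le (le_sup_of_le_right ?_) (le_sup_of_le_left ?_)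
  · exact le_iSup₂_of_le (f := fun (j : ι) (_ : j ∈ {j | j ≠ i}) =>
      (S.Full I).comap (S.Th ((r j - r i) • ee t))) k hk le_rfl
  · exact (MeasurableSpace.comap_mono (hc.fd.lam_le Γ _ hc.fr.hL)).trans (base_th hc ht _)

/-- the form seen from slot `i` -/
lemma tt_slot (hc : Ctx S r Γ I) {t : ℕ} (ψ : S.Pt → ℝ) (F : ι → S.Pt → ℝ) (i : ι)
    (a : S.Pt → ℝ) (hψ : ABM inferInstance S.μ ψ) (hF : ∀ k, ABM inferInstance S.μ (F k))
    (ha : ABM inferInstance S.μ a) :
    S.TT r t ψ (update F i a) = ∫ x, (ψ (S.Th ((-r i) • ee t) x) *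
      ∏ k ∈ Finset.univ.erase i, F k (S.Th ((r k - r i) • ee t) x)) * a x ∂S.μ := by
  have hm : ∀ c, MeasurePreserving (S.Th c) S.μ S.μ := hc.fd.thmp
  have hW : ABM inferInstance S.μ fun x => (ψ (S.Th ((-r i) • ee t) x) *
      ∏ k ∈ Finset.univ.erase i, F k (S.Th ((r k - r i) • ee t) x)) * a x :=
    mul (mul (comp (hm _) (hm _).measurable.comap_le hψ)
      (prod _ fun k _ => comp (hm _) (hm _).measurable.comap_le (hF k))) ha
  rw [← (hm (r i • ee t)).map_eq, integral_map (hm _).measurable.aemeasurable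
    (by rw [(hm _).map_eq]; exact hW.1)]
  unfold Sys.TT
  refine integral_congr_ae (Eventually.of_forall fun x => ?_)
  simp only [Th_Th, ← add_smul, neg_add_cancel, zero_smul, Th_zero, sub_add_cancel]
  rw [← Finset.mul_prod_erase Finset.univ _ (Finset.mem_univ i), update_self,
    Finset.prod_congr rfl fun k hk => by rw [update_of_ne (Finset.ne_of_mem_erase hk)]]
  ring

lemma tt_K (hc : Ctx S r Γ I) {t : ℕ} (ht : t ∉ I) (ψ : S.Pt → ℝ) (F : ι → S.Pt → ℝ) (i : ι)
    (hψ : ABM (S.Base Γ (I ∪ ({t} : Finset ℕ))) S.μ ψ) (hF : ∀ k, ABM (S.PJ I {t}) S.μ (F k)) :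
    S.TT r t ψ (update F i (S.μ[F i | S.BB r Γ I {t} t i])) = S.TT r t ψ F := by
  have hm : ∀ c, MeasurePreserving (S.Th c) S.μ S.μ := hc.fd.thmp
  have hF0 : ∀ k, ABM inferInstance S.μ (F k) := fun k => mono (pj_le _) (hF k)
  have hψ0 : ABM inferInstance S.μ ψ := mono (sig_le _) hψ
  have hK : ABM inferInstance S.μ (S.μ[F i | S.BB r Γ I {t} t i]) :=
    ⟨(stronglyMeasurable_condExp.mono (bb_le hc _ _ _)).aestronglyMeasurable, cbound (hF i)⟩
  conv_rhs => rw [← update_eq_self i F]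
  rw [tt_slot hc ψ F i _ hψ0 hF0 hK, tt_slot hc ψ F i _ hψ0 hF0 (hF0 i)]
  refine pull (bb_le hc _ _ _) (mul ?_ (prod _ fun k hk => ?_)) (hF0 i)
  · exact comp (hm _) ((base_th hc ht _).trans le_sup_left) hψ
  · exact comp (hm _) (pj_th hc ht (Finset.ne_of_mem_erase hk)) (hF k)

end step

end pa1h

open pa1h in
theorem pa1 : PA1S := by
  intro S ι _ _ r Γ I hc h2 h3 hC t ht hodd g ψ i0 hg hψ horth hne
  have hout : Out I {t} := fun j hj => by
    rw [Finset.mem_singleton.1 hj]
    exact ⟨ht, hodd⟩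
  have htt : t ∈ ({t} : Finset ℕ) := Finset.mem_singleton_self t
  have hgP : ∀ k, ABM (S.PJ I {t}) S.μ (g k) := fun k => mono le_sup_left (hg k)
  have key : ∀ A : Finset ι, ∃ f : S.Pt → ℝ, ABM (S.PJ I {t}) S.μ f ∧
      (∀ i ∈ A, AEStronglyMeasurable[S.BB r Γ I {t} t i] f S.μ) ∧
      Orth (S.Base Γ (I ∪ ({t} : Finset ℕ))) S.μ f ∧ S.TT r t ψ (update g i0 f) ≠ 0 := by
    intro A
    induction A using Finset.induction_on with
    | empty =>
      refine ⟨g i0, hgP i0, by simp, ?_, by rwa [update_eq_self]⟩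
      exact hc.fd.s0 Γ I _ hc.fr.zero hc.fr.lives Set.subset_union_left _ (hg i0) horth
    | insert i A hi ih =>
      obtain ⟨f, hf, hA, hO, hT⟩ := ih
      have hf0 : ABM inferInstance S.μ f := mono (pj_le _) hf
      have hF : ∀ k, ABM (S.PJ I {t}) S.μ (update g i0 f k) := fun k => by
        by_cases hk : k = i0
        · rw [hk, update_self]; exact hf
        · rw [update_of_ne hk]; exact hgP k
      refine ⟨S.μ[f | S.BB r Γ I {t} t i], ⟨h2 _ hout t htt i f hf, cbound hf⟩, ?_, ?_, ?_⟩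
      · intro i' hi'
        rcases Finset.mem_insert.1 hi' with rfl | hi'
        · exact stronglyMeasurable_condExp.aestronglyMeasurable
        · have e1 : S.μ[f | S.BB r Γ I {t} t i'] =ᵐ[S.μ] f :=
            condExp_of_aestronglyMeasurable' (bb_le hc _ _ _) (hA i' hi') (integ le_rfl hf0)
          have e2 := hC _ hout t htt t htt i' i f hf
          exact stronglyMeasurable_condExp.aestronglyMeasurable.congr
            (e2.symm.trans (condExp_congr_ae e1))
      · intro φ hφ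
        have e1 := pull (bb_le hc {t} t i) (mono le_sup_left hφ) hf0
        have e2 := hO φ hφ
        simp only [mul_comm _ (φ _)] at e2 ⊢
        rw [e1, e2]
      · have e1 := h3 _ hout t htt i r hc.inj t htt (update g i0 f) ψ hF hψ i i0
        rw [tt_K hc ht ψ _ i hψ hF, update_idem, update_self] at e1
        rwa [← e1]
  obtain ⟨f, hf, hA, hO, hT⟩ := key Finset.univ
  refine ⟨f, hf, fun s hs i => ?_, hO, fun h0 => hT ?_⟩
  · rw [Finset.mem_singleton.1 hs]
    exact hA i (Finset.mem_univ i)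
  · rw [tt_slot hc ψ g i0 f (mono (sig_le _) hψ) (fun k => mono (sig_le _) (hg k))
      (mono (pj_le _) hf)]
    refine integral_eq_zero_of_ae ?_
    filter_upwards [h0] with x hx
    simp [hx]

end Pool.Agent.MP_154433_an.SG

end

end MrgPart5

-- ======== part 6: formerly Pool.Agent.MP_154433_an.sg.GC
section MrgPart6

/-! Row GC: the conditional expectations on the other points of two lines commute. -/

set_option autoImplicit false
set_option linter.unusedVariables false
set_option linter.unusedSectionVars false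

open MeasureTheory ProbabilityTheory Filter Topology Function

noncomputable section

namespace Pool.Agent.MP_154433_an.SG

open Fam pa1h

namespace gch

lemma abm_hat {Φ : Fam} {T : Set Φ.Alg} {F : Φ.Alg} (hF : F ∈ T) (μ : Measure Φ.Pt) :
    ABM (sig T) μ (hat F) := by
  obtain ⟨C, hC⟩ := F.2.2
  refine ⟨Measurable.aestronglyMeasurable (measurable_iff_comap_le.2 ?_), C,
    Eventually.of_forall fun x => x.bdd F C hC⟩
  exact le_iSup₂_of_le (f := fun (F : Φ.Alg) (_ : F ∈ T) =>
    MeasurableSpace.comap (hat F) inferInstance) F hF le_rfl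

lemma abm_one {X : Type} {m m0 : MeasurableSpace X} {μ : Measure X} :
    ABM m μ fun _ => (1 : ℝ) := ⟨aestronglyMeasurable_const, 1, by simp⟩

variable {S : Sys} {ι : Type} [Fintype ι] [DecidableEq ι] {r : ι → ℤ}
  {Γ : Set (Finset ℕ × (ℕ →₀ ℤ))} {I : Set ℕ}

/-- orthogonality to the products gives orthogonality to the generated algebra -/
lemma orth_bb (hc : Ctx S r Γ I) {J : Finset ℕ} (hJ : Out I J) (t : ℕ) (i : ι) {D : S.Pt → ℝ}
    (hD : Integrable D S.μ)
    (h : ∀ (ψ : S.Pt → ℝ) (F : ι → S.Pt → ℝ), ABM (S.Base Γ (I ∪ J)) S.μ ψ →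
      (∀ k, ABM (S.Full I) S.μ (F k)) →
      ∫ x, D x * (ψ x * ∏ k ∈ Finset.univ.erase i, F k (S.Th ((r k - r i) • ee t) x)) ∂S.μ = 0) :
    Orth (S.BB r Γ I J t i) S.μ D := by
  rw [hc.fd.bbeq ι r Γ I J t i fun j hj => (hJ j hj).1]
  refine hc.fd.densA _ D hD fun G hG => ?_
  suffices e : ∃ (ψ : S.Pt → ℝ) (F : ι → S.Pt → ℝ), ABM (S.Base Γ (I ∪ J)) S.μ ψ ∧
      (∀ k, ABM (S.Full I) S.μ (F k)) ∧ ∀ x, hat G x =
        ψ x * ∏ k ∈ Finset.univ.erase i, F k (S.Th ((r k - r i) • ee t) x) by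
    obtain ⟨ψ, F, h1, h2, h3⟩ := e
    simp only [h3]
    exact h ψ F h1 h2
  induction hG using Submonoid.closure_induction with
  | mem G hG =>
    obtain ⟨γ, hγ, hG⟩ := Set.mem_iUnion₂.1 hG
    rcases hγ with hγ | ⟨j, hj, rfl⟩
    · exact ⟨hat G, fun _ _ => 1,
        abm_hat (Submonoid.subset_closure (Set.mem_iUnion₂.2 ⟨γ, hγ, hG⟩)) _,
        fun _ => abm_one, fun x => by simp⟩
    · obtain ⟨F', hF', rfl⟩ := hG
      refine ⟨fun _ => 1, update (fun _ _ => 1) j (hat F'), abm_one, fun k => ?_, fun x => ?_⟩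
      · by_cases hk : k = j
        · rw [hk, update_self]
          exact abm_hat (T := {F | Dep F I})
            (fun N => (hF' N).mono fun n hn => hn.1.resolve_right hn.2) _
        · rw [update_of_ne hk]
          exact abm_one
      · rw [one_mul, Finset.prod_eq_single_of_mem j (by simpa using hj) fun k _ hk => by
          rw [update_of_ne hk], update_self]
        rfl
  | one => exact ⟨fun _ => 1, fun _ _ => 1, abm_one, fun _ => abm_one, fun x => by simp [hat]⟩
  | mul G G' _ _ ih ih' =>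
    obtain ⟨ψ, F, h1, h2, h3⟩ := ih
    obtain ⟨ψ', F', h1', h2', h3'⟩ := ih'
    refine ⟨fun x => ψ x * ψ' x, fun k x => F k x * F' k x, mul h1 h1',
      fun k => mul (h2 k) (h2' k), fun x => ?_⟩
    rw [show hat (G * G') x = hat G x * hat G' x from map_mul _ _ _, h3, h3',
      Finset.prod_mul_distrib]
    ring

lemma tt_at (t : ℕ) (i : ι) (ψ : S.Pt → ℝ) (F : ι → S.Pt → ℝ) (a : S.Pt → ℝ) :
    S.TT (fun k => r k - r i) t ψ (update F i a) = ∫ x, a x *
      (ψ x * ∏ k ∈ Finset.univ.erase i, F k (S.Th ((r k - r i) • ee t) x)) ∂S.μ := by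
  unfold Sys.TT
  refine integral_congr_ae (Eventually.of_forall fun x => ?_)
  simp only
  rw [← Finset.mul_prod_erase Finset.univ _ (Finset.mem_univ i), update_self, sub_self, zero_smul,
    Th_zero, Finset.prod_congr rfl fun k hk => by rw [update_of_ne (Finset.ne_of_mem_erase hk)]]
  ring

lemma abm_upd {X : Type} {m m0 : MeasurableSpace X} {μ : Measure X} {F : ι → X → ℝ} {a : X → ℝ}
    (hF : ∀ k, ABM m μ (F k)) (ha : ABM m μ a) (i k : ι) : ABM m μ (update F i a k) := by
  by_cases hk : k = i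
  · rw [hk, update_self]; exact ha
  · rw [update_of_ne hk]; exact hF k

/-- four moves -/
lemma moves (hc : Ctx S r Γ I) (h2 : G2 S r Γ I) (h3 : G3 S r Γ I) {J : Finset ℕ} (hJ : Out I J)
    {s s' t : ℕ} (hs : s ∈ J) (hs' : s' ∈ J) (ht : t ∈ J) (i i' i0 : ι) {r' : ι → ℤ}
    (hr : Injective r') {F : ι → S.Pt → ℝ} {ψ : S.Pt → ℝ} (hF : ∀ k, ABM (S.PJ I J) S.μ (F k))
    (hψ : ABM (S.Base Γ (I ∪ J)) S.μ ψ) :
    S.TT r' t ψ (update F i0 (S.μ[S.μ[F i0 | S.BB r Γ I J s' i'] | S.BB r Γ I J s i])) =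
      S.TT r' t ψ (update F i0 (S.μ[S.μ[F i0 | S.BB r Γ I J s i] | S.BB r Γ I J s' i'])) := by
  obtain ⟨b, hb, c, hc', hbc⟩ := Finset.one_lt_card.1 (show 1 < (Finset.univ.erase i0).card by
    rw [Finset.card_erase_of_mem (Finset.mem_univ _), Finset.card_univ]
    have := hc.three
    omega)
  replace hb := Finset.ne_of_mem_erase hb
  replace hc' := Finset.ne_of_mem_erase hc'
  have q : ∀ k, ABM (S.PJ I J) S.μ (S.μ[F k | S.BB r Γ I J s i]) := fun k =>
    ⟨h2 J hJ s hs i _ (hF k), cbound (hF k)⟩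
  have q' : ∀ k, ABM (S.PJ I J) S.μ (S.μ[F k | S.BB r Γ I J s' i']) := fun k =>
    ⟨h2 J hJ s' hs' i' _ (hF k), cbound (hF k)⟩
  have e1 := h3 J hJ s hs i r' hr t ht _ ψ (abm_upd hF (q' i0) i0) hψ i0 b
  have e2 := h3 J hJ s' hs' i' r' hr t ht _ ψ (abm_upd hF (q b) b) hψ i0 c
  have e3 := h3 J hJ s hs i r' hr t ht _ ψ (abm_upd hF (q' c) c) hψ b i0
  have e4 := h3 J hJ s' hs' i' r' hr t ht _ ψ (abm_upd hF (q i0) i0) hψ c i0
  rw [update_idem, update_self, update_of_ne hb, update_comm hb.symm] at e1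
  rw [update_of_ne hb.symm, update_of_ne hbc.symm, update_comm hbc] at e2
  rw [update_of_ne hbc, update_of_ne hc'.symm, update_comm hc'] at e3
  rw [update_idem, update_self, update_of_ne hc'] at e4
  rw [e1, e2, e3, e4]

end gch

open gch in
theorem gc : GCS := by
  intro S ι _ _ r Γ I hc h2 h3 J hJ s hs s' hs' i i' a ha
  have hA : ∀ (u u' : ℕ) (j j' : ι), ABM (S.BB r Γ I J u j) S.μ
      (S.μ[S.μ[a | S.BB r Γ I J u' j'] | S.BB r Γ I J u j]) := fun u u' j j' =>
    ⟨stronglyMeasurable_condExp.aestronglyMeasurable, cbound (m := S.BB r Γ I J u' j')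
      ⟨stronglyMeasurable_condExp.aestronglyMeasurable, cbound ha⟩⟩
  have hO : ∀ t ∈ J, ∀ i0 : ι, Orth (S.BB r Γ I J t i0) S.μ fun x =>
      (S.μ[S.μ[a | S.BB r Γ I J s i] | S.BB r Γ I J s' i']) x -
        (S.μ[S.μ[a | S.BB r Γ I J s' i'] | S.BB r Γ I J s i]) x := by
    intro t ht i0
    refine orth_bb hc hJ t i0 (integrable_condExp.sub integrable_condExp) fun ψ F hψ hF => ?_
    have e := moves hc h2 h3 hJ hs hs' ht i i' i0 (r' := fun k => r k - r i0)
      (fun k k' e => hc.inj (sub_left_inj.1 e))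
      (abm_upd (fun k => mono le_sup_left (hF k)) ha i0) hψ
    rw [update_idem, update_idem, update_self, tt_at, tt_at] at e
    have hW : ABM inferInstance S.μ fun x =>
        ψ x * ∏ k ∈ Finset.univ.erase i0, F k (S.Th ((r k - r i0) • ee t) x) :=
      mul (mono (sig_le _) hψ) (prod _ fun k _ =>
        comp (hc.fd.thmp _) (hc.fd.thmp _).measurable.comap_le (mono (sig_le _) (hF k)))
    simp only [sub_mul]
    rw [integral_sub (integ le_rfl (mul (mono (bb_le hc _ _ _) (hA _ _ _ _)) hW))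
      (integ le_rfl (mul (mono (bb_le hc _ _ _) (hA _ _ _ _)) hW)), e, sub_self]
  have e1 := hO s' hs' i' _ (hA s' s i' i)
  have e2 := hO s hs i _ (hA s s' i i')
  have b1 := mono (bb_le hc _ _ _) (hA s' s i' i)
  have b2 := mono (bb_le hc _ _ _) (hA s s' i i')
  generalize S.μ[S.μ[a | S.BB r Γ I J s i] | S.BB r Γ I J s' i'] = u at *
  generalize S.μ[S.μ[a | S.BB r Γ I J s' i'] | S.BB r Γ I J s i] = v at *
  have j1 : Integrable (fun x => (u x - v x) * u x) S.μ := by
    simp only [sub_mul]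
    exact (integ le_rfl (mul b1 b1)).sub (integ le_rfl (mul b2 b1))
  have j2 : Integrable (fun x => (u x - v x) * v x) S.μ := by
    simp only [sub_mul]
    exact (integ le_rfl (mul b1 b2)).sub (integ le_rfl (mul b2 b2))
  have e : ∫ x, ((u x - v x) * u x - (u x - v x) * v x) ∂S.μ = 0 := by
    rw [integral_sub j1 j2, e1, e2, sub_self]
  filter_upwards [(integral_eq_zero_iff_of_nonneg (fun x => by
    simp only [Pi.zero_apply, ← mul_sub]
    exact mul_self_nonneg _) (show Integrable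
      (fun x => (u x - v x) * u x - (u x - v x) * v x) S.μ from j1.sub j2)).1 e] with x hx
  rw [Pi.zero_apply, ← mul_sub, mul_self_eq_zero] at hx
  exact sub_eq_zero.1 hx

end Pool.Agent.MP_154433_an.SG

end

end MrgPart6

-- ======== part 7: formerly Pool.Agent.MP_154433_an.sg.Glo
section MrgPart7

/-! The abstract global system inside the limit space. -/

set_option autoImplicit false

open MeasureTheory ProbabilityTheory Filter Topology Function

noncomputable section

namespace Pool.Agent.MP_154433_an.SG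

open Fam

namespace Glo

section abm

variable {X : Type} {m m' : MeasurableSpace X} {m0 : MeasurableSpace X} {μ : Measure X}
  {g g' : X → ℝ}

lemma mono (h : ABM m μ g) (hm : m ≤ m') : ABM m' μ g := ⟨h.1.mono hm, h.2⟩

lemma mul (h : ABM m μ g) (h' : ABM m μ g') : ABM m μ fun x => g x * g' x := by
  obtain ⟨C, hC⟩ := h.2
  obtain ⟨C', hC'⟩ := h'.2
  refine ⟨h.1.mul h'.1, C * C', ?_⟩
  filter_upwards [hC, hC'] with x a b
  rw [norm_mul]
  exact mul_le_mul a b (norm_nonneg _) ((norm_nonneg _).trans a)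

lemma sub (h : ABM m μ g) (h' : ABM m μ g') : ABM m μ fun x => g x - g' x := by
  obtain ⟨C, hC⟩ := h.2
  obtain ⟨C', hC'⟩ := h'.2
  refine ⟨h.1.sub h'.1, C + C', ?_⟩
  filter_upwards [hC, hC'] with x a b
  exact (norm_sub_le _ _).trans (add_le_add a b)

lemma prod {ι : Type} (s : Finset ι) (f : ι → X → ℝ) (h : ∀ i ∈ s, ABM m μ (f i)) :
    ABM m μ fun x => ∏ i ∈ s, f i x := by
  classical
  induction s using Finset.induction_on with
  | empty => exact ⟨by simpa using aestronglyMeasurable_const, 1, by simp⟩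
  | insert a s ha ih =>
    simp only [Finset.prod_insert ha]
    exact mul (h a (by simp)) (ih fun i hi => h i (by simp [hi]))

lemma comp {θ : X → X} (h : ABM m μ g) (hθ : MeasurePreserving θ μ μ) (hm : m.comap θ ≤ m') :
    ABM m' μ fun x => g (θ x) := by
  obtain ⟨C, hC⟩ := h.2
  refine ⟨⟨fun x => h.1.mk g (θ x), h.1.stronglyMeasurable_mk.comp_measurable
    (Measurable.of_comap_le hm), hθ.quasiMeasurePreserving.ae h.1.ae_eq_mk⟩, C,
    hθ.quasiMeasurePreserving.ae hC⟩

variable [IsFiniteMeasure μ]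

lemma int (h : ABM m μ g) (hm : m ≤ m0) : Integrable g μ := by
  obtain ⟨C, hC⟩ := h.2
  exact Integrable.of_bound (h.1.mono hm) C hC

omit [IsFiniteMeasure μ] in
lemma ce (h : ABM m μ g) : ABM m' μ (μ[g | m']) := by
  obtain ⟨C, hC⟩ := h.2
  exact ⟨stronglyMeasurable_condExp.aestronglyMeasurable, C, ae_bdd_abs_condExp_of_ae_bdd_abs hC⟩

lemma pull (hm' : m' ≤ m0) (hm : m ≤ m0) (h : ABM m μ g) (h' : ABM m' μ g') :
    ∫ x, g' x * (μ[g | m']) x ∂μ = ∫ x, g' x * g x ∂μ := by
  obtain ⟨C, hC⟩ := h'.2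
  rw [← integral_condExp hm' (f := fun x => g' x * g x)]
  exact (integral_congr_ae (condExp_stronglyMeasurable_mul_of_bound₀ hm' h'.1 (int h hm) C hC)).symm

lemma orth (hm' : m' ≤ m) (hm : m ≤ m0) (h : ABM m μ g) :
    Orth m' μ fun x => g x - (μ[g | m']) x := by
  intro ψ hψ
  simp only [mul_comm _ (ψ _), mul_sub]
  rw [integral_sub (int (mul (mono hψ hm') h) hm) (int (mul hψ (ce h)) (hm'.trans hm)),
    pull (hm'.trans hm) hm h hψ, sub_self]

lemma ce_eq (hm : m ≤ m0) (h : ABM m0 μ g) (h' : ABM m μ g')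
    (H : ∀ ψ : X → ℝ, ABM m μ ψ → ∫ x, ψ x * g x ∂μ = ∫ x, ψ x * g' x ∂μ) :
    μ[g | m] =ᵐ[μ] g' := by
  refine (ae_eq_condExp_of_forall_setIntegral_eq hm (int h le_rfl)
    (fun s _ _ => (int h' hm).integrableOn) (fun s hs _ => ?_) h'.1).symm
  have := H (s.indicator 1) ⟨(stronglyMeasurable_one.indicator hs).aestronglyMeasurable, 1,
    Eventually.of_forall fun x => by by_cases c : x ∈ s <;> simp [c]⟩
  simp only [← Set.indicator_mul_left, Pi.one_apply, one_mul] at this
  rwa [integral_indicator (hm s hs), integral_indicator (hm s hs), eq_comm] at this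

/-- Conditional independence from the vanishing of the correlations. -/
lemma cind {F B' B : MeasurableSpace X} {m0 : MeasurableSpace X} {μ : Measure X}
    [IsFiniteMeasure μ] (hF : F ≤ m0) (hB : B ≤ m0) (hB' : B' ≤ F)
    (θ : ℤ → X → X) (hθ : ∀ k, MeasurePreserving (θ k) μ μ) (hθB : ∀ k, B'.comap (θ k) ≤ B)
    (M : Finset ℤ) (a : ℤ → X → ℝ) (ha : ∀ k ∈ M, ABM F μ (a k))
    (hv : ∀ s ⊆ M, ∀ (g : ℤ → X → ℝ) (ψ : X → ℝ), (∀ k ∈ s, ABM F μ (g k)) → ABM B μ ψ →
      ∀ k0 ∈ s, Orth B' μ (g k0) → ∫ x, ψ x * ∏ k ∈ s, g k (θ k x) ∂μ = 0) :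
    μ[fun x => ∏ k ∈ M, a k (θ k x) | B] =ᵐ[μ]
      fun x => ∏ k ∈ M, (μ[fun y => a k (θ k y) | B]) x := by
  have a0 : ∀ k ∈ M, ABM m0 μ fun x => a k (θ k x) := fun k hk =>
    comp (mono (ha k hk) hF) (hθ k) (hθ k).measurable.comap_le
  have b0 : ∀ k ∈ M, ABM B μ fun x => (μ[a k | B']) (θ k x) := fun k hk =>
    comp (ce (ha k hk)) (hθ k) (hθB k)
  have key : ∀ s ⊆ M, ∀ ψ : X → ℝ, ABM B μ ψ →
      ∫ x, ψ x * ∏ k ∈ s, a k (θ k x) ∂μ = ∫ x, ψ x * ∏ k ∈ s, (μ[a k | B']) (θ k x) ∂μ := by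
    intro s
    induction s using Finset.induction_on with
    | empty => intro _ _ _; rfl
    | insert k s hk ih =>
      intro hs ψ hψ
      have hkM := hs (Finset.mem_insert_self k s)
      have hs' := (Finset.subset_insert k s).trans hs
      have h1 := ih hs' _ (mul hψ (b0 k hkM))
      have h2 := hv _ hs (update a k fun x => a k x - (μ[a k | B']) x) ψ (fun j hj => by
        rcases eq_or_ne j k with rfl | c
        · rw [update_self]
          exact sub (ha j hkM) (mono (ce (ha j hkM)) hB')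
        · rw [update_of_ne c]
          exact ha j (hs hj)) hψ k (Finset.mem_insert_self k s) (by
        rw [update_self]
        exact orth hB' hF (ha k hkM))
      have e : ∀ x, ∏ j ∈ s, update a k (fun x => a k x - (μ[a k | B']) x) j (θ j x) =
          ∏ j ∈ s, a j (θ j x) := fun x => Finset.prod_congr rfl fun j hj => by
        rw [update_of_ne (ne_of_mem_of_not_mem hj hk)]
      have hp := prod s _ fun j hj => a0 j (hs' hj)
      simp only [Finset.prod_insert hk, update_self, e, sub_mul, mul_sub] at h2 ⊢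
      rw [integral_sub (int (mul (mono hψ hB) (mul (a0 k hkM) hp)) le_rfl)
        (int (mul (mono hψ hB) (mul (mono (b0 k hkM) hB) hp)) le_rfl), sub_eq_zero] at h2
      simp only [mul_assoc] at h1
      rw [h2, h1]
  have h1 : ∀ s ⊆ M, μ[fun x => ∏ k ∈ s, a k (θ k x) | B] =ᵐ[μ]
      fun x => ∏ k ∈ s, (μ[a k | B']) (θ k x) := fun s hs =>
    ce_eq hB (prod s _ fun k hk => a0 k (hs hk)) (prod s _ fun k hk => b0 k (hs hk)) (key s hs)
  have h2 : ∀ᵐ x ∂μ, ∀ k ∈ M, (μ[fun y => a k (θ k y) | B]) x = (μ[a k | B']) (θ k x) :=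
    (Filter.eventually_all_finset M).2 fun k hk => by
      have := h1 {k} (Finset.singleton_subset_iff.2 hk)
      simp only [Finset.prod_singleton] at this
      exact this
  filter_upwards [h1 M subset_rfl, h2] with x a1 a2
  rw [a1, Finset.prod_congr rfl a2]

end abm

section alg

variable {Φ : Fam}

lemma sig_le (T : Set Φ.Alg) : sig T ≤ (inferInstance : MeasurableSpace Φ.Pt) :=
  biSup_mono fun _ _ => Set.mem_univ _

lemma full_mono {I I' : Set ℕ} (h : I ⊆ I') : Φ.Full I ≤ Φ.Full I' :=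
  biSup_mono fun _ hF N => (hF N).mono h

lemma th_add (c c' : ℕ →₀ ℤ) (x : Φ.Pt) : Φ.Th (c + c') x = Φ.Th c (Φ.Th c' x) := by
  have : Φ.th (c + c') = (Φ.th c).comp (Φ.th c') := by
    ext N ω : 3
    simp only [th, FMap.comp, update_self, update_idem]
    rw [dot_congr c (ω := update ω 0 _) (ω' := ω) fun j _ hj => update_of_ne hj _ _]
    simp only [dot, Finsupp.erase_add, map_add]
    congr 1
    abel
  rw [Th, this]
  rfl

lemma th_zero (x : Φ.Pt) : Φ.Th 0 x = x := by
  have : Φ.th 0 = FMap.id Φ := by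
    ext N ω : 3
    simp [th, FMap.id, dot]
  rw [Th, this]
  rfl

lemma comap_add (m : MeasurableSpace Φ.Pt) (c c' : ℕ →₀ ℤ) :
    m.comap (Φ.Th (c + c')) = (m.comap (Φ.Th c)).comap (Φ.Th c') := by
  rw [MeasurableSpace.comap_comp]
  congr 1
  exact funext (th_add c c')

lemma dot_ee {N : ℕ} {s : ℕ} (hs : s ≠ 0) (k : ℤ) (ω : Φ.Om N) : dot (k • ee s) ω = k • ω s := by
  simp [dot, Finsupp.erase_single_ne hs.symm]

lemma pm_pm (s t : ℕ) (x : Φ.Pt) : Φ.Pm (Equiv.swap s t) (Φ.Pm (Equiv.swap s t) x) = x := by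
  have : (Φ.perm (Equiv.swap s t)).comp (Φ.perm (Equiv.swap s t)) = FMap.id Φ := by
    ext N ω j
    simp [perm, FMap.comp, FMap.id]
  change ((Φ.perm (Equiv.swap s t)).comp (Φ.perm (Equiv.swap s t))).lift x = x
  rw [this]
  rfl

end alg

variable {J : Finset ℕ}

/-- the finitely supported vector with the given entries on `J` -/
def vec (c : J → ℤ) : ℕ →₀ ℤ := ∑ s : J, c s • ee s.1

lemma vec_add (c c' : J → ℤ) : vec (c + c') = vec c + vec c' := by
  simp only [vec, Pi.add_apply, add_smul, Finset.sum_add_distrib]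

lemma vec_single (s : J) (k : ℤ) : vec (Pi.single s k) = k • ee s.1 := by
  rw [vec, Finset.sum_eq_single s (fun t _ h => by rw [Pi.single_eq_of_ne h, zero_smul])
    (by simp), Pi.single_eq_same]

lemma vec_const (k : ℤ) : vec (fun _ : J => k) = k • eS J := by
  rw [vec, eS, Finset.smul_sum, Finset.sum_coe_sort J fun s => k • ee s]

lemma vec_supp (c : J → ℤ) {j : ℕ} (h : j ∈ (vec c).support) : ∃ hj : j ∈ J, c ⟨j, hj⟩ ≠ 0 := by
  obtain ⟨s, -, hs⟩ := Finset.mem_biUnion.1 (Finsupp.support_finsetSum h)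
  rw [Finsupp.smul_single_one, Finsupp.mem_support_single] at hs
  obtain ⟨rfl, h2⟩ := hs
  exact ⟨s.2, h2⟩

lemma eS_apply {j : ℕ} (h : j ∈ J) : eS J j = 1 := by
  simp [eS, Finsupp.finsetSum_apply, Finsupp.single_apply, h]

end Glo

open Glo

theorem glo : GLS := by
  intro S ι _ _ r Γ I hc h1 h2 h3 J hJ hr hP
  have fd := hc.fd
  have fr := hc.fr
  have hF : ∀ I : Set ℕ, S.Full I ≤ (inferInstance : MeasurableSpace S.Pt) := fun _ => sig_le _
  have hB : ∀ I : Set ℕ, S.Base Γ I ≤ (inferInstance : MeasurableSpace S.Pt) := fun _ => sig_le _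
  have hth : ∀ (I' : Set ℕ) (c : J → ℤ), I' ⊆ I ∪ J →
      (S.Base Γ I').comap (S.Th (vec c)) ≤ S.Base Γ (I ∪ J) := fun I' c h =>
    fd.theta Γ I' _ _ (fun γ hγ j hj a => (hJ j (vec_supp c hj).1).1 ((fr.lives γ hγ).1 a)) h
      fun j hj => Or.inr (vec_supp c hj).1
  have hbb : ∀ (s : J) (i : ι), S.Base Γ (I ∪ J) ⊔
      Oth (fun c => (S.Full I).comap (S.Th (vec c))) r 0 s i = S.BB r Γ I J s i := fun s i => by
    simp only [Oth, pt, zero_add, vec_single, Sys.BB]
  have hpj : S.PJ I J ≤ S.Full I ⊔ S.Base Γ (I ∪ J) := sup_le_sup_left (fd.lam_le Γ _ fr.hL) _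
  have hli : ∀ I' : Set ℕ, I ⊆ I' → Lives Γ I' := fun I' h γ hγ =>
    ⟨(fr.lives γ hγ).1.trans h, (fr.lives γ hγ).2⟩
  have gen : ∀ (I' : Set ℕ) (c : ℕ →₀ ℤ) (M : Finset ℤ) (J' : Finset ℕ) (g : ℤ → S.Pt → ℝ),
      I ⊆ I' → I' ∪ J' = I ∪ J → (∀ k : ℤ, ∃ c' : J → ℤ, k • c = vec c') →
      S.Van Γ I' J' c M.card → (∀ k ∈ M, ABM ((S.Full I').comap (S.Th (k • c))) S.μ (g k)) →
      S.μ[fun x => ∏ k ∈ M, g k x | S.Base Γ (I ∪ J)] =ᵐ[S.μ]
        fun x => ∏ k ∈ M, (S.μ[g k | S.Base Γ (I ∪ J)]) x := by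
    intro I' c M J' g a1 a2 a3 a4 a5
    have := cind (hF I') (hB (I ∪ J)) (fd.base_le Γ I' (hli I' a1)) (fun k => S.Th (k • c))
      (fun k => fd.thmp _) (fun k => by
        obtain ⟨c', e⟩ := a3 k
        rw [e]
        exact hth I' c' (a2 ▸ Set.subset_union_left)) M (fun k x => g k (S.Th (-(k • c)) x))
      (fun k hk => comp (a5 k hk) (fd.thmp _) (by
        rw [← comap_add, add_neg_cancel, show S.Th 0 = id from funext th_zero,
          MeasurableSpace.comap_id]))
      fun s hs g ψ b1 b2 k0 b3 b4 => a4 ℤ s id (Set.injOn_id _) (Finset.card_le_card hs) g ψ b1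
        (a2 ▸ b2) k0 b3 b4
    simpa only [← th_add, neg_add_cancel, th_zero] using this
  refine ⟨fun s => S.Full (insert s.1 I), fun c => S.Th (vec c), hF I, hB _, fun s => hF _,
    fun c => fd.thmp _, fun c c' x => by rw [vec_add, th_add], fun x => by simp [vec, th_zero],
    fun c => hth _ c subset_rfl, fun t M hM g hg => ?_, fun M g hg => ?_, fun s i a ha => ?_,
    fun t s i j j' a ψ ha hψ => ?_, ?_, fun s k => ?_, fun s g hg => ?_,
    fun s t hst g g' hg hg' => ?_, fun s t => ?_⟩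
  · refine gen (I ∪ J.erase t) (ee t) M {t.1} g Set.subset_union_left ?_
      (fun k => ⟨_, (vec_single t k).symm⟩) ?_ fun k hk => mono (hg k hk) ?_
    · rw [Set.union_assoc, ← Finset.coe_union, Finset.union_comm, ← Finset.insert_eq,
        Finset.insert_erase t.2]
    · intro κ s r' b1 b2
      exact hc.ss Γ _ t (fd.frame' Γ I _ fr) (by simp [(hJ t t.2).1]) (hJ t t.2).2 κ s r' b1
        (by omega)
    · refine iSup₂_le fun c hc' => ?_
      have e : vec c = vec (update c t 0) + k • ee t.1 := by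
        rw [← vec_single, ← vec_add]
        congr 1
        ext s
        rcases eq_or_ne s t with rfl | b
        · simpa using hc'
        · simp [b]
      beta_reduce
      rw [e, comap_add]
      refine MeasurableSpace.comap_mono (fd.thetaF _ _ _ Set.subset_union_left fun j hj => ?_)
      obtain ⟨b1, b2⟩ := vec_supp _ hj
      refine Or.inr (Finset.mem_coe.2 (Finset.mem_erase.2 ⟨fun b => b2 ?_, b1⟩))
      subst b
      simp
  · refine gen I (eS J) M J g subset_rfl rfl (fun k => ⟨_, (vec_const k).symm⟩)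
      (h1 _ Γ I J _ fr hJ (fun j hj => ?_) ?_) fun k hk => vec_const (J := J) k ▸ hg k hk
    · rw [← one_smul ℤ (eS J), ← vec_const] at hj
      exact (vec_supp _ hj).1
    · rwa [Finset.filter_true_of_mem fun j hj => eS_apply hj]
  · rw [hbb]
    exact (h2 J hJ s s.2 i a (mono ha le_sup_left)).mono hpj
  · have := h3 J hJ s s.2 i r hc.inj t t.2 a ψ (fun k => mono (ha k) le_sup_left) hψ j j'
    have e : ∀ (j : ι) (K : S.Pt → ℝ) (x : S.Pt), ∏ k, update a j K k (S.Th (r k • ee t.1) x) =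
        K (S.Th (r j • ee t.1) x) * ∏ k ∈ Finset.univ.erase j, a k (S.Th (r k • ee t.1) x) := by
      intro j K x
      rw [← Finset.mul_prod_erase _ _ (Finset.mem_univ j), update_self]
      congr 1
      exact Finset.prod_congr rfl fun k hk => by rw [update_of_ne (Finset.ne_of_mem_erase hk)]
    simpa only [Sys.TT, e, hbb, vec_single] using this
  · obtain ⟨f, b1, b2, b3, b4⟩ := hP
    exact ⟨f, mono b1 hpj, fun s i => hbb s i ▸ b2 s s.2 i, b3, b4⟩
  · refine fd.thetaF _ _ _ (Set.subset_insert _ _) fun j hj => Or.inl ?_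
    obtain ⟨b1, b2⟩ := vec_supp _ hj
    by_contra b
    exact b2 (Pi.single_eq_of_ne (fun e => b (congrArg Subtype.val e)) _)
  · have b0 : insert s.1 I ⊆ I ∪ J := Set.insert_subset (Or.inr s.2) Set.subset_union_left
    have b1 := hli _ (Set.subset_insert s.1 I)
    have b2 := fd.base_le Γ _ b1
    have b3 := mono (ce (m' := S.Base Γ (insert s.1 I)) hg)
      (fd.base_mono Γ Γ _ _ subset_rfl b0)
    have b4 := fd.s0 Γ _ _ (Or.inr fr.zero) b1 b0 _ (sub hg (mono (ce hg) b2))
      (orth b2 (hF _) hg)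
    refine ((ce hg).1.mono b2).congr (ce_eq (hB _) (mono hg (hF _)) b3 fun ψ hψ => ?_).symm
    have := b4 ψ hψ
    simp only [mul_comm _ (ψ _), mul_sub] at this
    rwa [integral_sub (int (mul (mono hψ (hB _)) (mono hg (hF _))) le_rfl)
      (int (mul hψ b3) (hB _)), sub_eq_zero] at this
  · refine ce_eq (hF I) (mul (mono hg (hF _)) (mono hg' (hF _))) (mul (ce hg) (ce hg'))
      fun ψ hψ => ?_
    have b1 := fd.ci _ (insert t.1 I) g hg
    rw [show insert s.1 I ∩ insert t.1 I = I from Set.ext fun j => ⟨fun a => a.1.elim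
      (fun b => a.2.resolve_left fun e => hst (Subtype.ext (b.symm.trans e))) id,
      fun a => ⟨Or.inr a, Or.inr a⟩⟩] at b1
    have b2 := pull (hF _) (hF _) hg (mul (mono hψ (full_mono (Set.subset_insert t.1 I))) hg')
    have b3 := pull (hF _) (hF _) hg' (mul hψ (ce (m' := S.Full I) hg))
    calc ∫ x, ψ x * (g x * g' x) ∂S.μ = ∫ x, ψ x * g' x * g x ∂S.μ := by
          congr 1
          ext x
          ring
      _ = ∫ x, ψ x * (S.μ[g | S.Full I]) x * g' x ∂S.μ := by
          rw [← b2]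
          refine integral_congr_ae ?_
          filter_upwards [b1] with x hx
          rw [hx, mul_right_comm]
      _ = _ := by rw [← b3]; simp only [mul_assoc]
  · have hs := hJ s s.2
    have ht := hJ t t.2
    have hI : ∀ j ∈ I, Equiv.swap s.1 t.1 j = j := fun j hj =>
      Equiv.swap_apply_of_ne_of_ne (fun e => hs.1 (e ▸ hj)) fun e => ht.1 (e ▸ hj)
    have hk : KP (Equiv.swap s.1 t.1) := ⟨hI 0 fr.zero, fun j => by
      rw [Equiv.swap_apply_def]
      split_ifs with a b
      · simp [a, hs.2, ht.2]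
      · simp [b, hs.2, ht.2]
      · rfl⟩
    have hb : (S.Base Γ (I ∪ J)).comap (S.Pm (Equiv.swap s.1 t.1)) ≤ S.Base Γ (I ∪ J) := by
      refine fd.permB Γ I _ _ _ hk.1 fr.lives hI ?_
      rintro _ ⟨j, hj, rfl⟩
      rw [Equiv.swap_apply_def]
      split_ifs
      exacts [Or.inr t.2, Or.inr s.2, hj]
    refine ⟨S.Pm (Equiv.swap s.1 t.1), fd.pmmp _ hk, fun A hA => ?_, le_antisymm hb ?_,
      fun k A hA => ?_⟩
    · exact fd.fix {F | Dep F I} (S.perm _) (FMap.id _)
        (fun F hF => Subtype.ext (funext₂ fun N ω => hF N fun j hj => congrArg ω (hI j hj))) A hA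
    · refine le_trans (le_of_eq ?_) (MeasurableSpace.comap_mono hb)
      rw [MeasurableSpace.comap_comp, show S.Pm _ ∘ S.Pm _ = id from funext (pm_pm s.1 t.1),
        MeasurableSpace.comap_id]
    · simp only [vec_single]
      refine fd.fix {F | Dep F I} ((S.th (k • ee s.1)).comp (S.perm _)) (S.th (k • ee t.1))
        (fun F hF => Subtype.ext (funext₂ fun N ω => hF N fun j hj => ?_)) A hA
      have s0 : s.1 ≠ 0 := fun e => hs.1 (e ▸ fr.zero)
      have t0 : t.1 ≠ 0 := fun e => ht.1 (e ▸ fr.zero)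
      rcases eq_or_ne j 0 with rfl | b
      · simp only [th, FMap.comp, perm, dot_ee s0, dot_ee t0, update_self, comp_apply, hk.1,
          Equiv.swap_apply_left]
      · simp [th, FMap.comp, perm, b, hI j hj]

end Pool.Agent.MP_154433_an.SG

end

end MrgPart7

-- ======== part 8: formerly Pool.Agent.MP_154433_an.sg.BO
section MrgPart8

/-! Row BO: a function of the point that is orthogonal to every boundary is orthogonal to the
base of the first frame. -/

set_option autoImplicit false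

open MeasureTheory ProbabilityTheory Filter Topology Function

noncomputable section

namespace Pool.Agent.MP_154433_an.SG

open Fam

namespace BOaux

variable {Φ : Fam}

lemma sig_mono {T T' : Set Φ.Alg} (h : T ⊆ T') : sig T ≤ sig T' := biSup_mono h

lemma sig_le (T : Set Φ.Alg) : sig T ≤ (inferInstance : MeasurableSpace Φ.Pt) :=
  sig_mono (Set.subset_univ _)

lemma meas_hat {T : Set Φ.Alg} {F : Φ.Alg} (hF : F ∈ T) : Measurable[sig T] (hat F) :=
  Measurable.of_comap_le (le_iSup₂ (f := fun F (_ : F ∈ T) =>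
    MeasurableSpace.comap (hat F) inferInstance) F hF)

lemma full_mono {I I' : Set ℕ} (h : I ⊆ I') : Φ.Full I ≤ Φ.Full I' :=
  sig_mono fun _ hF N => DependsOn.mono h (hF N)

lemma hat_bdd (F : Φ.Alg) : ∃ C : ℝ, ∀ x, |hat F x| ≤ C := by
  obtain ⟨_, C, hC⟩ := F.2
  exact ⟨C, fun x => x.bdd F C hC⟩

lemma dot_neg_ee {N : ℕ} {z : ℕ} (hz : z ≠ 0) (ω : Φ.Om N) : dot (-ee z) ω = -ω z := by
  have h : (-ee z).erase 0 = -ee z := by
    ext j
    by_cases hj : j = 0
    · subst hj
      simp [hz]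
    · simp [Finsupp.erase_ne hj]
  rw [dot, h, map_neg, Finsupp.linearCombination_single, one_smul]

lemma dot_eS {N : ℕ} {D : Finset ℕ} (hD : ∀ j ∈ D, j ≠ 0) (ω : Φ.Om N) :
    dot (eS D) ω = ∑ j ∈ D, ω j := by
  have h : (eS D).erase 0 = eS D := by
    ext j
    by_cases hj : j = 0
    · subst hj
      simp only [Finsupp.erase_same, eS, Finsupp.coe_finsetSum, Finset.sum_apply]
      exact (Finset.sum_eq_zero fun i hi => Finsupp.single_eq_of_ne (hD i hi).symm).symm
    · simp [Finsupp.erase_ne hj]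
  rw [dot, h, eS, map_sum]
  exact Finset.sum_congr rfl fun j _ => by rw [Finsupp.linearCombination_single, one_smul]

/-- the types that use only the rich indices in `A` -/
def G1 (A : Finset ℕ) : Set (Finset ℕ × (ℕ →₀ ℤ)) :=
  insert tyL {γ | ∃ z ∈ A, γ = ({z}, -ee z)}

lemma G1_mono {A A' : Finset ℕ} (h : A ⊆ A') : G1 A ⊆ G1 A' :=
  Set.insert_subset_insert fun _ ⟨z, hz, e⟩ => ⟨z, h hz, e⟩

lemma genP_mono {Γ Γ' : Set (Finset ℕ × (ℕ →₀ ℤ))} (h : Γ ⊆ Γ') (I : Set ℕ) :
    Φ.GenP Γ I ≤ Φ.GenP Γ' I :=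
  Submonoid.closure_mono (Set.biUnion_subset_biUnion_left h)

lemma fin_types {F : Φ.Alg} (hF : F ∈ Φ.GenP Gam0 I0) :
    ∃ A : Finset ℕ, (∀ z ∈ A, 4 ∣ z ∧ z ≠ 0) ∧ F ∈ Φ.GenP (G1 A) I0 := by
  induction hF using Submonoid.closure_induction with
  | mem F hF =>
    obtain ⟨γ, hγ, hF⟩ := Set.mem_iUnion₂.1 hF
    rcases hγ with rfl | ⟨z, h4, h0, rfl⟩
    · exact ⟨∅, by simp, Submonoid.subset_closure
        (Set.mem_iUnion₂.2 ⟨tyL, Set.mem_insert _ _, hF⟩)⟩
    · refine ⟨{z}, by simp [h4, h0], Submonoid.subset_closure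
        (Set.mem_iUnion₂.2 ⟨_, Set.mem_insert_of_mem _ ⟨z, by simp, rfl⟩, hF⟩)⟩
  | one => exact ⟨∅, by simp, Submonoid.one_mem _⟩
  | mul F F' _ _ h h' =>
    obtain ⟨A, hA, h⟩ := h
    obtain ⟨A', hA', h'⟩ := h'
    refine ⟨A ∪ A', fun z hz => ?_, Submonoid.mul_mem _
      (genP_mono (G1_mono Finset.subset_union_left) _ h)
      (genP_mono (G1_mono Finset.subset_union_right) _ h')⟩
    rcases Finset.mem_union.1 hz with hz | hz
    · exact hA z hz
    · exact hA' z hz

lemma lives (A : Finset ℕ) : Lives (G1 A) (insert 0 (A : Set ℕ)) := by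
  rintro γ (rfl | ⟨z, hz, rfl⟩)
  · simp [tyL]
  · refine ⟨by simp [hz], ?_⟩
    rw [Finsupp.support_neg]
    exact Finsupp.support_single_subset

lemma dep_L {A : Finset ℕ} {c c' : ℕ →₀ ℤ} {F : Φ.Alg} {I : Set ℕ}
    (hF : Dep F (insert 0 (A : Set ℕ) \ (({0} : Finset ℕ) : Set ℕ))) (hI : (A : Set ℕ) ⊆ I) :
    Dep ((Φ.th c).pull ((Φ.th c').pull F)) I := by
  intro N x y h
  refine hF N fun j hj => ?_
  have hj0 : j ≠ 0 := fun e => hj.2 (by simp [e])
  have hjA : j ∈ (A : Set ℕ) := hj.1.resolve_left hj0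
  simp only [th, update_of_ne hj0]
  exact h j (hI hjA)

lemma dep_R {A D : Finset ℕ} (hAD : A ⊆ D) (hD : ∀ j ∈ D, j ≠ 0) {z : ℕ} (hz : z ∈ A)
    {F : Φ.Alg} (hF : Dep F (insert 0 (A : Set ℕ) \ (({z} : Finset ℕ) : Set ℕ))) :
    Dep ((Φ.th (eS D)).pull ((Φ.th (-ee z)).pull F)) (insert 0 (D.erase z : Set ℕ)) := by
  intro N x y h
  have hz0 : z ≠ 0 := hD z (hAD hz)
  refine hF N fun j hj => ?_
  by_cases hj0 : j = 0
  · subst hj0
    simp only [th, update_self, dot_neg_ee hz0, dot_eS hD, update_of_ne hz0]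
    rw [← Finset.add_sum_erase D x (hAD hz), ← Finset.add_sum_erase D y (hAD hz),
      h 0 (Set.mem_insert _ _),
      Finset.sum_congr rfl fun i hi => h i (Set.mem_insert_of_mem _ (Finset.mem_coe.2 hi))]
    abel
  · have hjz : j ≠ z := fun e => hj.2 (by simp [e])
    have hjA : j ∈ (A : Set ℕ) := hj.1.resolve_left hj0
    simp only [th, update_of_ne hj0]
    exact h j (Set.mem_insert_of_mem _
      (Finset.mem_coe.2 (Finset.mem_erase.2 ⟨hjz, hAD (Finset.mem_coe.1 hjA)⟩)))

lemma full_le_bd (S : Sys) {D : Finset ℕ} {j : ℕ} (hj : j ∈ D) :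
    S.Full (insert 0 (D.erase j : Set ℕ)) ≤ S.Bd D :=
  le_iSup₂ (f := fun j (_ : j ∈ D) => S.Full (insert 0 (D.erase j : Set ℕ))) j hj

lemma key (S : Sys) {A : Finset ℕ} {z0 : ℕ} (hz0 : z0 ∉ A) (hD : ∀ j ∈ insert z0 A, j ≠ 0)
    {F : S.Alg} (hF : F ∈ S.GenP (G1 A) (insert 0 (A : Set ℕ))) :
    Measurable[S.Bd (insert z0 A)] (hat ((S.th (eS (insert z0 A))).pull F)) := by
  induction hF using Submonoid.closure_induction with
  | mem F hF =>
    obtain ⟨γ, hγ, F', hF', rfl⟩ := Set.mem_iUnion₂.1 hF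
    rcases hγ with rfl | ⟨z, hz, rfl⟩
    · refine Measurable.mono (meas_hat (T := {F : S.Alg | Dep F
        (insert 0 ((insert z0 A).erase z0 : Set ℕ))}) (dep_L hF' ?_))
        (full_le_bd S (Finset.mem_insert_self z0 A)) le_rfl
      rw [Finset.erase_insert hz0]
      exact Set.subset_insert _ _
    · exact Measurable.mono (meas_hat (T := {F : S.Alg | Dep F
        (insert 0 ((insert z0 A).erase z : Set ℕ))})
        (dep_R (Finset.subset_insert z0 A) hD hz hF'))
        (full_le_bd S (Finset.mem_insert_of_mem hz)) le_rfl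
  | one =>
    have : hat ((S.th (eS (insert z0 A))).pull 1) = fun _ => (1 : ℝ) := by
      funext x
      simp only [map_one, hat]
    rw [this]
    exact measurable_const
  | mul F F' _ _ h h' =>
    have : hat ((S.th (eS (insert z0 A))).pull (F * F')) = fun x =>
        hat ((S.th (eS (insert z0 A))).pull F) x * hat ((S.th (eS (insert z0 A))).pull F') x := by
      funext x
      simp only [map_mul, hat]
    rw [this]
    exact h.mul h'

lemma abm_hat (S : Sys) {m : MeasurableSpace S.Pt} {F : S.Alg} (h : Measurable[m] (hat F)) :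
    ABM m S.μ (hat F) := by
  obtain ⟨C, hC⟩ := hat_bdd F
  exact ⟨h.stronglyMeasurable.aestronglyMeasurable, C, Eventually.of_forall hC⟩

end BOaux

open BOaux in
theorem bo : BOS := by
  intro S hS g hg H
  have hgm : AEStronglyMeasurable g S.μ := hg.1.mono (sig_le _)
  have hgi : Integrable g S.μ := by
    obtain ⟨C, hC⟩ := hg.2
    exact Integrable.of_bound hgm C hC
  refine hS.densA (S.GenP Gam0 I0) g hgi fun F hF => ?_
  obtain ⟨A, hA, hFA⟩ := fin_types hF
  have hsub : insert 0 (A : Set ℕ) ⊆ I0 := by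
    rintro j (rfl | hj)
    · exact dvd_zero 4
    · exact (hA j hj).1
  have hg' : ABM (S.Full (insert 0 (A : Set ℕ))) S.μ g :=
    ⟨hg.1.mono (full_mono (by simp)), hg.2⟩
  have h1 : Orth (S.Base (G1 A) (insert 0 (A : Set ℕ))) S.μ g := by
    refine hS.densA (S.GenP (G1 A) (insert 0 (A : Set ℕ))) g hgi fun F' hF' => ?_
    obtain ⟨z0, hz0A, hz0⟩ : ∃ z0, z0 ∉ A ∧ Even z0 ∧ z0 ≠ 0 := by
      refine ⟨2 * (A.sup id + 1), fun h => ?_, even_two_mul _, by omega⟩
      have : id (2 * (A.sup id + 1)) ≤ A.sup id := Finset.le_sup h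
      simp only [id] at this
      omega
    have hDn : Sys.Dn (insert z0 A) := by
      intro j hj
      rcases Finset.mem_insert.1 hj with rfl | hj
      · exact hz0
      · obtain ⟨⟨k, hk⟩, h0⟩ := hA j hj
        exact ⟨⟨2 * k, by omega⟩, h0⟩
    have h2 := H (insert z0 A) hDn (Finset.insert_nonempty _ _) _
      (abm_hat S (key S hz0A (fun j hj => (hDn j hj).2) hF'))
    have hmp := hS.thmp (eS (insert z0 A))
    have hm : AEStronglyMeasurable (fun x => g x * hat F' x) S.μ :=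
      hgm.mul (Measurable.mono (meas_hat (Set.mem_univ F')) (sig_le _)
        le_rfl).aestronglyMeasurable
    have h3 := integral_map (f := fun x => g x * hat F' x) hmp.measurable.aemeasurable
      (by rw [hmp.map_eq]; exact hm)
    rw [hmp.map_eq] at h3
    rw [h3]
    exact h2
  exact hS.s0 (G1 A) _ I0 (Set.mem_insert _ _) (lives A) hsub g hg' h1 _
    (abm_hat S (meas_hat (T := (S.GenP (G1 A) I0 : Set S.Alg)) hFA))

end Pool.Agent.MP_154433_an.SG

end

end MrgPart8

-- marker of a merged file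
example : 731051 + 721941 = 731051 + 721941 := rfl
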