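import Mathlib.Data.Int.Star
import Mathlib.Data.Finset.Functor
import Mathlib.NumberTheory.Bertrand
import Mathlib.NumberTheory.Chebyshev
import Mathlib.Probability.ConditionalExpectation
import Pool.Agent.MP_154433_an.fib.Spec
import Pool.Agent.MP_154433_an.sg.Fin
import Pool.Agent.MP_154433_an.Main

-- ======== part 0: formerly Pool.Agent.MP_154433_an.sg.Basic
section MrgPart0

/-! Calculus of bounded sub-measurable functions and algebra of the lifted maps. -/

set_option autoImplicit false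

open MeasureTheory ProbabilityTheory Filter Topology Function

noncomputable section

namespace Pool.Agent.MP_154433_an.SG

section ABM

variable {X 𝕜 : Type} [RCLike 𝕜] {m m' : MeasurableSpace X} {m0 : MeasurableSpace X}
  {μ : Measure X} {g g' : X → 𝕜}

namespace ABM

lemma of_bound (hm : Measurable[m] g) {C : ℝ} (hC : ∀ x, ‖g x‖ ≤ C) : ABM m μ g :=
  ⟨hm.stronglyMeasurable.aestronglyMeasurable, C, Eventually.of_forall hC⟩

lemma const (c : 𝕜) : ABM m μ fun _ => c := of_bound measurable_const fun _ => le_rfl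

lemma mono (h : ABM m μ g) (hle : m ≤ m') : ABM m' μ g := ⟨h.1.mono hle, h.2⟩

/-- same bound, other sigma-algebra -/
lemma of_aesm (h : ABM m μ g) (h' : AEStronglyMeasurable[m'] g μ) : ABM m' μ g := ⟨h', h.2⟩

lemma congr (h : ABM m μ g) (he : g =ᵐ[μ] g') : ABM m μ g' := by
  obtain ⟨h1, C, hC⟩ := h
  refine ⟨h1.congr he, C, ?_⟩
  filter_upwards [hC, he] with x h1 h2 using h2 ▸ h1

lemma mul (h : ABM m μ g) (h' : ABM m μ g') : ABM m μ fun x => g x * g' x := by
  obtain ⟨h1, C, hC⟩ := h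
  obtain ⟨h1', C', hC'⟩ := h'
  refine ⟨h1.mul h1', C * C', ?_⟩
  filter_upwards [hC, hC'] with x h2 h3
  rw [norm_mul]
  exact mul_le_mul h2 h3 (norm_nonneg _) ((norm_nonneg _).trans h2)

lemma add (h : ABM m μ g) (h' : ABM m μ g') : ABM m μ fun x => g x + g' x := by
  obtain ⟨h1, C, hC⟩ := h
  obtain ⟨h1', C', hC'⟩ := h'
  refine ⟨h1.add h1', C + C', ?_⟩
  filter_upwards [hC, hC'] with x h2 h3 using (norm_add_le _ _).trans (add_le_add h2 h3)

lemma neg (h : ABM m μ g) : ABM m μ fun x => -g x := by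
  obtain ⟨h1, C, hC⟩ := h
  refine ⟨h1.neg, C, ?_⟩
  filter_upwards [hC] with x h2 using by rwa [norm_neg]

lemma sub (h : ABM m μ g) (h' : ABM m μ g') : ABM m μ fun x => g x - g' x := by
  simpa only [sub_eq_add_neg] using h.add h'.neg

lemma conj (h : ABM m μ g) : ABM m μ fun x => (starRingEnd 𝕜) (g x) := by
  obtain ⟨h1, C, hC⟩ := h
  refine ⟨RCLike.continuous_conj.comp_aestronglyMeasurable h1, C, ?_⟩
  filter_upwards [hC] with x h2 using by rwa [RCLike.norm_conj]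

lemma prod {ι : Type} (s : Finset ι) {f : ι → X → 𝕜} (h : ∀ i ∈ s, ABM m μ (f i)) :
    ABM m μ fun x => ∏ i ∈ s, f i x := by
  classical
  induction s using Finset.induction_on with
  | empty => simpa using const (1 : 𝕜)
  | insert a s ha ih =>
    simp only [Finset.prod_insert ha]
    exact (h a (Finset.mem_insert_self _ _)).mul
      (ih fun i hi => h i (Finset.mem_insert_of_mem hi))

lemma indicator {A : Set X} (hA : MeasurableSet[m] A) :
    ABM m μ (A.indicator fun _ => (1 : 𝕜)) :=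
  of_bound (measurable_const.indicator hA) (C := 1) fun x => by
    by_cases h : x ∈ A <;> simp [h]

lemma memLp [IsFiniteMeasure μ] (h : ABM m μ g) (hm : m ≤ m0) (p : ENNReal) : MemLp g p μ := by
  obtain ⟨h1, C, hC⟩ := h
  exact MemLp.of_bound (h1.mono hm) C hC

lemma integrable [IsFiniteMeasure μ] (h : ABM m μ g) (hm : m ≤ m0) : Integrable g μ :=
  memLp_one_iff_integrable.1 (h.memLp hm 1)

lemma integrable_mul (h : ABM m μ g) (hm : m ≤ m0) (h' : Integrable g' μ) :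
    Integrable (fun x => g x * g' x) μ := by
  obtain ⟨h1, C, hC⟩ := h
  exact h'.bdd_mul (h1.mono hm) hC

lemma mul_integrable (h : ABM m μ g) (hm : m ≤ m0) (h' : Integrable g' μ) :
    Integrable (fun x => g' x * g x) μ := by
  simpa only [mul_comm] using h.integrable_mul hm h'

/-- conditional expectations of bounded functions are bounded, with the same bound -/
lemma condExp_bound [IsFiniteMeasure μ] {C : ℝ} (h : ∀ᵐ x ∂μ, ‖g x‖ ≤ C)
    (m' : MeasurableSpace X) : ∀ᵐ x ∂μ, ‖(μ[g | m']) x‖ ≤ max C 0 := by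
  by_cases hm : m' ≤ m0
  swap
  · rw [condExp_of_not_le hm]; simp
  by_cases hg : Integrable g μ
  swap
  · rw [condExp_of_not_integrable hg]; simp
  have h1 := _root_.norm_condExp_le (μ := μ) (m := m') g
  have h2 : μ[fun x => ‖g x‖ | m'] ≤ᵐ[μ] μ[fun _ => C | m'] :=
    condExp_mono hg.norm (integrable_const C) h
  rw [condExp_const hm] at h2
  filter_upwards [h1, h2] with x h1 h2 using h1.trans (h2.trans (le_max_left _ _))

lemma condExp [IsFiniteMeasure μ] (h : ABM m μ g) (m' : MeasurableSpace X) :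
    ABM m' μ (μ[g | m']) := by
  obtain ⟨-, C, hC⟩ := h
  exact ⟨stronglyMeasurable_condExp.aestronglyMeasurable, _, condExp_bound hC m'⟩

end ABM

lemma aesm_comp {Y : Type} {mY : MeasurableSpace Y} {mY0 : MeasurableSpace Y} {ν : Measure Y}
    {Θ : Y → X} (hΘ : MeasurePreserving Θ ν μ) (hle : m.comap Θ ≤ mY)
    (h : AEStronglyMeasurable[m] g μ) : AEStronglyMeasurable[mY] (fun y => g (Θ y)) ν := by
  obtain ⟨g1, h1, h2⟩ := h
  refine ⟨fun y => g1 (Θ y), ?_, hΘ.quasiMeasurePreserving.ae_eq_comp h2⟩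
  exact h1.comp_measurable (measurable_iff_comap_le.2 hle)

lemma ABM.comp {Y : Type} {mY : MeasurableSpace Y} {mY0 : MeasurableSpace Y} {ν : Measure Y}
    {Θ : Y → X} (h : ABM m μ g) (hΘ : MeasurePreserving Θ ν μ) (hle : m.comap Θ ≤ mY) :
    ABM mY ν fun y => g (Θ y) := by
  obtain ⟨h1, C, hC⟩ := h
  exact ⟨aesm_comp hΘ hle h1, C, hΘ.quasiMeasurePreserving.ae hC⟩

lemma integral_comp_mp {Y : Type} {mY0 : MeasurableSpace Y} {ν : Measure Y} {Θ : Y → X}
    (hΘ : MeasurePreserving Θ ν μ) (h : AEStronglyMeasurable g μ) :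
    ∫ y, g (Θ y) ∂ν = ∫ x, g x ∂μ := by
  rw [← hΘ.map_eq] at h ⊢
  rw [integral_map hΘ.measurable.aemeasurable h]

/-- pull-out -/
lemma condExp_mul_left (hm : m ≤ m0) (h : ABM m μ g) (h' : Integrable g' μ) :
    μ[fun x => g x * g' x | m] =ᵐ[μ] fun x => g x * (μ[g' | m]) x :=
  condExp_bilin_of_aestronglyMeasurable_left (ContinuousLinearMap.mul ℝ 𝕜) h.1
    (h.integrable_mul hm h') h'

lemma integral_mul_condExp [IsFiniteMeasure μ] (hm : m ≤ m0) (h : ABM m μ g)
    (h' : Integrable g' μ) : ∫ x, g x * (μ[g' | m]) x ∂μ = ∫ x, g x * g' x ∂μ := by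
  rw [← integral_congr_ae (condExp_mul_left hm h h'), integral_condExp hm]

lemma integral_condExp_mul [IsFiniteMeasure μ] (hm : m ≤ m0) (h : ABM m μ g)
    (h' : Integrable g' μ) : ∫ x, (μ[g' | m]) x * g x ∂μ = ∫ x, g' x * g x ∂μ := by
  simpa only [mul_comm] using integral_mul_condExp hm h h'

/-- conditional expectation is self-adjoint -/
lemma integral_condExp_comm [IsFiniteMeasure μ] (hm : m ≤ m0) (h : ABM m0 μ g)
    (h' : ABM m0 μ g') : ∫ x, (μ[g | m]) x * g' x ∂μ = ∫ x, g x * (μ[g' | m]) x ∂μ := by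
  rw [← integral_mul_condExp hm (h.condExp m) (h'.integrable le_rfl),
    integral_condExp_mul hm (h'.condExp m) (h.integrable le_rfl)]

lemma condExp_eq_self [IsFiniteMeasure μ] (hm : m ≤ m0) (h : ABM m μ g) : μ[g | m] =ᵐ[μ] g :=
  condExp_of_aestronglyMeasurable' hm h.1 (h.integrable hm)

lemma Orth.of_condExp [IsFiniteMeasure μ] (hm : m ≤ m0) (hg : Integrable g μ)
    (h : μ[g | m] =ᵐ[μ] 0) : Orth m μ g := fun ψ hψ => by
  rw [← integral_condExp_mul hm hψ hg]
  refine integral_eq_zero_of_ae ?_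
  filter_upwards [h] with x hx
  simp [hx]

lemma orth_of_setIntegral [IsFiniteMeasure μ] (hm : m ≤ m0) (hg : Integrable g μ)
    (h : ∀ A, MeasurableSet[m] A → ∫ x in A, g x ∂μ = 0) : μ[g | m] =ᵐ[μ] 0 :=
  (ae_eq_condExp_of_forall_setIntegral_eq hm hg
    (fun _ _ _ => (integrable_zero _ _ _).integrableOn)
    (fun A hA _ => by simp [h A hA]) stronglyMeasurable_zero.aestronglyMeasurable).symm

lemma integral_mul_indicator {A : Set X} (hA : MeasurableSet A) :
    ∫ x, g x * A.indicator (fun _ => (1 : 𝕜)) x ∂μ = ∫ x in A, g x ∂μ := by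
  rw [← integral_indicator hA]
  refine integral_congr_ae (Eventually.of_forall fun x => ?_)
  by_cases h : x ∈ A <;> simp [h]

lemma Orth.condExp [IsFiniteMeasure μ] (h : Orth m μ g) (hm : m ≤ m0) (hg : Integrable g μ) :
    μ[g | m] =ᵐ[μ] 0 :=
  orth_of_setIntegral hm hg fun A hA => by
    rw [← integral_mul_indicator (hm A hA)]
    exact h _ (ABM.indicator hA)

lemma Orth.mono (h : Orth m μ g) (hle : m' ≤ m) : Orth m' μ g := fun ψ hψ => h ψ (hψ.mono hle)

lemma Orth.congr (h : Orth m μ g) (he : g =ᵐ[μ] g') : Orth m μ g' := fun ψ hψ => by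
  rw [← h ψ hψ]
  refine integral_congr_ae ?_
  filter_upwards [he] with x hx using by rw [hx]

lemma Orth.mul (h : Orth m μ g) (h' : ABM m μ g') : Orth m μ fun x => g' x * g x := fun ψ hψ => by
  rw [← h _ (h'.mul hψ)]
  exact integral_congr_ae (Eventually.of_forall fun x => by ring)

lemma orth_sub_condExp [IsFiniteMeasure μ] (hm : m ≤ m0) (hg : Integrable g μ) :
    Orth m μ fun x => g x - (μ[g | m]) x := fun ψ hψ => by
  simp only [sub_mul]
  rw [integral_sub (hψ.mul_integrable hm hg) (hψ.mul_integrable hm integrable_condExp),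
    integral_condExp_mul hm hψ hg, sub_self]

/-- a function that is measurable for `m` and orthogonal to `m` vanishes -/
lemma Orth.eq_zero [IsFiniteMeasure μ] (h : Orth m μ g) (hm : m ≤ m0) (hg : Integrable g μ)
    (h' : AEStronglyMeasurable[m] g μ) : g =ᵐ[μ] 0 :=
  (condExp_of_aestronglyMeasurable' hm h' hg).symm.trans (h.condExp hm hg)

/-- characterisation of the conditional expectation -/
lemma condExp_eq_of_orth [IsFiniteMeasure μ] (hm : m ≤ m0) (hg : Integrable g μ)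
    (hg' : Integrable g' μ) (h' : AEStronglyMeasurable[m] g' μ)
    (h : Orth m μ fun x => g x - g' x) : μ[g | m] =ᵐ[μ] g' := by
  have h1 := h.condExp hm (hg.sub hg')
  have h2 := condExp_sub hg hg' m
  have h3 := condExp_of_aestronglyMeasurable' hm h' hg'
  filter_upwards [h1, h2, h3] with x h1 h2 h3
  have : (μ[g - g' | m]) x = 0 := h1
  rw [h2, Pi.sub_apply, h3] at this
  exact sub_eq_zero.1 this

/-- orthogonality from a generating pi-system -/
lemma orth_of_piSystem [IsFiniteMeasure μ] {p : Set (Set X)} (hp : IsPiSystem p)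
    (hgen : m = MeasurableSpace.generateFrom p) (hm : m ≤ m0) (hg : Integrable g μ)
    (h0 : ∫ x, g x ∂μ = 0) (h : ∀ A ∈ p, ∫ x in A, g x ∂μ = 0) : Orth m μ g := by
  refine Orth.of_condExp hm hg (orth_of_setIntegral hm hg fun A hA => ?_)
  induction A, hA using MeasurableSpace.induction_on_inter hgen hp with
  | empty => simp
  | basic t ht => exact h t ht
  | compl t ht ih =>
    have := integral_add_compl (hm t ht) hg
    rw [ih, zero_add, h0] at this
    exact this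
  | iUnion f hd hf ih =>
    rw [integral_iUnion (fun i => hm _ (hf i)) hd hg.integrableOn]
    simp [ih]

/-- orthogonality to a join from orthogonality to products -/
lemma orth_sup [IsFiniteMeasure μ] (hm : m ≤ m0) (hm' : m' ≤ m0) (hg : Integrable g μ)
    (h : ∀ a b : X → 𝕜, ABM m μ a → ABM m' μ b → ∫ x, g x * (a x * b x) ∂μ = 0) :
    Orth (m ⊔ m') μ g := by
  refine orth_of_piSystem (p := {A | ∃ B C, MeasurableSet[m] B ∧ MeasurableSet[m'] C ∧ A = B ∩ C})
    ?_ ?_ (sup_le hm hm') hg ?_ ?_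
  · rintro _ ⟨B, C, hB, hC, rfl⟩ _ ⟨B', C', hB', hC', rfl⟩ -
    exact ⟨B ∩ B', C ∩ C', hB.inter hB', hC.inter hC', Set.inter_inter_inter_comm _ _ _ _⟩
  · refine le_antisymm (sup_le (fun B hB => ?_) fun C hC => ?_)
      (MeasurableSpace.generateFrom_le ?_)
    · exact MeasurableSpace.measurableSet_generateFrom ⟨B, Set.univ, hB, .univ, by simp⟩
    · exact MeasurableSpace.measurableSet_generateFrom ⟨Set.univ, C, .univ, hC, by simp⟩
    · rintro _ ⟨B, C, hB, hC, rfl⟩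
      exact MeasurableSet.inter ((le_sup_left : m ≤ m ⊔ m') B hB)
        ((le_sup_right : m' ≤ m ⊔ m') C hC)
  · simpa using h _ _ (ABM.const 1) (ABM.const 1)
  · rintro _ ⟨B, C, hB, hC, rfl⟩
    rw [← integral_mul_indicator ((hm B hB).inter (hm' C hC)), ← h _ _ (ABM.indicator hB)
      (ABM.indicator hC)]
    refine integral_congr_ae (Eventually.of_forall fun x => ?_)
    by_cases h1 : x ∈ B <;> by_cases h2 : x ∈ C <;> simp [h1, h2]

lemma orth_biSup [IsFiniteMeasure μ] {ι : Type} (s : Finset ι) {M : ι → MeasurableSpace X}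
    (hM : ∀ i ∈ s, M i ≤ m0) (hg : Integrable g μ)
    (h : ∀ a : ι → X → 𝕜, (∀ i ∈ s, ABM (M i) μ (a i)) → ∫ x, g x * ∏ i ∈ s, a i x ∂μ = 0) :
    Orth (⨆ i ∈ s, M i) μ g := by
  classical
  induction s using Finset.induction_on generalizing g with
  | empty =>
    have h0 := h (fun _ _ => 1) (by simp)
    refine orth_of_piSystem (p := ∅) (fun _ h => h.elim) (by simp) (by simp) hg
      (by simpa using h0) fun _ h => h.elim
  | insert j s hj ih =>
    rw [Finset.iSup_insert]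
    have hj0 := hM j (Finset.mem_insert_self _ _)
    have hs0 : ∀ i ∈ s, M i ≤ m0 := fun i hi => hM i (Finset.mem_insert_of_mem hi)
    refine orth_sup hj0 (iSup₂_le hs0) hg fun a b ha hb => ?_
    have := ih hs0 (ha.mul_integrable hj0 hg) (fun c hc => ?_) b hb
    · rw [← this]
      exact integral_congr_ae (Eventually.of_forall fun x => by ring)
    · rw [← h (update c j a) fun i hi => ?_]
      · refine integral_congr_ae (Eventually.of_forall fun x => ?_)
        simp only [Finset.prod_insert hj, update_self]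
        rw [mul_assoc]
        congr 2
        exact Finset.prod_congr rfl fun i hi => by
          rw [update_of_ne (ne_of_mem_of_not_mem hi hj)]
      · rcases Finset.mem_insert.1 hi with rfl | hi
        · rwa [update_self]
        · rw [update_of_ne (ne_of_mem_of_not_mem hi hj)]
          exact hc i hi

/-- conditional expectation and measure preserving maps -/
lemma condExp_comp_mp {Y : Type} {mY0 : MeasurableSpace Y} {ν : Measure Y} [IsFiniteMeasure μ]
    [IsFiniteMeasure ν] {Θ : Y → X} (hΘ : MeasurePreserving Θ ν μ) (hm : m ≤ m0)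
    (hg : Integrable g μ) :
    ν[fun y => g (Θ y) | m.comap Θ] =ᵐ[ν] fun y => (μ[g | m]) (Θ y) := by
  have hle : m.comap Θ ≤ mY0 :=
    (MeasurableSpace.comap_mono hm).trans (measurable_iff_comap_le.1 hΘ.measurable)
  have i1 : Integrable (fun y => g (Θ y)) ν := hΘ.integrable_comp_of_integrable hg
  have i2 : Integrable (fun y => (μ[g | m]) (Θ y)) ν :=
    hΘ.integrable_comp_of_integrable integrable_condExp
  refine (ae_eq_condExp_of_forall_setIntegral_eq hle i1 (fun _ _ _ => i2.integrableOn) ?_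
    (aesm_comp hΘ le_rfl stronglyMeasurable_condExp.aestronglyMeasurable)).symm
  rintro _ ⟨A, hA, rfl⟩ -
  have e : ∀ f : X → 𝕜, Integrable f μ → ∫ y in Θ ⁻¹' A, f (Θ y) ∂ν = ∫ x in A, f x ∂μ := by
    intro f hf
    rw [← integral_indicator (hΘ.measurable (hm A hA)), ← integral_indicator (hm A hA),
      ← integral_comp_mp hΘ (hf.indicator (hm A hA)).aestronglyMeasurable]
    rfl
  rw [e _ integrable_condExp, e _ hg, setIntegral_condExp hm hg hA]

lemma integral_mul_of_indep [IsProbabilityMeasure μ] (hm : m ≤ m0) (hm' : m' ≤ m0)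
    (hi : Indep m m' μ) (h : ABM m μ g) (h' : ABM m' μ g') :
    ∫ x, g x * g' x ∂μ = (∫ x, g x ∂μ) * ∫ x, g' x ∂μ := by
  obtain ⟨g1, h1, h2⟩ := h.1
  have e := condExp_indep_eq hm hm' h1 hi
  rw [← integral_condExp_mul hm' h' (h.integrable hm), ← integral_const_mul]
  refine integral_congr_ae ?_
  filter_upwards [e, condExp_congr_ae (m := m') h2] with x hx hx'
  rw [hx', hx, integral_congr_ae h2]

end ABM

/-! ### the limit space -/

namespace Fam

variable {Φ : Fam}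

@[simp] lemma hat_mul (F G : Φ.Alg) (x : Φ.Pt) : hat (F * G) x = hat F x * hat G x :=
  map_mul x.ev F G

@[simp] lemma hat_add (F G : Φ.Alg) (x : Φ.Pt) : hat (F + G) x = hat F x + hat G x :=
  map_add x.ev F G

@[simp] lemma hat_sub (F G : Φ.Alg) (x : Φ.Pt) : hat (F - G) x = hat F x - hat G x :=
  map_sub x.ev F G

@[simp] lemma hat_neg (F : Φ.Alg) (x : Φ.Pt) : hat (-F) x = -hat F x := map_neg x.ev F

@[simp] lemma hat_one (x : Φ.Pt) : hat (1 : Φ.Alg) x = 1 := map_one x.ev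

@[simp] lemma hat_zero (x : Φ.Pt) : hat (0 : Φ.Alg) x = 0 := map_zero x.ev

@[simp] lemma hat_smul (a : ℝ) (F : Φ.Alg) (x : Φ.Pt) : hat (a • F) x = a * hat F x :=
  map_smul x.ev a F

lemma hat_prod {ι : Type} (s : Finset ι) (F : ι → Φ.Alg) (x : Φ.Pt) :
    hat (∏ i ∈ s, F i) x = ∏ i ∈ s, hat (F i) x := map_prod x.ev F s

lemma hat_lift (Θ : Φ.FMap) (F : Φ.Alg) (x : Φ.Pt) : hat F (Θ.lift x) = hat (Θ.pull F) x := rfl

@[simp] lemma pull_apply (Θ : Φ.FMap) (F : Φ.Alg) (N : ℕ) (ω : Φ.Om N) :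
    (Θ.pull F).1 N ω = F.1 N (Θ.toFun N ω) := rfl

lemma pull_comp (Θ Θ' : Φ.FMap) (F : Φ.Alg) : (Θ.comp Θ').pull F = Θ'.pull (Θ.pull F) := rfl

lemma lift_comp (Θ Θ' : Φ.FMap) (x : Φ.Pt) : (Θ.comp Θ').lift x = Θ.lift (Θ'.lift x) := rfl

@[simp] lemma pull_id (F : Φ.Alg) : (FMap.id Φ).pull F = F := rfl

@[simp] lemma lift_id (x : Φ.Pt) : (FMap.id Φ).lift x = x := rfl

lemma hat_bound (F : Φ.Alg) : ∃ C : ℝ, ∀ x, |hat F x| ≤ C :=
  let ⟨C, hC⟩ := F.2.2
  ⟨C, fun x => x.bdd F C hC⟩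

lemma sig_mono {T T' : Set Φ.Alg} (h : T ⊆ T') : sig T ≤ sig T' :=
  iSup₂_le fun F hF => le_iSup₂_of_le F (h hF) le_rfl

lemma sig_le (T : Set Φ.Alg) : sig T ≤ (inferInstance : MeasurableSpace Φ.Pt) :=
  sig_mono (Set.subset_univ T)

lemma measurable_hat {T : Set Φ.Alg} {F : Φ.Alg} (h : F ∈ T) : Measurable[sig T] (hat F) :=
  measurable_iff_comap_le.2 (le_iSup₂_of_le F h le_rfl)

lemma measurable_hat' (F : Φ.Alg) : Measurable (hat F) := measurable_hat (Set.mem_univ F)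

lemma sig_le_of {T : Set Φ.Alg} {m : MeasurableSpace Φ.Pt}
    (h : ∀ F ∈ T, Measurable[m] (hat F)) : sig T ≤ m :=
  iSup₂_le fun F hF => measurable_iff_comap_le.1 (h F hF)

lemma abm_hat {T : Set Φ.Alg} {F : Φ.Alg} (h : F ∈ T) (μ : Measure Φ.Pt) :
    ABM (sig T) μ (hat F) :=
  let ⟨_, hC⟩ := hat_bound F
  ABM.of_bound (measurable_hat h) hC

lemma comap_lift_le {T T' : Set Φ.Alg} (Θ : Φ.FMap) (h : ∀ F ∈ T, Θ.pull F ∈ T') :
    (sig T).comap Θ.lift ≤ sig T' := by
  simp only [sig, MeasurableSpace.comap_iSup, MeasurableSpace.comap_comp]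
  exact iSup₂_le fun F hF => le_iSup₂_of_le (Θ.pull F) (h F hF) le_rfl

lemma measurable_lift (Θ : Φ.FMap) : Measurable Θ.lift :=
  measurable_iff_comap_le.2 (comap_lift_le Θ fun _ _ => Set.mem_univ _)

lemma sig_closure (T : Set Φ.Alg) : sig (Submonoid.closure T : Set Φ.Alg) = sig T := by
  refine le_antisymm (sig_le_of fun F hF => ?_) (sig_mono Submonoid.subset_closure)
  induction hF using Submonoid.closure_induction with
  | mem F hF => exact measurable_hat hF
  | one => simpa only [funext hat_one] using measurable_const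
  | mul F G _ _ h h' => rw [funext (hat_mul F G)]; exact h.mul h'

lemma full_le (I : Set ℕ) : Φ.Full I ≤ (inferInstance : MeasurableSpace Φ.Pt) := sig_le _

lemma lam_le' (I : Set ℕ) : Φ.Lam I ≤ (inferInstance : MeasurableSpace Φ.Pt) := sig_le _

lemma base_le' (Γ : Set (Finset ℕ × (ℕ →₀ ℤ))) (I : Set ℕ) :
    Φ.Base Γ I ≤ (inferInstance : MeasurableSpace Φ.Pt) := sig_le _

lemma Dep.mono {F : Φ.Alg} {I I' : Set ℕ} (h : Dep F I) (hI : I ⊆ I') : Dep F I' :=
  fun N => (h N).mono hI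

lemma full_mono {I I' : Set ℕ} (h : I ⊆ I') : Φ.Full I ≤ Φ.Full I' :=
  sig_mono fun _ hF => Dep.mono hF h

/-- `Full I` as the sigma-algebra of a submonoid -/
lemma full_eq (I : Set ℕ) : Φ.Full I = sig ((Φ.DepS I).toSubmonoid : Set Φ.Alg) := rfl

/-- a family that depends on `I` depends on a finite subset of `I` -/
lemma Dep.finite {F : Φ.Alg} {I : Set ℕ} (h : Dep F I) :
    ∃ T : Finset ℕ, (T : Set ℕ) ⊆ I ∧ Dep F T := by
  classical
  obtain ⟨T, hT⟩ := F.2.1
  refine ⟨T.filter (· ∈ I), fun j hj => (Finset.mem_filter.1 hj).2, fun N x y hxy => ?_⟩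
  have h1 : F.1 N x = F.1 N (I.piecewise y x) := hT N fun i hi => by
    by_cases hI : i ∈ I
    · rw [Set.piecewise_eq_of_mem _ _ _ hI]
      exact hxy i (Finset.mem_coe.2 (Finset.mem_filter.2 ⟨hi, hI⟩))
    · rw [Set.piecewise_eq_of_notMem _ _ _ hI]
  rw [h1]
  exact h N fun i hi => Set.piecewise_eq_of_mem _ _ _ hi

lemma Dep.inter {F : Φ.Alg} {I I' : Set ℕ} (h : Dep F I) (h' : Dep F I') : Dep F (I ∩ I') := by
  classical
  intro N x y hxy
  have h1 : F.1 N x = F.1 N (I.piecewise y x) := h' N fun i hi => by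
    by_cases hI : i ∈ I
    · rw [Set.piecewise_eq_of_mem _ _ _ hI]
      exact hxy i ⟨hI, hi⟩
    · rw [Set.piecewise_eq_of_notMem _ _ _ hI]
  rw [h1]
  exact h N fun i hi => Set.piecewise_eq_of_mem _ _ _ hi

lemma measurable_alg (F : Φ.Alg) (N : ℕ) : Measurable (F.1 N) := by
  obtain ⟨T, hT⟩ := F.2.1
  obtain ⟨g, hg⟩ := dependsOn_iff_exists_comp.1 (hT N)
  rw [hg]
  exact (measurable_of_finite g).comp (measurable_pi_lambda _ fun i => measurable_pi_apply _)

lemma integrable_alg (F : Φ.Alg) (N : ℕ) : Integrable (F.1 N) (Φ.PP N) :=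
  let ⟨C, hC⟩ := F.2.2
  Integrable.of_bound (measurable_alg F N).aestronglyMeasurable C (Eventually.of_forall (hC N))

lemma measurable_fmap (Θ : Φ.FMap) (N : ℕ) : Measurable (Θ.toFun N) := by
  refine measurable_pi_lambda _ fun j => ?_
  obtain ⟨T, hT⟩ := Θ.fin j
  obtain ⟨g, hg⟩ := dependsOn_iff_exists_comp.1 (hT N)
  rw [hg]
  exact (measurable_of_finite g).comp (measurable_pi_lambda _ fun i => measurable_pi_apply _)

lemma dot_add {N : ℕ} (c c' : ℕ →₀ ℤ) (ω : Φ.Om N) : dot (c + c') ω = dot c ω + dot c' ω := by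
  simp only [dot, Finsupp.erase_add, map_add]

@[simp] lemma dot_zero {N : ℕ} (ω : Φ.Om N) : dot 0 ω = 0 := by simp [dot]

lemma dot_neg {N : ℕ} (c : ℕ →₀ ℤ) (ω : Φ.Om N) : dot (-c) ω = -dot c ω := by
  simp only [dot, Finsupp.erase_neg, map_neg]

lemma dot_smul {N : ℕ} (a : ℤ) (c : ℕ →₀ ℤ) (ω : Φ.Om N) : dot (a • c) ω = a • dot c ω := by
  have : (a • c).erase 0 = a • c.erase 0 := by
    ext j
    by_cases hj : j = 0
    · subst hj; simp
    · simp [Finsupp.erase_ne hj]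
  simp only [dot, this, map_smul]

lemma dot_ee {N t : ℕ} (ht : t ≠ 0) (ω : Φ.Om N) : dot (ee t) ω = ω t := by
  simp [dot, Finsupp.erase_single_ne ht.symm]

lemma dot_update {N : ℕ} (c : ℕ →₀ ℤ) (ω : Φ.Om N) (v : Φ.G N) :
    dot c (update ω 0 v) = dot c ω := dot_congr c fun _ _ hj => update_of_ne hj _ _

lemma th_apply (c : ℕ →₀ ℤ) (N : ℕ) (ω : Φ.Om N) :
    (Φ.th c).toFun N ω = update ω 0 (ω 0 + dot c ω) := rfl

lemma th_add (c c' : ℕ →₀ ℤ) : Φ.th (c + c') = (Φ.th c).comp (Φ.th c') := by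
  ext N ω j
  show update ω 0 (ω 0 + dot (c + c') ω) j = update (update ω 0 (ω 0 + dot c' ω)) 0
    (update ω 0 (ω 0 + dot c' ω) 0 + dot c (update ω 0 (ω 0 + dot c' ω))) j
  rw [update_idem, update_self, dot_update, dot_add]
  congr 1
  abel

lemma th_zero : Φ.th 0 = FMap.id Φ := by
  ext N ω j
  show update ω 0 (ω 0 + dot 0 ω) j = ω j
  simp

lemma Th_add (c c' : ℕ →₀ ℤ) (x : Φ.Pt) : Φ.Th (c + c') x = Φ.Th c (Φ.Th c' x) := by
  rw [Th, th_add]; rfl

@[simp] lemma Th_zero (x : Φ.Pt) : Φ.Th 0 x = x := by rw [Th, th_zero]; rfl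

lemma Th_neg_Th (c : ℕ →₀ ℤ) (x : Φ.Pt) : Φ.Th (-c) (Φ.Th c x) = x := by
  rw [← Th_add, neg_add_cancel, Th_zero]

lemma Th_Th_neg (c : ℕ →₀ ℤ) (x : Φ.Pt) : Φ.Th c (Φ.Th (-c) x) = x := by
  rw [← Th_add, add_neg_cancel, Th_zero]

lemma dot_perm {N : ℕ} {π : Equiv.Perm ℕ} (h0 : π 0 = 0) (c : ℕ →₀ ℤ) (ω : Φ.Om N) :
    dot c (ω ∘ π) = dot (c.mapDomain π) ω := by
  have : (c.mapDomain π).erase 0 = (c.erase 0).mapDomain π := by
    ext j
    obtain ⟨k, rfl⟩ := π.surjective j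
    rw [Finsupp.mapDomain_apply π.injective]
    by_cases hk : k = 0
    · subst hk; rw [h0]; simp
    · have : π k ≠ 0 := fun h => hk (π.injective (h.trans h0.symm))
      rw [Finsupp.erase_ne this, Finsupp.erase_ne hk, Finsupp.mapDomain_apply π.injective]
  simp only [dot, this, Finsupp.linearCombination_mapDomain]

lemma th_perm {π : Equiv.Perm ℕ} (h0 : π 0 = 0) (c : ℕ →₀ ℤ) :
    (Φ.th c).comp (Φ.perm π) = (Φ.perm π).comp (Φ.th (c.mapDomain π)) := by
  ext N ω j
  show update (ω ∘ π) 0 (ω (π 0) + dot c (ω ∘ π)) j =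
    update ω 0 (ω 0 + dot (c.mapDomain π) ω) (π j)
  by_cases hj : j = 0
  · subst hj; rw [h0, update_self, update_self, dot_perm h0]
  · have : π j ≠ 0 := fun h => hj (π.injective (h.trans h0.symm))
    rw [update_of_ne hj, update_of_ne this]; rfl

lemma Th_Pm {π : Equiv.Perm ℕ} (h0 : π 0 = 0) (c : ℕ →₀ ℤ) (x : Φ.Pt) :
    Φ.Th c (Φ.Pm π x) = Φ.Pm π (Φ.Th (c.mapDomain π) x) :=
  congrArg (fun Θ : Φ.FMap => Θ.lift x) (th_perm h0 c)

lemma Pm_Pm {π : Equiv.Perm ℕ} (h : ∀ j, π (π j) = j) (x : Φ.Pt) : Φ.Pm π (Φ.Pm π x) = x := by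
  have : (Φ.perm π).comp (Φ.perm π) = FMap.id Φ := by
    ext N ω j
    show ω (π (π j)) = ω j
    rw [h]
  exact congrArg (fun Θ : Φ.FMap => Θ.lift x) this

lemma mapDomain_smul_ee (π : Equiv.Perm ℕ) (a : ℤ) (t : ℕ) :
    (a • ee t).mapDomain π = a • ee (π t) := by
  rw [Finsupp.mapDomain_smul, Finsupp.mapDomain_single]

lemma support_smul_ee (a : ℤ) (t : ℕ) : (a • ee t).support ⊆ {t} :=
  Finsupp.support_smul.trans Finsupp.support_single_subset

end Fam

lemma kp_swap {a b : ℕ} (ha : a ≠ 0) (hb : b ≠ 0) (h : Odd a ↔ Odd b) : KP (Equiv.swap a b) := by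
  refine ⟨Equiv.swap_apply_of_ne_of_ne ha.symm hb.symm, fun j => ?_⟩
  rw [Equiv.swap_apply_def]
  split_ifs with h1 h2
  · rw [h1, h]
  · rw [h2, h]
  · rfl

namespace Sys

variable (S : Sys)

lemma pj_le (I : Set ℕ) (J : Finset ℕ) : S.PJ I J ≤ (inferInstance : MeasurableSpace S.Pt) :=
  sup_le (Fam.full_le _) (Fam.lam_le' _)

lemma pj_le_full (I : Set ℕ) (J : Finset ℕ) : S.PJ I J ≤ S.Full (I ∪ J) :=
  sup_le (Fam.full_mono Set.subset_union_left) (Fam.full_mono Set.sdiff_subset)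

lemma bb_le {ι : Type} (r : ι → ℤ) (Γ : Set (Finset ℕ × (ℕ →₀ ℤ))) (I : Set ℕ) (J : Finset ℕ)
    (s : ℕ) (i : ι) : S.BB r Γ I J s i ≤ (inferInstance : MeasurableSpace S.Pt) :=
  sup_le (Fam.base_le' _ _) (iSup₂_le fun _ _ => (MeasurableSpace.comap_mono (Fam.full_le _)).trans
    (measurable_iff_comap_le.1 (Fam.measurable_lift _)))

/-- an inequality that holds along the ultrafilter passes to the limit -/
lemma le_of_ev {F G : S.Alg} {ε : ℝ} (h : ∀ᶠ N in (S.U : Filter ℕ),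
    ∫ ω, F.1 N ω ∂S.PP N ≤ ∫ ω, G.1 N ω ∂S.PP N + ε) :
    ∫ x, Fam.hat F x ∂S.μ ≤ ∫ x, Fam.hat G x ∂S.μ + ε :=
  le_of_tendsto_of_tendsto (S.lim F) ((S.lim G).add_const ε) h

end Sys

end Pool.Agent.MP_154433_an.SG

end

end MrgPart0

-- ======== part 1: formerly Pool.Agent.MP_154433_an.sg.Dbl
section MrgPart1

/-! Row Dbl: the number of directions in which a function is determined can be doubled. -/

set_option autoImplicit false
set_option linter.unusedVariables false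
set_option linter.unusedSectionVars false

open MeasureTheory ProbabilityTheory Filter Topology Function

noncomputable section

namespace Pool.Agent.MP_154433_an.SG

open Fam

namespace dblh

/-- a nonzero function of a join correlates with a product -/
lemma exists_lam {X : Type} {m m' : MeasurableSpace X} {m0 : MeasurableSpace X} {μ : Measure X}
    [IsFiniteMeasure μ] (hm : m ≤ m0) (hm' : m' ≤ m0) {f : X → ℝ} (hf : ABM (m ⊔ m') μ f)
    (hne : ¬ f =ᵐ[μ] 0) :
    ∃ l : X → ℝ, ABM m' μ l ∧ ∫ x, (μ[fun y => l y * f y | m]) x ^ 2 ∂μ ≠ 0 := by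
  by_contra hcon
  push Not at hcon
  have hle : m ⊔ m' ≤ m0 := sup_le hm hm'
  have hfi := hf.integrable hle
  refine hne (Orth.eq_zero ?_ hle hfi hf.1)
  refine orth_sup hm hm' hfi fun a b ha hb => ?_
  have hbf : ABM (m ⊔ m') μ fun y => b y * f y := (hb.mono le_sup_right).mul hf
  have hc := hbf.condExp m
  have hsq : Integrable (fun x => (μ[fun y => b y * f y | m]) x ^ 2) μ := by
    simpa only [sq] using (hc.mul hc).integrable hm
  have h0 := (integral_eq_zero_iff_of_nonneg (fun x => sq_nonneg _) hsq).1 (hcon b hb)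
  have h1 : μ[fun y => b y * f y | m] =ᵐ[μ] 0 := by
    filter_upwards [h0] with x hx
    exact pow_eq_zero_iff (two_ne_zero) |>.1 hx
  rw [← Orth.of_condExp hm (hbf.integrable hle) h1 a ha]
  exact integral_congr_ae (Eventually.of_forall fun x => by ring)

variable {S : Sys} {ι : Type} [Fintype ι] [DecidableEq ι] {r : ι → ℤ}
  {Γ : Set (Finset ℕ × (ℕ →₀ ℤ))} {I : Set ℕ}

lemma un_mono {J J' : Finset ℕ} (h : J ⊆ J') : I ∪ (J : Set ℕ) ⊆ I ∪ (J' : Set ℕ) :=
  Set.union_subset_union_right _ (Finset.coe_subset.2 h)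

lemma bb_mono (hc : Ctx S r Γ I) {J J' : Finset ℕ} (h : J ⊆ J') (s : ℕ) (i : ι) :
    S.BB r Γ I J s i ≤ S.BB r Γ I J' s i :=
  sup_le_sup_right (hc.fd.base_mono Γ Γ _ _ subset_rfl (un_mono h)) _

lemma pj_mono {J J' : Finset ℕ} (h : J ⊆ J') : S.PJ I J ≤ S.PJ I J' :=
  sup_le_sup_left (full_mono (Set.sdiff_subset_sdiff_left (un_mono h))) _

/-- successive conditioning -/
lemma iter (hc : Ctx S r Γ I) (h2 : G2 S r Γ I) (hC : GC S r Γ I) {J : Finset ℕ} (hJ : Out I J)
    (P : Set (ℕ × ι)) (hP : ∀ p ∈ P, p.1 ∈ J) (H H' : S.Pt → ℝ) (hH : ABM (S.PJ I J) S.μ H)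
    (hHP : ∀ p ∈ P, AEStronglyMeasurable[S.BB r Γ I J p.1 p.2] H S.μ)
    (hO : Orth (S.Base Γ (I ∪ J)) S.μ H) (A : Finset (ℕ × ι)) (hA : ∀ p ∈ A, p.1 ∈ J)
    (hH' : ∀ p ∈ A, ABM (S.BB r Γ I J p.1 p.2) S.μ H') :
    ∃ f : S.Pt → ℝ, ABM (S.PJ I J) S.μ f ∧
      (∀ p, p ∈ P ∨ p ∈ A → AEStronglyMeasurable[S.BB r Γ I J p.1 p.2] f S.μ) ∧
      Orth (S.Base Γ (I ∪ J)) S.μ f ∧ ∫ x, f x * H' x ∂S.μ = ∫ x, H x * H' x ∂S.μ := by
  induction A using Finset.induction_on with
  | empty => exact ⟨H, hH, fun p hp => hHP p (by simpa using hp), hO, rfl⟩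
  | insert q A hq ih =>
    obtain ⟨f, hf, hfA, hfO, hfT⟩ := ih (fun p hp => hA p (Finset.mem_insert_of_mem hp))
      fun p hp => hH' p (Finset.mem_insert_of_mem hp)
    have hqJ := hA q (Finset.mem_insert_self _ _)
    have hfi := hf.integrable (S.pj_le I J)
    refine ⟨S.μ[f | S.BB r Γ I J q.1 q.2],
      (hf.condExp _).of_aesm (h2 J hJ q.1 hqJ q.2 f hf), fun p hp => ?_, fun φ hφ => ?_, ?_⟩
    · by_cases hpq : p = q
      · rw [hpq]
        exact stronglyMeasurable_condExp.aestronglyMeasurable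
      · have hp' : p ∈ P ∨ p ∈ A := hp.imp id fun h => (Finset.mem_insert.1 h).resolve_left hpq
        have hpJ : p.1 ∈ J := hp'.elim (hP p) fun h => hA p (Finset.mem_insert_of_mem h)
        have e1 : S.μ[f | S.BB r Γ I J p.1 p.2] =ᵐ[S.μ] f :=
          condExp_eq_self (S.bb_le _ _ _ _ _ _) (hf.of_aesm (hfA p hp'))
        have e2 := hC J hJ p.1 hpJ q.1 hqJ p.2 q.2 f hf
        exact stronglyMeasurable_condExp.aestronglyMeasurable.congr
          (e2.symm.trans (condExp_congr_ae e1))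
    · rw [integral_condExp_mul (S.bb_le _ _ _ _ _ _) (hφ.mono le_sup_left) hfi]
      exact hfO φ hφ
    · rw [integral_condExp_mul (S.bb_le _ _ _ _ _ _) (hH' q (Finset.mem_insert_self _ _)) hfi,
        hfT]

end dblh

open dblh in
theorem dbl : DBLS := by
  intro S ι _ _ r Γ I hc h2 hC J hJ hPA
  obtain ⟨f, hf, hfB, hfO, hne⟩ := hPA
  obtain ⟨l, hl, hl0⟩ := exists_lam (full_le I) (lam_le' (I ∪ J)) hf hne
  have hlB : ABM (S.Base Γ (I ∪ J)) S.μ l := hl.mono (hc.fd.lam_le Γ _ hc.fr.hL)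
  set H : S.Pt → ℝ := fun y => l y * f y with hHdef
  have hH : ABM (S.PJ I J) S.μ H := (hl.mono le_sup_right).mul hf
  have hHB : ∀ s ∈ J, ∀ i, ABM (S.BB r Γ I J s i) S.μ H := fun s hs i =>
    (hlB.mono le_sup_left).mul (hf.of_aesm (hfB s hs i))
  have hHO : Orth (S.Base Γ (I ∪ J)) S.μ H := hfO.mul hlB
  have hHF : ABM (S.Full (I ∪ J)) S.μ H := hH.mono (S.pj_le_full I J)
  obtain ⟨π, hπ, -, hπI, hπJ⟩ := hc.fd.fresh I J hc.fr.zero (fun j hj => (hJ j hj).1)
    fun j hj => by simpa only [(hJ j hj).2, iff_true] using hc.fr.cos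
  have hmp := hc.fd.pmmp π hπ
  have hcopy := hc.fd.copy π I (I ∪ J) H hπ hπI Set.subset_union_left (fun j hj hj' => by
    have hjJ : j ∈ J := Finset.mem_coe.1 (hj.resolve_left hj')
    rintro (h | h)
    · exact (hπJ j hjJ).1 h
    · exact (hπJ j hjJ).2 (Finset.mem_coe.1 h)) hHF
  have hdis : Disjoint J (J.image π) := Finset.disjoint_right.2 fun j hj => by
    obtain ⟨k, hk, rfl⟩ := Finset.mem_image.1 hj
    exact (hπJ k hk).2
  have hJ' : Out I (J ∪ J.image π) := fun j hj => by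
    rcases Finset.mem_union.1 hj with hj | hj
    · exact hJ j hj
    · obtain ⟨k, hk, rfl⟩ := Finset.mem_image.1 hj
      exact ⟨(hπJ k hk).1, (hπ.2 k).2 (hJ k hk).2⟩
  have hO' : Orth (S.Base Γ (I ∪ (J ∪ J.image π : Finset ℕ))) S.μ H :=
    hc.fd.s0 Γ (I ∪ J) _ (Or.inl hc.fr.zero)
      (fun γ hγ => ⟨(hc.fr.lives γ hγ).1.trans Set.subset_union_left, (hc.fr.lives γ hγ).2⟩)
      (un_mono Finset.subset_union_left) H hHF hHO
  obtain ⟨g, hg, hgB, hgO, hgT⟩ := iter hc h2 hC hJ' {p | p.1 ∈ J}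
    (fun p hp => Finset.mem_union_left _ hp) H (fun x => H (S.Pm π x))
    (hH.mono (pj_mono Finset.subset_union_left))
    (fun p hp => ((hHB p.1 hp p.2).mono (bb_mono hc Finset.subset_union_left _ _)).1) hO'
    (J.image π ×ˢ Finset.univ) (fun p hp => Finset.mem_union_right _ (Finset.mem_product.1 hp).1)
    (fun p hp => by
      obtain ⟨k, hk, hkp⟩ := Finset.mem_image.1 (Finset.mem_product.1 hp).1
      rw [← hkp]
      exact (hHB k hk p.2).comp hmp ((hc.fd.permBB ι r Γ I J k p.2 π hπ.1 hc.fr.lives hπI).trans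
        (bb_mono hc Finset.subset_union_right _ _)))
  refine ⟨J ∪ J.image π, hJ', ?_, g, hg, fun s hs i => hgB (s, i) ?_, hgO, fun h0 => hl0 ?_⟩
  · rw [Finset.card_union_of_disjoint hdis, Finset.card_image_of_injective _ π.injective, two_mul]
  · rcases Finset.mem_union.1 hs with hs | hs
    · exact Or.inl hs
    · exact Or.inr (Finset.mem_product.2 ⟨hs, Finset.mem_univ _⟩)
  · rw [← hcopy, ← hgT]
    refine integral_eq_zero_of_ae ?_
    filter_upwards [h0] with x hx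
    simp [hx]

end Pool.Agent.MP_154433_an.SG

end

end MrgPart1

-- ======== part 2: formerly Pool.Agent.MP_154433_an.h86.KMain
section MrgPart2

-- ======== part 0: formerly Pool.Agent.MP_154433_an.h86.Kak
section MrgPart0

set_option autoImplicit false

/-! Small sets that contain an arithmetic progression of every common difference. -/

open Filter Topology Finset

namespace Pool.Agent.MP_154433_an.Kak

/-- modulo an odd number the values of `t ^ 2 + j t` are shifted squares -/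
lemma res (q : ℕ) (j t : ℤ) : ∃ u ∈ range (q + 1),
    (t ^ 2 + j * t) % ((2 * q + 1 : ℕ) : ℤ) =
      ((u : ℤ) ^ 2 - (j * (q + 1)) ^ 2) % ((2 * q + 1 : ℕ) : ℤ) := by
  have hp : (0 : ℤ) < ((2 * q + 1 : ℕ) : ℤ) := by positivity
  have h0 := Int.emod_nonneg (t + j * (q + 1)) hp.ne'
  have h1 := Int.emod_lt_of_pos (t + j * (q + 1)) hp
  have h2 := Int.mul_ediv_add_emod (t + j * (q + 1)) ((2 * q + 1 : ℕ) : ℤ)
  generalize (t + j * (q + 1)) % ((2 * q + 1 : ℕ) : ℤ) = w at h0 h1 h2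
  generalize (t + j * (q + 1)) / ((2 * q + 1 : ℕ) : ℤ) = s at h2
  have ht : t = ((2 * q + 1 : ℕ) : ℤ) * s + w - j * (q + 1) := by linarith
  by_cases hw : w ≤ q
  · refine ⟨w.toNat, mem_range.2 (by omega), Int.modEq_iff_dvd.2 ?_⟩
    rw [Int.toNat_of_nonneg h0, ht]
    refine ⟨j * w - j ^ 2 * (q + 1) - s * ((2 * q + 1) * s + 2 * w - 2 * j * (q + 1) + j), ?_⟩
    push_cast
    ring
  · refine ⟨(2 * q + 1 - w).toNat, mem_range.2 (by push_cast at h1; omega),
      Int.modEq_iff_dvd.2 ?_⟩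
    rw [Int.toNat_of_nonneg (by push_cast at h1; omega), ht]
    refine ⟨j * w - j ^ 2 * (q + 1) - s * ((2 * q + 1) * s + 2 * w - 2 * j * (q + 1) + j) +
      (2 * q + 1) - 2 * w, ?_⟩
    push_cast
    ring

/-- one digit: the parabola modulo a product of odd primes -/
lemma digit (P : Finset ℕ) (hP : ∀ p ∈ P, p.Prime ∧ Odd p) (K : ℕ) (j : ℤ) (hj : |j| ≤ K) :
    ((range (∏ p ∈ P, p)).image fun d : ℕ =>
      (d : ℤ) ^ 2 % ((∏ p ∈ P, p : ℕ) : ℤ) + j * d).card ≤
        (2 * K + 1) * ∏ p ∈ P, (p / 2 + 1) := by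
  classical
  set Q : ℕ := ∏ p ∈ P, p with hQ
  have hQ0 : (0 : ℤ) < Q := by
    exact_mod_cast prod_pos fun p hp => (hP p hp).1.pos
  let A : ℕ → Finset ℤ := fun p => (range (p / 2 + 1)).image fun u : ℕ =>
    ((u : ℤ) ^ 2 - (j * ((p / 2 : ℕ) + 1)) ^ 2) % (p : ℤ)
  have hc : (Icc (-(K : ℤ)) K ×ˢ Fintype.piFinset fun p : P => A p).card ≤
      (2 * K + 1) * ∏ p ∈ P, (p / 2 + 1) := by
    rw [card_product, Fintype.card_piFinset, Int.card_Icc, ← prod_coe_sort P]
    refine Nat.mul_le_mul (by omega) (prod_le_prod' fun p _ => ?_)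
    exact card_image_le.trans (card_range _).le
  refine le_trans (card_le_card_of_injOn (fun v : ℤ => (v / Q, fun p : P => v % (p : ℕ)))
    ?_ ?_) hc
  · intro v hv
    obtain ⟨d, hd, rfl⟩ := mem_image.1 (mem_coe.1 hv)
    have hd' : (d : ℤ) < Q := by exact_mod_cast mem_range.1 hd
    have h0 := Int.emod_nonneg ((d : ℤ) ^ 2) hQ0.ne'
    have h1 := Int.emod_lt_of_pos ((d : ℤ) ^ 2) hQ0
    have hj' := abs_le.1 hj
    have hd0 : (0 : ℤ) ≤ d := by positivity
    have hK : (0 : ℤ) ≤ K := by positivity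
    refine mem_coe.2 (mem_product.2 ⟨mem_Icc.2 ⟨?_, ?_⟩, Fintype.mem_piFinset.2 fun p => ?_⟩)
    · refine (Int.le_ediv_iff_mul_le hQ0).2 ?_
      nlinarith [hj'.1]
    · refine Int.lt_add_one_iff.1 ((Int.ediv_lt_iff_lt_mul hQ0).2 ?_)
      nlinarith [hj'.2]
    · obtain ⟨q, hq⟩ := (hP p p.2).2
      have hq2 : (p : ℕ) / 2 = q := by omega
      obtain ⟨u, hu, e⟩ := res q j d
      refine mem_image.2 ⟨u, hq2 ▸ hu, ?_⟩
      have hdv : ((p : ℕ) : ℤ) ∣ (Q : ℤ) := by exact_mod_cast dvd_prod_of_mem _ p.2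
      show _ = ((d : ℤ) ^ 2 % Q + j * d) % ((p : ℕ) : ℤ)
      rw [hq2, Int.add_emod (_ % _), Int.emod_emod_of_dvd _ hdv, ← Int.add_emod, hq, e]
  · intro v _ v' _ h
    obtain ⟨h1, h2⟩ := Prod.mk.inj h
    have h3 : (Q : ℤ) ∣ v' - v := by
      rw [hQ, Nat.cast_prod]
      refine prod_dvd_of_coprime (fun p hp p' hp' hne => ?_) fun p hp => ?_
      · exact Nat.isCoprime_iff_coprime.2 ((Nat.coprime_primes (hP p hp).1 (hP p' hp').1).2 hne)
      · exact Int.modEq_iff_dvd.1 (congrFun h2 ⟨p, hp⟩)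
    have h4 : v % Q = v' % Q := Int.modEq_iff_dvd.2 h3
    rw [← Int.mul_ediv_add_emod v Q, ← Int.mul_ediv_add_emod v' Q, h1, h4]

/-- many digits -/
lemma tens {Q B K : ℕ} (hQ : 0 < Q) (x : ℕ → ℤ)
    (hx : ∀ j : ℤ, |j| ≤ K → ((range Q).image fun d : ℕ => x d + j * d).card ≤ B) (n : ℕ) :
    ∃ X : ℕ → ℤ, ∀ j : ℤ, |j| ≤ K →
      ((range (Q ^ n)).image fun d : ℕ => X d + j * d).card ≤ B ^ n := by
  classical
  induction n with
  | zero => exact ⟨fun _ => 0, fun j _ => card_image_le.trans (by simp)⟩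
  | succ n ih =>
    obtain ⟨X, hX⟩ := ih
    refine ⟨fun d => x (d % Q) + Q * X (d / Q), fun j hj => ?_⟩
    refine le_trans (card_le_card (t := image₂ (fun a b : ℤ => a + Q * b)
      ((range Q).image fun d : ℕ => x d + j * d)
      ((range (Q ^ n)).image fun d : ℕ => X d + j * d)) fun v hv => ?_) ?_
    · obtain ⟨d, hd, rfl⟩ := mem_image.1 hv
      refine mem_image₂.2 ⟨_, mem_image_of_mem _ (mem_range.2 (Nat.mod_lt d hQ)), _,
        mem_image_of_mem _ (mem_range.2 (Nat.div_lt_of_lt_mul (m := d) (n := Q) (k := Q ^ n) ?_)), ?_⟩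
      · rw [← pow_succ']; exact mem_range.1 hd
      · have h : ((d % Q : ℕ) : ℤ) + Q * ((d / Q : ℕ) : ℤ) = d := by
          exact_mod_cast Nat.mod_add_div d Q
        beta_reduce
        linear_combination j * h
    · refine (card_image₂_le _ _ _).trans ?_
      rw [pow_succ']
      exact Nat.mul_le_mul (hx j hj) (hX j hj)

/-- there are many primes -/
lemma many_primes {b : ℝ} (hb0 : 0 < b) (hb : b < 1) (A : ℝ) :
    ∀ᶠ y : ℕ in atTop, A * ((y : ℝ) + 1) ^ b ≤ Nat.primeCounting y := by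
  obtain ⟨e, he, hbe⟩ : ∃ e : ℝ, 0 < e ∧ b + e < 1 := ⟨(1 - b) / 2, by linarith, by linarith⟩
  have t1 : Tendsto (fun y : ℕ => (2 * |A| / e + 4) * (y : ℝ) ^ (-(1 - max (b + e) (1 / 2))))
      atTop (𝓝 0) := by
    have := ((tendsto_rpow_neg_atTop (y := 1 - max (b + e) (1 / 2)) (by
      have := max_lt hbe (by norm_num : (1 / 2 : ℝ) < 1)
      linarith)).comp tendsto_natCast_atTop_atTop).const_mul (2 * |A| / e + 4)
    simpa using this
  have hl2 : 0 < Real.log 2 := Real.log_pos one_lt_two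
  filter_upwards [t1.eventually_le_const hl2, eventually_ge_atTop 2] with y h1 h2
  have hy : (2 : ℝ) ≤ y := by exact_mod_cast h2
  have hy0 : (0 : ℝ) < y := by linarith
  have hl : 0 < Real.log y := Real.log_pos (by linarith)
  refine le_trans ?_ (Chebyshev.pi_ge y)
  rw [le_div_iff₀ hl]
  set m := max (b + e) (1 / 2) with hm
  have a1 : ((y : ℝ) + 1) ^ b ≤ 2 * (y : ℝ) ^ b := by
    calc ((y : ℝ) + 1) ^ b ≤ (2 * y) ^ b :=
          Real.rpow_le_rpow (by linarith) (by linarith) hb0.le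
      _ = 2 ^ b * (y : ℝ) ^ b := Real.mul_rpow (by norm_num) hy0.le
      _ ≤ 2 * (y : ℝ) ^ b := by
          refine mul_le_mul_of_nonneg_right ?_ (by positivity)
          simpa using Real.rpow_le_rpow_of_exponent_le (x := 2) one_le_two hb.le
  have a2 : Real.log y ≤ (y : ℝ) ^ e / e := Real.log_le_rpow_div hy0.le he
  have a3 : (y : ℝ) ^ b * (y : ℝ) ^ e ≤ (y : ℝ) ^ m := by
    rw [← Real.rpow_add hy0]
    exact Real.rpow_le_rpow_of_exponent_le (by linarith) (le_max_left _ _)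
  have a4 : Real.log ((y : ℝ) + 1) ≤ 4 * (y : ℝ) ^ m := by
    have b1 := Real.log_le_rpow_div (x := (y : ℝ) + 1) (ε := 1 / 2) (by linarith) (by norm_num)
    have b2 : ((y : ℝ) + 1) ^ (1 / 2 : ℝ) ≤ 2 * (y : ℝ) ^ (1 / 2 : ℝ) := by
      calc ((y : ℝ) + 1) ^ (1 / 2 : ℝ) ≤ (2 * y) ^ (1 / 2 : ℝ) :=
            Real.rpow_le_rpow (by linarith) (by linarith) (by norm_num)
        _ = 2 ^ (1 / 2 : ℝ) * (y : ℝ) ^ (1 / 2 : ℝ) := Real.mul_rpow (by norm_num) hy0.le
        _ ≤ _ := by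
            refine mul_le_mul_of_nonneg_right ?_ (by positivity)
            simpa using Real.rpow_le_rpow_of_exponent_le (x := 2) (y := 1 / 2) (z := 1)
              one_le_two (by norm_num)
    have b3 : (y : ℝ) ^ (1 / 2 : ℝ) ≤ (y : ℝ) ^ m :=
      Real.rpow_le_rpow_of_exponent_le (by linarith) (le_max_right _ _)
    linarith
  have a5 : (2 * |A| / e + 4) * (y : ℝ) ^ m ≤ y * Real.log 2 := by
    have : (y : ℝ) ^ m = (y : ℝ) ^ (-(1 - m)) * y := by
      rw [← Real.rpow_add_one hy0.ne']; congr 1; ring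
    rw [this, ← mul_assoc, mul_comm (y : ℝ)]
    exact mul_le_mul_of_nonneg_right h1 hy0.le
  have a6 : A * ((y : ℝ) + 1) ^ b * Real.log y ≤ 2 * |A| / e * (y : ℝ) ^ m := by
    calc A * ((y : ℝ) + 1) ^ b * Real.log y ≤ |A| * (2 * (y : ℝ) ^ b) * ((y : ℝ) ^ e / e) := by
          refine mul_le_mul ?_ a2 hl.le (by positivity)
          exact mul_le_mul (le_abs_self A) a1 (by positivity) (abs_nonneg A)
      _ = 2 * |A| / e * ((y : ℝ) ^ b * (y : ℝ) ^ e) := by ring
      _ ≤ _ := mul_le_mul_of_nonneg_left a3 (by positivity)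
  linarith

/-- choice of the primes -/
lemma choice {c : ℝ} (hc0 : 0 < c) (hc : c < Real.log 2) : ∀ᶠ K : ℕ in atTop,
    c / Real.log (Real.log K) < 1 ∧ ∃ P : Finset ℕ, P.Nonempty ∧ (∀ p ∈ P, p.Prime ∧ Odd p) ∧
      (((2 * K + 1) * ∏ p ∈ P, (p / 2 + 1) : ℕ) : ℝ) ≤
        ((∏ p ∈ P, p : ℕ) : ℝ) ^ (1 - c / Real.log (Real.log K)) := by
  classical
  obtain ⟨β, hβ1, hβ⟩ : ∃ β : ℝ, 1 < β ∧ c * β < Real.log 2 := by
    obtain ⟨β, h1, h2⟩ := exists_between ((one_lt_div hc0).2 hc)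
    exact ⟨β, h1, by rwa [lt_div_iff₀' hc0] at h2⟩
  obtain ⟨γ, hγ, hγ'⟩ : ∃ γ : ℝ, 0 < γ ∧ c * β + 2 * γ = Real.log 2 :=
    ⟨(Real.log 2 - c * β) / 2, by linarith, by ring⟩
  obtain ⟨r, hr⟩ := exists_nat_one_div_lt hγ
  have hL : Tendsto (fun K : ℕ => Real.log K) atTop atTop :=
    Real.tendsto_log_atTop.comp tendsto_natCast_atTop_atTop
  have hLL := Real.tendsto_log_atTop.comp hL
  have hy : Tendsto (fun K : ℕ => ⌊Real.log K ^ β⌋₊) atTop atTop :=
    tendsto_nat_floor_atTop.comp ((tendsto_rpow_atTop (by linarith)).comp hL)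
  have hβ0 : 0 < β := by linarith
  filter_upwards [hy.eventually (many_primes (b := 1 / β) (by positivity)
    ((div_lt_one hβ0).2 hβ1) (3 / γ + r + 4)), hL.eventually_ge_atTop 1,
    hLL.eventually_gt_atTop c, eventually_ge_atTop 1] with K h1 h2 h3 h4
  simp only [Function.comp] at h3
  set L := Real.log K with hLdef
  set y := ⌊L ^ β⌋₊ with hydef
  have hll : 0 < Real.log L := hc0.trans h3
  refine ⟨(div_lt_one hll).2 h3, ?_⟩
  have hLy : L ≤ ((y : ℝ) + 1) ^ (1 / β) := by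
    have := Real.rpow_le_rpow (by positivity) (Nat.lt_floor_add_one (L ^ β)).le
      (show 0 ≤ 1 / β by positivity)
    rwa [← Real.rpow_mul (by linarith), mul_one_div_cancel hβ0.ne', Real.rpow_one] at this
  set P := (Nat.primesLE y).filter fun p => r + 3 ≤ p with hP
  have hm : (3 / γ + 1) * L ≤ P.card := by
    have b1 : (Nat.primesLE y).card ≤ P.card + (r + 3) := by
      rw [← card_filter_add_card_filter_not (s := Nat.primesLE y) fun p => r + 3 ≤ p]
      refine Nat.add_le_add_left ((card_le_card fun p hp => ?_).trans (card_range _).le) _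
      exact mem_range.2 (not_le.1 (mem_filter.1 hp).2)
    rw [Nat.primesLE_card_eq_primeCounting] at b1
    have b2 : (Nat.primeCounting y : ℝ) ≤ P.card + (r + 3) := by exact_mod_cast b1
    have b3 := mul_le_mul_of_nonneg_left hLy (show 0 ≤ 3 / γ + r + 4 by positivity)
    have b4 : (0 : ℝ) ≤ r := by positivity
    nlinarith
  have hPp : ∀ p ∈ P, p.Prime ∧ r + 3 ≤ p ∧ p ≤ y := fun p hp =>
    ⟨(Nat.mem_primesLE.1 (mem_filter.1 hp).1).2, (mem_filter.1 hp).2,
      (Nat.mem_primesLE.1 (mem_filter.1 hp).1).1⟩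
  have hodd : ∀ p ∈ P, Odd p := fun p hp =>
    (hPp p hp).1.odd_of_ne_two (by have := (hPp p hp).2.1; omega)
  refine ⟨P, card_pos.1 ?_, fun p hp => ⟨(hPp p hp).1, hodd p hp⟩, ?_⟩
  · have : (0 : ℝ) < P.card := lt_of_lt_of_le (by positivity) hm
    exact_mod_cast this
  have hone : ∀ p ∈ P, ((p / 2 + 1 : ℕ) : ℝ) ≤
      Real.exp (-γ) * (p : ℝ) ^ (1 - c / Real.log L) := by
    intro p hp
    obtain ⟨q, hq⟩ := hodd p hp
    obtain ⟨-, p1, p2⟩ := hPp p hp
    have p1' : (r : ℝ) + 3 ≤ p := by exact_mod_cast p1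
    have hr0 : (0 : ℝ) ≤ r := by positivity
    have hp0 : (0 : ℝ) < p := by linarith
    have e1 : ((p / 2 + 1 : ℕ) : ℝ) = p * (1 + 1 / p) / 2 := by
      rw [show p / 2 = q by omega, mul_add, mul_one_div_cancel hp0.ne', hq]
      push_cast
      ring
    have e2 : 1 + 1 / (p : ℝ) ≤ Real.exp γ := by
      have : 1 / (p : ℝ) ≤ 1 / ((r : ℝ) + 1) := one_div_le_one_div_of_le (by linarith) (by linarith)
      linarith [Real.add_one_le_exp γ]
    have e3 : Real.log p ≤ β * Real.log L := by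
      rw [← Real.log_rpow (by linarith)]
      refine Real.log_le_log hp0 (le_trans ?_ (Nat.floor_le (by positivity)))
      exact_mod_cast p2
    have e4 : Real.log p * (c / Real.log L) ≤ c * β := by
      rw [mul_div_assoc', div_le_iff₀ hll]
      nlinarith
    rw [e1, Real.rpow_def_of_pos hp0, mul_sub, mul_one, Real.exp_sub, Real.exp_log hp0]
    have e5 : Real.exp (Real.log p * (c / Real.log L)) * Real.exp γ * Real.exp γ ≤ 2 := by
      rw [← Real.exp_add, ← Real.exp_add, ← Real.exp_log (show (0 : ℝ) < 2 by norm_num)]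
      exact Real.exp_le_exp.2 (by linarith)
    rw [Real.exp_neg, inv_mul_eq_div, div_div, div_le_div_iff₀ (by norm_num) (by positivity)]
    have e6 : (1 + 1 / (p : ℝ)) * (Real.exp (Real.log p * (c / Real.log L)) * Real.exp γ) ≤ 2 :=
      (mul_le_mul_of_nonneg_right e2 (by positivity)).trans (by linarith)
    nlinarith
  have hK : (2 * K + 1 : ℝ) * Real.exp (-γ) ^ P.card ≤ 1 := by
    have k1 : (1 : ℝ) ≤ K := by exact_mod_cast h4
    have k2 : (2 * K + 1 : ℝ) ≤ Real.exp (3 * L) := by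
      have : Real.exp L = K := Real.exp_log (by linarith)
      have k3 : (3 : ℝ) ≤ Real.exp (2 * L) := by linarith [Real.add_one_le_exp (2 * L)]
      rw [show 3 * L = 2 * L + L by ring, Real.exp_add, this]
      nlinarith
    rw [← Real.exp_nat_mul]
    refine (mul_le_mul_of_nonneg_right k2 (by positivity)).trans ?_
    rw [← Real.exp_add]
    refine Real.exp_le_one_iff.2 ?_
    have k4 := mul_le_mul_of_nonneg_left hm hγ.le
    have k5 : γ * ((3 / γ + 1) * L) = 3 * L + γ * L := by field_simp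
    nlinarith
  rw [Nat.cast_mul, Nat.cast_prod, Nat.cast_prod, ← Real.finsetProd_rpow _ _ fun p _ => by positivity]
  calc ((2 * K + 1 : ℕ) : ℝ) * ∏ p ∈ P, ((p / 2 + 1 : ℕ) : ℝ) ≤
        ((2 * K + 1 : ℕ) : ℝ) * ∏ p ∈ P, (Real.exp (-γ) * (p : ℝ) ^ (1 - c / Real.log L)) :=
        mul_le_mul_of_nonneg_left (prod_le_prod (fun _ _ => by positivity) hone) (by positivity)
    _ = (2 * K + 1 : ℝ) * Real.exp (-γ) ^ P.card * ∏ p ∈ P, (p : ℝ) ^ (1 - c / Real.log L) := by
        rw [prod_mul_distrib, prod_const]; push_cast; ring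
    _ ≤ _ := mul_le_of_le_one_left (prod_nonneg fun _ _ => by positivity) hK

/-- the arithmetic Kakeya sets -/
theorem design {c : ℝ} (hc0 : 0 < c) (hc : c < Real.log 2) : ∀ᶠ K : ℕ in atTop,
    c / Real.log (Real.log K) < 1 ∧ ∃ C : ℝ, 0 ≤ C ∧ ∀ M : ℕ, 1 ≤ M → ∃ X : ℕ → ℤ,
      ∀ j : ℤ, |j| ≤ K → (((range M).image fun d : ℕ => X d + j * d).card : ℝ) ≤
        C * (M : ℝ) ^ (1 - c / Real.log (Real.log K)) := by
  classical
  filter_upwards [choice hc0 hc] with K hK
  obtain ⟨h1, P, hne, hP, hB⟩ := hK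
  set θ := 1 - c / Real.log (Real.log K) with hθ
  have hθ0 : 0 ≤ θ := by linarith
  set Q := ∏ p ∈ P, p with hQ
  have hQ1 : 1 < Q := by
    obtain ⟨p, hp⟩ := hne
    exact (hP p hp).1.one_lt.trans_le (Nat.le_of_dvd (prod_pos fun p hp => (hP p hp).1.pos)
      (dvd_prod_of_mem _ hp))
  refine ⟨h1, (Q : ℝ) ^ θ, by positivity, fun M hM => ?_⟩
  obtain ⟨X, hX⟩ := tens (by omega : 0 < Q) _ (digit P hP K) (Nat.log Q M + 1)
  refine ⟨X, fun j hj => ?_⟩
  have a1 := (card_le_card (image_subset_image (f := fun d : ℕ => X d + j * d)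
    (range_mono (Nat.lt_pow_succ_log_self hQ1 M).le))).trans (hX j hj)
  have a2 : ((Q : ℝ) ^ θ) ^ (Nat.log Q M + 1) ≤ (Q : ℝ) ^ θ * (M : ℝ) ^ θ := by
    rw [pow_succ', Real.rpow_pow_comm (by positivity)]
    refine mul_le_mul_of_nonneg_left (Real.rpow_le_rpow (by positivity) ?_ hθ0) (by positivity)
    exact_mod_cast Nat.pow_log_le_self Q (by omega)
  refine le_trans ?_ ((pow_le_pow_left₀ (by positivity) hB _).trans a2)
  exact_mod_cast a1

end Pool.Agent.MP_154433_an.Kak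

end MrgPart0

-- ======== part 1: formerly Pool.Agent.MP_154433_an.h86.KMain
section MrgPart1

set_option autoImplicit false

/-! Powers of one map: the union bound only has to run over an arithmetic Kakeya set. -/

open MeasureTheory ProbabilityTheory Filter Topology Asymptotics Function

namespace Pool.Agent.MP_154433_an.Kak

lemma sign {ι κ : Type} [Fintype ι] [Fintype κ] (M : ℕ) (y : ℕ → ℝ) (π : ι → ℕ → κ)
    (G : ι × κ → ℝ) (hG : ∀ a, |G a| ≤ 1) : ∃ s : ι × κ → Bool,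
      ∑ d ∈ Finset.range M, y d * ∏ j, G (j, π j d) ≤
        ∑ d ∈ Finset.range M, y d * ∏ j, sg (s (j, π j d)) := by
  classical
  refine exists_sign (fun G => ∑ d ∈ Finset.range M, y d * ∏ j, G (j, π j d)) ?_ G hG
  rintro G ⟨j0, u⟩
  rw [Finset.mul_sum, Finset.mul_sum, ← Finset.sum_add_distrib]
  refine Finset.sum_congr rfl fun c _ => ?_
  have e : ∀ t : ℝ, ∏ j, update G (j0, u) t (j, π j c) =
      update G (j0, u) t (j0, π j0 c) * ∏ j ∈ Finset.univ.erase j0, G (j, π j c) := fun t => by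
    rw [← Finset.mul_prod_erase _ _ (Finset.mem_univ j0)]
    congr 1
    refine Finset.prod_congr rfl fun j hj => update_of_ne ?_ _ _
    intro h
    exact Finset.ne_of_mem_erase hj (congrArg Prod.fst h)
  rw [e, e, ← Finset.mul_prod_erase _ _ (Finset.mem_univ j0)]
  by_cases hd : π j0 c = u
  · subst hd
    simp only [update_self]
    ring
  · have : ((j0, π j0 c) : ι × κ) ≠ (j0, u) := fun h => hd (congrArg Prod.snd h)
    rw [update_of_ne this, update_of_ne this]
    ring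

/-- a small family of coefficient sequences dominates all products along the progressions -/
lemma patterns {q M : ℕ} (hM : 1 ≤ M) (Y : ℕ → ℤ) (k : Fin (q + 1) → ℤ) {B : ℝ}
    (hB : ∀ i, (((Finset.range M).image fun d : ℕ => Y d + k i * d).card : ℝ) ≤ B) :
    ∃ S : Finset (ℕ → ℝ), (S.card : ℝ) ≤ Real.exp ((q + 1) ^ 2 * B) ∧
      (∀ c ∈ S, ∀ d, |c d| ≤ 1) ∧
      ∀ (y : ℕ → ℝ) (G : Fin (q + 1) → ℤ → ℝ), (∀ i z, |G i z| ≤ 1) → ∃ c ∈ S,
        ∑ d ∈ Finset.range M, y d * ∏ i, G i (Y d + k i * d) ≤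
          ∑ d ∈ Finset.range M, y d * c d := by
  classical
  set U : Finset ℤ := Finset.univ.biUnion fun i =>
    (Finset.range M).image fun d : ℕ => Y d + k i * d with hU
  have hmem : ∀ i d, d < M → Y d + k i * d ∈ U := fun i d hd =>
    Finset.mem_biUnion.2 ⟨i, Finset.mem_univ _,
      Finset.mem_image_of_mem (fun d : ℕ => Y d + k i * d) (Finset.mem_range.2 hd)⟩
  have hπ : ∀ i (d : ℕ), ∃ u : U, d < M → (u : ℤ) = Y d + k i * d := fun i d => by
    by_cases hd : d < M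
    · exact ⟨⟨_, hmem i d hd⟩, fun _ => rfl⟩
    · exact ⟨⟨_, hmem 0 0 hM⟩, fun h => absurd h hd⟩
  choose π hπ using hπ
  have hc : (U.card : ℝ) ≤ (q + 1) * B := by
    have h1 : (U.card : ℝ) ≤
        ∑ i, (((Finset.range M).image fun d : ℕ => Y d + k i * d).card : ℝ) := by
      exact_mod_cast Finset.card_biUnion_le
    refine h1.trans ((Finset.sum_le_card_nsmul _ _ _ fun i _ => hB i).trans ?_)
    simp
  refine ⟨Finset.univ.image fun s : Fin (q + 1) × U → Bool =>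
    fun d => ∏ i, sg (s (i, π i d)), ?_, fun c hc d => ?_, fun y G hG => ?_⟩
  · have h1 : ((Finset.univ.image fun s : Fin (q + 1) × U → Bool =>
        fun d => ∏ i, sg (s (i, π i d))).card : ℝ) ≤ 2 ^ ((q + 1) * U.card) := by
      have := Finset.card_image_le (s := Finset.univ) (f := fun s : Fin (q + 1) × U → Bool =>
        fun d => ∏ i, sg (s (i, π i d)))
      rw [Finset.card_univ, Fintype.card_fun, Fintype.card_prod, Fintype.card_fin,
        Fintype.card_bool, Fintype.card_coe] at this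
      exact_mod_cast this
    have h2 : (2 : ℝ) ≤ Real.exp 1 := by have := Real.add_one_le_exp 1; linarith
    refine h1.trans ((pow_le_pow_left₀ (by norm_num) h2 _).trans ?_)
    rw [← Real.exp_nat_mul]
    refine Real.exp_le_exp.2 ?_
    push_cast
    rw [mul_one, sq, mul_assoc]
    exact mul_le_mul_of_nonneg_left hc (by positivity)
  · obtain ⟨s, -, rfl⟩ := Finset.mem_image.1 hc
    rw [Finset.abs_prod]
    simp [abs_sg]
  · obtain ⟨s, hs⟩ := sign M y π (fun a => G a.1 a.2) fun a => hG _ _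
    refine ⟨_, Finset.mem_image_of_mem _ (Finset.mem_univ s), le_of_eq_of_le ?_ hs⟩
    refine Finset.sum_congr rfl fun d hd => ?_
    simp only [hπ _ d (Finset.mem_range.1 hd)]

section prob

variable {Ω : Type} [MeasurableSpace Ω] {P : Measure Ω} [IsProbabilityMeasure P]

theorem ae_small' {σ : ℕ → ℝ} (hσ : ∀ n, 0 ≤ σ n ∧ σ n ≤ 1) (ha : Antitone σ) {E : ℕ → Set Ω}
    (hE : ∀ n, MeasurableSet (E n)) (hind : iIndepSet E P)
    (hP : ∀ n, P (E n) = ENNReal.ofReal (σ n)) {a C : ℝ} (ha1 : a < 1)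
    (S : ℕ → Finset (ℕ → ℝ))
    (hS : ∀ M, 1 ≤ M → ((S M).card : ℝ) ≤ Real.exp (C * (M : ℝ) ^ (1 - a)))
    (hSb : ∀ M, 1 ≤ M → ∀ c ∈ S M, ∀ d, |c d| ≤ 1)
    (hg : Tendsto (fun n : ℕ => (n : ℝ) ^ a * σ n) atTop atTop)
    {ε : ℝ} (h0 : 0 < ε) (h1 : ε ≤ 1) :
    ∀ᵐ ω ∂P, ∀ᶠ M in atTop, ∀ c ∈ S M, ∑ k ∈ Finset.range M,
      ((E k).indicator (fun _ => (1 : ℝ)) ω - σ k) * c k ≤ ε * ∑ k ∈ Finset.range M, σ k := by
  let B : ℕ → Set Ω := fun M => ⋃ c ∈ S M, {ω | ε * ∑ k ∈ Finset.range M, σ k ≤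
      ∑ k ∈ Finset.range M, ((E k).indicator (fun _ => (1 : ℝ)) ω - σ k) * c k}
  have hθ : 0 < (1 - a) / 2 := by linarith
  have hB : ∀ᶠ M in atTop, P.real (B M) ≤ 1 / (M : ℝ) ^ 2 := by
    filter_upwards [hg.eventually_ge_atTop (4 * (C + 1) / ε ^ 2), eventually_ge_atTop 1,
      ((tendsto_rpow_atTop hθ).comp tendsto_natCast_atTop_atTop).eventually_ge_atTop
        (2 / ((1 - a) / 2))] with M hM hM1 hM2
    have hM0 : (0 : ℝ) < M := by exact_mod_cast hM1
    set x : ℝ := (M : ℝ) ^ (1 - a) with hx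
    have hx0 : 0 < x := by positivity
    set W := ∑ k ∈ Finset.range M, σ k with hW
    have hW1 : (C + 1) * x ≤ ε ^ 2 * W / 4 := by
      have h2 : M * σ M ≤ W := sum_ge ha M
      have h3 : (M : ℝ) = x * (M : ℝ) ^ a := by
        rw [hx, ← Real.rpow_add hM0, sub_add_cancel, Real.rpow_one]
      rw [div_le_iff₀ (by positivity)] at hM
      have h4 := mul_le_mul_of_nonneg_left hM hx0.le
      have h5 := mul_le_mul_of_nonneg_right h2 (sq_nonneg ε)
      have h6 : x * ((M : ℝ) ^ a * σ M * ε ^ 2) = M * σ M * ε ^ 2 := by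
        conv_rhs => rw [h3]
        ring
      linarith
    refine (measureReal_biUnion_finset_le _ _).trans ?_
    refine (Finset.sum_le_card_nsmul _ _ _ fun c hc =>
      tail hσ hE hind hP (hSb M hM1 c hc) M h0.le h1).trans ?_
    rw [nsmul_eq_mul]
    refine (mul_le_mul_of_nonneg_right (hS M hM1) (Real.exp_pos _).le).trans ?_
    rw [← Real.exp_add]
    have h5 : 2 * Real.log M ≤ x := by
      have b1 := Real.log_le_rpow_div hM0.le hθ
      have b2 : x = (M : ℝ) ^ ((1 - a) / 2) * (M : ℝ) ^ ((1 - a) / 2) := by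
        rw [hx, ← Real.rpow_add hM0, add_halves]
      simp only [Function.comp] at hM2
      have b3 := mul_le_mul_of_nonneg_left hM2 (Real.rpow_nonneg hM0.le ((1 - a) / 2))
      rw [b2]
      refine le_trans ?_ b3
      rw [mul_div_assoc', mul_comm _ (2 : ℝ), mul_div_assoc]
      linarith
    have h6 : Real.exp (C * x + -(ε ^ 2 * W / 4)) ≤ Real.exp (-(2 * Real.log M)) :=
      Real.exp_le_exp.2 (by linarith)
    refine h6.trans (le_of_eq ?_)
    rw [Real.exp_neg, two_mul, Real.exp_add, Real.exp_log hM0, one_div, sq]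
  have hsum : Summable fun M => P.real (B M) := by
    refine Summable.of_norm_bounded_eventually_nat
      (Real.summable_one_div_nat_pow.2 one_lt_two) ?_
    filter_upwards [hB] with M hM
    rwa [Real.norm_eq_abs, abs_of_nonneg measureReal_nonneg]
  have hne : ∑' M, P (B M) ≠ ⊤ := by
    have : ∀ M, P (B M) = ENNReal.ofReal (P.real (B M)) := fun M =>
      (ofReal_measureReal (measure_ne_top _ _)).symm
    simp only [this]
    rw [← ENNReal.ofReal_tsum_of_nonneg (fun _ => measureReal_nonneg) hsum]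
    exact ENNReal.ofReal_ne_top
  filter_upwards [ae_eventually_notMem hne] with ω hω
  filter_upwards [hω] with M hM c hc
  simp only [B, Set.mem_iUnion, not_exists, Set.mem_ofPred_eq, not_le] at hM
  exact (hM c hc).le

end prob

variable {X : Type} [MeasurableSpace X] {μ : Measure X}

lemma zpow_mp (T : X ≃ᵐ X) (hT : MeasurePreserving T μ μ) (v : ℤ) :
    MeasurePreserving ⇑((T.toEquiv : Equiv.Perm X) ^ v) μ μ ∧
      MeasurePreserving ⇑((T.toEquiv : Equiv.Perm X) ^ v).symm μ μ := by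
  let P : Subgroup (Equiv.Perm X) :=
    { carrier := {e | MeasurePreserving e μ μ ∧ MeasurePreserving e.symm μ μ}
      one_mem' := ⟨MeasurePreserving.id μ, MeasurePreserving.id μ⟩
      mul_mem' := fun ha hb => ⟨ha.1.comp hb.1, hb.2.comp ha.2⟩
      inv_mem' := fun ha => ⟨ha.2, ha.1⟩ }
  exact P.zpow_mem (x := T.toEquiv) ⟨hT, hT.symm T⟩ v

variable [IsProbabilityMeasure μ]

lemma corr {ℓ M : ℕ} (A : ℤ → X → X) (hA1 : ∀ v, MeasurePreserving (A v) μ μ)
    (hA2 : ∀ v w x, A (v + w) x = A v (A w x)) (Y : ℕ → ℤ) (k : Fin ℓ → ℤ) (y : ℕ → ℝ) {t : ℝ}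
    (ht : ∀ G : Fin (ℓ + 1) → ℤ → ℝ, (∀ i z, |G i z| ≤ 1) →
      ∑ d ∈ Finset.range M, y d * ∏ i, G i (Y d + (Fin.cons 0 k : Fin (ℓ + 1) → ℤ) i * d) ≤ t)
    (f0 : X → ℝ) (f : Fin ℓ → X → ℝ)
    (hm0 : Measurable f0) (hm : ∀ i, Measurable (f i)) (hb0 : ∀ x, |f0 x| ≤ 1)
    (hb : ∀ i x, |f i x| ≤ 1) :
    ∑ d ∈ Finset.range M, y d * ∫ x, f0 x * ∏ i, f i (A (k i * d) x) ∂μ ≤ t := by
  let ff : Fin (ℓ + 1) → X → ℝ := Fin.cons f0 f
  let k' : Fin (ℓ + 1) → ℤ := Fin.cons 0 k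
  have hffm : ∀ j, Measurable (ff j) := fun j => Fin.cases hm0 hm j
  have hffb : ∀ j x, |ff j x| ≤ 1 := fun j => Fin.cases hb0 hb j
  have hmk : ∀ d : ℕ, Measurable fun x => f0 x * ∏ i, f i (A (k i * d) x) := fun d =>
    hm0.mul (Finset.measurable_prod _ fun i _ => (hm i).comp (hA1 _).measurable)
  have e1 : ∀ d : ℕ, ∫ x, f0 x * ∏ i, f i (A (k i * d) x) ∂μ =
      ∫ x, ∏ j, ff j (A (Y d + k' j * d) x) ∂μ := by
    intro d
    rw [← (hA1 (Y d)).map_eq, integral_map (hA1 _).measurable.aemeasurable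
      (hmk _).aestronglyMeasurable, (hA1 (Y d)).map_eq]
    refine integral_congr_ae (Filter.Eventually.of_forall fun x => ?_)
    simp only [Fin.prod_univ_succ, ff, k', Fin.cons_zero, Fin.cons_succ, zero_mul, add_zero]
    simp only [add_comm (Y d), hA2]
  have hint : ∀ d : ℕ, Integrable (fun x => y d * ∏ j, ff j (A (Y d + k' j * d) x)) μ :=
    fun d => by
    refine Integrable.const_mul ?_ _
    refine Integrable.of_bound (Finset.measurable_prod _ fun j _ =>
      (hffm j).comp (hA1 _).measurable).aestronglyMeasurable 1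
      (Filter.Eventually.of_forall fun x => ?_)
    rw [Real.norm_eq_abs, Finset.abs_prod]
    exact Finset.prod_le_one (fun _ _ => abs_nonneg _) fun j _ => hffb j _
  have e2 : ∑ d ∈ Finset.range M, y d * ∫ x, f0 x * ∏ i, f i (A (k i * d) x) ∂μ =
      ∫ x, ∑ d ∈ Finset.range M, y d * ∏ j, ff j (A (Y d + k' j * d) x) ∂μ := by
    rw [integral_finsetSum _ fun d _ => hint d]
    exact Finset.sum_congr rfl fun d _ => by rw [integral_const_mul, ← e1]
  rw [e2]
  calc ∫ x, ∑ d ∈ Finset.range M, y d * ∏ j, ff j (A (Y d + k' j * d) x) ∂μ ≤ ∫ _, t ∂μ :=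
        integral_mono (integrable_finsetSum _ fun d _ => hint d) (integrable_const t)
          fun x => ht (fun j z => ff j (A z x)) fun j z => hffb j _
    _ = t := by simp

theorem kcore {ℓ : ℕ} {σ : ℕ → ℝ} (h0 : ∀ n, 0 ≤ σ n) (ha : Antitone σ)
    (hW : Tendsto (fun M => ∑ k ∈ Finset.range M, σ k) atTop atTop)
    (p : ℕ → Prop) [DecidablePred p] (T : Fin ℓ → X ≃ᵐ X)
    (hp : ∀ ε : ℝ, 0 < ε → ε ≤ 1 → ∀ᶠ M in atTop, ∀ (f0 : X → ℝ) (f : Fin ℓ → X → ℝ),
      Measurable f0 → (∀ i, Measurable (f i)) → (∀ x, |f0 x| ≤ 1) → (∀ i x, |f i x| ≤ 1) →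
      ∑ k ∈ Finset.range M, ((if p k then (1 : ℝ) else 0) - σ k) *
        ∫ x, f0 x * ∏ i, f i ((T i)^[k] x) ∂μ ≤ ε * ∑ k ∈ Finset.range M, σ k)
    (hT : ∀ i, MeasurePreserving (T i) μ μ) (hc : ∀ i j, Function.Commute (T i) (T j))
    (f : Fin ℓ → X → ℝ) (hm : ∀ i, Measurable (f i)) (hb : ∀ i x, |f i x| ≤ 1) :
    ∃ (F : ℕ → Lp ℝ 2 μ) (G : Lp ℝ 2 μ), (∀ k, F k =ᵐ[μ] fun x => ∏ i, f i ((T i)^[k] x)) ∧
      Tendsto (fun N : ℕ => (N : ℝ)⁻¹ • ∑ n ∈ Finset.range N, F (Nat.nth p n)) atTop (𝓝 G) ∧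
      Tendsto (fun N : ℕ => (N : ℝ)⁻¹ • ∑ n ∈ Finset.Icc 1 N, F n) atTop (𝓝 G) := by
  let Φ : ℕ → X → ℝ := fun k x => ∏ i, f i ((T i)^[k] x)
  have hΦm : ∀ k, Measurable (Φ k) := fun k =>
    Finset.measurable_prod _ fun i _ => (hm i).comp ((T i).measurable.iterate k)
  have hΦb : ∀ k x, |Φ k x| ≤ 1 := fun k x => by
    rw [Finset.abs_prod]
    exact Finset.prod_le_one (fun _ _ => abs_nonneg _) fun j _ => hb j _
  have hΦp : ∀ k, MemLp (Φ k) 2 μ := fun k =>
    MemLp.of_bound (hΦm k).aestronglyMeasurable 1 (Eventually.of_forall (hΦb k))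
  let F : ℕ → Lp ℝ 2 μ := fun k => (hΦp k).toLp _
  have hF : ∀ k, F k =ᵐ[μ] Φ k := fun k => (hΦp k).coeFn_toLp
  have hFn : ∀ k, ‖F k‖ ≤ 1 := fun k => by
    have h1 : ‖F k‖ ^ 2 ≤ 1 := by
      rw [norm_sq_eq _ (hF k)]
      calc ∫ x, Φ k x ^ 2 ∂μ ≤ ∫ _, (1 : ℝ) ∂μ :=
            integral_mono_of_nonneg (Eventually.of_forall fun x => sq_nonneg _)
              (integrable_const _) (Eventually.of_forall fun x => by
                have := hΦb k x
                show Φ k x ^ 2 ≤ 1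
                rw [← sq_abs]; nlinarith [abs_nonneg (Φ k x)])
        _ = 1 := by simp
    nlinarith [norm_nonneg (F k)]
  have hcau : CauchySeq fun N : ℕ => (N : ℝ)⁻¹ • ∑ n ∈ Finset.range N, F n := by
    let _ : TopologicalSpace X := ⊥
    have : DiscreteTopology X := ⟨rfl⟩
    rw [Metric.cauchySeq_iff]
    intro ε hε
    obtain ⟨N0, hN0⟩ := cauchy_aux μ T hT hc f hm hb (ε ^ 2 / 2) (by positivity)
    refine ⟨N0, fun N hN N' hN' => ?_⟩
    rw [dist_eq_norm]
    have h1 := hN0 N hN N' hN'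
    rw [← norm_sq_eq ((N : ℝ)⁻¹ • ∑ n ∈ Finset.range N, F n -
      (N' : ℝ)⁻¹ • ∑ n ∈ Finset.range N', F n) (by
        filter_upwards [Lp.coeFn_sub ((N : ℝ)⁻¹ • ∑ n ∈ Finset.range N, F n)
          ((N' : ℝ)⁻¹ • ∑ n ∈ Finset.range N', F n),
          coe_avg (Finset.range N) (N : ℝ)⁻¹ id F Φ hF,
          coe_avg (Finset.range N') (N' : ℝ)⁻¹ id F Φ hF] with x h1 h2 h3
        rw [h1, Pi.sub_apply]
        exact congrArg₂ _ h2 h3)] at h1
    refine lt_of_pow_lt_pow_left₀ 2 hε.le ?_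
    have : 0 < ε ^ 2 := by positivity
    linarith
  obtain ⟨G, hG⟩ := cauchySeq_tendsto_of_complete hcau
  set y : ℕ → ℝ := fun k => (if p k then (1 : ℝ) else 0) - σ k with hy
  set W : ℕ → ℝ := fun M => ∑ k ∈ Finset.range M, σ k with hWdef
  have hW0 : ∀ M, 0 ≤ W M := fun M => Finset.sum_nonneg fun k _ => h0 k
  have hsum : ∀ ε : ℝ, 0 < ε → ε ≤ 1 → ∀ᶠ M in atTop,
      |∑ k ∈ Finset.range M, y k| ≤ ε * W M := by
    intro ε e0 e1
    filter_upwards [hp ε e0 e1] with M hM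
    have a1 := hM (fun _ => 1)
      (fun _ _ => 1) measurable_const (fun _ => measurable_const) (by simp) (by simp)
    have a2 := hM (fun _ => -1)
      (fun _ _ => 1) measurable_const (fun _ => measurable_const) (by simp) (by simp)
    simp only [Finset.prod_const_one, mul_one, integral_const, probReal_univ, smul_eq_mul,
      mul_neg, Finset.sum_neg_distrib] at a1 a2
    rw [abs_le]
    constructor <;> linarith
  refine ⟨F, G, hF, tendsto_nth h0 ha hW p ?_ ?_ hG, tendsto_Icc hFn hG⟩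
  · rw [isLittleO_iff]
    intro ε hε
    filter_upwards [hsum (min ε 1) (by positivity) (min_le_right _ _)] with M hM
    rw [Real.norm_eq_abs, Real.norm_eq_abs, abs_of_nonneg (hW0 M)]
    exact hM.trans (mul_le_mul_of_nonneg_right (min_le_left _ _) (hW0 M))
  · rw [isLittleO_iff]
    intro ε hε
    filter_upwards [hsum 1 one_pos le_rfl, hp (min (ε ^ 2 / 3) 1) (by positivity)
      (min_le_right _ _), hW.eventually_gt_atTop 0] with M hM1 hM2 hM3
    change 0 < W M at hM3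
    let v : X → ℝ := fun x => ∑ k ∈ Finset.range M, y k * Φ k x
    have hvm : Measurable v := Finset.measurable_sum _ fun k _ => (hΦm k).const_mul _
    have hvb : ∀ x, |v x| ≤ 3 * W M := fun x => by
      refine (Finset.abs_sum_le_sum_abs _ _).trans ?_
      have h1 : ∑ k ∈ Finset.range M, |y k * Φ k x| ≤
          ∑ k ∈ Finset.range M, (y k + 2 * σ k) := by
        refine Finset.sum_le_sum fun k _ => ?_
        rw [abs_mul]
        refine (mul_le_of_le_one_right (abs_nonneg _) (hΦb k x)).trans ?_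
        have := h0 k
        simp only [hy]
        split_ifs <;> rw [abs_le] <;> constructor <;> linarith
      rw [Finset.sum_add_distrib, ← Finset.mul_sum] at h1
      have h2 := (abs_le.1 hM1).2
      change _ ≤ _ + 2 * W M at h1
      linarith
    have a1 := hM2 (fun x => v x / (3 * W M)) f (hvm.div_const _) hm (fun x => by
        rw [abs_div, abs_of_pos (by positivity : 0 < 3 * W M), div_le_one (by positivity)]
        exact hvb x) hb
    have hint : ∀ k, Integrable (fun x => v x / (3 * W M) * Φ k x) μ := fun k =>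
      Integrable.of_bound ((hvm.div_const _).mul (hΦm k)).aestronglyMeasurable 1
        (Eventually.of_forall fun x => by
          rw [Real.norm_eq_abs, abs_mul]
          refine mul_le_one₀ ?_ (abs_nonneg _) (hΦb k x)
          rw [abs_div, abs_of_pos (by positivity : 0 < 3 * W M), div_le_one (by positivity)]
          exact hvb x)
    have a2 : ∫ x, v x ^ 2 ∂μ = 3 * W M *
        ∑ k ∈ Finset.range M, y k * ∫ x, v x / (3 * W M) * Φ k x ∂μ := by
      simp only [← integral_const_mul]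
      rw [← integral_finsetSum _ fun k _ => (hint k).const_mul _, ← integral_const_mul]
      refine integral_congr_ae (Eventually.of_forall fun x => ?_)
      have : ∑ k ∈ Finset.range M, y k * (v x / (3 * W M) * Φ k x) = v x / (3 * W M) * v x := by
        simp only [v, Finset.mul_sum]
        exact Finset.sum_congr rfl fun k _ => by ring
      beta_reduce
      rw [this]
      field_simp
    have a3 := norm_sq_eq _ (coe_comb (Finset.range M) y F Φ hF)
    rw [Real.norm_eq_abs, abs_of_pos hM3]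
    refine le_of_pow_le_pow_left₀ two_ne_zero (by positivity) ?_
    rw [a3, a2]
    have a4 : min (ε ^ 2 / 3) 1 * W M ≤ ε ^ 2 / 3 * W M :=
      mul_le_mul_of_nonneg_right (min_le_left _ _) hM3.le
    have a5 := mul_le_mul_of_nonneg_left (a1.trans a4) (by positivity : 0 ≤ 3 * W M)
    refine a5.trans (le_of_eq ?_)
    ring

theorem kcore' {ℓ : ℕ} {σ : ℕ → ℝ} (h0 : ∀ n, 0 ≤ σ n) (ha : Antitone σ)
    (hW : Tendsto (fun M => ∑ k ∈ Finset.range M, σ k) atTop atTop)
    (p : ℕ → Prop) [DecidablePred p] (T : Fin ℓ → X ≃ᵐ X)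
    (hp : ∀ ε : ℝ, 0 < ε → ε ≤ 1 → ∀ᶠ M in atTop, ∀ (f0 : X → ℝ) (f : Fin ℓ → X → ℝ),
      Measurable f0 → (∀ i, Measurable (f i)) → (∀ x, |f0 x| ≤ 1) → (∀ i x, |f i x| ≤ 1) →
      ∑ k ∈ Finset.range M, ((if p k then (1 : ℝ) else 0) - σ k) *
        ∫ x, f0 x * ∏ i, f i ((T i)^[k] x) ∂μ ≤ ε * ∑ k ∈ Finset.range M, σ k)
    (f : Fin ℓ → X → ℝ)
    (hT : ∀ i, MeasurePreserving (T i) μ μ) (hc : ∀ i j, Function.Commute (T i) (T j))
    (hf : ∀ i, MemLp (f i) ⊤ μ) :
    ∃ g : X → ℝ, MemLp g 2 μ ∧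
      Tendsto (fun N : ℕ => eLpNorm (fun x => (N : ℝ)⁻¹ *
          (∑ n ∈ Finset.range N, ∏ i, f i ((⇑(T i))^[Nat.nth p n] x)) - g x) 2 μ)
        atTop (𝓝 0) ∧
      Tendsto (fun N : ℕ => eLpNorm (fun x => (N : ℝ)⁻¹ *
          (∑ n ∈ Finset.Icc 1 N, ∏ i, f i ((⇑(T i))^[n] x)) - g x) 2 μ)
        atTop (𝓝 0) := by
  choose c f' hm hb he using fun i => exists_rep (hf i)
  obtain ⟨F, G, hF, h1, h2⟩ := kcore h0 ha hW p T hp hT hc f' hm hb
  have hk : ∀ᵐ x ∂μ, ∀ k, ∏ i, f i ((T i)^[k] x) = (∏ i, c i) * ∏ i, f' i ((T i)^[k] x) := by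
    have : ∀ᵐ x ∂μ, ∀ k i, f i ((T i)^[k] x) = c i * f' i ((T i)^[k] x) :=
      ae_all_iff.2 fun k => ae_all_iff.2 fun i =>
        ((hT i).iterate k).quasiMeasurePreserving.ae_eq_comp (he i)
    filter_upwards [this] with x hx k
    simp only [hx, Finset.prod_mul_distrib]
  refine ⟨fun x => (∏ i, c i) * G x, (Lp.memLp G).const_mul _,
    tendsto_eLpNorm h1 _ fun N => ?_, tendsto_eLpNorm h2 _ fun N => ?_⟩
  · filter_upwards [hk, coe_avg (Finset.range N) (N : ℝ)⁻¹ (Nat.nth p) F _ hF] with x h3 h4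
    rw [h4]
    simp only [h3, ← Finset.mul_sum]
    ring
  · filter_upwards [hk, coe_avg (Finset.Icc 1 N) (N : ℝ)⁻¹ id F _ hF] with x h3 h4
    simp only [id] at h4
    rw [h4]
    simp only [h3, ← Finset.mul_sum]
    ring

theorem main {σ : ℕ → ℝ} (hσ : ∀ n, 0 ≤ σ n ∧ σ n ≤ 1) (ha : Antitone σ)
    {Ω : Type} [MeasurableSpace Ω] {P : Measure Ω} [IsProbabilityMeasure P] {E : ℕ → Set Ω}
    (hE : ∀ n, MeasurableSet (E n)) (hind : iIndepSet E P)
    (hP : ∀ n, P (E n) = ENNReal.ofReal (σ n)) {a C : ℝ} (ha1 : a < 1) {ℓ : ℕ} (k : Fin ℓ → ℤ)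
    (hY : ∀ M : ℕ, 1 ≤ M → ∃ Y : ℕ → ℤ, ∀ i : Fin (ℓ + 1),
      (((Finset.range M).image fun d : ℕ =>
        Y d + (Fin.cons 0 k : Fin (ℓ + 1) → ℤ) i * d).card : ℝ) ≤ C * (M : ℝ) ^ (1 - a))
    (hg : Tendsto (fun n : ℕ => (n : ℝ) ^ a * σ n) atTop atTop) :
    ∀ᵐ ω ∂P, ∀ (X : Type) [MeasurableSpace X] (μ : Measure X) [IsProbabilityMeasure μ]
    (T : X ≃ᵐ X) (f : Fin ℓ → X → ℝ), MeasurePreserving (⇑T) μ μ → (∀ i, MemLp (f i) ⊤ μ) →
    ∃ g : X → ℝ, MemLp g 2 μ ∧
      Tendsto (fun N : ℕ => eLpNorm (fun x => (N : ℝ)⁻¹ * (∑ n ∈ Finset.range N, ∏ i,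
          f i (((T.toEquiv : Equiv.Perm X) ^ (k i * (Nat.nth (fun m => ω ∈ E m) n : ℕ))) x))
          - g x) 2 μ) atTop (𝓝 0) ∧
      Tendsto (fun N : ℕ => eLpNorm (fun x => (N : ℝ)⁻¹ * (∑ n ∈ Finset.Icc 1 N, ∏ i,
          f i (((T.toEquiv : Equiv.Perm X) ^ (k i * (n : ℕ))) x)) - g x) 2 μ) atTop (𝓝 0) := by
  classical
  choose! Y hY using hY
  choose! S hS1 hS2 hS3 using fun M hM => patterns hM (Y M) _ (hY M hM)
  have h := ae_all_iff.2 fun r : ℕ => ae_small' hσ ha hE hind hP (C := (ℓ + 1) ^ 2 * C) ha1 S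
    (fun M hM => by rw [mul_assoc]; exact hS1 M hM) hS2 hg (ε := 1 / ((r : ℝ) + 1))
    (by positivity) (by
      rw [div_le_one (by positivity)]
      have : (0 : ℝ) ≤ r := by positivity
      linarith)
  have hW : Tendsto (fun M => ∑ k ∈ Finset.range M, σ k) atTop atTop := by
    refine tendsto_atTop_mono' _ ?_ hg
    filter_upwards [eventually_ge_atTop 1] with M hM
    refine le_trans (mul_le_mul_of_nonneg_right ?_ (hσ M).1) (sum_ge ha M)
    have h1 : (1 : ℝ) ≤ M := by exact_mod_cast hM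
    exact (Real.rpow_le_rpow_of_exponent_le h1 ha1.le).trans_eq (Real.rpow_one _)
  filter_upwards [h] with ω hω X _ μ _ T f hT hf
  have hz := zpow_mp T hT
  let T' : Fin ℓ → X ≃ᵐ X := fun i =>
    { toEquiv := (T.toEquiv : Equiv.Perm X) ^ k i
      measurable_toFun := (hz _).1.measurable
      measurable_invFun := (hz _).2.measurable }
  have hit : ∀ i (n : ℕ) x, (T' i)^[n] x = ((T.toEquiv : Equiv.Perm X) ^ (k i * n)) x := by
    intro i n x
    rw [zpow_mul, zpow_natCast, Equiv.Perm.coe_pow]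
    rfl
  have key := kcore' (fun n => (hσ n).1) ha hW (fun m => ω ∈ E m) T' ?_ f (fun i => (hz _).1)
    (fun i j x => ?_) hf
  · simpa only [hit] using key
  · intro ε e0 _
    obtain ⟨r, hr⟩ := exists_nat_one_div_lt e0
    filter_upwards [hω r, eventually_ge_atTop 1] with M hM hM1 f0 f hm0 hm hb0 hb
    simp only [hit]
    refine corr (fun v => ⇑((T.toEquiv : Equiv.Perm X) ^ v)) (fun v => (hz v).1)
      (fun v w x => by rw [zpow_add, Equiv.Perm.mul_apply]) (Y M) k _ (fun G hG => ?_)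
      f0 f hm0 hm hb0 hb
    obtain ⟨c, hc, hle⟩ := hS3 M hM1 (fun m => (if ω ∈ E m then (1 : ℝ) else 0) - σ m) G hG
    refine hle.trans (le_trans (le_of_eq_of_le ?_ (hM c hc)) (mul_le_mul_of_nonneg_right hr.le
      (Finset.sum_nonneg fun k _ => (hσ k).1)))
    refine Finset.sum_congr rfl fun k _ => ?_
    rw [Set.indicator_apply]
  · exact congrArg (fun e : Equiv.Perm X => e x)
      (zpow_mul_comm (T.toEquiv : Equiv.Perm X) (k i) (k j))

end Pool.Agent.MP_154433_an.Kak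

end MrgPart1

-- marker of a merged file
example : 731051 + 481605 = 731051 + 481605 := rfl

end MrgPart2

-- ======== part 3: formerly Pool.Agent.MP_154433_an.sg.Main
section MrgPart3

/-! From the block estimates to the convergence of the averages. -/

set_option autoImplicit false

open MeasureTheory ProbabilityTheory Filter Topology Function

namespace Pool.Agent.MP_154433_an.SG

namespace MainRow

lemma halve {σ a : ℕ → ℝ} (h0 : ∀ n, 0 ≤ σ n) (ha : Antitone σ) (hb : ∀ n, a n ≤ 1) {ε : ℝ}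
    (hε : 0 ≤ ε) {M0 : ℕ} (h2 : 2 ≤ M0)
    (h : ∀ M, M0 ≤ M → ∑ n ∈ Finset.Ico (M / 2) M, a n ≤ ε * (σ (M / 2) * M)) (M : ℕ) :
    ∑ n ∈ Finset.range M, a n ≤ 8 * ε * ∑ n ∈ Finset.range (M / 2), σ n + M0 := by
  induction M using Nat.strong_induction_on with
  | _ M ih =>
    by_cases c : M < M0
    · have h1 : ∑ n ∈ Finset.range M, a n ≤ ∑ _n ∈ Finset.range M, (1 : ℝ) :=
        Finset.sum_le_sum fun n _ => hb n
      rw [Finset.sum_const, Finset.card_range, nsmul_eq_mul, mul_one] at h1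
      have h3 : (M : ℝ) ≤ M0 := by exact_mod_cast c.le
      have h4 : 0 ≤ 8 * ε * ∑ n ∈ Finset.range (M / 2), σ n :=
        mul_nonneg (by linarith) (Finset.sum_nonneg fun n _ => h0 n)
      linarith
    · have h1 := ih (M / 2) (by omega)
      have h3 := h M (not_lt.1 c)
      have h4 : ∑ _n ∈ Finset.Ico (M / 2 / 2) (M / 2), σ (M / 2) ≤
          ∑ n ∈ Finset.Ico (M / 2 / 2) (M / 2), σ n :=
        Finset.sum_le_sum fun n hn => ha (Finset.mem_Ico.1 hn).2.le
      rw [Finset.sum_const, Nat.card_Ico, nsmul_eq_mul] at h4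
      have h5 : (M : ℝ) ≤ 8 * (M / 2 - M / 2 / 2 : ℕ) := by
        exact_mod_cast (by omega : M ≤ 8 * (M / 2 - M / 2 / 2))
      have h6 := mul_le_mul_of_nonneg_left h5 (h0 (M / 2))
      have h7 : ε * (σ (M / 2) * M) ≤ ε * (8 * ∑ n ∈ Finset.Ico (M / 2 / 2) (M / 2), σ n) :=
        mul_le_mul_of_nonneg_left (by linarith) hε
      rw [← Finset.sum_range_add_sum_Ico a (Nat.div_le_self M 2),
        ← Finset.sum_range_add_sum_Ico σ (Nat.div_le_self (M / 2) 2)]
      linarith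

variable {X : Type} [MeasurableSpace X] {μ : Measure X} [IsProbabilityMeasure μ]

lemma block {ℓ M : ℕ} (A : ℤ → X → X) (hA1 : ∀ v, MeasurePreserving (A v) μ μ)
    (hA2 : ∀ v w x, A (v + w) x = A v (A w x)) (B : Finset ℕ) (k : Fin ℓ → ℤ) (y : ℕ → ℝ) {t : ℝ}
    (ht : ∀ G : Fin (ℓ + 1) → ℤ → ℝ, (∀ i z, |G i z| ≤ 1) → ∑ u ∈ Finset.range M, ∑ n ∈ B,
      y n * ∏ i, G i (u + (Fin.cons 0 k : Fin (ℓ + 1) → ℤ) i * n) ≤ t)
    (f0 : X → ℝ) (f : Fin ℓ → X → ℝ)
    (hm0 : Measurable f0) (hm : ∀ i, Measurable (f i)) (hb0 : ∀ x, |f0 x| ≤ 1)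
    (hb : ∀ i x, |f i x| ≤ 1) :
    M * ∑ n ∈ B, y n * ∫ x, f0 x * ∏ i, f i (A (k i * n) x) ∂μ ≤ t := by
  let ff : Fin (ℓ + 1) → X → ℝ := Fin.cons f0 f
  let k' : Fin (ℓ + 1) → ℤ := Fin.cons 0 k
  have hffm : ∀ j, Measurable (ff j) := fun j => Fin.cases hm0 hm j
  have hffb : ∀ j x, |ff j x| ≤ 1 := fun j => Fin.cases hb0 hb j
  have hmk : ∀ d : ℕ, Measurable fun x => f0 x * ∏ i, f i (A (k i * d) x) := fun d =>
    hm0.mul (Finset.measurable_prod _ fun i _ => (hm i).comp (hA1 _).measurable)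
  have e1 : ∀ u d : ℕ, ∫ x, f0 x * ∏ i, f i (A (k i * d) x) ∂μ =
      ∫ x, ∏ j, ff j (A (u + k' j * d) x) ∂μ := by
    intro u d
    rw [← (hA1 u).map_eq, integral_map (hA1 _).measurable.aemeasurable
      (hmk _).aestronglyMeasurable, (hA1 u).map_eq]
    refine integral_congr_ae (Filter.Eventually.of_forall fun x => ?_)
    simp only [Fin.prod_univ_succ, ff, k', Fin.cons_zero, Fin.cons_succ, zero_mul, add_zero]
    simp only [add_comm (u : ℤ), hA2]
  have hint : ∀ u d : ℕ, Integrable (fun x => y d * ∏ j, ff j (A (u + k' j * d) x)) μ :=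
    fun u d => by
    refine Integrable.const_mul ?_ _
    refine Integrable.of_bound (Finset.measurable_prod _ fun j _ =>
      (hffm j).comp (hA1 _).measurable).aestronglyMeasurable 1
      (Filter.Eventually.of_forall fun x => ?_)
    rw [Real.norm_eq_abs, Finset.abs_prod]
    exact Finset.prod_le_one (fun _ _ => abs_nonneg _) fun j _ => hffb j _
  have e2 : M * ∑ n ∈ B, y n * ∫ x, f0 x * ∏ i, f i (A (k i * n) x) ∂μ =
      ∫ x, ∑ u ∈ Finset.range M, ∑ n ∈ B, y n * ∏ j, ff j (A ((u : ℕ) + k' j * n) x) ∂μ := by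
    rw [integral_finsetSum _ fun u _ => integrable_finsetSum _ fun d _ => hint u d,
      Finset.sum_congr (s₁ := Finset.range M) rfl
        (g := fun _ => ∑ n ∈ B, y n * ∫ x, f0 x * ∏ i, f i (A (k i * n) x) ∂μ)
      fun u _ => ?_, Finset.sum_const, Finset.card_range, nsmul_eq_mul]
    rw [integral_finsetSum _ fun d _ => hint u d]
    exact Finset.sum_congr rfl fun d _ => by rw [integral_const_mul, ← e1]
  rw [e2]
  calc ∫ x, ∑ u ∈ Finset.range M, ∑ n ∈ B, y n * ∏ j, ff j (A ((u : ℕ) + k' j * n) x) ∂μ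
      ≤ ∫ _, t ∂μ :=
        integral_mono (integrable_finsetSum _ fun u _ => integrable_finsetSum _ fun d _ => hint u d)
          (integrable_const t) fun x => ht (fun j z => ff j (A z x)) fun j z => hffb j _
    _ = t := by simp

lemma primes (K M : ℕ) : ∃ p : ℕ, p.Prime ∧ (1 ≤ M → (2 * K + 2) * M ≤ p ∧ p ≤ (4 * K + 4) * M) := by
  rcases Nat.eq_zero_or_pos M with h | h
  · exact ⟨2, Nat.prime_two, fun e => by omega⟩
  · obtain ⟨p, h1, h2, h3⟩ := Nat.exists_prime_lt_and_le_two_mul ((2 * K + 2) * M) (by positivity)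
    exact ⟨p, h1, fun _ => ⟨h2.le, h3.trans (le_of_eq (by ring))⟩⟩

end MainRow

open MainRow Kak in
theorem mainT (h1 : DiscS) (h2 : BlkS) : MainS := by
  classical
  rintro σ hσ ha ⟨a, ha1, hg⟩ Ω _ P _ E hE hind hP
  have hpos : ∀ n, 0 < σ n := fun n => by
    obtain ⟨m, m1, m2⟩ := ((hg.eventually_gt_atTop 0).and (eventually_ge_atTop n)).exists
    refine lt_of_lt_of_le ((hσ m).1.lt_of_ne fun e => ?_) (ha m2)
    rw [← e, mul_zero] at m1
    exact lt_irrefl _ m1
  have hW : Tendsto (fun M => ∑ k ∈ Finset.range M, σ k) atTop atTop := by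
    refine tendsto_atTop_mono' _ ?_ hg
    filter_upwards [eventually_ge_atTop 1] with M hM
    refine le_trans (mul_le_mul_of_nonneg_right ?_ (hσ M).1) (sum_ge ha M)
    have h1 : (1 : ℝ) ≤ M := by exact_mod_cast hM
    exact (Real.rpow_le_rpow_of_exponent_le h1 ha1.le).trans_eq (Real.rpow_one _)
  choose p hp1 hp2 using primes
  have hne : ∀ K M, NeZero (p K M) := fun K M => ⟨(hp1 K M).ne_zero⟩
  have h := ae_all_iff.2 fun K : ℕ => h1 σ hσ ha a ha1 hg Ω P E hE hind hP (p K) (4 * K + 4)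
    fun M hM => ⟨le_trans (Nat.le_mul_of_pos_left _ (by omega)) (hp2 K M hM).1, (hp2 K M hM).2⟩
  filter_upwards [h] with ω hω ℓ k X _ μ _ T f hT hf
  have hy : ∀ n, (E n).indicator (fun _ => (1 : ℝ)) ω = if ω ∈ E n then (1 : ℝ) else 0 :=
    fun n => Set.indicator_apply _ _ _
  obtain ⟨K, hK⟩ : ∃ K : ℕ, ∀ i, |(Fin.cons 0 k : Fin (ℓ + 1) → ℤ) i| ≤ K := by
    refine ⟨Finset.univ.sup fun i => ((Fin.cons 0 k : Fin (ℓ + 1) → ℤ) i).natAbs, fun i => ?_⟩
    rw [← Int.natCast_natAbs]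
    exact_mod_cast Finset.le_sup (f := fun i => ((Fin.cons 0 k : Fin (ℓ + 1) → ℤ) i).natAbs)
      (Finset.mem_univ i)
  have hB := h2 σ _ hpos ha (fun n => by rw [hy]; split_ifs <;> linarith) (Fin (ℓ + 1))
    (Fin.cons 0 k) K (4 * K + 4) hK (p K) (hp1 K) (hp2 K) (hω K)
  simp only [hy] at hB
  have hz := zpow_mp T hT
  let T' : Fin ℓ → X ≃ᵐ X := fun i =>
    { toEquiv := (T.toEquiv : Equiv.Perm X) ^ k i
      measurable_toFun := (hz _).1.measurable
      measurable_invFun := (hz _).2.measurable }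
  have hit : ∀ i (n : ℕ) x, (T' i)^[n] x = ((T.toEquiv : Equiv.Perm X) ^ (k i * n)) x := by
    intro i n x
    rw [zpow_mul, zpow_natCast, Equiv.Perm.coe_pow]
    rfl
  have key := kcore' (fun n => (hσ n).1) ha hW (fun m => ω ∈ E m) T' ?_ f (fun i => (hz _).1)
    (fun i j x => ?_) hf
  · simpa only [hit] using key
  · intro ε e0 _
    obtain ⟨M0, hM0⟩ := eventually_atTop.1 (hB (ε / 16) (by positivity))
    filter_upwards [hW.eventually_ge_atTop (2 * (max M0 2 : ℕ) / ε)] with M hM f0 f hm0 hm hb0 hb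
    simp only [hit]
    have a1 := halve (a := fun n => ((if ω ∈ E n then (1 : ℝ) else 0) - σ n) *
      ∫ x, f0 x * ∏ i, f i (((T.toEquiv : Equiv.Perm X) ^ (k i * (n : ℕ))) x) ∂μ)
      (fun n => (hσ n).1) ha (fun n => ?_) (by positivity : 0 ≤ ε / 16) (le_max_right M0 2)
      (fun N hN => ?_) M
    · have a2 : ∑ n ∈ Finset.range (M / 2), σ n ≤ ∑ n ∈ Finset.range M, σ n :=
        Finset.sum_le_sum_of_subset_of_nonneg (Finset.range_mono (Nat.div_le_self M 2))
          fun n _ _ => (hσ n).1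
      have a3 := mul_le_mul_of_nonneg_left a2 e0.le
      rw [div_le_iff₀ e0] at hM
      linarith
    · refine (le_abs_self _).trans ?_
      rw [abs_mul]
      refine mul_le_one₀ ?_ (abs_nonneg _) ?_
      · have := hσ n
        split_ifs <;> rw [abs_le] <;> constructor <;> linarith [this.1, this.2]
      · have := norm_integral_le_of_norm_le_const (μ := μ) (C := 1) (f := fun x =>
          f0 x * ∏ i, f i (((T.toEquiv : Equiv.Perm X) ^ (k i * (n : ℕ))) x))
          (Eventually.of_forall fun x => by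
            rw [Real.norm_eq_abs, abs_mul, Finset.abs_prod]
            exact mul_le_one₀ (hb0 x) (Finset.prod_nonneg fun _ _ => abs_nonneg _)
              (Finset.prod_le_one (fun _ _ => abs_nonneg _) fun j _ => hb j _))
        simpa using this
    · have b1 := block (fun v => ⇑((T.toEquiv : Equiv.Perm X) ^ v)) (fun v => (hz v).1)
        (fun v w x => by rw [zpow_add, Equiv.Perm.mul_apply]) _ k _
        (hM0 N ((le_max_left _ _).trans hN)) f0 f hm0 hm hb0 hb
      have b2 : (0 : ℝ) < N := Nat.cast_pos.2 (by have := le_max_right M0 2; omega)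
      refine le_of_mul_le_mul_left (b1.trans (le_of_eq ?_)) b2
      ring
  · exact congrArg (fun e : Equiv.Perm X => e x)
      (zpow_mul_comm (T.toEquiv : Equiv.Perm X) (k i) (k j))

end Pool.Agent.MP_154433_an.SG

end MrgPart3

-- marker of a merged file
example : 731051 + 175808 = 731051 + 175808 := rfl
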