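import Pool.Agent.MP_154433_an.sg.Fin
import Pool.Agent.MP_154433_an.sg.Main

-- ======== part 0: formerly Pool.Agent.MP_154433_an.sg.FdB
section MrgPart0

/-! Product measure facts: resampling, permutations, skew bijections of uniform coordinates. -/

set_option autoImplicit false

open MeasureTheory ProbabilityTheory Filter Topology Function

noncomputable section

namespace Pool.Agent.MP_154433_an.SG

namespace FdBA

variable {G : Type} [MeasurableSpace G] (μ : ℕ → Measure G) [∀ j, IsProbabilityMeasure (μ j)]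

lemma res (A : Set ℕ) [∀ j, Decidable (j ∈ A)] : MeasurePreserving
    (fun p : (ℕ → G) × (ℕ → G) => A.piecewise p.1 p.2)
    ((Measure.infinitePi μ).prod (Measure.infinitePi μ)) (Measure.infinitePi μ) := by
  have hm : Measurable (fun p : (ℕ → G) × (ℕ → G) => A.piecewise p.1 p.2) := by
    refine measurable_pi_lambda _ fun j => ?_
    by_cases hj : j ∈ A
    · simp only [Set.piecewise, if_pos hj]
      exact (measurable_pi_apply j).comp measurable_fst
    · simp only [Set.piecewise, if_neg hj]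
      exact (measurable_pi_apply j).comp measurable_snd
  refine ⟨hm, Measure.eq_infinitePi _ fun s t ht => ?_⟩
  rw [Measure.map_apply hm (MeasurableSet.pi s.countable_toSet fun i _ => ht i)]
  have : (fun p : (ℕ → G) × (ℕ → G) => A.piecewise p.1 p.2) ⁻¹' (Set.pi s t) =
      (Set.pi (s.filter fun j => j ∈ A) t) ×ˢ (Set.pi (s.filter fun j => ¬ j ∈ A) t) := by
    ext p
    simp only [Set.mem_preimage, Set.mem_pi, Finset.mem_coe, Set.mem_prod, Finset.mem_filter]
    constructor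
    · intro h
      refine ⟨fun i hi => ?_, fun i hi => ?_⟩
      · have := h i hi.1
        rwa [Set.piecewise, if_pos hi.2] at this
      · have := h i hi.1
        rwa [Set.piecewise, if_neg hi.2] at this
    · intro h i hi
      by_cases hj : i ∈ A
      · rw [Set.piecewise, if_pos hj]
        exact h.1 i ⟨hi, hj⟩
      · rw [Set.piecewise, if_neg hj]
        exact h.2 i ⟨hi, hj⟩
  rw [this, Measure.prod_prod, Measure.infinitePi_pi _ (fun i _ => ht i),
    Measure.infinitePi_pi _ (fun i _ => ht i), Finset.prod_filter_mul_prod_filter_not]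

lemma perm (π : Equiv.Perm ℕ) (h : ∀ j, μ (π j) = μ j) :
    MeasurePreserving (fun ω : ℕ → G => ω ∘ π) (Measure.infinitePi μ) (Measure.infinitePi μ) := by
  have hm : Measurable (fun ω : ℕ → G => ω ∘ π) :=
    measurable_pi_lambda _ fun j => measurable_pi_apply (π j)
  refine ⟨hm, Measure.eq_infinitePi _ fun s t ht => ?_⟩
  rw [Measure.map_apply hm (MeasurableSet.pi s.countable_toSet fun i _ => ht i)]
  have : (fun ω : ℕ → G => ω ∘ π) ⁻¹' (Set.pi s t) =
      Set.pi (s.map π.toEmbedding) (fun j => t (π.symm j)) := by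
    ext ω
    simp only [Set.mem_preimage, Set.mem_pi, Finset.mem_coe, Function.comp_apply, Finset.mem_map,
      Equiv.coe_toEmbedding]
    constructor
    · rintro h1 _ ⟨i, hi, rfl⟩
      simpa using h1 i hi
    · intro h1 i hi
      simpa using h1 (π i) ⟨i, hi, rfl⟩
  rw [this, Measure.infinitePi_pi _ (fun i _ => ht _), Finset.prod_map]
  refine Finset.prod_congr rfl fun i _ => ?_
  simp [h i]

lemma meas_of_dep [Fintype G] [DiscreteMeasurableSpace G] {Y : Type} [MeasurableSpace Y]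
    (f : (ℕ → G) → Y) (T : Finset ℕ) (h : DependsOn f (T : Set ℕ)) : Measurable f := by
  classical
  by_cases hG : Nonempty G
  · obtain ⟨g0⟩ := hG
    have : f = (fun y : T → G => f (fun j => if hj : j ∈ T then y ⟨j, hj⟩ else g0)) ∘
        T.restrict := by
      funext ω
      refine h fun i hi => ?_
      simp [Finset.mem_coe.1 hi]
    rw [this]
    exact Measurable.of_discrete.comp (Finset.measurable_restrict T)
  · haveI : IsEmpty (ℕ → G) := ⟨fun ω => hG ⟨ω 0⟩⟩
    exact measurable_of_empty f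

lemma skew [Fintype G] [DiscreteMeasurableSpace G] (Θ : (ℕ → G) → (ℕ → G)) (hΘ : Measurable Θ)
    (D : Finset ℕ) (hD : ∀ j ∈ D, μ j = uniformOn Set.univ) (hfix : ∀ ω j, j ∉ D → Θ ω j = ω j)
    (hinj : Injective Θ) :
    MeasurePreserving Θ (Measure.infinitePi μ) (Measure.infinitePi μ) := by
  classical
  set P := Measure.infinitePi μ with hP
  set U : Measure (D → G) := Measure.pi fun j : D => μ j with hU
  let E : (ℕ → G) × (D → G) → (ℕ → G) := fun p j => if hj : j ∈ D then p.2 ⟨j, hj⟩ else p.1 j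
  have hEm : Measurable E := by
    refine measurable_pi_lambda _ fun j => ?_
    by_cases hj : j ∈ D
    · simp only [E, dif_pos hj]
      exact (measurable_pi_apply _).comp measurable_snd
    · simp only [E, dif_neg hj]
      exact (measurable_pi_apply j).comp measurable_fst
  have hR : MeasurePreserving (D.restrict : (ℕ → G) → (D → G)) P U :=
    ⟨Finset.measurable_restrict D, Measure.infinitePi_map_restrict μ⟩
  have hE : MeasurePreserving E (P.prod U) P := by
    have h1 : MeasurePreserving (Prod.map id (D.restrict : (ℕ → G) → (D → G))) (P.prod P)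
        (P.prod U) := (MeasurePreserving.id P).prod hR
    have h2 := res μ ((D : Set ℕ)ᶜ)
    refine ⟨hEm, ?_⟩
    have h4 : E ∘ Prod.map id (D.restrict : (ℕ → G) → (D → G)) =
        fun p : (ℕ → G) × (ℕ → G) => ((D : Set ℕ)ᶜ).piecewise p.1 p.2 := by
      funext p j
      by_cases hj : j ∈ D
      · simp [E, hj, Set.piecewise]
      · simp [E, hj, Set.piecewise]
    rw [← h1.map_eq, Measure.map_map hEm h1.measurable, h4]
    exact h2.map_eq
  let φ : (ℕ → G) → (D → G) → (D → G) := fun ω y => D.restrict (Θ (E (ω, y)))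
  have hφE : ∀ ω y, E (ω, φ ω y) = Θ (E (ω, y)) := by
    intro ω y
    funext j
    by_cases hj : j ∈ D
    · simp [E, φ, hj]
    · rw [hfix _ j hj]
      simp [E, hj]
  have hφinj : ∀ ω, Injective (φ ω) := by
    intro ω y y' hy
    have h1 : E (ω, y) = E (ω, y') := hinj (by rw [← hφE, ← hφE, hy])
    funext j
    have := congrFun h1 j
    simpa [E, j.2] using this
  have hUs : ∀ y y' : D → G, U {y} = U {y'} := by
    intro y y'
    rw [hU, ← Set.univ_pi_singleton, ← Set.univ_pi_singleton, Measure.pi_pi, Measure.pi_pi]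
    refine Finset.prod_congr rfl fun j _ => ?_
    rw [hD j j.2, uniformOn_univ, uniformOn_univ, Measure.count_singleton, Measure.count_singleton]
  have hφ : ∀ ω, U.map (φ ω) = U := by
    intro ω
    refine Measure.ext_of_singleton fun y => ?_
    obtain ⟨y0, rfl⟩ := (Finite.injective_iff_surjective.1 (hφinj ω)) y
    rw [Measure.map_apply Measurable.of_discrete (measurableSet_singleton _)]
    have : φ ω ⁻¹' {φ ω y0} = {y0} := by
      ext y
      simp [(hφinj ω).eq_iff]
    rw [this]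
    exact hUs _ _
  have hφm : Measurable (uncurry φ) := (Finset.measurable_restrict D).comp (hΘ.comp hEm)
  have hΨ : MeasurePreserving (fun p : (ℕ → G) × (D → G) => (id p.1, φ p.1 p.2)) (P.prod U)
      (P.prod U) := (MeasurePreserving.id P).skew_product hφm (Eventually.of_forall hφ)
  refine ⟨hΘ, ?_⟩
  have h3 : Θ ∘ E = E ∘ fun p : (ℕ → G) × (D → G) => (id p.1, φ p.1 p.2) := by
    funext p
    exact (hφE p.1 p.2).symm
  calc P.map Θ = ((P.prod U).map E).map Θ := by rw [hE.map_eq]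
    _ = (P.prod U).map (Θ ∘ E) := Measure.map_map hΘ hEm
    _ = P := by rw [h3]; exact (hE.comp hΨ).map_eq

end FdBA

theorem fdB : FdBS := by
  intro S
  refine ⟨fun Θ D hD hfix hinj => ?_, fun π hπ => ?_, fun A N => ?_⟩
  · filter_upwards [hinj] with N hN
    refine FdBA.skew (S.law N) (Θ.toFun N) ?_ D (fun j hj => ?_) (hfix N) hN
    · refine measurable_pi_lambda _ fun j => ?_
      obtain ⟨T, hT⟩ := Θ.fin j
      exact FdBA.meas_of_dep _ T (hT N)
    · rw [Fam.law, if_neg (Nat.not_odd_iff_even.2 (hD j hj))]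
      rfl
  · refine Eventually.of_forall fun N => FdBA.perm (S.law N) π fun j => ?_
    simp only [Fam.law, hπ.2 j]
  · exact @FdBA.res _ _ (S.law N) _ A fun _ => Classical.propDecidable _

end Pool.Agent.MP_154433_an.SG

end

end MrgPart0

-- ======== part 1: formerly Pool.Agent.MP_154433_an.sg.FdE
section MrgPart1

/-! Row FdE: sampling, conditional independence and copies. -/

set_option autoImplicit false

open MeasureTheory ProbabilityTheory Filter Topology Function

noncomputable section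

namespace Pool.Agent.MP_154433_an.SG

open Fam

namespace FdEaux

variable {S : Sys}

lemma sec_in {I : Set ℕ} (σ : ∀ N, S.Om N) (N : ℕ) (ω : S.Om N) {j : ℕ} (hj : j ∈ I) :
    (sec Iᶜ σ).toFun N ω j = ω j := by
  simp [sec, Set.piecewise, hj]

lemma sec_out {I : Set ℕ} (σ : ∀ N, S.Om N) (N : ℕ) (ω : S.Om N) {j : ℕ} (hj : j ∉ I) :
    (sec Iᶜ σ).toFun N ω j = σ N j := by
  simp [sec, Set.piecewise, hj]

lemma pull_fix {I : Set ℕ} (σ : ∀ N, S.Om N) {G : S.Alg} (h : Dep G I) :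
    (sec Iᶜ σ).pull G = G :=
  Subtype.ext (funext fun N => funext fun ω => h N fun _ hj => sec_in σ N ω hj)

lemma dep_sec {I K : Set ℕ} (σ : ∀ N, S.Om N) {G : S.Alg} (h : Dep G K) :
    Dep ((sec Iᶜ σ).pull G) (K ∩ I) := fun N x y hxy => h N fun j hj => by
  by_cases hI : j ∈ I
  · rw [sec_in σ N x hI, sec_in σ N y hI]; exact hxy j ⟨hj, hI⟩
  · rw [sec_out σ N x hI, sec_out σ N y hI]

lemma close {g : S.Pt → ℝ} (hg : Integrable g S.μ) (G F : S.Alg) {C ε : ℝ}
    (hC : ∀ N ω, |F.1 N ω| ≤ C) (h : ∫ x, |g x - hat G x| ∂S.μ < ε) (hC0 : 0 ≤ C) :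
    |∫ x, g x * hat F x ∂S.μ - ∫ x, hat (G * F) x ∂S.μ| ≤ C * ε := by
  have hF := abm_hat (Set.mem_univ F) S.μ
  have hG := (abm_hat (Set.mem_univ G) S.μ).integrable le_rfl
  simp only [hat_mul]
  rw [← integral_sub (hF.mul_integrable le_rfl hg) (hF.mul_integrable le_rfl hG)]
  calc _ ≤ ∫ x, C * |g x - hat G x| ∂S.μ := by
        rw [← Real.norm_eq_abs]
        refine norm_integral_le_of_norm_le ((hg.sub hG).abs.const_mul C)
          (Eventually.of_forall fun x => ?_)
        rw [← sub_mul, Real.norm_eq_abs, abs_mul, mul_comm]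
        exact mul_le_mul_of_nonneg_right (x.bdd F C hC) (abs_nonneg _)
    _ ≤ C * ε := by
        rw [integral_const_mul]
        exact mul_le_mul_of_nonneg_left h.le hC0

lemma le_zero (hA : FdA S) (hC : FdC S) {T T' : Submonoid S.Alg} {I : Set ℕ}
    (hT : ∀ σ, ∀ F ∈ T', (sec Iᶜ σ).pull F ∈ T) {g : S.Pt → ℝ} (hg : ABM (S.Full I) S.μ g)
    (ho : Orth (sig (T : Set S.Alg)) S.μ g) {F : S.Alg} (hF : F ∈ T') :
    ∫ x, g x * hat F x ∂S.μ ≤ 0 := by
  obtain ⟨C0, hC0⟩ := F.2.2
  have hb : ∀ N ω, |F.1 N ω| ≤ |C0| := fun N ω => (hC0 N ω).trans (le_abs_self _)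
  have hi := hg.integrable (full_le I)
  refine le_of_forall_pos_le_add fun ε hε => ?_
  have hp : 0 < 2 * |C0| + 1 := by positivity
  obtain ⟨G, hG, hd⟩ := hA.densB (S.DepS I).toSubmonoid g hg _ (div_pos hε hp)
  have hGI : Dep G I :=
    (Submodule.span_le.2 fun _ h => h : _ ≤ Subalgebra.toSubmodule (S.DepS I)) hG
  obtain ⟨σ, hσ⟩ := hC.samp0 Iᶜ (G * F)
  rw [map_mul, pull_fix σ hGI] at hσ
  have h1 := close hi G F hb hd (abs_nonneg _)
  have h2 := close hi G ((sec Iᶜ σ).pull F) (fun N ω => hb N _) hd (abs_nonneg _)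
  rw [ho _ (abm_hat (hT σ F hF) S.μ)] at h2
  have h3 : ε / (2 * |C0| + 1) * (2 * |C0| + 1) = ε := div_mul_cancel₀ _ hp.ne'
  have h4 := div_pos hε hp
  have h5 := abs_le.1 h1
  have h6 := abs_le.1 h2
  nlinarith [h5.2, h6.1]

lemma samp (hA : FdA S) (hC : FdC S) {T T' : Submonoid S.Alg} {I : Set ℕ}
    (hT : ∀ σ, ∀ F ∈ T', (sec Iᶜ σ).pull F ∈ T) {g : S.Pt → ℝ} (hg : ABM (S.Full I) S.μ g)
    (ho : Orth (sig (T : Set S.Alg)) S.μ g) : Orth (sig (T' : Set S.Alg)) S.μ g := by
  refine hA.densA T' g (hg.integrable (full_le I)) fun F hF =>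
    le_antisymm (le_zero hA hC hT hg ho hF) ?_
  have := le_zero hA hC hT hg.neg (fun ψ hψ => by
    simp only [neg_mul, integral_neg, ho ψ hψ, neg_zero]) hF
  simp only [neg_mul, integral_neg] at this
  linarith

lemma sampd (hA : FdA S) (hC : FdC S) {T T' : Submonoid S.Alg} {I : Set ℕ}
    (hT : ∀ σ, ∀ F ∈ T', (sec Iᶜ σ).pull F ∈ T) (hle : sig (T : Set S.Alg) ≤ S.Full I)
    {ψ : S.Pt → ℝ} (hψ : ABM (sig (T' : Set S.Alg)) S.μ ψ) :
    AEStronglyMeasurable[sig (T : Set S.Alg)] (S.μ[ψ | S.Full I]) S.μ := by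
  have hb := hψ.condExp (S.Full I)
  have hq := hb.condExp (sig (T : Set S.Alg))
  have hh := hb.sub (hq.mono hle)
  have ho := orth_sub_condExp (sig_le (T : Set S.Alg)) (hb.integrable (full_le I))
  have h1 := samp hA hC hT hh ho ψ hψ
  rw [← integral_mul_condExp (full_le I) hh (hψ.integrable (sig_le _))] at h1
  have h2 := ho _ hq
  set b := S.μ[ψ | S.Full I]
  set q := S.μ[b | sig (T : Set S.Alg)]
  have hi := hh.integrable (full_le I)
  have h3 : ∫ x, (b x - q x) * (b x - q x) ∂S.μ = 0 := by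
    have := integral_sub (hb.mul_integrable (full_le I) hi) (hq.mul_integrable (sig_le _) hi)
    rw [h1, h2, sub_self] at this
    rw [← this]
    exact integral_congr_ae (Eventually.of_forall fun x => by ring)
  rw [integral_eq_zero_iff_of_nonneg (fun x => mul_self_nonneg _)
    (hh.mul_integrable (full_le I) hi)] at h3
  refine hq.1.congr ?_
  filter_upwards [h3] with x hx
  exact (sub_eq_zero.1 (mul_self_eq_zero.1 hx)).symm

lemma gen_sec {Γ : Set (Finset ℕ × (ℕ →₀ ℤ))} {I I' : Set ℕ} (h0 : 0 ∈ I) (hL : Lives Γ I)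
    (σ : ∀ N, S.Om N) (F : S.Alg) (hF : F ∈ S.GenP Γ I') : (sec Iᶜ σ).pull F ∈ S.GenP Γ I := by
  induction hF using Submonoid.closure_induction with
  | one => rw [map_one]; exact one_mem _
  | mul F G _ _ h h' => rw [map_mul]; exact mul_mem h h'
  | mem F hF =>
    obtain ⟨γ, hγ, F', hF', rfl⟩ := Set.mem_iUnion₂.1 hF
    refine Submonoid.subset_closure (Set.mem_iUnion₂.2 ⟨γ, hγ, (sec Iᶜ σ).pull F',
      (dep_sec σ hF').mono fun j hj => ⟨hj.2, hj.1.2⟩, ?_⟩)
    refine Subtype.ext (funext fun N => funext fun ω => ?_)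
    simp only [pull_apply]
    refine congrArg (F'.1 N) (funext fun j => ?_)
    rw [th_apply, th_apply]
    by_cases hj : j = 0
    · subst hj
      rw [update_self, sec_in σ N _ h0, sec_in σ N _ h0, update_self,
        dot_congr γ.2 fun i hi _ => sec_in σ N ω ((hL γ hγ).1 ((hL γ hγ).2 hi))]
    · rw [update_of_ne hj]
      by_cases hI : j ∈ I
      · rw [sec_in σ N _ hI, sec_in σ N _ hI, update_of_ne hj]
      · rw [sec_out σ N _ hI, sec_out σ N _ hI]

lemma ci (hA : FdA S) (hC : FdC S) (I₁ I₂ : Set ℕ) (g : S.Pt → ℝ) (hg : ABM (S.Full I₁) S.μ g) :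
    S.μ[g | S.Full I₂] =ᵐ[S.μ] S.μ[g | S.Full (I₁ ∩ I₂)] := by
  have hle : S.Full (I₁ ∩ I₂) ≤ S.Full I₂ := full_mono Set.inter_subset_right
  have h := sampd hA hC (T := (S.DepS (I₁ ∩ I₂)).toSubmonoid) (T' := (S.DepS I₁).toSubmonoid)
    (I := I₂) (fun σ F hF => dep_sec σ hF) hle hg
  exact (condExp_of_aestronglyMeasurable' (full_le _) h integrable_condExp).symm.trans
    (condExp_condExp_of_le hle (full_le _))

end FdEaux

open FdEaux in
theorem fdE : FdES := fun S hA _ hC hF =>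
  { samp := fun _ _ _ hT _ hg ho => samp hA hC hT hg ho
    sampd := fun _ _ _ hT hd _ hψ => sampd hA hC hT (sig_mono hd) hψ
    s0 := fun _ _ _ h0 hL _ _ hg ho => samp hA hC (gen_sec h0 hL) hg ho
    s0d := fun Γ I _ h0 hL _ _ hψ => sampd hA hC (gen_sec h0 hL) (hF.base_le Γ I hL) hψ
    ci := ci hA hC
    copy := fun π I I₁ H hπ hfix hle hout hH => by
      have hmp := hC.pmmp π hπ
      have hH' : ABM (S.Full (π '' I₁)) S.μ fun x => H (S.Pm π x) :=
        hH.comp hmp (hF.permF I₁ _ π le_rfl)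
      have hi := hH.integrable (full_le _)
      have e : I₁ ∩ π '' I₁ = I := by
        refine Set.Subset.antisymm ?_ fun j hj => ⟨hle hj, j, hle hj, hfix j hj⟩
        rintro _ ⟨h1, k, hk, rfl⟩
        by_cases hkI : k ∈ I
        · rwa [hfix k hkI]
        · exact (hout k hk hkI h1).elim
      have h1 := ci hA hC I₁ (π '' I₁) H hH
      rw [e] at h1
      have hE := hH.condExp (S.Full I)
      have h2 := hF.pmfix I π _ hmp hfix hE.1
      rw [← integral_condExp_mul (full_le _) hH' hi]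
      calc _ = ∫ x, (fun y => (S.μ[H | S.Full I]) y * H y) (S.Pm π x) ∂S.μ := by
            refine integral_congr_ae ?_
            filter_upwards [h1, h2] with x hx hx'
            simp only [hx, hx']
        _ = ∫ x, (S.μ[H | S.Full I]) x * H x ∂S.μ :=
            integral_comp_mp hmp (hE.integrable_mul (full_le _) hi).aestronglyMeasurable
        _ = _ := by
            rw [← integral_mul_condExp (full_le I) hE hi]
            simp only [sq] }

end Pool.Agent.MP_154433_an.SG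

end

end MrgPart1

-- ======== part 2: formerly Pool.Agent.MP_154433_an.sg.FdF
section MrgPart2

/-! Row FdF: bookkeeping for the sigma-algebras of the limit space. -/

set_option autoImplicit false

open MeasureTheory ProbabilityTheory Filter Topology Function

noncomputable section

namespace Pool.Agent.MP_154433_an.SG

open Fam

namespace FdFaux

variable {Φ : Fam}

lemma dep_th {F : Φ.Alg} {K I : Set ℕ} {c : ℕ →₀ ℤ} (h : Dep F K) (hK : K ⊆ I)
    (hc : (c.support : Set ℕ) ⊆ I) : Dep ((Φ.th c).pull F) I := by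
  intro N x y hxy
  show F.1 N (update x 0 (x 0 + dot c x)) = F.1 N (update y 0 (y 0 + dot c y))
  refine h N fun i hi => ?_
  by_cases h0 : i = 0
  · subst h0
    rw [update_self, update_self, hxy 0 (hK hi),
      dot_congr c fun j hj _ => hxy j (hc (Finset.mem_coe.2 hj))]
  · rw [update_of_ne h0, update_of_ne h0]
    exact hxy i (hK hi)

lemma dep_perm {F : Φ.Alg} {K I : Set ℕ} {π : Equiv.Perm ℕ} (h : Dep F K) (hK : π '' K ⊆ I) :
    Dep ((Φ.perm π).pull F) I := by
  intro N x y hxy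
  show F.1 N (x ∘ π) = F.1 N (y ∘ π)
  exact h N fun i hi => hxy (π i) (hK ⟨i, hi, rfl⟩)

lemma base_eq (Γ : Set (Finset ℕ × (ℕ →₀ ℤ))) (I : Set ℕ) :
    Φ.Base Γ I = sig (⋃ γ ∈ Γ, Φ.Gen γ I) := sig_closure _

lemma mem_gen {Γ : Set (Finset ℕ × (ℕ →₀ ℤ))} {I : Set ℕ} {γ : Finset ℕ × (ℕ →₀ ℤ)} (hγ : γ ∈ Γ)
    {F' : Φ.Alg} (h : Dep F' (I \ (γ.1 : Set ℕ))) :
    (Φ.th γ.2).pull F' ∈ ⋃ γ ∈ Γ, Φ.Gen γ I :=
  Set.mem_biUnion hγ ⟨F', h, rfl⟩

lemma base_le_of {Γ : Set (Finset ℕ × (ℕ →₀ ℤ))} {I : Set ℕ} {m : MeasurableSpace Φ.Pt}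
    (h : ∀ γ ∈ Γ, ∀ F' : Φ.Alg, Dep F' (I \ (γ.1 : Set ℕ)) →
      Measurable[m] (hat ((Φ.th γ.2).pull F'))) : Φ.Base Γ I ≤ m := by
  rw [base_eq]
  refine sig_le_of fun F hF => ?_
  obtain ⟨γ, hγ, F', hF', rfl⟩ := Set.mem_iUnion₂.1 hF
  exact h γ hγ F' hF'

lemma comap_base_le {Γ Γ' : Set (Finset ℕ × (ℕ →₀ ℤ))} {I I' : Set ℕ} (Θ : Φ.FMap)
    (h : ∀ γ ∈ Γ, ∀ F' : Φ.Alg, Dep F' (I \ (γ.1 : Set ℕ)) →
      Θ.pull ((Φ.th γ.2).pull F') ∈ ⋃ γ ∈ Γ', Φ.Gen γ I') :
    (Φ.Base Γ I).comap Θ.lift ≤ Φ.Base Γ' I' := by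
  rw [base_eq, base_eq]
  refine comap_lift_le Θ fun F hF => ?_
  obtain ⟨γ, hγ, F', hF', rfl⟩ := Set.mem_iUnion₂.1 hF
  exact h γ hγ F' hF'

lemma base_le {Γ : Set (Finset ℕ × (ℕ →₀ ℤ))} {I : Set ℕ} (h : Lives Γ I) :
    Φ.Base Γ I ≤ Φ.Full I :=
  base_le_of fun γ hγ _ hF' => measurable_hat (T := {F : Φ.Alg | Dep F I})
    (dep_th hF' Set.sdiff_subset ((Finset.coe_subset.2 (h γ hγ).2).trans (h γ hγ).1))

lemma base_mono {Γ Γ' : Set (Finset ℕ × (ℕ →₀ ℤ))} {I I' : Set ℕ} (hΓ : Γ ⊆ Γ') (hI : I ⊆ I') :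
    Φ.Base Γ I ≤ Φ.Base Γ' I' :=
  base_le_of fun γ hγ _ hF' => by
    rw [base_eq]
    exact measurable_hat (mem_gen (hΓ hγ) (hF'.mono (Set.sdiff_subset_sdiff_left hI)))

lemma comap_full_le {Γ : Set (Finset ℕ × (ℕ →₀ ℤ))} {I K : Set ℕ} {γ : Finset ℕ × (ℕ →₀ ℤ)}
    (hγ : γ ∈ Γ) (hK : K ⊆ I \ (γ.1 : Set ℕ)) : (Φ.Full K).comap (Φ.Th γ.2) ≤ Φ.Base Γ I := by
  rw [base_eq]
  exact comap_lift_le _ fun F hF => mem_gen hγ (Dep.mono hF hK)

lemma comap_Th_zero (m : MeasurableSpace Φ.Pt) : m.comap (Φ.Th 0) = m := by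
  rw [show Φ.Th 0 = id from funext Th_zero, MeasurableSpace.comap_id]

lemma lam_le {Γ : Set (Finset ℕ × (ℕ →₀ ℤ))} (I : Set ℕ) (h : tyL ∈ Γ) :
    Φ.Lam I ≤ Φ.Base Γ I := by
  have := comap_full_le (Φ := Φ) (I := I) (K := I \ {0}) h (by simp [tyL])
  rwa [show tyL.2 = 0 from rfl, comap_Th_zero] at this

lemma theta {Γ : Set (Finset ℕ × (ℕ →₀ ℤ))} {I' I'' : Set ℕ} {c : ℕ →₀ ℤ}
    (h : ∀ γ ∈ Γ, ∀ j ∈ c.support, j ∉ γ.1) (hI : I' ⊆ I'') (hc : (c.support : Set ℕ) ⊆ I'') :
    (Φ.Base Γ I').comap (Φ.Th c) ≤ Φ.Base Γ I'' :=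
  comap_base_le _ fun γ hγ F' hF' => by
    rw [← pull_comp, ← th_add, add_comm, th_add, pull_comp]
    exact mem_gen hγ (dep_th hF' (Set.sdiff_subset_sdiff_left hI)
      fun j hj => ⟨hc hj, h γ hγ j hj⟩)

lemma thetaF {I' I'' : Set ℕ} {c : ℕ →₀ ℤ} (hI : I' ⊆ I'') (hc : (c.support : Set ℕ) ⊆ I'') :
    (Φ.Full I').comap (Φ.Th c) ≤ Φ.Full I'' :=
  comap_lift_le _ fun _ hF => dep_th hF hI hc

lemma permF {I' I'' : Set ℕ} {π : Equiv.Perm ℕ} (h : π '' I' ⊆ I'') :
    (Φ.Full I').comap (Φ.Pm π) ≤ Φ.Full I'' :=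
  comap_lift_le _ fun _ hF => dep_perm hF h

lemma permB {Γ : Set (Finset ℕ × (ℕ →₀ ℤ))} {I I' I'' : Set ℕ} {π : Equiv.Perm ℕ} (h0 : π 0 = 0)
    (hl : Lives Γ I) (hπ : ∀ j ∈ I, π j = j) (h : π '' I' ⊆ I'') :
    (Φ.Base Γ I').comap (Φ.Pm π) ≤ Φ.Base Γ I'' :=
  comap_base_le _ fun γ hγ F' hF' => by
    have e : γ.2.mapDomain π = γ.2 := by
      rw [Finsupp.mapDomain_congr (g := id) fun j hj => hπ j ((hl γ hγ).1 ((hl γ hγ).2 hj)),
        Finsupp.mapDomain_id]
    rw [← pull_comp, th_perm h0, e, pull_comp]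
    refine mem_gen hγ (dep_perm hF' ?_)
    rintro _ ⟨j, hj, rfl⟩
    refine ⟨h ⟨j, hj.1, rfl⟩, fun hm => hj.2 ?_⟩
    rwa [π.injective (hπ _ ((hl γ hγ).1 hm))] at hm

lemma image_union_le {I : Set ℕ} (J : Finset ℕ) {π : Equiv.Perm ℕ} (hπ : ∀ j ∈ I, π j = j) :
    π '' (I ∪ J) ⊆ I ∪ (J.image π : Finset ℕ) := by
  rintro _ ⟨j, hj | hj, rfl⟩
  · exact Or.inl ((hπ j hj).symm ▸ hj)
  · exact Or.inr (Finset.mem_coe.2 (Finset.mem_image_of_mem _ hj))

lemma image_le {I : Set ℕ} {π : Equiv.Perm ℕ} (hπ : ∀ j ∈ I, π j = j) : π '' I ⊆ I := by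
  rintro _ ⟨j, hj, rfl⟩
  exact (hπ j hj).symm ▸ hj

lemma fix {T : Set Φ.Alg} {Θ Θ' : Φ.FMap} (h : ∀ F ∈ T, Θ.pull F = Θ'.pull F) (A : Set Φ.Pt)
    (hA : MeasurableSet[sig T] A) : Θ.lift ⁻¹' A = Θ'.lift ⁻¹' A := by
  let M : MeasurableSpace Φ.Pt :=
    { MeasurableSet' := fun A => Θ.lift ⁻¹' A = Θ'.lift ⁻¹' A
      measurableSet_empty := rfl
      measurableSet_compl := fun A hA => by
        rw [Set.preimage_compl, Set.preimage_compl, hA]
      measurableSet_iUnion := fun f hf => by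
        rw [Set.preimage_iUnion, Set.preimage_iUnion]
        exact Set.iUnion_congr hf }
  have : sig T ≤ M := sig_le_of fun F hF B _ => by
    show Θ.lift ⁻¹' (hat F ⁻¹' B) = Θ'.lift ⁻¹' (hat F ⁻¹' B)
    ext x
    simp only [Set.mem_preimage, hat_lift, h F hF]
  exact this A hA

lemma fixae {T : Set Φ.Alg} {Θ Θ' : Φ.FMap} {μ : Measure Φ.Pt}
    (h : ∀ F ∈ T, Θ.pull F = Θ'.pull F) (h1 : MeasurePreserving Θ.lift μ μ)
    (h2 : MeasurePreserving Θ'.lift μ μ) (g : Φ.Pt → ℝ) (hg : AEStronglyMeasurable[sig T] g μ) :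
    (fun x => g (Θ.lift x)) =ᵐ[μ] fun x => g (Θ'.lift x) := by
  obtain ⟨g1, hm, he⟩ := hg
  filter_upwards [h1.quasiMeasurePreserving.ae he, h2.quasiMeasurePreserving.ae he] with x e1 e2
  rw [e1, e2]
  have := fix h (g1 ⁻¹' {g1 (Θ.lift x)}) (hm.measurable (measurableSet_singleton _))
  have hx : x ∈ Θ.lift ⁻¹' (g1 ⁻¹' {g1 (Θ.lift x)}) := rfl
  rw [this] at hx
  exact hx.symm

lemma fresh {I : Set ℕ} {J : Finset ℕ} (h0 : 0 ∈ I) (hJ : ∀ j ∈ J, j ∉ I)
    (hinf : ∀ j ∈ J, {k | k ∉ I ∧ (Odd k ↔ Odd j)}.Infinite) :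
    ∃ π : Equiv.Perm ℕ, KP π ∧ (∀ j, π (π j) = j) ∧ (∀ j ∈ I, π j = j) ∧
      ∀ j ∈ J, π j ∉ I ∧ π j ∉ J := by
  classical
  have key : ∀ J' : Finset ℕ, J' ⊆ J → ∃ f : ℕ → ℕ, Set.InjOn f J' ∧
      ∀ j ∈ J', f j ∉ I ∧ f j ∉ J ∧ (Odd (f j) ↔ Odd j) := by
    intro J'
    induction J' using Finset.induction_on with
    | empty => exact fun _ => ⟨id, by simp, by simp⟩
    | insert a s ha ih =>
      intro hs
      obtain ⟨f, hf, hf'⟩ := ih ((Finset.subset_insert _ _).trans hs)
      obtain ⟨k, hk, hk'⟩ := (hinf a (hs (Finset.mem_insert_self _ _))).exists_notMem_finset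
        (J ∪ s.image f)
      rw [Finset.mem_union, not_or] at hk'
      have e : ∀ j ∈ s, update f a k j = f j := fun j hj =>
        update_of_ne (ne_of_mem_of_not_mem hj ha) _ _
      refine ⟨update f a k, ?_, fun j hj => ?_⟩
      · rw [Finset.coe_insert, Set.injOn_insert (by simpa using ha)]
        refine ⟨hf.congr fun j hj => (e j hj).symm, ?_⟩
        rintro ⟨j, hj, hj'⟩
        rw [e j hj, update_self] at hj'
        exact hk'.2 (Finset.mem_image.2 ⟨j, hj, hj'⟩)
      · rcases Finset.mem_insert.1 hj with rfl | hj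
        · rw [update_self]; exact ⟨hk.1, hk'.1, hk.2⟩
        · rw [e j hj]; exact hf' j hj
  obtain ⟨f, hf, hf'⟩ := key J le_rfl
  let g : ℕ → ℕ := fun n => if n ∈ J then f n else if h : ∃ j ∈ J, f j = n then h.choose else n
  have ga : ∀ n ∈ J, g n = f n := fun n hn => if_pos hn
  have gb : ∀ j ∈ J, g (f j) = j := fun j hj => by
    have h : ∃ i ∈ J, f i = f j := ⟨j, hj, rfl⟩
    show (if f j ∈ J then f (f j) else if h : ∃ i ∈ J, f i = f j then h.choose else f j) = j
    rw [if_neg (hf' j hj).2.1, dif_pos h]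
    exact hf h.choose_spec.1 hj h.choose_spec.2
  have gc : ∀ n, n ∉ J → (¬ ∃ j ∈ J, f j = n) → g n = n := fun n h1 h2 => by
    show (if n ∈ J then f n else if h : ∃ i ∈ J, f i = n then h.choose else n) = n
    rw [if_neg h1, dif_neg h2]
  have hall : ∀ n, g (g n) = n ∧ (Odd (g n) ↔ Odd n) := fun n => by
    by_cases h1 : n ∈ J
    · rw [ga n h1, gb n h1]; exact ⟨rfl, (hf' n h1).2.2⟩
    by_cases h2 : ∃ j ∈ J, f j = n
    · obtain ⟨j, hj, rfl⟩ := h2
      rw [gb j hj, ga j hj]; exact ⟨rfl, (hf' j hj).2.2.symm⟩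
    · rw [gc n h1 h2, gc n h1 h2]; exact ⟨rfl, Iff.rfl⟩
  have hI : ∀ n ∈ I, g n = n := fun n hn =>
    gc n (fun h => hJ n h hn) fun ⟨j, hj, e⟩ => (hf' j hj).1 (e ▸ hn)
  have inv : Involutive g := fun n => (hall n).1
  refine ⟨inv.toPerm g, ⟨hI 0 h0, fun n => (hall n).2⟩, inv, hI, fun j hj => ?_⟩
  show g j ∉ I ∧ g j ∉ J
  rw [ga j hj]
  exact ⟨(hf' j hj).1, (hf' j hj).2.1⟩

lemma frame {Γ Γ' : Set (Finset ℕ × (ℕ →₀ ℤ))} {I : Set ℕ} (J : Finset ℕ) (h : Frame Γ I)
    (h' : Lives Γ' (I ∪ J)) : Frame (Γ ∪ Γ') (I ∪ J) where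
  zero := Or.inl h.zero
  hL := Or.inl h.hL
  lives := by
    rintro γ (hγ | hγ)
    · exact ⟨(h.lives γ hγ).1.trans Set.subset_union_left, (h.lives γ hγ).2⟩
    · exact h' γ hγ
  rich := h.rich.mono fun _ hz => ⟨Or.inl hz.1, hz.2.1, hz.2.2.1, Or.inl hz.2.2.2⟩
  cos := (h.cos.sdiff J.finite_toSet).mono fun _ hj => ⟨fun e => e.elim hj.1.1 hj.2, hj.1.2⟩
  cod := (h.cod.sdiff J.finite_toSet).mono fun _ hj => ⟨fun e => e.elim hj.1.1 hj.2, hj.1.2⟩

lemma union_diff {I : Set ℕ} {J : Finset ℕ} (hJ : ∀ j ∈ J, j ∉ I) :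
    (I ∪ J) \ (J : Set ℕ) = I :=
  Set.union_sdiff_cancel_right fun j hj => (hJ j hj.2 hj.1).elim

lemma measurable_hat_th {I : Set ℕ} {F : Φ.Alg} (h : Dep F I) (c : ℕ →₀ ℤ) :
    Measurable[(Φ.Full I).comap (Φ.Th c)] (hat ((Φ.th c).pull F)) :=
  (measurable_hat (T := {F : Φ.Alg | Dep F I}) h).comp
    (@Measurable.of_comap_le _ _ ((Φ.Full I).comap (Φ.Th c)) (Φ.Full I) _ le_rfl)

end FdFaux

open FdFaux in
theorem fdF : FdFS := fun S =>
  { base_le := fun _ _ h => base_le h
    base_mono := fun _ _ _ _ h h' => base_mono h h'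
    lam_le := fun _ I h => lam_le I h
    theta := fun _ _ _ _ h h' h'' => theta h h' h''
    thetaF := fun _ _ _ h h' => thetaF h h'
    permB := fun _ _ _ _ _ h0 hl hπ h => permB h0 hl hπ h
    permF := fun _ _ _ h => permF h
    permBB := fun ι r Γ I J s i π h0 hl hπ => by
      rw [Sys.BB, Sys.BB, MeasurableSpace.comap_sup]
      refine sup_le_sup (permB h0 hl hπ (image_union_le J hπ)) ?_
      simp only [MeasurableSpace.comap_iSup]
      refine iSup₂_mono fun j _ => ?_
      rw [MeasurableSpace.comap_comp, show S.Th ((r j - r i) • ee s) ∘ S.Pm π =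
        S.Pm π ∘ S.Th ((r j - r i) • ee (π s)) from funext fun x => by
          rw [← mapDomain_smul_ee]; exact Th_Pm h0 _ x, ← MeasurableSpace.comap_comp]
      exact MeasurableSpace.comap_mono (permF (image_le hπ))
    permPJ := fun I J π h0 hπ => by
      rw [Sys.PJ, Sys.PJ, MeasurableSpace.comap_sup]
      refine sup_le_sup (permF (image_le hπ)) (permF ?_)
      rintro _ ⟨j, hj, rfl⟩
      exact ⟨image_union_le J hπ ⟨j, hj.1, rfl⟩, fun e => hj.2 (π.injective (e.trans h0.symm))⟩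
    fix := fun _ _ _ h A hA => fix h A hA
    fixae := fun _ _ _ h h1 h2 g hg => fixae h h1 h2 g hg
    lamfix := fun I c g hc hg =>
      fixae (T := {F : S.Alg | Dep F (I \ {0})}) (Θ := S.th c) (Θ' := FMap.id S.toFam)
        (fun F hF => Subtype.ext (funext fun N => funext fun ω =>
          hF N fun j hj => update_of_ne hj.2 _ _)) hc (MeasurePreserving.id _) g hg
    pmfix := fun I π g hc hπ hg =>
      fixae (T := {F : S.Alg | Dep F I}) (Θ := S.perm π) (Θ' := FMap.id S.toFam)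
        (fun F hF => Subtype.ext (funext fun N => funext fun ω =>
          hF N fun j hj => congrArg ω (hπ j hj))) hc (MeasurePreserving.id _) g hg
    bbeq := fun ι r Γ I J s i hJ => by
      refine le_antisymm (sup_le (base_mono Set.subset_union_left le_rfl)
        (iSup₂_le fun j hj => ?_)) (base_le_of ?_)
      · exact comap_full_le (γ := (J, (r j - r i) • ee s)) (Or.inr ⟨j, hj, rfl⟩)
          (union_diff hJ).ge
      · rintro γ (hγ | ⟨j, hj, rfl⟩) F' hF'
        · refine Measurable.mono ?_ le_sup_left le_rfl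
          rw [base_eq]
          exact measurable_hat (mem_gen hγ hF')
        · rw [union_diff hJ] at hF'
          exact (measurable_hat_th hF' _).mono
            (le_sup_of_le_right (le_iSup₂_of_le j hj le_rfl)) le_rfl
    pjeq := fun I J hJ => by
      refine le_antisymm (sup_le ?_ (lam_le _ (Or.inr rfl))) (base_le_of ?_)
      · have := comap_full_le (Φ := S.toFam) (Γ := {(J, 0), tyL}) (I := I ∪ J) (γ := (J, 0))
          (Or.inl rfl) (union_diff hJ).ge
        rwa [comap_Th_zero] at this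
      · rintro γ (rfl | rfl) F' hF'
        · rw [union_diff hJ] at hF'
          have := measurable_hat_th hF' 0
          rw [comap_Th_zero] at this
          exact this.mono le_sup_left le_rfl
        · have := measurable_hat_th hF' 0
          rw [comap_Th_zero] at this
          refine this.mono (le_sup_of_le_right (full_mono ?_)) le_rfl
          simp [tyL]
    fresh := fun _ _ h0 hJ h => fresh h0 hJ h
    frame := fun _ _ _ J h h' => frame J h h'
    frame' := fun Γ _ J h => by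
      simpa only [Set.union_empty] using frame (Γ' := ∅) J h fun _ h => h.elim }

end Pool.Agent.MP_154433_an.SG

end

end MrgPart2

-- ======== part 3: formerly Pool.Agent.MP_154433_an.sg.Fb3
section MrgPart3

/-! Row Fb3: property F3 on almost every fibre. -/

set_option autoImplicit false
set_option linter.unusedVariables false

open MeasureTheory ProbabilityTheory Filter Topology Function

noncomputable section

namespace Pool.Agent.MP_154433_an.SG

namespace Fb3

def cs (F : Finset ℕ) : Set YY := {e | ∀ n ∈ F, e n = true}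

def cf (F : Finset ℕ) (e : YY) : ℝ := (cs F).indicator (fun _ => (1 : ℝ)) e

lemma meas_cs (F : Finset ℕ) : MeasurableSet (cs F) := by
  have : cs F = ⋂ n ∈ F, (fun e : YY => e n) ⁻¹' {true} := by
    ext e; simp [cs]
  rw [this]
  exact Finset.measurableSet_biInter F fun n _ =>
    measurable_pi_apply n (measurableSet_singleton _)

def BM (g : YY → ℝ) : Prop := Measurable g ∧ ∀ e, |g e| ≤ 1

lemma bm_cf (F : Finset ℕ) : BM (cf F) := by
  refine ⟨measurable_const.indicator (meas_cs F), fun e => ?_⟩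
  unfold cf
  by_cases h : e ∈ cs F <;> simp [h]

lemma gen : (inferInstance : MeasurableSpace YY) =
    MeasurableSpace.generateFrom (Set.range cs) := by
  apply le_antisymm
  · have : @Measurable YY YY (MeasurableSpace.generateFrom (Set.range cs)) inferInstance id := by
      refine @measurable_pi_lambda YY ℕ (fun _ => Bool)
        (MeasurableSpace.generateFrom (Set.range cs)) _ id fun n => ?_
      refine @measurable_to_bool YY (MeasurableSpace.generateFrom (Set.range cs)) _ ?_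
      refine MeasurableSpace.measurableSet_generateFrom ⟨{n}, ?_⟩
      ext e; simp [cs]
    exact fun s hs => this hs
  · refine MeasurableSpace.generateFrom_le ?_
    rintro _ ⟨F, rfl⟩
    exact meas_cs F

lemma pisys : IsPiSystem (Set.range cs) := by
  rintro _ ⟨F, rfl⟩ _ ⟨G, rfl⟩ _
  refine ⟨F ∪ G, ?_⟩
  ext e
  simp only [cs, Set.mem_setOf_eq, Set.mem_inter_iff, Finset.mem_union]
  exact ⟨fun h => ⟨fun n hn => h n (Or.inl hn), fun n hn => h n (Or.inr hn)⟩,
    fun h n hn => hn.elim (h.1 n) (h.2 n)⟩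

section General

variable {Ω : Type} {m0 : MeasurableSpace Ω} (κ : Measure Ω) [IsProbabilityMeasure κ]

lemma pull {m : MeasurableSpace Ω} (hm : m ≤ m0) {f g : Ω → ℝ}
    (hf : AEStronglyMeasurable[m] f κ) (C : ℝ) (hb : ∀ᵐ x ∂κ, |f x| ≤ C) (hg : Integrable g κ) :
    ∫ x, f x * g x ∂κ = ∫ x, f x * (κ[g | m]) x ∂κ := by
  have hfg : Integrable (f * g) κ :=
    hg.bdd_mul (hf.mono hm) (by simpa [Real.norm_eq_abs] using hb)
  have h1 := condExp_mul_of_aestronglyMeasurable_left hf hfg hg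
  have h2 : ∫ x, (κ[f * g | m]) x ∂κ = ∫ x, (f * g) x ∂κ := integral_condExp hm
  rw [integral_congr_ae h1] at h2
  exact h2.symm

lemma ext1 (π : Ω → YY) (hπ : Measurable π) (H : Ω → ℝ) (hH : Integrable H κ)
    (h : ∀ F, ∫ ω, cf F (π ω) * H ω ∂κ = 0) (g : YY → ℝ) (hg : BM g) :
    ∫ ω, g (π ω) * H ω ∂κ = 0 := by
  have hc : ∀ F, ∫ ω in π ⁻¹' cs F, H ω ∂κ = 0 := by
    intro F
    rw [← integral_indicator (hπ (meas_cs F)), ← h F]
    refine integral_congr_ae (Eventually.of_forall fun ω => ?_)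
    unfold cf
    by_cases hω : π ω ∈ cs F
    · have : ω ∈ π ⁻¹' cs F := hω
      simp [hω, this]
    · have : ω ∉ π ⁻¹' cs F := hω
      simp [hω, this]
  have h0 : ∫ ω, H ω ∂κ = 0 := by
    have := hc ∅
    have he : cs ∅ = Set.univ := by ext e; simp [cs]
    simpa [he] using this
  have hA : ∀ A : Set YY, MeasurableSet A → ∫ ω in π ⁻¹' A, H ω ∂κ = 0 := by
    intro A hA
    induction A, hA using MeasurableSpace.induction_on_inter gen pisys with
    | empty => simp
    | basic t ht => obtain ⟨F, rfl⟩ := ht; exact hc F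
    | compl t htm ih =>
      have := integral_add_compl (hπ htm) hH
      rw [Set.preimage_compl]
      linarith
    | iUnion f hd hfm ih =>
      rw [Set.preimage_iUnion, integral_iUnion (fun i => hπ (hfm i))
        (fun i j hij => (hd hij).preimage π) hH.integrableOn]
      simp [ih]
  have hm : MeasurableSpace.comap π inferInstance ≤ m0 := hπ.comap_le
  have hz : (fun _ => (0 : ℝ)) =ᵐ[κ] κ[H | MeasurableSpace.comap π inferInstance] := by
    refine ae_eq_condExp_of_forall_setIntegral_eq hm hH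
      (fun s _ _ => (integrable_const _).integrableOn) (fun s hs _ => ?_)
      aestronglyMeasurable_const
    obtain ⟨A, hA', rfl⟩ := hs
    rw [hA A hA']; simp
  have hgm : AEStronglyMeasurable[MeasurableSpace.comap π inferInstance] (fun ω => g (π ω)) κ :=
    (hg.1.comp (Measurable.of_comap_le le_rfl)).stronglyMeasurable.aestronglyMeasurable
  rw [pull κ hm hgm 1 (Eventually.of_forall fun ω => hg.2 _) hH]
  have : (fun ω => g (π ω) * (κ[H | MeasurableSpace.comap π inferInstance]) ω) =ᵐ[κ]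
      fun _ => 0 := by
    filter_upwards [hz] with ω hω
    rw [← hω, mul_zero]
  rw [integral_congr_ae this]; simp

lemma int_of_bdd {f : Ω → ℝ} (hf : Measurable f) (hb : ∀ x, |f x| ≤ 1) : Integrable f κ :=
  (integrable_const (1 : ℝ)).mono' hf.aestronglyMeasurable
    (Eventually.of_forall fun x => by simpa [Real.norm_eq_abs] using hb x)

lemma ce_bdd (m : MeasurableSpace Ω) {f : Ω → ℝ} (hb : ∀ x, |f x| ≤ 1) :
    ∀ᵐ x ∂κ, |(κ[f | m]) x| ≤ 1 := by
  have := ae_bdd_condExp_of_ae_bdd (m := m) (μ := κ) (R := 1) (f := f)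
    (Eventually.of_forall fun x => by simpa using hb x)
  simpa using this

lemma selfadj {m : MeasurableSpace Ω} (hm : m ≤ m0) {a b : Ω → ℝ} (ha : Measurable[m0] a)
    (hab : ∀ x, |a x| ≤ 1) (hb : Measurable[m0] b) (hbb : ∀ x, |b x| ≤ 1) :
    ∫ x, (κ[a | m]) x * b x ∂κ = ∫ x, a x * (κ[b | m]) x ∂κ := by
  have h1 := pull κ hm (f := κ[a | m]) (g := b) stronglyMeasurable_condExp.aestronglyMeasurable 1
    (ce_bdd κ m hab) (int_of_bdd κ hb hbb)
  have h2 := pull κ hm (f := κ[b | m]) (g := a) stronglyMeasurable_condExp.aestronglyMeasurable 1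
    (ce_bdd κ m hbb) (int_of_bdd κ ha hab)
  rw [h1]
  have e1 : ∫ x, a x * (κ[b | m]) x ∂κ = ∫ x, (κ[b | m]) x * a x ∂κ := by
    simp only [mul_comm]
  rw [e1, h2]
  simp only [mul_comm]

variable {ι : Type} [Fintype ι] [DecidableEq ι]

def Lam (O : ι → MeasurableSpace Ω) (π : ι → Ω → YY) (j : ι) (g : ι → YY → ℝ) : ℝ :=
  ∫ ω, (κ[fun ω => g j (π j ω) | O j]) ω * ∏ k ∈ Finset.univ.erase j, g k (π k ω) ∂κ

omit [Fintype ι] [DecidableEq ι] in
lemma prod_bm (π : ι → Ω → YY) (hπ : ∀ k, Measurable[m0] (π k)) (g : ι → YY → ℝ)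
    (hg : ∀ k, BM (g k)) (s : Finset ι) :
    Measurable[m0] (fun ω => ∏ k ∈ s, g k (π k ω)) ∧ ∀ ω, |∏ k ∈ s, g k (π k ω)| ≤ 1 := by
  refine ⟨Finset.measurable_prod s fun k _ => (hg k).1.comp (hπ k), fun ω => ?_⟩
  rw [Finset.abs_prod]
  exact Finset.prod_le_one (fun k _ => abs_nonneg _) fun k _ => (hg k).2 _

lemma rep (O : ι → MeasurableSpace Ω) (hO : ∀ k, O k ≤ m0) (π : ι → Ω → YY)
    (hπ : ∀ k, Measurable[m0] (π k)) (j k0 : ι) (g : ι → YY → ℝ) (hg : ∀ k, BM (g k)) :
    ∃ H : Ω → ℝ, Integrable H κ ∧ ∀ g0, BM g0 →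
      Lam κ O π j (update g k0 g0) = ∫ ω, g0 (π k0 ω) * H ω ∂κ := by
  by_cases hk : k0 = j
  · subst hk
    obtain ⟨hm, hb⟩ := prod_bm π hπ g hg (Finset.univ.erase k0)
    refine ⟨κ[fun ω => ∏ k ∈ Finset.univ.erase k0, g k (π k ω) | O k0], integrable_condExp,
      fun g0 h0 => ?_⟩
    rw [← selfadj κ (hO k0) (a := fun ω => g0 (π k0 ω)) (h0.1.comp (hπ k0)) (fun ω => h0.2 _) hm hb]
    unfold Lam
    simp only [update_self]
    refine integral_congr_ae (Eventually.of_forall fun ω => ?_)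
    have : ∏ k ∈ Finset.univ.erase k0, update g k0 g0 k (π k ω) =
        ∏ k ∈ Finset.univ.erase k0, g k (π k ω) :=
      Finset.prod_congr rfl fun k hk => by rw [update_of_ne (Finset.ne_of_mem_erase hk)]
    simp only [this]
  · obtain ⟨hm, hb⟩ := prod_bm π hπ g hg ((Finset.univ.erase j).erase k0)
    refine ⟨fun ω => (∏ k ∈ (Finset.univ.erase j).erase k0, g k (π k ω)) *
      (κ[fun ω => g j (π j ω) | O j]) ω, ?_, fun g0 h0 => ?_⟩
    · exact integrable_condExp.bdd_mul hm.aestronglyMeasurable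
        (Eventually.of_forall fun ω => (Real.norm_eq_abs _).trans_le (hb ω))
    · unfold Lam
      simp only [update_of_ne (Ne.symm hk)]
      refine integral_congr_ae (Eventually.of_forall fun ω => ?_)
      have hmem : k0 ∈ Finset.univ.erase j := Finset.mem_erase.2 ⟨hk, Finset.mem_univ _⟩
      have : ∏ k ∈ (Finset.univ.erase j).erase k0, update g k0 g0 k (π k ω) =
          ∏ k ∈ (Finset.univ.erase j).erase k0, g k (π k ω) :=
        Finset.prod_congr rfl fun k hk => by rw [update_of_ne (Finset.ne_of_mem_erase hk)]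
      simp only [← Finset.mul_prod_erase _ _ hmem, this, update_self]
      ring

lemma extAll (O : ι → MeasurableSpace Ω) (hO : ∀ k, O k ≤ m0) (π : ι → Ω → YY)
    (hπ : ∀ k, Measurable[m0] (π k)) (j j' : ι)
    (h : ∀ F : ι → Finset ℕ, Lam κ O π j (fun k => cf (F k)) = Lam κ O π j' fun k => cf (F k))
    (g : ι → YY → ℝ) (hg : ∀ k, BM (g k)) : Lam κ O π j g = Lam κ O π j' g := by
  have key : ∀ s : Finset ι, ∀ g : ι → YY → ℝ, (∀ k, BM (g k)) →
      (∀ k, k ∉ s → ∃ F, g k = cf F) → Lam κ O π j g = Lam κ O π j' g := by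
    intro s
    induction s using Finset.induction_on with
    | empty =>
      intro g _ hc
      choose F hF using fun k => hc k (Finset.notMem_empty k)
      have : g = fun k => cf (F k) := funext hF
      rw [this]; exact h F
    | insert k0 s hk0 ih =>
      intro g hg hc
      obtain ⟨H, hH, e1⟩ := rep κ O hO π hπ j k0 g hg
      obtain ⟨H', hH', e2⟩ := rep κ O hO π hπ j' k0 g hg
      have hsub : ∀ g0, BM g0 → ∫ ω, g0 (π k0 ω) * (H ω - H' ω) ∂κ =
          ∫ ω, g0 (π k0 ω) * H ω ∂κ - ∫ ω, g0 (π k0 ω) * H' ω ∂κ := by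
        intro g0 h0
        have hb : ∀ᵐ ω ∂κ, ‖g0 (π k0 ω)‖ ≤ 1 :=
          Eventually.of_forall fun ω => by simpa [Real.norm_eq_abs] using h0.2 _
        have hm : AEStronglyMeasurable (fun ω => g0 (π k0 ω)) κ :=
          (h0.1.comp (hπ k0)).aestronglyMeasurable
        rw [← integral_sub (hH.bdd_mul hm hb) (hH'.bdd_mul hm hb)]
        simp only [mul_sub]
      have h1 : ∀ F, ∫ ω, cf F (π k0 ω) * (H ω - H' ω) ∂κ = 0 := by
        intro F
        rw [hsub _ (bm_cf F), ← e1 _ (bm_cf F), ← e2 _ (bm_cf F), sub_eq_zero]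
        refine ih _ (fun k => ?_) fun k hk => ?_
        · by_cases hkk : k = k0
          · subst hkk; rw [update_self]; exact bm_cf F
          · rw [update_of_ne hkk]; exact hg k
        · by_cases hkk : k = k0
          · subst hkk; exact ⟨F, by rw [update_self]⟩
          · rw [update_of_ne hkk]
            exact hc k fun hm => (Finset.mem_insert.1 hm).elim hkk hk
      have h2 := ext1 κ (π k0) (hπ k0) (fun ω => H ω - H' ω) (hH.sub hH') h1 (g k0) (hg k0)
      rw [hsub _ (hg k0), ← e1 _ (hg k0), ← e2 _ (hg k0), update_eq_self, sub_eq_zero] at h2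
      exact h2
  exact key Finset.univ g hg fun k hk => absurd (Finset.mem_univ k) hk

end General

section Model

variable {J : Type} [Fintype J] [DecidableEq J] {l : ℕ}

omit [Fintype J] in
lemma oth_eq (r : Fin (l + 1) → ℤ) (p : J → ℤ) (s : J) (i : Fin (l + 1)) :
    Oth PC r p s i = Fib27.O YY r p s i := by
  unfold Oth Fib27.O
  refine iSup_congr fun k => ?_
  refine iSup_congr_Prop (by simp) fun _ => rfl

omit [Fintype J] in
lemma o_le (r : Fin (l + 1) → ℤ) (p : J → ℤ) (s : J) (i : Fin (l + 1)) :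
    Fib27.O YY r p s i ≤ (inferInstance : MeasurableSpace (Cfg J)) := by
  unfold Fib27.O
  exact iSup₂_le fun k _ => (measurable_pi_apply _).comap_le

omit [Fintype J] in
lemma o_cg (r : Fin (l + 1) → ℤ) (p : J → ℤ) (s : J) (i : Fin (l + 1)) :
    @MeasurableSpace.CountablyGenerated (Cfg J) (Fib27.O YY r p s i) := by
  unfold Fib27.O
  generalize Finset.univ.erase i = t
  induction t using Finset.induction_on with
  | empty =>
    have : (⨆ j ∈ (∅ : Finset (Fin (l + 1))), Fib27.P YY (p + Pi.single s (r j - r i))) =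
        MeasurableSpace.generateFrom (∅ : Set (Set (Cfg J))) := by simp
    rw [this]
    exact @MeasurableSpace.CountablyGenerated.mk _ (_) ⟨∅, Set.countable_empty, rfl⟩
  | insert k t hk ih =>
    rw [Finset.iSup_insert]
    exact MeasurableSpace.CountablyGenerated.sup
      (MeasurableSpace.CountablyGenerated.comap _) ih

omit [Fintype J] [DecidableEq J] in
lemma cy_eq {X : Type} (W : X → Cfg J) (p : J → ℤ) (F : Finset ℕ) :
    cy W (atP p F) = fun x => cf F (W x p) := by
  funext x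
  unfold cy cf
  have : W x ∈ cyl (atP p F) ↔ W x p ∈ cs F := by
    simp [cyl, cs, atP]
  by_cases h : W x p ∈ cs F
  · simp [h, this.2 h]
  · have h' : W x ∉ cyl (atP p F) := fun h' => h (this.1 h')
    simp [h, h']

omit [Fintype J] in
lemma pt_eq (r : Fin (l + 1) → ℤ) (c : J → ℤ) (t : J) (j0 k : Fin (l + 1)) :
    pt r (c + Pi.single t (r j0)) t j0 k = c + Pi.single t (r k) := by
  unfold pt
  rw [add_assoc, ← Pi.single_add]
  congr 2
  ring

/-- a fibrewise version of the conditional expectation of a cylinder function -/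
lemma fibre (h : FCS) {X : Type} [MeasurableSpace X] (μ : Measure X) [IsProbabilityMeasure μ]
    (r : Fin (l + 1) → ℤ) (W : X → Cfg J) (Z : X → Zsp J) (hW : Measurable W) (hZ : Measurable Z)
    (p : J → ℤ) (s : J) (i : Fin (l + 1)) (F : Finset ℕ) :
    ∃ u : Zsp J × Cfg J → ℝ, Measurable u ∧ (∃ C : ℝ, ∀ q, |u q| ≤ C) ∧
      (μ[fun x => cf F (W x p) | MeasurableSpace.comap Z inferInstance ⊔
        (Fib27.O YY r p s i).comap W] =ᵐ[μ] fun x => u (Z x, W x)) ∧
      ∀ᵐ z ∂μ.map Z, (condDistrib W Z μ z)[fun ω => cf F (ω p) | Fib27.O YY r p s i]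
        =ᵐ[condDistrib W Z μ z] fun ω => u (z, ω) := by
  obtain ⟨-, h2, h3⟩ := h (Fib27.O YY r p s i) μ W Z hW hZ
  obtain ⟨u, hu, hb, hq, he⟩ := h2 (o_le r p s i)
    (μ[fun x => cf F (W x p) | MeasurableSpace.comap Z inferInstance ⊔
        (Fib27.O YY r p s i).comap W])
    ⟨stronglyMeasurable_condExp.aestronglyMeasurable, 1, by
      simpa [Real.norm_eq_abs] using ce_bdd μ _ (fun x => (bm_cf F).2 (W x p))⟩
  refine ⟨u, hu, hb, he, ?_⟩
  exact h3 (o_le r p s i) (o_cg r p s i) (fun q => cf F (q.2 p)) u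
    ((bm_cf F).1.comp ((measurable_pi_apply p).comp measurable_snd))
    ⟨1, fun q => (bm_cf F).2 _⟩ hu hb hq he

lemma cylStep (h : FCS) {X : Type} [MeasurableSpace X] (μ : Measure X) [IsProbabilityMeasure μ]
    (r : Fin (l + 1) → ℤ) (W : X → Cfg J) (Z : X → Zsp J) (hM : Mod μ r W Z)
    (c : J → ℤ) (t s : J) (i j j' : Fin (l + 1)) (F : Fin (l + 1) → Finset ℕ) :
    ∀ᵐ z ∂μ.map Z,
      Lam (condDistrib W Z μ z) (fun k => Fib27.O YY r (c + Pi.single t (r k)) s i)
        (fun k (ω : Cfg J) => ω (c + Pi.single t (r k))) j (fun k => cf (F k)) =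
      Lam (condDistrib W Z μ z) (fun k => Fib27.O YY r (c + Pi.single t (r k)) s i)
        (fun k (ω : Cfg J) => ω (c + Pi.single t (r k))) j' (fun k => cf (F k)) := by
  obtain ⟨u, hu, ⟨C, hC⟩, eu, fu⟩ :=
    fibre h μ r W Z hM.mW hM.mZ (c + Pi.single t (r j)) s i (F j)
  obtain ⟨u', hu', ⟨C', hC'⟩, eu', fu'⟩ :=
    fibre h μ r W Z hM.mW hM.mZ (c + Pi.single t (r j')) s i (F j')
  have hP := fun a : Fin (l + 1) => prod_bm (Ω := Cfg J)
    (fun k (ω : Cfg J) => ω (c + Pi.single t (r k))) (fun k => measurable_pi_apply _)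
    (fun k => cf (F k)) (fun k => bm_cf _) (Finset.univ.erase a)
  set Pd : Fin (l + 1) → Cfg J → ℝ := fun a ω =>
    ∏ k ∈ Finset.univ.erase a, cf (F k) (ω (c + Pi.single t (r k))) with hPd
  have mA : Measurable fun q : Zsp J × Cfg J => u q * Pd j q.2 :=
    hu.mul ((hP j).1.comp measurable_snd)
  have mB : Measurable fun q : Zsp J × Cfg J => u' q * Pd j' q.2 :=
    hu'.mul ((hP j').1.comp measurable_snd)
  have bA : ∀ q : Zsp J × Cfg J, |u q * Pd j q.2| ≤ C := fun q => by
    rw [abs_mul]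
    exact (mul_le_of_le_one_right (abs_nonneg _) ((hP j).2 _)).trans (hC q)
  have bB : ∀ q : Zsp J × Cfg J, |u' q * Pd j' q.2| ≤ C' := fun q => by
    rw [abs_mul]
    exact (mul_le_of_le_one_right (abs_nonneg _) ((hP j').2 _)).trans (hC' q)
  obtain ⟨h1, -, -⟩ := h (inferInstance : MeasurableSpace (Cfg J)) μ W Z hM.mW hM.mZ
  have h4 := h1 (fun q => u q * Pd j q.2 - u' q * Pd j' q.2) (mA.sub mB)
    ⟨C + C', fun q => (abs_sub _ _).trans (add_le_add (bA q) (bB q))⟩ (by
      intro ψ hψ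
      have h5 := hM.m3 (c + Pi.single t (r j)) t s j i j j' F ψ hψ
      simp only [pt_eq, oth_eq, cy_eq] at h5
      obtain ⟨hψm, D, hD⟩ := hψ
      have hψ0 : AEStronglyMeasurable ψ μ := hψm.mono hM.mZ.comap_le
      have hZW : Measurable fun x => (Z x, W x) := hM.mZ.prodMk hM.mW
      have iA : Integrable (fun x => ψ x * (u (Z x, W x) * Pd j (W x))) μ :=
        ((integrable_const C).mono' (mA.comp hZW).aestronglyMeasurable
          (Eventually.of_forall fun x =>
            (Real.norm_eq_abs _).trans_le (bA (Z x, W x)))).bdd_mul hψ0 hD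
      have iB : Integrable (fun x => ψ x * (u' (Z x, W x) * Pd j' (W x))) μ :=
        ((integrable_const C').mono' (mB.comp hZW).aestronglyMeasurable
          (Eventually.of_forall fun x =>
            (Real.norm_eq_abs _).trans_le (bB (Z x, W x)))).bdd_mul hψ0 hD
      have e3 : ∫ x, ψ x * (u (Z x, W x) * Pd j (W x)) ∂μ =
          ∫ x, ψ x * (u' (Z x, W x) * Pd j' (W x)) ∂μ := by
        refine (integral_congr_ae ?_).trans (h5.trans (integral_congr_ae ?_))
        · filter_upwards [eu] with x hx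
          rw [hx]
        · filter_upwards [eu'] with x hx
          rw [hx]
      simp only [mul_sub]
      rw [integral_sub iA iB, e3, sub_self])
  filter_upwards [h4, fu, fu'] with z hz f1 f2
  have iA : Integrable (fun ω => u (z, ω) * Pd j ω) (condDistrib W Z μ z) :=
    (integrable_const C).mono' (mA.comp measurable_prodMk_left).aestronglyMeasurable
      (Eventually.of_forall fun ω => by simpa only [Real.norm_eq_abs] using bA (z, ω))
  have iB : Integrable (fun ω => u' (z, ω) * Pd j' ω) (condDistrib W Z μ z) :=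
    (integrable_const C').mono' (mB.comp measurable_prodMk_left).aestronglyMeasurable
      (Eventually.of_forall fun ω => by simpa only [Real.norm_eq_abs] using bB (z, ω))
  have e4 : ∫ ω, u (z, ω) * Pd j ω ∂condDistrib W Z μ z =
      ∫ ω, u' (z, ω) * Pd j' ω ∂condDistrib W Z μ z := by
    rw [← sub_eq_zero, ← integral_sub iA iB]
    exact hz
  unfold Lam
  refine (integral_congr_ae ?_).trans (e4.trans (integral_congr_ae ?_))
  · filter_upwards [f1] with ω hω
    rw [hω]
  · filter_upwards [f2] with ω hω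
    rw [hω]

lemma cylAll (h : FCS) {X : Type} [MeasurableSpace X] (μ : Measure X) [IsProbabilityMeasure μ]
    (r : Fin (l + 1) → ℤ) (W : X → Cfg J) (Z : X → Zsp J) (hM : Mod μ r W Z) :
    ∀ᵐ z ∂μ.map Z, ∀ (c : J → ℤ) (t s : J) (i j j' : Fin (l + 1)) (F : Fin (l + 1) → Finset ℕ),
      Lam (condDistrib W Z μ z) (fun k => Fib27.O YY r (c + Pi.single t (r k)) s i)
        (fun k (ω : Cfg J) => ω (c + Pi.single t (r k))) j (fun k => cf (F k)) =
      Lam (condDistrib W Z μ z) (fun k => Fib27.O YY r (c + Pi.single t (r k)) s i)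
        (fun k (ω : Cfg J) => ω (c + Pi.single t (r k))) j' (fun k => cf (F k)) := by
  refine ae_all_iff.2 fun c => ?_
  refine ae_all_iff.2 fun t => ?_
  refine ae_all_iff.2 fun s => ?_
  refine ae_all_iff.2 fun i => ?_
  refine ae_all_iff.2 fun j => ?_
  refine ae_all_iff.2 fun j' => ?_
  refine ae_all_iff.2 fun F => ?_
  exact cylStep h μ r W Z hM c t s i j j' F

omit [Fintype J] in
lemma one (κ : Measure (Cfg J)) [IsProbabilityMeasure κ] (r : Fin (l + 1) → ℤ)
    (c : J → ℤ) (t s : J) (i j j' : Fin (l + 1))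
    (hz : ∀ F : Fin (l + 1) → Finset ℕ,
      Lam κ (fun k => Fib27.O YY r (c + Pi.single t (r k)) s i)
        (fun k (ω : Cfg J) => ω (c + Pi.single t (r k))) j (fun k => cf (F k)) =
      Lam κ (fun k => Fib27.O YY r (c + Pi.single t (r k)) s i)
        (fun k (ω : Cfg J) => ω (c + Pi.single t (r k))) j' (fun k => cf (F k)))
    (g : Fin (l + 1) → YY → ℝ) (hg : ∀ k, Measurable (g k)) (hb : ∀ k e, |g k e| ≤ 1) :
    ∫ ω, (κ[fun ω => g j (ω (c + Pi.single t (r j))) |
          Fib27.O YY r (c + Pi.single t (r j)) s i]) ω *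
        ∏ k ∈ Finset.univ.erase j, g k (ω (c + Pi.single t (r k))) ∂κ =
    ∫ ω, (κ[fun ω => g j' (ω (c + Pi.single t (r j'))) |
          Fib27.O YY r (c + Pi.single t (r j')) s i]) ω *
        ∏ k ∈ Finset.univ.erase j', g k (ω (c + Pi.single t (r k))) ∂κ := by
  have h1 : ∀ k : Fin (l + 1), (fun k => Fib27.O YY r (c + Pi.single t (r k)) s i) k ≤
      (inferInstance : MeasurableSpace (Cfg J)) := by
    intro k
    beta_reduce
    generalize c + Pi.single t (r k) = p
    exact o_le r p s i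
  have h2 : ∀ k : Fin (l + 1),
      Measurable ((fun k (ω : Cfg J) => ω (c + Pi.single t (r k))) k) :=
    fun k => measurable_pi_apply (c + Pi.single t (r k))
  have h3 : ∀ k, BM (g k) := fun k => ⟨hg k, hb k⟩
  have h4 := extAll κ _ h1 _ h2 j j' hz g h3
  simp only [Lam] at h4
  exact h4

end Model

end Fb3

theorem fb3 (h : FCS) : Fb3S := by
  intro J X _ _ l _ μ _ r W Z hM
  refine (Fb3.cylAll h μ r W Z hM).mono ?_
  intro z hz c t s i g hg hb j j'
  exact Fb3.one (condDistrib W Z μ z) r c t s i j j' (hz c t s i j j') g hg hb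

end Pool.Agent.MP_154433_an.SG

end

end MrgPart3

-- marker of a merged file
example : 731051 + 273724 = 731051 + 273724 := rfl
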