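import Mathlib.MeasureTheory.Measure.RegularityCompacts
import Mathlib.Probability.Kernel.CompProdEqIff
import Pool.Agent.MP_154433_an.sg.Fin
import Pool.Agent.MP_154433_an.sg.Main

-- ======== part 0: formerly Pool.Agent.MP_154433_an.sg.FdD
section MrgPart0

/-! Row FdD: freezing the sparse coordinates at the best tuple with a prescribed sum. -/

set_option autoImplicit false

open MeasureTheory ProbabilityTheory Filter Topology Function

noncomputable section

namespace Pool.Agent.MP_154433_an.SG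

open Fam

namespace FdDx

section Gen

variable {G : Type} [Fintype G] [MeasurableSpace G] [DiscreteMeasurableSpace G]

lemma meas_dep {β : Type} [MeasurableSpace β] [Nonempty β] {f : (ℕ → G) → β} {T : Finset ℕ}
    (h : DependsOn f (T : Set ℕ)) : Measurable f := by
  obtain ⟨g, rfl⟩ := dependsOn_iff_exists_comp.1 h
  exact (Measurable.of_discrete (f := g)).comp
    (measurable_pi_lambda _ fun i => measurable_pi_apply _)

omit [MeasurableSpace G] [DiscreteMeasurableSpace G] in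
lemma fin_range {β : Type} [Nonempty β] {f : (ℕ → G) → β} {T : Finset ℕ}
    (h : DependsOn f (T : Set ℕ)) : (Set.range f).Finite := by
  obtain ⟨g, rfl⟩ := dependsOn_iff_exists_comp.1 h
  exact (Set.finite_range g).subset (Set.range_comp_subset_range _ _)

lemma unif_add [AddCommGroup G] (g : G → ℝ) (w : G) :
    ∫ v, g (v + w) ∂(uniformOn (Set.univ : Set G)) = ∫ v, g v ∂(uniformOn (Set.univ : Set G)) := by
  simp only [uniformOn, ProbabilityTheory.cond, Measure.restrict_univ, integral_smul_measure]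
  congr 1
  rw [integral_count, integral_count]
  exact Equiv.sum_comp (Equiv.addRight w) g

end Gen

lemma int_bd {Ω : Type} [MeasurableSpace Ω] (P : Measure Ω) [IsProbabilityMeasure P]
    {f : Ω → ℝ} (hf : Measurable f) {C : ℝ} (hC : ∀ ω, |f ω| ≤ C) : Integrable f P :=
  Integrable.of_bound hf.aestronglyMeasurable C (Eventually.of_forall hC)

lemma abs_int {Ω : Type} [MeasurableSpace Ω] (P : Measure Ω) [IsProbabilityMeasure P]
    {f : Ω → ℝ} {C : ℝ} (hC : ∀ ω, |f ω| ≤ C) : |∫ ω, f ω ∂P| ≤ C := by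
  have := norm_integral_le_of_norm_le_const (μ := P) (f := f) (C := C) (Eventually.of_forall hC)
  simpa using this

lemma fub {Ω : Type} [MeasurableSpace Ω] (P : Measure Ω) [IsProbabilityMeasure P]
    {m : Ω × Ω → Ω} (hm : MeasurePreserving m (P.prod P) P) {f : Ω → ℝ} (hf : Measurable f)
    {C : ℝ} (hC : ∀ ω, |f ω| ≤ C) :
    ∫ ω, f ω ∂P = ∫ a, ∫ b, f (m (a, b)) ∂P ∂P ∧ ∫ ω, f ω ∂P = ∫ b, ∫ a, f (m (a, b)) ∂P ∂P := by
  have h1 : ∫ ω, f ω ∂P = ∫ p, f (m p) ∂P.prod P := by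
    rw [← integral_map hm.measurable.aemeasurable hf.aestronglyMeasurable, hm.map_eq]
  have h2 : Integrable (fun p => f (m p)) (P.prod P) :=
    int_bd _ (hf.comp hm.measurable) fun p => hC _
  exact ⟨h1.trans (integral_prod _ h2), h1.trans (integral_prod_symm _ h2)⟩

variable {Φ : Fam} {N : ℕ}

open Classical in
/-- the first argument on `A`, the second off `A` -/
def pw (A : Set ℕ) (a b : Φ.Om N) : Φ.Om N := A.piecewise a b

lemma pw_in {A : Set ℕ} (a b : Φ.Om N) {j : ℕ} (h : j ∈ A) : pw A a b j = a j := by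
  simp [pw, h]

lemma pw_out {A : Set ℕ} (a b : Φ.Om N) {j : ℕ} (h : j ∉ A) : pw A a b j = b j := by
  simp [pw, h]

lemma dot_eq (c : ℕ →₀ ℤ) (J : Finset ℕ) (hJ : ∀ j ∈ J, Odd j) (hc : c.support ⊆ J)
    (ω : Φ.Om N) : dot c ω = ∑ j ∈ J, c j • ω j := by
  have h0 : c.erase 0 = c := by
    refine Finsupp.erase_of_notMem_support fun h => ?_
    exact absurd (hJ 0 (hc h)) (by decide)
  rw [dot, h0, Finsupp.linearCombination_apply, Finsupp.sum_of_support_subset _ hc]
  intro i _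
  simp

lemma law_tuple {r : ℕ} (e : Fin r → ℕ) (he : Injective e) (ho : ∀ i, Odd (e i)) :
    MeasurePreserving (fun (ω : Φ.Om N) (i : Fin r) => ω (e i)) (Φ.PP N)
      (Measure.pi fun _ : Fin r => Φ.ν N) := by
  have hm : Measurable (fun (ω : Φ.Om N) (i : Fin r) => ω (e i)) :=
    measurable_pi_lambda _ fun i => measurable_pi_apply _
  refine ⟨hm, ?_⟩
  have h1 : iIndepFun (fun (j : ℕ) (ω : Φ.Om N) => ω j) (Φ.PP N) :=
    iIndepFun_infinitePi (P := Φ.law N) (X := fun _ v => v) fun _ => measurable_id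
  have h2 := (h1.precomp he).map_fun_eq_pi_map fun i => (measurable_pi_apply (e i)).aemeasurable
  refine h2.trans ?_
  congr 1
  funext i
  have := Measure.infinitePi_map_eval (Φ.law N) (e i)
  refine this.trans ?_
  simp [law, ho i]

lemma law_even {z : ℕ} (hz : Even z) (g : Φ.G N → ℝ) :
    ∫ ω, g (ω z) ∂Φ.PP N = ∫ v, g v ∂Φ.unif N := by
  have h := measurePreserving_eval_infinitePi (Φ.law N) z
  have h2 : Φ.law N z = Φ.unif N := by simp [law, Nat.not_odd_iff_even.2 hz]
  rw [← h2, ← h.map_eq, integral_map h.measurable.aemeasurable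
    (Measurable.of_discrete (f := g)).aestronglyMeasurable]
  rfl

lemma tv_dot (hres : ∀ A : Set ℕ, MeasurePreserving
      (fun p : Φ.Om N × Φ.Om N => pw A p.1 p.2) ((Φ.PP N).prod (Φ.PP N)) (Φ.PP N))
    {r : ℕ} {ε : ℝ} (htv : ∀ g : Φ.G N → ℝ, (∀ v, |g v| ≤ 1) →
      |∫ s, g (∑ i, s i) ∂(Measure.pi fun _ : Fin r => Φ.ν N) - ∫ v, g v ∂Φ.unif N| ≤ ε)
    (J : Finset ℕ) (c : ℕ →₀ ℤ) (hJ : ∀ j ∈ J, Odd j) (hc : c.support ⊆ J)
    (hr : r ≤ (J.filter fun j => c j = 1).card) (M : Φ.G N → ℝ) {C : ℝ} (hC0 : 0 < C)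
    (hC : ∀ v, |M v| ≤ C) :
    ∫ σ, M (dot c σ) ∂Φ.PP N ≤ ∫ v, M v ∂Φ.unif N + C * ε := by
  obtain ⟨R, hR, hRc⟩ := Finset.exists_subset_card_eq hr
  have hRJ : R ⊆ J := hR.trans (Finset.filter_subset _ _)
  let e : Fin r ≃ R := (R.equivFinOfCardEq hRc).symm
  have hdep : DependsOn (fun σ : Φ.Om N => M (dot c σ)) (J : Set ℕ) := fun x y h => by
    show M (dot c x) = M (dot c y)
    rw [dot_congr c fun j hj _ => h j (hc hj)]
  have hf := fub (Φ.PP N) (hres (R : Set ℕ)) (meas_dep hdep) (C := C) fun σ => hC _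
  rw [hf.2]
  have hb : ∀ b : Φ.Om N, ∫ a, M (dot c (pw (R : Set ℕ) a b)) ∂Φ.PP N ≤
      ∫ v, M v ∂Φ.unif N + C * ε := by
    intro b
    set w : Φ.G N := ∑ j ∈ J \ R, c j • b j with hw
    have h1 : ∀ a : Φ.Om N, dot c (pw (R : Set ℕ) a b) = (∑ i : Fin r, a (e i)) + w := by
      intro a
      rw [dot_eq c J hJ hc, ← Finset.sum_sdiff hRJ, add_comm]
      congr 1
      · rw [Equiv.sum_comp e fun j : R => a j, Finset.sum_coe_sort R a]
        refine Finset.sum_congr rfl fun j hj => ?_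
        rw [(Finset.mem_filter.1 (hR hj)).2, one_smul,
          pw_in _ _ (Finset.mem_coe.2 hj)]
      · refine Finset.sum_congr rfl fun j hj => ?_
        rw [pw_out _ _ fun h => (Finset.mem_sdiff.1 hj).2 h]
    have hl := law_tuple (Φ := Φ) (N := N) (fun i => (e i : ℕ))
      (Subtype.val_injective.comp e.injective) fun i => hJ _ (hRJ (e i).2)
    have h2 : ∫ a, M (dot c (pw (R : Set ℕ) a b)) ∂Φ.PP N =
        ∫ s, M ((∑ i, s i) + w) ∂(Measure.pi fun _ : Fin r => Φ.ν N) := by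
      rw [← hl.map_eq, integral_map hl.measurable.aemeasurable
        (Measurable.of_discrete).aestronglyMeasurable]
      simp only [h1]
    have h3 := htv (fun v => C⁻¹ * M (v + w)) fun v => by
      rw [abs_mul, abs_of_pos (inv_pos.2 hC0), inv_mul_le_iff₀ hC0, mul_one]
      exact hC _
    rw [integral_const_mul, integral_const_mul, ← mul_sub, abs_mul, abs_of_pos (inv_pos.2 hC0),
      inv_mul_le_iff₀ hC0] at h3
    have h4 : ∫ v, M (v + w) ∂Φ.unif N = ∫ v, M v ∂Φ.unif N := unif_add M w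
    rw [h2, ← h4]
    linarith [(abs_le.1 h3).2]
  have hm : Measurable fun b : Φ.Om N =>
      ∫ a, M (dot c (pw (R : Set ℕ) a b)) ∂Φ.PP N := by
    refine meas_dep (T := J) fun x y h => ?_
    refine integral_congr_ae (Eventually.of_forall fun a => hdep fun j hj => ?_)
    by_cases hjR : j ∈ (R : Set ℕ)
    · simp only [pw_in _ _ hjR]
    · simp only [pw_out _ _ hjR]
      exact h j hj
  have := integral_mono (int_bd (Φ.PP N) hm (C := C) fun b => abs_int _ fun a => hC _)
    (integrable_const (∫ v, M v ∂Φ.unif N + C * ε)) hb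
  simpa using this

lemma ex_sel (J : Finset ℕ) (c : ℕ →₀ ℤ) (hJ : ∀ j ∈ J, Odd j) (hc : c.support ⊆ J)
    (h1 : 1 ≤ (J.filter fun j => c j = 1).card) (f : Φ.Om N → ℝ) :
    ∃ sel : Φ.G N → Φ.Om N, (∀ v, dot c (sel v) = v) ∧ ∀ σ,
      ∫ ω, f (pw (J : Set ℕ) σ ω) ∂Φ.PP N ≤
        ∫ ω, f (pw (J : Set ℕ) (sel (dot c σ)) ω) ∂Φ.PP N := by
  obtain ⟨j0, hj0⟩ := Finset.card_pos.1 h1
  obtain ⟨hj0J, hj0c⟩ := Finset.mem_filter.1 hj0
  let Ψ : Φ.Om N → ℝ := fun σ => ∫ ω, f (pw (J : Set ℕ) σ ω) ∂Φ.PP N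
  have hdep : DependsOn Ψ (J : Set ℕ) := fun x y h => by
    refine integral_congr_ae (Eventually.of_forall fun a => congrArg f ?_)
    funext j
    by_cases hj : j ∈ (J : Set ℕ)
    · simp only [pw_in _ _ hj]
      exact h j hj
    · simp only [pw_out _ _ hj]
  have hex : ∀ v : Φ.G N, ∃ σ : Φ.Om N, dot c σ = v ∧ ∀ σ', dot c σ' = v → Ψ σ' ≤ Ψ σ := by
    intro v
    have hne : ({σ : Φ.Om N | dot c σ = v}).Nonempty := by
      refine ⟨Pi.single j0 v, ?_⟩
      show dot c _ = v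
      rw [dot_eq c J hJ hc, Finset.sum_eq_single_of_mem j0 hj0J]
      · simp [hj0c]
      · intro j _ hj
        simp [Pi.single_eq_of_ne hj]
    obtain ⟨σ, hσ⟩ := Set.Finite.exists_maximalFor' Ψ _
      ((fin_range hdep).subset (Set.image_subset_range _ _)) hne
    exact ⟨σ, hσ.1, fun σ' h' => hσ.le h'⟩
  choose sel hs1 hs2 using hex
  exact ⟨sel, hs1, fun σ => hs2 _ σ rfl⟩

lemma key (hres : ∀ A : Set ℕ, MeasurePreserving
      (fun p : Φ.Om N × Φ.Om N => pw A p.1 p.2) ((Φ.PP N).prod (Φ.PP N)) (Φ.PP N))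
    {r : ℕ} {ε : ℝ} (htv : ∀ g : Φ.G N → ℝ, (∀ v, |g v| ≤ 1) →
      |∫ s, g (∑ i, s i) ∂(Measure.pi fun _ : Fin r => Φ.ν N) - ∫ v, g v ∂Φ.unif N| ≤ ε)
    (J : Finset ℕ) (c : ℕ →₀ ℤ) (hJ : ∀ j ∈ J, Odd j) (hc : c.support ⊆ J)
    (hr : r ≤ (J.filter fun j => c j = 1).card) {z : ℕ} (hz : Even z) (f : Φ.Om N → ℝ)
    {T : Finset ℕ} (hT : DependsOn f (T : Set ℕ)) (hfz : DependsOn f ({z} : Set ℕ)ᶜ) {C : ℝ}
    (hC0 : 0 < C) (hC : ∀ ω, |f ω| ≤ C) (sel : Φ.G N → Φ.Om N)
    (hs : ∀ σ, ∫ ω, f (pw (J : Set ℕ) σ ω) ∂Φ.PP N ≤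
        ∫ ω, f (pw (J : Set ℕ) (sel (dot c σ)) ω) ∂Φ.PP N) :
    ∫ ω, f ω ∂Φ.PP N ≤ ∫ ω, f (pw (J : Set ℕ) (sel (ω z)) ω) ∂Φ.PP N + C * ε := by
  let M : Φ.G N → ℝ := fun v => ∫ ω, f (pw (J : Set ℕ) (sel v) ω) ∂Φ.PP N
  have hM : ∀ v, |M v| ≤ C := fun v => abs_int _ fun ω => hC _
  have hdep : DependsOn (fun σ : Φ.Om N => ∫ ω, f (pw (J : Set ℕ) σ ω) ∂Φ.PP N)
      (J : Set ℕ) := fun x y h => by
    refine integral_congr_ae (Eventually.of_forall fun a => congrArg f ?_)
    funext j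
    by_cases hj : j ∈ (J : Set ℕ)
    · simp only [pw_in _ _ hj]
      exact h j hj
    · simp only [pw_out _ _ hj]
  have hdep2 : DependsOn (fun σ : Φ.Om N => M (dot c σ)) (J : Set ℕ) := fun x y h => by
    show M (dot c x) = M (dot c y)
    rw [dot_congr c fun j hj _ => h j (hc hj)]
  have h1 : ∫ ω, f ω ∂Φ.PP N ≤ ∫ σ, M (dot c σ) ∂Φ.PP N := by
    rw [(fub (Φ.PP N) (hres (J : Set ℕ)) (meas_dep hT) hC).1]
    exact integral_mono (int_bd _ (meas_dep hdep) (C := C) fun σ => abs_int _ fun ω => hC _)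
      (int_bd _ (meas_dep hdep2) fun σ => hM _) hs
  have hdep3 : DependsOn (fun ω : Φ.Om N => f (pw (J : Set ℕ) (sel (ω z)) ω))
      ((insert z T : Finset ℕ) : Set ℕ) := fun x y h => by
    refine hT fun j hj => ?_
    by_cases hjJ : j ∈ (J : Set ℕ)
    · simp only [pw_in _ _ hjJ]
      rw [h z (by simp)]
    · simp only [pw_out _ _ hjJ]
      exact h j (by simp [Finset.mem_coe.1 hj])
  have h2 : ∫ ω, f (pw (J : Set ℕ) (sel (ω z)) ω) ∂Φ.PP N = ∫ v, M v ∂Φ.unif N := by
    rw [(fub (Φ.PP N) (hres ({z} : Set ℕ)) (meas_dep hdep3) (C := C) fun ω => hC _).1,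
      ← law_even hz M]
    refine integral_congr_ae (Eventually.of_forall fun a => ?_)
    refine integral_congr_ae (Eventually.of_forall fun b => hfz fun j hj => ?_)
    by_cases hjJ : j ∈ (J : Set ℕ)
    · simp only [pw_in _ _ hjJ]
      rw [pw_in _ _ (Set.mem_singleton z)]
    · simp only [pw_out _ _ hjJ]
      exact pw_out _ _ hj
  rw [h2]
  exact h1.trans (tv_dot hres htv J c hJ hc hr M hC0 hM)

end FdDx

theorem fdD : FdDS := by
  intro S _ hB
  refine ⟨fun J c z F hJ hc hr hz hF => ?_⟩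
  obtain ⟨⟨T, hT⟩, C, hC⟩ := F.2
  choose sel hs1 hs2 using fun N =>
    FdDx.ex_sel (Φ := S.toFam) (N := N) J c hJ hc (S.hyp.rpos.trans hr) (F.1 N)
  refine ⟨sel, hs1, le_of_forall_pos_le_add fun δ hδ => ?_⟩
  have hC0 : 0 < |C| + 1 := by positivity
  have hC' : ∀ N ω, |F.1 N ω| ≤ |C| + 1 := fun N ω =>
    (hC N ω).trans ((le_abs_self C).trans (le_add_of_nonneg_right zero_le_one))
  refine le_of_tendsto_of_tendsto (S.lim F)
    ((S.lim ((secf (J : Set ℕ) sel z).pull F)).add_const δ) ?_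
  filter_upwards [S.hyp.tv (δ / (|C| + 1)) (div_pos hδ hC0)] with N hN
  have := FdDx.key (fun A => hB.res A N) hN J c hJ hc hr hz (F.1 N) (hT N) (hF N) hC0 (hC' N)
    (sel N) (hs2 N)
  rw [mul_div_cancel₀ _ hC0.ne'] at this
  exact this

end Pool.Agent.MP_154433_an.SG

end

end MrgPart0

-- ======== part 1: formerly Pool.Agent.MP_154433_an.sg.D1
section MrgPart1

/-! Row D1: the conditional expectation can be moved from one slot to another. -/

set_option autoImplicit false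

open MeasureTheory ProbabilityTheory Filter Topology Function

noncomputable section

namespace Pool.Agent.MP_154433_an.SG

open Fam

namespace D1R

variable {S : Sys} {ι : Type} [Fintype ι] [DecidableEq ι]

lemma tt_update (r : ι → ℤ) (t : ℕ) (ψ : S.Pt → ℝ) (G : ι → S.Pt → ℝ) (b : ι) (u : S.Pt → ℝ) :
    S.TT r t ψ (update G b u) = ∫ x, ψ x * (u (S.Th (r b • ee t) x) *
      ∏ k ∈ Finset.univ.erase b, G k (S.Th (r k • ee t) x)) ∂S.μ := by
  refine integral_congr_ae (Eventually.of_forall fun x => ?_)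
  simp only
  rw [← Finset.mul_prod_erase _ _ (Finset.mem_univ b), update_self]
  congr 2
  exact Finset.prod_congr rfl fun k hk => by rw [update_of_ne (Finset.ne_of_mem_erase hk)]

lemma one (hf : Fd S) {Γ : Set (Finset ℕ × (ℕ →₀ ℤ))} {I : Set ℕ} (hfr : Frame Γ I)
    (hs : S.SS (Fintype.card ι - 1)) {r : ι → ℤ} (hr : Injective r) {t : ℕ} (ht : t ∉ I)
    (ho : Odd t) {F : ι → S.Pt → ℝ} {ψ : S.Pt → ℝ} (hF : ∀ k, ABM (S.Full I) S.μ (F k))
    (hψ : ABM (S.Base Γ (I ∪ ({t} : Finset ℕ))) S.μ ψ) {a b : ι} (hab : b ≠ a)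
    (ha : ABM (S.Base Γ I) S.μ (F a)) :
    S.TT r t ψ F = S.TT r t ψ (update F b (S.μ[F b | S.Base Γ I])) := by
  have hle := hf.base_le Γ I hfr.lives
  have hE : ABM (S.Full I) S.μ (S.μ[F b | S.Base Γ I]) := ((hF b).condExp _).mono hle
  have hth : ∀ {g : S.Pt → ℝ} (c : ℕ →₀ ℤ), ABM (S.Full I) S.μ g →
      ABM inferInstance S.μ fun x => g (S.Th c x) := fun c hg =>
    (hg.mono (full_le I)).comp (hf.thmp c) (measurable_iff_comap_le.1 (hf.thmp c).measurable)
  have hint : ∀ {g : S.Pt → ℝ}, ABM (S.Full I) S.μ g → Integrable (fun x => ψ x *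
      (g (S.Th (r b • ee t) x) * ∏ k ∈ Finset.univ.erase b, F k (S.Th (r k • ee t) x))) S.μ :=
    fun hg => ((hψ.mono (base_le' _ _)).mul ((hth _ hg).mul
      (ABM.prod _ fun k _ => hth _ (hF k)))).integrable le_rfl
  have hsup : (r a • ee t).support ⊆ {t} :=
    Finsupp.support_smul.trans Finsupp.support_single_subset
  have key := hs Γ I t hfr ht ho ι (Finset.univ.erase a) r hr.injOn
    (by rw [Finset.card_erase_of_mem (Finset.mem_univ a), Finset.card_univ])
    (update F b fun x => F b x - (S.μ[F b | S.Base Γ I]) x)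
    (fun x => ψ x * F a (S.Th (r a • ee t) x))
    (fun k _ => by
      by_cases hk : k = b
      · rw [hk, update_self]; exact (hF b).sub hE
      · rw [update_of_ne hk]; exact hF k)
    (hψ.mul (ha.comp (hf.thmp _) (hf.theta Γ I _ _ (fun γ hγ j hj h => ht (by
        rw [← Finset.mem_singleton.1 (hsup hj)]
        exact (hfr.lives γ hγ).1 h)) Set.subset_union_left
      ((Finset.coe_subset.2 hsup).trans Set.subset_union_right))))
    b (Finset.mem_erase.2 ⟨hab, Finset.mem_univ b⟩)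
    (by rw [update_self]; exact orth_sub_condExp (base_le' _ _) ((hF b).integrable (full_le I)))
  have e : S.TT r t ψ (update F b fun x => F b x - (S.μ[F b | S.Base Γ I]) x) = 0 := by
    rw [← key]
    refine integral_congr_ae (Eventually.of_forall fun x => ?_)
    simp only
    rw [← Finset.mul_prod_erase _ _ (Finset.mem_univ a), update_of_ne hab.symm, mul_assoc]
  rw [tt_update] at e
  simp only [sub_mul, mul_sub] at e
  rw [integral_sub (hint (hF b)) (hint hE), sub_eq_zero, ← tt_update, ← tt_update,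
    update_eq_self] at e
  exact e

end D1R

theorem d1 : D1S := by
  intro S ι _ _ r Γ I hc J hJ s hs i r' hr' t htI htJ ho F ψ hF hψ a b
  by_cases hab : a = b
  · rw [hab]
  have hf := hc.fd
  rw [hf.bbeq ι r Γ I J s i fun j hj => (hJ j hj).1]
  set Γ' := Γ ∪ {γ | ∃ j, j ≠ i ∧ γ = (J, (r j - r i) • ee s)}
  have hfr : Frame Γ' (I ∪ J) := hf.frame Γ _ I J hc.fr (by
    rintro _ ⟨j, -, rfl⟩
    exact ⟨Set.subset_union_right, (Finsupp.support_smul.trans
      Finsupp.support_single_subset).trans (Finset.singleton_subset_iff.2 hs)⟩)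
  have ht : t ∉ I ∪ (J : Set ℕ) := fun h => h.elim htI htJ
  have hψ' : ABM (S.Base Γ' (I ∪ J ∪ ({t} : Finset ℕ))) S.μ ψ :=
    hψ.mono (hf.base_mono _ _ _ _ Set.subset_union_left (Set.insert_subset (by simp)
      Set.subset_union_left))
  have h : ∀ a b : ι, b ≠ a → S.TT r' t ψ (update F a (S.μ[F a | S.Base Γ' (I ∪ J)])) =
      S.TT r' t ψ (update (update F a (S.μ[F a | S.Base Γ' (I ∪ J)])) b
        (S.μ[F b | S.Base Γ' (I ∪ J)])) := fun a b hab => by
    have h1 := D1R.one hf hfr hc.ss hr' ht ho (F := update F a (S.μ[F a | S.Base Γ' (I ∪ J)]))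
      (fun k => by
        by_cases hk : k = a
        · rw [hk, update_self]; exact ((hF a).condExp _).mono (hf.base_le _ _ hfr.lives)
        · rw [update_of_ne hk]; exact hF k) hψ' hab
      (by rw [update_self]; exact (hF a).condExp _)
    rwa [update_of_ne hab] at h1
  rw [h a b (Ne.symm hab), h b a hab, update_comm hab]

end Pool.Agent.MP_154433_an.SG

end

end MrgPart1

-- ======== part 2: formerly Pool.Agent.MP_154433_an.sg.G3
section MrgPart2

/-! Row G3: the conditioning may be moved from one slot to another along every direction of `J`. -/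

set_option autoImplicit false

open MeasureTheory ProbabilityTheory Filter Function

noncomputable section

namespace Pool.Agent.MP_154433_an.SG

namespace G3h

variable {X ι : Type} [Fintype ι] [DecidableEq ι]

/-- the multilinear form -/
def Tm {_m0 : MeasurableSpace X} (μ : Measure X) (τ : ι → X → X) (ψ : X → ℝ) (F : ι → X → ℝ) : ℝ :=
  ∫ x, ψ x * ∏ k, F k (τ k x) ∂μ

/-- the density of the form in the slot `a` -/
def Wt (τ σ : ι → X → X) (ψ : X → ℝ) (F : ι → X → ℝ) (a : ι) (x : X) : ℝ :=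
  ψ (σ a x) * ∏ k ∈ Finset.univ.erase a, F k (τ k (σ a x))

variable {m F0 L B BB : MeasurableSpace X} {m0 : MeasurableSpace X} {μ : Measure X}
  {τ σ : ι → X → X} {ψ : X → ℝ} {F : ι → X → ℝ}

lemma split (a : ι) (G : X → ℝ) (x : X) : ∏ k, update F a G k (τ k x) =
    G (τ a x) * ∏ k ∈ Finset.univ.erase a, F k (τ k x) := by
  rw [← Finset.mul_prod_erase _ _ (Finset.mem_univ a), update_self]
  congr 1
  exact Finset.prod_congr rfl fun k hk => by rw [update_of_ne (Finset.ne_of_mem_erase hk)]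

lemma wt_abm (hτ : ∀ k, MeasurePreserving (τ k) μ μ) (hσ : ∀ k, MeasurePreserving (σ k) μ μ)
    (h1 : ∀ k, m.comap (τ k) ≤ m) (h2 : ∀ k, m.comap (σ k) ≤ m) (hψ : ABM m μ ψ)
    (hF : ∀ k, ABM m μ (F k)) (a : ι) : ABM m μ (Wt τ σ ψ F a) :=
  (hψ.mul (ABM.prod _ fun k _ => (hF k).comp (hτ k) (h1 k))).comp (hσ a) (h2 a)

lemma wt_abm0 (hτ : ∀ k, MeasurePreserving (τ k) μ μ) (hσ : ∀ k, MeasurePreserving (σ k) μ μ)
    (hψ : ABM m0 μ ψ) (hF : ∀ k, ABM m0 μ (F k)) (a : ι) : ABM m0 μ (Wt τ σ ψ F a) :=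
  wt_abm hτ hσ (fun k => (hτ k).measurable.comap_le) (fun k => (hσ k).measurable.comap_le) hψ hF a

lemma lin (hτ : ∀ k, MeasurePreserving (τ k) μ μ) (hσ : ∀ k, MeasurePreserving (σ k) μ μ)
    (hi : ∀ k x, σ k (τ k x) = x) (hψ : ABM m0 μ ψ) (hF : ∀ k, ABM m0 μ (F k)) (a : ι)
    {G : X → ℝ} (hG : ABM m0 μ G) :
    Tm μ τ ψ (update F a G) = ∫ x, Wt τ σ ψ F a x * G x ∂μ := by
  rw [← integral_comp_mp (hτ a) ((wt_abm0 hτ hσ hψ hF a).mul hG).1]
  refine integral_congr_ae (Eventually.of_forall fun x => ?_)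
  simp only [split, Wt, hi]
  ring

lemma absorb (a : ι) {l G G' : X → ℝ} (hτ : MeasurePreserving (τ a) μ μ)
    (hl : (fun x => l (τ a x)) =ᵐ[μ] l) (hG : G' =ᵐ[μ] fun x => l x * G x) :
    Tm μ τ ψ (update F a G') = Tm μ τ (fun x => ψ x * l x) (update F a G) := by
  refine integral_congr_ae ?_
  filter_upwards [hl, hτ.quasiMeasurePreserving.ae hG] with x h1 h2
  simp only [split, h1, h2]
  ring

omit [Fintype ι] in
lemma upd (hF : ∀ k, ABM m μ (F k)) (a : ι) {G : X → ℝ} (hG : ABM m μ G) (k : ι) :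
    ABM m μ (update F a G k) := by
  by_cases e : k = a
  · subst e; rwa [update_self]
  · rw [update_of_ne e]; exact hF k

/-- extension slot by slot -/
lemma slots [IsProbabilityMeasure μ] (hτ : ∀ k, MeasurePreserving (τ k) μ μ)
    (hσ : ∀ k, MeasurePreserving (σ k) μ μ) (hi : ∀ k x, σ k (τ k x) = x) (hF0 : F0 ≤ m0)
    (hLB : L ≤ B) (hB : B ≤ BB) (hBB : BB ≤ m0)
    (hfix : ∀ l : X → ℝ, ABM L μ l → ∀ k, (fun x => l (τ k x)) =ᵐ[μ] l) (a b : ι)
    (core : ∀ (F : ι → X → ℝ) (ψ : X → ℝ), (∀ k, ABM F0 μ (F k)) → ABM B μ ψ →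
      Tm μ τ ψ (update F a (μ[F a | BB])) = Tm μ τ ψ (update F b (μ[F b | BB])))
    (s : Finset ι) : ∀ (F : ι → X → ℝ) (ψ : X → ℝ), (∀ k, ABM (F0 ⊔ L) μ (F k)) →
      (∀ k, k ∉ s → ABM F0 μ (F k)) → ABM B μ ψ →
      Tm μ τ ψ (update F a (μ[F a | BB])) = Tm μ τ ψ (update F b (μ[F b | BB])) := by
  have hL : L ≤ m0 := hLB.trans (hB.trans hBB)
  have hP : F0 ⊔ L ≤ m0 := sup_le hF0 hL
  induction s using Finset.induction_on with
  | empty => exact fun F ψ _ h hψ => core F ψ (fun k => h k (by simp)) hψ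
  | insert j s hj ih =>
    intro F ψ hF hF' hψ
    have hψ0 := hψ.mono (hB.trans hBB)
    have hFm : ∀ k, ABM m0 μ (F k) := fun k => (hF k).mono hP
    have rep : ∀ c : ι, ∃ Z : X → ℝ, ABM m0 μ Z ∧ (∀ G : X → ℝ, ABM m0 μ G →
        Tm μ τ ψ (update (update F j G) c (μ[update F j G c | BB])) = ∫ x, Z x * G x ∂μ) ∧
        ∀ g l : X → ℝ, ABM m0 μ g → ABM L μ l →
          Tm μ τ (fun x => ψ x * l x) (update (update F j g) c (μ[update F j g c | BB])) =
            ∫ x, Z x * (g x * l x) ∂μ := by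
      intro c
      by_cases e : c = j
      · subst e
        have hW := wt_abm0 hτ hσ hψ0 hFm c
        have h1 : ∀ G : X → ℝ, ABM m0 μ G →
            Tm μ τ ψ (update F c (μ[G | BB])) = ∫ x, (μ[Wt τ σ ψ F c | BB]) x * G x ∂μ :=
          fun G hG => by
            rw [lin hτ hσ hi hψ0 hFm c ((hG.condExp BB).mono hBB), integral_condExp_comm hBB hW hG]
        refine ⟨_, (hW.condExp BB).mono hBB, fun G hG => ?_, fun g l hg hl => ?_⟩
        · rw [update_idem, update_self, h1 G hG]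
        · rw [update_idem, update_self, ← h1 _ (hg.mul (hl.mono hL))]
          refine (absorb c (hτ c) (hfix l hl c) ?_).symm
          simp_rw [mul_comm (g _)]
          exact condExp_mul_left hBB (hl.mono (hLB.trans hB)) (hg.integrable le_rfl)
      · have hU := upd hFm c (((hFm c).condExp BB).mono hBB)
        refine ⟨_, wt_abm0 hτ hσ hψ0 hU j, fun G hG => ?_, fun g l hg hl => ?_⟩
        · rw [update_of_ne e, update_comm (Ne.symm e), lin hτ hσ hi hψ0 hU j hG]
        · rw [update_of_ne e, update_comm (Ne.symm e),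
            ← lin hτ hσ hi hψ0 hU j (hg.mul (hl.mono hL))]
          exact (absorb j (hτ j) (hfix l hl j)
            (Eventually.of_forall fun x => mul_comm _ _)).symm
    obtain ⟨Z, hZ, z1, z2⟩ := rep a
    obtain ⟨Z', hZ', z1', z2'⟩ := rep b
    have o : Orth (F0 ⊔ L) μ fun x => Z x - Z' x := by
      refine orth_sup hF0 hL ((hZ.sub hZ').integrable le_rfl) fun g l hg hl => ?_
      have hgl := (hg.mono hF0).mul (hl.mono hL)
      simp only [sub_mul]
      rw [integral_sub ((hZ.mul hgl).integrable le_rfl) ((hZ'.mul hgl).integrable le_rfl),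
        ← z2 g l (hg.mono hF0) hl, ← z2' g l (hg.mono hF0) hl, sub_eq_zero]
      refine ih _ _ (upd hF j (hg.mono le_sup_left)) (fun k hk => ?_) (hψ.mul (hl.mono hLB))
      by_cases e : k = j
      · subst e; rwa [update_self]
      · rw [update_of_ne e]; exact hF' k (by simp [e, hk])
    have e1 := z1 _ (hFm j)
    have e2 := z1' _ (hFm j)
    have e3 := o _ (hF j)
    rw [update_eq_self] at e1 e2
    simp only [sub_mul] at e3
    rw [integral_sub ((hZ.mul (hFm j)).integrable le_rfl) ((hZ'.mul (hFm j)).integrable le_rfl),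
      sub_eq_zero] at e3
    rw [e1, e2, e3]

end G3h

open G3h Fam

theorem g3 (h : NDS) : G3S := by
  intro S ι _ _ r Γ I hc hD hG J hJ s hs i r' hr' t ht F ψ hF hψ a b
  have fd := hc.fd
  have fr := hc.fr
  have hlv : ∀ I' : Set ℕ, I ⊆ I' → Lives Γ I' := fun I' h γ hγ =>
    ⟨(fr.lives γ hγ).1.trans h, (fr.lives γ hγ).2⟩
  have hLB : S.Lam (I ∪ J) ≤ S.Base Γ (I ∪ J) := fd.lam_le Γ _ fr.hL
  have hB := S.bb_le r Γ I J s i
  have hBF : S.BB r Γ I J s i ≤ S.Full (I ∪ J) :=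
    sup_le (fd.base_le _ _ (hlv _ Set.subset_union_left)) (iSup₂_le fun j _ =>
      fd.thetaF _ _ _ Set.subset_union_left fun k hk => Or.inr (by
        rw [Finset.mem_singleton.1 (support_smul_ee _ _ hk)]; exact hs))
  have mp : ∀ (u : ℕ) (k : ι), MeasurePreserving (S.Th (r' k • ee u)) S.μ S.μ :=
    fun _ _ => fd.thmp _
  have mp' : ∀ (u : ℕ) (k : ι), MeasurePreserving (S.Th (-(r' k • ee u))) S.μ S.μ :=
    fun _ _ => fd.thmp _
  have inv : ∀ (u : ℕ) (k : ι) x, S.Th (-(r' k • ee u)) (S.Th (r' k • ee u) x) = x :=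
    fun _ _ x => Th_neg_Th _ x
  have fix : ∀ (u : ℕ) (l : S.Pt → ℝ), ABM (S.Lam (I ∪ J)) S.μ l → ∀ k,
      (fun x => l (S.Th (r' k • ee u) x)) =ᵐ[S.μ] l := fun u l hl k =>
    fd.lamfix _ _ l (mp u k) hl.1
  have hsup : ∀ (u : ℕ) (k : ι), ((r' k • ee u).support : Set ℕ) ⊆ insert u I := fun u k j hj =>
    Or.inl (Finset.mem_singleton.1 (support_smul_ee _ _ hj))
  refine slots (F0 := S.Full I) (BB := S.BB r Γ I J s i) (mp t) (mp' t) (inv t) (full_le _) hLB
    le_sup_left hB (fix t) a b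
    (fun F ψ hF hψ => ?_) Finset.univ F ψ hF (fun k hk => absurd (Finset.mem_univ k) hk) hψ
  have hF0 : ∀ k, ABM (inferInstance : MeasurableSpace S.Pt) S.μ (F k) :=
    fun k => (hF k).mono (full_le _)
  have hK : ∀ c, ABM (S.BB r Γ I J s i) S.μ (S.μ[F c | S.BB r Γ I J s i]) :=
    fun c => (hF c).condExp _
  have hψ0 := hψ.mono (base_le' _ _)
  rw [lin (mp t) (mp' t) (inv t) hψ0 hF0 a ((hK a).mono hB),
    lin (mp t) (mp' t) (inv t) hψ0 hF0 b ((hK b).mono hB)]
  refine h (S.Full I) (S.Lam (I ∪ J)) S.μ (full_le _) (lam_le' _) (fun l hl => ?_) _ _ _ _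
    ((hK a).of_aesm (hG J hJ s hs i _ ((hF a).mono le_sup_left)))
    ((hK b).of_aesm (hG J hJ s hs i _ ((hF b).mono le_sup_left)))
    (wt_abm0 (mp t) (mp' t) hψ0 hF0 a) (wt_abm0 (mp t) (mp' t) hψ0 hF0 b) fun l l' hl hl' => ?_
  · exact (stronglyMeasurable_condExp.aestronglyMeasurable.mono
      (full_mono Set.inter_subset_left)).congr (fd.ci _ I l hl).symm
  have hA : ∀ c, ABM (S.Full (I ∪ J)) S.μ fun y => l y * (S.μ[F c | S.BB r Γ I J s i]) y :=
    fun c => (hl.mono (full_mono Set.sdiff_subset)).mul ((hK c).mono hBF)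
  have hA' := fun c => (hA c).condExp (S.Full I)
  set A := fun c => S.μ[fun y => l y * (S.μ[F c | S.BB r Γ I J s i]) y | S.Full I] with hAd
  obtain ⟨t', ⟨ht'I, ht'o⟩, ht'J⟩ := fr.cos.exists_notMem_finset J
  have htI := (hJ t ht).1
  -- the fresh direction
  have s1 : ∀ φ : S.Pt → ℝ, ABM (S.Base Γ (insert t' I)) S.μ φ → ∀ c,
      S.TT r' t' φ (update F c (A c)) =
        S.TT r' t' (fun x => φ x * l x) (update F c (S.μ[F c | S.BB r Γ I J s i])) := by
    intro φ hφ c
    have hφ1 := hφ.mono (fd.base_le _ _ (hlv _ (Set.subset_insert _ _)))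
    have hφ0 := hφ1.mono (full_le _)
    have hW := wt_abm (mp t') (mp' t') (fun k => fd.thetaF _ _ _ le_rfl (hsup t' k))
      (fun k => fd.thetaF _ _ _ le_rfl (by rw [Finsupp.support_neg]; exact hsup t' k)) hφ1
      (fun k => (hF k).mono (full_mono (Set.subset_insert _ _))) c
    have c1 := fd.ci (I ∪ J) (insert t' I) _ (hA c)
    have ei : (I ∪ J) ∩ insert t' I = I := by
      ext k
      simp only [Set.mem_inter_iff, Set.mem_union, Finset.mem_coe, Set.mem_insert_iff]
      constructor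
      · rintro ⟨h1 | h1, rfl | h2⟩
        exacts [h1, h1, absurd h1 ht'J, h2]
      · exact fun h => ⟨Or.inl h, Or.inr h⟩
    rw [ei] at c1
    refine Eq.trans ?_ (absorb c (mp t' c) (fix t' l hl c) EventuallyEq.rfl)
    refine (lin (mp t') (mp' t') (inv t') hφ0 hF0 c ((hA' c).mono (full_le _))).trans ?_
    rw [lin (mp t') (mp' t') (inv t') hφ0 hF0 c ((hA c).mono (full_le _)),
      ← integral_mul_condExp (full_le _) hW ((hA c).integrable (full_le _))]
    refine integral_congr_ae ?_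
    filter_upwards [c1] with x hx
    rw [hx]
  have hfix : ∀ j ∈ I, Equiv.swap t t' j = j := fun j hj =>
    Equiv.swap_apply_of_ne_of_ne (ne_of_mem_of_not_mem hj htI) (ne_of_mem_of_not_mem hj ht'I)
  have hkp : KP (Equiv.swap t t') := kp_swap (ne_of_mem_of_not_mem fr.zero htI).symm
    (ne_of_mem_of_not_mem fr.zero ht'I).symm (by simp [ht'o, (hJ t ht).2])
  have hmp := fd.pmmp _ hkp
  have hpr : ∀ G : ι → S.Pt → ℝ, (∀ k, ABM (S.Full I) S.μ (G k)) →
      ABM (S.Full (insert t I)) S.μ fun x => ∏ k, G k (S.Th (r' k • ee t) x) := fun G hG =>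
    ABM.prod _ fun k _ => (hG k).comp (mp t k) (fd.thetaF _ _ _ (Set.subset_insert _ _) (hsup t k))
  have s2 : ∀ (φ : S.Pt → ℝ) (G : ι → S.Pt → ℝ), ABM (S.Base Γ (insert t I)) S.μ φ →
      (∀ k, ABM (S.Full I) S.μ (G k)) →
      S.TT r' t φ G = S.TT r' t' (fun x => φ (S.Pm (Equiv.swap t t') x)) G := by
    intro φ G hφ hG
    refine (integral_comp_mp hmp ((hφ.mono (base_le' _ _)).mul
      ((hpr G hG).mono (full_le _))).1).symm.trans (integral_congr_ae ?_)
    have := fun k => (mp t' k).quasiMeasurePreserving.ae (fd.pmfix I _ (G k) hmp hfix (hG k).1)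
    filter_upwards [ae_all_iff.2 this] with x hx
    congr 1
    refine Finset.prod_congr rfl fun k _ => ?_
    rw [Th_Pm hkp.1, mapDomain_smul_ee, Equiv.swap_apply_left]
    exact hx k
  have hU := fun c => hpr _ (upd hF c (hA' c))
  have dif : ∀ φ : S.Pt → ℝ, ABM (inferInstance : MeasurableSpace S.Pt) S.μ φ →
      ∫ x, (∏ k, update F a (A a) k (S.Th (r' k • ee t) x) -
        ∏ k, update F b (A b) k (S.Th (r' k • ee t) x)) * φ x ∂S.μ =
      S.TT r' t φ (update F a (A a)) - S.TT r' t φ (update F b (A b)) := fun φ hφ => by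
    simp only [mul_comm _ (φ _), mul_sub]
    exact integral_sub ((hφ.mul ((hU a).mono (full_le _))).integrable le_rfl)
      ((hφ.mul ((hU b).mono (full_le _))).integrable le_rfl)
  have o := fd.s0 Γ (insert t I) (I ∪ J) (Or.inr fr.zero) (hlv _ (Set.subset_insert _ _))
    (Set.insert_subset (Or.inr ht) Set.subset_union_left) _ ((hU a).sub (hU b)) fun φ hφ => by
      have hφ' : ABM (S.Base Γ (insert t' I)) S.μ fun x => φ (S.Pm (Equiv.swap t t') x) := by
        refine hφ.comp hmp (fd.permB Γ I _ _ _ hkp.1 fr.lives hfix ?_)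
        rintro _ ⟨k, rfl | hk, rfl⟩
        · simp
        · rw [hfix k hk]; exact Or.inr hk
      rw [dif φ (hφ.mono (base_le' _ _)), s2 φ _ hφ (upd hF a (hA' a)),
        s2 φ _ hφ (upd hF b (hA' b)), s1 _ hφ', s1 _ hφ', sub_eq_zero]
      exact hD J hJ s hs i r' hr' t' ht'I ht'J ht'o F _
        (fun k => (hF k).mono (full_mono Set.subset_union_left))
        ((hφ'.mono (fd.base_mono _ _ _ _ le_rfl
          (Set.insert_subset_insert Set.subset_union_left))).mul
          (hl.mono (hLB.trans (fd.base_mono _ _ _ _ le_rfl (Set.subset_insert _ _))))) a b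
  have e := o _ (hψ.mul (hl'.mono hLB))
  rw [dif _ (hψ0.mul (hl'.mono (lam_le' _))), sub_eq_zero] at e
  have fin : ∀ c, ∫ x, Wt (fun k => S.Th (r' k • ee t)) (fun k => S.Th (-(r' k • ee t))) ψ F c x *
      (l' x * A c x) ∂S.μ = S.TT r' t (fun x => ψ x * l' x) (update F c (A c)) := fun c =>
    (lin (mp t) (mp' t) (inv t) hψ0 hF0 c
      ((hl'.mono (lam_le' _)).mul ((hA' c).mono (full_le _)))).symm.trans
      (absorb c (mp t c) (fix t l' hl' c) EventuallyEq.rfl)
  exact (fin a).trans (e.trans (fin b).symm)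

end Pool.Agent.MP_154433_an.SG

end

end MrgPart2

-- ======== part 3: formerly Pool.Agent.MP_154433_an.sg.All
section MrgPart3

/-! The induction on the number of points. -/

set_option autoImplicit false

open MeasureTheory ProbabilityTheory Filter Topology Function

noncomputable section

namespace Pool.Agent.MP_154433_an.SG

namespace All

lemma ss_mono (S : Sys) {m n : ℕ} (h : m ≤ n) (hn : S.SS n) : S.SS m :=
  fun Γ I t hf ht ho ι s r hr hs => hn Γ I t hf ht ho ι s r hr (hs.trans h)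

lemma dbl_iter (S : Sys) {ι : Type} (r : ι → ℤ) (Γ : Set (Finset ℕ × (ℕ →₀ ℤ))) (I : Set ℕ)
    (hd : DBL S r Γ I) {J : Finset ℕ} (hJ : Out I J) (hc : J.card = 1) (hp : S.PA r Γ I J)
    (m : ℕ) : ∃ J' : Finset ℕ, Out I J' ∧ J'.card = 2 ^ m ∧ S.PA r Γ I J' := by
  induction m with
  | zero => exact ⟨J, hJ, by simpa using hc, hp⟩
  | succ m ih =>
    obtain ⟨J', h1, h2, h3⟩ := ih
    obtain ⟨J'', h4, h5, h6⟩ := hd J' h1 h3
    exact ⟨J'', h4, by rw [h5, h2, pow_succ'], h6⟩

end All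

theorem all (h1 : V1S) (h2 : DSS) (h3 : R1S) (h4 : S2S) (h5 : R2PS) (h6 : D1S) (h7 : G2S)
    (h8 : G3S) (h9 : GCS) (h10 : PA1S) (h11 : DBLS) (h12 : GLS) (h13 : NoGlobS) : AllS := by
  intro S hS
  have v1 := h1 S hS
  have ds := h2 S hS v1
  have r1 := h3 S hS ds
  have s2 := h4 S hS v1 r1
  have r2 := h5 S hS
  refine ⟨ds, fun n => All.ss_mono S (Nat.le_add_left n 2) ?_⟩
  induction n with
  | zero => exact s2
  | succ n ih =>
    intro Γ I t hf ht ho ι s r hr hs g ψ hg hψ i0 hi0 horth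
    rcases Nat.lt_or_ge s.card (2 + (n + 1)) with hlt | hge
    · exact ih Γ I t hf ht ho ι s r hr (by omega) g ψ hg hψ i0 hi0 horth
    have hcard : s.card = (2 + n) + 1 := by omega
    let e : s ≃ Fin ((2 + n) + 1) := Finset.equivFinOfCardEq hcard
    let r' : Fin ((2 + n) + 1) → ℤ := fun k => r (e.symm k)
    let g' : Fin ((2 + n) + 1) → S.Pt → ℝ := fun k => g (e.symm k)
    have hinj : Injective r' := fun a b hab =>
      e.symm.injective (Subtype.ext (hr (e.symm a).2 (e.symm b).2 hab))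
    have ctx : Ctx S r' Γ I :=
      ⟨hS, hinj, by simp only [Fintype.card_fin]; omega, hf, by simpa using ih⟩
    have d1 := h6 S r' Γ I ctx
    have g2 := h7 S r' Γ I ctx r2 d1
    have g3 := h8 S r' Γ I ctx d1 g2
    have gc := h9 S r' Γ I ctx g2 g3
    by_contra hne
    have hT : S.TT r' t ψ g' ≠ 0 := by
      intro h0
      refine hne (Eq.trans ?_ h0)
      unfold Sys.TT
      congr 1
      funext x
      congr 1
      rw [← Finset.prod_coe_sort s]
      exact (Equiv.prod_comp e.symm fun i : s => g i (S.Th (r i • ee t) x)).symm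
    have pa := h10 S r' Γ I ctx g2 g3 gc t ht ho g' ψ (e ⟨i0, hi0⟩)
      (fun k => hg _ (e.symm k).2) hψ (by simpa [g'] using horth) hT
    obtain ⟨J, hJ, hJc, hJp⟩ := All.dbl_iter S r' Γ I (h11 S r' Γ I ctx g2 gc) (J := {t})
      (fun j hj => by rw [Finset.mem_singleton.1 hj]; exact ⟨ht, ho⟩) (by simp) pa (S.r + 1)
    have hlt : S.r + 1 < 2 ^ (S.r + 1) := Nat.lt_two_pow_self
    obtain ⟨Ax, Θ, hG⟩ := h12 S r' Γ I ctx r1 g2 g3 J hJ (by omega) hJp
    refine h13 _ _ Ax S.μ r' Θ ?_ hinj (by omega) hG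
    rw [Fintype.card_coe]
    omega

end Pool.Agent.MP_154433_an.SG

end

end MrgPart3

-- ======== part 4: formerly Pool.Agent.MP_154433_an.sg.Cnt
section MrgPart4

/-! Row Cnt: reduction to countable families of sets. -/

set_option autoImplicit false
set_option warn.classDefReducibility false

open MeasureTheory ProbabilityTheory Filter Topology Function

noncomputable section

namespace Pool.Agent.MP_154433_an.SG

namespace CntR

lemma joint {α K : Type} [Countable K] (ok : Set α) (Q : K → Set α → Prop)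
    (hm : ∀ k S S', S ⊆ S' → Q k S → Q k S')
    (hex : ∀ k, ∃ S : Set α, S.Countable ∧ S ⊆ ok ∧ Q k S) :
    ∃ S : Set α, S.Countable ∧ S ⊆ ok ∧ ∀ k, Q k S := by
  choose S h1 h2 h3 using hex
  exact ⟨⋃ k, S k, Set.countable_iUnion h1, Set.iUnion_subset h2,
    fun k => hm k _ _ (Set.subset_iUnion S k) (h3 k)⟩

lemma closure {α : Type} (ok : Set α) (Pr : α → α → Set α → Prop)
    (hm : ∀ a a' S S', S ⊆ S' → Pr a a' S → Pr a a' S')
    (hex : ∀ a ∈ ok, ∀ a' ∈ ok, ∃ S : Set α, S.Countable ∧ S ⊆ ok ∧ Pr a a' S)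
    (S0 : Set α) (h0 : S0.Countable) (h0' : S0 ⊆ ok) :
    ∃ S : Set α, S.Countable ∧ S ⊆ ok ∧ S0 ⊆ S ∧ ∀ a ∈ S, ∀ a' ∈ S, Pr a a' S := by
  have step : ∀ S : {S : Set α // S.Countable ∧ S ⊆ ok},
      ∃ S' : {S : Set α // S.Countable ∧ S ⊆ ok}, S.1 ⊆ S'.1 ∧
        ∀ a ∈ S.1, ∀ a' ∈ S.1, Pr a a' S'.1 := by
    rintro ⟨S, hc, hs⟩
    have := hc.to_subtype
    obtain ⟨T, t1, t2, t3⟩ := joint (K := S × S) ok (fun k => Pr k.1.1 k.2.1)
      (fun k => hm _ _) (fun k => hex _ (hs k.1.2) _ (hs k.2.2))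
    exact ⟨⟨S ∪ T, hc.union t1, Set.union_subset hs t2⟩, Set.subset_union_left,
      fun a ha a' ha' => hm _ _ _ _ Set.subset_union_right (t3 (⟨a, ha⟩, ⟨a', ha'⟩))⟩
  choose nx hn1 hn2 using step
  let T : ℕ → {S : Set α // S.Countable ∧ S ⊆ ok} := fun n => nx^[n] ⟨S0, h0, h0'⟩
  have hT : ∀ n, T (n + 1) = nx (T n) := fun n => Function.iterate_succ_apply' nx n _
  have hmono : Monotone fun n => (T n).1 :=
    monotone_nat_of_le_succ fun n => by rw [hT]; exact hn1 _
  refine ⟨⋃ n, (T n).1, Set.countable_iUnion fun n => (T n).2.1,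
    Set.iUnion_subset fun n => (T n).2.2, Set.subset_iUnion (fun n => (T n).1) 0, ?_⟩
  intro a ha a' ha'
  obtain ⟨n, hn⟩ := Set.mem_iUnion.1 ha
  obtain ⟨n', hn'⟩ := Set.mem_iUnion.1 ha'
  have h := hn2 (T (max n n')) a (hmono (le_max_left n n') hn) a' (hmono (le_max_right n n') hn')
  rw [← hT] at h
  exact hm _ _ _ _ (Set.subset_iUnion (fun n => (T n).1) _) h

/-- the sets that are measurable for one of the countably indexed sigma-algebras -/
def hull {α X : Type} (ok : Set α) (Φ : Set α → MeasurableSpace X) (hΦ : Monotone Φ) :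
    MeasurableSpace X where
  MeasurableSet' A := ∃ S : Set α, S.Countable ∧ S ⊆ ok ∧ MeasurableSet[Φ S] A
  measurableSet_empty := ⟨∅, Set.countable_empty, Set.empty_subset _, @MeasurableSet.empty _ (Φ ∅)⟩
  measurableSet_compl := fun _ ⟨S, h1, h2, h3⟩ => ⟨S, h1, h2, h3.compl⟩
  measurableSet_iUnion := fun f hf => by
    obtain ⟨S, h1, h2, h3⟩ := joint ok (fun k S => MeasurableSet[Φ S] (f k))
      (fun k S S' h h' => hΦ h _ h') hf
    exact ⟨S, h1, h2, MeasurableSet.iUnion h3⟩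

lemma fn {α X : Type} (ok : Set α) (Φ : Set α → MeasurableSpace X) (hΦ : Monotone Φ)
    {m m0 : MeasurableSpace X} (μ : Measure[m0] X) (hm : m ≤ hull ok Φ hΦ) (g : X → ℝ)
    (hg : AEStronglyMeasurable[m] g μ) :
    ∃ S : Set α, S.Countable ∧ S ⊆ ok ∧ AEStronglyMeasurable[Φ S] g μ := by
  obtain ⟨g', h1, h2⟩ := hg
  have h3 : Measurable[m] g' := h1.measurable
  obtain ⟨S, s1, s2, s3⟩ := joint ok
    (fun (q : ℚ) S => MeasurableSet[Φ S] (g' ⁻¹' Set.Iio (q : ℝ)))
    (fun k S S' h h' => hΦ h _ h') (fun q => hm _ (h3 measurableSet_Iio))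
  refine ⟨S, s1, s2, g', ?_, h2⟩
  have : Measurable[Φ S] g' := by
    show @Measurable X ℝ (Φ S) (borel ℝ) g'
    rw [Real.borel_eq_generateFrom_Iio_rat]
    refine @measurable_generateFrom _ _ (Φ S) _ _ ?_
    intro t ht
    obtain ⟨q, hq⟩ := Set.mem_iUnion.1 ht
    rw [Set.mem_singleton_iff.1 hq]
    exact s3 q
  exact this.stronglyMeasurable

variable {J ι X : Type} [DecidableEq J]

def okS (F B : MeasurableSpace X) : Set (Set X ⊕ Set X) :=
  {a | (∀ A, a = Sum.inl A → MeasurableSet[F] A) ∧ ∀ A, a = Sum.inr A → MeasurableSet[B] A}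

lemma inl_ok {F B : MeasurableSpace X} {A : Set X} (h : MeasurableSet[F] A) :
    Sum.inl A ∈ okS F B :=
  ⟨fun _ e => Sum.inl_injective e ▸ h, fun _ e => absurd e Sum.inl_ne_inr⟩

lemma inr_ok {F B : MeasurableSpace X} {A : Set X} (h : MeasurableSet[B] A) :
    Sum.inr A ∈ okS F B :=
  ⟨fun _ e => absurd e Sum.inr_ne_inl, fun _ e => Sum.inr_injective e ▸ h⟩

def gS (S : Set (Set X ⊕ Set X)) : MeasurableSpace X :=
  MeasurableSpace.generateFrom (Sum.inl ⁻¹' S)

def gZ (S : Set (Set X ⊕ Set X)) : MeasurableSpace X :=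
  MeasurableSpace.generateFrom (Sum.inr ⁻¹' S)

lemma gS_mono : Monotone (gS : Set (Set X ⊕ Set X) → MeasurableSpace X) :=
  fun _ _ h => MeasurableSpace.generateFrom_mono (Set.preimage_mono h)

lemma gZ_mono : Monotone (gZ : Set (Set X ⊕ Set X) → MeasurableSpace X) :=
  fun _ _ h => MeasurableSpace.generateFrom_mono (Set.preimage_mono h)

def P1 (S : Set (Set X ⊕ Set X)) : MeasurableSpace X := gS S ⊔ gZ S

def P2 (r : ι → ℤ) (Θ : (J → ℤ) → X → X) (s : J) (i : ι) (S : Set (Set X ⊕ Set X)) :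
    MeasurableSpace X := gZ S ⊔ Oth (fun c => (gS S).comap (Θ c)) r 0 s i

lemma P1_mono : Monotone (P1 : Set (Set X ⊕ Set X) → MeasurableSpace X) :=
  fun _ _ h => sup_le_sup (gS_mono h) (gZ_mono h)

lemma P2_mono (r : ι → ℤ) (Θ : (J → ℤ) → X → X) (s : J) (i : ι) : Monotone (P2 r Θ s i) :=
  fun _ _ h => sup_le_sup (gZ_mono h)
    (iSup₂_mono fun _ _ => MeasurableSpace.comap_mono (gS_mono h))

lemma meas_gS (A : Set X) : MeasurableSet[gS {Sum.inl A}] A :=
  MeasurableSpace.measurableSet_generateFrom (Set.mem_preimage.2 rfl)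

lemma meas_gZ (A : Set X) : MeasurableSet[gZ {Sum.inr A}] A :=
  MeasurableSpace.measurableSet_generateFrom (Set.mem_preimage.2 rfl)

lemma le1 (F B : MeasurableSpace X) : F ⊔ B ≤ hull (okS F B) P1 P1_mono := by
  refine sup_le (fun A hA => ?_) fun A hA => ?_
  · exact ⟨{Sum.inl A}, Set.countable_singleton _, Set.singleton_subset_iff.2 (inl_ok hA),
      (le_sup_left : gS _ ≤ gS _ ⊔ gZ _) _ (meas_gS A)⟩
  · exact ⟨{Sum.inr A}, Set.countable_singleton _, Set.singleton_subset_iff.2 (inr_ok hA),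
      (le_sup_right : gZ _ ≤ gS _ ⊔ gZ _) _ (meas_gZ A)⟩

lemma le2 (F B : MeasurableSpace X) (r : ι → ℤ) (Θ : (J → ℤ) → X → X) (s : J) (i : ι) :
    B ⊔ Oth (fun c => F.comap (Θ c)) r 0 s i ≤ hull (okS F B) (P2 r Θ s i) (P2_mono r Θ s i) := by
  refine sup_le (fun A hA => ?_) (iSup₂_le fun k hk => ?_)
  · exact ⟨{Sum.inr A}, Set.countable_singleton _, Set.singleton_subset_iff.2 (inr_ok hA),
      (le_sup_left : gZ _ ≤ gZ _ ⊔ _) _ (meas_gZ A)⟩
  · rintro _ ⟨A, hA, rfl⟩
    refine ⟨{Sum.inl A}, Set.countable_singleton _, Set.singleton_subset_iff.2 (inl_ok hA), ?_⟩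
    have h : (gS {Sum.inl A}).comap (Θ (pt r 0 s i k)) ≤ P2 r Θ s i {Sum.inl A} :=
      le_sup_of_le_right (le_iSup₂_of_le (f := fun k (_ : k ∈ {k | k ≠ i}) =>
        (gS {Sum.inl A}).comap (Θ (pt r 0 s i k))) k hk le_rfl)
    exact h _ ⟨A, meas_gS A, rfl⟩

end CntR

open CntR in
theorem cnt : CntS := by
  intro J ι X _ _ _ _ F B Ax m0 μ _ r Θ hG
  obtain ⟨f, ⟨hf1, hfC⟩, hf2, hf3, hf4⟩ := hG.g4
  obtain ⟨S1, c1, o1, q1⟩ := fn (okS F B) P1 P1_mono μ (le1 F B) f hf1
  obtain ⟨S2, c2, o2, q2⟩ := joint (K := J × ι) (okS F B)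
    (fun k S => AEStronglyMeasurable[P2 r Θ k.1 k.2 S] f μ)
    (fun k S S' h h' => h'.mono (P2_mono r Θ k.1 k.2 h))
    (fun k => fn (okS F B) _ (P2_mono r Θ k.1 k.2) μ (le2 F B r Θ k.1 k.2) f (hf2 k.1 k.2))
  let e : Set X → J → ι → X → ℝ := fun A s i =>
    μ[A.indicator fun _ => (1 : ℝ) | B ⊔ Oth (fun c => F.comap (Θ c)) r 0 s i]
  let Pr : Set X ⊕ Set X → Set X ⊕ Set X → Set (Set X ⊕ Set X) → Prop := fun a a' S =>
    (∀ A A', a = Sum.inl A → a' = Sum.inl A' → Sum.inl (A ∩ A') ∈ S) ∧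
    (∀ A, a = Sum.inl A → ∀ s i, AEStronglyMeasurable[P1 S] (e A s i) μ ∧
      AEStronglyMeasurable[P2 r Θ s i S] (e A s i) μ) ∧
    ∀ A, a = Sum.inr A → ∀ c, Sum.inr (Θ c ⁻¹' A) ∈ S
  have hm : ∀ a a' S S', S ⊆ S' → Pr a a' S → Pr a a' S' := by
    rintro a a' S S' h ⟨p1, p2, p3⟩
    exact ⟨fun A A' u u' => h (p1 A A' u u'), fun A u s i =>
      ⟨(p2 A u s i).1.mono (P1_mono h), (p2 A u s i).2.mono (P2_mono r Θ s i h)⟩,
      fun A u c => h (p3 A u c)⟩
  have hex : ∀ a ∈ okS F B, ∀ a' ∈ okS F B,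
      ∃ S : Set (Set X ⊕ Set X), S.Countable ∧ S ⊆ okS F B ∧ Pr a a' S := by
    intro a ha a' ha'
    rcases a with A | A
    · have hA := ha.1 A rfl
      have hab : ABM F μ (A.indicator fun _ => (1 : ℝ)) :=
        ⟨(stronglyMeasurable_const.indicator hA).aestronglyMeasurable, 1,
          Eventually.of_forall fun x => by
            by_cases hx : x ∈ A <;> simp [hx]⟩
      obtain ⟨T1, d1, u1, v1⟩ := joint (K := J × ι) (okS F B)
        (fun k S => AEStronglyMeasurable[P1 S] (e A k.1 k.2) μ)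
        (fun k S S' h h' => h'.mono (P1_mono h))
        (fun k => fn (okS F B) _ P1_mono μ (le1 F B) _ (hG.g2 k.1 k.2 _ hab))
      obtain ⟨T2, d2, u2, v2⟩ := joint (K := J × ι) (okS F B)
        (fun k S => AEStronglyMeasurable[P2 r Θ k.1 k.2 S] (e A k.1 k.2) μ)
        (fun k S S' h h' => h'.mono (P2_mono r Θ k.1 k.2 h))
        (fun k => fn (okS F B) _ (P2_mono r Θ k.1 k.2) μ (le2 F B r Θ k.1 k.2) _
          stronglyMeasurable_condExp.aestronglyMeasurable)
      have h2 : ∀ S, T1 ∪ T2 ⊆ S → ∀ A0, (Sum.inl A : Set X ⊕ Set X) = Sum.inl A0 → ∀ s i,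
          AEStronglyMeasurable[P1 S] (e A0 s i) μ ∧
            AEStronglyMeasurable[P2 r Θ s i S] (e A0 s i) μ := by
        intro S hS A0 u s i
        obtain rfl := Sum.inl_injective u
        exact ⟨(v1 (s, i)).mono (P1_mono (Set.subset_union_left.trans hS)),
          (v2 (s, i)).mono (P2_mono r Θ s i (Set.subset_union_right.trans hS))⟩
      rcases a' with A' | A'
      · refine ⟨insert (Sum.inl (A ∩ A')) (T1 ∪ T2), (d1.union d2).insert _,
          Set.insert_subset (inl_ok (hA.inter (ha'.1 A' rfl))) (Set.union_subset u1 u2), ?_,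
          h2 _ (Set.subset_insert _ _), fun _ u => absurd u Sum.inl_ne_inr⟩
        intro A0 A1 u u'
        obtain rfl := Sum.inl_injective u
        obtain rfl := Sum.inl_injective u'
        exact Set.mem_insert _ _
      · exact ⟨T1 ∪ T2, d1.union d2, Set.union_subset u1 u2,
          fun _ _ _ u => absurd u Sum.inr_ne_inl, h2 _ subset_rfl,
          fun _ u => absurd u Sum.inl_ne_inr⟩
    · refine ⟨Set.range fun c : J → ℤ => Sum.inr (Θ c ⁻¹' A), Set.countable_range _, ?_,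
        fun _ _ u => absurd u Sum.inr_ne_inl, fun _ u => absurd u Sum.inr_ne_inl, ?_⟩
      · rintro _ ⟨c, rfl⟩
        exact inr_ok (hG.B_inv c _ ⟨A, ha.2 A rfl, rfl⟩)
      · intro A0 u c
        obtain rfl := Sum.inr_injective u
        exact ⟨c, rfl⟩
  obtain ⟨S, sc, so, s0, sp⟩ := closure (okS F B) Pr hm hex
    (insert (Sum.inl Set.univ) (insert (Sum.inr Set.univ) (S1 ∪ S2)))
    (((c1.union c2).insert _).insert _)
    (Set.insert_subset (inl_ok (@MeasurableSet.univ _ F))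
      (Set.insert_subset (inr_ok (@MeasurableSet.univ _ B)) (Set.union_subset o1 o2)))
  have hu1 : (Sum.inl Set.univ : Set X ⊕ Set X) ∈ S := s0 (Set.mem_insert _ _)
  have hu2 : (Sum.inr Set.univ : Set X ⊕ Set X) ∈ S :=
    s0 (Set.mem_insert_of_mem _ (Set.mem_insert _ _))
  have h12 : S1 ∪ S2 ⊆ S :=
    ((Set.subset_insert _ _).trans (Set.subset_insert _ _)).trans s0
  obtain ⟨Sn, hSn⟩ := (sc.preimage_of_injOn (f := (Sum.inl : Set X → Set X ⊕ Set X))
    Sum.inl_injective.injOn).exists_eq_range ⟨Set.univ, hu1⟩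
  obtain ⟨Zn, hZn⟩ := (sc.preimage_of_injOn (f := (Sum.inr : Set X → Set X ⊕ Set X))
    Sum.inr_injective.injOn).exists_eq_range ⟨Set.univ, hu2⟩
  have mS : ∀ n, (Sum.inl (Sn n) : Set X ⊕ Set X) ∈ S := fun n => by
    have : Sn n ∈ Set.range Sn := ⟨n, rfl⟩
    rwa [← hSn] at this
  have mZ : ∀ n, (Sum.inr (Zn n) : Set X ⊕ Set X) ∈ S := fun n => by
    have : Zn n ∈ Set.range Zn := ⟨n, rfl⟩
    rwa [← hZn] at this
  have hT : ∀ T : Finset ℕ, (Sum.inl (⋂ n ∈ T, Sn n) : Set X ⊕ Set X) ∈ S := by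
    intro T
    induction T using Finset.induction_on with
    | empty => simpa using hu1
    | insert n T _ ih =>
      rw [Finset.set_biInter_insert]
      exact (sp _ (mS n) _ ih).1 _ _ rfl rfl
  have e1 : MeasurableSpace.generateFrom (Set.range Sn) = gS S := by rw [← hSn]; rfl
  have e2 : MeasurableSpace.generateFrom (Set.range Zn) = gZ S := by rw [← hZn]; rfl
  refine ⟨Sn, Zn, fun n => (so (mS n)).1 _ rfl, fun n => (so (mZ n)).2 _ rfl, fun c => ?_,
    fun s i T => ?_, fun s i T => ?_, f, ⟨?_, hfC⟩, fun s i => ?_, hf3, hf4⟩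
  · rw [MeasurableSpace.comap_generateFrom]
    refine MeasurableSpace.generateFrom_mono ?_
    rintro _ ⟨_, ⟨n, rfl⟩, rfl⟩
    rw [← hZn]
    exact (sp _ (mZ n) _ (mZ n)).2.2 _ rfl c
  · rw [e1, e2]
    exact ((sp _ (hT T) _ (hT T)).2.1 _ rfl s i).1
  · rw [e1, e2]
    exact ((sp _ (hT T) _ (hT T)).2.1 _ rfl s i).2
  · rw [e1, e2]
    exact q1.mono (P1_mono (Set.subset_union_left.trans h12))
  · rw [e1, e2]
    exact (q2 (s, i)).mono (P2_mono r Θ s i (Set.subset_union_right.trans h12))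

end Pool.Agent.MP_154433_an.SG

end

end MrgPart4

-- ======== part 5: formerly Pool.Agent.MP_154433_an.sg.Mod
section MrgPart5

/-! Row Mod: the concrete model of the global system. -/

set_option autoImplicit false
set_option warn.classDefReducibility false

open MeasureTheory ProbabilityTheory Filter Topology Function

noncomputable section

namespace Pool.Agent.MP_154433_an.SG

namespace ModR

variable {J ι X : Type}

open Classical in
lemma comap_w (Sn : ℕ → Set X) :
    MeasurableSpace.comap (fun (y : X) (n : ℕ) => decide (y ∈ Sn n)) inferInstance =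
      MeasurableSpace.generateFrom (Set.range Sn) := by
  refine le_antisymm (measurable_iff_comap_le.1 ?_) (MeasurableSpace.generateFrom_le ?_)
  · refine @measurable_pi_lambda _ _ _ (MeasurableSpace.generateFrom (Set.range Sn)) _ _
      fun n => ?_
    refine @measurable_to_bool _ (MeasurableSpace.generateFrom (Set.range Sn)) _ ?_
    refine MeasurableSpace.measurableSet_generateFrom ⟨n, ?_⟩
    ext y; simp
  · rintro _ ⟨n, rfl⟩
    refine ⟨(fun y : YY => y n) ⁻¹' {true}, measurable_pi_apply n (measurableSet_singleton _), ?_⟩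
    ext y; simp

lemma pc_comap (Θ : (J → ℤ) → X → X) (Sn : ℕ → Set X) (c : J → ℤ) :
    (PC c).comap (WW Θ Sn) = (MeasurableSpace.generateFrom (Set.range Sn)).comap (Θ c) := by
  rw [← comap_w, PC, MeasurableSpace.comap_comp, MeasurableSpace.comap_comp]
  rfl

lemma oth_comap [DecidableEq J] (Θ : (J → ℤ) → X → X) (Sn : ℕ → Set X) (r : ι → ℤ) (p : J → ℤ)
    (s : J) (i : ι) : (Oth PC r p s i).comap (WW Θ Sn) =
      Oth (fun c => (MeasurableSpace.generateFrom (Set.range Sn)).comap (Θ c)) r p s i := by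
  simp only [Oth, MeasurableSpace.comap_iSup, pc_comap]

lemma cy_eq (Θ : (J → ℤ) → X → X) (Sn : ℕ → Set X) (T : Finset ((J → ℤ) × ℕ)) :
    cy (WW Θ Sn) T = (⋂ p ∈ T, Θ p.1 ⁻¹' Sn p.2).indicator fun _ => (1 : ℝ) := by
  funext x
  have : WW Θ Sn x ∈ cyl T ↔ x ∈ ⋂ p ∈ T, Θ p.1 ⁻¹' Sn p.2 := by simp [cyl, WW]
  by_cases h : WW Θ Sn x ∈ cyl T
  · rw [cy, Set.indicator_of_mem h, Set.indicator_of_mem (this.1 h)]
  · rw [cy, Set.indicator_of_notMem h, Set.indicator_of_notMem (mt this.2 h)]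

lemma cy_abm (Θ : (J → ℤ) → X → X) (Sn : ℕ → Set X) (T : Finset ((J → ℤ) × ℕ))
    {m m0 : MeasurableSpace X} (μ : Measure[m0] X)
    (h : ∀ p ∈ T, MeasurableSet[m] (Θ p.1 ⁻¹' Sn p.2)) : ABM m μ (cy (WW Θ Sn) T) := by
  rw [cy_eq]
  exact ABM.indicator (@Finset.measurableSet_biInter _ _ m _ T h)

lemma cy_at (Θ : (J → ℤ) → X → X) (Sn : ℕ → Set X) (p : J → ℤ) (T : Finset ℕ) :
    cy (WW Θ Sn) (atP p T) = fun x => (⋂ n ∈ T, Sn n).indicator (fun _ => (1 : ℝ)) (Θ p x) := by
  funext x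
  have : WW Θ Sn x ∈ cyl (atP p T) ↔ Θ p x ∈ ⋂ n ∈ T, Sn n := by
    simp only [cyl, atP, Set.mem_ofPred_eq, Finset.forall_mem_map, Set.mem_iInter]
    simp [WW]
  by_cases h : WW Θ Sn x ∈ cyl (atP p T)
  · rw [cy, Set.indicator_of_mem h, Set.indicator_of_mem (this.1 h)]
  · rw [cy, Set.indicator_of_notMem h, Set.indicator_of_notMem (mt this.2 h)]

open Classical in
lemma cy_prod (W : X → Cfg J) (M : Finset ℤ) (T : ℤ → Finset ((J → ℤ) × ℕ)) :
    (fun x => ∏ m ∈ M, cy W (T m) x) = cy W (M.biUnion T) := by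
  funext x
  by_cases h : W x ∈ cyl (M.biUnion T)
  · rw [cy, Set.indicator_of_mem h]
    refine Finset.prod_eq_one fun m hm => ?_
    have : W x ∈ cyl (T m) := fun p hp => h p (Finset.mem_biUnion.2 ⟨m, hm, hp⟩)
    rw [cy, Set.indicator_of_mem this]
  · rw [cy, Set.indicator_of_notMem h]
    have : ∃ m ∈ M, W x ∉ cyl (T m) := by
      by_contra hc
      refine h fun p hp => ?_
      obtain ⟨m, hm, hp⟩ := Finset.mem_biUnion.1 hp
      by_contra hf
      exact hc ⟨m, hm, fun h' => hf (h' p hp)⟩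
    obtain ⟨m, hm, h'⟩ := this
    exact Finset.prod_eq_zero hm (by rw [cy, Set.indicator_of_notMem h'])

lemma pt_eq [DecidableEq J] (r : ι → ℤ) (p : J → ℤ) (s : J) (i k : ι) :
    pt r p s i k = pt r 0 s i k + p := by
  rw [pt, pt, zero_add, add_comm]

lemma pt_eq' [DecidableEq J] (r : ι → ℤ) (p : J → ℤ) (t : J) (j0 k : ι) :
    pt r p t j0 k = Pi.single t (r k) + (p - Pi.single t (r j0)) := by
  rw [pt, Pi.single_sub]
  abel

end ModR

open ModR in
theorem modl : ModS := by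
  intro J ι X _ _ _ _ F B Ax m0 μ _ r Θ Sn Zn hG hC
  have hSF : MeasurableSpace.generateFrom (Set.range Sn) ≤ F :=
    MeasurableSpace.generateFrom_le (by rintro _ ⟨n, rfl⟩; exact hC.mS n)
  have hcomp : ∀ c c', Θ (c + c') = Θ c ∘ Θ c' := fun c c' => funext (hG.add c c')
  have hall : ∀ T, ABM m0 μ (cy (WW Θ Sn) T) := fun T =>
    cy_abm Θ Sn T μ fun p _ => (hG.mp p.1).measurable (hG.F_le _ (hC.mS _))
  have hZB : Measurable[B] (ZZ B μ (WW Θ Sn) Zn) := by
    refine @measurable_pi_lambda _ _ _ B _ _ fun a => ?_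
    rcases a with T | n
    · exact stronglyMeasurable_condExp.measurable
    · exact (@measurable_const _ _ _ B _).indicator (hC.mZ n)
  have hco : ∀ a, Measurable[MeasurableSpace.comap (ZZ B μ (WW Θ Sn) Zn) inferInstance]
      fun x => ZZ B μ (WW Θ Sn) Zn x a := fun a =>
    (measurable_pi_apply a).comp (comap_measurable _)
  have hZZ : MeasurableSpace.generateFrom (Set.range Zn) ≤
      MeasurableSpace.comap (ZZ B μ (WW Θ Sn) Zn) inferInstance := by
    refine MeasurableSpace.generateFrom_le ?_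
    rintro _ ⟨n, rfl⟩
    have h := hco (Sum.inr n) (measurableSet_singleton (1 : ℝ))
    have e : (fun x => ZZ B μ (WW Θ Sn) Zn x (Sum.inr n)) ⁻¹' {(1 : ℝ)} = Zn n := by
      ext x
      by_cases hx : x ∈ Zn n <;> simp [ZZ, hx]
    rwa [e] at h
  have hle : MeasurableSpace.comap (ZZ B μ (WW Θ Sn) Zn) inferInstance ≤ B :=
    measurable_iff_comap_le.1 hZB
  have hmomB : ∀ T, Measurable[MeasurableSpace.comap (ZZ B μ (WW Θ Sn) Zn) inferInstance]
      (μ[cy (WW Θ Sn) T | B]) := fun T => hco (Sum.inl T)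
  have hmZ : Measurable (ZZ B μ (WW Θ Sn) Zn) := hZB.mono hG.B_le le_rfl
  have hmom0 : ∀ T, (fun x => ZZ B μ (WW Θ Sn) Zn x (Sum.inl T)) = μ[cy (WW Θ Sn) T | B] :=
    fun _ => rfl
  generalize ZZ B μ (WW Θ Sn) Zn = Z at *
  clear hco hZB
  have hQ0 : MeasurableSpace.comap Z inferInstance ≤ m0 := hle.trans hG.B_le
  have key : ∀ T, μ[cy (WW Θ Sn) T | MeasurableSpace.comap Z inferInstance] =ᵐ[μ]
      μ[cy (WW Θ Sn) T | B] := fun T =>
    (condExp_condExp_of_le hle hG.B_le).symm.trans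
      (condExp_of_aestronglyMeasurable' hQ0 (hmomB T).stronglyMeasurable.aestronglyMeasurable
        integrable_condExp)
  have hprod : ∀ (M : Finset ℤ) (T : ℤ → Finset ((J → ℤ) × ℕ)),
      (μ[fun x => ∏ m ∈ M, cy (WW Θ Sn) (T m) x | B] =ᵐ[μ]
        fun x => ∏ m ∈ M, (μ[cy (WW Θ Sn) (T m) | B]) x) →
      μ[fun x => ∏ m ∈ M, cy (WW Θ Sn) (T m) x | MeasurableSpace.comap Z inferInstance] =ᵐ[μ]
        fun x => ∏ m ∈ M, (μ[cy (WW Θ Sn) (T m) | MeasurableSpace.comap Z inferInstance]) x := by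
    intro M T h
    rw [cy_prod] at h ⊢
    refine ((key _).trans h).trans ?_
    filter_upwards [ae_all_iff.2 fun m => key (T m)] with x hx
    exact Finset.prod_congr rfl fun m _ => (hx m).symm
  have hBB : ∀ p, B ≤ B.comap (Θ p) := by
    intro p A hA
    refine ⟨Θ (-p) ⁻¹' A, hG.B_inv _ _ ⟨A, hA, rfl⟩, ?_⟩
    ext x
    simp only [Set.mem_preimage]
    rw [← hG.add, neg_add_cancel, hG.zero]
  have hBig : ∀ s i, B ⊔ Oth (fun c => F.comap (Θ c)) r 0 s i ≤ m0 := fun s i =>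
    sup_le hG.B_le (iSup₂_le fun k _ =>
      (MeasurableSpace.comap_mono hG.F_le).trans (hG.mp _).measurable.comap_le)
  have hind : ∀ T : Finset ℕ, ABM F μ ((⋂ n ∈ T, Sn n).indicator fun _ => (1 : ℝ)) := fun T =>
    ABM.indicator (@Finset.measurableSet_biInter _ _ F _ T fun n _ => hC.mS n)
  have K : ∀ (p : J → ℤ) (s : J) (i : ι) (T : Finset ℕ),
      μ[cy (WW Θ Sn) (atP p T) |
        MeasurableSpace.comap Z inferInstance ⊔ (Oth PC r p s i).comap (WW Θ Sn)] =ᵐ[μ]
        fun x => (μ[(⋂ n ∈ T, Sn n).indicator fun _ => (1 : ℝ) |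
          B ⊔ Oth (fun c => F.comap (Θ c)) r 0 s i]) (Θ p x) := by
    intro p s i T
    have l1 : MeasurableSpace.comap Z inferInstance ⊔ (Oth PC r p s i).comap (WW Θ Sn) ≤
        (B ⊔ Oth (fun c => F.comap (Θ c)) r 0 s i).comap (Θ p) := by
      rw [oth_comap]
      refine sup_le (hle.trans ((hBB p).trans (MeasurableSpace.comap_mono le_sup_left)))
        (iSup₂_le fun k hk => ?_)
      beta_reduce
      rw [pt_eq, hcomp, ← MeasurableSpace.comap_comp]
      refine MeasurableSpace.comap_mono ((MeasurableSpace.comap_mono hSF).trans ?_)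
      exact le_sup_of_le_right (le_iSup₂_of_le (f := fun k (_ : k ∈ {k | k ≠ i}) =>
        F.comap (Θ (pt r 0 s i k))) k hk le_rfl)
    have l2 : (B ⊔ Oth (fun c => F.comap (Θ c)) r 0 s i).comap (Θ p) ≤ m0 :=
      (MeasurableSpace.comap_mono (hBig s i)).trans (hG.mp p).measurable.comap_le
    have l3 : (MeasurableSpace.generateFrom (Set.range Zn) ⊔
        Oth (fun c => (MeasurableSpace.generateFrom (Set.range Sn)).comap (Θ c)) r 0 s i).comap
          (Θ p) ≤ MeasurableSpace.comap Z inferInstance ⊔ (Oth PC r p s i).comap (WW Θ Sn) := by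
      rw [oth_comap, MeasurableSpace.comap_sup]
      refine sup_le_sup ((hC.inv p).trans hZZ) ?_
      simp only [Oth, MeasurableSpace.comap_iSup]
      refine iSup₂_mono fun k _ => ?_
      rw [pt_eq r p, hcomp, MeasurableSpace.comap_comp]
    have c1 := condExp_comp_mp (hG.mp p) (hBig s i) ((hind T).integrable hG.F_le)
    rw [cy_at]
    refine (condExp_condExp_of_le l1 l2).symm.trans ((condExp_congr_ae c1).trans ?_)
    exact condExp_of_aestronglyMeasurable' (l1.trans l2) (aesm_comp (hG.mp p) l3 (hC.k2 s i T))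
      ((hG.mp p).integrable_comp_of_integrable integrable_condExp)
  refine ⟨?_, hmZ, fun T => ?_, fun t M hM T hT => hprod M T (hG.g1 t M hM _ fun m hm => ?_),
    fun M T => hprod M _ (hG.g1d M _ fun m _ => ?_), fun p s i T => ?_,
    fun p t s j0 i j j' T ψ hψ => ?_, ?_⟩
  · refine measurable_pi_lambda _ fun c => ?_
    have h : Measurable[(PC c).comap (WW Θ Sn)] fun x => WW Θ Sn x c :=
      (comap_measurable (fun ω : Cfg J => ω c)).comp (comap_measurable _)
    rw [pc_comap] at h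
    exact h.mono ((MeasurableSpace.comap_mono (hSF.trans hG.F_le)).trans
      (hG.mp c).measurable.comap_le) le_rfl
  · rw [hmom0]
    exact (key T).symm
  · refine cy_abm Θ Sn _ μ fun p hp => ?_
    have h : F.comap (Θ p.1) ≤ Slice (fun c => F.comap (Θ c)) t m :=
      le_iSup₂_of_le (f := fun c (_ : c ∈ {c : J → ℤ | c t = m}) => F.comap (Θ c)) p.1
        (hT m hm p hp) le_rfl
    exact h _ ⟨_, hC.mS _, rfl⟩
  · rw [cy_at]
    exact (hind _).comp (hG.mp _) le_rfl
  · refine (aesm_comp (hG.mp p) ?_ (hC.k1 s i T)).congr (K p s i T).symm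
    rw [MeasurableSpace.comap_sup, pc_comap, sup_comm]
    exact sup_le_sup ((hC.inv p).trans hZZ) le_rfl
  · have hψ' : ABM B μ fun x => ψ (Θ (-(p - Pi.single t (r j0))) x) :=
      (hψ.mono hle).comp (hG.mp _) (hG.B_inv _)
    have red : ∀ j : ι, ∫ x, ψ x * ((μ[cy (WW Θ Sn) (atP (pt r p t j0 j) (T j)) |
          MeasurableSpace.comap Z inferInstance ⊔
            (Oth PC r (pt r p t j0 j) s i).comap (WW Θ Sn)]) x *
          ∏ k ∈ Finset.univ.erase j, cy (WW Θ Sn) (atP (pt r p t j0 k) (T k)) x) ∂μ =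
        ∫ x, ψ (Θ (-(p - Pi.single t (r j0))) x) *
          ((μ[(⋂ n ∈ T j, Sn n).indicator fun _ => (1 : ℝ) |
            B ⊔ Oth (fun c => F.comap (Θ c)) r 0 s i]) (Θ (Pi.single t (r j)) x) *
          ∏ k ∈ Finset.univ.erase j, (⋂ n ∈ T k, Sn n).indicator (fun _ => (1 : ℝ))
            (Θ (Pi.single t (r k)) x)) ∂μ := by
      intro j
      have hA : ABM m0 μ fun x => ψ (Θ (-(p - Pi.single t (r j0))) x) *
          ((μ[(⋂ n ∈ T j, Sn n).indicator fun _ => (1 : ℝ) |
            B ⊔ Oth (fun c => F.comap (Θ c)) r 0 s i]) (Θ (Pi.single t (r j)) x) *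
          ∏ k ∈ Finset.univ.erase j, (⋂ n ∈ T k, Sn n).indicator (fun _ => (1 : ℝ))
            (Θ (Pi.single t (r k)) x)) :=
        (hψ'.mono hG.B_le).mul
          (((((hind _).condExp _).mono (hBig s i)).comp (hG.mp _) (hG.mp _).measurable.comap_le).mul
            (ABM.prod _ fun k _ =>
              ((hind _).mono hG.F_le).comp (hG.mp _) (hG.mp _).measurable.comap_le))
      rw [← integral_comp_mp (hG.mp (p - Pi.single t (r j0))) hA.1]
      refine integral_congr_ae ?_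
      filter_upwards [K (pt r p t j0 j) s i (T j)] with x hx
      rw [hx]
      simp only [cy_at, ← hG.add, neg_add_cancel, hG.zero, ← pt_eq']
    rw [red j, red j']
    exact hG.g3 t s i j j' (fun k => (⋂ n ∈ T k, Sn n).indicator fun _ => (1 : ℝ)) _
      (fun k => hind _) hψ'
  · obtain ⟨f, h1, h2, h3, h4⟩ := hC.k4
    refine ⟨f, h1.mono ?_, fun s i => (h2 s i).mono ?_, h3.mono hle, h4⟩
    · rw [pc_comap, show Θ 0 = id from funext hG.zero, MeasurableSpace.comap_id, sup_comm]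
      exact sup_le_sup hZZ le_rfl
    · rw [oth_comap]
      exact sup_le_sup hZZ le_rfl

end Pool.Agent.MP_154433_an.SG

end

end MrgPart5

-- ======== part 6: formerly Pool.Agent.MP_154433_an.sg.FC
section MrgPart6

/-! Row FC: conditional distributions, factorisation and fibrewise conditional expectations. -/

set_option autoImplicit false
set_option linter.unusedVariables false

open MeasureTheory ProbabilityTheory Filter Topology Function

noncomputable section

namespace Pool.Agent.MP_154433_an.SG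

namespace FC

theorem int_of_bdd {X : Type} [MeasurableSpace X] (μ : Measure X) [IsFiniteMeasure μ]
    (f : X → ℝ) (hf : Measurable f) (C : ℝ) (hC : ∀ x, |f x| ≤ C) : Integrable f μ :=
  Integrable.of_bound hf.aestronglyMeasurable C
    (ae_of_all _ fun x => by simpa [Real.norm_eq_abs] using hC x)

theorem zero_of_sets {X Ω Zs : Type} [MeasurableSpace X] [MeasurableSpace Ω]
    [StandardBorelSpace Ω] [Nonempty Ω] [MeasurableSpace Zs]
    (μ : Measure X) [IsProbabilityMeasure μ] (W : X → Ω) (Z : X → Zs) (hW : Measurable W)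
    (hZ : Measurable Z) (h : Zs × Ω → ℝ) (hh : Measurable h) (C : ℝ) (hC : ∀ p, |h p| ≤ C)
    (h0 : ∀ t : Set Zs, MeasurableSet t → ∫ x in Z ⁻¹' t, h (Z x, W x) ∂μ = 0) :
    ∀ᵐ z ∂μ.map Z, ∫ ω, h (z, ω) ∂condDistrib W Z μ z = 0 := by
  have hi : Integrable (fun x => h (Z x, W x)) μ :=
    int_of_bdd μ _ (hh.comp (hZ.prodMk hW)) C fun x => hC _
  have h1 := condExp_prod_ae_eq_integral_condDistrib (μ := μ) hZ hW.aemeasurable
    hh.stronglyMeasurable hi
  have h2 : (fun _ : X => (0 : ℝ)) =ᵐ[μ]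
      μ[fun x => h (Z x, W x) | MeasurableSpace.comap Z inferInstance] := by
    refine ae_eq_condExp_of_forall_setIntegral_eq hZ.comap_le hi
      (fun s _ _ => (integrable_const (0 : ℝ)).integrableOn) ?_ aestronglyMeasurable_const
    rintro s ⟨t, ht, rfl⟩ _
    rw [h0 t ht]
    simp
  have hg : Measurable fun z => ∫ ω, h (z, ω) ∂condDistrib W Z μ z :=
    (hh.stronglyMeasurable.integral_condDistrib).measurable
  refine (ae_map_iff hZ.aemeasurable (measurableSet_eq_fun hg measurable_const)).2 ?_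
  filter_upwards [h1, h2] with x hx1 hx2
  rw [← hx1, ← hx2]

theorem eq_of_alg {Ω : Type} (Q : MeasurableSpace Ω) [m1 : MeasurableSpace Ω] (hQ : Q ≤ m1)
    (κ : Measure Ω) (𝒜 : Set (Set Ω)) (hA : IsSetAlgebra 𝒜)
    (hgen : Q = MeasurableSpace.generateFrom 𝒜) (f : Ω → ℝ) (hf : Integrable f κ)
    (h0 : ∀ A ∈ 𝒜, ∫ ω in A, f ω ∂κ = 0) :
    ∀ A, MeasurableSet[Q] A → ∫ ω in A, f ω ∂κ = 0 := by
  have hpi : IsPiSystem 𝒜 := fun s hs t ht _ => hA.inter_mem hs ht
  have huniv : ∫ ω, f ω ∂κ = 0 := by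
    have := h0 _ hA.univ_mem
    rwa [Measure.restrict_univ] at this
  refine @MeasurableSpace.induction_on_inter Ω Q (fun A _ => ∫ ω in A, f ω ∂κ = 0) 𝒜 hgen hpi
    (by simp) (fun t ht => h0 t ht) ?_ ?_
  · intro t ht h1
    have := integral_add_compl (hQ t ht) hf
    rw [h1, huniv] at this
    simpa using this
  · intro g hd hm h1
    rw [integral_iUnion (fun i => hQ _ (hm i)) hd hf.integrableOn]
    simp [h1]

end FC

theorem fc : FCS := by
  intro X Ω Zs Q mX m1 _ _ mZ μ _ W Z hW hZ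
  refine ⟨?_, ?_, ?_⟩
  · rintro h hh ⟨C, hC⟩ h0
    refine FC.zero_of_sets μ W Z hW hZ h hh C hC fun t ht => ?_
    have hs : MeasurableSet[MeasurableSpace.comap Z inferInstance] (Z ⁻¹' t) := ⟨t, ht, rfl⟩
    have h1 := h0 ((Z ⁻¹' t).indicator fun _ => (1 : ℝ))
      ⟨(stronglyMeasurable_const.indicator hs).aestronglyMeasurable, 1,
        ae_of_all _ fun x => by
          by_cases hx : x ∈ Z ⁻¹' t <;> simp [Set.indicator, hx]⟩
    rw [← integral_indicator (hZ ht), ← h1]
    refine integral_congr_ae (ae_of_all _ fun x => ?_)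
    by_cases hx : x ∈ Z ⁻¹' t <;> simp [Set.indicator, hx]
  · rintro hQ q ⟨hq, C, hC⟩
    have e : MeasurableSpace.comap Z inferInstance ⊔ Q.comap W =
        (mZ.prod Q).comap (fun x => (Z x, W x)) :=
      (MeasurableSpace.comap_prodMk Z W).symm
    have hm : StronglyMeasurable[(mZ.prod Q).comap (fun x => (Z x, W x))] (hq.mk q) := by
      rw [← e]; exact hq.stronglyMeasurable_mk
    obtain ⟨h0, mh0, hh0⟩ :=
      @StronglyMeasurable.exists_eq_measurable_comp X (Zs × Ω) ℝ (mZ.prod Q)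
        (fun x => (Z x, W x)) (hq.mk q) _ _ _ hm
    have mh1 : Measurable[mZ.prod Q] h0 := mh0.measurable
    have mh2 : Measurable[mZ.prod Q] fun p => max (-C) (min C (h0 p)) :=
      @Measurable.max ℝ (Zs × Ω) _ _ _ (mZ.prod Q) _ _ _ _ _ measurable_const
        (@Measurable.min ℝ (Zs × Ω) _ _ _ (mZ.prod Q) _ _ _ _ _ measurable_const mh1)
    have hle : mZ.prod Q ≤ mZ.prod m1 :=
      sup_le_sup le_rfl (MeasurableSpace.comap_mono hQ)
    refine ⟨fun p => max (-C) (min C (h0 p)), mh2.mono hle le_rfl, ⟨|C|, fun p => ?_⟩,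
      fun z => ?_, ?_⟩
    · rw [abs_le]
      refine ⟨le_trans (neg_le_neg (le_abs_self C)) (le_max_left _ _), max_le (neg_le_abs C) ?_⟩
      exact le_trans (min_le_left _ _) (le_abs_self C)
    · exact mh2.comp (@measurable_prodMk_left Zs Ω mZ Q z)
    · filter_upwards [hq.ae_eq_mk, hC] with x hx1 hx2
      have h3 : h0 (Z x, W x) = q x := by rw [hx1, hh0]; rfl
      rw [Real.norm_eq_abs, abs_le] at hx2
      simp only [h3]
      rw [min_eq_right hx2.2, max_eq_right hx2.1]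
  · rintro hQ hcg a h ha ⟨Ca, hCa⟩ hh ⟨Ch, hCh⟩ hhQ hE
    set 𝒜 : Set (Set Ω) := generateSetAlgebra (@MeasurableSpace.countableGeneratingSet Ω Q hcg)
      with h𝒜
    have hcount : 𝒜.Countable :=
      countable_generateSetAlgebra (@MeasurableSpace.countable_countableGeneratingSet Ω Q hcg)
    have hgen : Q = MeasurableSpace.generateFrom 𝒜 := by
      rw [h𝒜, generateFrom_generateSetAlgebra_eq,
        @MeasurableSpace.generateFrom_countableGeneratingSet Ω Q hcg]
    have hAQ : ∀ A ∈ 𝒜, MeasurableSet[Q] A := fun A hA => by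
      rw [hgen]; exact MeasurableSpace.measurableSet_generateFrom hA
    have hle : MeasurableSpace.comap Z inferInstance ⊔ Q.comap W ≤ mX :=
      sup_le hZ.comap_le ((MeasurableSpace.comap_mono hQ).trans hW.comap_le)
    have hia : Integrable (fun x => a (Z x, W x)) μ :=
      FC.int_of_bdd μ _ (ha.comp (hZ.prodMk hW)) Ca fun x => hCa _
    have hih : Integrable (fun x => h (Z x, W x)) μ :=
      FC.int_of_bdd μ _ (hh.comp (hZ.prodMk hW)) Ch fun x => hCh _
    have key : ∀ A ∈ 𝒜, ∀ᵐ z ∂μ.map Z,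
        ∫ ω in A, (a (z, ω) - h (z, ω)) ∂condDistrib W Z μ z = 0 := by
      intro A hA
      have hA1 : MeasurableSet A := hQ A (hAQ A hA)
      have h1 := FC.zero_of_sets μ W Z hW hZ
        ((Prod.snd ⁻¹' A).indicator fun p => a p - h p)
        ((ha.sub hh).indicator (measurable_snd hA1)) (|Ca| + |Ch|)
        (fun p => by
          by_cases hp : p ∈ Prod.snd ⁻¹' A
          · rw [Set.indicator_of_mem hp]
            exact (abs_sub _ _).trans
              (add_le_add ((hCa p).trans (le_abs_self _)) ((hCh p).trans (le_abs_self _)))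
          · rw [Set.indicator_of_notMem hp, abs_zero]
            positivity)
        (fun t ht => by
          have hs : MeasurableSet[MeasurableSpace.comap Z inferInstance ⊔ Q.comap W]
              (W ⁻¹' A ∩ Z ⁻¹' t) :=
            MeasurableSet.inter
              ((le_sup_right : Q.comap W ≤ MeasurableSpace.comap Z inferInstance ⊔ Q.comap W) _
                ⟨A, hAQ A hA, rfl⟩)
              ((le_sup_left : MeasurableSpace.comap Z inferInstance ≤
                MeasurableSpace.comap Z inferInstance ⊔ Q.comap W) _ ⟨t, ht, rfl⟩)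
          have e1 : (fun x => (Prod.snd ⁻¹' A).indicator (fun p => a p - h p) (Z x, W x)) =
              (W ⁻¹' A).indicator fun x => a (Z x, W x) - h (Z x, W x) := by
            funext x
            by_cases hx : W x ∈ A <;> simp [Set.indicator, hx]
          rw [e1, integral_indicator (hW hA1), Measure.restrict_restrict (hW hA1),
            integral_sub hia.integrableOn hih.integrableOn, ← setIntegral_condExp hle hia hs,
            integral_congr_ae (ae_restrict_of_ae hE), sub_self])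
      filter_upwards [h1] with z hz
      rw [← integral_indicator hA1, ← hz]
      refine integral_congr_ae (ae_of_all _ fun ω => ?_)
      by_cases hx : ω ∈ A <;> simp [Set.indicator, hx]
    filter_upwards [(ae_ball_iff hcount).2 key] with z hz
    have hia' : Integrable (fun ω => a (z, ω)) (condDistrib W Z μ z) :=
      FC.int_of_bdd _ _ (ha.comp measurable_prodMk_left) Ca fun x => hCa _
    have hih' : Integrable (fun ω => h (z, ω)) (condDistrib W Z μ z) :=
      FC.int_of_bdd _ _ (hh.comp measurable_prodMk_left) Ch fun x => hCh _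
    have h2 := FC.eq_of_alg Q hQ (condDistrib W Z μ z) 𝒜 isSetAlgebra_generateSetAlgebra hgen
      (fun ω => a (z, ω) - h (z, ω)) (hia'.sub hih') hz
    refine (ae_eq_condExp_of_forall_setIntegral_eq hQ hia' (fun s _ _ => hih'.integrableOn)
      (fun s hs _ => ?_) (hhQ z).stronglyMeasurable.aestronglyMeasurable).symm
    have h3 := h2 s hs
    rw [integral_sub hia'.integrableOn hih'.integrableOn] at h3
    linarith

end Pool.Agent.MP_154433_an.SG

end
end MrgPart6

-- ======== part 7: formerly Pool.Agent.MP_154433_an.sg.Fb1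
section MrgPart7

/-! Row Fb1: moments of the fibres and independence of slices and of diagonal points. -/

set_option autoImplicit false

open MeasureTheory ProbabilityTheory Filter Function

namespace Pool.Agent.MP_154433_an.SG

namespace Fb1

variable {J : Type} [Fintype J] [DecidableEq J]

omit [Fintype J] [DecidableEq J] in
lemma meas_cyl (m : MeasurableSpace (Cfg J)) (F : Finset ((J → ℤ) × ℕ))
    (h : ∀ p ∈ F, Fib27.P YY p.1 ≤ m) : MeasurableSet[m] (cyl F) := by
  have e : cyl F = ⋂ p ∈ F, {ω : Cfg J | ω p.1 p.2 = true} := by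
    ext ω; simp [cyl]
  rw [e]
  refine Finset.measurableSet_biInter F fun p hp => h p hp _ ?_
  exact ⟨(fun y : YY => y p.2) ⁻¹' {true}, measurable_pi_apply p.2 (measurableSet_singleton _), rfl⟩

omit [Fintype J] [DecidableEq J] in
lemma P_le (c : J → ℤ) : Fib27.P YY c ≤ (inferInstance : MeasurableSpace (Cfg J)) :=
  (measurable_pi_apply c).comap_le

omit [DecidableEq J] in
lemma cyl_biUnion {ι : Type} (s : Finset ι) (F : ι → Finset ((J → ℤ) × ℕ)) :
    cyl (s.biUnion F) = ⋂ i ∈ s, cyl (F i) := by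
  ext ω
  simp only [cyl, Set.mem_ofPred_eq, Finset.mem_biUnion, Set.mem_iInter]
  exact ⟨fun h i hi p hp => h p ⟨i, hi, hp⟩, fun h p ⟨i, hi, hp⟩ => h i hi p hp⟩

omit [DecidableEq J] in
lemma indep {ι : Type} (e : ι → ℤ) (he : Injective e) (T : ℤ → Set (J → ℤ))
    (κ : Measure (Cfg J)) [IsProbabilityMeasure κ]
    (h : ∀ s : Finset ι, ∀ F : ℤ → Finset ((J → ℤ) × ℕ),
      (∀ m ∈ s.map ⟨e, he⟩, ∀ p ∈ F m, p.1 ∈ T m) →
      κ.real (cyl ((s.map ⟨e, he⟩).biUnion F)) = ∏ m ∈ s.map ⟨e, he⟩, κ.real (cyl (F m))) :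
    iIndep (fun i => ⨆ c ∈ T (e i), Fib27.P YY c) κ := by
  classical
  refine iIndepSets.iIndep (fun i => iSup₂_le fun c _ => P_le c)
    (fun i => {A | ∃ F : Finset ((J → ℤ) × ℕ), (∀ p ∈ F, p.1 ∈ T (e i)) ∧ A = cyl F})
    (fun i => ?_) (fun i => le_antisymm (iSup₂_le fun c hc => ?_) ?_) ?_
  · rintro _ ⟨F, hF, rfl⟩ _ ⟨F', hF', rfl⟩ -
    refine ⟨F ∪ F', fun p hp => (Finset.mem_union.1 hp).elim (hF p) (hF' p), ?_⟩
    ext ω
    simp only [cyl, Set.mem_inter_iff, Set.mem_ofPred_eq, Finset.mem_union]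
    exact ⟨fun h p hp => hp.elim (h.1 p) (h.2 p),
      fun h => ⟨fun p hp => h p (Or.inl hp), fun p hp => h p (Or.inr hp)⟩⟩
  · refine Measurable.comap_le (@measurable_pi_lambda _ _ _ (_) _ _ fun n => ?_)
    refine @measurable_to_bool _ (_) _ (MeasurableSpace.measurableSet_generateFrom
      ⟨{(c, n)}, by simpa using hc, ?_⟩)
    ext ω
    simp [cyl]
  · refine MeasurableSpace.generateFrom_le ?_
    rintro _ ⟨F, hF, rfl⟩
    exact meas_cyl _ F fun p hp => le_iSup₂_of_le p.1 (hF p hp) le_rfl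
  · rw [iIndepSets_iff]
    intro s f hf
    have : ∀ m : ℤ, ∃ F : Finset ((J → ℤ) × ℕ), ∀ i ∈ s, e i = m →
        (∀ p ∈ F, p.1 ∈ T (e i)) ∧ f i = cyl F := by
      intro m
      by_cases hm : ∃ i ∈ s, e i = m
      · obtain ⟨i, hi, rfl⟩ := hm
        obtain ⟨F, hF⟩ := hf i hi
        exact ⟨F, fun j _ hj => he hj ▸ hF⟩
      · exact ⟨∅, fun i hi hh => absurd ⟨i, hi, hh⟩ hm⟩
    choose F hF using this
    have k := h s F (by
      intro m hm
      obtain ⟨i, hi, rfl⟩ := Finset.mem_map.1 hm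
      exact (hF _ i hi rfl).1)
    rw [cyl_biUnion, Finset.prod_map] at k
    have e1 : (⋂ m ∈ s.map ⟨e, he⟩, cyl (F m)) = ⋂ i ∈ s, f i := by
      ext ω
      simp only [Set.mem_iInter, Finset.mem_map, Embedding.coeFn_mk]
      exact ⟨fun h i hi => (hF _ i hi rfl).2 ▸ h _ ⟨i, hi, rfl⟩,
        fun h m ⟨i, hi, hm⟩ => (hF m i hi hm).2 ▸ h i hi⟩
    rw [e1, Finset.prod_congr rfl fun i hi => by
      rw [Embedding.coeFn_mk, ← (hF _ i hi rfl).2]] at k
    rw [← ENNReal.toReal_eq_toReal_iff' (measure_ne_top _ _)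
      (ENNReal.prod_ne_top fun i _ => measure_ne_top _ _), ENNReal.toReal_prod]
    exact k

omit [DecidableEq J] in
lemma ae_all (ν : Measure (Zsp J)) (s : Finset ℤ) (T : ℤ → Set (J → ℤ))
    (h : ∀ F : ℤ → Finset ((J → ℤ) × ℕ), (∀ m ∈ s, ∀ p ∈ F m, p.1 ∈ T m) →
      ∀ᵐ z ∂ν, z (Sum.inl (s.biUnion F)) = ∏ m ∈ s, z (Sum.inl (F m))) :
    ∀ᵐ z ∂ν, ∀ F : ℤ → Finset ((J → ℤ) × ℕ), (∀ m ∈ s, ∀ p ∈ F m, p.1 ∈ T m) →
      z (Sum.inl (s.biUnion F)) = ∏ m ∈ s, z (Sum.inl (F m)) := by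
  have k : ∀ᵐ z ∂ν, ∀ G : s → Finset ((J → ℤ) × ℕ), (∀ m : s, ∀ p ∈ G m, p.1 ∈ T m) →
      z (Sum.inl (s.biUnion fun m => if hm : m ∈ s then G ⟨m, hm⟩ else ∅)) =
        ∏ m ∈ s, z (Sum.inl (if hm : m ∈ s then G ⟨m, hm⟩ else ∅)) := by
    rw [ae_all_iff]
    intro G
    by_cases hG : ∀ m : s, ∀ p ∈ G m, p.1 ∈ T m
    · filter_upwards [h (fun m => if hm : m ∈ s then G ⟨m, hm⟩ else ∅) (fun m hm p hp => by
        simp only [hm, dif_pos] at hp
        exact hG ⟨m, hm⟩ p hp)] with z hz _ using hz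
    · exact Eventually.of_forall fun z hh => absurd hh hG
  filter_upwards [k] with z hz F hF
  have := hz (fun m => F m) fun m => hF m m.2
  rwa [Finset.biUnion_congr rfl (t₂ := F) (fun m hm => by simp [hm]),
    Finset.prod_congr rfl (g := fun m => z (Sum.inl (F m))) (fun m hm => by simp [hm])] at this

lemma mom_prod {X ι : Type} [Fintype ι] [DecidableEq ι] [MeasurableSpace X] {μ : Measure X}
    {r : ι → ℤ} {W : X → Cfg J} {Z : X → Zsp J} (h : Mod μ r W Z) (s : Finset ℤ)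
    (F : ℤ → Finset ((J → ℤ) × ℕ))
    (hF : μ[fun x => ∏ m ∈ s, cy W (F m) x | MeasurableSpace.comap Z inferInstance] =ᵐ[μ]
      fun x => ∏ m ∈ s, (μ[cy W (F m) | MeasurableSpace.comap Z inferInstance]) x) :
    ∀ᵐ z ∂μ.map Z, z (Sum.inl (s.biUnion F)) = ∏ m ∈ s, z (Sum.inl (F m)) := by
  rw [ae_map_iff h.mZ.aemeasurable (measurableSet_eq_fun (measurable_pi_apply _)
    (Finset.measurable_prod _ fun m _ => measurable_pi_apply _))]
  have e : cy W (s.biUnion F) = fun x => ∏ m ∈ s, cy W (F m) x := by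
    funext x
    simp only [cy, cyl_biUnion]
    by_cases hx : W x ∈ ⋂ m ∈ s, cyl (F m)
    · rw [Set.indicator_of_mem hx, Finset.prod_eq_one fun m hm =>
        Set.indicator_of_mem (Set.mem_iInter₂.1 hx m hm) _]
    · rw [Set.indicator_of_notMem hx]
      simp only [Set.mem_iInter, not_forall] at hx
      obtain ⟨m, hm, hx⟩ := hx
      exact (Finset.prod_eq_zero hm (Set.indicator_of_notMem hx _)).symm
  have k := h.mom (s.biUnion F)
  rw [e] at k
  filter_upwards [k, hF, ae_all_iff.2 fun m => h.mom (F m)] with x h1 h2 h3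
  rw [h1, h2]
  exact Finset.prod_congr rfl fun m _ => (h3 m).symm

end Fb1

open Fb1 in
theorem fb1 (_h : FCS) : Fb1S := by
  intro J X _ _ l _ μ _ r W Z h
  have h0 : ∀ᵐ z ∂μ.map Z, ∀ F, (condDistrib W Z μ z).real (cyl F) = z (Sum.inl F) := by
    rw [ae_all_iff]
    intro F
    have mc : MeasurableSet (cyl F) := meas_cyl _ F fun p _ => P_le p.1
    refine (ae_map_iff h.mZ.aemeasurable (measurableSet_eq_fun
      ((condDistrib W Z μ).measurable_coe mc).ennreal_toReal (measurable_pi_apply _))).2 ?_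
    filter_upwards [condDistrib_ae_eq_condExp (μ := μ) h.mZ h.mW mc, h.mom F] with x h1 h2
    rw [h2]
    exact h1
  have h1 : ∀ᵐ z ∂μ.map Z, ∀ (t : J) (s : Finset ℤ), s.card ≤ l →
      ∀ F : ℤ → Finset ((J → ℤ) × ℕ), (∀ m ∈ s, ∀ p ∈ F m, p.1 ∈ {c : J → ℤ | c t = m}) →
        z (Sum.inl (s.biUnion F)) = ∏ m ∈ s, z (Sum.inl (F m)) := by
    simp only [ae_all_iff]
    intro t s hs
    exact ae_all _ s (fun m => {c : J → ℤ | c t = m}) fun F hF =>
      mom_prod h s F (h.m1 t s (by simpa using Nat.lt_succ_of_le hs) F hF)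
  have h2 : ∀ᵐ z ∂μ.map Z, ∀ (s : Finset ℤ) (F : ℤ → Finset ((J → ℤ) × ℕ)),
      (∀ m ∈ s, ∀ p ∈ F m, p.1 ∈ ({fun _ => m} : Set (J → ℤ))) →
        z (Sum.inl (s.biUnion F)) = ∏ m ∈ s, z (Sum.inl (F m)) := by
    rw [ae_all_iff]
    intro s
    refine ae_all _ s (fun m => {fun _ => m}) fun F hF => mom_prod h s F ?_
    have e : ∀ m ∈ s, atP (fun _ : J => m) ((F m).image Prod.snd) = F m := by
      intro m hm
      ext p
      simp only [atP, Finset.mem_map, Finset.mem_image]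
      constructor
      · rintro ⟨_, ⟨q, hq, rfl⟩, rfl⟩
        have : q.1 = fun _ => m := hF m hm q hq
        rw [← this]
        exact hq
      · intro hp
        have : p.1 = fun _ => m := hF m hm p hp
        exact ⟨p.2, ⟨p, hp, rfl⟩, Prod.ext this.symm rfl⟩
    have k := h.m1d s fun m => (F m).image Prod.snd
    have e1 : (fun x => ∏ m ∈ s, cy W (atP (fun _ : J => m) ((F m).image Prod.snd)) x) =
        fun x => ∏ m ∈ s, cy W (F m) x :=
      funext fun x => Finset.prod_congr rfl fun m hm => by rw [e m hm]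
    rw [e1] at k
    filter_upwards [k] with x hx
    rw [hx]
    exact Finset.prod_congr rfl fun m hm => by rw [e m hm]
  filter_upwards [h0, h1, h2] with z k0 k1 k2
  refine ⟨k0, fun t M hM => ?_, ?_⟩
  · refine indep (fun k : M => (k : ℤ)) Subtype.val_injective (fun m => {c : J → ℤ | c t = m}) _
      fun s F hF => ?_
    simp only [k0]
    refine k1 t _ ?_ F hF
    rw [Finset.card_map]
    exact (Finset.card_le_univ s).trans (by simpa using hM)
  · have := indep id injective_id (fun m => ({fun _ => m} : Set (J → ℤ)))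
      (condDistrib W Z μ z) fun s F hF => by
        simp only [k0]
        exact k2 _ F hF
    simpa using this

end Pool.Agent.MP_154433_an.SG

end MrgPart7

-- ======== part 8: formerly Pool.Agent.MP_154433_an.sg.Fb2
section MrgPart8

/-! Properties F2 and F4 of the fibres. -/

set_option autoImplicit false

open MeasureTheory ProbabilityTheory Filter Function

namespace Pool.Agent.MP_154433_an.SG

namespace Fb2

section general

variable {Ω : Type} {P O : MeasurableSpace Ω} {m : MeasurableSpace Ω} {ν : Measure Ω}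
  [IsProbabilityMeasure ν]

theorem pull (hP : P ≤ m) {a b : Ω → ℝ} (ha : AEStronglyMeasurable[P] a ν) (ha2 : MemLp a 2 ν)
    (hb : MemLp b 2 ν) : ∫ ω, a ω * b ω ∂ν = ∫ ω, a ω * (ν[b | P]) ω ∂ν :=
  (integral_condExp (f := a * b) hP).symm.trans (integral_congr_ae
    (condExp_mul_of_aestronglyMeasurable_left ha (ha2.integrable_mul hb)
      (hb.integrable one_le_two)))

theorem adj (hO : O ≤ m) {a b : Ω → ℝ} (ha : MemLp a 2 ν) (hb : MemLp b 2 ν) :
    ∫ ω, (ν[a | O]) ω * b ω ∂ν = ∫ ω, a ω * (ν[b | O]) ω ∂ν := by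
  rw [pull hO stronglyMeasurable_condExp.aestronglyMeasurable (ha.condExp one_le_two) hb]
  simp only [mul_comm (a _)]
  rw [pull hO stronglyMeasurable_condExp.aestronglyMeasurable (hb.condExp one_le_two) ha]
  simp only [mul_comm]

theorem zero_of_pi (hP : P ≤ m) {C : Set (Set Ω)} (hC : IsPiSystem C)
    (hg : P = MeasurableSpace.generateFrom C) (hu : Set.univ ∈ C) {H : Ω → ℝ}
    (hH : Integrable H ν) (h : ∀ S ∈ C, ∫ ω in S, H ω ∂ν = 0) : ν[H | P] =ᵐ[ν] 0 := by
  have h0 : ∫ ω, H ω ∂ν = 0 := by simpa using h _ hu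
  have key : ∀ S, MeasurableSet[P] S → ∫ ω in S, H ω ∂ν = 0 := by
    refine MeasurableSpace.induction_on_inter (m := P)
      (C := fun S _ => ∫ ω in S, H ω ∂ν = 0) hg hC (by simp) h (fun S hS e => ?_)
      fun f hd hf e => ?_
    · have := integral_add_compl (hP _ hS) hH
      linarith
    · rw [integral_iUnion (fun i => hP _ (hf i)) hd hH.integrableOn]
      simp [e]
  exact (ae_eq_condExp_of_forall_setIntegral_eq hP hH (fun _ _ _ => integrableOn_zero)
    (fun S hS _ => by simp [key S hS]) aestronglyMeasurable_zero).symm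

/-- from a generating family of sets to all square integrable functions -/
theorem ext_pi (hP : P ≤ m) (hO : O ≤ m) {C : Set (Set Ω)} (hC : IsPiSystem C)
    (hg : P = MeasurableSpace.generateFrom C) (hu : Set.univ ∈ C)
    (h : ∀ S ∈ C, AEStronglyMeasurable[P] (ν[S.indicator fun _ => (1 : ℝ) | O]) ν)
    {g : Ω → ℝ} (hm : AEStronglyMeasurable[P] g ν) (h2 : MemLp g 2 ν) :
    AEStronglyMeasurable[P] (ν[g | O]) ν := by
  have u2 : MemLp (ν[g | O]) 2 ν := h2.condExp one_le_two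
  have v2 : MemLp (ν[ν[g | O] | P]) 2 ν := u2.condExp one_le_two
  obtain ⟨φ, eφ⟩ : ∃ φ, φ = ν[g | O] - ν[ν[g | O] | P] := ⟨_, rfl⟩
  have p2 : MemLp φ 2 ν := eφ ▸ u2.sub v2
  have p0 : ν[φ | P] =ᵐ[ν] 0 := by
    rw [eφ]
    filter_upwards [condExp_sub (μ := ν) (f := ν[g | O]) (g := ν[ν[g | O] | P])
      integrable_condExp integrable_condExp P,
      condExp_condExp_of_le (μ := ν) (f := ν[g | O]) (le_refl P) hP] with ω e1 e2
    rw [e1, Pi.sub_apply, e2, sub_self, Pi.zero_apply]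
  have orth : ∀ {a b : Ω → ℝ}, AEStronglyMeasurable[P] a ν → MemLp a 2 ν → MemLp b 2 ν →
      ν[b | P] =ᵐ[ν] 0 → ∫ ω, a ω * b ω ∂ν = 0 := fun ha ha2 hb e => by
    rw [pull hP ha ha2 hb]
    refine integral_eq_zero_of_ae ?_
    filter_upwards [e] with ω e
    simp [e]
  have H0 : ν[ν[φ | O] | P] =ᵐ[ν] 0 := by
    refine zero_of_pi hP hC hg hu integrable_condExp fun S hS => ?_
    have mS : MeasurableSet[m] S := hP _ (hg ▸ MeasurableSpace.measurableSet_generateFrom hS)
    have s2 : MemLp (S.indicator fun _ => (1 : ℝ)) 2 ν := (memLp_const 1).indicator mS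
    rw [← integral_indicator mS, ← orth (h S hS) (s2.condExp one_le_two) p2 p0, adj hO s2 p2]
    refine integral_congr_ae (Eventually.of_forall fun ω => ?_)
    by_cases c : ω ∈ S <;> simp [c]
  have e1 := orth hm h2 (p2.condExp one_le_two) H0
  rw [← adj hO h2 p2] at e1
  have e2 := orth stronglyMeasurable_condExp.aestronglyMeasurable v2 p2 p0
  have e3 : ∫ ω, (φ * φ) ω ∂ν = 0 := by
    have := integral_sub (u2.integrable_mul p2) (v2.integrable_mul p2)
    simp only [Pi.mul_apply] at this ⊢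
    rw [e1, e2, sub_zero] at this
    rw [← this]
    refine integral_congr_ae (Eventually.of_forall fun ω => ?_)
    simp only [← sub_mul]
    rw [eφ]
    rfl
  have e4 := (integral_eq_zero_iff_of_nonneg (fun ω => mul_self_nonneg (φ ω))
    (p2.integrable_mul p2)).1 e3
  refine stronglyMeasurable_condExp.aestronglyMeasurable.congr (f := ν[ν[g | O] | P]) ?_
  filter_upwards [e4] with ω e
  have : φ ω = 0 := mul_self_eq_zero.1 e
  rw [eφ] at this
  exact (sub_eq_zero.1 this).symm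

end general

theorem cg_iSup {Ω : Type} {ι : Sort*} [Countable ι] (m : ι → MeasurableSpace Ω)
    (h : ∀ i, @MeasurableSpace.CountablyGenerated Ω (m i)) :
    @MeasurableSpace.CountablyGenerated Ω (⨆ i, m i) := by
  choose b hb e using fun i => (h i).isCountablyGenerated
  exact @MeasurableSpace.CountablyGenerated.mk _ (⨆ i, m i) ⟨⋃ i, b i, Set.countable_iUnion hb, by
    rw [← MeasurableSpace.iSup_generateFrom]
    exact iSup_congr e⟩

variable {J : Type}

theorem pc_le (c : J → ℤ) : PC c ≤ (inferInstance : MeasurableSpace (Cfg J)) :=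
  (measurable_pi_apply c).comap_le

theorem mem_cyl (c : J → ℤ) (F : Finset ℕ) (ω : Cfg J) :
    ω ∈ cyl (atP c F) ↔ ∀ n ∈ F, ω c n = true := by
  simp [cyl, atP]

theorem cyl_meas (c : J → ℤ) (F : Finset ℕ) : MeasurableSet[PC c] (cyl (atP c F)) := by
  refine ⟨⋂ n ∈ F, (fun y : YY => y n) ⁻¹' {true}, Finset.measurableSet_biInter _ fun n _ =>
    measurable_pi_apply n (measurableSet_singleton true), ?_⟩
  ext ω
  simp [mem_cyl]

theorem pc_gen (c : J → ℤ) :
    PC c = MeasurableSpace.generateFrom (Set.range fun F => cyl (atP c F)) := by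
  refine le_antisymm ?_ (MeasurableSpace.generateFrom_le ?_)
  · let _ := MeasurableSpace.generateFrom (Set.range fun F => cyl (atP c F))
    refine Measurable.comap_le (measurable_pi_iff.2 fun n => measurable_to_bool
      (MeasurableSpace.measurableSet_generateFrom ⟨{n}, ?_⟩))
    ext ω
    simp [mem_cyl]
  · rintro _ ⟨F, rfl⟩
    exact cyl_meas c F

theorem cyl_pi (c : J → ℤ) : IsPiSystem (Set.range fun F => cyl (atP c F)) := by
  rintro _ ⟨F, rfl⟩ _ ⟨F', rfl⟩ -
  refine ⟨F ∪ F', ?_⟩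
  ext ω
  simp only [mem_cyl, Set.mem_inter_iff, Finset.forall_mem_union]

variable [DecidableEq J] {l : ℕ}

theorem oth_eq (r : Fin (l + 1) → ℤ) (c : J → ℤ) (s : J) (i : Fin (l + 1)) :
    Oth PC r c s i = Fib27.O YY r c s i := by
  simp only [Oth, Fib27.O, Finset.mem_erase, Finset.mem_univ, and_true]
  rfl

theorem oth_le (r : Fin (l + 1) → ℤ) (c : J → ℤ) (s : J) (i : Fin (l + 1)) :
    Oth PC r c s i ≤ (inferInstance : MeasurableSpace (Cfg J)) :=
  iSup₂_le fun _ _ => pc_le _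

theorem oth_cg (r : Fin (l + 1) → ℤ) (c : J → ℤ) (s : J) (i : Fin (l + 1)) :
    @MeasurableSpace.CountablyGenerated (Cfg J) (Oth PC r c s i) :=
  cg_iSup _ fun _ => cg_iSup _ fun _ => MeasurableSpace.CountablyGenerated.comap _

/-- almost sure identities pass to the fibres and back -/
theorem fib {X Ω Zs : Type} [MeasurableSpace X] [MeasurableSpace Ω] [StandardBorelSpace Ω]
    [Nonempty Ω] [MeasurableSpace Zs] (μ : Measure X) [IsProbabilityMeasure μ] {W : X → Ω}
    {Z : X → Zs} (hW : Measurable W) (hZ : Measurable Z) {h h' : Zs × Ω → ℝ} (m : Measurable h)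
    (m' : Measurable h') : (∀ᵐ x ∂μ, h (Z x, W x) = h' (Z x, W x)) ↔
      ∀ᵐ z ∂μ.map Z, ∀ᵐ ω ∂condDistrib W Z μ z, h (z, ω) = h' (z, ω) := by
  rw [← Measure.ae_compProd_iff (p := fun p => h p = h' p) (measurableSet_eq_fun m m'),
    compProd_map_condDistrib hW.aemeasurable,
    ae_map_iff (hZ.prodMk hW).aemeasurable (measurableSet_eq_fun m m')]

end Fb2

open Fb2 in
theorem fb2 (h : FCS) : Fb2S := by
  intro J X _ _ l _ μ _ r W Z hM
  have hW := hM.mW
  have hZ := hM.mZ
  constructor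
  · have key : ∀ (c : J → ℤ) (s : J) (i : Fin (l + 1)) (F : Finset ℕ), ∀ᵐ z ∂μ.map Z,
        AEStronglyMeasurable[PC c] ((condDistrib W Z μ z)[(cyl (atP c F)).indicator
          fun _ => (1 : ℝ) | Oth PC r c s i]) (condDistrib W Z μ z) := by
      intro c s i F
      have b : ∀ ω, |(cyl (atP c F)).indicator (fun _ => (1 : ℝ)) ω| ≤ 1 := fun ω => by
        by_cases e : ω ∈ cyl (atP c F) <;> simp [e]
      have bq : ∀ᵐ x ∂μ, ‖(μ[cy W (atP c F) | MeasurableSpace.comap Z inferInstance ⊔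
          (Oth PC r c s i).comap W]) x‖ ≤ 1 :=
        ae_bdd_norm_condExp_of_ae_bdd_norm (Eventually.of_forall fun x => b _)
      obtain ⟨-, o2, o3⟩ := h (Oth PC r c s i) μ W Z hW hZ
      obtain ⟨h1, m1, b1, s1, e1⟩ := o2 (oth_le r c s i) _
        ⟨stronglyMeasurable_condExp.aestronglyMeasurable, 1, bq⟩
      obtain ⟨h2, m2, -, s2, e2⟩ := (h (PC c) μ W Z hW hZ).2.1 (pc_le c) _ ⟨hM.m2 c s i F, 1, bq⟩
      filter_upwards [o3 (oth_le r c s i) (oth_cg r c s i)
        (fun p => (cyl (atP c F)).indicator (fun _ => (1 : ℝ)) p.2) h1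
        ((measurable_const.indicator (pc_le c _ (cyl_meas c F))).comp measurable_snd)
        ⟨1, fun p => b _⟩ m1 b1 s1 e1, (fib μ hW hZ m1 m2).1 (e1.symm.trans e2)] with z a1 a2
      exact (s2 z).stronglyMeasurable.aestronglyMeasurable.congr (EventuallyEq.trans a1 a2).symm
    filter_upwards [ae_all_iff.2 fun c => ae_all_iff.2 fun s => ae_all_iff.2 fun i =>
      ae_all_iff.2 fun F => key c s i F] with z hz c s i g mg bg
    rw [← oth_eq]
    have mp : Measurable[PC c] fun ω : Cfg J => g (ω c) := mg.comp (comap_measurable _)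
    refine ext_pi (pc_le c) (oth_le r c s i) (cyl_pi c) (pc_gen c) ⟨∅, ?_⟩ ?_
      mp.stronglyMeasurable.aestronglyMeasurable (MemLp.of_bound
        (mp.mono (pc_le c) le_rfl).aestronglyMeasurable 1 (Eventually.of_forall fun ω => bg _))
    · ext ω
      simp [mem_cyl]
    · rintro _ ⟨F, rfl⟩
      exact hz c s i F
  · obtain ⟨f, f1, f2, f3, f4⟩ := hM.m4
    obtain ⟨o1, o2, -⟩ := h (PC (0 : J → ℤ)) μ W Z hW hZ
    obtain ⟨h0, m0, ⟨C, b0⟩, s0, e0⟩ := o2 (pc_le 0) f f1
    have k1 := o1 h0 m0 ⟨C, b0⟩ fun ψ hψ => by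
      rw [← f3 ψ hψ]
      refine integral_congr_ae ?_
      filter_upwards [e0] with x e
      rw [e, mul_comm]
    have k2 : ∀ (s : J) (i : Fin (l + 1)), ∀ᵐ z ∂μ.map Z,
        AEStronglyMeasurable[Oth PC r 0 s i] (fun ω => h0 (z, ω)) (condDistrib W Z μ z) := by
      intro s i
      obtain ⟨h1, m1, -, s1, e1⟩ := (h (Oth PC r 0 s i) μ W Z hW hZ).2.1 (oth_le r 0 s i) f
        ⟨f2 s i, f1.2⟩
      filter_upwards [(fib μ hW hZ m1 m0).1 (e1.symm.trans e0)] with z a
      exact (s1 z).stronglyMeasurable.aestronglyMeasurable.congr a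
    have mP : MeasurableSet {z | ∀ᵐ ω ∂condDistrib W Z μ z, h0 (z, ω) = 0} :=
      Kernel.measurable_kernel_prodMk_left (κ := condDistrib W Z μ)
        (measurableSet_eq_fun m0 (measurable_const (a := (0 : ℝ)))).compl
        (measurableSet_singleton 0)
    refine ⟨_, mP.compl, fun e => f4 (e0.trans ((fib μ hW hZ m0 measurable_const).2 e)), ?_⟩
    filter_upwards [k1, ae_all_iff.2 fun s => ae_all_iff.2 fun i => k2 s i] with z a1 a2 a3
    obtain ⟨g, mg, eg⟩ := Measurable.exists_eq_measurable_comp (s0 z)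
    have eg' : ∀ ω : Cfg J, g (ω 0) = h0 (z, ω) := fun ω => (congrFun eg ω).symm
    have hC : 0 < max C 1 := lt_max_of_lt_right one_pos
    refine ⟨fun e => g e / max C 1, mg.div_const _, fun e => ?_, fun e => a3 ?_, ?_, fun s i => ?_⟩
    · rw [abs_div, abs_of_pos hC, div_le_one hC]
      exact ((congrArg abs (eg' fun _ => e)).le.trans (b0 _)).trans (le_max_left _ _)
    · filter_upwards [e] with ω e
      rw [← eg', (div_eq_zero_iff.1 e).resolve_right hC.ne']
    · simp only [eg', integral_div, a1, zero_div]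
    · simp only [eg', div_eq_mul_inv]
      rw [← oth_eq]
      exact (a2 s i).mul_const _

end Pool.Agent.MP_154433_an.SG

end MrgPart8

-- ======== part 9: formerly Pool.Agent.MP_154433_an.sg.Xch
section MrgPart9

/-! One measure on the base under which the axis data are pairwise independent and identically
distributed: the conditional law at one good point. -/

open MeasureTheory ProbabilityTheory Filter Set

namespace Pool.Agent.MP_154433_an.SG

namespace xc

/-- a Markov kernel that is a version of the conditional law of `Z` given `F` -/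
theorem ker {X Zs : Type} (F : MeasurableSpace X) {m0 : MeasurableSpace X} (μ : Measure X)
    [IsProbabilityMeasure μ] [MeasurableSpace Zs] [StandardBorelSpace Zs] [Nonempty Zs]
    {Z : X → Zs} (hF : F ≤ m0) (hZ : Measurable Z) :
    ∃ κ : Kernel X Zs, IsMarkovKernel κ ∧ ∀ A, MeasurableSet A → (fun x => (κ x).real A) =ᵐ[μ]
      μ[fun y => A.indicator (fun _ => (1 : ℝ)) (Z y) | F] := by
  have hi : @Measurable X X m0 F id := fun _ h => hF _ h
  refine ⟨@Kernel.comap X Zs F _ X m0 (@condDistrib X X Zs _ _ _ m0 F Z id μ _) id hi,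
    inferInstance, fun A hA => ?_⟩
  have h := condDistrib_ae_eq_condExp (mβ := F) (μ := μ) hi hZ hA
  rw [MeasurableSpace.comap_id] at h
  exact h

theorem ae_ext {X B : Type} [MeasurableSpace X] [MeasurableSpace B]
    [MeasurableSpace.CountablyGenerated B] (μ : Measure X) [IsFiniteMeasure μ]
    (κ η : Kernel X B) [IsFiniteKernel κ] [IsFiniteKernel η]
    (h : ∀ A, MeasurableSet A → ∀ᵐ x ∂μ, κ x A = η x A) : κ =ᵐ[μ] η :=
  Kernel.ae_eq_of_compProd_eq (Measure.ext_prod fun hu hA => by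
    rw [Measure.compProd_apply_prod hu hA, Measure.compProd_apply_prod hu hA]
    exact lintegral_congr_ae (ae_restrict_of_ae (h _ hA)))

end xc

theorem xch : XchS := by
  intro J X Zs Bs _ F m0 μ _ _ _ _ _ _ Z β Good Pos hF hZ hβ hx hG hP h0 h1 s0
  obtain ⟨κ, _, hκ⟩ := xc.ker F μ hF hZ
  have r : ∀ x A B, (κ x).real A = (κ x).real B → κ x A = κ x B := fun x A B h =>
    (measureReal_eq_measureReal_iff (measure_ne_top _ _) (measure_ne_top _ _)).1 h
  have z : ∀ x A, (κ x).real A = 0 ↔ κ x A = 0 := fun x A => measureReal_eq_zero_iff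
  have a0 : ∀ᵐ x ∂μ, κ x Goodᶜ = 0 := by
    rw [Measure.map_apply hZ hG.compl] at h0
    have e : (fun y => Goodᶜ.indicator (fun _ => (1 : ℝ)) (Z y)) =ᵐ[μ] 0 := by
      filter_upwards [measure_eq_zero_iff_ae_notMem.1 h0] with y hy
      exact indicator_of_notMem (s := Goodᶜ) hy _
    filter_upwards [hκ _ hG.compl, condExp_congr_ae (m := F) e] with x h h'
    rw [← z, h, h', condExp_zero]
    rfl
  have a1 : ∃ᵐ x ∂μ, κ x Pos ≠ 0 := fun h => h1 (by
    have e : ∫ x, (κ x).real Pos ∂μ = 0 := integral_eq_zero_of_ae (by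
      filter_upwards [h] with x hx using (z _ _).2 (not_not.1 hx))
    rw [integral_congr_ae (hκ _ hP), integral_condExp hF] at e
    rw [Measure.map_apply hZ hP, ← measureReal_eq_zero_iff, ← integral_indicator_one (hZ hP)]
    exact e)
  have a2 : ∀ s, κ.map (β s) =ᵐ[μ] κ.map (β s0) := fun s => xc.ae_ext μ _ _ fun A hA => by
    filter_upwards [hκ _ (hβ s hA), hκ _ (hβ s0 hA), hx.2 s s0 A hA] with x h h' k
    rw [Kernel.map_apply' _ (hβ s) _ hA, Kernel.map_apply' _ (hβ s0) _ hA]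
    exact r _ _ _ (h.trans (k.trans h'.symm))
  have a3 : ∀ s t, ∀ᵐ x ∂μ, s ≠ t →
      κ.map (fun z => (β s z, β t z)) x = (κ.map (β s) ×ₖ κ.map (β t)) x := fun s t => by
    by_cases n : s = t
    · exact Eventually.of_forall fun x h => (h n).elim
    have i : Kernel.IndepFun (β s) (β t) κ μ := by
      refine Kernel.indepFun_iff_measure_inter_preimage_eq_mul.2 fun A B hA hB => ?_
      filter_upwards [hκ _ ((hβ s hA).inter (hβ t hB)), hκ _ (hβ s hA), hκ _ (hβ t hB),
        hx.1 s t n A B hA hB] with x h h' h'' k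
      rw [← ENNReal.toReal_eq_toReal_iff' (measure_ne_top _ _)
        (ENNReal.mul_ne_top (measure_ne_top _ _) (measure_ne_top _ _)), ENNReal.toReal_mul]
      refine h.trans (Eq.trans ?_ (k.trans (congrArg₂ (· * ·) h' h'').symm))
      congr 2
      funext y
      exact congrFun (inter_indicator_one (s := β s ⁻¹' A) (t := β t ⁻¹' B)) (Z y)
    filter_upwards [Kernel.compProd_eq_iff.1 ((Kernel.indepFun_iff_compProd_map_prod_eq_compProd_prod_map_map
      (hβ s) (hβ t)).1 i)] with x h _ using h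
  obtain ⟨x, b1, b0, b2, b3⟩ := (a1.and_eventually (a0.and ((ae_all_iff.2 a2).and
    (ae_all_iff.2 fun s => ae_all_iff.2 (a3 s))))).exists
  refine ⟨κ x, inferInstance, b0, b1, fun s t n => ?_⟩
  rw [← Kernel.map_apply _ ((hβ s).prodMk (hβ t)), b3 s t n, Kernel.prod_apply, b2 s, b2 t,
    Kernel.map_apply _ (hβ s0)]

end Pool.Agent.MP_154433_an.SG

end MrgPart9

-- ======== part 10: formerly Pool.Agent.MP_154433_an.sg.Out
section MrgPart10

/-! Row Out: a set whose square misses the image of a full set is null. -/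

set_option autoImplicit false

open MeasureTheory ProbabilityTheory Filter Topology Function

namespace Pool.Agent.MP_154433_an.SG

namespace OutRow

/-- the image of a full Borel set under a continuous map contains a full Borel set -/
lemma exists_full {Zs Y : Type} [TopologicalSpace Zs] [PolishSpace Zs] [MeasurableSpace Zs]
    [BorelSpace Zs] [TopologicalSpace Y] [T2Space Y] [MeasurableSpace Y] [BorelSpace Y]
    (ζ : Measure Zs) [IsProbabilityMeasure ζ] (Φ : Zs → Y) (hΦ : Continuous Φ) (Good : Set Zs)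
    (hG : MeasurableSet Good) (h0 : ζ Goodᶜ = 0) :
    ∃ U : Set Y, U ⊆ Φ '' Good ∧ ζ.map Φ Uᶜ = 0 := by
  have hK : ∀ m : ℕ, ∃ K : Set Zs, K ⊆ Good ∧ IsCompact K ∧
      ζ (Good \ K) < ((m : ENNReal) + 1)⁻¹ := fun m =>
    hG.exists_isCompact_sdiff_lt (measure_ne_top ζ Good) (by simp)
  choose K hKG hKc hKm using hK
  have hU : MeasurableSet (⋃ m, Φ '' K m) :=
    MeasurableSet.iUnion fun m => ((hKc m).image hΦ).isClosed.measurableSet
  refine ⟨⋃ m, Φ '' K m, Set.iUnion_subset fun m => Set.image_mono (hKG m), ?_⟩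
  rw [Measure.map_apply hΦ.measurable hU.compl]
  have hle : ∀ m : ℕ, ζ (Φ ⁻¹' (⋃ m, Φ '' K m)ᶜ) ≤ ((m : ENNReal) + 1)⁻¹ := by
    intro m
    have hs : Φ ⁻¹' (⋃ m, Φ '' K m)ᶜ ⊆ Goodᶜ ∪ (Good \ K m) := by
      intro z hz
      by_cases hz' : z ∈ Good
      · exact Or.inr ⟨hz', fun hk => hz (Set.mem_iUnion.2 ⟨m, z, hk, rfl⟩)⟩
      · exact Or.inl hz'
    calc ζ (Φ ⁻¹' (⋃ m, Φ '' K m)ᶜ) ≤ ζ (Goodᶜ ∪ (Good \ K m)) := measure_mono hs
      _ ≤ ζ Goodᶜ + ζ (Good \ K m) := measure_union_le _ _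
      _ ≤ ((m : ENNReal) + 1)⁻¹ := by rw [h0, zero_add]; exact (hKm m).le
  by_contra hne
  obtain ⟨n, hn⟩ := ENNReal.exists_inv_nat_lt hne
  have h1 : ((n : ENNReal) + 1)⁻¹ ≤ (n : ENNReal)⁻¹ := ENNReal.inv_le_inv.2 le_self_add
  exact absurd ((hle n).trans h1) (not_le.2 hn)

end OutRow

theorem out : OutS := by
  intro Zs Bs K _ _ _ _ _ _ _ _ _ ζ _ ν _ b b' Good D hb hb' hmap hG h0 hD
  have hΦ : Continuous fun z => (b z, b' z) := hb.prodMk hb'
  obtain ⟨U, hU, hU0⟩ := OutRow.exists_full ζ (fun z => (b z, b' z)) hΦ Good hG h0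
  have hfst : ζ.map b = ν := by
    have h1 : (ζ.map fun z => (b z, b' z)).map Prod.fst = ζ.map b := by
      rw [Measure.map_map measurable_fst hΦ.measurable]
      rfl
    rw [← h1, hmap]
    simp
  rw [ae_all_iff]
  intro k
  have hsq : ν (D k) * ν (D k) = 0 := by
    rw [← Measure.prod_prod, ← hmap]
    refine measure_mono_null ?_ hU0
    rintro ⟨y, y'⟩ ⟨hy, hy'⟩ hmem
    obtain ⟨z, hz, hzy⟩ := hU hmem
    obtain ⟨rfl, rfl⟩ := Prod.mk.inj hzy
    exact hD k z hz ⟨hy, hy'⟩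
  have hν : ν (D k) = 0 := by simpa using hsq
  have hae : ∀ᵐ y ∂ζ.map b, y ∉ D k := by
    rw [hfst]
    exact measure_eq_zero_iff_ae_notMem.1 hν
  exact ae_of_ae_map hb.measurable.aemeasurable hae

end Pool.Agent.MP_154433_an.SG

end MrgPart10

-- ======== part 11: formerly Pool.Agent.MP_154433_an.sg.NoGlob
section MrgPart11

/-! Row NoGlob: the global system leads to a contradiction on the fibres. -/

set_option autoImplicit false

open MeasureTheory ProbabilityTheory Filter Topology Function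

noncomputable section

namespace Pool.Agent.MP_154433_an.SG

namespace NoGlob

/-- cylinders of one axis -/
def acyl (F : Finset (ℤ × ℕ)) : Set (ℤ → YY) := {y | ∀ p ∈ F, y p.1 p.2 = true}

lemma acyl_meas (F : Finset (ℤ × ℕ)) : MeasurableSet (acyl F) := by
  have : acyl F = ⋂ p ∈ F, (fun y : ℤ → YY => y p.1 p.2) ⁻¹' {true} := by
    ext y; simp [acyl]
  rw [this]
  refine Finset.measurableSet_biInter F fun p _ => ?_
  exact ((measurable_pi_apply p.2).comp (measurable_pi_apply p.1)) (measurableSet_singleton _)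

lemma pi_acyl : IsPiSystem (Set.range acyl) := by
  rintro _ ⟨F, rfl⟩ _ ⟨G, rfl⟩ _
  refine ⟨F ∪ G, ?_⟩
  ext y
  simp only [acyl, Set.mem_ofPred_eq, Finset.mem_union, Set.mem_inter_iff]
  exact ⟨fun h => ⟨fun p hp => h p (Or.inl hp), fun p hp => h p (Or.inr hp)⟩,
    fun h p hp => hp.elim (h.1 p) (h.2 p)⟩

lemma gen_acyl : (inferInstance : MeasurableSpace (ℤ → YY)) =
    MeasurableSpace.generateFrom (Set.range acyl) := by
  refine le_antisymm ?_ (MeasurableSpace.generateFrom_le ?_)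
  · have h : @Measurable (ℤ → YY) (ℤ → YY) (MeasurableSpace.generateFrom (Set.range acyl))
        inferInstance id := by
      refine @measurable_pi_lambda _ _ _ (MeasurableSpace.generateFrom (Set.range acyl)) _ _
        fun a => ?_
      refine @measurable_pi_lambda _ _ _ (MeasurableSpace.generateFrom (Set.range acyl)) _ _
        fun n => ?_
      refine @measurable_to_bool _ (MeasurableSpace.generateFrom (Set.range acyl)) _ ?_
      refine MeasurableSpace.measurableSet_generateFrom ⟨{(a, n)}, ?_⟩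
      ext y; simp [acyl]
    intro s hs
    exact h hs
  · rintro _ ⟨F, rfl⟩
    exact acyl_meas F

lemma ext_acyl (e e' : Measure (ℤ → YY)) [IsProbabilityMeasure e] [IsProbabilityMeasure e']
    (h : ∀ F, e.real (acyl F) = e'.real (acyl F)) : e = e' := by
  refine ext_of_generate_finite _ gen_acyl pi_acyl ?_ (by simp)
  rintro _ ⟨F, rfl⟩
  exact (measureReal_eq_measureReal_iff (measure_ne_top _ _) (measure_ne_top _ _)).1 (h F)

lemma axis_meas {J : Type} [DecidableEq J] (s : J) :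
    Measurable (Fib27.axis (E := YY) s) :=
  measurable_pi_lambda _ fun _ => measurable_pi_apply _

lemma axis_pre {J : Type} [DecidableEq J] (s : J) (F : Finset (ℤ × ℕ)) :
    Fib27.axis (E := YY) s ⁻¹' acyl F = cyl (axF s F) := by
  ext ω
  simp only [acyl, cyl, axF, Fib27.axis, Set.mem_preimage, Set.mem_ofPred_eq, Finset.forall_mem_map]
  rfl

lemma bet_cont {J : Type} [DecidableEq J] (s : J) : Continuous (bet s : Zsp J → Bsp) :=
  continuous_pi fun _ => continuous_apply _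

end NoGlob

open NoGlob in
theorem noGlob (hF : Fib27.FIB) (h1 : CntS) (h2 : ModS) (h3 : XcS) (h4 : Fb1S) (h5 : Fb2S)
    (h6 : Fb3S) (h7 : XchS) (h8 : OutS) : NoGlobS := by
  intro J X _ _ l F B Ax m0 μ _ r Θ hJ hr hl hG
  obtain ⟨Sn, Zn, hC⟩ := h1 F B Ax μ r Θ hG
  have hM := h2 F B Ax μ r Θ Sn Zn hG hC
  have hX := h3 F B Ax μ r Θ Sn Zn hG hC.mS
  generalize ZZ B μ (WW Θ Sn) Zn = Z at hM hX
  generalize WW Θ Sn = W at hM
  have a1 := h4 μ r W Z hM
  obtain ⟨a2, Pos, hPos, hPos0, a4⟩ := h5 μ r W Z hM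
  have a3 := h6 μ r W Z hM
  obtain ⟨NC, hN1, hN2⟩ := hF J YY l r hl hr hJ
  have hall : ∀ᵐ z ∂μ.map Z, (∀ F, (condDistrib W Z μ z).real (cyl F) = z (Sum.inl F)) ∧
      Fib27.Good r (condDistrib W Z μ z) ∧ (z ∈ Pos → Fib27.F4 r (condDistrib W Z μ z)) := by
    filter_upwards [a1, a2, a3, a4] with z b1 b2 b3 b4
    exact ⟨b1.1, ⟨b1.2.1, b1.2.2, b2, b3⟩, b4⟩
  obtain ⟨N, hN, hNm, hN0⟩ := exists_measurable_superset_of_null (ae_iff.1 hall)
  have hgood : ∀ z ∈ Nᶜ, (∀ F, (condDistrib W Z μ z).real (cyl F) = z (Sum.inl F)) ∧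
      Fib27.Good r (condDistrib W Z μ z) ∧ (z ∈ Pos → Fib27.F4 r (condDistrib W Z μ z)) := by
    intro z hz
    by_contra hcon
    exact hz (hN hcon)
  have hne : Nonempty J := Fintype.card_pos_iff.1 (by omega)
  obtain ⟨s0⟩ := hne
  obtain ⟨ζ, hζ, hζG, hζP, hζ2⟩ := h7 F μ Z (fun s => bet s) Nᶜ Pos hG.F_le hM.mZ
    (fun s => (bet_cont s).measurable) hX hNm.compl hPos (by simpa using hN0) hPos0 s0
  let D : ℕ → Set Bsp := fun n =>
    {b | ∃ e : Measure (ℤ → YY), IsProbabilityMeasure e ∧ (∀ F, e.real (acyl F) = b F) ∧ NC n e}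
  have hmom : ∀ z ∈ Nᶜ, ∀ s : J, ∀ F,
      ((condDistrib W Z μ z).map (Fib27.axis s)).real (acyl F) = bet s z F := by
    intro z hz s F
    rw [map_measureReal_apply (axis_meas s) (acyl_meas F), axis_pre]
    exact (hgood z hz).1 _
  have hD : ∀ z ∈ Nᶜ, ∀ (s : J) (n : ℕ),
      bet s z ∈ D n ↔ NC n ((condDistrib W Z μ z).map (Fib27.axis s)) := by
    intro z hz s n
    have : IsProbabilityMeasure ((condDistrib W Z μ z).map (Fib27.axis s)) :=
      Measure.isProbabilityMeasure_map (axis_meas s).aemeasurable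
    constructor
    · rintro ⟨e, he, hm, hn⟩
      have : e = (condDistrib W Z μ z).map (Fib27.axis s) :=
        ext_acyl _ _ fun F => by rw [hm F, hmom z hz s F]
      rwa [← this]
    · intro hn
      exact ⟨_, inferInstance, hmom z hz s, hn⟩
  have : IsProbabilityMeasure (ζ.map (bet s0)) :=
    Measure.isProbabilityMeasure_map (bet_cont s0).measurable.aemeasurable
  have hout : ∀ s : J, ∀ᵐ z ∂ζ, ∀ n, bet s z ∉ D n := by
    intro s
    obtain ⟨t, ht⟩ := Fintype.exists_ne_of_one_lt_card (by omega : 1 < Fintype.card J) s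
    refine h8 ζ (ζ.map (bet s0)) (bet s) (bet t) Nᶜ D (bet_cont s) (bet_cont t)
      (hζ2 s t ht.symm) hNm.compl hζG fun n z hz hb => ?_
    exact hN1 _ inferInstance (hgood z hz).2.1 n s t ht.symm
      ⟨(hD z hz s n).1 hb.1, (hD z hz t n).1 hb.2⟩
  have hfin : ∀ᵐ z ∂ζ, z ∉ Pos := by
    have hg : ∀ᵐ z ∂ζ, z ∈ Nᶜ := by
      rw [ae_iff]; exact hζG
    filter_upwards [hg, ae_all_iff.2 hout] with z hz ho hp
    obtain ⟨s, n, hn⟩ := hN2 _ inferInstance (hgood z hz).2.1 ((hgood z hz).2.2 hp)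
    exact ho s n ((hD z hz s n).2 hn)
  exact hζP (measure_eq_zero_iff_ae_notMem.2 hfin)

end Pool.Agent.MP_154433_an.SG

end

end MrgPart11

-- marker of a merged file
example : 731051 + 862161 = 731051 + 862161 := rfl
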