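import Pool.Agent.MP_154433_an.sg.Fin
import Pool.Agent.MP_154433_an.sg.Main

/-! Row S2: the vanishing statement for two points in a sparse direction. -/

set_option autoImplicit false

open MeasureTheory ProbabilityTheory Filter Topology Function

noncomputable section

namespace Pool.Agent.MP_154433_an.SG

open Fam

namespace S2

variable {S : Sys} {Γ : Set (Finset ℕ × (ℕ →₀ ℤ))} {I : Set ℕ}

lemma base_th (hF : Fd S) (hl : Lives Γ I) {J : Finset ℕ} (hJ : ∀ j ∈ J, j ∉ I) {c : ℕ →₀ ℤ}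
    (hc : c.support ⊆ J) {ψ : S.Pt → ℝ} (h : ABM (S.Base Γ (I ∪ J)) S.μ ψ) :
    ABM (S.Base Γ (I ∪ J)) S.μ fun x => ψ (S.Th c x) :=
  h.comp (hF.thmp c) (hF.theta Γ _ _ c (fun γ hγ j hj h' => hJ j (hc hj) ((hl γ hγ).1 h'))
    subset_rfl fun j hj => Or.inr (hc hj))

/-- Cauchy-Schwarz and a fresh copy of the direction -/
lemma step (hF : Fd S) (hV : V1 S) (fr : Frame Γ I) {J : Finset ℕ} (hJ : ∀ j ∈ J, j ∉ I)
    {c : ℕ →₀ ℤ} (hc : c.support ⊆ J) {π : Equiv.Perm ℕ} (hπ : KP π) (hI : ∀ j ∈ I, π j = j)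
    (hJ' : ∀ j ∈ J, π j ∉ I ∧ π j ∉ J)
    (h : S.Van Γ I (J ∪ J.image π) (c - c.mapDomain π) 2) : S.Van Γ I J c 2 := by
  refine hV.van2 Γ I J c fr.zero fr.lives hJ hc fun d hd g g' ψ hg hg' hψ ho => ?_
  have hl : Lives Γ (I ∪ J) := fun γ hγ =>
    ⟨(fr.lives γ hγ).1.trans Set.subset_union_left, (fr.lives γ hγ).2⟩
  have hs : ∀ a : ℤ, (a • c).support ⊆ J := fun a => Finsupp.support_smul.trans hc
  have hψ1 := base_th hF fr.lives hJ (hs (-d)) hψ
  have hg1 : ABM (S.Full (I ∪ J)) S.μ fun x => g (S.Th ((-d) • c) x) :=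
    hg.comp (hF.thmp _) (hF.thetaF _ _ _ Set.subset_union_left fun j hj => Or.inr (hs _ hj))
  have hH : ABM (S.Full (I ∪ J)) S.μ fun x => ψ (S.Th ((-d) • c) x) * g (S.Th ((-d) • c) x) :=
    (hψ1.mono (hF.base_le Γ _ hl)).mul hg1
  have hJJ : ∀ j ∈ J ∪ J.image π, j ∉ I := fun j hj => by
    rcases Finset.mem_union.1 hj with hj | hj
    · exact hJ j hj
    · obtain ⟨k, hk, rfl⟩ := Finset.mem_image.1 hj
      exact (hJ' k hk).1
  have hc' : (d • c.mapDomain π).support ⊆ J ∪ J.image π :=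
    (Finsupp.support_smul.trans (Finsupp.mapDomain_support.trans
      (Finset.image_subset_image hc))).trans Finset.subset_union_right
  have hΨ : ABM (S.Base Γ (I ∪ (J ∪ J.image π : Finset ℕ))) S.μ fun x =>
      ψ (S.Th ((-d) • c) x) * ψ (S.Th ((-d) • c) (S.Pm π x)) := by
    refine (hψ1.mono (hF.base_mono _ _ _ _ subset_rfl
      (Set.union_subset_union_right _ (by simp)))).mul
      (hψ1.comp (hF.pmmp π hπ) (hF.permB Γ I _ _ π hπ.1 fr.lives hI ?_))
    rintro _ ⟨j, hj | hj, rfl⟩
    · exact Or.inl (by rwa [hI j hj])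
    · exact Or.inr (Finset.mem_coe.2 (Finset.mem_union_right _ (Finset.mem_image_of_mem _ hj)))
  have h0 := h Bool Finset.univ (fun b => if b then -d else 0)
    (fun a _ b _ e => by
      cases a <;> cases b <;> simp at e ⊢ <;> exact hd (by omega))
    (by simp) (fun _ => g) _ (fun _ _ => hg) (base_th hF fr.lives hJJ hc' hΨ) true
    (Finset.mem_univ _) ho
  have hcp := hF.copy π I (I ∪ J) _ hπ hI Set.subset_union_left (fun j hj hj' => by
    rcases hj with hj | hj
    · exact absurd hj hj'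
    · rintro (h1 | h1)
      · exact (hJ' j hj).1 h1
      · exact (hJ' j hj).2 h1) hH
  have hH0 := hH.mono (full_le _)
  have hfix := (hF.thmp ((-d) • c.mapDomain π)).quasiMeasurePreserving.ae_eq_comp
    (hF.pmfix I π g (hF.pmmp π hπ) hI hg.1)
  have h1 : ∫ x, (S.μ[fun x => ψ (S.Th ((-d) • c) x) * g (S.Th ((-d) • c) x) | S.Full I]) x ^ 2
      ∂S.μ = 0 := by
    rw [← hcp, ← integral_comp_mp (hF.thmp (d • c.mapDomain π))
      (hH0.mul (hH0.comp (hF.pmmp π hπ)
        (measurable_iff_comap_le.1 (hF.pmmp π hπ).measurable))).1, ← h0]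
    refine integral_congr_ae ?_
    filter_upwards [(hF.thmp (d • c.mapDomain π)).quasiMeasurePreserving.ae hfix] with x hx
    have e1 : S.Th ((-d) • c) (S.Th (d • c.mapDomain π) x) =
        S.Th ((-d) • (c - c.mapDomain π)) x := by
      rw [← Th_add]
      congr 1
      module
    have e2 : S.Th ((-d) • c.mapDomain π) (S.Th (d • c.mapDomain π) x) = x := by
      rw [neg_smul, Th_neg_Th]
    have e3 : g (S.Th ((-d) • c) (S.Pm π (S.Th (d • c.mapDomain π) x))) = g x := by
      rw [Th_Pm hπ.1, Finsupp.mapDomain_smul]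
      simpa only [Function.comp, e2] using hx
    simp only [e3, e1, Fintype.prod_bool, if_true, Bool.false_eq_true, if_false, zero_smul, Th_zero]
    ring
  have h2 := hH0.condExp (S.Full I)
  have h3 := (integral_eq_zero_iff_of_nonneg (fun x => sq_nonneg _)
    (by simpa only [sq] using (h2.mul h2).integrable (full_le _))).1 h1
  rw [← integral_comp_mp (hF.thmp ((-d) • c)) ((hψ.mono (base_le' _ _)).mul
    ((hg.mono (full_le _)).mul ((hg'.mono (full_le _)).comp (hF.thmp _)
      (measurable_iff_comap_le.1 (hF.thmp _).measurable)))).1]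
  simp only [neg_smul d, Th_Th_neg, ← mul_assoc]
  simp only [← neg_smul d]
  rw [← integral_condExp_mul (full_le I) hg' (hH0.integrable le_rfl)]
  refine integral_eq_zero_of_ae ?_
  filter_upwards [h3] with x hx
  have : _ ^ 2 = (0 : ℝ) := hx
  rw [(pow_eq_zero_iff two_ne_zero).1 this, zero_mul, Pi.zero_apply]

/-- the entries `a` of the doubled direction -/
lemma count {J : Finset ℕ} {c : ℕ →₀ ℤ} (hc : c.support ⊆ J) {π : Equiv.Perm ℕ}
    (hJ' : ∀ j ∈ J, π j ∉ J) (a : ℤ) :
    (J.filter fun j => c j = a).card + (J.filter fun j => c j = -a).card ≤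
      ((J ∪ J.image π).filter fun j => (c - c.mapDomain π) j = a).card := by
  rw [← Finset.card_image_of_injective (J.filter fun j => c j = -a) π.injective,
    ← Finset.card_union_of_disjoint]
  · refine Finset.card_le_card fun j hj => ?_
    rcases Finset.mem_union.1 hj with hj | hj
    · obtain ⟨h1, h2⟩ := Finset.mem_filter.1 hj
      refine Finset.mem_filter.2 ⟨Finset.mem_union_left _ h1, ?_⟩
      obtain ⟨k, rfl⟩ := π.surjective j
      have : c k = 0 := by
        by_contra h
        exact hJ' k (hc (Finsupp.mem_support_iff.2 h)) h1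
      rw [Finsupp.sub_apply, Finsupp.mapDomain_apply π.injective, h2, this, sub_zero]
    · obtain ⟨k, hk, rfl⟩ := Finset.mem_image.1 hj
      obtain ⟨h1, h2⟩ := Finset.mem_filter.1 hk
      refine Finset.mem_filter.2 ⟨Finset.mem_union_right _ (Finset.mem_image_of_mem _ h1), ?_⟩
      have : c (π k) = 0 := by
        by_contra h
        exact hJ' k h1 (hc (Finsupp.mem_support_iff.2 h))
      rw [Finsupp.sub_apply, Finsupp.mapDomain_apply π.injective, h2, this]
      ring
  · refine Finset.disjoint_left.2 fun j hj hj' => ?_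
    obtain ⟨k, hk, rfl⟩ := Finset.mem_image.1 hj'
    exact hJ' k (Finset.mem_filter.1 hk).1 (Finset.mem_filter.1 hj).1

lemma main (hF : Fd S) (hV : V1 S) (hR : R1 S) (fr : Frame Γ I) (n : ℕ) :
    ∀ (J : Finset ℕ) (c : ℕ →₀ ℤ), Out I J → c.support ⊆ J →
      S.r ≤ 2 ^ n * ((J.filter fun j => c j = 1).card + (J.filter fun j => c j = -1).card) →
      S.Van Γ I J c 2 := by
  have key : ∀ (J : Finset ℕ) (c : ℕ →₀ ℤ), Out I J → c.support ⊆ J →
      (∀ (J' : Finset ℕ) (c' : ℕ →₀ ℤ), Out I J' → c'.support ⊆ J' →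
        (∀ a : ℤ, (J.filter fun j => c j = a).card + (J.filter fun j => c j = -a).card ≤
          (J'.filter fun j => c' j = a).card) → S.Van Γ I J' c' 2) → S.Van Γ I J c 2 := by
    intro J c hJ hc h
    obtain ⟨π, hπ, -, hI, hJ'⟩ := hF.fresh I J fr.zero (fun j hj => (hJ j hj).1) fun j hj =>
      fr.cos.mono fun k hk => ⟨hk.1, iff_of_true hk.2 (hJ j hj).2⟩
    refine step hF hV fr (fun j hj => (hJ j hj).1) hc hπ hI hJ'
      (h _ _ (fun j hj => ?_) ?_ (count hc fun j hj => (hJ' j hj).2))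
    · rcases Finset.mem_union.1 hj with hj | hj
      · exact hJ j hj
      · obtain ⟨k, hk, rfl⟩ := Finset.mem_image.1 hj
        exact ⟨(hJ' k hk).1, (hπ.2 k).2 (hJ k hk).2⟩
    · exact Finsupp.support_sub.trans (Finset.union_subset_union hc
        (Finsupp.mapDomain_support.trans (Finset.image_subset_image hc)))
  induction n with
  | zero =>
    intro J c hJ hc h
    refine key J c hJ hc fun J' c' hJ' hc' h' => hR 2 Γ I J' c' fr hJ' hc' ?_
    have := h' 1
    omega
  | succ n ih =>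
    intro J c hJ hc h
    refine key J c hJ hc fun J' c' hJ' hc' h' => ih J' c' hJ' hc' (h.trans ?_)
    have h1 := h' 1
    have h2 := h' (-1)
    rw [neg_neg] at h2
    rw [pow_succ, mul_assoc]
    exact Nat.mul_le_mul_left _ (by omega)

end S2

theorem s2 : S2S := fun S hF hV hR Γ I t fr ht ho => by
  refine S2.main hF hV hR fr S.r {t} (ee t) (fun j hj => ?_) Finsupp.support_single_subset ?_
  · rw [Finset.mem_singleton.1 hj]
    exact ⟨ht, ho⟩
  · have h1 : (({t} : Finset ℕ).filter fun j => ee t j = 1).card = 1 := by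
      rw [Finset.filter_true_of_mem (by simp), Finset.card_singleton]
    rw [h1]
    exact Nat.lt_two_pow_self.le.trans (Nat.le_mul_of_pos_right _ (by omega))

end Pool.Agent.MP_154433_an.SG

end
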