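import Pool.Agent.MP_154433_an.sg.Blk
import Pool.Agent.MP_154433_an.sg.BO
import Pool.Agent.MP_154433_an.sg.Fin
import Pool.Agent.MP_154433_an.sg.Fb3
import Pool.Agent.MP_154433_an.sg.NoGlob
import Pool.Agent.MP_154433_an.fib.Final
import Pool.Agent.MP_154433_an.sg.S2
import Pool.Agent.MP_154433_an.sg.Main

/-! Assembly of all rows of the sparse generalised von Neumann theorem. -/

set_option autoImplicit false

namespace Pool.Agent.MP_154433_an.SG

/-- the finite theorem for abstract families of groups -/
theorem finAll : FinS :=
  fin lim (fdA dens) fdB fdC fdD fdE fdF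
    (all v1 ds r1 s2 r2p d1 g2 (g3 nd) gc pa1 dbl glo
      (noGlob Fib27.fib cnt modl xc (fb1 fc) (fb2 fc) (fb3 fc) xch out)) zo bo st zs dg

/-- the finite theorem for weights on cyclic groups of prime order -/
theorem finWAll : FinWS := finW finAll

theorem mainAll : MainS := mainT (disc tailB) (blk finWAll)

end Pool.Agent.MP_154433_an.SG
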