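import Mathlib.Data.Int.Star
import Mathlib.MeasureTheory.Measure.FiniteMeasureExt
import Mathlib.RingTheory.SimpleRing.Principal
import Mathlib.Topology.Instances.ZMod
import Pool.Agent.MP_154433_an.sg.Fin
import Pool.Agent.MP_154433_an.Main

-- ======== part 0: formerly Pool.Agent.MP_154433_an.sg.Dens
section MrgPart0

/-! Row Dens: a multiplicative family of bounded functions determines measures, annihilators and
`L¹` closures on the sigma-algebra it generates. -/

set_option autoImplicit false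
set_option linter.unusedVariables false

open MeasureTheory ProbabilityTheory Filter Topology Function
open scoped BoundedContinuousFunction InnerProductSpace

noncomputable section

namespace Pool.Agent.MP_154433_an.SG

namespace Dens

variable {X : Type} [MeasurableSpace X] {T : Set (X → ℝ)}

theorem span_bdd (hb : ∀ φ ∈ T, Measurable φ ∧ ∃ C : ℝ, ∀ x, |φ x| ≤ C) {φ : X → ℝ}
    (hφ : φ ∈ Submodule.span ℝ T) : Measurable φ ∧ ∃ C : ℝ, ∀ x, |φ x| ≤ C := by
  induction hφ using Submodule.span_induction with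
  | mem x h => exact hb x h
  | zero => exact ⟨measurable_const, 0, fun x => by simp⟩
  | add f g _ _ hf hg =>
    obtain ⟨hf, C, hC⟩ := hf
    obtain ⟨hg, D, hD⟩ := hg
    exact ⟨hf.add hg, C + D, fun x => (abs_add_le _ _).trans (add_le_add (hC x) (hD x))⟩
  | smul a f _ hf =>
    obtain ⟨hf, C, hC⟩ := hf
    refine ⟨hf.const_smul a, |a| * C, fun x => ?_⟩
    rw [Pi.smul_apply, smul_eq_mul, abs_mul]
    exact mul_le_mul_of_nonneg_left (hC x) (abs_nonneg _)

theorem int_bdd (μ : Measure X) [IsFiniteMeasure μ] {φ : X → ℝ}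
    (h : Measurable φ ∧ ∃ C : ℝ, ∀ x, |φ x| ≤ C) : Integrable φ μ := by
  obtain ⟨hm, C, hC⟩ := h
  exact Integrable.of_bound hm.aestronglyMeasurable C (Eventually.of_forall fun x => hC x)

omit [MeasurableSpace X] in
theorem span_mul (hm : ∀ φ ∈ T, ∀ φ' ∈ T, φ * φ' ∈ T) {φ φ' : X → ℝ}
    (hφ : φ ∈ Submodule.span ℝ T) (hφ' : φ' ∈ Submodule.span ℝ T) :
    φ * φ' ∈ Submodule.span ℝ T := by
  have h := Submodule.mul_mem_mul hφ hφ'
  rw [Submodule.span_mul_span] at h
  refine Submodule.span_mono ?_ h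
  rintro _ ⟨a, ha, b, hb, rfl⟩
  exact hm a ha b hb

theorem span_int (hb : ∀ φ ∈ T, Measurable φ ∧ ∃ C : ℝ, ∀ x, |φ x| ≤ C) (μ μ' : Measure X)
    [IsFiniteMeasure μ] [IsFiniteMeasure μ'] (h : ∀ φ ∈ T, ∫ x, φ x ∂μ = ∫ x, φ x ∂μ')
    {φ : X → ℝ} (hφ : φ ∈ Submodule.span ℝ T) : ∫ x, φ x ∂μ = ∫ x, φ x ∂μ' := by
  induction hφ using Submodule.span_induction with
  | mem x hx => exact h x hx
  | zero => simp
  | add f g hf' hg' hf hg =>
    simp only [Pi.add_apply]
    rw [integral_add (int_bdd μ (span_bdd hb hf')) (int_bdd μ (span_bdd hb hg')),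
      integral_add (int_bdd μ' (span_bdd hb hf')) (int_bdd μ' (span_bdd hb hg')), hf, hg]
  | smul a f _ hf =>
    simp only [Pi.smul_apply, smul_eq_mul]
    rw [integral_const_mul, integral_const_mul, hf]

theorem fin_case (h1 : (1 : X → ℝ) ∈ T) (hm : ∀ φ ∈ T, ∀ φ' ∈ T, φ * φ' ∈ T)
    (hb : ∀ φ ∈ T, Measurable φ ∧ ∃ C : ℝ, ∀ x, |φ x| ≤ C) (μ μ' : Measure X)
    [IsFiniteMeasure μ] [IsFiniteMeasure μ'] (h : ∀ φ ∈ T, ∫ x, φ x ∂μ = ∫ x, φ x ∂μ')
    {ι : Type} [Fintype ι] (φ : ι → X → ℝ) (hφ : ∀ i, φ i ∈ T) (B : ι → Set ℝ)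
    (hB : ∀ i, MeasurableSet (B i)) : μ (⋂ i, φ i ⁻¹' B i) = μ' (⋂ i, φ i ⁻¹' B i) := by
  choose C hC using fun i => (hb _ (hφ i)).2
  let E : Type := ∀ i, Set.Icc (-(C i)) (C i)
  let Φ : X → E := fun x i => ⟨φ i x, abs_le.1 (hC i x)⟩
  have hΦ : Measurable Φ := measurable_pi_lambda _ fun i => (hb _ (hφ i)).1.subtype_mk
  let A : StarSubalgebra ℝ (E →ᵇ ℝ) :=
    { carrier := {f | (fun x => f (Φ x)) ∈ Submodule.span ℝ T}
      mul_mem' := fun {a b} ha hb' => span_mul hm ha hb'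
      add_mem' := fun {a b} ha hb' =>
        show (fun x => a (Φ x)) + (fun x => b (Φ x)) ∈ Submodule.span ℝ T from
          Submodule.add_mem _ ha hb'
      algebraMap_mem' := fun r => by
        have := Submodule.smul_mem _ r (Submodule.subset_span (R := ℝ) h1)
        show (fun x => (algebraMap ℝ (E →ᵇ ℝ)) r (Φ x)) ∈ Submodule.span ℝ T
        convert this using 1
        ext x
        simp
      star_mem' := fun {a} ha => ha }
  have hA : (A.map (BoundedContinuousFunction.toContinuousMapStarₐ ℝ)).SeparatesPoints := by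
    intro a b hab
    obtain ⟨i, hi⟩ := Function.ne_iff.1 hab
    let f : E →ᵇ ℝ := BoundedContinuousFunction.mkOfCompact
      ⟨fun y => (y i : ℝ), continuous_subtype_val.comp (continuous_apply i)⟩
    refine ⟨f, ⟨f.toContinuousMap, ⟨f, ?_, rfl⟩, rfl⟩, fun hh => hi (Subtype.ext hh)⟩
    exact Submodule.subset_span (hφ i)
  have key : μ.map Φ = μ'.map Φ := by
    refine ext_of_forall_mem_subalgebra_integral_eq_of_polish hA fun g hg => ?_
    rw [integral_map hΦ.aemeasurable g.continuous.aestronglyMeasurable,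
      integral_map hΦ.aemeasurable g.continuous.aestronglyMeasurable]
    exact span_int hb μ μ' h hg
  have hS : MeasurableSet (⋂ i, (fun y : E => (y i : ℝ)) ⁻¹' B i) :=
    MeasurableSet.iInter fun i => (measurable_subtype_coe.comp (measurable_pi_apply i)) (hB i)
  have e : (⋂ i, φ i ⁻¹' B i) = Φ ⁻¹' (⋂ i, (fun y : E => (y i : ℝ)) ⁻¹' B i) := by
    ext x
    simp [Φ]
  rw [e, ← Measure.map_apply hΦ hS, ← Measure.map_apply hΦ hS, key]

theorem sig_le (hb : ∀ φ ∈ T, Measurable φ ∧ ∃ C : ℝ, ∀ x, |φ x| ≤ C) :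
    (⨆ φ ∈ T, MeasurableSpace.comap φ inferInstance) ≤ ‹MeasurableSpace X› :=
  iSup₂_le fun φ hφ => (hb φ hφ).1.comap_le

theorem partC (h1 : (1 : X → ℝ) ∈ T) (hm : ∀ φ ∈ T, ∀ φ' ∈ T, φ * φ' ∈ T)
    (hb : ∀ φ ∈ T, Measurable φ ∧ ∃ C : ℝ, ∀ x, |φ x| ≤ C) (μ μ' : Measure X)
    [IsFiniteMeasure μ] [IsFiniteMeasure μ'] (h : ∀ φ ∈ T, ∫ x, φ x ∂μ = ∫ x, φ x ∂μ')
    (A : Set X) (hA : MeasurableSet[⨆ φ ∈ T, MeasurableSpace.comap φ inferInstance] A) :
    μ A = μ' A := by
  refine ext_on_measurableSpace_of_generate_finite ‹MeasurableSpace X› (μ := μ) (ν := μ')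
    (piiUnionInter (fun φ : X → ℝ =>
      {s | MeasurableSet[MeasurableSpace.comap φ inferInstance] s}) T) ?_ (sig_le hb)
    (generateFrom_piiUnionInter_measurableSet _ T).symm
    (isPiSystem_piiUnionInter _ (fun φ => @MeasurableSpace.isPiSystem_measurableSet X
      (MeasurableSpace.comap φ inferInstance)) T) ?_ hA
  · rintro s ⟨t, ht, f, hf, rfl⟩
    have hf' : ∀ i : t, ∃ B : Set ℝ, MeasurableSet B ∧ (i : X → ℝ) ⁻¹' B = f i :=
      fun i => hf i i.2
    choose B hB hBf using hf'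
    have := fin_case h1 hm hb μ μ' h (fun i : t => (i : X → ℝ)) (fun i => ht i.2) B hB
    simp only [hBf] at this
    have e : (⋂ x ∈ t, f x) = ⋂ i : t, f i := by
      ext y
      simp
    rw [e]
    exact this
  · have := fin_case h1 hm hb μ μ' h (fun i : Empty => (1 : X → ℝ)) (fun _ => h1)
      (fun _ => Set.univ) (fun _ => MeasurableSet.univ)
    simpa using this

theorem split (μ : Measure X) {g : X → ℝ} (hg : Integrable g μ) {ψ : X → ℝ}
    (hψ : AEStronglyMeasurable ψ μ) {C : ℝ} (hC : ∀ᵐ x ∂μ, ‖ψ x‖ ≤ C) :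
    ∫ x, g x * ψ x ∂μ = ∫ x, ψ x ∂(μ.withDensity fun x => ENNReal.ofReal (g x)) -
      ∫ x, ψ x ∂(μ.withDensity fun x => ENNReal.ofReal (-g x)) := by
  rw [integral_withDensity_eq_integral_toReal_smul₀ hg.1.aemeasurable.ennreal_ofReal
      (Eventually.of_forall fun x => ENNReal.ofReal_lt_top),
    integral_withDensity_eq_integral_toReal_smul₀ (f := fun x => ENNReal.ofReal (-g x))
      hg.1.aemeasurable.neg.ennreal_ofReal
      (Eventually.of_forall fun x => ENNReal.ofReal_lt_top)]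
  simp only [ENNReal.toReal_ofReal', smul_eq_mul]
  rw [← integral_sub (hg.pos_part.mul_bdd hψ hC) (hg.neg_part.mul_bdd hψ hC)]
  refine integral_congr_ae (Eventually.of_forall fun x => ?_)
  simp only
  rw [← sub_mul, max_zero_sub_max_neg_zero_eq_self]

theorem partA (h1 : (1 : X → ℝ) ∈ T) (hm : ∀ φ ∈ T, ∀ φ' ∈ T, φ * φ' ∈ T)
    (hb : ∀ φ ∈ T, Measurable φ ∧ ∃ C : ℝ, ∀ x, |φ x| ≤ C) (μ : Measure X)
    [IsFiniteMeasure μ] (g : X → ℝ) (hg : Integrable g μ)
    (h : ∀ φ ∈ T, ∫ x, g x * φ x ∂μ = 0) :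
    Orth (⨆ φ ∈ T, MeasurableSpace.comap φ inferInstance) μ g := by
  have := isFiniteMeasure_withDensity_ofReal hg.2
  have : IsFiniteMeasure (μ.withDensity fun x => ENNReal.ofReal (-g x)) :=
    isFiniteMeasure_withDensity_ofReal hg.neg.2
  have hle := sig_le hb
  have key : (μ.withDensity fun x => ENNReal.ofReal (g x)).trim hle =
      (μ.withDensity fun x => ENNReal.ofReal (-g x)).trim hle := by
    refine @Measure.ext _ (⨆ φ ∈ T, MeasurableSpace.comap φ inferInstance) _ _ fun A hA => ?_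
    rw [trim_measurableSet_eq hle hA, trim_measurableSet_eq hle hA]
    refine partC h1 hm hb _ _ (fun φ hφ => ?_) A hA
    obtain ⟨hφm, C, hC⟩ := hb φ hφ
    have := split μ hg hφm.aestronglyMeasurable (C := C) (Eventually.of_forall hC)
    rw [h φ hφ] at this
    linarith
  rintro ψ ⟨hψ, C, hC⟩
  have e := hψ.ae_eq_mk
  have hs := hψ.stronglyMeasurable_mk
  have hC' : ∀ᵐ x ∂μ, ‖hψ.mk ψ x‖ ≤ C := by
    filter_upwards [e, hC] with x h1 h2
    rwa [← h1]
  have : ∫ x, g x * ψ x ∂μ = ∫ x, g x * hψ.mk ψ x ∂μ := by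
    refine integral_congr_ae ?_
    filter_upwards [e] with x hx
    rw [hx]
  rw [this, split μ hg (hs.mono hle).aestronglyMeasurable hC', integral_trim hle hs,
    integral_trim hle hs, key, sub_self]

theorem partB (h1 : (1 : X → ℝ) ∈ T) (hm : ∀ φ ∈ T, ∀ φ' ∈ T, φ * φ' ∈ T)
    (hb : ∀ φ ∈ T, Measurable φ ∧ ∃ C : ℝ, ∀ x, |φ x| ≤ C) (μ : Measure X)
    [IsFiniteMeasure μ] (ψ : X → ℝ)
    (hψ : ABM (⨆ φ ∈ T, MeasurableSpace.comap φ inferInstance) μ ψ) (ε : ℝ) (hε : 0 < ε) :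
    ∃ φ ∈ Submodule.span ℝ T, ∫ x, |ψ x - φ x| ∂μ < ε := by
  have hle := sig_le hb
  obtain ⟨C, hC⟩ := hψ.2
  have hψ2 : MemLp ψ 2 μ := MemLp.of_bound (hψ.1.mono hle) C hC
  let K : Submodule ℝ (Lp ℝ 2 μ) :=
    { carrier := {u | ∃ φ ∈ Submodule.span ℝ T, u =ᵐ[μ] φ}
      add_mem' := by
        rintro a b ⟨φ, hφ, ha⟩ ⟨φ', hφ', hb'⟩
        exact ⟨φ + φ', Submodule.add_mem _ hφ hφ', (Lp.coeFn_add a b).trans (ha.add hb')⟩
      zero_mem' := ⟨0, Submodule.zero_mem _, Lp.coeFn_zero _ _ _⟩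
      smul_mem' := by
        rintro c a ⟨φ, hφ, ha⟩
        exact ⟨c • φ, Submodule.smul_mem _ c hφ, (Lp.coeFn_smul c a).trans (ha.const_smul c)⟩ }
  have hK : hψ2.toLp ψ ∈ K.topologicalClosure := by
    rw [← Submodule.orthogonal_orthogonal_eq_closure, Submodule.mem_orthogonal]
    intro g hg
    have hgi : Integrable g μ := (Lp.memLp g).integrable (by norm_num)
    have ho := partA h1 hm hb μ g hgi fun φ hφ => by
      obtain ⟨hφm, D, hD⟩ := hb φ hφ
      have hφ2 : MemLp φ 2 μ :=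
        MemLp.of_bound hφm.aestronglyMeasurable D (Eventually.of_forall hD)
      have := (Submodule.mem_orthogonal _ _).1 hg (hφ2.toLp φ)
        ⟨φ, Submodule.subset_span hφ, hφ2.coeFn_toLp⟩
      rw [L2.inner_def] at this
      rw [← this]
      refine integral_congr_ae ?_
      filter_upwards [hφ2.coeFn_toLp] with x hx
      simp [hx]
    rw [L2.inner_def, ← ho ψ hψ]
    refine integral_congr_ae ?_
    filter_upwards [hψ2.coeFn_toLp] with x hx
    simp [hx, mul_comm]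
  set m : ℝ := μ.real Set.univ with hm'
  have hm0 : 0 ≤ m := measureReal_nonneg
  set η : ℝ := ε / (2 * (m + 1)) with hη
  have hη0 : 0 < η := by positivity
  have hδ : 0 < Real.sqrt (ε * η / 2) := Real.sqrt_pos.2 (by positivity)
  obtain ⟨u, ⟨φ, hφ, hu⟩, hd⟩ := Metric.mem_closure_iff.1
    (show hψ2.toLp ψ ∈ closure (K : Set (Lp ℝ 2 μ)) from hK) _ hδ
  refine ⟨φ, hφ, ?_⟩
  rw [dist_eq_norm] at hd
  set w := hψ2.toLp ψ - u with hw
  have hw' : w =ᵐ[μ] fun x => ψ x - φ x := by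
    filter_upwards [Lp.coeFn_sub (hψ2.toLp ψ) u, hψ2.coeFn_toLp, hu] with x h1 h2 h3
    rw [hw, h1, Pi.sub_apply, h2, h3]
  have hsq : ∫ x, w x * w x ∂μ = ‖w‖ ^ 2 := by
    rw [← real_inner_self_eq_norm_sq, L2.inner_def]
    simp [sq]
  have hlt : ‖w‖ ^ 2 < ε * η / 2 := by
    have := pow_lt_pow_left₀ hd (norm_nonneg _) two_ne_zero
    rwa [Real.sq_sqrt (by positivity)] at this
  have hi2 : Integrable (fun x => w x * w x) μ := (Lp.memLp w).integrable_mul (Lp.memLp w)
  have hle2 : ∫ x, |ψ x - φ x| ∂μ ≤ ∫ x, (η + η⁻¹ * (w x * w x)) ∂μ := by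
    refine integral_mono_of_nonneg (Eventually.of_forall fun x => abs_nonneg _)
      ((integrable_const η).add (hi2.const_mul _)) ?_
    filter_upwards [hw'] with x hx
    rw [← hx, ← abs_mul_abs_self (w x)]
    have ha := abs_nonneg (w x)
    have : |w x| * η ≤ (η + η⁻¹ * (|w x| * |w x|)) * η := by
      have : (η + η⁻¹ * (|w x| * |w x|)) * η = η * η + |w x| * |w x| := by
        field_simp
      rw [this]
      nlinarith [sq_nonneg (η - |w x|), mul_nonneg ha hη0.le]
    exact le_of_mul_le_mul_right this hη0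
  rw [integral_add (integrable_const η) (hi2.const_mul _), integral_const, integral_const_mul,
    hsq, smul_eq_mul, ← hm'] at hle2
  have h2 : η⁻¹ * ‖w‖ ^ 2 < ε / 2 := by
    rw [inv_mul_lt_iff₀ hη0]
    linarith
  have h3 : m * η ≤ ε / 2 := by
    rw [hη, mul_div_assoc', div_le_div_iff₀ (by positivity) (by norm_num)]
    nlinarith
  linarith

end Dens

theorem dens : DensS := fun T h1 hm hb =>
  ⟨fun μ _ g hg h => Dens.partA h1 hm hb μ g hg h,
    fun μ _ ψ hψ ε hε => Dens.partB h1 hm hb μ ψ hψ ε hε,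
    fun μ μ' _ _ h A hA => Dens.partC h1 hm hb μ μ' h A hA⟩

end Pool.Agent.MP_154433_an.SG

end

end MrgPart0

-- ======== part 1: formerly Pool.Agent.MP_154433_an.sg.ST
section MrgPart1

/-! The structured part of a function of the point. -/

set_option autoImplicit false
set_option warn.classDefReducibility false

open MeasureTheory ProbabilityTheory Filter Topology Function

noncomputable section

namespace Pool.Agent.MP_154433_an.SG

namespace STr

open Fam

theorem aesm_of {X : Type} {m m' m0 : MeasurableSpace X} {μ : @Measure X m0}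
    (h : ∀ A, MeasurableSet[m] A → ∃ B, MeasurableSet[m'] B ∧ A =ᵐ[μ] B) {g : X → ℝ}
    (hg : StronglyMeasurable[m] g) : AEStronglyMeasurable[m'] g μ := by
  refine @StronglyMeasurable.induction X ℝ m _ _ (fun g _ => AEStronglyMeasurable[m'] g μ)
    (fun c s hs => ?_) (fun _ _ _ _ _ _ a b => a.add b) (fun f g _ _ a l => ?_) g hg
  · obtain ⟨B, hB, e⟩ := h s hs
    exact ⟨B.indicator fun _ => c, stronglyMeasurable_const.indicator hB,
      indicator_ae_eq_of_ae_eq_set e⟩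
  · choose f' h1 h2 using a
    refine ⟨fun x => limsup (fun n => f' n x) atTop,
      (Measurable.limsup fun n => (h1 n).measurable).stronglyMeasurable, ?_⟩
    filter_upwards [ae_all_iff.2 h2] with x hx
    exact ((l x).congr hx).limsup_eq.symm

theorem abm_int {X : Type} {m m0 : MeasurableSpace X} {μ : @Measure X m0} [IsFiniteMeasure μ]
    (hm : m ≤ m0) {g : X → ℝ} (h : ABM m μ g) : Integrable g μ :=
  let ⟨C, hC⟩ := h.2
  Integrable.of_bound (h.1.mono hm) C hC

theorem ce_mul {X : Type} {m m0 : MeasurableSpace X} {μ : @Measure X m0} [IsFiniteMeasure μ]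
    (hm : m ≤ m0) {g ψ : X → ℝ} (hg : Integrable g μ) (h : ABM m μ ψ) :
    ∫ x, g x * ψ x ∂μ = ∫ x, (μ[g | m]) x * ψ x ∂μ := by
  obtain ⟨C, hC⟩ := h.2
  have i : Integrable (g * ψ) μ := hg.mul_bdd (h.1.mono hm) hC
  have e := condExp_mul_of_aestronglyMeasurable_right h.1 i hg
  exact (integral_condExp hm (f := g * ψ)).symm.trans (integral_congr_ae e)

variable {S : Sys}

theorem full_le (I : Set ℕ) : S.Full I ≤ (inferInstance : MeasurableSpace S.Pt) :=
  biSup_mono fun _ _ => trivial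

theorem bd_le (D : Finset ℕ) : S.Bd D ≤ (inferInstance : MeasurableSpace S.Pt) :=
  iSup₂_le fun _ _ => full_le _

theorem th_add (c c' : ℕ →₀ ℤ) (x : S.Pt) : S.Th (c + c') x = S.Th c (S.Th c' x) := by
  have e : S.th (c + c') = (S.th c).comp (S.th c') := by
    ext1
    funext N ω
    have k : dot c (update ω 0 (ω 0 + dot c' ω)) = dot c ω :=
      dot_congr c fun j _ hj => update_of_ne hj _ _
    have k' : dot (c + c') ω = dot c ω + dot c' ω := by
      simp only [dot, Finsupp.erase_add, map_add]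
    change update ω 0 (ω 0 + dot (c + c') ω) = update (update ω 0 (ω 0 + dot c' ω)) 0
      (update ω 0 (ω 0 + dot c' ω) 0 + dot c (update ω 0 (ω 0 + dot c' ω)))
    rw [k, k', update_idem, update_self]
    congr 1
    abel
  rw [Th, e]
  rfl

/-- the sets of degree at most `k` -/
def Zk (S : Sys) (hS : Fd S) (k : ℕ) : MeasurableSpace S.Pt where
  MeasurableSet' A := MeasurableSet[S.Full {0}] A ∧ ∀ D : Finset ℕ, Sys.Dn D → D.card = k + 1 →
    ∃ B, MeasurableSet[S.Bd D] B ∧ (S.Th (eS D) ⁻¹' A : Set S.Pt) =ᵐ[S.μ] B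
  measurableSet_empty := ⟨@MeasurableSet.empty _ (S.Full {0}), fun D _ _ =>
    ⟨∅, @MeasurableSet.empty _ (S.Bd D), EventuallyEq.rfl⟩⟩
  measurableSet_compl A h := ⟨h.1.compl, fun D a b =>
    let ⟨B, h1, h2⟩ := h.2 D a b; ⟨Bᶜ, h1.compl, h2.compl⟩⟩
  measurableSet_iUnion A h := ⟨MeasurableSet.iUnion fun i => (h i).1, fun D a b => by
    have := hS.thmp
    choose B h1 h2 using fun i => (h i).2 D a b
    refine ⟨⋃ i, B i, MeasurableSet.iUnion h1, ?_⟩
    rw [Set.preimage_iUnion]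
    exact Filter.EventuallyEq.countable_iUnion h2⟩

variable (hS : Fd S)

theorem zk_le (k : ℕ) : Zk S hS k ≤ S.Full {0} := fun _ h => h.1

theorem zk_succ (k : ℕ) : Zk S hS k ≤ Zk S hS (k + 1) := by
  refine fun A h => ⟨h.1, fun D hD hc => ?_⟩
  obtain ⟨j, hj⟩ : D.Nonempty := Finset.card_pos.1 (by omega)
  obtain ⟨B, h1, h2⟩ := h.2 (D.erase j) (fun i hi => hD i (Finset.mem_of_mem_erase hi))
    (by rw [Finset.card_erase_of_mem hj]; omega)
  have le : (S.Bd (D.erase j)).comap (S.Th (ee j)) ≤ S.Bd D := by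
    rw [Sys.Bd, MeasurableSpace.comap_iSup]
    refine iSup_le fun i => ?_
    rw [MeasurableSpace.comap_iSup]
    refine iSup_le fun hi => ?_
    refine le_trans (hS.thetaF _ (insert 0 (D.erase i : Set ℕ)) _ ?_ ?_)
      (le_iSup₂ (f := fun j (_ : j ∈ D) => S.Full (insert 0 (D.erase j : Set ℕ))) i
        (Finset.mem_of_mem_erase hi))
    · exact Set.insert_subset_insert (Finset.coe_subset.2
        (Finset.erase_subset_erase _ (Finset.erase_subset _ _)))
    · intro z hz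
      have e := Finset.mem_singleton.1 (Finsupp.support_single_subset (Finset.mem_coe.1 hz))
      exact Or.inr (Finset.mem_coe.2
        (Finset.mem_erase.2 ⟨e ▸ (Finset.ne_of_mem_erase hi).symm, e ▸ hj⟩))
  refine ⟨S.Th (ee j) ⁻¹' B, le _ ⟨B, h1, rfl⟩, ?_⟩
  have e : S.Th (eS D) ⁻¹' A = S.Th (ee j) ⁻¹' (S.Th (eS (D.erase j)) ⁻¹' A) := by
    ext x
    rw [Set.mem_preimage, Set.mem_preimage, Set.mem_preimage, ← th_add, eS, eS,
      Finset.sum_erase_add _ _ hj]
  rw [e]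
  exact (hS.thmp (ee j)).quasiMeasurePreserving.preimage_ae_eq h2

/-- the filtration by the degree -/
def FZ : Filtration ℕ (inferInstance : MeasurableSpace S.Pt) where
  seq := Zk S hS
  mono' := monotone_nat_of_le_succ (zk_succ hS)
  le' k := (zk_le hS k).trans (full_le _)

theorem str_zk {k : ℕ} {b : S.Pt → ℝ} (h : S.Str k b) :
    AEStronglyMeasurable[Zk S hS k] b S.μ := by
  obtain ⟨b', h1, h2⟩ := h.1.1
  refine ⟨b', Measurable.stronglyMeasurable fun U hU => ⟨h1.measurable hU, fun D a c => ?_⟩, h2⟩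
  obtain ⟨c', k1, k2⟩ := h.2 D a c
  refine ⟨c' ⁻¹' U, k1.measurable hU, ?_⟩
  filter_upwards [k2, (hS.thmp (eS D)).quasiMeasurePreserving.ae h2] with x e1 e2
  change (b' (S.Th (eS D) x) ∈ U) = (c' x ∈ U)
  rw [← e1, e2]

theorem zk_str {k : ℕ} {b : S.Pt → ℝ} (h : StronglyMeasurable[Zk S hS k] b)
    (hb : ∀ᵐ x ∂S.μ, |b x| ≤ 1) : S.Str k b := by
  refine ⟨⟨(h.mono (zk_le hS k)).aestronglyMeasurable, 1, hb⟩, fun D a c => ?_⟩
  refine aesm_of (m := (Zk S hS k).comap (S.Th (eS D))) ?_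
    (h.comp_measurable (comap_measurable _))
  rintro _ ⟨A, hA, rfl⟩
  exact hA.2 D a c

end STr

open STr

theorem st : STS := by
  intro S hS zo bo f hf hb
  have top : ⨆ k, FZ hS k ≤ S.Full {0} := iSup_le (zk_le hS)
  have top' := top.trans (full_le _)
  have fi := abm_int (full_le _) hf
  have bd : ∀ m : MeasurableSpace S.Pt, ∀ᵐ x ∂S.μ, |(S.μ[f | m]) x| ≤ 1 := fun m =>
    ae_bdd_abs_condExp_of_ae_bdd_abs hb
  have ha : ABM (S.Full {0}) S.μ (S.μ[f | ⨆ k, FZ hS k]) :=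
    ⟨(stronglyMeasurable_condExp.mono top).aestronglyMeasurable, 1, bd _⟩
  refine ⟨_, ha, bd _, ?_, fun ε hε => ?_⟩
  · obtain ⟨C, hC⟩ := hf.2
    have hg : ABM (S.Full {0}) S.μ fun x => f x - (S.μ[f | ⨆ k, FZ hS k]) x :=
      ⟨hf.1.sub ha.1, 2, by
        filter_upwards [hb, bd (⨆ k, FZ hS k)] with x h1 h2
        exact (abs_sub _ _).trans (by linarith)⟩
    refine bo _ hg fun D hD hne ψ hψ => ?_
    obtain ⟨b, sb, e⟩ := zo (D.card - 1) _ D hg hD (by have := hne.card_pos; omega)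
    have mp := hS.thmp (eS D)
    have gi : Integrable (fun x => f (S.Th (eS D) x) - (S.μ[f | ⨆ k, FZ hS k]) (S.Th (eS D) x))
      S.μ := mp.integrable_comp_of_integrable (abm_int (full_le _) hg)
    obtain ⟨C', hC'⟩ := sb.1.2
    have hb' : ABM (S.Bd D) S.μ fun x => b (S.Th (eS D) x) :=
      ⟨sb.2 D hD (by have := hne.card_pos; omega), C', mp.quasiMeasurePreserving.ae hC'⟩
    have hz : ABM (⨆ k, FZ hS k) S.μ b :=
      ⟨(str_zk hS sb).mono (le_iSup (fun k => FZ hS k) _), C', hC'⟩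
    have z0 : ∫ x, (f x - (S.μ[f | ⨆ k, FZ hS k]) x) * b x ∂S.μ = 0 := by
      simp only [sub_mul]
      rw [integral_sub (fi.mul_bdd (hz.1.mono top') hC')
        (integrable_condExp.mul_bdd (hz.1.mono top') hC'), ce_mul top' fi hz, sub_self]
    have z1 : ∫ x, b (S.Th (eS D) x) * b (S.Th (eS D) x) ∂S.μ = 0 := by
      have e1 := ce_mul (bd_le D) gi hb'
      have e2 : ∫ x, (f (S.Th (eS D) x) - (S.μ[f | ⨆ k, FZ hS k]) (S.Th (eS D) x)) *
          b (S.Th (eS D) x) ∂S.μ = 0 := by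
        rw [← z0]
        have m : AEStronglyMeasurable (fun x => (f x - (S.μ[f | ⨆ k, FZ hS k]) x) * b x)
            (S.μ.map (S.Th (eS D))) := by
          rw [mp.map_eq]
          exact (hg.1.mono (full_le _)).mul (hz.1.mono top')
        have q := integral_map mp.measurable.aemeasurable m
        rw [mp.map_eq] at q
        exact q.symm
      rw [← e2, e1]
      exact integral_congr_ae (e.mono fun x hx => by simp only [hx])
    have z2 := (integral_eq_zero_iff_of_nonneg (fun x => mul_self_nonneg _)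
      ((abm_int (bd_le D) hb').mul_bdd (hb'.1.mono (bd_le D))
        (mp.quasiMeasurePreserving.ae hC'))).1 z1
    rw [ce_mul (bd_le D) gi hψ]
    refine integral_eq_zero_of_ae ?_
    filter_upwards [e, z2] with x h1 h2
    rw [h1, mul_self_eq_zero.1 h2, zero_mul]
    rfl
  · have t := (ENNReal.tendsto_toReal ENNReal.zero_ne_top).comp
      (tendsto_eLpNorm_condExp (μ := S.μ) (ℱ := FZ hS) f)
    filter_upwards [t.eventually (gt_mem_nhds (show ENNReal.toReal 0 < ε from hε))] with k hk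
    refine ⟨S.μ[f | FZ hS k], zk_str hS stronglyMeasurable_condExp (bd _), bd _, ?_⟩
    refine lt_of_eq_of_lt ?_ hk
    rw [Function.comp, eLpNorm_one_eq_lintegral_enorm, ← integral_norm_eq_lintegral_enorm
      (integrable_condExp.sub integrable_condExp).aestronglyMeasurable]
    exact integral_congr_ae (Eventually.of_forall fun x => abs_sub_comm _ _)

end Pool.Agent.MP_154433_an.SG

end

end MrgPart1

-- ======== part 2: formerly Pool.Agent.MP_154433_an.sg.ZS
section MrgPart2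

/-! Row ZS: a structured function of degree `k`, moved by any finite set of dense indices, is
measurable for the sets of at most `k` indices. -/

set_option autoImplicit false

open MeasureTheory ProbabilityTheory Filter Topology Function

noncomputable section

namespace Pool.Agent.MP_154433_an.SG

open Fam

namespace ZSr

section Abm

variable {X : Type} {m m' : MeasurableSpace X} {m0 : MeasurableSpace X} {μ : Measure X}

lemma abm_mono {g : X → ℝ} (h : ABM m μ g) (hm : m ≤ m') : ABM m' μ g :=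
  ⟨h.1.mono hm, h.2⟩

lemma abm_mul {g g' : X → ℝ} (h : ABM m μ g) (h' : ABM m μ g') :
    ABM m μ fun x => g x * g' x := by
  obtain ⟨h1, C, hC⟩ := h
  obtain ⟨h2, C', hC'⟩ := h'
  refine ⟨h1.mul h2, C * C', ?_⟩
  filter_upwards [hC, hC'] with x a b
  rw [norm_mul]
  exact mul_le_mul a b (norm_nonneg _) ((norm_nonneg _).trans a)

lemma abm_sub {g g' : X → ℝ} (h : ABM m μ g) (h' : ABM m μ g') :
    ABM m μ fun x => g x - g' x := by
  obtain ⟨h1, C, hC⟩ := h
  obtain ⟨h2, C', hC'⟩ := h'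
  refine ⟨h1.sub h2, C + C', ?_⟩
  filter_upwards [hC, hC'] with x a b
  exact (norm_sub_le _ _).trans (add_le_add a b)

lemma abm_int [IsFiniteMeasure μ] {g : X → ℝ} (h : ABM m μ g) (hm : m ≤ m0) :
    Integrable g μ := by
  obtain ⟨h1, C, hC⟩ := h
  exact Integrable.of_bound (h1.mono hm) C hC

lemma abm_cond [IsFiniteMeasure μ] {g : X → ℝ} (h : ABM m0 μ g) : ABM m μ (μ[g | m]) := by
  obtain ⟨h1, C, hC⟩ := h
  exact ⟨stronglyMeasurable_condExp.aestronglyMeasurable, C,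
    ae_bdd_abs_condExp_of_ae_bdd_abs (R := C) hC⟩

lemma orth_cond [IsFiniteMeasure μ] {g : X → ℝ} (hm : m ≤ m0) (h : ABM m0 μ g) :
    Orth m μ fun x => g x - (μ[g | m]) x := by
  intro ψ hψ
  have hg : Integrable g μ := abm_int h le_rfl
  have h1 : Integrable (ψ * g) μ := abm_int (abm_mul (abm_mono hψ hm) h) le_rfl
  have h2 := condExp_mul_of_aestronglyMeasurable_left hψ.1 h1 hg
  have h3 : Integrable (fun x => ψ x * (μ[g | m]) x) μ := abm_int (abm_mul hψ (abm_cond h)) hm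
  have h4 : ∫ x, ψ x * (μ[g | m]) x ∂μ = ∫ x, ψ x * g x ∂μ :=
    (integral_congr_ae h2).symm.trans (integral_condExp hm)
  have h5 : ∀ x, (g x - (μ[g | m]) x) * ψ x = ψ x * g x - ψ x * (μ[g | m]) x := fun x => by ring
  simp only [h5]
  exact (integral_sub h1 h3).trans (sub_eq_zero.2 h4.symm)

lemma zero_of_orth [IsFiniteMeasure μ] {g : X → ℝ} (hm : m ≤ m0) (h : ABM m μ g)
    (ho : Orth m μ g) : g =ᵐ[μ] 0 := by
  have h1 := ho g h
  have h2 : Integrable (fun x => g x * g x) μ := abm_int (abm_mul h h) hm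
  rw [integral_eq_zero_iff_of_nonneg (fun x => mul_self_nonneg (g x)) h2] at h1
  filter_upwards [h1] with x hx
  exact mul_self_eq_zero.1 hx

end Abm

variable {Φ : Fam}

lemma sig_mono {T T' : Set Φ.Alg} (h : T ⊆ T') : sig T ≤ sig T' :=
  biSup_mono h

lemma sig_le (T : Set Φ.Alg) : sig T ≤ (inferInstance : MeasurableSpace Φ.Pt) :=
  sig_mono (Set.subset_univ T)

lemma hat_meas {T : Set Φ.Alg} {F : Φ.Alg} (h : F ∈ T) : Measurable[sig T] (hat F) :=
  Measurable.of_comap_le (le_biSup (fun F => MeasurableSpace.comap (hat F) inferInstance) h)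

lemma hat_abm {T : Set Φ.Alg} {F : Φ.Alg} (h : F ∈ T) (μ : Measure Φ.Pt) :
    ABM (sig T) μ (hat F) := by
  obtain ⟨-, C, hC⟩ := F.2
  exact ⟨(hat_meas h).stronglyMeasurable.aestronglyMeasurable, C,
    Eventually.of_forall fun x => x.bdd F C hC⟩

lemma hat_mul (F F' : Φ.Alg) (x : Φ.Pt) : hat (F * F') x = hat F x * hat F' x :=
  map_mul x.ev F F'

/-- products of functions that depend on one of the index sets `0 + J` -/
def TA (Φ : Fam) (𝒜 : Set (Finset ℕ)) : Submonoid Φ.Alg :=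
  Submonoid.closure (⋃ J ∈ 𝒜, {F | Dep F (insert 0 (J : Set ℕ))})

lemma mem_TA {𝒜 : Set (Finset ℕ)} {J : Finset ℕ} (hJ : J ∈ 𝒜) {F : Φ.Alg}
    (h : Dep F (insert 0 (J : Set ℕ))) : F ∈ TA Φ 𝒜 :=
  Submonoid.subset_closure (Set.mem_biUnion hJ h)

lemma sig_TA (𝒜 : Set (Finset ℕ)) :
    sig (TA Φ 𝒜 : Set Φ.Alg) = ⨆ J ∈ 𝒜, Φ.Full (insert 0 (J : Set ℕ)) := by
  refine le_antisymm (iSup₂_le fun F hF => Measurable.comap_le ?_)
    (iSup₂_le fun J hJ => sig_mono fun F hF => mem_TA hJ hF)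
  induction hF using Submonoid.closure_induction with
  | mem F hF =>
    obtain ⟨J, hJ, h⟩ := Set.mem_iUnion₂.1 hF
    exact (hat_meas h).mono (le_biSup (fun J : Finset ℕ => Φ.Full (insert 0 (J : Set ℕ))) hJ)
      le_rfl
  | one =>
    have : hat (1 : Φ.Alg) = fun _ => 1 := funext fun x => map_one x.ev
    rw [this]
    exact measurable_const
  | mul F F' _ _ h h' =>
    have : hat (F * F') = fun x => hat F x * hat F' x := funext (hat_mul F F')
    rw [this]
    exact h.mul h'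

lemma dep_mono {F : Φ.Alg} {I I' : Set ℕ} (h : Dep F I) (hI : I ⊆ I') : Dep F I' :=
  fun N => (h N).mono hI

lemma full_mono {I I' : Set ℕ} (hI : I ⊆ I') : Φ.Full I ≤ Φ.Full I' :=
  sig_mono fun _ h => dep_mono h hI

lemma TA_mono {𝒜 ℬ : Set (Finset ℕ)} (h : ∀ J ∈ 𝒜, ∃ J' ∈ ℬ, J ⊆ J') : TA Φ 𝒜 ≤ TA Φ ℬ := by
  refine Submonoid.closure_le.2 fun F hF => ?_
  obtain ⟨J, hJ, hF⟩ := Set.mem_iUnion₂.1 hF
  obtain ⟨J', hJ', hs⟩ := h J hJ
  exact mem_TA hJ' (dep_mono hF (Set.insert_subset_insert (Finset.coe_subset.2 hs)))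

lemma dep_sec {F : Φ.Alg} {I K : Set ℕ} (σ : ∀ N, Φ.Om N) (h : Dep F K) :
    Dep ((sec Iᶜ σ).pull F) (K ∩ I) := by
  intro N x y hxy
  refine h N fun j hj => ?_
  by_cases hI : j ∈ I
  · simpa [sec, Set.piecewise, hI] using hxy j ⟨hj, hI⟩
  · simp [sec, Set.piecewise, hI]

/-- removal of one maximal set -/
lemma step (S : Sys) (hS : Fd S) (T T0 T1 T2 : Submonoid S.Alg) (I : Set ℕ)
    (h10 : T1 ≤ T0) (h02 : T0 ≤ T2) (h0 : T0 ≤ T) (h1 : ∀ F ∈ T1, Dep F I)
    (hT : ∀ F ∈ T, ∃ ψ ∈ T0, ∃ φ, Dep φ I ∧ F = ψ * φ)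
    (hs : ∀ σ, ∀ F ∈ T2, (sec Iᶜ σ).pull F ∈ T1) (X : S.Pt → ℝ)
    (hX : ABM (sig (T : Set S.Alg)) S.μ X)
    (hX2 : AEStronglyMeasurable[sig (T2 : Set S.Alg)] X S.μ) :
    AEStronglyMeasurable[sig (T0 : Set S.Alg)] X S.μ := by
  have hXm : ABM inferInstance S.μ X := abm_mono hX (sig_le _)
  have hY : ABM (sig (T0 : Set S.Alg)) S.μ (S.μ[X | sig (T0 : Set S.Alg)]) := abm_cond hXm
  have ho := orth_cond (sig_le (T0 : Set S.Alg)) hXm
  set h : S.Pt → ℝ := fun x => X x - (S.μ[X | sig (T0 : Set S.Alg)]) x with hh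
  have hT1 : ABM (sig (T : Set S.Alg)) S.μ h := abm_sub hX (abm_mono hY (sig_mono h0))
  have hT2 : ABM (sig (T2 : Set S.Alg)) S.μ h := abm_sub ⟨hX2, hX.2⟩ (abm_mono hY (sig_mono h02))
  have key : Orth (sig (T : Set S.Alg)) S.μ h := by
    refine hS.densA T h (abm_int hT1 (sig_le _)) fun F hF => ?_
    obtain ⟨ψ, hψ, φ, hφ, rfl⟩ := hT F hF
    have hφ1 : ABM (S.Full I) S.μ (hat φ) := hat_abm (T := {F | Dep F I}) hφ _
    have hφm : ABM inferInstance S.μ (hat φ) := abm_mono hφ1 (sig_le _)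
    have hZ : ABM (sig (T1 : Set S.Alg)) S.μ (S.μ[hat φ | sig (T1 : Set S.Alg)]) := abm_cond hφm
    have hg := hS.samp T1 T2 I hs _
      (abm_sub hφ1 (abm_mono hZ (sig_mono (T' := {F | Dep F I}) h1)))
      (orth_cond (sig_le (T1 : Set S.Alg)) hφm)
    have hψ0 : ABM (sig (T0 : Set S.Alg)) S.μ (hat ψ) := hat_abm hψ _
    have hA := abm_mul hT2 (abm_mono hψ0 (sig_mono h02))
    have hB := abm_mul hψ0 (abm_mono hZ (sig_mono h10))
    have e1 := hg _ hA
    have e2 := ho _ hB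
    have i1 := abm_int (abm_mul (abm_sub hφm (abm_mono hZ (sig_le _))) (abm_mono hA (sig_le _)))
      le_rfl
    have i2 := abm_int (abm_mul (abm_mono hT1 (sig_le _)) (abm_mono hB (sig_le _))) le_rfl
    have e3 := integral_add i1 i2
    rw [e1, e2, add_zero] at e3
    rw [← e3]
    refine integral_congr_ae (Eventually.of_forall fun x => ?_)
    simp only [hat_mul]
    ring
  refine hY.1.congr ?_
  filter_upwards [zero_of_orth (sig_le _) hT1 key] with x hx
  exact (sub_eq_zero.1 hx).symm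

lemma th_add (c c' : ℕ →₀ ℤ) (x : Φ.Pt) : Φ.Th (c + c') x = Φ.Th c (Φ.Th c' x) := by
  have : Φ.th (c + c') = (Φ.th c).comp (Φ.th c') := by
    refine FMap.ext (funext fun N => funext fun ω => ?_)
    have e : dot c (update ω 0 (ω 0 + dot c' ω)) = dot c ω :=
      dot_congr c fun j _ hj => update_of_ne hj _ _
    have e' : dot (c + c') ω = dot c ω + dot c' ω := by
      simp only [dot, Finsupp.erase_add, map_add]
    simp only [th, FMap.comp, update_self, update_idem, e, e']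
    rw [add_assoc, add_comm (dot c' ω)]
  unfold Th
  rw [this]
  rfl

lemma eS_supp (D : Finset ℕ) : (eS D).support ⊆ D := by
  intro j hj
  by_contra h
  refine Finsupp.mem_support_iff.1 hj ?_
  rw [eS, Finsupp.finsetSum_apply]
  exact Finset.sum_eq_zero fun i hi => Finsupp.single_eq_of_ne (by rintro rfl; exact h hi)

lemma aem_comp0 {X : Type} {m m' : MeasurableSpace X} {m0 : MeasurableSpace X} {μ : Measure X}
    {Θ : X → X} (hΘ : MeasurePreserving Θ μ μ) (hm : m.comap Θ ≤ m') {g : X → ℝ}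
    (h : AEStronglyMeasurable[m] g μ) : AEStronglyMeasurable[m'] (fun x => g (Θ x)) μ := by
  obtain ⟨g', h1, h2⟩ := h
  exact ⟨g' ∘ Θ, h1.comp_measurable (Measurable.of_comap_le hm),
    hΘ.quasiMeasurePreserving.ae_eq_comp h2⟩

/-- the moved function does not need all indices of a large set at once -/
lemma miss (S : Sys) (hS : Fd S) (k : ℕ) (a : S.Pt → ℝ) (D J : Finset ℕ) (ha : S.Str k a)
    (hD : Sys.Dn D) (hJ : J ⊆ D) (hk : k < J.card) :
    AEStronglyMeasurable[sig (TA S.toFam {K | ∃ j ∈ J, K = D.erase j} : Set S.Alg)]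
      (fun x => a (S.Th (eS D) x)) S.μ := by
  obtain ⟨J0, h0, hc⟩ := Finset.exists_subset_card_eq (n := k + 1) hk
  have h1 := ha.2 J0 (fun j hj => hD j (hJ (h0 hj))) hc
  have e : eS D = eS J0 + eS (D \ J0) := by
    rw [eS, eS, eS, add_comm, Finset.sum_sdiff (h0.trans hJ)]
  simp only [e, th_add]
  refine aem_comp0 (hS.thmp _) ?_ h1
  rw [sig_TA, Sys.Bd]
  simp only [MeasurableSpace.comap_iSup]
  refine iSup₂_le fun j hj => ?_
  refine le_trans (hS.thetaF _ (insert 0 (D.erase j : Set ℕ)) _ ?_ ?_)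
    (le_biSup (fun J : Finset ℕ => S.Full (insert 0 (J : Set ℕ)))
      (show D.erase j ∈ {K | ∃ j ∈ J, K = D.erase j} from ⟨j, h0 hj, rfl⟩))
  · exact Set.insert_subset_insert
      (Finset.coe_subset.2 (Finset.erase_subset_erase j (h0.trans hJ)))
  · intro i hi
    have h2 := Finset.mem_sdiff.1 (eS_supp _ hi)
    refine Or.inr (Finset.mem_coe.2 (Finset.mem_erase.2 ⟨?_, h2.1⟩))
    rintro rfl
    exact h2.2 hj

lemma descend (S : Sys) (hS : Fd S) (k : ℕ) (D : Finset ℕ) (X : S.Pt → ℝ)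
    (hb : ∃ C : ℝ, ∀ᵐ x ∂S.μ, ‖X x‖ ≤ C)
    (hm : ∀ J ⊆ D, k < J.card →
      AEStronglyMeasurable[sig (TA S.toFam {K | ∃ j ∈ J, K = D.erase j} : Set S.Alg)] X S.μ)
    (𝒜 : Finset (Finset ℕ)) : (∀ J ∈ 𝒜, J ⊆ D) → (∀ J ∈ 𝒜, ∀ K ⊆ J, K ∈ 𝒜) →
      AEStronglyMeasurable[sig (TA S.toFam 𝒜 : Set S.Alg)] X S.μ →
      AEStronglyMeasurable[S.Low k D] X S.μ := by
  induction 𝒜 using Finset.strongInduction with
  | H 𝒜 ih =>
  intro hD hdown hX
  by_cases hall : ∀ J ∈ 𝒜, J.card ≤ k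
  · refine hX.mono ?_
    rw [sig_TA]
    exact biSup_mono fun J hJ => ⟨hD J hJ, hall J hJ⟩
  push Not at hall
  obtain ⟨J1, hJ1, hk1⟩ := hall
  obtain ⟨J, hJ, hmax⟩ := Finset.exists_max_image 𝒜 Finset.card ⟨J1, hJ1⟩
  have hk : k < J.card := hk1.trans_le (hmax J1 hJ1)
  have hno : ∀ K ∈ 𝒜.erase J, ¬ J ⊆ K := fun K hK hs =>
    (Finset.mem_erase.1 hK).1
      (Finset.eq_of_subset_of_card_le hs (hmax K (Finset.mem_of_mem_erase hK))).symm
  refine ih (𝒜.erase J) (Finset.erase_ssubset hJ) (fun K hK => hD K (Finset.mem_of_mem_erase hK))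
    (fun K hK K' hs => Finset.mem_erase.2 ⟨?_, hdown K (Finset.mem_of_mem_erase hK) K' hs⟩) ?_
  · rintro rfl
    exact hno K hK hs
  refine step S hS (TA S.toFam 𝒜) _ (TA S.toFam {K | ∃ j ∈ J, K = J.erase j})
    (TA S.toFam {K | ∃ j ∈ J, K = D.erase j}) (insert 0 (J : Set ℕ)) ?_ ?_ ?_ ?_ ?_ ?_ X ⟨hX, hb⟩
    (hm J (hD J hJ) hk)
  · refine TA_mono ?_
    rintro _ ⟨j, hj, rfl⟩
    exact ⟨J.erase j, Finset.mem_coe.2 (Finset.mem_erase.2 ⟨(Finset.erase_ssubset hj).ne,
      hdown J hJ _ (Finset.erase_subset j J)⟩), le_rfl⟩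
  · refine TA_mono fun K hK => ?_
    obtain ⟨j, hj, hjK⟩ := Finset.not_subset.1 (hno K hK)
    exact ⟨D.erase j, ⟨j, hj, rfl⟩,
      Finset.subset_erase.2 ⟨hD K (Finset.mem_of_mem_erase hK), hjK⟩⟩
  · exact TA_mono fun K hK => ⟨K, Finset.mem_of_mem_erase hK, le_rfl⟩
  · intro F hF
    refine (Submonoid.closure_le (S := (S.DepS (insert 0 (J : Set ℕ))).toSubmonoid)).2 ?_ hF
    intro F hF
    obtain ⟨_, ⟨j, _, rfl⟩, hF⟩ := Set.mem_iUnion₂.1 hF
    exact dep_mono hF (Set.insert_subset_insert (Finset.coe_subset.2 (Finset.erase_subset j J)))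
  · intro F hF
    induction hF using Submonoid.closure_induction with
    | mem F hF =>
      obtain ⟨K, hK, hF⟩ := Set.mem_iUnion₂.1 hF
      by_cases e : K = J
      · subst e
        exact ⟨1, one_mem _, F, hF, (one_mul F).symm⟩
      · exact ⟨F, mem_TA (Finset.mem_coe.2 (Finset.mem_erase.2 ⟨e, hK⟩)) hF, 1,
          (S.DepS _).one_mem, (mul_one F).symm⟩
    | one => exact ⟨1, one_mem _, 1, (S.DepS _).one_mem, (mul_one 1).symm⟩
    | mul F F' _ _ h h' =>
      obtain ⟨ψ, h1, φ, h2, rfl⟩ := h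
      obtain ⟨ψ', h1', φ', h2', rfl⟩ := h'
      exact ⟨ψ * ψ', mul_mem h1 h1', φ * φ', (S.DepS _).mul_mem h2 h2', mul_mul_mul_comm _ _ _ _⟩
  · intro σ F hF
    induction hF using Submonoid.closure_induction with
    | mem F hF =>
      obtain ⟨_, ⟨j, hj, rfl⟩, hF⟩ := Set.mem_iUnion₂.1 hF
      refine mem_TA (show J.erase j ∈ {K | ∃ j ∈ J, K = J.erase j} from ⟨j, hj, rfl⟩)
        (dep_mono (dep_sec σ hF) ?_)
      rintro i ⟨h1 | h1, h2 | h2⟩
      · exact Or.inl h1
      · exact Or.inl h1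
      · exact Or.inl h2
      · exact Or.inr (Finset.mem_coe.2 (Finset.mem_erase.2 ⟨(Finset.mem_erase.1 h1).1, h2⟩))
    | one =>
      rw [map_one]
      exact one_mem _
    | mul F F' _ _ h h' =>
      rw [map_mul]
      exact mul_mem h h'

end ZSr

theorem zs : ZSS := by
  intro S hS k a D ha hD
  obtain ⟨C, hC⟩ := ha.1.2
  refine ZSr.descend S hS k D _ ⟨C, (hS.thmp _).quasiMeasurePreserving.ae hC⟩
    (fun J hJ hk => ZSr.miss S hS k a D J ha hD hJ hk) D.powerset
    (fun J hJ => Finset.mem_powerset.1 hJ)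
    (fun J hJ K hK => Finset.mem_powerset.2 (hK.trans (Finset.mem_powerset.1 hJ))) ?_
  refine ZSr.aem_comp0 (hS.thmp _) ?_ ha.1.1
  rw [ZSr.sig_TA]
  refine le_trans (hS.thetaF _ (insert 0 (D : Set ℕ)) _ ?_ ?_)
    (le_biSup (fun J : Finset ℕ => S.Full (insert 0 (J : Set ℕ)))
      (Finset.mem_coe.2 (Finset.mem_powerset_self D)))
  · exact Set.singleton_subset_iff.2 (Or.inl rfl)
  · exact fun i hi => Or.inr (ZSr.eS_supp D hi)

end Pool.Agent.MP_154433_an.SG

end

end MrgPart2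

-- ======== part 3: formerly Pool.Agent.MP_154433_an.sg.DG
section MrgPart3

/-! Row DG: for structured functions the sparse and the dense integral agree. -/

set_option autoImplicit false

open MeasureTheory ProbabilityTheory Filter Topology Function

noncomputable section

namespace Pool.Agent.MP_154433_an.SG

open Fam

namespace DGx

variable {Φ : Fam}

lemma meas_dep {N : ℕ} {f : Φ.Om N → ℝ} {T : Finset ℕ} (h : DependsOn f (T : Set ℕ)) :
    Measurable f := by
  classical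
  have : f = (fun y : T → Φ.G N => f fun j => if hj : j ∈ T then y ⟨j, hj⟩ else 0) ∘
      (fun (ω : Φ.Om N) (j : T) => ω j) := by
    funext ω
    exact h fun i hi => by simp [Finset.mem_coe.1 hi]
  rw [this]
  exact (Measurable.of_discrete).comp (measurable_pi_lambda _ fun j => measurable_pi_apply _)

lemma int_bd {α : Type} [MeasurableSpace α] (μ : Measure α) [IsFiniteMeasure μ] {f : α → ℝ}
    (hf : Measurable f) {C : ℝ} (hC : ∀ x, |f x| ≤ C) : Integrable f μ :=
  Integrable.of_bound hf.aestronglyMeasurable C (Eventually.of_forall hC)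

/-- spread a tuple over the indices `e j` -/
def spr {d N : ℕ} (e : Fin d → ℕ) (y : Fin d → Φ.G N) (n : ℕ) : Φ.G N :=
  ∑ j, if e j = n then y j else 0

lemma spr_e {d N : ℕ} {e : Fin d → ℕ} (he : Injective e) (y : Fin d → Φ.G N) (j : Fin d) :
    spr e y (e j) = y j := by
  simp [spr, he.eq_iff]

lemma spr_out {d N : ℕ} {e : Fin d → ℕ} (y : Fin d → Φ.G N) {n : ℕ} (hn : ∀ j, e j ≠ n) :
    spr e y n = 0 := by
  simp [spr, hn]

/-- add `ρ` times the pieces of the coordinate `u` to the coordinates `e j` -/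
def psi {d : ℕ} (e : Fin d → ℕ) (δ : ∀ N, Φ.G N → Fin d → Φ.G N) (u : ℕ) (ρ : ℤ) : Φ.FMap where
  toFun N ω n := ω n + ρ • spr e (δ N (ω u)) n
  fin n := ⟨{n, u}, fun N x y h => by simp only [h n (by simp), h u (by simp)]⟩

lemma psi_inj {d : ℕ} {e : Fin d → ℕ} (δ : ∀ N, Φ.G N → Fin d → Φ.G N) {u : ℕ} (ρ : ℤ)
    (hu : ∀ j, e j ≠ u) (N : ℕ) : Injective ((psi e δ u ρ).toFun N) := by
  intro ω ω' h
  have h1 : ω u = ω' u := by
    have := congrFun h u
    simpa [psi, spr_out _ hu] using this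
  funext n
  have := congrFun h n
  simpa [psi, h1] using this

lemma dot_eS {N : ℕ} {D : Finset ℕ} (hD : 0 ∉ D) (ω : Φ.Om N) :
    dot (eS D) ω = ∑ j ∈ D, ω j := by
  have : (eS D).erase 0 = eS D := by
    refine Finsupp.erase_of_notMem_support ?_
    simp only [Finsupp.mem_support_iff, eS, Finsupp.finsetSum_apply, not_not]
    refine Finset.sum_eq_zero fun j hj => ?_
    exact Finsupp.single_eq_of_ne fun h => hD (h ▸ hj)
  simp only [dot, this]
  simp [eS, map_sum]

lemma dot_ee {N : ℕ} {u : ℕ} (hu : u ≠ 0) (ρ : ℤ) (ω : Φ.Om N) :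
    dot (ρ • ee u) ω = ρ • ω u := by
  have : (ρ • ee u).erase 0 = ρ • ee u := by
    refine Finsupp.erase_of_notMem_support ?_
    simp [Finsupp.mem_support_iff, hu]
  simp only [dot, this]
  simp

lemma pull_eq {d : ℕ} {e : Fin d → ℕ} (he : Injective e) (he0 : ∀ j, e j ≠ 0)
    {δ : ∀ N, Φ.G N → Fin d → Φ.G N} (hδ : ∀ N n, ∑ i, δ N n i = n) {u : ℕ} (hu : u ≠ 0) (ρ : ℤ)
    (F : Φ.Alg) (hF : Dep F {0}) :
    ((Φ.th (ρ • ee u)).comp (Φ.th (eS (Finset.univ.map ⟨e, he⟩)))).pull F =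
      ((Φ.th (eS (Finset.univ.map ⟨e, he⟩))).comp (psi e δ u ρ)).pull F := by
  have h0 : 0 ∉ (Finset.univ.map ⟨e, he⟩ : Finset ℕ) := by simp [he0]
  refine Subtype.ext (funext fun N => funext fun ω => hF N fun i hi => ?_)
  obtain rfl : i = 0 := hi
  simp only [FMap.comp, th, update_self, dot_ee hu, update_of_ne hu, dot_eS h0, psi,
    Finset.sum_map, Embedding.coeFn_mk, spr_e he, spr_out _ he0, smul_zero, add_zero,
    Finset.sum_add_distrib, ← Finset.smul_sum, hδ]
  abel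

lemma fin_int (S : Sys) (hB : FdB S) (N u : ℕ) (H : S.Om N → S.G N → ℝ) (T : Finset ℕ)
    (hu : u ∉ T) (hH : ∀ s, DependsOn (fun ω => H ω s) (T : Set ℕ)) {C : ℝ}
    (hC : ∀ ω s, |H ω s| ≤ C) :
    ∫ ω, H ω (ω u) ∂S.PP N = ∫ ω, ∫ s, H ω s ∂S.law N u ∂S.PP N := by
  classical
  have hm : Measurable fun ω : S.Om N => H ω (ω u) := by
    refine meas_dep (T := insert u T) fun x y h => ?_
    show H x (x u) = H y (y u)
    rw [h u (by simp)]
    exact hH _ fun i hi => h i (by simp [Finset.mem_coe.1 hi])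
  have hr := hB.res {u} N
  have h1 : ∫ ω, H ω (ω u) ∂S.PP N = ∫ p : S.Om N × S.Om N, H p.2 (p.1 u)
      ∂(S.PP N).prod (S.PP N) := by
    conv_lhs => rw [← hr.map_eq]
    rw [integral_map hr.measurable.aemeasurable hm.aestronglyMeasurable]
    refine integral_congr_ae (Eventually.of_forall fun p => ?_)
    simp only [Set.piecewise, Set.mem_singleton_iff, if_true]
    refine hH _ fun i hi => ?_
    have : i ≠ u := fun h => hu (h ▸ Finset.mem_coe.1 hi)
    simp [Set.piecewise, this]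
  have hm2 : Measurable fun p : S.Om N × S.Om N => H p.2 (p.1 u) := by
    have : Measurable fun q : S.G N × S.Om N => H q.2 q.1 :=
      measurable_from_prod_countable_right fun s => meas_dep (hH s)
    have h2 : Measurable fun p : S.Om N × S.Om N => ((p.1 u, p.2) : S.G N × S.Om N) :=
      ((measurable_pi_apply u).comp measurable_fst).prodMk measurable_snd
    exact this.comp h2
  rw [h1, integral_prod_symm _ (int_bd _ hm2 fun p => hC _ _)]
  refine integral_congr_ae (Eventually.of_forall fun ω => ?_)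
  have he := measurePreserving_eval_infinitePi (S.law N) u
  show ∫ x, H ω (x u) ∂S.PP N = ∫ s, H ω s ∂S.law N u
  rw [← he.map_eq, integral_map he.measurable.aemeasurable
    (Measurable.of_discrete).aestronglyMeasurable]
  rfl

variable (Φ) in
/-- products of functions of the point and at most `k` of the coordinates `e j` -/
def TT (k : ℕ) {d : ℕ} (e : Fin d → ℕ) : Submonoid Φ.Alg where
  carrier := {F | ∃ P : Finset (Fin d) → Φ.Alg, (∀ J, Dep (P J) (insert 0 (e '' J))) ∧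
    F = ∏ J ∈ Finset.univ.filter (fun J : Finset (Fin d) => J.card ≤ k), P J}
  mul_mem' := by
    rintro _ _ ⟨P, hP, rfl⟩ ⟨Q, hQ, rfl⟩
    exact ⟨fun J => P J * Q J, fun J => (Φ.DepS _).mul_mem (hP J) (hQ J),
      Finset.prod_mul_distrib.symm⟩
  one_mem' := ⟨fun _ => 1, fun J => (Φ.DepS _).one_mem, Finset.prod_const_one.symm⟩

lemma low_le (S : Sys) (k : ℕ) {d : ℕ} {e : Fin d → ℕ} (he : Injective e) :
    S.Low k (Finset.univ.map ⟨e, he⟩) ≤ sig (TT S.toFam k e : Set S.Alg) := by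
  classical
  refine iSup₂_le fun J hJ => iSup₂_le fun F hF => ?_
  refine le_iSup₂_of_le (f := fun (F : S.Alg) (_ : F ∈ (TT S.toFam k e : Set S.Alg)) =>
    MeasurableSpace.comap (hat F) inferInstance) F ?_ le_rfl
  obtain ⟨hJD, hJk⟩ := hJ
  set J' : Finset (Fin d) := Finset.univ.filter fun j => e j ∈ J with hJ'
  have hc : J'.card ≤ k := by
    refine le_trans (Finset.card_le_card_of_injOn e (fun j hj => ?_) he.injOn) hJk
    simpa [hJ'] using hj
  have hsub : (insert 0 (J : Set ℕ) : Set ℕ) ⊆ insert 0 (e '' J') := by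
    refine Set.insert_subset_insert fun n hn => ?_
    obtain ⟨j, -, rfl⟩ := Finset.mem_map.1 (hJD (Finset.mem_coe.1 hn))
    exact ⟨j, by simpa [hJ'] using hn, rfl⟩
  refine ⟨fun K => if K = J' then F else 1, fun K => ?_, ?_⟩
  · by_cases hK : K = J'
    · simp only [hK, if_true]
      exact fun N => (hF N).mono hsub
    · simp only [hK, if_false]
      exact (S.DepS _).one_mem
  · rw [Finset.prod_ite_eq']
    simp [hc]

lemma coe_prod {ι : Type} (s : Finset ι) (F : ι → Φ.Alg) (N : ℕ) (ω : Φ.Om N) :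
    (∏ i ∈ s, F i).1 N ω = ∏ i ∈ s, (F i).1 N ω := by
  simp [Finset.prod_apply]

lemma gen (S : Sys) (hB : FdB S) {k d : ℕ} {e : Fin d → ℕ} (he : Injective e)
    (he0 : ∀ j, e j ≠ 0) {δ : ∀ N, S.G N → Fin d → S.G N}
    (hE : ∀ ε : ℝ, 0 < ε → ∀ᶠ N in (S.U : Filter ℕ),
      ∀ u : Finset (Fin d) → (Fin d → S.G N) → ℝ,
      (∀ J y, |u J y| ≤ 1) → (∀ J, DependsOn (u J) (J : Set (Fin d))) →
      |∫ n, ∏ J ∈ Finset.univ.filter (fun J : Finset (Fin d) => J.card ≤ k), u J (δ N n) ∂S.ν N -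
        ∫ n, ∏ J ∈ Finset.univ.filter (fun J : Finset (Fin d) => J.card ≤ k), u J (δ N n)
          ∂S.unif N| ≤ ε)
    {ι : Type} [Fintype ι] (r : ι → ℤ) {t z : ℕ} (ht : Odd t) (hz : Even z) (hz0 : z ≠ 0)
    (het : ∀ j, e j ≠ t) (hez : ∀ j, e j ≠ z) (F : ι → S.Alg) (hF : ∀ i, F i ∈ TT S.toFam k e) :
    ∫ x, ∏ i, hat (F i) ((psi e δ t (r i)).lift x) ∂S.μ =
      ∫ x, ∏ i, hat (F i) ((psi e δ z (r i)).lift x) ∂S.μ := by
  classical
  choose P hP hFP using hF
  have hb : ∀ i J, ∃ C : ℝ, 0 < C ∧ ∀ N ω, |(P i J).1 N ω| ≤ C := fun i J => by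
    obtain ⟨-, C, hC⟩ := (P i J).2
    exact ⟨|C| + 1, by positivity, fun N ω => (hC N ω).trans (by linarith [le_abs_self C])⟩
  choose C hC0 hC using hb
  set 𝒥 := Finset.univ.filter (fun J : Finset (Fin d) => J.card ≤ k) with h𝒥
  set K : ℝ := ∏ J ∈ 𝒥, ∏ i, C i J with hK
  have hK0 : 0 < K := Finset.prod_pos fun J _ => Finset.prod_pos fun i _ => hC0 i J
  -- the normalised factors
  let u : ∀ N, S.Om N → Finset (Fin d) → (Fin d → S.G N) → ℝ := fun N ω J y =>
    ∏ i, (P i J).1 N (fun n => ω n + r i • spr e y n) / C i J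
  have hu1 : ∀ N ω J y, |u N ω J y| ≤ 1 := fun N ω J y => by
    simp only [u, Finset.abs_prod]
    refine Finset.prod_le_one (fun i _ => abs_nonneg _) fun i _ => ?_
    rw [abs_div, abs_of_pos (hC0 i J)]
    exact (div_le_one (hC0 i J)).2 (hC i J N _)
  have hu2 : ∀ N ω J, DependsOn (u N ω J) (J : Set (Fin d)) := fun N ω J y y' h => by
    simp only [u]
    refine Finset.prod_congr rfl fun i _ => ?_
    congr 1
    refine hP i J N fun n hn => ?_
    rcases hn with rfl | ⟨j, hj, rfl⟩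
    · simp only [spr_out _ he0]
    · simp only [spr_e he, h j hj]
  let H : ∀ N, S.Om N → S.G N → ℝ := fun N ω s => ∏ J ∈ 𝒥, u N ω J (δ N s)
  have hH1 : ∀ N ω s, |H N ω s| ≤ 1 := fun N ω s => by
    simp only [H, Finset.abs_prod]
    exact Finset.prod_le_one (fun i _ => abs_nonneg _) fun J _ => hu1 N ω J _
  let T : Finset ℕ := insert 0 (Finset.univ.map ⟨e, he⟩)
  have hH2 : ∀ N s, DependsOn (fun ω => H N ω s) (T : Set ℕ) := fun N s ω ω' h => by
    simp only [H, u]
    refine Finset.prod_congr rfl fun J _ => Finset.prod_congr rfl fun i _ => ?_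
    congr 1
    refine hP i J N fun n hn => ?_
    have : n ∈ (T : Set ℕ) := by
      rcases hn with rfl | ⟨j, hj, rfl⟩ <;> simp [T]
    simp only [h n this]
  have hG : ∀ v N ω, (∏ i, (psi e δ v (r i)).pull (F i)).1 N ω = K * H N ω (ω v) := by
    intro v N ω
    rw [coe_prod]
    have : ∀ i, ((psi e δ v (r i)).pull (F i)).1 N ω =
        ∏ J ∈ 𝒥, (P i J).1 N (fun n => ω n + r i • spr e (δ N (ω v)) n) := fun i => by
      rw [hFP i, map_prod, coe_prod]
      rfl
    simp only [this, H, u, hK]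
    rw [Finset.prod_comm, ← Finset.prod_mul_distrib]
    refine Finset.prod_congr rfl fun J _ => ?_
    rw [← Finset.prod_mul_distrib]
    refine Finset.prod_congr rfl fun i _ => ?_
    rw [mul_div_cancel₀ _ (hC0 i J).ne']
  have hl : ∀ v, Tendsto (fun N => K * ∫ ω, H N ω (ω v) ∂S.PP N) S.U
      (𝓝 (∫ x, ∏ i, hat (F i) ((psi e δ v (r i)).lift x) ∂S.μ)) := fun v => by
    have := S.lim (∏ i, (psi e δ v (r i)).pull (F i))
    simp only [hG, integral_const_mul] at this
    convert this using 4 with x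
    simp only [hat, map_prod]
    rfl
  have htT : t ∉ T := by
    have : t ≠ 0 := by rintro rfl; exact absurd ht (by decide)
    simp [T, this, het]
  have hzT : z ∉ T := by simp [T, hz0, hez]
  have hin : ∀ N (m : Measure (S.G N)) [IsProbabilityMeasure m],
      Integrable (fun ω => ∫ s, H N ω s ∂m) (S.PP N) := fun N m _ => by
    refine int_bd _ (meas_dep (T := T) fun ω ω' h => ?_) (C := 1) fun ω => ?_
    · exact integral_congr_ae (Eventually.of_forall fun s => hH2 N s h)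
    · have := norm_integral_le_of_norm_le_const (μ := m) (f := fun s => H N ω s) (C := 1)
        (Eventually.of_forall fun s => hH1 N ω s)
      simpa using this
  have key : ∀ ε : ℝ, 0 < ε → ∀ᶠ N in (S.U : Filter ℕ),
      |K * ∫ ω, H N ω (ω t) ∂S.PP N - K * ∫ ω, H N ω (ω z) ∂S.PP N| ≤ K * ε := by
    intro ε hε
    filter_upwards [hE ε hε] with N hN
    rw [← mul_sub, abs_mul, abs_of_pos hK0]
    refine mul_le_mul_of_nonneg_left ?_ hK0.le
    rw [fin_int S hB N t (H N) T htT (hH2 N) (hH1 N), fin_int S hB N z (H N) T hzT (hH2 N) (hH1 N),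
      ← integral_sub (hin N _) (hin N _)]
    have h1 : S.law N t = S.ν N := if_pos ht
    have h2 : S.law N z = S.unif N := if_neg (Nat.not_odd_iff_even.2 hz)
    rw [h1, h2]
    have := norm_integral_le_of_norm_le_const (μ := S.PP N)
      (f := fun ω => ∫ s, H N ω s ∂S.ν N - ∫ s, H N ω s ∂S.unif N) (C := ε)
      (Eventually.of_forall fun ω => hN (u N ω) (hu1 N ω) (hu2 N ω))
    simpa using this
  refine sub_eq_zero.1 (abs_nonpos_iff.1 (le_of_forall_pos_le_add fun ε hε => ?_))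
  have h1 := le_of_tendsto ((hl t).sub (hl z)).abs (key (ε / K) (div_pos hε hK0))
  rw [mul_div_cancel₀ _ hK0.ne'] at h1
  simpa using h1

lemma abm_one {X : Type} (m : MeasurableSpace X) {m0 : MeasurableSpace X} (μ : Measure X) :
    ABM m μ (fun _ : X => (1 : ℝ)) :=
  ⟨aestronglyMeasurable_const, 1, Eventually.of_forall fun _ => by simp⟩

lemma full_le (S : Sys) (I : Set ℕ) : S.Full I ≤ (inferInstance : MeasurableSpace S.Pt) :=
  iSup₂_le fun F _ => le_iSup₂_of_le
    (f := fun (F : S.Alg) (_ : F ∈ (Set.univ : Set S.Alg)) =>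
      MeasurableSpace.comap (hat F) inferInstance) F (Set.mem_univ _) le_rfl

end DGx

open DGx in
theorem dg : DGS := by
  intro S hS hZ k ι _ r a t z ha ht hz hz0
  classical
  obtain ⟨d, δ, hδ, hE⟩ := S.hyp.enn k
  let e : Fin d → ℕ := fun j => z + 2 * (j + 1)
  have he : Injective e := fun j j' h => Fin.ext (by simp only [e] at h; omega)
  have he0 : ∀ j, e j ≠ 0 := fun j => by simp only [e]; omega
  have hev : ∀ j, Even (e j) := fun j => hz.add (even_two_mul _)
  have het : ∀ j, e j ≠ t := fun j h => Nat.not_odd_iff_even.2 (hev j) (h ▸ ht)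
  have hez : ∀ j, e j ≠ z := fun j => by simp only [e]; omega
  have ht0 : t ≠ 0 := by rintro rfl; exact absurd ht (by decide)
  set D : Finset ℕ := Finset.univ.map ⟨e, he⟩ with hD
  have hDn : Sys.Dn D := fun n hn => by
    obtain ⟨j, -, rfl⟩ := Finset.mem_map.1 hn
    exact ⟨hev j, he0 j⟩
  have hmp : ∀ v ρ, (∀ j, e j ≠ v) → MeasurePreserving (psi e δ v ρ).lift S.μ S.μ := by
    intro v ρ hv
    refine hS.lift _ (hS.skew _ D (fun j hj => (hDn j hj).1) (fun N ω n hn => ?_)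
      (Eventually.of_forall fun N => psi_inj δ ρ hv N))
    have : ∀ j, e j ≠ n := fun j h => hn (Finset.mem_map.2 ⟨j, Finset.mem_univ _, h⟩)
    simp [psi, spr_out _ this]
  have step : ∀ v, v ≠ 0 → (∀ j, e j ≠ v) →
      ∫ x, ∏ i, a i (S.Th (r i • ee v) x) ∂S.μ =
        ∫ x, (1 : ℝ) * ∏ i, a i (S.Th (eS D) ((psi e δ v (r i)).lift x)) ∂S.μ := by
    intro v hv0 hv
    have hm : AEStronglyMeasurable (fun x => ∏ i, a i (S.Th (r i • ee v) x)) S.μ := by
      refine Finset.aestronglyMeasurable_fun_prod _ fun i _ => ?_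
      exact ((ha i).1.1.mono (full_le S _)).comp_measurePreserving (hS.thmp _)
    have h1 := hS.thmp (eS D)
    conv_lhs => rw [← h1.map_eq]
    rw [integral_map h1.measurable.aemeasurable (by rwa [h1.map_eq])]
    refine integral_congr_ae ?_
    have : ∀ i, (fun x => a i (S.Th (r i • ee v) (S.Th (eS D) x))) =ᵐ[S.μ]
        fun x => a i (S.Th (eS D) ((psi e δ v (r i)).lift x)) := fun i =>
      hS.fixae {F | Dep F {0}} ((S.th (r i • ee v)).comp (S.th (eS D)))
        ((S.th (eS D)).comp (psi e δ v (r i))) (fun F hF => pull_eq he he0 hδ hv0 (r i) F hF)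
        ((hS.thmp (r i • ee v)).comp h1) (h1.comp (hmp v (r i) hv)) (a i) (ha i).1.1
    filter_upwards [ae_all_iff.2 this] with x hx
    simp only [hx, one_mul]
  rw [step t ht0 het, step z hz0 hez]
  refine hS.mext ι Finset.univ (fun _ => TT S.toFam k e) (fun i => (psi e δ t (r i)).lift)
    (fun i => (psi e δ z (r i)).lift) (fun _ => 1) (fun _ => 1) (fun i _ => hmp t _ het)
    (fun i _ => hmp z _ hez) (abm_one _ _) (abm_one _ _) (fun F hF => ?_)
    (fun i x => a i (S.Th (eS D) x)) fun i _ => ?_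
  · simp only [one_mul]
    exact gen S hS.toFdB he he0 hE r ht hz hz0 het hez F fun i => hF i (Finset.mem_univ _)
  · obtain ⟨C, hC⟩ := (ha i).1.2
    exact ⟨(hZ k (a i) D (ha i) hDn).mono (low_le S k he),
      C, (hS.thmp (eS D)).quasiMeasurePreserving.ae hC⟩

end Pool.Agent.MP_154433_an.SG

end

end MrgPart3

-- ======== part 4: formerly Pool.Agent.MP_154433_an.sg.FinW
section MrgPart4

/-! The finite theorem for weights on cyclic groups of prime order. -/

set_option autoImplicit false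

open MeasureTheory ProbabilityTheory Filter Topology Function Finset

noncomputable section

namespace Pool.Agent.MP_154433_an.SG

namespace FinW

variable {n : ℕ} [NeZero n]

/-- the Fourier transform -/
def ft (g : ZMod n → ℝ) (k : ZMod n) : ℂ := ∑ v, (g v : ℂ) * ZMod.stdAddChar (k * v)

lemma ft_zero (g : ZMod n → ℝ) : ft g 0 = (∑ v, g v : ℝ) := by simp [ft]

lemma inv (g : ZMod n → ℝ) (x : ZMod n) :
    (n : ℂ) * g x = ∑ k, ft g (-k) * ZMod.stdAddChar (k * x) := by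
  have h : ∀ k v : ZMod n, (g v : ℂ) * ZMod.stdAddChar (-k * v) * ZMod.stdAddChar (k * x) =
      g v * ZMod.stdAddChar (k * (x - v)) := fun k v => by
    rw [mul_assoc, ← AddChar.map_add_eq_mul, show -k * v + k * x = k * (x - v) by ring]
  simp only [ft, sum_mul, h]
  rw [sum_comm]
  simp only [← mul_sum, AddChar.sum_mulShift _ (ZMod.isPrimitive_stdAddChar n), sub_eq_zero]
  simp [mul_comm]

lemma ft_neg (g : ZMod n → ℝ) (k : ZMod n) : ft g (-k) = (starRingEnd ℂ) (ft g k) := by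
  simp [ft, AddChar.map_neg_eq_conj]

lemma pars (g : ZMod n → ℝ) (hg : ∀ v, |g v| ≤ 1) : ∑ k, ‖ft g k‖ ^ 2 ≤ (n : ℝ) ^ 2 := by
  have h1 : ((∑ k, ‖ft g k‖ ^ 2 : ℝ) : ℂ) = ((n * ∑ x, g x ^ 2 : ℝ) : ℂ) := by
    have : ∀ x, (n : ℂ) * g x ^ 2 = ∑ k, ft g (-k) * (g x * ZMod.stdAddChar (k * x)) := fun x => by
      rw [sq, ← mul_assoc, inv, sum_mul]
      exact sum_congr rfl fun k _ => by ring
    push_cast
    simp only [mul_sum, this]
    rw [sum_comm]
    refine sum_congr rfl fun k _ => ?_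
    rw [← mul_sum, ft_neg, ← Complex.conj_mul']
    rfl
  rw [Complex.ofReal_inj.1 h1, sq]
  refine mul_le_mul_of_nonneg_left ((sum_le_card_nsmul _ _ 1 fun x _ => ?_).trans (by simp))
    (Nat.cast_nonneg _)
  exact (sq_le_one_iff_abs_le_one _).2 (hg x)

lemma split {A : ZMod n → ℂ} {a b c : ℝ} (h : (a : ℂ) = ∑ k, A k) (h0 : A 0 = b)
    (h1 : ∑ k ∈ univ.erase 0, ‖A k‖ ≤ c) : |a - b| ≤ c := by
  rw [← add_sum_erase _ _ (mem_univ 0), h0] at h
  rw [← Real.norm_eq_abs, ← Complex.norm_real, Complex.ofReal_sub, h, add_sub_cancel_left]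
  exact (norm_sum_le _ _).trans h1

variable {w : ZMod n → ℝ} {η : ℝ}

lemma tv (h1 : ∑ v, w v = 1) (hη : ∀ k, k ≠ 0 → ‖ft w k‖ ≤ η) (r : ℕ) (g : ZMod n → ℝ)
    (hg : ∀ v, |g v| ≤ 1) (h0 : 0 ≤ η) :
    |n * ∑ s : Fin r → ZMod n, (∏ i, w (s i)) * g (∑ i, s i) - ∑ v, g v| ≤ n * (n * η ^ r) := by
  refine split (A := fun k => ft g (-k) * ft w k ^ r) ?_ (by simp [ft_zero, h1]) ?_
  · have : ∀ s : Fin r → ZMod n, (n : ℂ) * ((∏ i, (w (s i) : ℂ)) * g (∑ i, s i)) =
        ∑ k, ft g (-k) * ∏ i, ((w (s i) : ℂ) * ZMod.stdAddChar (k * s i)) := fun s => by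
      rw [mul_left_comm, inv, mul_sum]
      refine sum_congr rfl fun k _ => ?_
      rw [prod_mul_distrib, mul_sum, mul_left_comm]
      congr 2
      exact map_prod (ZMod.stdAddChar (N := n)).toMonoidHom
        (fun i => Multiplicative.ofAdd (k * s i)) univ
    push_cast
    simp only [mul_sum, this]
    rw [sum_comm]
    refine sum_congr rfl fun k _ => ?_
    rw [← mul_sum, ft.eq_1 w, ← Fin.prod_const, prod_univ_sum, Fintype.piFinset_univ]
  · refine (sum_le_card_nsmul _ _ (n * η ^ r) fun k hk => ?_).trans ?_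
    · rw [norm_mul, norm_pow]
      refine mul_le_mul ((norm_sum_le _ _).trans ((sum_le_card_nsmul _ _ 1 fun v _ => ?_).trans
        (by simp))) (pow_le_pow_left₀ (norm_nonneg _) (hη k (mem_erase.1 hk).1) r)
        (by positivity) (by positivity)
      simpa using hg v
    · rw [nsmul_eq_mul]
      refine mul_le_mul_of_nonneg_right ?_ (by positivity)
      exact_mod_cast (card_le_univ _).trans (ZMod.card n).le

lemma mix (h1 : ∑ v, w v = 1) (hη : ∀ k, k ≠ 0 → ‖ft w k‖ ≤ η) (g g' : ZMod n → ℝ)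
    (hg : ∀ v, |g v| ≤ 1) (hg' : ∀ v, |g' v| ≤ 1) (h0 : 0 ≤ η) :
    |n * ∑ x, ∑ t, w t * (g x * g' (x + t)) - (∑ v, g v) * ∑ v, g' v| ≤ η * n ^ 2 := by
  refine split (A := fun k => ft g' (-k) * (ft g k * ft w k)) ?_
    (by simp [ft_zero, h1, mul_comm]) ?_
  · have : ∀ x t, (n : ℂ) * (w t * (g x * g' (x + t))) = ∑ k, ft g' (-k) *
        (g x * ZMod.stdAddChar (k * x) * (w t * ZMod.stdAddChar (k * t))) := fun x t => by
      rw [mul_left_comm, mul_left_comm (n : ℂ), inv, mul_sum, mul_sum]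
      refine sum_congr rfl fun k _ => ?_
      rw [mul_add, AddChar.map_add_eq_mul]
      ring
    push_cast
    simp only [mul_sum, this]
    rw [sum_congr rfl fun x _ => sum_comm, sum_comm]
    refine sum_congr rfl fun k _ => ?_
    rw [ft.eq_1 g, ft.eq_1 w, sum_mul_sum, mul_sum]
    exact sum_congr rfl fun x _ => (mul_sum _ _ _).symm
  · have a1 := pars g hg
    have a2 := pars g' hg'
    rw [← Equiv.sum_comp (Equiv.neg (ZMod n))] at a2
    calc _ ≤ ∑ k ∈ univ.erase 0, η * ((‖ft g' (-k)‖ ^ 2 + ‖ft g k‖ ^ 2) / 2) :=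
          sum_le_sum fun k hk => by
            rw [norm_mul, norm_mul, ← mul_assoc, mul_comm]
            refine mul_le_mul (hη k (mem_erase.1 hk).1) ?_ (by positivity) h0
            nlinarith [sq_nonneg (‖ft g' (-k)‖ - ‖ft g k‖)]
      _ ≤ ∑ k, η * ((‖ft g' (-k)‖ ^ 2 + ‖ft g k‖ ^ 2) / 2) :=
          sum_le_sum_of_subset_of_nonneg (erase_subset _ _) fun k _ _ => by positivity
      _ ≤ _ := by
          rw [← mul_sum, ← sum_div, sum_add_distrib]
          refine mul_le_mul_of_nonneg_left ?_ h0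
          simp only [Equiv.neg_apply] at a2
          linarith

/-- the measure with given weights -/
def mw (w : ZMod n → ℝ) : Measure (ZMod n) := ∑ v, ENNReal.ofReal (w v) • Measure.dirac v

lemma mw_one (v : ZMod n) : mw w {v} = ENNReal.ofReal (w v) := by
  simp [mw, Measure.finsetSum_apply, Pi.single_apply]

lemma mw_prob (h0 : ∀ v, 0 ≤ w v) (h1 : ∑ v, w v = 1) : IsProbabilityMeasure (mw w) := ⟨by
  simp [mw, Measure.finsetSum_apply, ← ENNReal.ofReal_sum_of_nonneg fun v _ => h0 v, h1]⟩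

lemma int_mw (h0 : ∀ v, 0 ≤ w v) (h1 : ∑ v, w v = 1) (g : ZMod n → ℝ) :
    ∫ v, g v ∂mw w = ∑ v, w v * g v := by
  have := mw_prob h0 h1
  rw [integral_fintype .of_finite]
  simp [measureReal_def, mw_one, h0]

lemma int_pi (h0 : ∀ v, 0 ≤ w v) (h1 : ∑ v, w v = 1) (r : ℕ) (g : (Fin r → ZMod n) → ℝ) :
    ∫ s, g s ∂Measure.pi (fun _ => mw w) = ∑ s, (∏ i, w (s i)) * g s := by
  have := mw_prob h0 h1
  rw [integral_fintype .of_finite]
  simp [measureReal_def, mw_one, h0]

lemma int_un (g : ZMod n → ℝ) : ∫ v, g v ∂uniformOn Set.univ = (n : ℝ)⁻¹ * ∑ v, g v := by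
  rw [integral_fintype .of_finite, mul_sum]
  simp [measureReal_def, uniformOn_univ]

lemma int_sub (h0 : ∀ v, 0 ≤ w v) (h1 : ∑ v, w v = 1) (g : ZMod n → ℝ) :
    ∫ v, g v ∂mw w - ∫ v, g v ∂uniformOn Set.univ = ∑ v, (w v - (n : ℝ)⁻¹) * g v := by
  simp only [int_mw h0 h1, int_un, sub_mul, sum_sub_distrib, mul_sum]

lemma abs_div {a b c : ℝ} {m : ℝ} (hm : 0 < m) (h : |m * a - b| ≤ m * c) : |a - m⁻¹ * b| ≤ c := by
  rw [show a - m⁻¹ * b = m⁻¹ * (m * a - b) by field_simp, abs_mul, abs_of_pos (inv_pos.2 hm),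
    inv_mul_le_iff₀ hm]
  exact h

end FinW

open FinW in
theorem finW (h : FinS) : FinWS := by
  intro p _ hp hp' wt h0 h1 ⟨c, hc, hF⟩ hE ι _ r ε hε
  classical
  let Φ : Fam := @Fam.mk (fun N => ZMod (p N)) _ _ _ _ (fun N => mw (wt N))
    fun N => mw_prob (h0 N) (h1 N)
  have hp0 : ∀ N, (0 : ℝ) < p N := fun N => Nat.cast_pos.2 (hp N).pos
  have hR : Tendsto (fun N => (p N : ℝ)) atTop atTop := tendsto_natCast_atTop_atTop.comp hp'
  have hs : ∀ a : ℝ, 0 < a → ∀ ε : ℝ, 0 < ε → ∀ᶠ N in atTop, (p N : ℝ) ^ (-a) ≤ ε :=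
    fun a ha ε hε => ((tendsto_rpow_neg_atTop ha).comp hR).eventually_le_const hε
  have hy : Φ.Hyp atTop ⌈2 / c⌉₊ := by
    refine ⟨Nat.ceil_pos.2 (by positivity), fun d hd => ?_, fun ε hε => ?_, fun ε hε => ?_,
      fun k => ?_⟩
    · filter_upwards [hp'.eventually_gt_atTop d.natAbs] with N hN
      have := Fact.mk (hp N)
      have e : (d : ZMod (p N)) ≠ 0 := fun e => by
        have := Int.natCast_dvd.1 ((ZMod.intCast_zmod_eq_zero_iff_dvd d _).1 e)
        exact (Nat.le_of_dvd (Int.natAbs_pos.2 hd) this).not_gt hN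
      refine Finite.injective_iff_bijective.1 fun (x y : ZMod (p N)) (a : d • x = d • y) => ?_
      rw [zsmul_eq_mul, zsmul_eq_mul] at a
      exact mul_left_cancel₀ e a
    · filter_upwards [hF, hs 1 one_pos ε hε] with N a b g hg
      refine le_trans ?_ b
      have e := abs_div (hp0 N) (tv (h1 N) a ⌈2 / c⌉₊ g hg (by positivity))
      rw [← int_pi (h0 N) (h1 N), ← int_un] at e
      refine e.trans ?_
      rw [← Real.rpow_natCast, ← Real.rpow_mul (hp0 N).le, mul_comm, ← Real.rpow_add_one (hp0 N).ne']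
      refine Real.rpow_le_rpow_of_exponent_le (by exact_mod_cast (hp N).one_le) ?_
      have := (div_le_iff₀ hc).1 (Nat.le_ceil (2 / c))
      linarith
    · filter_upwards [hF, hs c hc ε hε] with N a b (g : ZMod (p N) → ℝ) (g' : ZMod (p N) → ℝ) hg hg'
      refine le_trans ?_ b
      have e := mix (h1 N) a g g' hg hg' (by positivity)
      change |∫ x : ZMod (p N), ∫ t, g x * g' (x + t) ∂mw (wt N) ∂uniformOn Set.univ -
        (∫ v : ZMod (p N), g v ∂uniformOn Set.univ) *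
          ∫ v : ZMod (p N), g' v ∂uniformOn Set.univ| ≤ _
      simp only [int_mw (h0 N) (h1 N), int_un]
      have := hp0 N
      rw [mul_mul_mul_comm, mul_assoc, ← mul_sub, abs_mul, abs_of_pos (inv_pos.2 this),
        inv_mul_le_iff₀ this]
      refine abs_div this (e.trans (le_of_eq (by ring)))
    · obtain ⟨d, δ, a, b⟩ := hE k
      refine ⟨d, δ, a, fun ε hε => ?_⟩
      filter_upwards [b ε hε] with N e u hu hu'
      exact (congrArg abs (int_sub (h0 N) (h1 N) _)).trans_le (e u hu hu')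
  let g : ι → univ.image r := fun i => ⟨r i, mem_image_of_mem r (mem_univ i)⟩
  filter_upwards [h Φ _ hy (univ.image r) Subtype.val Subtype.val_injective ε hε] with N a f hf
  have b := a (fun j v => ∏ i with g i = j, f i v) fun j v => by
    rw [abs_prod]
    exact prod_le_one (fun i _ => abs_nonneg _) fun i _ => hf i v
  have e : ∀ x t : ZMod (p N), ∏ j : univ.image r, ∏ i with g i = j, f i (x + j.1 • t) =
      ∏ i, f i (x + r i • t) := fun x t => by
    rw [← prod_fiberwise univ g]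
    exact prod_congr rfl fun j _ => prod_congr rfl fun i hi => by rw [← (mem_filter.1 hi).2]
  change |∫ x, ∫ t, ∏ j : univ.image r, ∏ i with g i = j, f i (x + j.1 • t) ∂mw (wt N)
    ∂uniformOn Set.univ - ∫ x, ∫ t, ∏ j : univ.image r, ∏ i with g i = j, f i (x + j.1 • t)
      ∂uniformOn Set.univ ∂uniformOn Set.univ| ≤ ε at b
  simp only [e] at b
  rw [int_un, int_un, ← mul_sub, ← sum_sub_distrib, abs_mul, abs_of_pos (inv_pos.2 (hp0 N)),
    inv_mul_le_iff₀ (hp0 N), mul_comm] at b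
  simpa only [int_sub (h0 N) (h1 N)] using b

end Pool.Agent.MP_154433_an.SG

end

end MrgPart4

-- ======== part 5: formerly Pool.Agent.MP_154433_an.sg.Tail
section MrgPart5

/-! Block version of the tail bound with a union bound. -/

set_option autoImplicit false

open MeasureTheory ProbabilityTheory Filter Topology

namespace Pool.Agent.MP_154433_an.SG

namespace Tail

lemma summ {b : ℝ} (hb : 0 < b) : Summable fun M : ℕ => Real.exp (-(1 / 16) * (M : ℝ) ^ b) := by
  have h1 := (isLittleO_exp_neg_mul_rpow_atTop (show (0 : ℝ) < 1 / 16 by norm_num)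
    (-2 / b)).comp_tendsto ((tendsto_rpow_atTop hb).comp tendsto_natCast_atTop_atTop)
  refine summable_of_isBigO_nat (Real.summable_nat_rpow.2 (show (-2 : ℝ) < -1 by norm_num))
    (h1.isBigO.congr (fun _ => rfl) fun M => ?_)
  simp only [Function.comp]
  rw [← Real.rpow_mul (Nat.cast_nonneg M), mul_div_cancel₀ _ hb.ne']

variable {Ω : Type} [MeasurableSpace Ω] {P : Measure Ω} [IsProbabilityMeasure P]

lemma block {σ : ℕ → ℝ} (hσ : ∀ n, 0 ≤ σ n ∧ σ n ≤ 1) (hA : Antitone σ) {E : ℕ → Set Ω}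
    (hE : ∀ n, MeasurableSet (E n)) (hind : iIndepSet E P)
    (hP : ∀ n, P (E n) = ENNReal.ofReal (σ n)) {c : ℕ → ℝ} (hc : ∀ k, |c k| ≤ 1) (M : ℕ)
    {ε : ℝ} (h0 : 0 ≤ ε) (h1 : ε ≤ 1) :
    P.real {ω | ε * (σ (M / 2) * M) <
      |∑ n ∈ Finset.Ico (M / 2) M, ((E n).indicator (fun _ => (1 : ℝ)) ω - σ n) * c n|} ≤
      2 * Real.exp (-(ε ^ 2 * (σ M * M) / 8)) := by
  have key := fun (d : ℕ → ℝ) (hd : ∀ k, |d k| ≤ 1) =>
    tail (σ := fun k => σ (M / 2 + k)) (E := fun k => E (M / 2 + k)) (c := d) (fun k => hσ _)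
      (fun k => hE _) (hind.precomp (add_right_injective (M / 2))) (fun k => hP _) hd
      (M - M / 2) h0 h1
  set W := ∑ k ∈ Finset.range (M - M / 2), σ (M / 2 + k) with hW
  have w1 : W ≤ σ (M / 2) * M := by
    refine (Finset.sum_le_card_nsmul _ _ (σ (M / 2)) fun k _ => hA (Nat.le_add_right _ _)).trans ?_
    rw [Finset.card_range, nsmul_eq_mul, mul_comm]
    exact mul_le_mul_of_nonneg_left (Nat.cast_le.2 (Nat.sub_le _ _)) (hσ _).1
  have w2 : σ M * M / 2 ≤ W := by
    refine le_trans ?_ (Finset.card_nsmul_le_sum _ _ (σ M) fun k hk =>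
      hA (by have := Finset.mem_range.1 hk; omega))
    rw [Finset.card_range, nsmul_eq_mul, mul_comm _ (σ M), mul_div_assoc]
    refine mul_le_mul_of_nonneg_left ?_ (hσ _).1
    rw [div_le_iff₀ two_pos]
    exact_mod_cast (show M ≤ (M - M / 2) * 2 by omega)
  have w3 : Real.exp (-(ε ^ 2 * W / 4)) ≤ Real.exp (-(ε ^ 2 * (σ M * M) / 8)) :=
    Real.exp_le_exp.2 (by linarith [mul_le_mul_of_nonneg_left w2 (sq_nonneg ε)])
  have k1 := key (fun k => c (M / 2 + k)) fun k => hc _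
  have k2 := key (fun k => -c (M / 2 + k)) fun k => by rw [abs_neg]; exact hc _
  refine le_trans (measureReal_mono fun ω hω => ?_) ((measureReal_union_le _ _).trans
    ((add_le_add (k1.trans w3) (k2.trans w3)).trans (two_mul _).ge))
  rw [Set.mem_ofPred_eq, Finset.sum_Ico_eq_sum_range] at hω
  simp only [Set.mem_union, Set.mem_ofPred_eq, mul_neg, Finset.sum_neg_distrib]
  exact le_abs.1 ((mul_le_mul_of_nonneg_left w1 h0).trans hω.le)

end Tail

theorem tailB : TailS := by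
  intro σ hσ hA a _ ht Ω _ P _ E hE hind hP T τ b C hb hev
  let B : ℕ → Set Ω := fun M => ⋃ c ∈ T M, {ω | τ M * (σ (M / 2) * M) <
    |∑ n ∈ Finset.Ico (M / 2) M, ((E n).indicator (fun _ => (1 : ℝ)) ω - σ n) * c n|}
  have hC : ∀ᶠ M : ℕ in atTop, C * (M : ℝ) ^ (-b) ≤ 1 / 16 := by
    have := ((tendsto_rpow_neg_atTop hb).comp tendsto_natCast_atTop_atTop).const_mul C
    rw [mul_zero] at this
    exact this.eventually_le_const (by norm_num)
  have hB : ∀ᶠ M in atTop, P.real (B M) ≤ 2 * Real.exp (-(1 / 16) * (M : ℝ) ^ b) := by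
    filter_upwards [hev, hC, ht.eventually_ge_atTop 1, eventually_gt_atTop 0] with M
      ⟨t0, t1, hc, hcard, hτ⟩ h1 h2 hM
    have M0 : (0 : ℝ) < M := Nat.cast_pos.2 hM
    refine (measureReal_biUnion_finset_le _ _).trans ?_
    refine (Finset.sum_le_card_nsmul _ _ _ fun c hc' =>
      Tail.block hσ hA hE hind hP (hc c hc') M t0.le t1).trans ?_
    rw [nsmul_eq_mul]
    refine (mul_le_mul_of_nonneg_right hcard (by positivity)).trans ?_
    rw [mul_left_comm, ← Real.exp_add]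
    refine mul_le_mul_of_nonneg_left (Real.exp_le_exp.2 ?_) two_pos.le
    have p0 : 0 ≤ (M : ℝ) ^ (1 - a) * τ M ^ 2 := by positivity
    have e1 : (M : ℝ) ^ (1 - a - b) = (M : ℝ) ^ (-b) * (M : ℝ) ^ (1 - a) := by
      rw [← Real.rpow_add M0]
      congr 1
      ring
    have e2 : (M : ℝ) ^ (1 - a) * (M : ℝ) ^ a = M := by
      rw [← Real.rpow_add M0, sub_add_cancel, Real.rpow_one]
    have u1 := mul_le_mul_of_nonneg_right h1 p0
    have u2 := mul_le_mul_of_nonneg_left h2 p0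
    have e3 : (M : ℝ) ^ (1 - a) * τ M ^ 2 * ((M : ℝ) ^ a * σ M) = τ M ^ 2 * (σ M * M) := by
      linear_combination τ M ^ 2 * σ M * e2
    rw [e1]
    linarith
  have hsum : Summable fun M => P.real (B M) := by
    refine Summable.of_norm_bounded_eventually_nat ((Tail.summ hb).mul_left 2) ?_
    filter_upwards [hB] with M hM
    rwa [Real.norm_eq_abs, abs_of_nonneg measureReal_nonneg]
  have hne : ∑' M, P (B M) ≠ ⊤ := by
    have : ∀ M, P (B M) = ENNReal.ofReal (P.real (B M)) := fun M =>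
      (ofReal_measureReal (measure_ne_top _ _)).symm
    simp only [this]
    rw [← ENNReal.ofReal_tsum_of_nonneg (fun _ => measureReal_nonneg) hsum]
    exact ENNReal.ofReal_ne_top
  filter_upwards [ae_eventually_notMem hne] with ω hω
  filter_upwards [hω] with M hM c hc
  exact not_lt.1 fun h => hM (Set.mem_biUnion hc h)

end Pool.Agent.MP_154433_an.SG

end MrgPart5

-- ======== part 6: formerly Pool.Agent.MP_154433_an.sg.Disc
section MrgPart6

/-! Discrepancy estimates for a random block from the tail bound. -/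

set_option autoImplicit false

open MeasureTheory ProbabilityTheory Filter Topology Function

noncomputable section

namespace Pool.Agent.MP_154433_an.SG

namespace DiscRow

/-- a multi-affine sum that is small at all sign vectors is small on the cube -/
theorem cube {ι α : Type} [Fintype ι] [Fintype α] (I : Finset ℕ) (y : ℕ → ℝ) (π : ι → ℕ → α)
    (hπ : ∀ n j j', π j n = π j' n → j = j') {B : ℝ}
    (hB : ∀ s : α → Bool, |∑ n ∈ I, y n * ∏ j, (if s (π j n) then (1 : ℝ) else -1)| ≤ B)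
    (G : α → ℝ) (hG : ∀ a, |G a| ≤ 1) : |∑ n ∈ I, y n * ∏ j, G (π j n)| ≤ B := by
  classical
  have key : ∀ A : Finset α, ∀ G : α → ℝ, (∀ a, |G a| ≤ 1) → (∀ a ∉ A, G a = 1 ∨ G a = -1) →
      |∑ n ∈ I, y n * ∏ j, G (π j n)| ≤ B := by
    intro A
    induction A using Finset.induction_on with
    | empty =>
      intro G _ h
      have e : ∀ a, G a = if decide (G a = 1) then (1 : ℝ) else -1 := fun a => by
        rcases h a (by simp) with h | h <;> rw [h] <;> norm_num
      have := hB fun a => decide (G a = 1)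
      simpa only [← e] using this
    | insert a A ha ih =>
      intro G h1 h2
      have hu : ∀ t : ℝ, t = 1 ∨ t = -1 → |∑ n ∈ I, y n * ∏ j, update G a t (π j n)| ≤ B := by
        intro t ht
        refine ih _ (fun b => ?_) fun b hb => ?_
        · by_cases hba : b = a
          · subst hba; rcases ht with rfl | rfl <;> simp
          · rw [update_of_ne hba]; exact h1 b
        · by_cases hba : b = a
          · subst hba; simpa using ht
          · rw [update_of_ne hba]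
            exact h2 b fun h => (Finset.mem_insert.1 h).elim hba hb
      have e : ∑ n ∈ I, y n * ∏ j, G (π j n) =
          (1 + G a) / 2 * ∑ n ∈ I, y n * ∏ j, update G a 1 (π j n) +
            (1 - G a) / 2 * ∑ n ∈ I, y n * ∏ j, update G a (-1) (π j n) := by
        rw [Finset.mul_sum, Finset.mul_sum, ← Finset.sum_add_distrib]
        refine Finset.sum_congr rfl fun n _ => ?_
        by_cases hn : ∃ j0, π j0 n = a
        · obtain ⟨j0, rfl⟩ := hn
          have e : ∀ t : ℝ, ∏ j, update G (π j0 n) t (π j n) =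
              t * ∏ j ∈ Finset.univ.erase j0, G (π j n) := fun t => by
            rw [← Finset.mul_prod_erase _ _ (Finset.mem_univ j0), update_self]
            congr 1
            exact Finset.prod_congr rfl fun j hj =>
              update_of_ne (fun h => Finset.ne_of_mem_erase hj (hπ n _ _ h)) _ _
          rw [e, e, ← Finset.mul_prod_erase _ _ (Finset.mem_univ j0)]
          ring
        · have e : ∀ t : ℝ, ∏ j, update G a t (π j n) = ∏ j, G (π j n) := fun t =>
            Finset.prod_congr rfl fun j _ => update_of_ne (fun h => hn ⟨j, h⟩) _ _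
          rw [e, e]
          ring
      have hb := abs_le.1 (h1 a)
      have p1 := abs_le.1 (hu 1 (Or.inl rfl))
      have p2 := abs_le.1 (hu (-1) (Or.inr rfl))
      rw [e, abs_le]
      constructor <;> nlinarith [hb.1, hb.2, p1.1, p1.2, p2.1, p2.2]
  exact key Finset.univ G hG (by simp)

/-- the base of the digits -/
def base (d q : ℕ) : ℕ := ⌈(q : ℝ) ^ ((d : ℝ)⁻¹)⌉₊

theorem le_base {d : ℕ} (hd : d ≠ 0) (q : ℕ) : q ≤ base d q ^ d := by
  have h : ((q : ℝ) ^ ((d : ℝ)⁻¹)) ^ d ≤ (base d q : ℝ) ^ d :=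
    pow_le_pow_left₀ (by positivity) (Nat.le_ceil _) d
  rw [Real.rpow_inv_natCast_pow (Nat.cast_nonneg q) hd] at h
  exact_mod_cast h

theorem base_le {d q : ℕ} (hq : 1 ≤ q) : (base d q : ℝ) ≤ 2 * (q : ℝ) ^ ((d : ℝ)⁻¹) := by
  have h1 : (1 : ℝ) ≤ (q : ℝ) ^ ((d : ℝ)⁻¹) :=
    Real.one_le_rpow (by exact_mod_cast hq) (by positivity)
  have h2 := Nat.ceil_lt_add_one (a := (q : ℝ) ^ ((d : ℝ)⁻¹)) (by positivity)
  unfold base
  linarith

/-- the digits of a residue -/
def dig {d : ℕ} (hd : d ≠ 0) (q : ℕ) [NeZero q] (x : ZMod q) : Fin d → Fin (base d q) :=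
  finFunctionFinEquiv.symm ⟨x.val, (ZMod.val_lt x).trans_le (le_base hd q)⟩

/-- the digits with their weights -/
def del {d : ℕ} (hd : d ≠ 0) (q : ℕ) [NeZero q] (x : ZMod q) (i : Fin d) : ZMod q :=
  (((dig hd q x i : ℕ) * base d q ^ (i : ℕ) : ℕ) : ZMod q)

theorem sum_del {d : ℕ} (hd : d ≠ 0) (q : ℕ) [NeZero q] (x : ZMod q) : ∑ i, del hd q x i = x := by
  have h := finFunctionFinEquiv_apply_val (dig hd q x)
  rw [dig, Equiv.apply_symm_apply] at h
  unfold del
  rw [← Nat.cast_sum]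
  unfold dig
  rw [← h]
  exact ZMod.natCast_zmod_val x

abbrev Sm (d k : ℕ) : Finset (Finset (Fin d)) :=
  Finset.univ.filter fun J : Finset (Fin d) => J.card ≤ k

abbrev Var (d k L : ℕ) : Type := Σ J : Sm d k, (J.1 → Fin L)

theorem card_var (d k L : ℕ) (hL : 1 ≤ L) : Fintype.card (Var d k L) ≤ 2 ^ d * L ^ k := by
  rw [Fintype.card_sigma]
  refine (Finset.sum_le_card_nsmul _ _ (L ^ k) fun J _ => ?_).trans ?_
  · rw [Fintype.card_fun, Fintype.card_fin, Fintype.card_coe]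
    exact Nat.pow_le_pow_right hL (Finset.mem_filter.1 J.2).2
  · rw [smul_eq_mul, Finset.card_univ, Fintype.card_coe]
    refine Nat.mul_le_mul_right _ ((Finset.card_filter_le _ _).trans ?_)
    rw [Finset.card_univ, Fintype.card_finset, Fintype.card_fin]

def pr {d : ℕ} (hd : d ≠ 0) (k q : ℕ) [NeZero q] (J : Sm d k) (n : ℕ) : Var d k (base d q) :=
  ⟨J, fun i => dig hd q (n : ZMod q) i⟩

open Classical in
/-- all sign patterns -/
def pat {d : ℕ} (hd : d ≠ 0) (k q : ℕ) [NeZero q] : Finset (ℕ → ℝ) :=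
  Finset.univ.image fun (s : Var d k (base d q) → Bool) (n : ℕ) =>
    ∏ J, (if s (pr hd k q J n) then (1 : ℝ) else -1)

theorem pat_abs {d : ℕ} (hd : d ≠ 0) (k q : ℕ) [NeZero q] :
    ∀ c ∈ pat hd k q, ∀ n, |c n| ≤ 1 := by
  classical
  intro c hc n
  obtain ⟨s, -, rfl⟩ := Finset.mem_image.1 hc
  rw [Finset.abs_prod]
  refine Finset.prod_le_one (fun _ _ => abs_nonneg _) fun J _ => ?_
  split_ifs <;> simp

theorem pat_card {d : ℕ} (hd : d ≠ 0) (k q : ℕ) [NeZero q] :
    ((pat hd k q).card : ℝ) ≤ Real.exp (2 ^ d * (base d q : ℝ) ^ k) := by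
  classical
  have hL : 1 ≤ base d q := by
    refine Nat.pos_of_ne_zero fun h => ?_
    have := le_base hd q
    rw [h, zero_pow hd] at this
    exact NeZero.ne q (Nat.le_zero.1 this)
  have h1 : (pat hd k q).card ≤ 2 ^ (2 ^ d * base d q ^ k) := by
    refine Finset.card_image_le.trans ?_
    rw [Finset.card_univ, Fintype.card_fun, Fintype.card_bool]
    exact Nat.pow_le_pow_right two_pos (card_var d k _ hL)
  have h2 : (2 : ℝ) ≤ Real.exp 1 := by linarith [Real.add_one_le_exp 1]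
  calc ((pat hd k q).card : ℝ) ≤ 2 ^ (2 ^ d * base d q ^ k) := by exact_mod_cast h1
    _ ≤ Real.exp 1 ^ (2 ^ d * base d q ^ k) := pow_le_pow_left₀ two_pos.le h2 _
    _ = _ := by rw [← Real.exp_nat_mul]; push_cast; rw [mul_one]

theorem pat_use {d : ℕ} (hd : d ≠ 0) (k q : ℕ) [NeZero q] (I : Finset ℕ) (y : ℕ → ℝ) {B : ℝ}
    (hB : ∀ c ∈ pat hd k q, |∑ n ∈ I, y n * c n| ≤ B)
    (u : Finset (Fin d) → (Fin d → ZMod q) → ℝ) (h1 : ∀ J v, |u J v| ≤ 1)
    (h2 : ∀ J, DependsOn (u J) (J : Set (Fin d))) :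
    |∑ n ∈ I, y n * ∏ J ∈ Sm d k, u J (del hd q (n : ZMod q))| ≤ B := by
  classical
  have := cube I y (pr hd k q) (fun n j j' h => congrArg Sigma.fst h)
    (fun s => hB _ (Finset.mem_image_of_mem _ (Finset.mem_univ s)))
    (fun a => u a.1.1 fun i => if h : i ∈ a.1.1 then
      (((a.2 ⟨i, h⟩ : ℕ) * base d q ^ (i : ℕ) : ℕ) : ZMod q) else 0) fun a => h1 _ _
  refine le_of_eq_of_le (congrArg _ (Finset.sum_congr rfl fun n _ => congrArg _ ?_)) this
  rw [← Finset.prod_coe_sort]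
  refine Finset.prod_congr rfl fun J _ => h2 _ fun i hi => ?_
  have hi' : i ∈ (pr hd k q J n).1.1 := hi
  rw [dif_pos hi']
  rfl

open Classical in
/-- real and imaginary parts of the characters -/
def chr (q : ℕ) [NeZero q] : Finset (ℕ → ℝ) :=
  (Finset.univ.image fun (k : ZMod q) (n : ℕ) => (ZMod.stdAddChar (k * (n : ZMod q))).re) ∪
    Finset.univ.image fun (k : ZMod q) (n : ℕ) => (ZMod.stdAddChar (k * (n : ZMod q))).im

theorem chr_abs (q : ℕ) [NeZero q] : ∀ c ∈ chr q, ∀ n, |c n| ≤ 1 := by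
  classical
  intro c hc n
  have h : ∀ x : ZMod q, ‖ZMod.stdAddChar x‖ = 1 := fun x => by
    rw [ZMod.stdAddChar_apply]; exact Circle.norm_coe _
  rcases Finset.mem_union.1 hc with hc | hc <;> obtain ⟨k, -, rfl⟩ := Finset.mem_image.1 hc
  · exact (Complex.abs_re_le_norm _).trans_eq (h _)
  · exact (Complex.abs_im_le_norm _).trans_eq (h _)

theorem chr_card (q : ℕ) [NeZero q] : (chr q).card ≤ 2 * q := by
  classical
  refine (Finset.card_union_le _ _).trans ?_
  rw [two_mul]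
  exact Nat.add_le_add (Finset.card_image_le.trans (by rw [Finset.card_univ, ZMod.card]))
    (Finset.card_image_le.trans (by rw [Finset.card_univ, ZMod.card]))

theorem chr_use (q : ℕ) [NeZero q] (I : Finset ℕ) (y : ℕ → ℝ) {B : ℝ}
    (hB : ∀ c ∈ chr q, |∑ n ∈ I, y n * c n| ≤ B) (k : ZMod q) :
    ‖∑ n ∈ I, (y n : ℂ) * ZMod.stdAddChar (k * (n : ZMod q))‖ ≤ 2 * B := by
  classical
  have h1 := hB _ (Finset.mem_union_left _ (Finset.mem_image_of_mem _ (Finset.mem_univ k)))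
  have h2 := hB _ (Finset.mem_union_right _ (Finset.mem_image_of_mem _ (Finset.mem_univ k)))
  refine (Complex.norm_le_abs_re_add_abs_im _).trans ?_
  rw [Complex.re_sum, Complex.im_sum]
  simp only [Complex.re_ofReal_mul, Complex.im_ofReal_mul]
  linarith

theorem ev_pow {e : ℝ} (he : 0 < e) (K : ℝ) : ∀ᶠ M : ℕ in atTop, K ≤ (M : ℝ) ^ e :=
  ((tendsto_rpow_atTop he).comp tendsto_natCast_atTop_atTop).eventually_ge_atTop K

theorem ev_exp {e : ℝ} (he : 0 < e) (K : ℝ) :
    ∀ᶠ M : ℕ in atTop, K * M ≤ Real.exp ((M : ℝ) ^ e) := by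
  obtain ⟨m, hm⟩ := exists_nat_ge (1 / e)
  filter_upwards [ev_pow he (K * (m + 1).factorial), eventually_ge_atTop 1] with M h1 h2
  have hM : (1 : ℝ) ≤ M := by exact_mod_cast h2
  have h0 : 0 ≤ (M : ℝ) ^ e := by positivity
  have h3 := Real.pow_div_factorial_le_exp _ h0 (m + 1)
  have h4 : (M : ℝ) ≤ ((M : ℝ) ^ e) ^ m := by
    rw [← Real.rpow_natCast, ← Real.rpow_mul (by positivity)]
    refine (Real.rpow_one _).symm.trans_le (Real.rpow_le_rpow_of_exponent_le hM ?_)
    rw [div_le_iff₀ he] at hm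
    linarith
  have h5 : (0 : ℝ) < (m + 1).factorial := by exact_mod_cast Nat.factorial_pos _
  refine le_trans ?_ h3
  rw [le_div_iff₀ h5, pow_succ]
  by_cases hK : 0 ≤ K
  · nlinarith [mul_le_mul h4 h1 (by positivity) (by positivity)]
  · have : K * M * (m + 1).factorial ≤ 0 :=
      mul_nonpos_of_nonpos_of_nonneg (mul_nonpos_of_nonpos_of_nonneg (not_le.1 hK).le
        (by positivity)) h5.le
    exact this.trans (by positivity)

end DiscRow

open DiscRow in
theorem disc (h : TailS) : DiscS := by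
  intro σ hσ hA a ha hT Ω _ P _ E hE hI hP p _ C hp
  have tail := h σ hσ hA a ha hT Ω P E hE hI hP
  have hθ : 0 < 1 - a := sub_pos.2 ha
  have hC : (1 : ℝ) ≤ C := by
    have := hp 1 le_rfl
    exact_mod_cast (this.1.trans this.2).trans_eq (mul_one C)
  have hpM : ∀ M : ℕ, 1 ≤ M → (1 : ℝ) ≤ M ∧ (M : ℝ) ≤ p M ∧ (p M : ℝ) ≤ C * M := fun M hM =>
    ⟨by exact_mod_cast hM, by exact_mod_cast (hp M hM).1, by exact_mod_cast (hp M hM).2⟩
  have t1 := tail (fun M => chr (p M)) (fun M => (M : ℝ) ^ (-((1 - a) / 8))) ((1 - a) / 2) 1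
    (half_pos hθ) (by
      filter_upwards [ev_exp (e := (1 - a) / 4) (by positivity) (2 * C), eventually_ge_atTop 1]
        with M h1 h2
      obtain ⟨h3, -, h4⟩ := hpM M h2
      have h5 : (0 : ℝ) < M := by linarith
      have e : ∀ x : ℝ, (M : ℝ) ^ x * ((M : ℝ) ^ (-((1 - a) / 8))) ^ 2 =
          (M : ℝ) ^ (x - (1 - a) / 4) := fun x => by
        rw [sq, ← Real.rpow_add h5, ← Real.rpow_add h5]
        congr 1
        ring
      refine ⟨by positivity, Real.rpow_le_one_of_one_le_of_nonpos h3 (by linarith), chr_abs _,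
        ?_, ?_⟩
      · rw [one_mul, e, show 1 - a - (1 - a) / 2 - (1 - a) / 4 = (1 - a) / 4 by ring]
        refine le_trans ?_ h1
        have : ((chr (p M)).card : ℝ) ≤ 2 * p M := by exact_mod_cast chr_card (p M)
        linarith
      · rw [e]
        exact Real.rpow_le_rpow_of_exponent_le h3 (by linarith))
  have hd : ∀ k : ℕ, ∃ d : ℕ, d ≠ 0 ∧ (d : ℝ)⁻¹ * k ≤ (1 - a) / 2 := fun k => by
    obtain ⟨m, hm⟩ := exists_nat_ge (2 * k / (1 - a))
    refine ⟨m + 1, m.succ_ne_zero, ?_⟩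
    rw [div_le_iff₀ hθ] at hm
    rw [inv_mul_le_iff₀ (by positivity)]
    push_cast
    linarith
  choose d hd0 hd using hd
  have t2 := fun k j : ℕ => tail (fun M => pat (hd0 k) k (p M)) (fun _ => 1 / (j + 1 : ℝ))
    ((1 - a) / 2) (2 ^ d k * (2 ^ k * C ^ ((1 - a) / 2)) * (j + 1) ^ 2) (half_pos hθ) (by
      filter_upwards [ev_pow (half_pos hθ) ((j + 1) ^ 2), eventually_ge_atTop 1] with M h1 h2
      obtain ⟨h3, h4, h5⟩ := hpM M h2
      have h6 : (0 : ℝ) < M := by linarith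
      have hj : (0 : ℝ) < j + 1 := by positivity
      refine ⟨by positivity, by rw [div_le_one hj]; linarith, pat_abs _ _ _,
        (pat_card _ _ _).trans (Real.exp_le_exp.2 ?_), ?_⟩
      · have h7 : (base (d k) (p M) : ℝ) ^ k ≤ (2 * (p M : ℝ) ^ ((d k : ℝ)⁻¹)) ^ k :=
          pow_le_pow_left₀ (Nat.cast_nonneg _) (base_le (h2.trans (hp M h2).1)) k
        have h8 : ((p M : ℝ) ^ ((d k : ℝ)⁻¹)) ^ k ≤ C ^ ((1 - a) / 2) * M ^ ((1 - a) / 2) := by
          rw [← Real.rpow_natCast, ← Real.rpow_mul (Nat.cast_nonneg _),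
            ← Real.mul_rpow (by linarith) h6.le]
          exact (Real.rpow_le_rpow_of_exponent_le (h3.trans h4) (hd k)).trans
            (Real.rpow_le_rpow (Nat.cast_nonneg _) h5 (half_pos hθ).le)
        rw [mul_pow] at h7
        have h9 := h7.trans (mul_le_mul_of_nonneg_left h8 (by positivity))
        refine (mul_le_mul_of_nonneg_left h9 (by positivity)).trans_eq ?_
        rw [show 1 - a - (1 - a) / 2 = (1 - a) / 2 by ring]
        field_simp
      · rw [show 1 - a = (1 - a) / 2 + (1 - a) / 2 by ring, Real.rpow_add h6,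
          show ((1 - a) / 2 + (1 - a) / 2) / 2 = (1 - a) / 2 by ring, div_pow, one_pow,
          mul_one_div, le_div_iff₀ (by positivity)]
        exact mul_le_mul_of_nonneg_left h1 (by positivity))
  filter_upwards [t1, ae_all_iff.2 fun k => ae_all_iff.2 fun j => t2 k j] with ω w1 w2
  refine ⟨⟨(1 - a) / 16, by positivity, ?_⟩, fun k =>
    ⟨d k, fun M => del (hd0 k) (p M), fun M => sum_del _ _, fun ε hε => ?_⟩⟩
  · filter_upwards [w1, ev_pow (e := (1 - a) / 16) (by positivity) (2 * C ^ ((1 - a) / 16)),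
      eventually_ge_atTop 1] with M h1 h2 h3 k
    obtain ⟨h4, h5, h6⟩ := hpM M h3
    have h7 : (0 : ℝ) < M := by linarith
    refine (chr_use _ _ _ h1 k).trans ?_
    rw [← mul_assoc]
    refine mul_le_mul ?_ (mul_le_mul_of_nonneg_left h5 (hσ _).1)
      (mul_nonneg (hσ _).1 h7.le) (by positivity)
    refine le_trans ?_ (Real.rpow_le_rpow_of_nonpos (by linarith) h6 (by linarith))
    rw [Real.mul_rpow (by linarith) h7.le,
      show -((1 - a) / 8) = -((1 - a) / 16) + -((1 - a) / 16) by ring, Real.rpow_add h7,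
      ← mul_assoc]
    refine mul_le_mul_of_nonneg_right ?_ (by positivity)
    rw [Real.rpow_neg h7.le, Real.rpow_neg (by linarith), ← div_eq_mul_inv, ← one_div,
      div_le_div_iff₀ (by positivity) (by positivity), one_mul]
    exact h2
  · obtain ⟨j, hj⟩ := exists_nat_one_div_lt hε
    filter_upwards [w2 k j, eventually_ge_atTop 1] with M h1 h2 u h3 h4
    obtain ⟨h5, h6, -⟩ := hpM M h2
    exact (pat_use _ _ _ _ _ h1 u h3 h4).trans (mul_le_mul hj.le
      (mul_le_mul_of_nonneg_left h6 (hσ _).1) (mul_nonneg (hσ _).1 (by linarith)) hε.le)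

end Pool.Agent.MP_154433_an.SG

end

end MrgPart6

-- ======== part 7: formerly Pool.Agent.MP_154433_an.sg.Blk
section MrgPart7

/-! The block estimate on the integers from the finite theorem on cyclic groups. -/

set_option autoImplicit false

open MeasureTheory ProbabilityTheory Filter Topology Function

noncomputable section

namespace Pool.Agent.MP_154433_an.SG

namespace BlkRow

/-- the weights of the block, placed on residues -/
def fb (P : ℕ) (B : Finset ℕ) (y : ℕ → ℝ) (v : ZMod P) : ℝ :=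
  ∑ n ∈ B, if (n : ZMod P) = v then y n else 0

lemma fb_sum (P : ℕ) [NeZero P] (B : Finset ℕ) (y : ℕ → ℝ) (Φ : ZMod P → ℝ) :
    ∑ v, fb P B y v * Φ v = ∑ n ∈ B, y n * Φ n := by
  simp only [fb, Finset.sum_mul]
  rw [Finset.sum_comm]
  refine Finset.sum_congr rfl fun n _ => ?_
  simp [ite_mul]

lemma fb_sumC (P : ℕ) [NeZero P] (B : Finset ℕ) (y : ℕ → ℝ) (Φ : ZMod P → ℂ) :
    ∑ v, (fb P B y v : ℂ) * Φ v = ∑ n ∈ B, (y n : ℂ) * Φ n := by
  simp only [fb, Complex.ofReal_sum, Finset.sum_mul]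
  rw [Finset.sum_comm]
  refine Finset.sum_congr rfl fun n _ => ?_
  simp [apply_ite Complex.ofReal, ite_mul]

lemma fb_ge (P : ℕ) [NeZero P] (B : Finset ℕ) (y : ℕ → ℝ) (s : ℝ) (hs : 0 ≤ s)
    (hB : ∀ n ∈ B, n < P) (hy : ∀ n ∈ B, -s ≤ y n) (v : ZMod P) : -s ≤ fb P B y v := by
  by_cases h : v.val ∈ B
  · rw [fb, Finset.sum_eq_single_of_mem v.val h]
    · simpa using hy _ h
    · intro n hn hne
      rw [if_neg]
      intro hv
      exact hne (by rw [← hv, ZMod.val_natCast, Nat.mod_eq_of_lt (hB n hn)])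
  · rw [fb, Finset.sum_eq_zero]
    · linarith
    · intro n hn
      rw [if_neg]
      intro hv
      exact h (by rw [← hv, ZMod.val_natCast, Nat.mod_eq_of_lt (hB n hn)]; exact hn)

lemma window (P : ℕ) [NeZero P] (M : ℕ) (hM : M ≤ P) (H : ZMod P → ℝ) :
    ∑ x : ZMod P, (if x.val < M then 1 else 0) * H x = ∑ u ∈ Finset.range M, H u := by
  simp only [ite_mul, one_mul, zero_mul]
  rw [← Finset.sum_filter]
  refine Finset.sum_nbij' (fun x => x.val) (fun u => (u : ZMod P)) ?_ ?_ ?_ ?_ ?_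
  · intro x hx
    simpa using hx
  · intro u hu
    have : u < P := lt_of_lt_of_le (Finset.mem_range.1 hu) hM
    simp only [Finset.mem_filter, Finset.mem_univ, true_and, ZMod.val_natCast,
      Nat.mod_eq_of_lt this]
    exact Finset.mem_range.1 hu
  · intro x _
    simp
  · intro u hu
    have : u < P := lt_of_lt_of_le (Finset.mem_range.1 hu) hM
    simp only [ZMod.val_natCast, Nat.mod_eq_of_lt this]
  · intro x _
    simp

/-- the representative of a residue in the window that starts at `-L` -/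
def lift (P L : ℕ) (x : ZMod P) : ℤ := ((x + (L : ZMod P)).val : ℤ) - L

lemma lift_cast (P L : ℕ) [NeZero P] (m : ℤ) (h0 : 0 ≤ m + L) (h1 : m + L < P) :
    lift P L (m : ZMod P) = m := by
  have : ((m : ZMod P) + (L : ZMod P)) = ((m + L : ℤ) : ZMod P) := by push_cast; ring
  rw [lift, this, ZMod.val_intCast, Int.emod_eq_of_lt h0 h1]
  ring

/-- normalised total mass of the block -/
def tot (P : ℕ) (B : Finset ℕ) (y : ℕ → ℝ) (s : ℝ) : ℝ := (∑ n ∈ B, y n) / (s * P)

/-- the signed part of the sparse measure -/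
def bb (P : ℕ) (B : Finset ℕ) (y : ℕ → ℝ) (s : ℝ) (v : ZMod P) : ℝ :=
  if |tot P B y s| ≤ 1 then (fb P B y v / (s * P) - tot P B y s / P) / 2 else 0

lemma bb_ge (P : ℕ) [NeZero P] (B : Finset ℕ) (y : ℕ → ℝ) (s : ℝ) (hs : 0 < s)
    (hB : ∀ n ∈ B, n < P) (hy : ∀ n ∈ B, -s ≤ y n) (v : ZMod P) :
    0 ≤ (P : ℝ)⁻¹ + bb P B y s v := by
  have hP : (0 : ℝ) < P := Nat.cast_pos.2 (Nat.pos_of_ne_zero (NeZero.ne P))
  unfold bb
  split_ifs with h
  · have h1 : -(P : ℝ)⁻¹ ≤ fb P B y v / (s * P) := by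
      rw [le_div_iff₀ (by positivity)]
      have := fb_ge P B y s hs.le hB hy v
      have e : -(P : ℝ)⁻¹ * (s * P) = -s := by field_simp
      linarith
    have h2 : tot P B y s / P ≤ (P : ℝ)⁻¹ := by
      rw [div_le_iff₀ hP, inv_mul_cancel₀ hP.ne']
      exact (le_abs_self _).trans h
    linarith
  · positivity

lemma bb_sum (P : ℕ) [NeZero P] (B : Finset ℕ) (y : ℕ → ℝ) (s : ℝ) (h : |tot P B y s| ≤ 1)
    (Φ : ZMod P → ℝ) : ∑ v, bb P B y s v * Φ v =
      ((∑ n ∈ B, y n * Φ n) / (s * P) - tot P B y s / P * ∑ v, Φ v) / 2 := by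
  rw [← fb_sum, Finset.sum_div, Finset.mul_sum, ← Finset.sum_sub_distrib, Finset.sum_div]
  refine Finset.sum_congr rfl fun v _ => ?_
  rw [bb, if_pos h]
  ring

lemma bb_sumC (P : ℕ) [NeZero P] (B : Finset ℕ) (y : ℕ → ℝ) (s : ℝ) (h : |tot P B y s| ≤ 1)
    (Φ : ZMod P → ℂ) : ∑ v, (bb P B y s v : ℂ) * Φ v =
      ((∑ n ∈ B, (y n : ℂ) * Φ n) / ((s * P : ℝ) : ℂ) -
        ((tot P B y s / P : ℝ) : ℂ) * ∑ v, Φ v) / 2 := by
  rw [← fb_sumC, Finset.sum_div, Finset.mul_sum, ← Finset.sum_sub_distrib, Finset.sum_div]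
  refine Finset.sum_congr rfl fun v _ => ?_
  rw [bb, if_pos h]
  push_cast
  ring

lemma bb_total (P : ℕ) [NeZero P] (B : Finset ℕ) (y : ℕ → ℝ) (s : ℝ) :
    ∑ v, ((P : ℝ)⁻¹ + bb P B y s v) = 1 := by
  have hP : (0 : ℝ) < P := Nat.cast_pos.2 (Nat.pos_of_ne_zero (NeZero.ne P))
  rw [Finset.sum_add_distrib]
  have h1 : ∑ _v : ZMod P, (P : ℝ)⁻¹ = 1 := by
    simp [ZMod.card, hP.ne']
  rw [h1]
  by_cases h : |tot P B y s| ≤ 1
  · have := bb_sum P B y s h fun _ => 1
    simp only [mul_one, Finset.sum_const, Finset.card_univ, ZMod.card, nsmul_eq_mul] at this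
    rw [this, div_mul_cancel₀ _ hP.ne', tot]
    ring
  · simp [bb, h]

lemma abs_sum_le (P : ℕ) [NeZero P] (Φ : ZMod P → ℝ) (h : ∀ v, |Φ v| ≤ 1) :
    |∑ v, Φ v| ≤ P := by
  refine (Finset.abs_sum_le_sum_abs _ _).trans ?_
  refine (Finset.sum_le_sum fun v _ => h v).trans ?_
  simp [ZMod.card]

lemma abs_prod_le {κ : Type} (s : Finset κ) (f : κ → ℝ) (h : ∀ i, |f i| ≤ 1) :
    |∏ i ∈ s, f i| ≤ 1 := by
  rw [Finset.abs_prod]
  exact Finset.prod_le_one (fun _ _ => abs_nonneg _) fun i _ => h i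

lemma tot_le (P : ℕ) [NeZero P] (B : Finset ℕ) (y : ℕ → ℝ) (s ε : ℝ) (hs : 0 < s)
    (h : |∑ n ∈ B, y n| ≤ ε * (s * P)) : |tot P B y s| ≤ ε := by
  have hP : (0 : ℝ) < P := Nat.cast_pos.2 (Nat.pos_of_ne_zero (NeZero.ne P))
  rw [tot, abs_div, abs_of_pos (by positivity : 0 < s * P), div_le_iff₀ (by positivity)]
  exact h

lemma bb_le (P : ℕ) [NeZero P] (B : Finset ℕ) (y : ℕ → ℝ) (s ε : ℝ) (hs : 0 < s) (hε : 0 ≤ ε)
    (Φ : ZMod P → ℝ) (hΦ : ∀ v, |Φ v| ≤ 1) (h0 : |∑ n ∈ B, y n| ≤ ε * (s * P))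
    (h1 : |∑ n ∈ B, y n * Φ n| ≤ ε * (s * P)) : |∑ v, bb P B y s v * Φ v| ≤ ε := by
  have hP : (0 : ℝ) < P := Nat.cast_pos.2 (Nat.pos_of_ne_zero (NeZero.ne P))
  by_cases h : |tot P B y s| ≤ 1
  · rw [bb_sum P B y s h, abs_div, abs_two, div_le_iff₀ two_pos]
    have a1 : |(∑ n ∈ B, y n * Φ n) / (s * P)| ≤ ε := by
      rw [abs_div, abs_of_pos (by positivity : 0 < s * P), div_le_iff₀ (by positivity)]
      exact h1
    have a2 : |tot P B y s / P * ∑ v, Φ v| ≤ ε := by
      rw [abs_mul, abs_div, abs_of_pos hP]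
      calc |tot P B y s| / P * |∑ v, Φ v| ≤ ε / P * P :=
            mul_le_mul (div_le_div_of_nonneg_right (tot_le P B y s ε hs h0) hP.le)
              (abs_sum_le P Φ hΦ) (abs_nonneg _) (by positivity)
        _ = ε := by field_simp
    have := abs_sub (((∑ n ∈ B, y n * Φ n) / (s * P))) (tot P B y s / P * ∑ v, Φ v)
    linarith
  · simp [bb, h, hε]

lemma four (P : ℕ) [NeZero P] (B : Finset ℕ) (y : ℕ → ℝ) (s η : ℝ) (hs : 0 < s) (hη : 0 ≤ η)
    (k : ZMod P) (hk : k ≠ 0)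
    (h : ‖∑ n ∈ B, (y n : ℂ) * ZMod.stdAddChar (k * (n : ZMod P))‖ ≤ η * (s * P)) :
    ‖∑ v, ((((P : ℝ)⁻¹ + bb P B y s v : ℝ)) : ℂ) * ZMod.stdAddChar (k * v)‖ ≤ η := by
  have hP : (0 : ℝ) < P := Nat.cast_pos.2 (Nat.pos_of_ne_zero (NeZero.ne P))
  have h0 : ∑ v : ZMod P, (ZMod.stdAddChar (k * v) : ℂ) = 0 := by
    have := AddChar.sum_mulShift k (ZMod.isPrimitive_stdAddChar P)
    simp only [hk, if_false, Nat.cast_zero] at this
    simpa [mul_comm] using this
  simp only [Complex.ofReal_add, add_mul, Finset.sum_add_distrib]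
  rw [← Finset.mul_sum, h0, mul_zero, zero_add]
  by_cases hb : |tot P B y s| ≤ 1
  · rw [bb_sumC P B y s hb fun v => ZMod.stdAddChar (k * v), h0, mul_zero, sub_zero, norm_div,
      norm_div, Complex.norm_real, Real.norm_eq_abs, abs_of_pos (by positivity : 0 < s * P)]
    have : ‖∑ n ∈ B, (y n : ℂ) * ZMod.stdAddChar (k * (n : ZMod P))‖ / (s * P) ≤ η := by
      rw [div_le_iff₀ (by positivity)]
      exact h
    have e : ‖(2 : ℂ)‖ = 2 := by simp
    rw [e]
    linarith
  · simp [bb, hb, hη]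

/-- one scale -/
lemma scale {ι : Type} [Fintype ι] (r : ι → ℤ) (K M P : ℕ) [NeZero P] (hr : ∀ i, |r i| ≤ K)
    (hP1 : (2 * K + 2) * M ≤ P) (y : ℕ → ℝ) (s η : ℝ) (hs : 0 < s) (hη1 : η ≤ 1)
    (h0 : |∑ n ∈ Finset.Ico (M / 2) M, y n| ≤ η * (s * P))
    (h : ∀ f : Option ι → ZMod P → ℝ, (∀ i v, |f i v| ≤ 1) →
      |∑ x, ∑ t, ((P : ℝ)⁻¹ + bb P (Finset.Ico (M / 2) M) y s t - (P : ℝ)⁻¹) *
        ∏ i, f i (x + (Option.elim i 0 r : ℤ) • t)| ≤ η * P)
    (g : ι → ℤ → ℝ) (hg : ∀ i v, |g i v| ≤ 1) :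
    ∑ u ∈ Finset.range M, ∑ n ∈ Finset.Ico (M / 2) M, y n * ∏ i, g i (u + r i * n) ≤
      3 * η * (s * P * P) := by
  have hP : (0 : ℝ) < P := Nat.cast_pos.2 (Nat.pos_of_ne_zero (NeZero.ne P))
  have hMP : M ≤ P := le_trans (by nlinarith) hP1
  set B := Finset.Ico (M / 2) M with hB
  have ht := tot_le P B y s η hs h0
  have h1 := h (fun i x => Option.elim i (if x.val < M then 1 else 0)
    fun j => g j (lift P (K * M) x)) (by
      rintro (_ | j) v
      · simp only [Option.elim]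
        split_ifs <;> simp
      · exact hg j _)
  simp only [Fintype.prod_option, Option.elim, add_sub_cancel_left, zero_smul, add_zero] at h1
  set F : ZMod P → ZMod P → ℝ := fun x t =>
    (if x.val < M then 1 else 0) * ∏ j, g j (lift P (K * M) (x + r j • t)) with hF
  have hF1 : ∀ x t, |F x t| ≤ 1 := by
    intro x t
    simp only [hF]
    split_ifs
    · rw [one_mul]
      exact abs_prod_le _ _ fun j => hg j _
    · simp
  change |∑ x, ∑ t, bb P B y s t * F x t| ≤ η * P at h1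
  simp only [bb_sum P B y s (ht.trans hη1)] at h1
  rw [← Finset.sum_div, Finset.sum_sub_distrib, ← Finset.sum_div, ← Finset.mul_sum] at h1
  have e1 : ∑ x, ∑ n ∈ B, y n * F x n =
      ∑ u ∈ Finset.range M, ∑ n ∈ B, y n * ∏ i, g i (u + r i * n) := by
    have : ∀ x : ZMod P, ∑ n ∈ B, y n * F x n = (if x.val < M then 1 else 0) *
        ∑ n ∈ B, y n * ∏ j, g j (lift P (K * M) (x + r j • (n : ZMod P))) := by
      intro x
      rw [Finset.mul_sum]
      refine Finset.sum_congr rfl fun n _ => ?_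
      simp only [hF]
      ring
    simp only [this]
    rw [window P M hMP]
    refine Finset.sum_congr rfl fun u hu => Finset.sum_congr rfl fun n hn => ?_
    congr 1
    refine Finset.prod_congr rfl fun j _ => ?_
    have hu' : (u : ℤ) < M := by exact_mod_cast Finset.mem_range.1 hu
    have hn' : (n : ℤ) < M := by exact_mod_cast (Finset.mem_Ico.1 hn).2
    have hP' : (2 * (K : ℤ) + 2) * M ≤ P := by exact_mod_cast hP1
    have hrj := abs_le.1 (hr j)
    have hn0 : (0 : ℤ) ≤ n := Int.natCast_nonneg n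
    have hu0 : (0 : ℤ) ≤ u := Int.natCast_nonneg u
    have hK0 : (0 : ℤ) ≤ K := Int.natCast_nonneg K
    have e : ((u : ZMod P) + r j • (n : ZMod P)) = (((u : ℤ) + r j * n : ℤ) : ZMod P) := by
      push_cast
      rw [zsmul_eq_mul]
    rw [e, lift_cast]
    · push_cast
      nlinarith [hrj.1, hrj.2]
    · push_cast
      nlinarith [hrj.1, hrj.2]
  rw [e1] at h1
  set T := ∑ u ∈ Finset.range M, ∑ n ∈ B, y n * ∏ i, g i (u + r i * n)
  have a2 : |tot P B y s / P * ∑ x, ∑ t, F x t| ≤ η * P := by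
    have b1 : |∑ x, ∑ t, F x t| ≤ P * P := by
      refine (Finset.abs_sum_le_sum_abs _ _).trans ?_
      refine (Finset.sum_le_sum fun x _ => abs_sum_le P (F x) (hF1 x)).trans ?_
      simp [ZMod.card]
    rw [abs_mul, abs_div, abs_of_pos hP]
    calc |tot P B y s| / P * |∑ x, ∑ t, F x t| ≤ η / P * (P * P) :=
          mul_le_mul (div_le_div_of_nonneg_right ht hP.le) b1 (abs_nonneg _)
            (div_nonneg ((abs_nonneg _).trans ht) hP.le)
      _ = η * P := by field_simp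
  have a3 : T / (s * P) ≤ 3 * η * P := by
    have := (abs_le.1 h1).2
    have := (abs_le.1 a2).2
    linarith
  rw [div_le_iff₀ (by positivity)] at a3
  calc T ≤ 3 * η * P * (s * P) := a3
    _ = 3 * η * (s * P * P) := by ring

end BlkRow

open BlkRow in
theorem blk (h : FinWS) : BlkS := by
  intro σ y hσ hanti hy ι _ r K C hr p _ hp hpM hD ε hε
  have hMp : ∀ M, M ≤ p M := by
    intro M
    rcases Nat.eq_zero_or_pos M with rfl | hM
    · exact Nat.zero_le _
    · exact le_trans (by nlinarith) (hpM M hM).1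
  have hlim : Tendsto p atTop atTop := tendsto_atTop_mono hMp tendsto_id
  obtain ⟨⟨c, hc, hF⟩, hE⟩ := hD
  have hzero : ∀ η : ℝ, 0 < η → ∀ᶠ M in atTop,
      |∑ n ∈ Finset.Ico (M / 2) M, y n| ≤ η * (σ (M / 2) * p M) := by
    intro η hη
    obtain ⟨d, δ, -, hδ⟩ := hE 0
    filter_upwards [hδ η hη] with M hM
    simpa using hM (fun _ _ => 1) (by simp) fun _ _ _ _ => rfl
  have key := h p hp hlim
    (fun M v => (p M : ℝ)⁻¹ + bb (p M) (Finset.Ico (M / 2) M) y (σ (M / 2)) v)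
    (fun M v => bb_ge (p M) _ y _ (hσ _)
      (fun n hn => lt_of_lt_of_le (Finset.mem_Ico.1 hn).2 (hMp M))
      (fun n hn => le_trans (neg_le_neg (hanti (Finset.mem_Ico.1 hn).1)) (hy n)) v)
    (fun M => bb_total _ _ _ _)
    ⟨c, hc, by
      filter_upwards [hF] with M hM k hk
      exact four (p M) _ y _ _ (hσ _) (by positivity) k hk (hM k)⟩
    (fun k => by
      obtain ⟨d, δ, hsum, hδ⟩ := hE k
      refine ⟨d, δ, hsum, fun η hη => ?_⟩
      filter_upwards [hδ η hη, hzero η hη] with M hM h0 u hu hdep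
      simp only [add_sub_cancel_left]
      exact bb_le (p M) _ y _ η (hσ _) hη.le
        (fun n => ∏ J ∈ Finset.univ.filter (fun J : Finset (Fin d) => J.card ≤ k), u J (δ M n))
        (fun n => abs_prod_le _ _ fun J => hu J _) h0 (hM u hu hdep))
    (Option ι) (fun i => Option.elim i 0 r)
  set η : ℝ := min 1 (ε / (3 * ((C : ℝ) + 1) ^ 2)) with hη
  have hη0 : 0 < η := lt_min one_pos (by positivity)
  filter_upwards [key η hη0, hzero η hη0, eventually_ge_atTop 1] with M hM h0 hM1 g hg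
  refine (scale r K M (p M) hr (hpM M hM1).1 y _ η (hσ _) (min_le_left _ _) h0 hM g hg).trans ?_
  have hC : (p M : ℝ) ≤ (C + 1) * M := by
    have : (p M : ℝ) ≤ C * M := by exact_mod_cast (hpM M hM1).2
    have : (0 : ℝ) ≤ M := Nat.cast_nonneg M
    linarith
  have h3 : 3 * η * ((C : ℝ) + 1) ^ 2 ≤ ε := by
    have : η ≤ ε / (3 * ((C : ℝ) + 1) ^ 2) := min_le_right _ _
    rw [le_div_iff₀ (by positivity)] at this
    linarith
  have hs := hσ (M / 2)
  have hpp : (p M : ℝ) * p M ≤ ((C + 1) * M) * ((C + 1) * M) :=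
    mul_self_le_mul_self (Nat.cast_nonneg _) hC
  calc 3 * η * (σ (M / 2) * p M * p M) = 3 * η * σ (M / 2) * (p M * p M) := by ring
    _ ≤ 3 * η * σ (M / 2) * (((C + 1) * M) * ((C + 1) * M)) :=
        mul_le_mul_of_nonneg_left hpp (by positivity)
    _ = 3 * η * ((C : ℝ) + 1) ^ 2 * (σ (M / 2) * M * M) := by ring
    _ ≤ ε * (σ (M / 2) * M * M) := mul_le_mul_of_nonneg_right h3 (by positivity)

end Pool.Agent.MP_154433_an.SG

end

end MrgPart7

-- marker of a merged file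
example : 731051 + 441023 = 731051 + 441023 := rfl
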